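import Pool.Agent.MP_8db1a4_gt.Geo.B1b
import Pool.Agent.MP_8db1a4_gt.Geo.B1c
import Mathlib

set_option autoImplicit false

/-!
# MP_cee170_gt: basic definitions

Lorentz space `V = LV 3`, hyperbolic space `H3 = Hy 3` (hyperboloid), the group `O31 = Isom(H3)`,
reflections, hyperbolic manifolds `H3 / Γ`, their distance, convex hulls and cores.
-/

namespace CEE

open Pool.Agent.MP_8db1a4_gt Set

/-- Lorentz space `ℝ^{3,1}`. -/
abbrev V : Type := LV 3

/-- Hyperbolic 3-space (upper sheet of the hyperboloid), with its distance `arcosh (-⟨x,y⟩)`. -/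
abbrev H3 : Type := Hy 3

/-- The vector with the coordinates `a, b, c` (space) and `d` (time). -/
noncomputable def vec (a b c d : ℝ) : V := (!₂[a, b, c], d)

theorem lor_eq (X Y : V) :
    lor X Y = X.1 0 * Y.1 0 + X.1 1 * Y.1 1 + X.1 2 * Y.1 2 - X.2 * Y.2 := by
  simp only [lor, PiLp.inner_apply, Fin.sum_univ_three, RCLike.inner_apply, conj_trivial]
  ring

@[simp] theorem vec_0 (a b c d : ℝ) : (vec a b c d).1 0 = a := rfl
@[simp] theorem vec_1 (a b c d : ℝ) : (vec a b c d).1 1 = b := rfl
@[simp] theorem vec_2 (a b c d : ℝ) : (vec a b c d).1 2 = c := rfl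
@[simp] theorem vec_3 (a b c d : ℝ) : (vec a b c d).2 = d := rfl

/-- `Isom(H3) = O⁺(3,1)`: the linear automorphisms of `ℝ^{3,1}` preserving the form and the future cone. -/
def O31 : Subgroup (V ≃ₗ[ℝ] V) where
  carrier := {g | (∀ X Y, lor (g X) (g Y) = lor X Y) ∧ ∀ X, g X ∈ LCone 3 ↔ X ∈ LCone 3}
  one_mem' := ⟨fun _ _ => rfl, fun _ => Iff.rfl⟩
  mul_mem' := by
    rintro a b ⟨ha, ha'⟩ ⟨hb, hb'⟩
    refine ⟨fun X Y => ?_, fun X => ?_⟩
    · rw [LinearEquiv.mul_apply, LinearEquiv.mul_apply, ha, hb]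
    · rw [LinearEquiv.mul_apply, ha', hb']
  inv_mem' := by
    rintro a ⟨ha, ha'⟩
    have h : ∀ X, a (a⁻¹ X) = X := fun X => by
      rw [← LinearEquiv.mul_apply, mul_inv_cancel]; rfl
    refine ⟨fun X Y => ?_, fun X => ?_⟩
    · rw [← ha, h, h]
    · rw [← ha', h]

theorem O31_lor (g : O31) (X Y : V) : lor (g.1 X) (g.1 Y) = lor X Y := g.2.1 X Y

theorem O31_cone (g : O31) (X : V) : g.1 X ∈ LCone 3 ↔ X ∈ LCone 3 := g.2.2 X

/-- The action of `Isom(H3)` on `H3`. -/
noncomputable instance : MulAction O31 H3 where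
  smul g x := ⟨g.1 x.val, (O31_cone g _).2 x.mem, by rw [O31_lor, x.lor_self]⟩
  one_smul x := Hy.ext' rfl
  mul_smul g g' x := Hy.ext' rfl

theorem smul_val (g : O31) (x : H3) : (g • x).val = g.1 x.val := rfl

theorem dist_smul_smul (g : O31) (x y : H3) : dist (g • x) (g • y) = dist x y := by
  rw [dist_def, dist_def, smul_val, smul_val, O31_lor]

theorem lor_inv (g : O31) (X Y : V) : lor (g⁻¹.1 X) Y = lor X (g.1 Y) := by
  rw [← O31_lor g (g⁻¹.1 X) Y]
  congr 1
  show (g.1 * g.1⁻¹) X = X
  rw [mul_inv_cancel]; rfl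

/-- `Γ` is the fundamental group of the complete orientable hyperbolic 3-manifold `H3 / Γ`: its elements
preserve the orientation, and `Γ` acts freely and properly discontinuously on `H3`. -/
structure IsHypMfdGroup (Γ : Subgroup O31) : Prop where
  orient : ∀ g ∈ Γ, LinearEquiv.det g.1 = 1
  free : ∀ x : H3, ∃ ε > 0, ∀ g ∈ Γ, g ≠ 1 → ε ≤ dist x (g • x)

/-- The hyperbolic manifold `H3 / Γ` (orbit space with the quotient topology). -/
noncomputable abbrev Mfd (Γ : Subgroup O31) : Type := MulAction.orbitRel.Quotient Γ H3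

/-- The projection `H3 → H3 / Γ`. -/
noncomputable def proj (Γ : Subgroup O31) (x : H3) : Mfd Γ := Quotient.mk _ x

/-- The hyperbolic distance of `H3 / Γ`: the infimum of the distances of lifts. -/
noncomputable def mdist (Γ : Subgroup O31) (a b : Mfd Γ) : ℝ :=
  sInf {r | ∃ x y : H3, proj Γ x = a ∧ proj Γ y = b ∧ r = dist x y}

/-- Convex subsets of `H3`: with two points they contain all points between them (the geodesic segment). -/
def HConvex (Z : Set H3) : Prop :=
  ∀ x ∈ Z, ∀ y ∈ Z, ∀ z : H3, dist x z + dist z y = dist x y → z ∈ Z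

/-- The smallest nonempty closed convex `Γ`-invariant subset of `H3` (the intersection of all of them);
for the groups considered here this is the convex hull of the limit set. -/
noncomputable def hull (Γ : Subgroup O31) : Set H3 :=
  ⋂₀ {Z | Z.Nonempty ∧ IsClosed Z ∧ HConvex Z ∧ ∀ g ∈ Γ, ∀ x ∈ Z, g • x ∈ Z}

/-- The convex core of `H3 / Γ`. -/
noncomputable def core (Γ : Subgroup O31) : Set (Mfd Γ) := proj Γ '' hull Γ

/-- The boundary of the convex core of `H3 / Γ`. -/
noncomputable def coreBd (Γ : Subgroup O31) : Set (Mfd Γ) := proj Γ '' frontier (hull Γ)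

/-- `H3 / Γ` is a convex cocompact complete orientable hyperbolic 3-manifold. -/
structure ConvexCocompact (Γ : Subgroup O31) : Prop extends IsHypMfdGroup Γ where
  nonempty : (hull Γ).Nonempty
  compact : IsCompact (core Γ)

/-- The convex core has nonempty totally geodesic boundary: every frontier point of the hull lies on a
plane which is contained in the frontier and bounds the hull. -/
structure GeodBoundary (Γ : Subgroup O31) : Prop where
  nonempty : (frontier (hull Γ)).Nonempty
  plane : ∀ x ∈ frontier (hull Γ), ∃ n : V, lor n n = 1 ∧ lor x.val n = 0 ∧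
    (∀ y : H3, lor y.val n = 0 → y ∈ frontier (hull Γ)) ∧ ∀ y ∈ hull Γ, lor y.val n ≤ 0

/-! ### Reflections -/

/-- The linear reflection in the hyperplane orthogonal to `n`. -/
noncomputable def reflL (n : V) : V →ₗ[ℝ] V where
  toFun X := X - (2 * lor X n) • n
  map_add' X Y := by
    rw [lor_add_left, mul_add, add_smul]; abel
  map_smul' c X := by
    rw [lor_smul_left, RingHom.id_apply, smul_sub, smul_smul]
    congr 2
    ring

theorem reflL_apply (n X : V) : reflL n X = X - (2 * lor X n) • n := rfl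

theorem reflL_reflL {n : V} (hn : lor n n = 1) (X : V) : reflL n (reflL n X) = X := by
  rw [reflL_apply, reflL_apply, lor_sub_left, lor_smul_left, hn, sub_sub, ← add_smul]
  have : 2 * lor X n + 2 * (lor X n - 2 * lor X n * 1) = 0 := by ring
  rw [this, zero_smul, sub_zero]

theorem lor_reflL {n : V} (hn : lor n n = 1) (X Y : V) :
    lor (reflL n X) (reflL n Y) = lor X Y := by
  simp only [reflL_apply, lor_sub_left, lor_sub_right, lor_smul_left, lor_smul_right, hn]
  rw [lor_comm n Y]
  ring

theorem reflL_mem_cone {n : V} (hn : lor n n = 1) {X : V} (hX : X ∈ LCone 3) :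
    reflL n X ∈ LCone 3 := by
  -- `X` time-like future, `Z = reflL n X` has the same norm and `lor Z X < 0`
  have h1 : lor (reflL n X) (reflL n X) = lor X X := lor_reflL hn X X
  have h2 : lor X X < 0 := lor_self_neg hX
  have h3 : lor (reflL n X) X = lor X X - 2 * lor X n * lor X n := by
    rw [reflL_apply, lor_sub_left, lor_smul_left, lor_comm n X]
  set Z := reflL n X with hZ
  have h4 : lor Z X < 0 := by rw [h3]; nlinarith [mul_self_nonneg (lor X n)]
  have h5 : ‖Z.1‖ < |Z.2| := by
    have h6 : lor Z Z < 0 := by rw [h1]; exact h2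
    simp only [lor, real_inner_self_eq_norm_mul_norm] at h6
    have h7 : ‖Z.1‖ * ‖Z.1‖ < |Z.2| * |Z.2| := by rw [abs_mul_abs_self]; linarith
    nlinarith [norm_nonneg Z.1, abs_nonneg Z.2]
  show ‖Z.1‖ < Z.2
  rcases le_or_gt 0 Z.2 with h8 | h8
  · rwa [abs_of_nonneg h8] at h5
  · exfalso
    have hX1 : ‖X.1‖ < X.2 := hX
    rw [abs_of_neg h8] at h5
    have h9 : -(‖Z.1‖ * ‖X.1‖) ≤ inner ℝ Z.1 X.1 := by
      have := abs_real_inner_le_norm Z.1 X.1
      exact (abs_le.1 this).1
    simp only [lor] at h4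
    nlinarith [norm_nonneg Z.1, norm_nonneg X.1]

/-- The reflection of `H3` in the plane orthogonal to the unit vector `n`. -/
noncomputable def refl (n : V) (hn : lor n n = 1) : O31 :=
  ⟨LinearEquiv.ofInvolutive (reflL n) (reflL_reflL hn), by
    refine ⟨fun X Y => lor_reflL hn X Y, fun X => ⟨fun h => ?_, fun h => reflL_mem_cone hn h⟩⟩
    have h1 : reflL n (reflL n X) ∈ LCone 3 := reflL_mem_cone hn h
    rwa [reflL_reflL hn] at h1⟩

theorem refl_apply (n : V) (hn : lor n n = 1) (X : V) :
    (refl n hn).1 X = X - (2 * lor X n) • n := rfl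

theorem refl_mul_self (n : V) (hn : lor n n = 1) : refl n hn * refl n hn = 1 := by
  apply Subtype.ext
  apply LinearEquiv.ext
  intro X
  exact reflL_reflL hn X

end CEE
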