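import Pool.Agent.CEE.Defs
import Pool.Agent.CEE.Base

set_option autoImplicit false

/-!
# MP_cee170_gt: from `O31` to the isometry group of `H3`
-/

namespace CEE

open Pool.Agent.MP_8db1a4_gt Set

/-- the isometry given by an element of `O31` -/
noncomputable def jj : O31 →* (HSp ≃ᵢ HSp) where
  toFun g := IsometryEquiv.mk' (fun x => g • x) (fun x => g⁻¹ • x) (fun x => smul_inv_smul g x)
    (Isometry.of_dist_eq (fun x y => dist_smul_smul g x y))
  map_one' := by
    ext x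
    exact one_smul O31 x
  map_mul' g g' := by
    ext x
    exact mul_smul g g' x

theorem jj_apply (g : O31) (x : HSp) : jj g x = g • x := rfl

theorem proj_eq_iff (Γ : Subgroup O31) (x y : H3) :
    proj Γ x = proj Γ y ↔ ∃ g ∈ Γ, g • x = y := by
  unfold proj
  rw [Quotient.eq]
  show MulAction.orbitRel Γ H3 x y ↔ _
  rw [MulAction.orbitRel_apply, MulAction.mem_orbit_iff]
  constructor
  · rintro ⟨g, hg⟩
    refine ⟨g.1⁻¹, inv_mem g.2, ?_⟩
    rw [← hg]
    exact inv_smul_smul g.1 y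
  · rintro ⟨g, hg, h⟩
    refine ⟨⟨g⁻¹, inv_mem hg⟩, ?_⟩
    rw [← h]
    exact inv_smul_smul g x

theorem pr_eq_iff (Γ : Subgroup O31) (x y : H3) :
    pr (Γ.map jj) x = pr (Γ.map jj) y ↔ proj Γ x = proj Γ y := by
  rw [proj_eq_iff]
  have h0 : pr (Γ.map jj) x = pr (Γ.map jj) y ↔ (orb (Γ.map jj)) x y :=
    Quotient.eq (r := orb (Γ.map jj)) (x := x) (y := y)
  rw [h0]
  show (∃ g ∈ Γ.map jj, g x = y) ↔ _
  constructor
  · rintro ⟨g, ⟨a, ha, rfl⟩, h⟩
    exact ⟨a, ha, h⟩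
  · rintro ⟨a, ha, h⟩
    exact ⟨jj a, ⟨a, ha, rfl⟩, h⟩

/-- the two models of the quotient -/
noncomputable def eQ (Γ : Subgroup O31) : Mfd Γ ≃ₜ Quo (Γ.map jj) where
  toFun := Quotient.lift (fun x => pr (Γ.map jj) x)
    (fun x y h => (pr_eq_iff Γ x y).2 (Quotient.sound h))
  invFun := Quotient.lift (fun x => proj Γ x)
    (fun x y h => (pr_eq_iff Γ x y).1 (Quotient.sound h))
  left_inv := by
    rintro ⟨x⟩
    rfl
  right_inv := by
    rintro ⟨x⟩
    rfl
  continuous_toFun := Continuous.quotient_lift (continuous_quotient_mk' (s := orb (Γ.map jj))) _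
  continuous_invFun := Continuous.quotient_lift
    (continuous_quotient_mk' (s := MulAction.orbitRel Γ H3)) _

theorem eQ_proj (Γ : Subgroup O31) (x : H3) : eQ Γ (proj Γ x) = pr (Γ.map jj) x := rfl

theorem chull_eq (Γ : Subgroup O31) : chull (Γ.map jj) = hull Γ := by
  unfold chull hull
  congr 1
  ext Z
  constructor
  · rintro ⟨h1, h2, h3, h4⟩
    exact ⟨h1, h2, h3, fun g hg x hx => h4 (jj g) ⟨g, hg, rfl⟩ x hx⟩
  · rintro ⟨h1, h2, h3, h4⟩
    refine ⟨h1, h2, h3, ?_⟩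
    rintro _ ⟨g, hg, rfl⟩ x hx
    exact h4 g hg x hx

theorem ccore_eq (Γ : Subgroup O31) : ccore (Γ.map jj) = eQ Γ '' core Γ := by
  unfold ccore core
  rw [chull_eq, image_image]
  rfl

theorem qdist_eq (Γ : Subgroup O31) (a b : Mfd Γ) :
    qdist (Γ.map jj) (eQ Γ a) (eQ Γ b) = mdist Γ a b := by
  unfold qdist mdist
  congr 1
  ext r
  constructor
  · rintro ⟨x, y, h1, h2, h3⟩
    rw [← eQ_proj] at h1 h2
    exact ⟨x, y, (eQ Γ).injective h1, (eQ Γ).injective h2, h3⟩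
  · rintro ⟨x, y, h1, h2, h3⟩
    exact ⟨x, y, by rw [← eQ_proj, h1], by rw [← eQ_proj, h2], h3⟩

/-- coordinates -/
noncomputable def coE : V ≃ₗ[ℝ] (Fin 4 → ℝ) where
  toFun X := ![X.1 0, X.1 1, X.1 2, X.2]
  map_add' X Y := by
    ext i; fin_cases i <;> simp
  map_smul' c X := by
    ext i; fin_cases i <;> simp
  invFun v := vec (v 0) (v 1) (v 2) (v 3)
  left_inv X := by
    apply Prod.ext
    · ext i; fin_cases i <;> simp [vec]
    · simp [vec]
  right_inv v := by
    ext i; fin_cases i <;> simp [vec]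

theorem orPres_of (g : O31) (h : LinearEquiv.det g.1 = 1) : OrPres (jj g) := by
  classical
  let b : Module.Basis (Fin 4) ℝ V := Module.Basis.ofEquivFun coE
  refine ⟨LinearMap.toMatrix b b (g.1 : V →ₗ[ℝ] V), ?_, ?_⟩
  · rw [LinearMap.det_toMatrix]
    have h1 : ((LinearEquiv.det g.1 : ℝˣ) : ℝ) = LinearMap.det (g.1 : V →ₗ[ℝ] V) :=
      LinearEquiv.coe_det g.1
    rw [← h1, h]
    norm_num
  · intro x
    have h1 : ∀ X : V, ⇑(b.repr X) = coE X := fun X => rfl
    have h2 := LinearMap.toMatrix_mulVec_repr b b (g.1 : V →ₗ[ℝ] V) x.val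
    rw [h1, h1] at h2
    exact h2

theorem CCGroup_of (Γ : Subgroup O31) (h : ConvexCocompact Γ) : CCGroup (Γ.map jj) where
  orient := by
    rintro _ ⟨g, hg, rfl⟩
    exact orPres_of g (h.orient g hg)
  free := by
    intro x
    obtain ⟨ε, hε, h1⟩ := h.free x
    refine ⟨ε, hε, ?_⟩
    rintro _ ⟨g, hg, rfl⟩ hne
    exact h1 g hg (fun h2 => hne (by rw [h2, map_one]))
  nonempty := by
    rw [chull_eq]
    exact h.nonempty
  compact := by
    rw [ccore_eq]
    exact h.compact.image (eQ Γ).continuous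

theorem TotGeod_of (Γ : Subgroup O31) (h : GeodBoundary Γ) : TotGeod (Γ.map jj) where
  nonempty := by
    rw [chull_eq]
    exact h.nonempty
  plane := by
    intro x hx
    rw [chull_eq] at hx
    obtain ⟨n, h1, h2, h3, h4⟩ := h.plane x hx
    refine ⟨n, h2, h1, ?_, ?_⟩
    · rw [chull_eq]; exact h3
    · rw [chull_eq]; exact h4

/-- homeomorphism of the cores -/
noncomputable def eS (Γ : Subgroup O31) (A : Set (Mfd Γ)) (B : Set (Quo (Γ.map jj)))
    (h : B = eQ Γ '' A) : A ≃ₜ B :=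
  ((eQ Γ).image A).trans (Homeomorph.setCongr h.symm)

end CEE
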