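import Pool.Agent.CEE.F1

set_option autoImplicit false

/-!
# [CEE-V2] Moving along the normals of the boundary plane
-/

namespace CEE

open Pool.Agent.MP_8db1a4_gt Set Real

/-- move `x` along the normal of `Pl` to the level `⟨·, vF⟩ = τ` -/
noncomputable def mvV (τ : ℝ) (x : H3) : V :=
  (sqrt (1 + τ ^ 2) / sqrt (1 + (lor x.val vF) ^ 2)) • (x.val - lor x.val vF • vF) + τ • vF

theorem v2_c_sq (τ σ : ℝ) : (sqrt (1 + τ ^ 2) / sqrt (1 + σ ^ 2)) ^ 2 * (1 + σ ^ 2) = 1 + τ ^ 2 := by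
  rw [div_pow, sq_sqrt (by positivity), sq_sqrt (by positivity)]
  have : 1 + σ ^ 2 ≠ 0 := by positivity
  field_simp

theorem v2_pos (τ σ : ℝ) : 0 < sqrt (1 + τ ^ 2) / sqrt (1 + σ ^ 2) := by positivity

theorem v2_lor (τ : ℝ) (x : H3) : lor (mvV τ x) (mvV τ x) = -1 := by
  have h1 := v2_c_sq τ (lor x.val vF)
  unfold mvV
  set σ := lor x.val vF with hσ
  set c := sqrt (1 + τ ^ 2) / sqrt (1 + σ ^ 2) with hc
  simp only [lor_add_left, lor_add_right, lor_smul_left, lor_smul_right, lor_sub_left,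
    lor_sub_right, x.lor_self, lor_F_F]
  rw [lor_comm vF x.val, ← hσ]
  linear_combination (-1 : ℝ) * h1

theorem v2_two (τ : ℝ) (x : H3) : (mvV τ x).2 =
    sqrt (1 + τ ^ 2) / sqrt (1 + (lor x.val vF) ^ 2) * x.val.2 := by
  unfold mvV vF vec
  simp

theorem mvV_mem (τ : ℝ) (x : H3) : mvV τ x ∈ LCone 3 ∧ lor (mvV τ x) (mvV τ x) = -1 := by
  have h1 := v2_lor τ x
  refine ⟨?_, h1⟩
  show ‖(mvV τ x).1‖ < (mvV τ x).2
  have h2 : 0 ≤ (mvV τ x).2 := by
    rw [v2_two]
    exact mul_nonneg (v2_pos _ _).le (f1_X x).le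
  have h3 : ‖(mvV τ x).1‖ ^ 2 = (mvV τ x).2 ^ 2 - 1 := by
    unfold lor at h1
    rw [real_inner_self_eq_norm_sq] at h1
    linarith [sq ((mvV τ x).2)]
  refine lt_of_pow_lt_pow_left₀ 2 h2 ?_
  rw [h3]
  linarith

noncomputable def mv (τ : ℝ) (x : H3) : H3 := ⟨mvV τ x, (mvV_mem τ x).1, (mvV_mem τ x).2⟩

theorem mv_val (τ : ℝ) (x : H3) : (mv τ x).val = mvV τ x := rfl

theorem lor_mv_F (τ : ℝ) (x : H3) : lor (mv τ x).val vF = τ := by
  rw [mv_val]
  unfold mvV
  simp only [lor_add_left, lor_smul_left, lor_sub_left, lor_F_F]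
  ring

theorem lor_mv (τ : ℝ) (x : H3) (e : V) (he : lor vF e = 0) : lor (mv τ x).val e =
    sqrt (1 + τ ^ 2) / sqrt (1 + (lor x.val vF) ^ 2) * lor x.val e := by
  rw [mv_val]
  unfold mvV
  simp only [lor_add_left, lor_smul_left, lor_sub_left, he]
  ring

theorem mv_mv (τ τ' : ℝ) (x : H3) : mv τ' (mv τ x) = mv τ' x := by
  apply Hy.ext'
  rw [mv_val, mv_val]
  conv_lhs => unfold mvV
  rw [lor_mv_F, mv_val]
  unfold mvV
  rw [add_sub_cancel_right, smul_smul]
  congr 2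
  have h1 : sqrt (1 + τ ^ 2) ≠ 0 := by positivity
  field_simp

theorem mv_self (x : H3) : mv (lor x.val vF) x = x := by
  apply Hy.ext'
  rw [mv_val]
  unfold mvV
  have h1 : sqrt (1 + (lor x.val vF) ^ 2) ≠ 0 := by positivity
  rw [div_self h1, one_smul, sub_add_cancel]

theorem mv_cont : Continuous (fun a : ℝ × H3 => mv a.1 a.2) := by
  rw [(B1c.b1c_isInducing 3).continuous_iff]
  show Continuous (fun a : ℝ × H3 => mvV a.1 a.2)
  have hv : Continuous (fun a : ℝ × H3 => a.2.val) := (B1c.hy_val_continuous 3).comp continuous_snd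
  have hl : Continuous (fun a : ℝ × H3 => lor a.2.val vF) := by
    have := (continuous_lor 3).comp (hv.prodMk continuous_const : Continuous (fun a : ℝ × H3 => (a.2.val, vF)))
    exact this
  have hs : Continuous (fun a : ℝ × H3 => sqrt (1 + a.1 ^ 2) / sqrt (1 + (lor a.2.val vF) ^ 2)) := by
    refine Continuous.div ?_ ?_ ?_
    · exact continuous_sqrt.comp (continuous_const.add (continuous_fst.pow 2))
    · exact continuous_sqrt.comp (continuous_const.add (hl.pow 2))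
    · intro a
      positivity
  have h1 : Continuous (fun a : ℝ × H3 => lor a.2.val vF • vF) := hl.smul continuous_const
  have h2 : Continuous (fun a : ℝ × H3 => a.1 • vF) := continuous_fst.smul continuous_const
  exact (hs.smul (hv.sub h1)).add h2

theorem v2_J {m : ℕ} (hm : 13 ≤ m) (s : Gen m) (hs : s ∈ Jset m) : lor vF (ev (w0 m) m s) = 0 := by
  have hm0 : (m : ℝ) ≠ 0 := by positivity
  rcases hs with rfl | rfl | rfl | rfl
  · exact lor_F_T _
  · exact lor_F_B _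
  · show lor vF (vG (w0 m) ((0 : Fin (m + 1)) : ℕ)) = 0
    rw [lor_F_G]; simp
  · show lor vF (vG (w0 m) ((Fin.last m : Fin (m + 1)) : ℕ)) = 0
    rw [lor_F_G, Fin.val_last]
    have : (m : ℝ) * w0 m = π := by unfold w0; field_simp
    rw [this, sin_pi]; simp

theorem v2_sin {m : ℕ} (hm : 13 ≤ m) (s : Gen m) (hs : s ∉ Jset m) :
    -qv (w0 m) ≤ lor vF (ev (w0 m) m s) ∧ lor vF (ev (w0 m) m s) ≤ 0 := by
  have hq := qv_pos (w0_pos hm) (w0_le hm)
  have hm0 : (0 : ℝ) < m := by positivity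
  cases s with
  | T => exact absurd (by simp [Jset]) hs
  | B => exact absurd (by simp [Jset]) hs
  | G i =>
    show -qv (w0 m) ≤ lor vF (vG (w0 m) i.val) ∧ lor vF (vG (w0 m) i.val) ≤ 0
    rw [lor_F_G]
    have h1 : 0 ≤ sin (i.val * w0 m) := by
      apply sin_nonneg_of_nonneg_of_le_pi
      · exact mul_nonneg (Nat.cast_nonneg _) (w0_pos hm).le
      · have h2 : (i.val : ℝ) ≤ m := by exact_mod_cast Nat.lt_succ_iff.1 i.isLt
        calc (i.val : ℝ) * w0 m ≤ m * w0 m := mul_le_mul_of_nonneg_right h2 (w0_pos hm).le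
          _ = π := by unfold w0; field_simp
    have h2 := sin_le_one (i.val * w0 m)
    constructor
    · nlinarith
    · nlinarith

theorem gap_const {m : ℕ} (hm : 13 ≤ m) (ho : Odd m) : ∃ κ : ℝ, 0 < κ ∧ ∀ x : H3,
    (∀ s ∈ Jset m, lor x.val (ev (w0 m) m s) ≤ 0) → -κ < lor x.val vF →
      ∀ s, s ∉ Jset m → lor x.val (ev (w0 m) m s) < 0 := by
  classical
  have hq := qv_pos (w0_pos hm) (w0_le hm)
  -- compactness
  have hPlc : IsClosed Pl := by
    have : Continuous (fun x : H3 => lor x.val vF) := by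
      have := (continuous_lor 3).comp ((B1c.hy_val_continuous 3).prodMk continuous_const :
        Continuous (fun x : H3 => (x.val, vF)))
      exact this
    exact isClosed_eq this continuous_const
  have hcomp : IsCompact (D0 m ∩ Pl) := (D0_compact hm).inter_right hPlc
  have hOmem : O ∈ D0 m ∩ Pl := by
    refine ⟨O_mem_D0 hm, ?_⟩
    show lor (Ohy 3).val vF = 0
    rw [lor_eq]
    simp [Ohy, vF, vec]
  have key : ∀ s : Gen m, ∃ c : ℝ, 0 < c ∧ (s ∉ Jset m → ∀ y ∈ D0 m ∩ Pl, lor y.val (ev (w0 m) m s) ≤ -c) := by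
    intro s
    by_cases hs : s ∈ Jset m
    · exact ⟨1, one_pos, fun h => absurd hs h⟩
    have hcont : Continuous (fun x : H3 => lor x.val (ev (w0 m) m s)) := by
      have := (continuous_lor 3).comp ((B1c.hy_val_continuous 3).prodMk continuous_const :
        Continuous (fun x : H3 => (x.val, ev (w0 m) m s)))
      exact this
    obtain ⟨y, hy, hmax⟩ := hcomp.exists_isMaxOn ⟨O, hOmem⟩ hcont.continuousOn
    have h1 : lor y.val (ev (w0 m) m s) < 0 :=
      (Pl_cham hm ho y hy.2 (fun t _ => hy.1.1 t)).2 s hs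
    refine ⟨-lor y.val (ev (w0 m) m s), by linarith, fun _ z hz => ?_⟩
    rw [neg_neg]
    exact hmax hz
  choose c hc0 hc using key
  obtain ⟨c0, hc00, hc0le⟩ : ∃ c0 : ℝ, 0 < c0 ∧ ∀ s, c0 ≤ c s := by
    have hne : (Finset.univ : Finset (Gen m)).Nonempty := ⟨.T, Finset.mem_univ _⟩
    refine ⟨Finset.univ.inf' hne c, ?_, fun s => Finset.inf'_le _ (Finset.mem_univ s)⟩
    rw [Finset.lt_inf'_iff]
    exact fun s _ => hc0 s
  refine ⟨c0 / (qv (w0 m) + 1), by positivity, fun x hx hσ s hs => ?_⟩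
  -- the projection
  have hyPl : mv 0 x ∈ Pl := lor_mv_F 0 x
  have hyJ : ∀ t ∈ Jset m, lor (mv 0 x).val (ev (w0 m) m t) ≤ 0 := by
    intro t ht
    rw [lor_mv 0 x _ (v2_J hm t ht)]
    exact mul_nonpos_of_nonneg_of_nonpos (v2_pos _ _).le (hx t ht)
  have hyD : mv 0 x ∈ D0 m := by
    refine ⟨(Pl_cham hm ho _ hyPl hyJ).1, ?_⟩
    intro v hv
    have hv' : v = vF := hv
    rw [hv']
    exact le_of_eq hyPl
  have h1 : lor (mv 0 x).val (ev (w0 m) m s) ≤ -c0 :=
    (hc s hs _ ⟨hyD, hyPl⟩).trans (neg_le_neg (hc0le s))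
  obtain ⟨hs1, hs2⟩ := v2_sin hm s hs
  set σ := lor x.val vF with hσdef
  -- `x = √(1+σ²) y + σ vF`
  have h2 : x.val = sqrt (1 + σ ^ 2) • (mv 0 x).val + σ • vF := by
    have h3 : mv σ (mv 0 x) = x := by rw [mv_mv, hσdef, mv_self]
    conv_lhs => rw [← h3]
    rw [mv_val]
    unfold mvV
    have h4 : lor (mv 0 x).val vF = 0 := lor_mv_F 0 x
    rw [h4]
    simp
  have h3 : lor x.val (ev (w0 m) m s) =
      sqrt (1 + σ ^ 2) * lor (mv 0 x).val (ev (w0 m) m s) + σ * lor vF (ev (w0 m) m s) := by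
    conv_lhs => rw [h2]
    rw [lor_add_left, lor_smul_left, lor_smul_left]
  have h4 : 1 ≤ sqrt (1 + σ ^ 2) := by
    rw [Real.one_le_sqrt]; nlinarith [sq_nonneg σ]
  have h5 : sqrt (1 + σ ^ 2) * lor (mv 0 x).val (ev (w0 m) m s) ≤ -c0 := by nlinarith
  have h6 : σ * lor vF (ev (w0 m) m s) < c0 := by
    rcases le_or_gt 0 σ with h7 | h7
    · have : σ * lor vF (ev (w0 m) m s) ≤ 0 := mul_nonpos_of_nonneg_of_nonpos h7 hs2
      linarith
    · have h8 : -σ < c0 / (qv (w0 m) + 1) := by linarith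
      have h9 : -σ * (qv (w0 m) + 1) < c0 := by rwa [lt_div_iff₀ (by positivity)] at h8
      have h10 : σ * lor vF (ev (w0 m) m s) ≤ -σ * qv (w0 m) := by nlinarith
      nlinarith
  rw [h3]
  linarith

end CEE
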