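import Pool.Agent.CEE.G2

set_option autoImplicit false

/-!
# [CEE-G3a] `K` preserves the orientation
-/

namespace CEE

open Pool.Agent.MP_8db1a4_gt Set Real

/- PROOF NOTES [CEE-G3a].
`det_refl`: the reflection is `id - (2 ⟨·,n⟩) n`; `det (id - f(·) v) = 1 - f(v)` (matrix determinant lemma: `LinearMap.det`/`Matrix.det_one_add_mul_comm`, `Matrix.det_one_sub_mul_comm`, or search `LinearMap.det` `smulRight`), here `1 - 2 = -1`.
  Alternatives: choose the basis `n, b₁, b₂, b₃` with `b_i` orthogonal to `n`; or Mathlib's results on reflections (`Module.reflection`).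
`det_rho`: both sides are homomorphisms from `(CM m).Group` which agree on the generators (`CoxeterSystem.ext_simple`). -/

/-- the functional `- 2 ⟨·, n⟩` -/
noncomputable def g3a_f (n : V) : Module.Dual ℝ V where
  toFun X := -(2 * lor X n)
  map_add' X Y := by
    rw [lor_add_left]
    ring
  map_smul' c X := by
    rw [lor_smul_left, RingHom.id_apply, smul_eq_mul]
    ring

theorem g3a_f_apply (n X : V) : g3a_f n X = -(2 * lor X n) := rfl

theorem det_refl (n : V) (hn : lor n n = 1) : LinearEquiv.det (refl n hn).1 = -1 := by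
  apply Units.ext
  rw [LinearEquiv.coe_det]
  have h : ((refl n hn).1 : V →ₗ[ℝ] V) = LinearMap.transvection (g3a_f n) n := by
    apply LinearMap.ext
    intro X
    show (refl n hn).1 X = X + (g3a_f n X) • n
    rw [refl_apply, g3a_f_apply, neg_smul, ← sub_eq_add_neg]
  rw [h, LinearMap.transvection.det, g3a_f_apply, hn, Units.val_neg, Units.val_one]
  norm_num

theorem det_rho (m : ℕ) {w : ℝ} (h : RS (CM m) (ev w m)) (g : (CM m).Group) :
    LinearEquiv.det (h.rho g).1 = Units.map (Int.castRingHom ℝ).toMonoidHom (phi m g).2.2 := by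
  have hD : (LinearEquiv.det.comp (O31.subtype.comp h.rho) : (CM m).Group →* ℝˣ) =
      (Units.map (Int.castRingHom ℝ).toMonoidHom).comp
        ((MonoidHom.snd (DihedralGroup 4) ℤˣ).comp
          ((MonoidHom.snd (DihedralGroup 4) (DihedralGroup 4 × ℤˣ)).comp (phi m))) := by
    apply (CM m).toCoxeterSystem.ext_simple
    intro s
    show LinearEquiv.det (h.rho ((CM m).simple s)).1 =
      Units.map (Int.castRingHom ℝ).toMonoidHom (phi m ((CM m).simple s)).2.2
    rw [h.rho_simple, det_refl, phi_simple]
    have h1 : (typ m s).2.2 = -1 := by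
      cases s
      · rfl
      · rfl
      · unfold typ
        simp only
        split_ifs <;> rfl
    rw [h1]
    apply Units.ext
    simp
  exact DFunLike.congr_fun hD g

theorem det_K (m : ℕ) {w : ℝ} (h : RS (CM m) (ev w m)) (k : (CM m).Group) (hk : k ∈ K m) :
    LinearEquiv.det (h.rho k).1 = 1 := by
  rw [det_rho, MonoidHom.mem_ker.1 hk]
  exact map_one _

end CEE
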