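import Pool.Agent.CEE.G3b

set_option autoImplicit false

/-!
# [CEE-G3c] `K` acts freely
-/

namespace CEE

open Pool.Agent.MP_8db1a4_gt Set Real

/- PROOF NOTES [CEE-G3c].
`stab`: let `Z = {s | lor x (e s) = 0}`.  By `not_both` all labels between different elements of `Z` are `2` or `4`, so (`T, B` are not both in `Z`; two different sides in `Z` are neighbours, so there are at most two of them) there are a letter `X ∈ {T, B}` and `i` with
 `Z ⊆ {X, G i, G (i+1)}` (or `Z ⊆ {X, G i}`: then use any neighbour of `G i`, `m ≥ 1`; or `Z ⊆ {X}`).  `g` is in the closure of the three simple generators; `closure_three` with `{a, b}` = the pair `X, G_j` of label 4 and `c` = the other side (label 2 with `X` and with `G_j`).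
 `phi` of `(a b)^k a^i c^j` is computed by `typ`; it is `1` only for `k = i = j = 0`: `decide` over `k < 4`, `i < 2`, `j < 2` (`interval_cases`) for the four possible triples of values of `typ`.
 (`hm : 1 ≤ m` so that every side has a neighbour; if `m = 0` is a problem, `stab` has the hypothesis `3 ≤ m`.)
`K_free`: `ρ(k) x = x`, `x = ρ(v) y`, `y = fold x` (`fold_spec`, `fold_mem`); `v⁻¹ k v ∈ K` (normal) fixes `y ∈ cham`, so it is in `wallsAt y` (`RS.fixed`) and `stab` gives `v⁻¹ k v = 1`.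
`K_disp`: `finite_orbit`: finitely many `k` with `dist x (ρ(k) x) ≤ 1`, take the minimum over the `k ≠ 1` among them (positive by `K_free`). -/

theorem g3c_comm {G : Type*} [Group G] {a c : G} (ha : a * a = 1) (hc : c * c = 1)
    (h : (a * c) ^ 2 = 1) : a * c = c * a := by
  have h1 : a * c = (a * c)⁻¹ := by
    rw [pow_two] at h
    exact eq_inv_of_mul_eq_one_left h
  rw [mul_inv_rev, inv_eq_of_mul_eq_one_left ha, inv_eq_of_mul_eq_one_left hc] at h1
  exact h1

theorem g3c_rel (m : ℕ) (s t : Gen m) : ((CM m).simple s * (CM m).simple t) ^ lab m s t = 1 := by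
  have := (CM m).toCoxeterSystem.simple_mul_simple_pow s t
  rwa [(CM m).toCoxeterSystem_simple] at this

theorem g3c_T : ∀ k < 4, ∀ i < 2, ∀ j < 2,
    (((.sr 0, 1, -1) : Q) * (.sr 1, 1, -1)) ^ k * ((.sr 0, 1, -1) : Q) ^ i * ((1, .sr 1, -1) : Q) ^ j = 1 →
      k = 0 ∧ i = 0 ∧ j = 0 := by
  intro k hk i hi j hj
  interval_cases k <;> interval_cases i <;> interval_cases j <;> decide

theorem g3c_B : ∀ k < 4, ∀ i < 2, ∀ j < 2,
    (((1, .sr 0, -1) : Q) * (1, .sr 1, -1)) ^ k * ((1, .sr 0, -1) : Q) ^ i * ((.sr 1, 1, -1) : Q) ^ j = 1 →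
      k = 0 ∧ i = 0 ∧ j = 0 := by
  intro k hk i hi j hj
  interval_cases k <;> interval_cases i <;> interval_cases j <;> decide

/-- the case of the walls `a`, `b`, `c` with the labels `4` (`a b`), `2` (`a c`), `2` (`b c`) -/
theorem g3c_main (m : ℕ) {a b c : Gen m} (hab : lab m a b = 4) (hac : lab m a c = 2)
    (hbc : lab m b c = 2)
    (hQ : ∀ k < 4, ∀ i < 2, ∀ j < 2, (typ m a * typ m b) ^ k * typ m a ^ i * typ m c ^ j = 1 →
      k = 0 ∧ i = 0 ∧ j = 0)
    {g : (CM m).Group}
    (hg : g ∈ Subgroup.closure {(CM m).simple a, (CM m).simple b, (CM m).simple c})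
    (hK : g ∈ K m) : g = 1 := by
  have ha := simple_mul_self (CM m) a
  have hb := simple_mul_self (CM m) b
  have hc := simple_mul_self (CM m) c
  have r1 := g3c_rel m a b
  have r2 := g3c_rel m a c
  have r3 := g3c_rel m b c
  rw [hab] at r1
  rw [hac] at r2
  rw [hbc] at r3
  obtain ⟨k, hk, i, hi, j, hj, e⟩ := closure_three ha hb hc r1 (g3c_comm ha hc r2) (g3c_comm hb hc r3) g hg
  have h1 : phi m g = 1 := hK
  rw [e, map_mul, map_mul, map_pow, map_pow, map_pow, map_mul, phi_simple, phi_simple, phi_simple] at h1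
  obtain ⟨rfl, rfl, rfl⟩ := hQ k hk i hi j hj h1
  rw [e]
  simp

/-- at most two consecutive sides contain `x` -/
theorem g3c_sides (m : ℕ) (hm : 3 ≤ m) {w : ℝ} (h : RS (CM m) (ev w m)) (x : H3) :
    ∃ i : ℕ, i + 1 ≤ m ∧ ∀ j : Fin (m + 1), lor x.val (ev w m (.G j)) = 0 → j.val = i ∨ j.val = i + 1 := by
  classical
  by_cases hex : ∃ n : ℕ, ∃ hn : n < m + 1, lor x.val (ev w m (.G ⟨n, hn⟩)) = 0
  · obtain ⟨n, ⟨hn, hn0⟩, hmin⟩ : ∃ n : ℕ, (∃ hn : n < m + 1, lor x.val (ev w m (.G ⟨n, hn⟩)) = 0) ∧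
        ∀ k < n, ¬ ∃ hn : k < m + 1, lor x.val (ev w m (.G ⟨k, hn⟩)) = 0 :=
      ⟨Nat.find hex, Nat.find_spec hex, fun k hk => Nat.find_min hex hk⟩
    have key : ∀ j : Fin (m + 1), lor x.val (ev w m (.G j)) = 0 → j.val = n ∨ j.val = n + 1 := by
      intro j hj
      by_contra hcon
      push Not at hcon
      have h1 : ¬ j.val < n := fun h2 => hmin j.val h2 ⟨j.2, hj⟩
      have h2 : Gen.G ⟨n, hn⟩ ≠ Gen.G j := by
        intro h3
        rw [Gen.G.injEq] at h3
        exact hcon.1 (congrArg Fin.val h3).symm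
      have h3 := not_both h x h2 hn0 hj
      rw [CM_apply] at h3
      have h4 : lab m (.G ⟨n, hn⟩) (.G j) = 0 := by
        simp only [lab]
        rw [if_neg (fun h5 => h2 (by rw [h5])), if_neg (by omega)]
      omega
    by_cases hnm : n < m
    · exact ⟨n, by omega, key⟩
    · refine ⟨n - 1, by omega, fun j hj => ?_⟩
      have h1 := key j hj
      have h2 := j.2
      omega
  · refine ⟨0, by omega, fun j hj => ?_⟩
    exact absurd ⟨j.val, j.2, hj⟩ hex

theorem g3c_le (m : ℕ) {w : ℝ} (x : H3) {a b c : Gen m} {g : (CM m).Group}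
    (hg : g ∈ wallsAt (CM m) (ev w m) x)
    (hZ : ∀ s, lor x.val (ev w m s) = 0 → s = a ∨ s = b ∨ s = c) :
    g ∈ Subgroup.closure {(CM m).simple a, (CM m).simple b, (CM m).simple c} := by
  refine Subgroup.closure_mono ?_ hg
  rintro _ ⟨s, hs, rfl⟩
  rcases hZ s hs with rfl | rfl | rfl
  · exact Or.inl rfl
  · exact Or.inr (Or.inl rfl)
  · exact Or.inr (Or.inr rfl)

theorem stab (m : ℕ) (hm : 3 ≤ m) {w : ℝ} (h : RS (CM m) (ev w m)) (x : H3) (hx : x ∈ cham (ev w m))
    (g : (CM m).Group) (hg : g ∈ wallsAt (CM m) (ev w m) x) (hK : g ∈ K m) : g = 1 := by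
  obtain ⟨i, him, hi⟩ := g3c_sides m hm h x
  have hi1 : i < m + 1 := by omega
  have hi2 : i + 1 < m + 1 := by omega
  have hval : ∀ j : Fin (m + 1), lor x.val (ev w m (.G j)) = 0 →
      (Gen.G j : Gen m) = .G ⟨i, hi1⟩ ∨ (Gen.G j : Gen m) = .G ⟨i + 1, hi2⟩ := by
    intro j hj
    rcases hi j hj with h1 | h1
    · exact Or.inl (congrArg Gen.G (Fin.ext h1))
    · exact Or.inr (congrArg Gen.G (Fin.ext h1))
  have hne : (⟨i, hi1⟩ : Fin (m + 1)) ≠ ⟨i + 1, hi2⟩ := fun h1 => by
    have := congrArg Fin.val h1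
    simp at this
  by_cases hT : lor x.val (ev w m .T) = 0
  · have hB : lor x.val (ev w m .B) ≠ 0 := by
      intro hB
      have h1 := not_both h x (s := .T) (t := .B) (by simp) hT hB
      rw [CM_apply] at h1
      simp [lab] at h1
    by_cases hev : Even i
    · have hod : ¬ Even (i + 1) := by rwa [Nat.even_add_one, not_not]
      refine g3c_main m (a := .T) (b := .G ⟨i + 1, hi2⟩) (c := .G ⟨i, hi1⟩) ?_ ?_ ?_ ?_
        (g3c_le m x hg ?_) hK
      · simp [lab, hod]
      · simp [lab, hev]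
      · simp [lab, hne.symm]
      · simp only [typ, hev, hod, if_true, if_false]
        exact g3c_T
      · intro s hs
        cases s with
        | T => exact Or.inl rfl
        | B => exact absurd hs hB
        | G j => exact Or.inr (hval j hs).symm
    · have hod : Even (i + 1) := by rwa [Nat.even_add_one]
      refine g3c_main m (a := .T) (b := .G ⟨i, hi1⟩) (c := .G ⟨i + 1, hi2⟩) ?_ ?_ ?_ ?_
        (g3c_le m x hg ?_) hK
      · simp [lab, hev]
      · simp [lab, hod]
      · simp [lab, hne]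
      · simp only [typ, hev, hod, if_true, if_false]
        exact g3c_T
      · intro s hs
        cases s with
        | T => exact Or.inl rfl
        | B => exact absurd hs hB
        | G j => exact Or.inr (hval j hs)
  · by_cases hev : Even i
    · have hod : ¬ Even (i + 1) := by rwa [Nat.even_add_one, not_not]
      refine g3c_main m (a := .B) (b := .G ⟨i, hi1⟩) (c := .G ⟨i + 1, hi2⟩) ?_ ?_ ?_ ?_
        (g3c_le m x hg ?_) hK
      · simp [lab, hev]
      · simp [lab, hod]
      · simp [lab, hne]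
      · simp only [typ, hev, hod, if_true, if_false]
        exact g3c_B
      · intro s hs
        cases s with
        | T => exact absurd hs hT
        | B => exact Or.inl rfl
        | G j => exact Or.inr (hval j hs)
    · have hod : Even (i + 1) := by rwa [Nat.even_add_one]
      refine g3c_main m (a := .B) (b := .G ⟨i + 1, hi2⟩) (c := .G ⟨i, hi1⟩) ?_ ?_ ?_ ?_
        (g3c_le m x hg ?_) hK
      · simp [lab, hod]
      · simp [lab, hev]
      · simp [lab, hne.symm]
      · simp only [typ, hev, hod, if_true, if_false]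
        exact g3c_B
      · intro s hs
        cases s with
        | T => exact absurd hs hT
        | B => exact Or.inl rfl
        | G j => exact Or.inr (hval j hs).symm

theorem K_free (m : ℕ) (hm : 3 ≤ m) {w : ℝ} (h : RS (CM m) (ev w m)) (x : H3) (k : (CM m).Group)
    (hk : k ∈ K m) (hkx : h.rho k • x = x) : k = 1 := by
  obtain ⟨v, hv⟩ := h.fold_spec x
  obtain ⟨y, hy⟩ : ∃ y, y = h.fold x := ⟨_, rfl⟩
  have hyc : y ∈ cham (ev w m) := hy ▸ h.fold_mem x
  rw [← hy] at hv
  have h1 : h.rho (v⁻¹ * k * v) • y = y := by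
    rw [map_mul, map_mul, mul_smul, mul_smul, ← hv, hkx, hv, ← mul_smul, ← map_mul, inv_mul_cancel,
      map_one, one_smul]
  have h2 := h.fixed (v⁻¹ * k * v) y hyc (by rw [h1]; exact hyc)
  have h3 : v⁻¹ * k * v ∈ K m := by
    have := (K_normal m).conj_mem k hk v⁻¹
    rwa [inv_inv] at this
  have h4 := stab m hm h y hyc _ h2.2 h3
  have h5 : k = v * (v⁻¹ * k * v) * v⁻¹ := by group
  rw [h5, h4, mul_one, mul_inv_cancel]

theorem K_disp (m : ℕ) (hm : 3 ≤ m) {w : ℝ} (h : RS (CM m) (ev w m)) (x : H3) :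
    ∃ ε > 0, ∀ k ∈ K m, k ≠ 1 → ε ≤ dist x (h.rho k • x) := by
  classical
  have hfin : {k : (CM m).Group | k ∈ K m ∧ k ≠ 1 ∧ dist x (h.rho k • x) ≤ 1}.Finite :=
    (h.finite_orbit x x 1).subset fun k hk => hk.2.2
  by_cases hne : {k : (CM m).Group | k ∈ K m ∧ k ≠ 1 ∧ dist x (h.rho k • x) ≤ 1}.Nonempty
  · obtain ⟨k₀, hk₀, hmin⟩ := Set.exists_min_image _ (fun k => dist x (h.rho k • x)) hfin hne
    have hpos : 0 < dist x (h.rho k₀ • x) := by
      rw [dist_pos]
      intro h1
      exact hk₀.2.1 (K_free m hm h x k₀ hk₀.1 h1.symm)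
    refine ⟨dist x (h.rho k₀ • x), hpos, fun k hk hk1 => ?_⟩
    by_cases hd : dist x (h.rho k • x) ≤ 1
    · exact hmin k ⟨hk, hk1, hd⟩
    · exact hk₀.2.2.trans (not_le.1 hd).le
  · refine ⟨1, one_pos, fun k hk hk1 => ?_⟩
    by_contra hcon
    exact hne ⟨k, hk, hk1, (not_le.1 hcon).le⟩

end CEE
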