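import Pool.Agent.CEE.P2a

set_option autoImplicit false

/-!
# [CEE-P2b] The Gram matrix
-/

namespace CEE

open Pool.Agent.MP_8db1a4_gt Set Real

/- PROOF NOTES [CEE-P2b].  `lor_eq`, `vec_0..vec_3`, `pv_sq`, `tv_sq`, `qv_sq`, `pv_mul`, `tv_eq`, `Real.mul_self_sqrt`.  Write `S, E, p, t, q`; `8 S p² = 1`, `(1+S) t² = S`, `8 S (1+S) q² = E`, `q² = 1 + p² - p² t²`,
`((-1)^i)^2 = 1`; parity: `Even.neg_one_pow`, `Odd.neg_one_pow`.
`lor_G_G_even` (`i + k` with `k` even): `cos(iw) cos(jw) + sin sin = cos((j-i) w)`; the third coordinates have the same sign: `q² cos(kw) + p² t² - p² = 1 - q² (1 - cos (k w))`.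
`lor_G_G_odd`: opposite signs: `q² cos(kw) - p² t² - p²` and `p² (1 + t²) = q² cos w` (from `Ev_cos`).
`q_two`: `q² (1 - cos 2w) = (4S+3)(4S+1)/E = 2 + 1/E ≥ 2`: `1 - cos 2w = 2 (1 - cos w)(1 + cos w)`, `E (1 - cos w) = 8S²+6S`, `E (1 + cos w) = 8S² + 10 S + 2`.
`G_G_le`: for `k ≥ 2` with `2 w ≤ k w ≤ 2π - 2w` (`k` even), `3w ≤ k w ≤ 2π - 3w` (`k` odd): `cos (k w) ≤ cos (2w)` resp. `≤ cos (3w)` (`Real.cos_le_cos_of_nonneg_of_le_pi`, and `cos (2π - x) = cos x` for `k w > π`);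
odd: `q² (cos w - cos 3w) = q² · 4 sin² w cos w = 2 cos w · q² (1 - cos 2w) ≥ 2 · (7/8) · 2 ≥ 1`. -/

theorem p2b_q {w : ℝ} (h0 : 0 < w) (h1 : w ≤ 1 / 2) :
    qv w ^ 2 + pv w ^ 2 * tv w ^ 2 - pv w ^ 2 = 1 ∧ qv w ^ 2 * cos w = pv w ^ 2 * (1 + tv w ^ 2) := by
  have hS := Sv_pos h0 h1
  have hE := Ev_cos h0 h1
  have hE0 : Ev w = 8 * Sv w ^ 2 + 8 * Sv w + 1 := rfl
  have hS1 : 1 + Sv w ≠ 0 := by positivity
  constructor
  · rw [qv_sq h0 h1, pv_sq h0 h1, tv_sq h0 h1, hE0]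
    field_simp
    ring
  · rw [qv_sq h0 h1, pv_sq h0 h1, tv_sq h0 h1]
    have h2 : Ev w / (8 * Sv w * (1 + Sv w)) * cos w = (cos w * Ev w) / (8 * Sv w * (1 + Sv w)) := by ring
    rw [h2, hE]
    field_simp
    ring

theorem p2b_lor (w : ℝ) (i k : ℕ) : lor (vG w i) (vG w (i + k)) =
    qv w ^ 2 * cos (k * w) + ((-1) ^ i * (-1) ^ i) * (-1) ^ k * (pv w ^ 2 * tv w ^ 2) - pv w ^ 2 := by
  rw [lor_eq]
  unfold vG
  rw [vec_0, vec_1, vec_2, vec_3, vec_0, vec_1, vec_2, vec_3]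
  have h1 : cos ((k : ℝ) * w) = cos (((i + k : ℕ) : ℝ) * w) * cos ((i : ℝ) * w) +
      sin (((i + k : ℕ) : ℝ) * w) * sin ((i : ℝ) * w) := by
    rw [← cos_sub]
    congr 1
    push_cast
    ring
  rw [h1, pow_add]
  ring

theorem p2b_sq (i : ℕ) : ((-1 : ℝ) ^ i * (-1) ^ i) = 1 := by
  rw [← mul_pow]
  norm_num

theorem p2b_cos {w x : ℝ} (hw : 0 ≤ w) (h1 : w ≤ x) (h2 : x + w ≤ 2 * π) : cos x ≤ cos w := by
  rcases le_total x π with h3 | h3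
  · exact cos_le_cos_of_nonneg_of_le_pi hw h3 h1
  · rw [← cos_two_pi_sub x]
    exact cos_le_cos_of_nonneg_of_le_pi hw (by linarith) (by linarith)

theorem lor_G_G_even {w : ℝ} (h0 : 0 < w) (h1 : w ≤ 1 / 2) (i : ℕ) {k : ℕ} (hk : Even k) :
    lor (vG w i) (vG w (i + k)) = 1 - qv w ^ 2 * (1 - cos (k * w)) := by
  rw [p2b_lor, p2b_sq, hk.neg_one_pow]
  linear_combination (p2b_q h0 h1).1

theorem lor_G_G_odd {w : ℝ} (h0 : 0 < w) (h1 : w ≤ 1 / 2) (i : ℕ) {k : ℕ} (hk : Odd k) :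
    lor (vG w i) (vG w (i + k)) = -(qv w ^ 2 * (cos w - cos (k * w))) := by
  rw [p2b_lor, p2b_sq, hk.neg_one_pow]
  linear_combination (p2b_q h0 h1).2

theorem q_two {w : ℝ} (h0 : 0 < w) (h1 : w ≤ 1 / 2) : 2 ≤ qv w ^ 2 * (1 - cos (2 * w)) := by
  have hS := Sv_pos h0 h1
  have hE := Ev_cos h0 h1
  have hE0 : Ev w = 8 * Sv w ^ 2 + 8 * Sv w + 1 := rfl
  have hEp : 0 < Ev w := by
    rw [hE0]
    positivity
  have hc : cos w = (1 + 2 * Sv w) / Ev w := by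
    rw [eq_div_iff hEp.ne']
    exact hE
  have h2 : qv w ^ 2 * (1 - cos (2 * w)) = 2 + 1 / Ev w := by
    rw [qv_sq h0 h1, cos_two_mul, hc]
    rw [hE0] at hEp ⊢
    have hS1 : 1 + Sv w ≠ 0 := by positivity
    field_simp
    ring
  rw [h2]
  have h3 : 0 < 1 / Ev w := by positivity
  linarith

theorem lor_G_G_one {w : ℝ} (h0 : 0 < w) (h1 : w ≤ 1 / 2) (i : ℕ) :
    lor (vG w i) (vG w (i + 1)) = 0 := by
  have h2 := lor_G_G_odd h0 h1 i odd_one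
  rw [h2, Nat.cast_one, one_mul, sub_self, mul_zero, neg_zero]

theorem G_G_le_even {w : ℝ} (h0 : 0 < w) (h1 : w ≤ 1 / 2) (i : ℕ) {k : ℕ} (hk : Even k)
    (hk2 : 2 ≤ k) (hk3 : (k + 2) * w ≤ 2 * π) : lor (vG w i) (vG w (i + k)) ≤ -1 := by
  rw [lor_G_G_even h0 h1 i hk]
  have h2 := q_two h0 h1
  have hk2' : (2 : ℝ) ≤ k := by exact_mod_cast hk2
  have h3 : cos ((k : ℝ) * w) ≤ cos (2 * w) := by
    refine p2b_cos (by linarith) ?_ ?_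
    · exact mul_le_mul_of_nonneg_right hk2' h0.le
    · linarith
  have h4 : qv w ^ 2 * (1 - cos (2 * w)) ≤ qv w ^ 2 * (1 - cos ((k : ℝ) * w)) :=
    mul_le_mul_of_nonneg_left (by linarith) (sq_nonneg _)
  linarith

theorem G_G_le_odd {w : ℝ} (h0 : 0 < w) (h1 : w ≤ 1 / 2) (i : ℕ) {k : ℕ} (hk : Odd k)
    (hk2 : 3 ≤ k) (hk3 : (k + 3) * w ≤ 2 * π) : lor (vG w i) (vG w (i + k)) ≤ -1 := by
  rw [lor_G_G_odd h0 h1 i hk]
  have h2 := q_two h0 h1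
  have hk2' : (3 : ℝ) ≤ k := by exact_mod_cast hk2
  have h3 : cos ((k : ℝ) * w) ≤ cos (3 * w) := by
    refine p2b_cos (by linarith) ?_ ?_
    · exact mul_le_mul_of_nonneg_right hk2' h0.le
    · linarith
  have h4 : qv w ^ 2 * (cos w - cos (3 * w)) ≤ qv w ^ 2 * (cos w - cos ((k : ℝ) * w)) :=
    mul_le_mul_of_nonneg_left (by linarith) (sq_nonneg _)
  have h5 : qv w ^ 2 * (cos w - cos (3 * w)) = 2 * cos w * (qv w ^ 2 * (1 - cos (2 * w))) := by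
    rw [cos_three_mul, cos_two_mul]
    ring
  have h6 := cos_ge h0 h1
  have h7 : 2 * (7 / 8) * 2 ≤ 2 * cos w * (qv w ^ 2 * (1 - cos (2 * w))) :=
    mul_le_mul (by linarith) h2 (by norm_num) (by linarith)
  linarith

end CEE
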