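import Pool.Agent.CEE.T4b
import Pool.Agent.CEE.P2b

set_option autoImplicit false

/-!
# [CEE-G1] The Coxeter groups and their representations
-/

namespace CEE

open Pool.Agent.MP_8db1a4_gt Set Real

/-- The generators: top, bottom, sides `0, …, m`. -/
inductive Gen (m : ℕ) : Type
  | T : Gen m
  | B : Gen m
  | G : Fin (m + 1) → Gen m
  deriving DecidableEq, Fintype

/-- The labels (`0` means `∞`). -/
def lab (m : ℕ) : Gen m → Gen m → ℕ
  | .T, .T => 1
  | .B, .B => 1
  | .T, .B => 0
  | .B, .T => 0
  | .T, .G i => if Even i.val then 2 else 4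
  | .G i, .T => if Even i.val then 2 else 4
  | .B, .G i => if Even i.val then 4 else 2
  | .G i, .B => if Even i.val then 4 else 2
  | .G i, .G j => if i = j then 1 else if i.val + 1 = j.val ∨ j.val + 1 = i.val then 2 else 0

/-- The Coxeter matrix of the prism with the free face. -/
def CM (m : ℕ) : CoxeterMatrix (Gen m) where
  M := Matrix.of (lab m)
  isSymm := by
    apply Matrix.IsSymm.ext
    intro i j
    cases i <;> cases j <;> simp [lab, eq_comm, or_comm]
  diagonal i := by cases i <;> simp [lab]
  off_diagonal i j hij := by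
    cases i <;> cases j <;> simp_all [lab] <;> split_ifs <;> simp_all

theorem CM_apply (m : ℕ) (s t : Gen m) : CM m s t = lab m s t := rfl

/-- The normals of the walls for the opening angle `w`. -/
noncomputable def ev (w : ℝ) (m : ℕ) : Gen m → V
  | .T => vT w
  | .B => vB w
  | .G i => vG w i.val

/-- The labels of the boundary group: generators `T, B, G 0` (parity even), `G 1` (parity odd), the two sides do
not meet. -/
def labH : Gen 1 → Gen 1 → ℕ
  | .G i, .G j => if i = j then 1 else 0
  | s, t => lab 1 s t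

/-- The Coxeter matrix of the boundary quadrilateral. -/
def CH : CoxeterMatrix (Gen 1) where
  M := Matrix.of labH
  isSymm := by
    apply Matrix.IsSymm.ext
    intro i j
    cases i <;> cases j <;> simp [lab, labH, eq_comm]
  diagonal i := by cases i <;> simp [lab, labH]
  off_diagonal i j hij := by
    cases i <;> cases j <;> simp_all [lab, labH] <;> split_ifs <;> simp_all

theorem CH_apply (s t : Gen 1) : CH s t = labH s t := rfl

/-- The normals `T, B, G 0, G m`. -/
noncomputable def evH (w : ℝ) (m : ℕ) : Gen 1 → V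
  | .T => vT w
  | .B => vB w
  | .G i => if i = 0 then vG w 0 else vG w m

/- PROOF NOTES [CEE-G1].  `gram`: cases on `s t`; `lor_comm` for the symmetric cases; sides `i ≠ j`: wlog `i < j`, `j = i + k`: `k = 1` label 2 (`lor_G_G_one`), otherwise label 0 and
`G_G_le_even` / `G_G_le_odd` (`k ≤ m`; for `k` odd `(k+3) w ≤ (m+3) w ≤ 2π`; for `k` even `(k + 2) w ≤ (m + 3) w`).
Interior point: the base point `Ohy 3 = (0;1)`: `lor O v = - v.2 < 0` for all walls. -/

theorem g1_O {X : V} (h : 0 < X.2) : lor (Ohy 3).val X < 0 := by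
  rw [lor_eq]
  simp only [Ohy]
  simp
  exact h

theorem g1_T {w : ℝ} (h0 : 0 < w) (h1 : w ≤ 1 / 2) : lor (Ohy 3).val (vT w) < 0 :=
  g1_O (Real.sqrt_pos.2 (Sv_pos h0 h1))

theorem g1_B {w : ℝ} (h0 : 0 < w) (h1 : w ≤ 1 / 2) : lor (Ohy 3).val (vB w) < 0 :=
  g1_O (Real.sqrt_pos.2 (Sv_pos h0 h1))

theorem g1_G {w : ℝ} (h0 : 0 < w) (h1 : w ≤ 1 / 2) (i : ℕ) : lor (Ohy 3).val (vG w i) < 0 :=
  g1_O (pv_pos h0 h1)

theorem g1_GG (m : ℕ) {w : ℝ} (h0 : 0 < w) (h1 : w ≤ 1 / 2) (h2 : (m + 3) * w ≤ 2 * π) {i j : ℕ}
    (hij : i < j) (hj : j ≤ m) :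
    (i + 1 = j ∧ lor (vG w i) (vG w j) = 0) ∨ (i + 1 ≠ j ∧ lor (vG w i) (vG w j) ≤ -1) := by
  obtain ⟨k, rfl⟩ : ∃ k, j = i + k := ⟨j - i, by omega⟩
  by_cases hk1 : k = 1
  · subst hk1
    exact Or.inl ⟨rfl, lor_G_G_one h0 h1 i⟩
  · right
    refine ⟨by omega, ?_⟩
    have hkm : (k : ℝ) ≤ m := by exact_mod_cast (by omega : k ≤ m)
    rcases Nat.even_or_odd k with hk | hk
    · refine G_G_le_even h0 h1 i hk (by omega) ?_
      nlinarith
    · refine G_G_le_odd h0 h1 i hk ?_ ?_
      · obtain ⟨l, hl⟩ := hk
        omega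
      · nlinarith

theorem RS_ev (m : ℕ) {w : ℝ} (h0 : 0 < w) (h1 : w ≤ 1 / 2) (h2 : (m + 3) * w ≤ 2 * π) :
    RS (CM m) (ev w m) := by
  refine ⟨?_, ?_, ⟨Ohy 3, ?_⟩⟩
  · intro s
    cases s with
    | T => exact lor_T_T h0 h1
    | B => exact lor_B_B h0 h1
    | G i => exact lor_G_self h0 h1 _
  · intro s t hst
    rw [CM_apply]
    cases s with
    | T =>
      cases t with
      | T => exact absurd rfl hst
      | B => exact Or.inr (Or.inr ⟨rfl, lor_T_B h0 h1⟩)
      | G i =>
        simp only [lab, ev]
        by_cases hi : Even i.val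
        · left
          exact ⟨if_pos hi, lor_T_G_even h0 h1 hi⟩
        · right; left
          exact ⟨if_neg hi, lor_T_G_odd h0 h1 (Nat.not_even_iff_odd.1 hi)⟩
    | B =>
      cases t with
      | T =>
        refine Or.inr (Or.inr ⟨rfl, ?_⟩)
        show lor (vB w) (vT w) ≤ -1
        rw [lor_comm]
        exact lor_T_B h0 h1
      | B => exact absurd rfl hst
      | G i =>
        simp only [lab, ev]
        by_cases hi : Even i.val
        · right; left
          exact ⟨if_pos hi, lor_B_G_even h0 h1 hi⟩
        · left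
          exact ⟨if_neg hi, lor_B_G_odd h0 h1 (Nat.not_even_iff_odd.1 hi)⟩
    | G i =>
      cases t with
      | T =>
        simp only [lab, ev]
        rw [lor_comm]
        by_cases hi : Even i.val
        · left
          exact ⟨if_pos hi, lor_T_G_even h0 h1 hi⟩
        · right; left
          exact ⟨if_neg hi, lor_T_G_odd h0 h1 (Nat.not_even_iff_odd.1 hi)⟩
      | B =>
        simp only [lab, ev]
        rw [lor_comm]
        by_cases hi : Even i.val
        · right; left
          exact ⟨if_pos hi, lor_B_G_even h0 h1 hi⟩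
        · left
          exact ⟨if_neg hi, lor_B_G_odd h0 h1 (Nat.not_even_iff_odd.1 hi)⟩
      | G j =>
        have hij : i ≠ j := fun h => hst (by rw [h])
        have hij' : i.val ≠ j.val := fun h => hij (Fin.ext h)
        simp only [lab, ev]
        rw [if_neg hij]
        have hi := i.isLt
        have hj := j.isLt
        rcases Nat.lt_or_gt_of_ne hij' with hlt | hlt
        · rcases g1_GG m h0 h1 h2 hlt (by omega) with ⟨h3, h4⟩ | ⟨h3, h4⟩
          · left
            exact ⟨if_pos (Or.inl h3), h4⟩
          · right; right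
            exact ⟨if_neg (by omega), h4⟩
        · rw [lor_comm]
          rcases g1_GG m h0 h1 h2 hlt (by omega) with ⟨h3, h4⟩ | ⟨h3, h4⟩
          · left
            exact ⟨if_pos (Or.inr h3), h4⟩
          · right; right
            exact ⟨if_neg (by omega), h4⟩
  · intro s
    cases s with
    | T => exact g1_T h0 h1
    | B => exact g1_B h0 h1
    | G i => exact g1_G h0 h1 _

theorem RS_evH (m : ℕ) (hm : Odd m) (hm3 : 3 ≤ m) {w : ℝ} (h0 : 0 < w) (h1 : w ≤ 1 / 2)
    (h2 : (m + 3) * w ≤ 2 * π) : RS CH (evH w m) := by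
  have he0 : Even 0 := ⟨0, rfl⟩
  have hGm : lor (vG w 0) (vG w m) ≤ -1 := by
    have h := G_G_le_odd h0 h1 0 hm hm3 h2
    rwa [zero_add] at h
  refine ⟨?_, ?_, ⟨Ohy 3, ?_⟩⟩
  · intro s
    cases s with
    | T => exact lor_T_T h0 h1
    | B => exact lor_B_B h0 h1
    | G i =>
      simp only [evH]
      split_ifs
      · exact lor_G_self h0 h1 _
      · exact lor_G_self h0 h1 _
  · intro s t hst
    rw [CH_apply]
    cases s with
    | T =>
      cases t with
      | T => exact absurd rfl hst
      | B => exact Or.inr (Or.inr ⟨rfl, lor_T_B h0 h1⟩)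
      | G i =>
        fin_cases i
        · left
          exact ⟨rfl, lor_T_G_even h0 h1 he0⟩
        · right; left
          exact ⟨rfl, lor_T_G_odd h0 h1 hm⟩
    | B =>
      cases t with
      | T =>
        refine Or.inr (Or.inr ⟨rfl, ?_⟩)
        show lor (vB w) (vT w) ≤ -1
        rw [lor_comm]
        exact lor_T_B h0 h1
      | B => exact absurd rfl hst
      | G i =>
        fin_cases i
        · right; left
          exact ⟨rfl, lor_B_G_even h0 h1 he0⟩
        · left
          exact ⟨rfl, lor_B_G_odd h0 h1 hm⟩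
    | G i =>
      cases t with
      | T =>
        fin_cases i
        · left
          refine ⟨rfl, ?_⟩
          show lor (vG w 0) (vT w) = 0
          rw [lor_comm]
          exact lor_T_G_even h0 h1 he0
        · right; left
          refine ⟨rfl, ?_⟩
          show lor (vG w m) (vT w) = _
          rw [lor_comm]
          exact lor_T_G_odd h0 h1 hm
      | B =>
        fin_cases i
        · right; left
          refine ⟨rfl, ?_⟩
          show lor (vG w 0) (vB w) = _
          rw [lor_comm]
          exact lor_B_G_even h0 h1 he0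
        · left
          refine ⟨rfl, ?_⟩
          show lor (vG w m) (vB w) = 0
          rw [lor_comm]
          exact lor_B_G_odd h0 h1 hm
      | G j =>
        fin_cases i <;> fin_cases j
        · exact absurd rfl hst
        · exact Or.inr (Or.inr ⟨rfl, hGm⟩)
        · refine Or.inr (Or.inr ⟨rfl, ?_⟩)
          show lor (vG w m) (vG w 0) ≤ -1
          rw [lor_comm]
          exact hGm
        · exact absurd rfl hst
  · intro s
    cases s with
    | T => exact g1_T h0 h1
    | B => exact g1_B h0 h1
    | G i =>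
      simp only [evH]
      split_ifs
      · exact g1_G h0 h1 _
      · exact g1_G h0 h1 _

/-- The base point of `H3`. -/
noncomputable abbrev O : H3 := Ohy 3

theorem O_mem_cham {w : ℝ} (h0 : 0 < w) (h1 : w ≤ 1 / 2) (m : ℕ) (s : Gen m) :
    lor O.val (ev w m s) < 0 := by
  cases s with
  | T => exact g1_T h0 h1
  | B => exact g1_B h0 h1
  | G i => exact g1_G h0 h1 _

end CEE
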