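import Pool.Agent.CEE.Y2a
import Pool.Agent.CEE.G1

set_option autoImplicit false

/-!
# [CEE-Y2b] The two opening angles, the two convex sets
-/

namespace CEE

open Pool.Agent.MP_8db1a4_gt Set Real

/- PROOF NOTES [CEE-Y2b].
`w0`, `w1`: `π / 13 < 1/4 ≤ 1/2`, `2π/16 ≤ 1/2` (`Real.pi_lt_d2`), `(m+3) π/m ≤ 2π`.
`ex1_anti`: products of `G (m+1)`, `G (m+2)` with `T, B, G i` for `w = w1 m`, `(m+3) w = 2π`: `lor_T_G_*`, `lor_B_G_*`; with `G i`: the difference `k = m+1-i` or `m+2-i`: `k = 1`: `0`; `k` with `(k+2) w ≤ 2π` (even) or `(k+3) w ≤ 2π` (odd): `≤ -1`;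
 the remaining cases are `m+2-i` with `i = 0` (`k = m+2` odd: `lor = -q² (cos w - cos ((m+2) w)) = 0` because `(m+2) w = 2π - w`), `i = 1` (`k = m+1` even: `(k+2) w = 2π`: fine), and `m + 1 - i` with `i = 0` (`k = m+1` even, fine).
`ex0_anti`: `lor_F_T`, `lor_F_B`, `lor_F_G`: `sin (i π/m) ≥ 0` for `0 ≤ i ≤ m`. -/

/-- opening angle for `M_geod` -/
noncomputable def w0 (m : ℕ) : ℝ := π / m

/-- opening angle for `M` -/
noncomputable def w1 (m : ℕ) : ℝ := 2 * π / (m + 3)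

theorem w0_pos {m : ℕ} (hm : 13 ≤ m) : 0 < w0 m := by
  have h1 : (0 : ℝ) < m := by
    have : 0 < m := by omega
    exact_mod_cast this
  exact div_pos pi_pos h1

theorem w0_le {m : ℕ} (hm : 13 ≤ m) : w0 m ≤ 1 / 2 := by
  have h1 : (13 : ℝ) ≤ m := by exact_mod_cast hm
  unfold w0
  rw [div_le_iff₀ (by linarith)]
  linarith [Real.pi_lt_d2]

theorem w0_mul {m : ℕ} (hm : 13 ≤ m) : (m + 3) * w0 m ≤ 2 * π := by
  have h1 : (13 : ℝ) ≤ m := by exact_mod_cast hm
  unfold w0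
  rw [mul_div_assoc', div_le_iff₀ (by linarith)]
  nlinarith [Real.pi_pos]

theorem w1_pos (m : ℕ) : 0 < w1 m := by
  have h1 : (0 : ℝ) ≤ m := Nat.cast_nonneg m
  unfold w1
  have := Real.pi_pos
  positivity

theorem w1_le {m : ℕ} (hm : 13 ≤ m) : w1 m ≤ 1 / 2 := by
  have h1 : (13 : ℝ) ≤ m := by exact_mod_cast hm
  unfold w1
  rw [div_le_iff₀ (by linarith)]
  linarith [Real.pi_lt_d2]

theorem w1_mul (m : ℕ) : (m + 3) * w1 m = 2 * π := by
  have h1 : (0 : ℝ) ≤ m := Nat.cast_nonneg m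
  unfold w1
  rw [mul_div_assoc', mul_comm, mul_div_assoc, div_self (by linarith), mul_one]

theorem RS0 {m : ℕ} (hm : 13 ≤ m) : RS (CM m) (ev (w0 m) m) :=
  RS_ev m (w0_pos hm) (w0_le hm) (w0_mul hm)

theorem RS1 {m : ℕ} (hm : 13 ≤ m) : RS (CM m) (ev (w1 m) m) :=
  RS_ev m (w1_pos m) (w1_le hm) (w1_mul m).le

def ex0 : Set V := {vF}

def ex1 (m : ℕ) : Set V := {vG (w1 m) (m + 1), vG (w1 m) (m + 2)}

theorem ex0_anti {m : ℕ} (hm : 13 ≤ m) : ∀ v ∈ ex0, ∀ s, lor v (ev (w0 m) m s) ≤ 0 := by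
  intro v hv s
  have hv' : v = vF := hv
  subst hv'
  have h1 : (13 : ℝ) ≤ m := by exact_mod_cast hm
  cases s with
  | T => exact (lor_F_T _).le
  | B => exact (lor_F_B _).le
  | G i =>
    show lor vF (vG (w0 m) i.val) ≤ 0
    rw [lor_F_G]
    have h2 : (i.val : ℝ) ≤ m := by exact_mod_cast (Nat.lt_succ_iff.1 i.isLt)
    have h3 : 0 ≤ sin ((i.val : ℝ) * w0 m) := by
      apply sin_nonneg_of_nonneg_of_le_pi
      · exact mul_nonneg (Nat.cast_nonneg _) (w0_pos hm).le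
      · unfold w0
        rw [mul_div_assoc', div_le_iff₀ (by linarith), mul_comm]
        exact mul_le_mul_of_nonneg_left h2 Real.pi_pos.le
    have h4 := mul_nonneg (qv_pos (w0_pos hm) (w0_le hm)).le h3
    linarith

theorem y2b_TB {m : ℕ} (hm : 13 ≤ m) (i : ℕ) :
    lor (vG (w1 m) i) (vT (w1 m)) ≤ 0 ∧ lor (vG (w1 m) i) (vB (w1 m)) ≤ 0 := by
  have h2 : 0 ≤ sqrt 2 := sqrt_nonneg 2
  rw [lor_comm, lor_comm (vG (w1 m) i) (vB (w1 m))]
  rcases Nat.even_or_odd i with h | h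
  · rw [lor_T_G_even (w1_pos m) (w1_le hm) h, lor_B_G_even (w1_pos m) (w1_le hm) h]
    constructor <;> linarith
  · rw [lor_T_G_odd (w1_pos m) (w1_le hm) h, lor_B_G_odd (w1_pos m) (w1_le hm) h]
    constructor <;> linarith

theorem y2b_le {m : ℕ} (hm : 13 ≤ m) (ho : Odd m) (i k : ℕ) (hk1 : 1 ≤ k) (hk2 : k ≤ m + 2) :
    lor (vG (w1 m) i) (vG (w1 m) (i + k)) ≤ 0 := by
  have hp := w1_pos m
  have hl := w1_le hm
  have hmul := w1_mul m
  rcases Nat.even_or_odd k with h | h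
  · have h1 : k ≠ m + 2 := by
      rintro rfl
      rcases ho with ⟨a, ha⟩
      rcases h with ⟨b, hb⟩
      omega
    have h2 : 2 ≤ k := by
      rcases h with ⟨b, hb⟩
      omega
    have h3 : k ≤ m + 1 := by omega
    have h4 : (k : ℝ) ≤ m + 1 := by exact_mod_cast h3
    have h5 := G_G_le_even hp hl i h h2 (by rw [← hmul]; exact mul_le_mul_of_nonneg_right (by linarith) hp.le)
    linarith
  · by_cases hk : k = 1
    · subst hk
      exact (lor_G_G_one hp hl i).le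
    · have h2 : 3 ≤ k := by
        rcases h with ⟨b, hb⟩
        omega
      by_cases hk' : k = m + 2
      · rw [lor_G_G_odd hp hl i h]
        have h6 : cos ((k : ℝ) * w1 m) = cos (w1 m) := by
          have h7 : (k : ℝ) * w1 m = 2 * π - w1 m := by
            rw [hk']
            push_cast
            linarith
          rw [h7, cos_two_pi_sub]
        rw [h6]
        simp
      · have h3 : k ≤ m := by
          rcases ho with ⟨a, ha⟩
          rcases h with ⟨b, hb⟩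
          omega
        have h4 : (k : ℝ) ≤ m := by exact_mod_cast h3
        have h5 := G_G_le_odd hp hl i h h2 (by rw [← hmul]; exact mul_le_mul_of_nonneg_right (by linarith) hp.le)
        linarith

theorem ex1_anti {m : ℕ} (hm : 13 ≤ m) (ho : Odd m) :
    ∀ v ∈ ex1 m, ∀ s, lor v (ev (w1 m) m s) ≤ 0 := by
  intro v hv s
  have hv' : v = vG (w1 m) (m + 1) ∨ v = vG (w1 m) (m + 2) := hv
  cases s with
  | T =>
    rcases hv' with rfl | rfl
    · exact (y2b_TB hm _).1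
    · exact (y2b_TB hm _).1
  | B =>
    rcases hv' with rfl | rfl
    · exact (y2b_TB hm _).2
    · exact (y2b_TB hm _).2
  | G i =>
    show lor v (vG (w1 m) i.val) ≤ 0
    have hi := Nat.lt_succ_iff.1 i.isLt
    rw [lor_comm]
    rcases hv' with rfl | rfl
    · have h1 := y2b_le hm ho i.val (m + 1 - i.val) (by omega) (by omega)
      rwa [show i.val + (m + 1 - i.val) = m + 1 by omega] at h1
    · have h1 := y2b_le hm ho i.val (m + 2 - i.val) (by omega) (by omega)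
      rwa [show i.val + (m + 2 - i.val) = m + 2 by omega] at h1

/-- the universal cover of the core of `M_geod` -/
def Y0 {m : ℕ} (hm : 13 ≤ m) : Set H3 := Yset (RS0 hm) ex0

def Y1 {m : ℕ} (hm : 13 ≤ m) : Set H3 := Yset (RS1 hm) (ex1 m)

/-- compact fundamental polyhedra -/
def D0 (m : ℕ) : Set H3 := Dset (ev (w0 m) m) ex0

def D1 (m : ℕ) : Set H3 := Dset (ev (w1 m) m) (ex1 m)

end CEE
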