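import Pool.Agent.CEE.D1a
import Pool.Agent.CEE.Y2b
import Pool.Agent.CEE.G3a
import Pool.Agent.CEE.G3c

set_option autoImplicit false

/-!
# [CEE-D1] The distance of the quotients
-/

namespace CEE

open Pool.Agent.MP_8db1a4_gt Set Real

section

variable {ι : Type} [Finite ι] {M : CoxeterMatrix ι} {e : ι → V}

/- PROOF NOTES [CEE-D1].
`qd_eq_zero`: `qd_exists`; `dist_eq_zero`.
`proj_eq`: `Quotient.eq` for `MulAction.orbitRel`, `MulAction.orbitRel_apply`, elements of `N.map rho`.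
`mdist_eq`: the lifts of `proj x` are the `ρ(k) x`; the set of distances is `{dist (ρ(k) x) (ρ(l) y)} = {dist x (ρ(k⁻¹ l) y)}`; `sInf` of it is the `iInf` (both inequalities: `csInf_le`, `le_csInf`, `qd_exists`, `qd_le`).
`finite_transversal`: `phi m` has values in the finite group `Q`; `t` = the image of `Set.range (phi m)` under a choice of preimages; `k = w v⁻¹` with `phi w = phi v`.
`IsHyp0/1`: `det_K` (G3a) and `K_disp` (G3c) (`ρ(k) ≠ 1` gives `k ≠ 1`); the elements of `(K m).map rho` are `ρ(k)`. -/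

omit [Finite ι] in
theorem d1_proj_eq (h : RS M e) (N : Subgroup M.Group) (x y : H3) :
    proj (N.map h.rho) x = proj (N.map h.rho) y ↔ ∃ k ∈ N, x = h.rho k • y := by
  constructor
  · intro h0
    have h1 : (MulAction.orbitRel (N.map h.rho) H3) x y := Quotient.exact h0
    rw [MulAction.orbitRel_apply] at h1
    obtain ⟨⟨g, k, hk, hg⟩, h2⟩ := h1
    subst hg
    exact ⟨k, hk, h2.symm⟩
  · rintro ⟨k, hk, h1⟩
    apply Quotient.sound
    show (MulAction.orbitRel (N.map h.rho) H3) x y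
    rw [MulAction.orbitRel_apply]
    exact ⟨⟨h.rho k, k, hk, rfl⟩, h1.symm⟩

theorem qd_eq_zero (h : RS M e) (N : Subgroup M.Group) (x y : H3) :
    qd h N x y = 0 ↔ ∃ k ∈ N, x = h.rho k • y := by
  constructor
  · intro h0
    obtain ⟨k, hk, h1⟩ := qd_exists h N x y
    rw [h0] at h1
    exact ⟨k, hk, dist_eq_zero.1 h1.symm⟩
  · rintro ⟨k, hk, h1⟩
    have h2 := qd_le h N x y k hk
    rw [← h1, dist_self] at h2
    exact le_antisymm h2 (qd_nonneg h N x y)

theorem mdist_eq (h : RS M e) (N : Subgroup M.Group) (x y : H3) :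
    mdist (N.map h.rho) (proj (N.map h.rho) x) (proj (N.map h.rho) y) = qd h N x y := by
  unfold mdist
  apply le_antisymm
  · obtain ⟨k, hk, h1⟩ := qd_exists h N x y
    refine csInf_le ⟨0, ?_⟩ ⟨x, h.rho k • y, rfl, (d1_proj_eq h N _ _).2 ⟨k, hk, rfl⟩, h1⟩
    rintro r ⟨x', y', -, -, rfl⟩
    exact dist_nonneg
  · refine le_csInf ⟨dist x y, x, y, rfl, rfl, rfl⟩ ?_
    rintro r ⟨x', y', hx, hy, rfl⟩
    obtain ⟨k, hk, rfl⟩ := (d1_proj_eq h N _ _).1 hx
    obtain ⟨l, hl, rfl⟩ := (d1_proj_eq h N _ _).1 hy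
    rw [← qd_smul_left h N x y k hk, ← qd_smul_right h N (h.rho k • x) y l hl]
    exact qd_le_dist h N _ _

theorem proj_eq (h : RS M e) (N : Subgroup M.Group) (x y : H3) :
    proj (N.map h.rho) x = proj (N.map h.rho) y ↔ ∃ k ∈ N, x = h.rho k • y := by
  exact d1_proj_eq h N x y

end

/-- distance of `M_geod` (on lifts) -/
noncomputable def d0 {m : ℕ} (hm : 13 ≤ m) (x y : H3) : ℝ := qd (RS0 hm) (K m) x y

/-- distance of `M` (on lifts) -/
noncomputable def d1 {m : ℕ} (hm : 13 ≤ m) (x y : H3) : ℝ := qd (RS1 hm) (K m) x y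

/-- The fundamental group of `M_geod`. -/
noncomputable def Gam0 {m : ℕ} (hm : 13 ≤ m) : Subgroup O31 := (K m).map (RS0 hm).rho

/-- The fundamental group of `M`. -/
noncomputable def Gam1 {m : ℕ} (hm : 13 ≤ m) : Subgroup O31 := (K m).map (RS1 hm).rho

/-- `K` has finite index -/
theorem finite_transversal (m : ℕ) : ∃ t : Finset (CM m).Group, ∀ w : (CM m).Group,
    ∃ k ∈ K m, ∃ v ∈ t, w = k * v := by
  classical
  have hf : Fintype Q := Fintype.ofFinite Q
  refine ⟨Finset.univ.image (fun q : Q => if hq : ∃ v, phi m v = q then hq.choose else 1), ?_⟩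
  intro w
  have hw : ∃ v, phi m v = phi m w := ⟨w, rfl⟩
  refine ⟨w * hw.choose⁻¹, ?_, hw.choose, ?_, ?_⟩
  · show w * hw.choose⁻¹ ∈ (phi m).ker
    rw [MonoidHom.mem_ker, map_mul, map_inv, hw.choose_spec, mul_inv_cancel]
  · rw [Finset.mem_image]
    exact ⟨phi m w, Finset.mem_univ _, dif_pos hw⟩
  · rw [inv_mul_cancel_right]

theorem IsHyp0 {m : ℕ} (hm : 13 ≤ m) : IsHypMfdGroup (Gam0 hm) := by
  refine ⟨?_, ?_⟩
  · rintro g ⟨k, hk, rfl⟩
    exact det_K m (RS0 hm) k hk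
  · intro x
    obtain ⟨ε, hε, h1⟩ := K_disp m (by omega) (RS0 hm) x
    refine ⟨ε, hε, ?_⟩
    rintro g ⟨k, hk, rfl⟩ hg
    apply h1 k hk
    rintro rfl
    exact hg (map_one _)

theorem IsHyp1 {m : ℕ} (hm : 13 ≤ m) : IsHypMfdGroup (Gam1 hm) := by
  refine ⟨?_, ?_⟩
  · rintro g ⟨k, hk, rfl⟩
    exact det_K m (RS1 hm) k hk
  · intro x
    obtain ⟨ε, hε, h1⟩ := K_disp m (by omega) (RS1 hm) x
    refine ⟨ε, hε, ?_⟩
    rintro g ⟨k, hk, rfl⟩ hg
    apply h1 k hk
    rintro rfl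
    exact hg (map_one _)

end CEE
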