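import Pool.Agent.CEE.F3
import Pool.Agent.CEE.D1

set_option autoImplicit false

/-!
# [CEE-F4a] The convex cores
-/

namespace CEE

open Pool.Agent.MP_8db1a4_gt Set Real

/- PROOF NOTES [CEE-F4a].
`hull_Gam0`: `⊆`: `Y0` is one of the sets (nonempty: `O ∈ D0`; `Yset_closed`, `Yset_convex`, `Yset_smul`); `⊇`: `Y0_sub_Z`.
`core_compact0`: `Y0 = ⋃_{c} ⋃_{k ∈ K} ρ(k) ρ(v_c) D0` with finitely many `v_c` (one for each value `c` of `phi m`); so `proj '' Y0` is the union of the finitely many compact sets `proj '' (ρ(v_c) '' D0)` (`proj` is continuous: `continuous_quotient_mk'`; `ρ(v)` is an isometry).  The same for `Y1`, `D1` (use one generic lemma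
`compact_quot` for `Yset`).
-/

/-- the quotient of a closed invariant set which is covered by the translates of a compact set -/
theorem f4a_compact {ι : Type} [Finite ι] {M : CoxeterMatrix ι} {e : ι → V} (h : RS M e) (N : Subgroup M.Group)
    (t : Finset M.Group) (ht : ∀ w : M.Group, ∃ k ∈ N, ∃ v ∈ t, w = k * v) (D S : Set H3)
    (hD : IsCompact D) (hS : IsClosed S) (hinv : ∀ k ∈ N, ∀ x ∈ S, h.rho k • x ∈ S)
    (hex : ∀ x ∈ S, ∃ w : M.Group, ∃ y ∈ D, x = h.rho w • y) :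
    IsCompact (proj (N.map h.rho) '' S) := by
  have hcont : ∀ g : O31, Continuous fun x : H3 => g • x := fun g =>
    (Isometry.of_dist_eq (dist_smul_smul g)).continuous
  have hC : IsCompact (⋃ v ∈ t, (fun x : H3 => h.rho v • x) '' D) :=
    t.isCompact_biUnion fun v _ => hD.image (hcont _)
  have he : proj (N.map h.rho) '' S =
      proj (N.map h.rho) '' ((⋃ v ∈ t, (fun x : H3 => h.rho v • x) '' D) ∩ S) := by
    apply Subset.antisymm
    · rintro _ ⟨x, hx, rfl⟩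
      obtain ⟨w, y, hy, hxy⟩ := hex x hx
      obtain ⟨k, hk, v, hv, hw⟩ := ht w
      have h1 : x = h.rho k • h.rho v • y := by
        rw [hxy, hw, map_mul, mul_smul]
      have h2 : h.rho v • y = h.rho k⁻¹ • x := by
        rw [h1, ← mul_smul (h.rho k⁻¹), ← map_mul, inv_mul_cancel, map_one, one_smul]
      refine ⟨h.rho v • y, ⟨?_, ?_⟩, ?_⟩
      · rw [mem_iUnion₂]
        exact ⟨v, hv, y, hy, rfl⟩
      · rw [h2]
        exact hinv k⁻¹ (N.inv_mem hk) x hx
      · rw [proj_eq]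
        exact ⟨k⁻¹, N.inv_mem hk, h2⟩
    · exact image_mono inter_subset_right
  rw [he]
  exact (hC.inter_right hS).image continuous_quotient_mk'

theorem hull_Gam0 {m : ℕ} (hm : 13 ≤ m) (ho : Odd m) : hull (Gam0 hm) = Y0 hm := by
  apply Subset.antisymm
  · apply sInter_subset_of_mem
    refine ⟨⟨O, Yset_cham (RS0 hm) ex0 (ex0_anti hm) (O_mem_D0 hm)⟩, Yset_closed _ _, Yset_convex _ _, ?_⟩
    rintro _ ⟨k, _, rfl⟩ x hx
    exact Yset_smul (RS0 hm) ex0 k hx
  · apply subset_sInter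
    rintro Z ⟨hne, hc, hZ, hinv⟩
    exact Y0_sub_Z hm ho Z hne hc hZ fun k hk z hz => hinv _ ⟨k, hk, rfl⟩ z hz

theorem core_compact0 {m : ℕ} (hm : 13 ≤ m) (ho : Odd m) : IsCompact (core (Gam0 hm)) := by
  obtain ⟨t, ht⟩ := finite_transversal m
  unfold core
  rw [hull_Gam0 hm ho]
  refine f4a_compact (RS0 hm) (K m) t ht (D0 m) (Y0 hm) (D0_compact hm) (Yset_closed _ _)
    (fun k _ x hx => Yset_smul _ _ k hx) ?_
  intro x hx
  obtain ⟨w, hw⟩ := (RS0 hm).fold_spec x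
  exact ⟨w, _, (Yset_fold (RS0 hm) ex0 (ex0_anti hm) x).1 hx, hw⟩

theorem ConvexCocompact0 {m : ℕ} (hm : 13 ≤ m) (ho : Odd m) : ConvexCocompact (Gam0 hm) := by
  refine ⟨IsHyp0 hm, ?_, core_compact0 hm ho⟩
  rw [hull_Gam0 hm ho]
  exact ⟨O, Yset_cham (RS0 hm) ex0 (ex0_anti hm) (O_mem_D0 hm)⟩

theorem GeodBoundary0 {m : ℕ} (hm : 13 ≤ m) (ho : Odd m) : GeodBoundary (Gam0 hm) := by
  have hO : O ∈ Pl := by
    show lor O.val vF = 0
    rw [lor_eq]
    simp [O, vF, Ohy]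
  refine ⟨?_, ?_⟩
  · rw [hull_Gam0 hm ho]
    exact ⟨_, frontier_of hm ho 1 O hO⟩
  · rw [hull_Gam0 hm ho]
    intro x hx
    exact frontier_plane hm ho x hx

end CEE
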