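import Pool.Agent.CEE.G2

set_option autoImplicit false

/-!
# [CEE-G4] Finitely many classes, the characters chi, extension to W
-/

namespace CEE

open Pool.Agent.MP_8db1a4_gt Set Real

/- PROOF NOTES [CEE-G4].
`finite_hom`: `(CM m).Group` is finitely generated (`subgroup_closure_range_simple`, `Finite (Gen m)`), `K m` has finite index (`phi m` has a finite target: `Subgroup.index_ker`, `Subgroup.FiniteIndex`), so `K m` is finitely generated
 (`Subgroup.fg_of_index_ne_zero`) and there are finitely many homomorphisms into the finite group `ℤˣ` (a homomorphism is determined by its values on a finite generating set: `MonoidHom.eq_of_eqOn_dense`/`Finite.of_injective`).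
`chi_liftable`: values in a commutative group of exponent 2, even labels; the diagonal label `1`: square.
`chi_H`: `closure_induction`: `T, B, G 0, G m ↦ 1` for `0 < i < m`.
`kt_mem`: `typ` depends on the parity only and `typ s * typ s = 1`.
`exists_ext`: for `λ` trivial on `K ∩ H`: define `e w = λ k` for `w = k h` (`exists_KH`, choice); if `k h = k' h'` then `k'⁻¹ k = h' h⁻¹ ∈ K ∩ H`, so `λ k = λ k'`.  `e (k w) = λ k * e w`, `e (w h) = e w` are then clear. -/

instance finite_hom (m : ℕ) : Finite (K m →* ℤˣ) := by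
  have h1 : Group.FG (CM m).Group := by
    rw [Group.fg_iff]
    refine ⟨Set.range (CM m).toCoxeterSystem.simple, (CM m).toCoxeterSystem.subgroup_closure_range_simple,
      Set.finite_range _⟩
  have h2 : (K m).FiniteIndex := by
    unfold K
    exact Subgroup.finiteIndex_ker _
  have h3 : Group.FG (K m) := inferInstance
  obtain ⟨S, hS, hfin⟩ := Group.fg_iff.1 h3
  have h4 : Finite S := hfin
  refine Finite.of_injective (fun (f : K m →* ℤˣ) (s : S) => f s) ?_
  intro f g hfg
  exact MonoidHom.eq_of_eqOn_dense hS (fun x hx => congrFun hfg ⟨x, hx⟩)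

/-- the homomorphisms `K → {±1}` which are trivial on the boundary group -/
def Lam (m : ℕ) : Set (K m →* ℤˣ) := {l | ∀ k : K m, (k : (CM m).Group) ∈ Hs m → l k = 1}

/-- the sign character of the side `i` -/
def chiGen (m : ℕ) (i : Fin (m + 1)) : Gen m → ℤˣ
  | .T => 1
  | .B => 1
  | .G j => if j = i then -1 else 1

theorem chi_liftable (m : ℕ) (i : Fin (m + 1)) : (CM m).IsLiftable (chiGen m i) := by
  intro s t
  change (chiGen m i s * chiGen m i t) ^ (lab m s t) = 1
  have h2 : ∀ x : ℤˣ, x ^ 2 = 1 := fun x => Int.units_sq x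
  have h4 : ∀ x : ℤˣ, x ^ 4 = 1 := fun x => by rw [show 4 = 2 * 2 from rfl, pow_mul, h2]
  cases s with
  | T =>
    cases t with
    | T => simp [lab, chiGen]
    | B => simp [lab]
    | G j =>
      simp only [lab]
      split_ifs
      · exact h2 _
      · exact h4 _
  | B =>
    cases t with
    | T => simp [lab]
    | B => simp [lab, chiGen]
    | G j =>
      simp only [lab]
      split_ifs
      · exact h4 _
      · exact h2 _
  | G k =>
    cases t with
    | T =>
      simp only [lab]
      split_ifs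
      · exact h2 _
      · exact h4 _
    | B =>
      simp only [lab]
      split_ifs
      · exact h4 _
      · exact h2 _
    | G j =>
      simp only [lab]
      split_ifs with h5 h6
      · rw [h5, pow_one]
        exact Int.units_mul_self _
      · exact h2 _
      · exact pow_zero _

noncomputable def chi (m : ℕ) (i : Fin (m + 1)) : (CM m).Group →* ℤˣ :=
  (CM m).toCoxeterSystem.lift ⟨chiGen m i, chi_liftable m i⟩

theorem chi_simple (m : ℕ) (i : Fin (m + 1)) (s : Gen m) :
    chi m i ((CM m).simple s) = chiGen m i s := by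
  have h1 := (CM m).toCoxeterSystem.lift_apply_simple (chi_liftable m i) s
  rwa [(CM m).toCoxeterSystem_simple] at h1

theorem chi_H (m : ℕ) (i : Fin (m + 1)) (h0 : 0 < i.val) (h1 : i.val < m) (g : (CM m).Group)
    (hg : g ∈ Hs m) : chi m i g = 1 := by
  have h2 : Hs m ≤ (chi m i).ker := by
    unfold Hs
    rw [Subgroup.closure_le]
    rintro _ ⟨s, hs, rfl⟩
    change chi m i ((CM m).simple s) = 1
    rw [chi_simple]
    rcases hs with rfl | rfl | rfl | rfl
    · rfl
    · rfl
    · change (if (0 : Fin (m + 1)) = i then (-1 : ℤˣ) else 1) = 1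
      rw [if_neg]
      rintro rfl
      exact lt_irrefl _ h0
    · change (if Fin.last m = i then (-1 : ℤˣ) else 1) = 1
      rw [if_neg]
      rintro rfl
      exact lt_irrefl _ h1
  exact h2 hg

theorem chi_mem_Lam (m : ℕ) (i : Fin (m + 1)) (h0 : 0 < i.val) (h1 : i.val < m) :
    (chi m i).comp (K m).subtype ∈ Lam m := by
  intro k hk
  exact chi_H m i h0 h1 _ hk

/-- `k_t = G_t G_{t+2}` -/
noncomputable def kt (m t : ℕ) (ht : t + 2 ≤ m) : (CM m).Group :=
  (CM m).simple (.G ⟨t, by omega⟩) * (CM m).simple (.G ⟨t + 2, by omega⟩)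

theorem kt_mem (m t : ℕ) (ht : t + 2 ≤ m) : kt m t ht ∈ K m := by
  have h2 : ∀ (j k : Fin (m + 1)), (Even j.val ↔ Even k.val) → typ m (.G j) * typ m (.G k) = 1 := by
    intro j k hjk
    change (if Even j.val then ((1, .sr 1, -1) : Q) else (.sr 1, 1, -1)) *
      (if Even k.val then ((1, .sr 1, -1) : Q) else (.sr 1, 1, -1)) = 1
    by_cases hj : Even j.val
    · rw [if_pos hj, if_pos (hjk.1 hj)]
      rfl
    · rw [if_neg hj, if_neg (fun h => hj (hjk.2 h))]
      rfl
  unfold K
  rw [MonoidHom.mem_ker]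
  unfold kt
  rw [map_mul, phi_simple, phi_simple]
  apply h2
  change Even t ↔ Even (t + 2)
  rw [Nat.even_add]
  simp

theorem kt_chi (m t : ℕ) (ht : t + 2 ≤ m) (hm : 5 ≤ m) :
    ∃ l ∈ Lam m, l ⟨kt m t ht, kt_mem m t ht⟩ = -1 := by
  have key : ∀ i : Fin (m + 1), chi m i (kt m t ht) = (if (⟨t, by omega⟩ : Fin (m + 1)) = i then -1 else 1) *
      (if (⟨t + 2, by omega⟩ : Fin (m + 1)) = i then -1 else 1) := by
    intro i
    unfold kt
    rw [map_mul, chi_simple, chi_simple]
    rfl
  rcases Nat.eq_zero_or_pos t with h0 | h0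
  · subst h0
    refine ⟨(chi m ⟨2, by omega⟩).comp (K m).subtype, chi_mem_Lam m _ (by norm_num) (by simpa using by omega), ?_⟩
    change chi m ⟨2, by omega⟩ (kt m 0 ht) = -1
    rw [key, if_neg, if_pos, one_mul]
    · rfl
    · intro h
      have := congrArg Fin.val h
      simp at this
  · refine ⟨(chi m ⟨t, by omega⟩).comp (K m).subtype, chi_mem_Lam m _ h0 (by simpa using by omega), ?_⟩
    change chi m ⟨t, by omega⟩ (kt m t ht) = -1
    rw [key, if_pos rfl, if_neg, mul_one]
    intro h
    have := congrArg Fin.val h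
    simp at this

theorem exists_ext (m : ℕ) (hm : Odd m) (l : K m →* ℤˣ) (hl : l ∈ Lam m) :
    ∃ e : (CM m).Group → ℤˣ, (∀ (k : K m) (w : (CM m).Group), e (k * w) = l k * e w) ∧
      ∀ w, ∀ h ∈ Hs m, e (w * h) = e w := by
  choose k hk h hh hw using exists_KH m hm
  have key : ∀ (a : K m) (b : (CM m).Group), b ∈ Hs m →
      l ⟨k (a * b), hk _⟩ = l a := by
    intro a b hb
    have h1 := hw (a * b)
    have h2 : (k (a * b))⁻¹ * a = h (a * b) * b⁻¹ := by
      rw [inv_mul_eq_iff_eq_mul, ← mul_assoc, eq_mul_inv_iff_mul_eq]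
      exact h1
    have h3 : l ((⟨k (a * b), hk _⟩ : K m)⁻¹ * a) = 1 := by
      apply hl
      change (k (a * b))⁻¹ * (a : (CM m).Group) ∈ Hs m
      rw [h2]
      exact Subgroup.mul_mem _ (hh _) (Subgroup.inv_mem _ hb)
    rw [map_mul, map_inv, inv_mul_eq_one] at h3
    exact h3
  refine ⟨fun w => l ⟨k w, hk w⟩, ?_, ?_⟩
  · intro a w
    have h1 := key (a * ⟨k w, hk w⟩) (h w) (hh w)
    have h2 : ((a * (⟨k w, hk w⟩ : K m) : K m) : (CM m).Group) * h w = a * w := by
      rw [Subgroup.coe_mul, mul_assoc]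
      exact congrArg _ (hw w).symm
    change l ⟨k (a * w), hk _⟩ = l a * l ⟨k w, hk w⟩
    rw [← map_mul, ← h1]
    congr 2
    exact congrArg k h2.symm
  · intro w b hb
    have h1 := key ⟨k w, hk w⟩ (h w * b) (Subgroup.mul_mem _ (hh w) hb)
    have h2 : ((⟨k w, hk w⟩ : K m) : (CM m).Group) * (h w * b) = w * b := by
      rw [← mul_assoc]
      exact congrArg (· * b) (hw w).symm
    change l ⟨k (w * b), hk _⟩ = l ⟨k w, hk w⟩
    rw [← h1]
    congr 2
    exact congrArg k h2.symm

end CEE
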