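import Pool.Agent.CEE.F2
import Pool.Agent.CEE.G3c

set_option autoImplicit false

/-!
# [CEE-C2a] Uniform constants on `Y0`
-/

namespace CEE

open Pool.Agent.MP_8db1a4_gt Set Real

/-- `x` is closer than `δ` to the boundary plane `ρ₀(w) Pl` -/
def Near {m : ℕ} (hm : 13 ≤ m) (δ : ℝ) (x : H3) (w : (CM m).Group) : Prop :=
  ∃ p ∈ Pl, dist x ((RS0 hm).rho w • p) < δ

/- PROOF NOTES [CEE-C2a].
`iota`: `D0` is compact.  First for `x ∈ D0`: the function `x ↦ inf_{k ≠ 1} dist x (ρ(k) x)` is bounded below on `D0`: cover `D0` by balls `ball x (ε_x / 4)` with `ε_x` from `K_disp`, finitely many suffice; in such a ball `dist y (ρ(k) y) ≥ ε_x - 2 ε_x/4 = ε_x / 2`.  For `x ∈ Y0`: `x = ρ(v) y`, `y ∈ D0`,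
 `dist x (ρ(k) x) = dist y (ρ(v⁻¹ k v) y)`, `K` normal.
`collar`: again translate: it is enough to treat `x = y ∈ D0` (`Near δ (ρ(v) y) w ↔ Near δ y (v⁻¹ w)`; the conclusion `w' ∈ w Hs` is invariant).  Suppose no `δ` works: for `δ = 1/(n+1)` points `y_n ∈ D0`, `w_n, w'_n` in different cosets of `Hs` with `Near`, points `p_n, p'_n ∈ Pl`; by `Pl_exists` write
 `p_n = ρ(h_n) q_n` with `q_n ∈ Pl ∩ cham = Pl ∩ D0` and absorb `h_n` in `w_n` (the coset does not change).  So `dist y_n (ρ(w_n) q_n) < 1/(n+1)`, `y_n, q_n` in the compact `D0`: `dist O (ρ(w_n) O) ≤ C`, so only finitely many `w_n` (`finite_orbit`), the same for `w'_n`: pass to a subsequence with constant `w, w'` and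
 `y_n → y`, `q_n → q`, `q'_n → q'` in `D0` (`Pl` is closed): `y = ρ(w) q = ρ(w') q'`; `coset` for `w'⁻¹ w` and `q`: `w'⁻¹ w ∈ Hs`: contradiction.  (Alternatively use finiteness first and then positive distances.) -/

theorem c2a_translate {m : ℕ} (hm : 13 ≤ m) {x : H3} (hx : x ∈ Y0 hm) :
    ∃ v : (CM m).Group, ∃ y ∈ D0 m, x = (RS0 hm).rho v • y := by
  obtain ⟨v, hv⟩ := (RS0 hm).fold_spec x
  exact ⟨v, (RS0 hm).fold x, (Yset_fold (RS0 hm) ex0 (ex0_anti hm) x).1 hx, hv⟩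

theorem c2a_dist {m : ℕ} (hm : 13 ≤ m) (v w : (CM m).Group) (y z : H3) :
    dist ((RS0 hm).rho v • y) ((RS0 hm).rho w • z) = dist y ((RS0 hm).rho (v⁻¹ * w) • z) := by
  rw [← dist_smul_smul ((RS0 hm).rho v) y, ← mul_smul, ← map_mul, mul_inv_cancel_left]

theorem c2a_min {α : Type*} (S : Set α) (hS : S.Finite) (f : α → ℝ) (hf : ∀ a ∈ S, 0 < f a) :
    ∃ δ > 0, ∀ a ∈ S, δ ≤ f a := by
  rcases S.eq_empty_or_nonempty with h | h
  · exact ⟨1, one_pos, fun a ha => by rw [h] at ha; exact absurd ha (Set.notMem_empty a)⟩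
  · obtain ⟨a, ha, hmin⟩ := Set.exists_min_image S f hS h
    exact ⟨f a, hf a ha, hmin⟩

theorem c2a_Pl_closed : IsClosed Pl := by
  have h2 : Continuous fun x : H3 => lor x.val vF := by
    have h3 : Continuous fun x : H3 => lor vF x.val :=
      (continuous_lor_right vF).comp (B1c.hy_val_continuous 3)
    exact h3.congr fun x => lor_comm _ _
  exact isClosed_eq h2 continuous_const

theorem c2a_Pl_compact {m : ℕ} (hm : 13 ≤ m) : IsCompact (Pl ∩ D0 m) :=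
  (D0_compact hm).inter_left c2a_Pl_closed

theorem c2a_mem {m : ℕ} {q : H3} (hq : q ∈ Pl) (hc : q ∈ cham (ev (w0 m) m)) : q ∈ Pl ∩ D0 m := by
  refine ⟨hq, hc, ?_⟩
  intro v hv
  have h1 : v = vF := hv
  rw [h1]
  exact le_of_eq hq

theorem c2a_cont {m : ℕ} (hm : 13 ≤ m) (w : (CM m).Group) :
    Continuous fun y : H3 => (RS0 hm).rho w • y := by
  have h : LipschitzWith 1 fun y : H3 => (RS0 hm).rho w • y :=
    LipschitzWith.mk_one fun a b => (dist_smul_smul _ a b).le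
  exact h.continuous

/-- a representative of the coset of `w` near `x` -/
theorem c2a_near {m : ℕ} (hm : 13 ≤ m) (ho : Odd m) {δ : ℝ} {x : H3} {w : (CM m).Group}
    (h : Near hm δ x w) : ∃ u : (CM m).Group, w⁻¹ * u ∈ Hs m ∧
      ∃ q ∈ Pl ∩ D0 m, dist x ((RS0 hm).rho u • q) < δ := by
  obtain ⟨p, hp, hd⟩ := h
  obtain ⟨h, hh, h1, h2⟩ := Pl_exists hm ho p hp
  refine ⟨w * h⁻¹, ?_, (RS0 hm).rho h • p, c2a_mem h1 h2, ?_⟩
  · rw [inv_mul_cancel_left]
    exact (Hs m).inv_mem hh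
  · rw [← mul_smul, ← map_mul, inv_mul_cancel_right]
    exact hd

theorem iota {m : ℕ} (hm : 13 ≤ m) : ∃ ι > 0, ∀ x ∈ Y0 hm, ∀ k ∈ K m, k ≠ 1 →
    ι ≤ dist x ((RS0 hm).rho k • x) := by
  have hm3 : 3 ≤ m := by omega
  have key : ∃ ι > 0, ∀ y ∈ D0 m, ∀ k ∈ K m, k ≠ 1 → ι ≤ dist y ((RS0 hm).rho k • y) := by
    refine (D0_compact hm).induction_on (p := fun S : Set H3 => ∃ ι > 0, ∀ y ∈ S, ∀ k ∈ K m, k ≠ 1 →
      ι ≤ dist y ((RS0 hm).rho k • y)) ?_ ?_ ?_ ?_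
    · exact ⟨1, one_pos, fun y hy => absurd hy (Set.notMem_empty y)⟩
    · rintro s t hst ⟨i, hi, h⟩
      exact ⟨i, hi, fun y hy => h y (hst hy)⟩
    · rintro s t ⟨i, hi, h⟩ ⟨j, hj, h'⟩
      refine ⟨min i j, lt_min hi hj, ?_⟩
      rintro y (hy | hy) k hk hk1
      · exact (min_le_left i j).trans (h y hy k hk hk1)
      · exact (min_le_right i j).trans (h' y hy k hk hk1)
    · intro x hx
      obtain ⟨ε, hε, h⟩ := K_disp m hm3 (RS0 hm) x
      refine ⟨Metric.ball x (ε / 4), mem_nhdsWithin_of_mem_nhds (Metric.ball_mem_nhds x (by linarith)),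
        ε / 2, by linarith, ?_⟩
      intro y hy k hk hk1
      have h1 := h k hk hk1
      have h2 : dist x y < ε / 4 := by
        rw [dist_comm]
        exact hy
      have h3 : dist ((RS0 hm).rho k • x) ((RS0 hm).rho k • y) = dist x y := dist_smul_smul _ x y
      have h4 := dist_triangle x y ((RS0 hm).rho k • x)
      have h5 := dist_triangle y ((RS0 hm).rho k • y) ((RS0 hm).rho k • x)
      rw [dist_comm ((RS0 hm).rho k • y)] at h5
      linarith
  obtain ⟨ι, hι, h⟩ := key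
  refine ⟨ι, hι, ?_⟩
  intro x hx k hk hk1
  obtain ⟨v, y, hy, rfl⟩ := c2a_translate hm hx
  have e : dist ((RS0 hm).rho v • y) ((RS0 hm).rho k • (RS0 hm).rho v • y) =
      dist y ((RS0 hm).rho (v⁻¹ * k * v) • y) := by
    rw [← mul_smul, ← map_mul, c2a_dist hm, mul_assoc]
  rw [e]
  refine h y hy _ ?_ ?_
  · have := (K_normal m).conj_mem k hk v⁻¹
    rwa [inv_inv] at this
  · intro h1
    apply hk1
    have h2 : k = v * (v⁻¹ * k * v) * v⁻¹ := by group
    rw [h2, h1, mul_one, mul_inv_cancel]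

theorem collar {m : ℕ} (hm : 13 ≤ m) (ho : Odd m) : ∃ δ > 0, ∀ x ∈ Y0 hm,
    ∀ w w' : (CM m).Group, Near hm δ x w → Near hm δ x w' → w⁻¹ * w' ∈ Hs m := by
  classical
  obtain ⟨R, hR⟩ := (D0_compact hm).isBounded.subset_closedBall O
  have hRd : ∀ y ∈ D0 m, dist y O ≤ R := fun y hy => hR hy
  set F : Set (CM m).Group := {w | dist O ((RS0 hm).rho w • O) ≤ R + 1 + R} with hF
  have hFf : F.Finite := (RS0 hm).finite_orbit O O (R + 1 + R)
  have hFm : ∀ y ∈ D0 m, ∀ q ∈ D0 m, ∀ u : (CM m).Group, dist y ((RS0 hm).rho u • q) < 1 → u ∈ F := by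
    intro y hy q hq u hu
    have h1 := dist_triangle4 O y ((RS0 hm).rho u • q) ((RS0 hm).rho u • O)
    rw [dist_smul_smul] at h1
    have h2 := hRd y hy
    have h3 := hRd q hq
    rw [dist_comm] at h2
    show dist O ((RS0 hm).rho u • O) ≤ R + 1 + R
    linarith
  -- separation of two planes
  have hsep : ∀ p : (CM m).Group × (CM m).Group, ∃ δ > 0, p.1⁻¹ * p.2 ∉ Hs m →
      ∀ y : H3, ∀ q ∈ Pl ∩ D0 m, ∀ q' ∈ Pl ∩ D0 m, dist y ((RS0 hm).rho p.1 • q) < δ →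
        dist y ((RS0 hm).rho p.2 • q') < δ → False := by
    rintro ⟨u, u'⟩
    by_cases huu : u⁻¹ * u' ∈ Hs m
    · exact ⟨1, one_pos, fun h => absurd huu h⟩
    · have hA : IsCompact ((fun y : H3 => (RS0 hm).rho u • y) '' (Pl ∩ D0 m)) :=
        (c2a_Pl_compact hm).image (c2a_cont hm u)
      have hB : IsCompact ((fun y : H3 => (RS0 hm).rho u' • y) '' (Pl ∩ D0 m)) :=
        (c2a_Pl_compact hm).image (c2a_cont hm u')
      have hd : Disjoint ((fun y : H3 => (RS0 hm).rho u • y) '' (Pl ∩ D0 m))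
          ((fun y : H3 => (RS0 hm).rho u' • y) '' (Pl ∩ D0 m)) := by
        rw [Set.disjoint_left]
        rintro _ ⟨q, hq, rfl⟩ ⟨q', hq', h1⟩
        apply huu
        have h2 : (RS0 hm).rho (u⁻¹ * u') • q' = q := by
          have h3 : (RS0 hm).rho u' • q' = (RS0 hm).rho u • q := h1
          rw [map_mul, mul_smul, h3, ← mul_smul, ← map_mul, inv_mul_cancel, map_one, one_smul]
        exact coset hm ho (u⁻¹ * u') q' hq'.1 (by rw [h2]; exact hq.1)
      obtain ⟨δ, hδ, hdis⟩ := hd.exists_thickenings hA hB.isClosed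
      refine ⟨δ, hδ, ?_⟩
      intro _ y q hq q' hq' h1 h2
      exact Set.disjoint_left.1 hdis (Metric.mem_thickening_iff.2 ⟨_, ⟨q, hq, rfl⟩, h1⟩)
        (Metric.mem_thickening_iff.2 ⟨_, ⟨q', hq', rfl⟩, h2⟩)
  choose f hf0 hf using hsep
  obtain ⟨δ, hδ, hδm⟩ := c2a_min (F ×ˢ F) (hFf.prod hFf) f (fun a _ => hf0 a)
  refine ⟨min δ 1, lt_min hδ one_pos, ?_⟩
  -- points of `D0`
  have key : ∀ y ∈ D0 m, ∀ w w' : (CM m).Group, Near hm (min δ 1) y w → Near hm (min δ 1) y w' →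
      w⁻¹ * w' ∈ Hs m := by
    intro y hy w w' hw hw'
    obtain ⟨u, hu, q, hq, hd⟩ := c2a_near hm ho hw
    obtain ⟨u', hu', q', hq', hd'⟩ := c2a_near hm ho hw'
    have huF : u ∈ F := hFm y hy q hq.2 u (hd.trans_le (min_le_right _ _))
    have huF' : u' ∈ F := hFm y hy q' hq'.2 u' (hd'.trans_le (min_le_right _ _))
    have h1 : u⁻¹ * u' ∈ Hs m := by
      by_contra hcon
      have h2 : δ ≤ f (u, u') := hδm (u, u') ⟨huF, huF'⟩
      exact hf (u, u') hcon y q hq q' hq' (hd.trans_le ((min_le_left _ _).trans h2))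
        (hd'.trans_le ((min_le_left _ _).trans h2))
    have h3 : w⁻¹ * w' = (w⁻¹ * u) * (u⁻¹ * u') * (w'⁻¹ * u')⁻¹ := by group
    rw [h3]
    exact (Hs m).mul_mem ((Hs m).mul_mem hu h1) ((Hs m).inv_mem hu')
  intro x hx w w' hw hw'
  obtain ⟨v, y, hy, rfl⟩ := c2a_translate hm hx
  have htr : ∀ w : (CM m).Group, Near hm (min δ 1) ((RS0 hm).rho v • y) w →
      Near hm (min δ 1) y (v⁻¹ * w) := by
    rintro w ⟨p, hp, hd⟩
    refine ⟨p, hp, ?_⟩
    rwa [c2a_dist hm] at hd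
  have h1 := key y hy _ _ (htr w hw) (htr w' hw')
  have h2 : w⁻¹ * w' = (v⁻¹ * w)⁻¹ * (v⁻¹ * w') := by group
  rw [h2]
  exact h1

end CEE
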