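import Pool.Agent.CEE.F2
import Pool.Agent.CEE.C2a

set_option autoImplicit false

/-!
# [CEE-V5] Two boundary planes are ultraparallel
-/

namespace CEE

open Pool.Agent.MP_8db1a4_gt Set Real

/- PROOF NOTES [CEE-V5].
`planes_meet`: if `|lor n n'| < 1` the planes meet: take `X` time-like (in `LCone 3`) orthogonal to both: the orthogonal complement of `span (n, n')` (positive definite plane) is Lorentzian; concretely start with `O.val` (or any point `o`): `X = o - α n - β n'` with `α, β` chosen such that `lor X n = lor X n' = 0` (2x2 system with determinant `1 - (lor n n')² > 0`);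
 `lor X X = lor o X = -1 - (α lor o n + β lor o n') ≤ -1 < 0` since `α lor o n + β lor o n' = (a² + b² - 2 a b c)/(1-c²) ≥ 0`; `lor X o = lor X X < 0`, so `X` is in the future cone (`X` time-like with `lor X o < 0`; if `X` were in the past cone then `lor X o > 0`).  Normalise (`exists_smul_hy` in HyBasic).
`lor_lt_neg_one`: `n = ρ(w) vF`, `n' = ρ(w') vF` (unit vectors), `w⁻¹ w' ∉ Hs`.  The planes are disjoint: a common point `x = ρ(w) y = ρ(w') y'`, `y, y' ∈ Pl` (`y = ρ(w⁻¹) x`), gives `ρ(w'⁻¹ w) y = y' ∈ Pl`, `coset`: `w'⁻¹ w ∈ Hs`, contradiction.  So `1 ≤ |lor n n'|`.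
 `lor n n' ≥ 1` is impossible: the plane `n'` is contained in `Y0` (`Pl_sub`, `Yset_smul`), so `lor y n ≤ 0` on it, and conversely `lor y n' ≤ 0` on the plane `n`.  Take `y` on the plane `n` and move along the normal: the nearest point construction: `y' = y - (lor y n') n'` has `lor y' n' = 0`, it is time-like (`lor y' y' = -1 - (lor y n')² < 0`), in the future cone,
 and `lor y' n = lor y n - (lor y n') lor n n' = - (lor y n') (lor n n')`, `lor y n' < 0` (the planes are disjoint), so `lor y' n > 0` if `lor n n' ≥ 1`; its normalisation lies on the plane `n'`: contradiction.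
 `lor n n' = -1` is impossible: then there are points of the two planes arbitrarily close: with the notation above, `z_s`: take `y` on the plane `n` and the null vector `N = n + n'` (`lor N N = 0`, `lor N n = 0`, `lor N n' = 0`, `N ≠ 0` since otherwise `lor y n' = - lor y n = 0`); points `y_s ∝ y + s ε N` with the sign `ε` such that `ε N` is in the closed future cone
 (then `y + s ε N` is in the open future cone, on the plane `n`), `lor (y_s) n' = lor y n' / √(1 - 2 s ε lor y N)`, and `lor y (ε N) < 0`, so `lor y_s n' → 0⁻` as `s → ∞`; the distance of `y_s` to the plane `n'` is `arsinh |lor y_s n'| → 0` (foot `y_s - (lor y_s n') n'` normalised: `cosh dist = √(1 + (lor y_s n')²)`).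
 With `δ` from `collar`: `Near δ y_s w` (distance `0`) and `Near δ y_s w'`: so `w⁻¹ w' ∈ Hs`: contradiction.  (`y_s ∈ Y0`: `Pl_sub`.) -/

theorem v5_cone (X : V) (x : H3) (h : lor X X < 0) (h' : lor X x.val < 0) : X ∈ LCone 3 := by
  have h5 : ‖X.1‖ < |X.2| := by
    have h6 := h
    simp only [lor, real_inner_self_eq_norm_mul_norm] at h6
    have h7 : ‖X.1‖ * ‖X.1‖ < |X.2| * |X.2| := by rw [abs_mul_abs_self]; linarith
    nlinarith [norm_nonneg X.1, abs_nonneg X.2]
  show ‖X.1‖ < X.2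
  rcases le_or_gt 0 X.2 with h8 | h8
  · rwa [abs_of_nonneg h8] at h5
  · exfalso
    have hX1 : ‖x.val.1‖ < x.val.2 := x.mem
    rw [abs_of_neg h8] at h5
    have h9 : -(‖X.1‖ * ‖x.val.1‖) ≤ inner ℝ X.1 x.val.1 := by
      have := abs_real_inner_le_norm X.1 x.val.1
      exact (abs_le.1 this).1
    simp only [lor] at h'
    nlinarith [norm_nonneg X.1, norm_nonneg x.val.1]

theorem planes_meet (n n' : V) (hn : lor n n = 1) (hn' : lor n' n' = 1) (h : |lor n n'| < 1) :
    ∃ x : H3, lor x.val n = 0 ∧ lor x.val n' = 0 := by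
  obtain ⟨c, hc⟩ : ∃ c, c = lor n n' := ⟨_, rfl⟩
  obtain ⟨a, ha⟩ : ∃ a, a = lor O.val n := ⟨_, rfl⟩
  obtain ⟨b, hb⟩ : ∃ b, b = lor O.val n' := ⟨_, rfl⟩
  rw [← hc] at h
  have hc' : lor n' n = c := by rw [lor_comm]; exact hc.symm
  have hD : 0 < 1 - c ^ 2 := by
    have := (sq_lt_one_iff_abs_lt_one c).2 h
    linarith
  obtain ⟨α, hα⟩ : ∃ α, α = (a - b * c) / (1 - c ^ 2) := ⟨_, rfl⟩
  obtain ⟨β, hβ⟩ : ∃ β, β = (b - a * c) / (1 - c ^ 2) := ⟨_, rfl⟩
  obtain ⟨X, hX⟩ : ∃ X : V, X = O.val - α • n - β • n' := ⟨_, rfl⟩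
  have hOO := O.lor_self
  have e1 : α + β * c = a := by
    rw [hα, hβ]; field_simp; ring
  have e2 : α * c + β = b := by
    rw [hα, hβ]; field_simp; ring
  have h1 : lor X n = 0 := by
    rw [hX, lor_sub_left, lor_sub_left, lor_smul_left, lor_smul_left, hn, hc', ← ha]
    linarith
  have h2 : lor X n' = 0 := by
    rw [hX, lor_sub_left, lor_sub_left, lor_smul_left, lor_smul_left, hn', ← hc, ← hb]
    linarith
  have h3 : lor X O.val = -1 - (α * a + β * b) := by
    rw [hX, lor_sub_left, lor_sub_left, lor_smul_left, lor_smul_left, hOO, lor_comm n, lor_comm n',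
      ← ha, ← hb]
    ring
  have h4 : lor X X = lor X O.val := by
    have : lor X X = lor X (O.val - α • n - β • n') := by rw [← hX]
    rw [this, lor_sub_right, lor_sub_right, lor_smul_right, lor_smul_right, h1, h2]
    ring
  have h5 : 0 ≤ α * a + β * b := by
    have e3 : α * a + β * b = (a ^ 2 + b ^ 2 - 2 * a * b * c) / (1 - c ^ 2) := by
      rw [hα, hβ]; field_simp; ring
    rw [e3]
    apply div_nonneg _ hD.le
    obtain ⟨h6, h7⟩ := abs_lt.1 h
    nlinarith [sq_nonneg (a - b), sq_nonneg (a + b), mul_nonneg (sq_nonneg (a - b)) (by linarith : 0 ≤ 1 + c),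
      mul_nonneg (sq_nonneg (a + b)) (by linarith : 0 ≤ 1 - c)]
  have h6 : lor X O.val < 0 := by rw [h3]; linarith
  have h7 : X ∈ LCone 3 := v5_cone X O (by rw [h4]; exact h6) h6
  obtain ⟨x, hx⟩ := exists_smul_hy h7
  have hr := rad_pos h7
  refine ⟨x, ?_, ?_⟩
  · rw [hx, lor_smul_left] at h1
    exact (mul_eq_zero.1 h1).resolve_left hr.ne'
  · rw [hx, lor_smul_left] at h2
    exact (mul_eq_zero.1 h2).resolve_left hr.ne'

/-- foot of the perpendicular -/
theorem exists_foot (x : H3) (n : V) (hn : lor n n = 1) : ∃ y : H3, lor y.val n = 0 ∧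
    cosh (dist x y) = sqrt (1 + (lor x.val n) ^ 2) ∧
    ∃ r : ℝ, 0 < r ∧ y.val = r • (x.val - lor x.val n • n) := by
  obtain ⟨a, ha⟩ : ∃ a, a = lor x.val n := ⟨_, rfl⟩
  rw [← ha]
  have hxx := x.lor_self
  have hnx : lor n x.val = a := by rw [lor_comm]; exact ha.symm
  obtain ⟨X, hX⟩ : ∃ X : V, X = x.val - a • n := ⟨_, rfl⟩
  rw [← hX]
  have h1 : lor X X = -(1 + a ^ 2) := by
    rw [hX, lor_sub_left, lor_sub_right, lor_sub_right, lor_smul_left, lor_smul_left,
      lor_smul_right, lor_smul_right, hxx, hn, hnx, ← ha]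
    ring
  have h2 : lor X x.val = -(1 + a ^ 2) := by
    rw [hX, lor_sub_left, lor_smul_left, hxx, hnx]
    ring
  have hpos : 0 < 1 + a ^ 2 := by positivity
  have h3 : lor X n = 0 := by
    rw [hX, lor_sub_left, lor_smul_left, hn, ← ha]
    ring
  have h7 : X ∈ LCone 3 := v5_cone X x (by rw [h1]; linarith) (by rw [h2]; linarith)
  obtain ⟨y, hy⟩ := exists_smul_hy h7
  have hr := rad_pos h7
  have hrad : rad X = sqrt (1 + a ^ 2) := by
    rw [rad, h1, neg_neg]
  have hs := sq_sqrt hpos.le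
  have hy' : y.val = (rad X)⁻¹ • X := by
    have h9 : (rad X)⁻¹ • X = (rad X)⁻¹ • (rad X • y.val) :=
      congrArg (fun Z : V => (rad X)⁻¹ • Z) hy
    rw [h9, smul_smul, inv_mul_cancel₀ hr.ne', one_smul]
  refine ⟨y, ?_, ?_, (rad X)⁻¹, inv_pos.2 hr, hy'⟩
  · rw [hy', lor_smul_left, h3, mul_zero]
  · rw [cosh_dist, lor_comm, hy', lor_smul_left, h2, hrad]
    rw [hrad] at hr
    field_simp
    linarith

theorem lor_lt_neg_one {m : ℕ} (hm : 13 ≤ m) (ho : Odd m) (w w' : (CM m).Group)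
    (h : w⁻¹ * w' ∉ Hs m) :
    lor (((RS0 hm).rho w).1 vF) (((RS0 hm).rho w').1 vF) < -1 := by
  obtain ⟨n, hndef⟩ : ∃ n, n = ((RS0 hm).rho w).1 vF := ⟨_, rfl⟩
  obtain ⟨n', hndef'⟩ : ∃ n', n' = ((RS0 hm).rho w').1 vF := ⟨_, rfl⟩
  rw [← hndef, ← hndef']
  have hn : lor n n = 1 := by rw [hndef, O31_lor]; exact lor_F_F
  have hn' : lor n' n' = 1 := by rw [hndef', O31_lor]; exact lor_F_F
  obtain ⟨c, hc⟩ : ∃ c, c = lor n n' := ⟨_, rfl⟩
  rw [← hc]
  have hc' : lor n' n = c := by rw [lor_comm]; exact hc.symm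
  -- points of the planes
  have hPl : ∀ (v : (CM m).Group) (x : H3), lor x.val (((RS0 hm).rho v).1 vF) = 0 →
      (RS0 hm).rho v⁻¹ • x ∈ Pl := by
    intro v x hx
    show lor ((RS0 hm).rho v⁻¹ • x).val vF = 0
    rw [smul_val, map_inv, lor_inv]
    exact hx
  have hback : ∀ (v : (CM m).Group) (x : H3), (RS0 hm).rho v • ((RS0 hm).rho v⁻¹ • x) = x := by
    intro v x
    rw [← mul_smul, ← map_mul, mul_inv_cancel, map_one, one_smul]
  have hY : ∀ (v : (CM m).Group) (x : H3), lor x.val (((RS0 hm).rho v).1 vF) = 0 → x ∈ Y0 hm := by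
    intro v x hx
    have h1 := Pl_sub hm ho (hPl v x hx)
    exact (f2_mem hm v⁻¹ x).1 h1
  have hside : ∀ (v : (CM m).Group) (x : H3), x ∈ Y0 hm → lor x.val (((RS0 hm).rho v).1 vF) ≤ 0 :=
    fun v x hx => hx v vF rfl
  have hdis : ∀ x : H3, lor x.val n = 0 → lor x.val n' = 0 → False := by
    intro x h1 h2
    rw [hndef] at h1
    rw [hndef'] at h2
    apply h
    apply coset hm ho (w⁻¹ * w') _ (hPl w' x h2)
    rw [map_mul, mul_smul, hback]
    exact hPl w x h1
  have habs : 1 ≤ |c| := by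
    by_contra hcon
    rw [not_le, hc] at hcon
    obtain ⟨x, h1, h2⟩ := planes_meet n n' hn hn' hcon
    exact hdis x h1 h2
  have hO : lor O.val vF = 0 := by
    rw [lor_comm, lor_eq]
    show (0 : ℝ) * (O.val.1 0) + (-1) * (O.val.1 1) + 0 * (O.val.1 2) - 0 * O.val.2 = 0
    have h1 : O.val.1 1 = 0 := rfl
    rw [h1]
    ring
  obtain ⟨y, hydef⟩ : ∃ y, y = (RS0 hm).rho w • O := ⟨_, rfl⟩
  have hyn : lor y.val n = 0 := by
    rw [hydef, smul_val, hndef, O31_lor]
    exact hO
  have hyY : y ∈ Y0 hm := hY w y (by rw [← hndef]; exact hyn)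
  obtain ⟨b, hb⟩ : ∃ b, b = lor y.val n' := ⟨_, rfl⟩
  have hb0 : b < 0 := by
    have h1 : b ≤ 0 := by
      rw [hb, hndef']
      exact hside w' y hyY
    rcases h1.lt_or_eq with h2 | h2
    · exact h2
    · exact absurd (hb.symm.trans h2) (fun h3 => hdis y hyn h3)
  have hcneg : c ≤ 0 := by
    by_contra hcon
    rw [not_le] at hcon
    obtain ⟨y', h1, -, r, hr, h2⟩ := exists_foot y n' hn'
    have h3 : lor y'.val n ≤ 0 := by
      rw [hndef]
      exact hside w y' (hY w' y' (by rw [← hndef']; exact h1))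
    rw [h2, lor_smul_left, lor_sub_left, lor_smul_left, hyn, hc', ← hb] at h3
    have h4 : 0 < r * (0 - b * c) := by
      apply mul_pos hr
      nlinarith
    linarith
  have hcle : c ≤ -1 := by
    rw [abs_of_nonpos hcneg] at habs
    linarith
  rcases hcle.lt_or_eq with h1 | h1
  · exact h1
  exfalso
  obtain ⟨δ, hδ, hcol⟩ := collar hm ho
  have hsδ : 0 < sinh δ := sinh_pos_iff.2 hδ
  obtain ⟨s, hs⟩ : ∃ s, s = -b / (2 * sinh δ ^ 2) := ⟨_, rfl⟩
  have hs0 : 0 < s := by
    rw [hs]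
    apply div_pos
    · linarith
    · positivity
  have hsb : -(2 * s * b) = b ^ 2 / sinh δ ^ 2 := by
    rw [hs]
    field_simp
  obtain ⟨X, hX⟩ : ∃ X : V, X = y.val + s • (n + n') := ⟨_, rfl⟩
  have hyy := y.lor_self
  have hny : lor n y.val = 0 := by rw [lor_comm]; exact hyn
  have hny' : lor n' y.val = b := by rw [lor_comm]; exact hb.symm
  have hXn : lor X n = 0 := by
    rw [hX, lor_add_left, lor_smul_left, lor_add_left, hyn, hn, hc', h1]
    ring
  have hXn' : lor X n' = b := by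
    rw [hX, lor_add_left, lor_smul_left, lor_add_left, hn', ← hc, ← hb, h1]
    ring
  have hXy : lor X y.val = -1 + s * b := by
    rw [hX, lor_add_left, lor_smul_left, lor_add_left, hyy, hny, hny']
    ring
  have hXX : lor X X = -(1 - 2 * s * b) := by
    have : lor X X = lor X (y.val + s • (n + n')) := by rw [← hX]
    rw [this, lor_add_right, lor_smul_right, lor_add_right, hXn, hXn', hXy]
    ring
  have hsb0 : s * b < 0 := mul_neg_of_pos_of_neg hs0 hb0
  have hXc : X ∈ LCone 3 := v5_cone X y (by rw [hXX]; linarith) (by rw [hXy]; linarith)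
  obtain ⟨z, hz⟩ := exists_smul_hy hXc
  have hr := rad_pos hXc
  have hrsq := rad_sq hXc
  rw [hXX, neg_neg] at hrsq
  have hzn : lor z.val n = 0 := by
    rw [hz, lor_smul_left] at hXn
    exact (mul_eq_zero.1 hXn).resolve_left hr.ne'
  have hzn' : rad X * lor z.val n' = b := by
    rw [← lor_smul_left, ← hz]
    exact hXn'
  obtain ⟨t, ht⟩ : ∃ t, t = lor z.val n' := ⟨_, rfl⟩
  rw [← ht] at hzn'
  have ht2 : t ^ 2 < sinh δ ^ 2 := by
    have h2 : rad X ^ 2 * t ^ 2 = b ^ 2 := by rw [← mul_pow, hzn']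
    have h3 : rad X ^ 2 = 1 + b ^ 2 / sinh δ ^ 2 := by
      rw [hrsq, ← hsb]; ring
    rw [h3] at h2
    have h4 : 0 < sinh δ ^ 2 := by positivity
    by_contra hcon
    rw [not_lt] at hcon
    have h5 : (1 + b ^ 2 / sinh δ ^ 2) * sinh δ ^ 2 ≤ (1 + b ^ 2 / sinh δ ^ 2) * t ^ 2 :=
      mul_le_mul_of_nonneg_left hcon (by positivity)
    rw [h2] at h5
    have h6 : (1 + b ^ 2 / sinh δ ^ 2) * sinh δ ^ 2 = sinh δ ^ 2 + b ^ 2 := by
      field_simp
    rw [h6] at h5
    linarith
  obtain ⟨y', hy1, hy2, -⟩ := exists_foot z n' hn'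
  have hdist : dist z y' < δ := by
    rw [← ht] at hy2
    have h2 : cosh (dist z y') < cosh δ := by
      rw [hy2]
      have h3 : cosh δ = sqrt (1 + sinh δ ^ 2) := by
        have h4 := cosh_sq δ
        rw [add_comm, ← h4]
        exact (sqrt_sq (cosh_pos δ).le).symm
      rw [h3]
      apply sqrt_lt_sqrt
      · positivity
      · linarith
    rw [cosh_lt_cosh, abs_of_nonneg dist_nonneg, abs_of_pos hδ] at h2
    exact h2
  apply h
  apply hcol z (hY w z (by rw [← hndef]; exact hzn)) w w'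
  · refine ⟨(RS0 hm).rho w⁻¹ • z, hPl w z (by rw [← hndef]; exact hzn), ?_⟩
    rw [hback, dist_self]
    exact hδ
  · refine ⟨(RS0 hm).rho w'⁻¹ • y', hPl w' y' (by rw [← hndef']; exact hy1), ?_⟩
    rw [hback]
    exact hdist

end CEE
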