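import Pool.Agent.CEE.V0
import Pool.Agent.CEE.V5
import Pool.Agent.CEE.F4a
import Pool.Agent.CEE.G4

set_option autoImplicit false

/-!
# [CEE-V6] There are no essential annuli
-/

namespace CEE

open Pool.Agent.MP_8db1a4_gt Set Real

/- PROOF NOTES [CEE-V6].
`plane_form`: `hull_Gam0`: `hull = Y0`.  Choose a point `y` of the plane `n` (`exists_foot` for `O`).  `y ∈ frontier Y0`, so `y = ρ(w) y₀` with `y₀ ∈ Pl` (`frontier_exists`), i.e. `lor y n₁ = 0` for `n₁ = ρ(w) vF`; the plane `n₁` lies in `Y0` (`Pl_sub`), and `lor z n ≤ 0` for `z ∈ Y0`.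
 Claim `n = n₁`: let `c = lor n n₁`, `u = n - c n₁` (`lor u n₁ = 0`, `lor u y = 0`, `lor u u = 1 - c² ≥ 0` (`lor_self_nonneg_of_orth`, `u ⊥ y`)).  If `u ≠ 0` (`lor_self_eq_zero_of_orth`: `lor u u > 0`): the points `z ∝ y + s u` (small `s > 0`: `lor = -1 + s² lor u u < 0`, future cone) are on the plane `n₁` and `lor (y + s u) n = s (1 - c²) > 0`: contradiction.
 So `n = c n₁`, `c² = 1`; `c = -1` is impossible: `O`-like points: `Y0` has interior points with `lor z n₁ < 0` (`ρ(w) O'`.. e.g. any `z ∈ Y0` with `lor z n₁ < 0`: `Yset_cham`/`ball_sub` for a point of `D0` with `lor · vF < 0`, for example `pt (π/2)`-like or: `Y0` is not contained in a plane because it contains the disjoint plane `ρ(s) Pl` for a side `s = G 2`: the simplest is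
 `y' = mk`: take the vector `(0, ε, 0; √(1+ε²))` for small `ε > 0`, which is in the interior of the chamber for small `ε` (finitely many strict inequalities, `O_mem_cham`) and has `lor · vF = -ε < 0`), `lor z n = - lor z n₁ > 0`: contradiction.
`fix_two`: `g = ρ(k)`, `g n = n`, `g n' = n'` with `lor n n' < -1`: `X = n' - (lor n n') n`: `lor X X = 1 - (lor n n')² < 0` time-like, `g X = X`; `X` or `-X` is in the future cone; normalise: a point `x ∈ H3` with `g • x = x`, so `k = 1` (`K_free`).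
`acyl0`: `n = ρ(w) vF`, `n' = ρ(w') vF` (`plane_form`); `w⁻¹ w' ∈ Hs` would give `n = n'` (`Hs_vF`); so `lor n n' < -1` (`lor_lt_neg_one`), `fix_two`. -/

theorem v6_O : O ∈ Pl := by
  show lor O.val vF = 0
  rw [lor_comm, lor_eq]
  show (0 : ℝ) * (O.val.1 0) + (-1) * (O.val.1 1) + 0 * (O.val.1 2) - 0 * O.val.2 = 0
  have h1 : O.val.1 1 = 0 := rfl
  rw [h1]
  ring

theorem v6_back {m : ℕ} (hm : 13 ≤ m) (v : (CM m).Group) (x : H3) :
    (RS0 hm).rho v • ((RS0 hm).rho v⁻¹ • x) = x := by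
  rw [← mul_smul, ← map_mul, mul_inv_cancel, map_one, one_smul]

theorem v6_Y {m : ℕ} (hm : 13 ≤ m) (ho : Odd m) (v : (CM m).Group) (x : H3)
    (hx : lor x.val (((RS0 hm).rho v).1 vF) = 0) : x ∈ Y0 hm := by
  have h0 : (RS0 hm).rho v⁻¹ • x ∈ Pl := by
    show lor ((RS0 hm).rho v⁻¹ • x).val vF = 0
    rw [smul_val, map_inv, lor_inv]
    exact hx
  exact (f2_mem hm v⁻¹ x).1 (Pl_sub hm ho h0)

/-- a point of `Y0` off the plane `Pl` -/
theorem v6_off {m : ℕ} (hm : 13 ≤ m) (ho : Odd m) : ∃ z ∈ Y0 hm, lor z.val vF < 0 := by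
  obtain ⟨i, hi⟩ : ∃ i : Fin (m + 1), i.val = 1 := ⟨⟨1, by omega⟩, rfl⟩
  obtain ⟨s, hs⟩ : ∃ s, s = (CM m).simple (.G i) := ⟨_, rfl⟩
  have hsH : s ∉ Hs m := by
    intro h
    have h1 := chi_H m i (by omega) (by omega) s h
    rw [hs, chi_simple] at h1
    simp [chiGen] at h1
  have h1 : (RS0 hm).rho s • O ∈ Y0 hm := (f2_mem hm s O).2 (Pl_sub hm ho v6_O)
  refine ⟨(RS0 hm).rho s • O, h1, ?_⟩
  have h2 : lor ((RS0 hm).rho s • O).val vF ≤ 0 := by
    have h3 := h1 1 vF rfl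
    rwa [map_one] at h3
  rcases h2.lt_or_eq with h3 | h3
  · exact h3
  · exact absurd (coset hm ho s O v6_O h3) hsH

theorem plane_form {m : ℕ} (hm : 13 ≤ m) (ho : Odd m) (n : V) (h : BdPlane (Gam0 hm) n) :
    ∃ w : (CM m).Group, n = ((RS0 hm).rho w).1 vF := by
  have hhull := hull_Gam0 hm ho
  have hunit := h.unit
  obtain ⟨y, hyn, -, -⟩ := exists_foot O n hunit
  have hyf : y ∈ frontier (Y0 hm) := by
    rw [← hhull]
    exact h.sub y hyn
  have hside : ∀ z ∈ Y0 hm, lor z.val n ≤ 0 := by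
    intro z hz
    rw [← hhull] at hz
    exact h.side z hz
  obtain ⟨v, y₀, -, hy₀, hyy₀⟩ := frontier_exists hm y hyf
  refine ⟨v, ?_⟩
  obtain ⟨n₁, hn₁⟩ : ∃ n₁, n₁ = ((RS0 hm).rho v).1 vF := ⟨_, rfl⟩
  rw [← hn₁]
  have hn₁u : lor n₁ n₁ = 1 := by rw [hn₁, O31_lor]; exact lor_F_F
  have hyn₁ : lor y.val n₁ = 0 := by
    rw [hyy₀, smul_val, hn₁, O31_lor]
    exact hy₀
  obtain ⟨c, hc⟩ : ∃ c, c = lor n n₁ := ⟨_, rfl⟩
  obtain ⟨u, hu⟩ : ∃ u : V, u = n - c • n₁ := ⟨_, rfl⟩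
  have hyy := y.lor_self
  have h1 : lor u n₁ = 0 := by
    rw [hu, lor_sub_left, lor_smul_left, hn₁u, ← hc]; ring
  have h2 : lor u y.val = 0 := by
    rw [hu, lor_sub_left, lor_smul_left, lor_comm n, lor_comm n₁, hyn, hyn₁]; ring
  have h3 : lor u n = 1 - c ^ 2 := by
    rw [hu, lor_sub_left, lor_smul_left, lor_comm n₁ n, ← hc, hunit]; ring
  have h4 : lor u u = 1 - c ^ 2 := by
    have h5 : lor u u = lor u (n - c • n₁) := by rw [← hu]
    rw [h5, lor_sub_right, lor_smul_right, h1, h3]; ring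
  have h5 : u = 0 := by
    by_contra hne
    have h6 : 0 ≤ lor u u := lor_self_nonneg_of_orth y.mem h2
    have h7 : lor u u ≠ 0 := fun h => hne (lor_self_eq_zero_of_orth y.mem h2 h)
    have h8 : 0 < lor u u := lt_of_le_of_ne h6 (Ne.symm h7)
    obtain ⟨X, hX⟩ : ∃ X : V, X = y.val + (1 / 2 : ℝ) • u := ⟨_, rfl⟩
    have hyu : lor y.val u = 0 := by rw [lor_comm]; exact h2
    have hXX : lor X X = -1 + (1 / 4) * lor u u := by
      rw [hX, lor_add_left, lor_add_right, lor_add_right, lor_smul_left, lor_smul_left,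
        lor_smul_right, lor_smul_right, hyy, h2, hyu]
      ring
    have hXy : lor X y.val = -1 := by
      rw [hX, lor_add_left, lor_smul_left, hyy, h2]; ring
    have hXc : X ∈ LCone 3 := v5_cone X y (by rw [hXX, h4]; nlinarith [sq_nonneg c])
      (by rw [hXy]; norm_num)
    obtain ⟨z, hz⟩ := exists_smul_hy hXc
    have hr := rad_pos hXc
    have hzn₁ : lor z.val n₁ = 0 := by
      have h9 : lor X n₁ = 0 := by
        rw [hX, lor_add_left, lor_smul_left, hyn₁, h1]; ring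
      rw [hz, lor_smul_left] at h9
      exact (mul_eq_zero.1 h9).resolve_left hr.ne'
    have hzn := hside z (v6_Y hm ho v z (by rw [← hn₁]; exact hzn₁))
    have h9 : lor X n = (1 / 2) * lor u u := by
      rw [hX, lor_add_left, lor_smul_left, hyn, h3, h4]; ring
    rw [hz, lor_smul_left] at h9
    have h10 : rad X * lor z.val n ≤ 0 := mul_nonpos_of_nonneg_of_nonpos hr.le hzn
    linarith
  have h6 : n = c • n₁ := by
    rw [hu] at h5
    exact sub_eq_zero.1 h5
  have h7 : c ^ 2 = 1 := by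
    have h8 : lor u u = 0 := by rw [h5]; simp [lor]
    rw [h4] at h8
    linarith
  have h70 : (c - 1) * (c + 1) = 0 := by linarith [h7, (by ring : (c - 1) * (c + 1) = c ^ 2 - 1)]
  rcases (mul_eq_zero.1 h70).imp (fun h => (by linarith : c = 1)) (fun h => (by linarith : c = -1)) with h8 | h8
  · rw [h6, h8, one_smul]
  · exfalso
    obtain ⟨z, hz, hzF⟩ := v6_off hm ho
    have h9 := hside ((RS0 hm).rho v • z) ((f2_mem hm v z).2 hz)
    rw [h6, h8, lor_smul_right, smul_val, hn₁, O31_lor] at h9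
    linarith

theorem fix_two {m : ℕ} (hm : 13 ≤ m) (k : (CM m).Group) (hk : k ∈ K m) (n n' : V)
    (hn : lor n n = 1) (hn' : lor n' n' = 1) (h : lor n n' < -1)
    (h1 : ((RS0 hm).rho k).1 n = n) (h2 : ((RS0 hm).rho k).1 n' = n') : k = 1 := by
  obtain ⟨c, hc⟩ : ∃ c, c = lor n n' := ⟨_, rfl⟩
  rw [← hc] at h
  have key : ∀ X : V, X ∈ LCone 3 → ((RS0 hm).rho k).1 X = X → k = 1 := by
    intro X hX hfix
    obtain ⟨x, hx⟩ := exists_smul_hy hX
    have hr := rad_pos hX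
    have hx' : x.val = (rad X)⁻¹ • X := by
      have h9 : (rad X)⁻¹ • X = (rad X)⁻¹ • (rad X • x.val) :=
        congrArg (fun Z : V => (rad X)⁻¹ • Z) hx
      rw [h9, smul_smul, inv_mul_cancel₀ hr.ne', one_smul]
    apply K_free m (by omega) (RS0 hm) x k hk
    apply Hy.ext'
    rw [smul_val, hx', map_smul, hfix]
  obtain ⟨X, hX⟩ : ∃ X : V, X = n' - c • n := ⟨_, rfl⟩
  have hXX : lor X X = 1 - c ^ 2 := by
    rw [hX, lor_sub_left, lor_sub_right, lor_sub_right, lor_smul_left, lor_smul_left,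
      lor_smul_right, lor_smul_right, hn, hn', lor_comm n' n, ← hc]
    ring
  have hneg : lor X X < 0 := by rw [hXX]; nlinarith
  have hfix : ((RS0 hm).rho k).1 X = X := by
    rw [hX, map_sub, map_smul, h1, h2]
  rcases lt_trichotomy (lor X O.val) 0 with h3 | h3 | h3
  · exact key X (v5_cone X O hneg h3) hfix
  · exact absurd (lor_self_nonneg_of_orth O.mem h3) (not_le.2 hneg)
  · apply key (-X)
    · apply v5_cone (-X) O
      · rw [lor_neg_left, lor_neg_right, neg_neg]; exact hneg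
      · rw [lor_neg_left]; linarith
    · rw [map_neg, hfix]

theorem acyl0 {m : ℕ} (hm : 13 ≤ m) (ho : Odd m) : Acyl (Gam0 hm) := by
  intro n n' hbn hbn' hne g hg h1 h2
  obtain ⟨k, hk, rfl⟩ := Subgroup.mem_map.1 hg
  obtain ⟨w, hw⟩ := plane_form hm ho n hbn
  obtain ⟨w', hw'⟩ := plane_form hm ho n' hbn'
  have hnH : w⁻¹ * w' ∉ Hs m := by
    intro h
    apply hne
    have h3 := Hs_vF hm ho _ h
    have h4 : w' = w * (w⁻¹ * w') := by group
    rw [hw', h4, RS.rho_mul_apply, h3, ← hw]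
  have h5 := lor_lt_neg_one hm ho w w' hnH
  rw [← hw, ← hw'] at h5
  rw [fix_two hm k hk n n' hbn.unit hbn'.unit h5 h1 h2, map_one]

end CEE
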