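import Pool.Agent.CEE.Br
import Pool.Agent.CEE.V6
import Pool.Agent.CEE.V2

set_option autoImplicit false

/-!
# MP_cee170_gt: no annuli, in terms of the isometry group
-/

namespace CEE

open Pool.Agent.MP_8db1a4_gt Set

/-- two unit vectors with the same plane -/
theorem plane_unique (n m : V) (hn : lor n n = 1) (hm : lor m m = 1)
    (h : ∀ y : H3, lor y.val n = 0 → lor y.val m = 0) : m = n ∨ m = -n := by
  obtain ⟨y₀, hy₀, -, -⟩ := exists_foot O n hn
  have hy₀m := h y₀ hy₀
  obtain ⟨c, hc⟩ : ∃ c, c = lor m n := ⟨_, rfl⟩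
  obtain ⟨u, hu⟩ : ∃ u : V, u = m - c • n := ⟨_, rfl⟩
  have hun : lor u n = 0 := by
    rw [hu, lor_sub_left, lor_smul_left, hn, ← hc]; ring
  have huy : lor u y₀.val = 0 := by
    rw [hu, lor_sub_left, lor_smul_left, lor_comm m, lor_comm n, hy₀m, hy₀]; ring
  have hum : lor u m = lor u u := by
    conv_rhs => rw [hu]
    rw [lor_sub_right, lor_smul_right, ← hu, hun]; ring
  have huu : lor u u = 0 := by
    by_contra hne
    have hpos : 0 < lor u u := lt_of_le_of_ne (lor_self_nonneg_of_orth y₀.mem huy) (Ne.symm hne)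
    -- a point `y₀ + s u` on the plane `n`
    obtain ⟨s, hs0, hs1⟩ : ∃ s : ℝ, 0 < s ∧ y₀.val + s • u ∈ LCone 3 := by
      have hcont : Continuous (fun s : ℝ => y₀.val + s • u) :=
        continuous_const.add (continuous_id.smul continuous_const)
      have hopen : IsOpen ((fun s : ℝ => y₀.val + s • u) ⁻¹' LCone 3) :=
        (isOpen_LCone 3).preimage hcont
      have h0 : (0 : ℝ) ∈ (fun s : ℝ => y₀.val + s • u) ⁻¹' LCone 3 := by
        show y₀.val + (0 : ℝ) • u ∈ LCone 3
        rw [zero_smul, add_zero]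
        exact y₀.mem
      obtain ⟨ε, hε, hb⟩ := Metric.isOpen_iff.1 hopen 0 h0
      refine ⟨ε / 2, by positivity, hb ?_⟩
      rw [Metric.mem_ball, dist_zero_right, Real.norm_eq_abs, abs_of_pos (by positivity)]
      linarith
    obtain ⟨y, hy⟩ := exists_smul_hy hs1
    have hr := rad_pos hs1
    have h1 : lor (y₀.val + s • u) n = 0 := by
      rw [lor_add_left, lor_smul_left, hy₀, hun]; ring
    have h2 : lor y.val n = 0 := by
      rw [hy, lor_smul_left] at h1
      exact (mul_eq_zero.1 h1).resolve_left hr.ne'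
    have h3 := h y h2
    have h4 : lor (y₀.val + s • u) m = 0 := by
      rw [hy, lor_smul_left, h3, mul_zero]
    rw [lor_add_left, lor_smul_left, hy₀m, hum] at h4
    have : 0 < s * lor u u := mul_pos hs0 hpos
    linarith
  have hu0 : u = 0 := lor_self_eq_zero_of_orth y₀.mem huy huu
  have hmc : m = c • n := by
    rw [hu0] at hu
    exact (sub_eq_zero.1 hu.symm)
  have hc1 : c * c = 1 := by
    have := hm
    rw [hmc, lor_smul_left, lor_smul_right, hn] at this
    linarith
  rcases mul_self_eq_one_iff.1 hc1 with h5 | h5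
  · left; rw [hmc, h5, one_smul]
  · right; rw [hmc, h5, neg_one_smul]

theorem BdPl_iff (Γ : Subgroup O31) (n : V) (h : BdPl (Γ.map jj) n) : BdPlane Γ n where
  unit := h.unit
  sub := by have := h.sub; rwa [chull_eq] at this
  side := by have := h.side; rwa [chull_eq] at this

/-- points of the hull strictly inside -/
theorem exists_inside {m : ℕ} (hm : 13 ≤ m) (ho : Odd m) (n : V) (h : BdPlane (Gam0 hm) n) :
    ∃ y ∈ hull (Gam0 hm), lor y.val n < 0 := by
  obtain ⟨w, hw⟩ := plane_form hm ho n h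
  -- a second plane: move `Pl` by a wall which does not meet it
  by_contra hne
  push Not at hne
  have h1 : ∀ y ∈ hull (Gam0 hm), lor y.val n = 0 := fun y hy => le_antisymm (h.side y hy) (hne y hy)
  rw [hull_Gam0 hm ho] at h1
  obtain ⟨κ, hκ, hgap⟩ := gap_const hm ho
  have h2 : mv (-κ / 2) O ∈ D0 m := by
    have hJ : ∀ s ∈ Jset m, lor (mv (-κ / 2) O).val (ev (w0 m) m s) ≤ 0 := by
      intro s hs
      rw [lor_mv _ _ _ (v2_J hm s hs)]
      exact mul_nonpos_of_nonneg_of_nonpos (v2_pos _ _).le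
        (O_mem_cham (w0_pos hm) (w0_le hm) m s).le
    refine ⟨?_, ?_⟩
    · intro s
      by_cases hs : s ∈ Jset m
      · exact hJ s hs
      · refine (hgap _ hJ ?_ s hs).le
        rw [lor_mv_F]; linarith
    · intro v hv
      have hv' : v = vF := hv
      rw [hv', lor_mv_F]; linarith
  have h3 : mv (-κ / 2) O ∈ Y0 hm := Yset_cham (RS0 hm) ex0 (ex0_anti hm) h2
  have h4 := h1 _ (Yset_smul (RS0 hm) ex0 w h3)
  rw [hw, smul_val, O31_lor, lor_mv_F] at h4
  linarith

theorem NoAnnuli0 {m : ℕ} (hm : 13 ≤ m) (ho : Odd m) : NoAnnuli ((Gam0 hm).map jj) := by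
  have key : ∀ n : V, BdPlane (Gam0 hm) n → ∀ g ∈ Gam0 hm,
      (∀ y : H3, lor y.val n = 0 → lor (g • y).val n = 0) → g.1 n = n := by
    intro n hn g hg h
    have h1 : ∀ y : H3, lor y.val n = 0 → lor y.val (g⁻¹.1 n) = 0 := by
      intro y hy
      rw [lor_comm, lor_inv, lor_comm]
      exact h y hy
    have h2 : lor (g⁻¹.1 n) (g⁻¹.1 n) = 1 := by rw [O31_lor]; exact hn.unit
    have h4 : g.1 (g⁻¹.1 n) = n := by
      show (g.1 * g.1⁻¹) n = n
      rw [mul_inv_cancel]; rfl
    rcases plane_unique n (g⁻¹.1 n) hn.unit h2 h1 with h3 | h3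
    · rw [h3] at h4; exact h4
    · exfalso
      obtain ⟨y, hy, hy1⟩ := exists_inside hm ho n hn
      -- the hull is invariant
      have hgy : g • y ∈ hull (Gam0 hm) := by
        intro Z hZ
        exact hZ.2.2.2 g hg y (hy Z hZ)
      have h5 := hn.side _ hgy
      have h6 : lor (g • y).val n = lor y.val (g⁻¹.1 n) := by
        rw [lor_comm y.val, lor_inv, lor_comm]; rfl
      rw [h6, h3, lor_neg_right] at h5
      linarith
  intro n n' hn hn' hne g' hg' h1 h2
  obtain ⟨g, hg, rfl⟩ := hg'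
  have e1 := key n (BdPl_iff _ n hn) g hg h1
  have e2 := key n' (BdPl_iff _ n' hn') g hg h2
  have := acyl0 hm ho n n' (BdPl_iff _ n hn) (BdPl_iff _ n' hn') hne g hg e1 e2
  rw [this, map_one]

end CEE
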