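import Pool.Agent.CEE.Base

set_option autoImplicit false

/-!
# [CEE-C1a] Functions which are locally constant at a scale
-/

namespace CEE

open Pool.Agent.MP_8db1a4_gt Metric Set

/- PROOF NOTES [CEE-C1a].
`const_of_close`: `b1b_geod`: the points `γ t` on the geodesic from `x` to `y` are between `x` and `y`, hence in `Y`; subdivide `[0, dist x y]` into steps `≤ δ` (induction on `n` with `dist x y ≤ n δ`).
`const_of_preconn`: `E` is locally constant on the open set `Aᶜ`...: for `x ∈ U` all `y ∈ ball x δ` have `E y = E x`; `IsPreconnected.constant_of_mapsTo`/`IsPreconnected.constant` for the discrete target, or: `{y ∈ U' | E y = E x}` is clopen.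
-/

/-- a function which is locally constant on a preconnected set is constant there -/
theorem c1a_loc {X α : Type*} [PseudoMetricSpace X] {A : Set X} (hA : IsPreconnected A) (g : X → α)
    (hg : ∀ x ∈ A, ∃ η > 0, ∀ y ∈ A, dist x y < η → g x = g y) : ∀ x ∈ A, ∀ y ∈ A, g x = g y := by
  intro x hx y hy
  by_contra hne
  have h1 : ∀ x, ∃ η > 0, x ∈ A → ∀ y ∈ A, dist x y < η → g x = g y := by
    intro x
    by_cases hxA : x ∈ A
    · obtain ⟨η, h, h'⟩ := hg x hxA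
      exact ⟨η, h, fun _ => h'⟩
    · exact ⟨1, one_pos, fun h => absurd h hxA⟩
  choose η hη0 hη using h1
  have hu : IsOpen (⋃ z ∈ {z | z ∈ A ∧ g z = g x}, ball z (η z)) :=
    isOpen_biUnion fun z _ => isOpen_ball
  have hv : IsOpen (⋃ z ∈ {z | z ∈ A ∧ g z ≠ g x}, ball z (η z)) :=
    isOpen_biUnion fun z _ => isOpen_ball
  have hcov : A ⊆ (⋃ z ∈ {z | z ∈ A ∧ g z = g x}, ball z (η z)) ∪
      (⋃ z ∈ {z | z ∈ A ∧ g z ≠ g x}, ball z (η z)) := by
    intro z hz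
    by_cases h : g z = g x
    · left
      exact mem_biUnion (show z ∈ {z | z ∈ A ∧ g z = g x} from ⟨hz, h⟩) (mem_ball_self (hη0 z))
    · right
      exact mem_biUnion (show z ∈ {z | z ∈ A ∧ g z ≠ g x} from ⟨hz, h⟩) (mem_ball_self (hη0 z))
  obtain ⟨w, hw, hw1, hw2⟩ := hA _ _ hu hv hcov
    ⟨x, hx, mem_biUnion (show x ∈ {z | z ∈ A ∧ g z = g x} from ⟨hx, rfl⟩) (mem_ball_self (hη0 x))⟩
    ⟨y, hy, mem_biUnion (show y ∈ {z | z ∈ A ∧ g z ≠ g x} from ⟨hy, fun h => hne h.symm⟩) (mem_ball_self (hη0 y))⟩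
  obtain ⟨z, ⟨hz, hzg⟩, hzw⟩ := mem_iUnion₂.1 hw1
  obtain ⟨z', ⟨hz', hzg'⟩, hzw'⟩ := mem_iUnion₂.1 hw2
  have e1 := hη z hz w hw (by rw [dist_comm]; exact hzw)
  have e2 := hη z' hz' w hw (by rw [dist_comm]; exact hzw')
  exact hzg' (by rw [e2, ← e1, hzg])

theorem const_of_close {α : Type*} (Y : Set H3) (hY : HConvex Y) (g : H3 → α) (δ : ℝ) (hδ : 0 < δ)
    (hg : ∀ x ∈ Y, ∀ y ∈ Y, dist x y ≤ δ → g x = g y) : ∀ x ∈ Y, ∀ y ∈ Y, g x = g y := by
  intro x hx y hy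
  obtain ⟨γ, h0, h1, hγ⟩ := b1b_geod x y
  have hD : 0 ≤ dist x y := dist_nonneg
  have h0m : (0 : ℝ) ∈ Icc 0 (dist x y) := ⟨le_rfl, hD⟩
  have h1m : dist x y ∈ Icc 0 (dist x y) := ⟨hD, le_rfl⟩
  have hmem : ∀ t ∈ Icc 0 (dist x y), γ t ∈ Y := by
    intro t ht
    apply hY x hx y hy
    have e1 := hγ 0 h0m t ht
    have e2 := hγ t ht _ h1m
    rw [h0] at e1
    rw [h1] at e2
    rw [e1, e2, zero_sub, abs_neg, abs_of_nonneg ht.1, abs_of_nonpos (by linarith [ht.2])]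
    ring
  have key := c1a_loc (isPreconnected_Icc (a := (0 : ℝ)) (b := dist x y)) (fun t => g (γ t)) (fun t ht =>
    ⟨δ, hδ, fun t' ht' htt => hg _ (hmem t ht) _ (hmem t' ht') (by
      rw [hγ t ht t' ht', ← Real.dist_eq]
      exact htt.le)⟩) 0 h0m _ h1m
  simp only [h0, h1] at key
  exact key

theorem const_of_preconn {α : Type*} (U : Set H3) (g : H3 → α) (δ : ℝ) (hδ : 0 < δ)
    (hg : ∀ x ∈ U, ∀ y, dist x y ≤ δ → g x = g y) (A : Set H3) (hA : IsPreconnected A)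
    (hAU : A ⊆ U) : ∀ x ∈ A, ∀ y ∈ A, g x = g y :=
  c1a_loc hA g fun x hx => ⟨δ, hδ, fun y _ h => hg x (hAU hx) y h.le⟩

end CEE
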