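import Pool.Agent.CEE.J2

set_option autoImplicit false

/-!
# [CEE-C1b] Integration of small cocycles on H3
-/

namespace CEE

open Pool.Agent.MP_8db1a4_gt Metric Set

/- PROOF NOTES [CEE-C1b].
`integrate`.  `s x x = 1`, `s x y = s y x`.  Contraction: `c (t, x) = chart⁻¹ (t • chart x)` (`exists_chart`), continuous on `ℝ × H3`.  For `R : ℕ` there is `N_R` such that for `x ∈ closedBall O R`, `t, t' ∈ [0,1]`, `|t - t'| ≤ 2/N_R`: `dist (c (t,x)) (c (t',x)) ≤ δ/3` (uniform continuity on a compact set; `ProperSpace H3`: `B1c.hy_proper 3`).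
 `E_N x = ∏ j ∈ range N, s (c (j/N, x)) (c ((j+1)/N, x))`.  For `N, N' ≥ N_R`: `E_N x = E_{N N'} x = E_{N'} x` (inside each interval `[j/N, (j+1)/N]` all points have mutual distances `≤ δ`, so the product of `s` along the finer subdivision telescopes by the cocycle
 identity to `s (c (j/N,x)) (c ((j+1)/N,x))`).  Define `E x = E_{N_R} x` with `R = ⌈dist O x⌉₊` (so `E x = E_N x` for all large `N`).
 Local statement: for `x₀` there is `η > 0` with `s x y = E x * E y` for `x, y ∈ ball x₀ η`: choose `N` good for the ball of radius `dist O x₀ + 1` and `η` with `dist (c (t,x)) (c (t,y)) ≤ δ/3` for all `t ∈ [0,1]`, `x, y ∈ ball x₀ η`;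
 `s (c_j x) (c_{j+1} x) * s (c_{j+1} x) (c_{j+1} y) = s (c_j x) (c_{j+1} y) = s (c_j x) (c_j y) * s (c_j y) (c_{j+1} y)`, and `∏` telescopes: `E_N x * s (c_N x) (c_N y) = s (c_0 x) (c_0 y) * E_N y`, `c_0 x = c_0 y`.
 Global: for `dist x y ≤ δ` the function `t ↦ s x (γ t) * E x * E (γ t)` along the geodesic from `x` to `y` is locally constant: for `t, t'` close `s x (γ t) * s (γ t) (γ t') = s x (γ t')` and the local statement; so it is constant `= 1`
 (`IsPreconnected` argument or a Lebesgue number on the compact segment). -/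

/-- a function which is locally constant on a preconnected set is constant there -/
theorem c1b_loc {X α : Type*} [PseudoMetricSpace X] {A : Set X} (hA : IsPreconnected A) (g : X → α)
    (hg : ∀ x ∈ A, ∃ η > 0, ∀ y ∈ A, dist x y < η → g x = g y) : ∀ x ∈ A, ∀ y ∈ A, g x = g y := by
  intro x hx y hy
  by_contra hne
  have h1 : ∀ x, ∃ η > 0, x ∈ A → ∀ y ∈ A, dist x y < η → g x = g y := by
    intro x
    by_cases hxA : x ∈ A
    · obtain ⟨η, h, h'⟩ := hg x hxA
      exact ⟨η, h, fun _ => h'⟩
    · exact ⟨1, one_pos, fun h => absurd h hxA⟩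
  choose η hη0 hη using h1
  have hu : IsOpen (⋃ z ∈ {z | z ∈ A ∧ g z = g x}, ball z (η z)) :=
    isOpen_biUnion fun z _ => isOpen_ball
  have hv : IsOpen (⋃ z ∈ {z | z ∈ A ∧ g z ≠ g x}, ball z (η z)) :=
    isOpen_biUnion fun z _ => isOpen_ball
  have hcov : A ⊆ (⋃ z ∈ {z | z ∈ A ∧ g z = g x}, ball z (η z)) ∪
      (⋃ z ∈ {z | z ∈ A ∧ g z ≠ g x}, ball z (η z)) := by
    intro z hz
    by_cases h : g z = g x
    · left
      exact mem_biUnion (show z ∈ {z | z ∈ A ∧ g z = g x} from ⟨hz, h⟩) (mem_ball_self (hη0 z))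
    · right
      exact mem_biUnion (show z ∈ {z | z ∈ A ∧ g z ≠ g x} from ⟨hz, h⟩) (mem_ball_self (hη0 z))
  obtain ⟨w, hw, hw1, hw2⟩ := hA _ _ hu hv hcov
    ⟨x, hx, mem_biUnion (show x ∈ {z | z ∈ A ∧ g z = g x} from ⟨hx, rfl⟩) (mem_ball_self (hη0 x))⟩
    ⟨y, hy, mem_biUnion (show y ∈ {z | z ∈ A ∧ g z ≠ g x} from ⟨hy, fun h => hne h.symm⟩) (mem_ball_self (hη0 y))⟩
  obtain ⟨z, ⟨hz, hzg⟩, hzw⟩ := mem_iUnion₂.1 hw1
  obtain ⟨z', ⟨hz', hzg'⟩, hzw'⟩ := mem_iUnion₂.1 hw2
  have e1 := hη z hz w hw (by rw [dist_comm]; exact hzw)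
  have e2 := hη z' hz' w hw (by rw [dist_comm]; exact hzw')
  exact hzg' (by rw [e2, ← e1, hzg])

theorem c1b_sq (u : ℤˣ) : u * u = 1 := by
  rcases Int.units_eq_one_or u with h | h <;> rw [h] <;> rfl

/-- integration along a path, up to the parameter `n ε` -/
theorem c1b_path (s : H3 → H3 → ℤˣ) (δ : ℝ) (hδ : 0 < δ)
    (hs : ∀ x y z, dist x y ≤ δ → dist y z ≤ δ → dist x z ≤ δ → s x y * s y z = s x z)
    (p : ℝ → H3) (ε : ℝ) (hε : 0 < ε)
    (hp : ∀ t ∈ Icc (0 : ℝ) 1, ∀ t' ∈ Icc (0 : ℝ) 1, |t - t'| ≤ ε → dist (p t) (p t') ≤ δ) (n : ℕ) :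
    ∃ e : ℝ → ℤˣ, e 0 = 1 ∧ ∀ t ∈ Icc (0 : ℝ) 1, ∀ t' ∈ Icc (0 : ℝ) 1, t ≤ n * ε → t' ≤ n * ε → |t - t'| ≤ ε →
      s (p t) (p t') = e t * e t' := by
  have h1 : ∀ x, s x x = 1 := by
    intro x
    have h := hs x x x (by rw [dist_self]; exact hδ.le) (by rw [dist_self]; exact hδ.le) (by rw [dist_self]; exact hδ.le)
    exact mul_eq_left.1 h
  induction n with
  | zero =>
    refine ⟨fun _ => 1, rfl, fun t ht t' ht' h h' _ => ?_⟩
    have e1 : t = 0 := le_antisymm (by simpa using h) ht.1
    have e2 : t' = 0 := le_antisymm (by simpa using h') ht'.1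
    rw [e1, e2, h1, one_mul]
  | succ n ih =>
    obtain ⟨e, he0, he⟩ := ih
    by_cases hn : (n : ℝ) * ε ≤ 1
    · have hn0 : (0 : ℝ) ≤ n * ε := by positivity
      have hnm : (n : ℝ) * ε ∈ Icc (0 : ℝ) 1 := ⟨hn0, hn⟩
      refine ⟨fun t => if t ≤ n * ε then e t else e (n * ε) * s (p (n * ε)) (p t), ?_, ?_⟩
      · simp only [hn0, if_true]
        exact he0
      · -- it is enough to treat `t ≤ t'`
        have key : ∀ t ∈ Icc (0 : ℝ) 1, ∀ t' ∈ Icc (0 : ℝ) 1, t ≤ t' → t' ≤ ((n + 1 : ℕ) : ℝ) * ε → |t - t'| ≤ ε →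
            s (p t) (p t') = (if t ≤ n * ε then e t else e (n * ε) * s (p (n * ε)) (p t)) *
              (if t' ≤ n * ε then e t' else e (n * ε) * s (p (n * ε)) (p t')) := by
          intro t ht t' ht' htt h' hab
          have hc : ((n + 1 : ℕ) : ℝ) * ε = n * ε + ε := by push_cast; ring
          rw [hc] at h'
          by_cases ha : t' ≤ n * ε
          · rw [if_pos ha, if_pos (htt.trans ha)]
            exact he t ht t' ht' (htt.trans ha) ha hab
          · rw [if_neg ha]
            push Not at ha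
            have d2 : dist (p (n * ε)) (p t') ≤ δ := by
              apply hp _ hnm _ ht'
              rw [abs_le]
              constructor <;> linarith
            have d3 : dist (p t) (p t') ≤ δ := hp _ ht _ ht' hab
            by_cases hb : t ≤ n * ε
            · rw [if_pos hb]
              rw [abs_sub_comm, abs_of_nonneg (by linarith)] at hab
              have hab' : |t - n * ε| ≤ ε := by
                rw [abs_sub_comm, abs_of_nonneg (by linarith)]
                linarith
              have d1 : dist (p t) (p (n * ε)) ≤ δ := hp _ ht _ hnm hab'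
              rw [← hs _ _ _ d1 d2 d3, he t ht _ hnm hb le_rfl hab', mul_assoc]
            · rw [if_neg hb]
              push Not at hb
              have d1 : dist (p (n * ε)) (p t) ≤ δ := by
                apply hp _ hnm _ ht
                rw [abs_le]
                constructor <;> linarith
              have e1 := hs _ _ _ d1 d3 d2
              have e2 := c1b_sq (e (n * ε))
              have e3 := c1b_sq (s (p (n * ε)) (p t))
              calc s (p t) (p t') = (e (n * ε) * e (n * ε)) * (s (p (n * ε)) (p t) * s (p (n * ε)) (p t)) * s (p t) (p t') := by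
                    rw [e2, e3, one_mul, one_mul]
                _ = e (n * ε) * s (p (n * ε)) (p t) * (e (n * ε) * (s (p (n * ε)) (p t) * s (p t) (p t'))) := by
                    simp only [mul_comm, mul_left_comm]
                _ = _ := by rw [e1]
        intro t ht t' ht' h h' hab
        rcases le_total t t' with h2 | h2
        · exact key t ht t' ht' h2 h' hab
        · have h3 : s (p t) (p t') = s (p t') (p t) := by
            have d1 : dist (p t) (p t') ≤ δ := hp _ ht _ ht' hab
            have d2 : dist (p t') (p t) ≤ δ := by rwa [dist_comm]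
            have e1 := hs _ _ _ d1 d2 (by rw [dist_self]; exact hδ.le)
            rw [h1] at e1
            have e2 := c1b_sq (s (p t') (p t))
            exact mul_right_cancel (e1.trans e2.symm)
          rw [h3, mul_comm]
          exact key t' ht' t ht h2 h (by rwa [abs_sub_comm])
    · push Not at hn
      refine ⟨e, he0, fun t ht t' ht' _ _ hab => he t ht t' ht' (ht.2.trans hn.le) (ht'.2.trans hn.le) hab⟩

theorem integrate (s : H3 → H3 → ℤˣ) (δ : ℝ) (hδ : 0 < δ)
    (hs : ∀ x y z, dist x y ≤ δ → dist y z ≤ δ → dist x z ≤ δ → s x y * s y z = s x z) :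
    ∃ E : H3 → ℤˣ, ∀ x y, dist x y ≤ δ → s x y = E x * E y := by
  have h1 : ∀ x, s x x = 1 := by
    intro x
    have h := hs x x x (by rw [dist_self]; exact hδ.le) (by rw [dist_self]; exact hδ.le) (by rw [dist_self]; exact hδ.le)
    exact mul_eq_left.1 h
  -- the contraction
  obtain ⟨ch, -⟩ := exists_chart
  obtain ⟨c, hc⟩ : ∃ c : ℝ → H3 → H3, c = fun t x => ch.symm (t • ch x) := ⟨_, rfl⟩
  have hc0 : ∀ x y, c 0 x = c 0 y := by
    intro x y
    rw [hc]
    simp
  have hc1 : ∀ x, c 1 x = x := by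
    intro x
    rw [hc]
    simp
  have hcont : Continuous (fun q : ℝ × H3 => c q.1 q.2) := by
    rw [hc]
    exact ch.symm.continuous.comp (continuous_fst.smul (ch.continuous.comp continuous_snd))
  have hprop : ProperSpace H3 := hy_proper 3
  -- uniform continuity
  have huc : ∀ x₀ : H3, ∃ η > 0, η ≤ 1 ∧ ∀ t ∈ Icc (0 : ℝ) 1, ∀ t' ∈ Icc (0 : ℝ) 1, ∀ x ∈ closedBall x₀ 1, ∀ y ∈ closedBall x₀ 1,
      dist t t' < η → dist x y < η → dist (c t x) (c t' y) ≤ δ := by
    intro x₀
    have hK : IsCompact (Icc (0 : ℝ) 1 ×ˢ closedBall x₀ 1) := isCompact_Icc.prod (isCompact_closedBall x₀ 1)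
    have h2 := hK.uniformContinuousOn_of_continuous hcont.continuousOn
    rw [Metric.uniformContinuousOn_iff] at h2
    obtain ⟨η, hη, h3⟩ := h2 δ hδ
    refine ⟨min η 1, lt_min hη one_pos, min_le_right _ _, fun t ht t' ht' x hx y hy htt hxy => ?_⟩
    refine (h3 (t, x) ⟨ht, hx⟩ (t', y) ⟨ht', hy⟩ ?_).le
    rw [Prod.dist_eq]
    exact max_lt (lt_of_lt_of_le htt (min_le_left _ _)) (lt_of_lt_of_le hxy (min_le_left _ _))
  -- the functions along the paths
  have hpath : ∀ x : H3, ∃ e : ℝ → ℤˣ, e 0 = 1 ∧ ∃ ε > 0, ∀ t ∈ Icc (0 : ℝ) 1, ∀ t' ∈ Icc (0 : ℝ) 1, |t - t'| ≤ ε →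
      s (c t x) (c t' x) = e t * e t' := by
    intro x
    obtain ⟨η, hη, -, h⟩ := huc x
    have hη2 : 0 < η / 2 := by positivity
    obtain ⟨n, hn⟩ := exists_nat_gt (1 / (η / 2))
    obtain ⟨e, he0, he⟩ := c1b_path s δ hδ hs (fun t => c t x) (η / 2) hη2 (fun t ht t' ht' hab =>
      h t ht t' ht' x (mem_closedBall_self zero_le_one) x (mem_closedBall_self zero_le_one)
        (by rw [Real.dist_eq]; linarith) (by rw [dist_self]; exact hη)) n
    have hn1 : 1 ≤ n * (η / 2) := by
      rw [div_lt_iff₀ hη2] at hn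
      exact hn.le
    exact ⟨e, he0, η / 2, hη2, fun t ht t' ht' hab => he t ht t' ht' (ht.2.trans hn1) (ht'.2.trans hn1) hab⟩
  choose e he0 ε hε he using hpath
  have h0m : (0 : ℝ) ∈ Icc (0 : ℝ) 1 := ⟨le_rfl, zero_le_one⟩
  have h1m : (1 : ℝ) ∈ Icc (0 : ℝ) 1 := ⟨zero_le_one, le_rfl⟩
  -- the local statement
  have hloc : ∀ x₀ : H3, ∃ η > 0, ∀ x ∈ ball x₀ η, ∀ y ∈ ball x₀ η, s x y = e x 1 * e y 1 := by
    intro x₀
    obtain ⟨η, hη, hη1, h⟩ := huc x₀
    refine ⟨η / 2, by positivity, fun x hx y hy => ?_⟩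
    have hxy : dist x y < η := by
      have h2 := dist_triangle_right x y x₀
      rw [mem_ball] at hx hy
      linarith
    have hxb : x ∈ closedBall x₀ 1 := by
      rw [mem_ball] at hx
      rw [mem_closedBall]
      linarith
    have hyb : y ∈ closedBall x₀ 1 := by
      rw [mem_ball] at hy
      rw [mem_closedBall]
      linarith
    have key := c1b_loc (isPreconnected_Icc (a := (0 : ℝ)) (b := 1)) (fun t => s (c t x) (c t y) * (e x t * e y t))
      (fun t ht => ⟨min η (min (ε x) (ε y)), lt_min hη (lt_min (hε x) (hε y)), fun t' ht' htt => by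
        have t1 : dist t t' < η := lt_of_lt_of_le htt (min_le_left _ _)
        have t2 : dist t t' < ε x := lt_of_lt_of_le htt ((min_le_right _ _).trans (min_le_left _ _))
        have t3 : dist t t' < ε y := lt_of_lt_of_le htt ((min_le_right _ _).trans (min_le_right _ _))
        have z0 : dist t t < η := by rw [dist_self]; exact hη
        have z0' : dist t' t' < η := by rw [dist_self]; exact hη
        have zx : dist x x < η := by rw [dist_self]; exact hη
        have zy : dist y y < η := by rw [dist_self]; exact hη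
        have a1 := he x t ht t' ht' (by rw [← Real.dist_eq]; exact t2.le)
        have a2 := he y t ht t' ht' (by rw [← Real.dist_eq]; exact t3.le)
        have b1 := hs (c t x) (c t y) (c t' y) (h t ht t ht x hxb y hyb z0 hxy) (h t ht t' ht' y hyb y hyb t1 zy)
          (h t ht t' ht' x hxb y hyb t1 hxy)
        have b2 := hs (c t x) (c t' x) (c t' y) (h t ht t' ht' x hxb x hxb t1 zx) (h t' ht' t' ht' x hxb y hyb z0' hxy)
          (h t ht t' ht' x hxb y hyb t1 hxy)
        rw [a2] at b1
        rw [a1] at b2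
        have c1 := c1b_sq (e y t')
        have c2 := c1b_sq (e x t)
        calc s (c t x) (c t y) * (e x t * e y t)
            = (s (c t x) (c t y) * (e y t * e y t')) * (e x t * e y t') := by
              calc s (c t x) (c t y) * (e x t * e y t) = s (c t x) (c t y) * (e x t * e y t) * (e y t' * e y t') := by
                    rw [c1, mul_one]
                _ = _ := by simp only [mul_assoc, mul_comm, mul_left_comm]
          _ = ((e x t * e x t') * s (c t' x) (c t' y)) * (e x t * e y t') := by rw [b1, b2]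
          _ = s (c t' x) (c t' y) * (e x t' * e y t') * (e x t * e x t) := by
              simp only [mul_assoc, mul_comm, mul_left_comm]
          _ = s (c t' x) (c t' y) * (e x t' * e y t') := by rw [c2, mul_one]⟩) 0 h0m 1 h1m
    simp only [he0, hc1, mul_one] at key
    rw [hc0 x y, h1] at key
    -- `key : 1 = s x y * (e x 1 * e y 1)`
    have c3 := c1b_sq (e x 1 * e y 1)
    exact mul_right_cancel (key.symm.trans c3.symm)
  -- the global statement
  refine ⟨fun x => e x 1, fun x y hxy => ?_⟩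
  obtain ⟨γ, g0, g1, hγ⟩ := b1b_geod x y
  have hD : 0 ≤ dist x y := dist_nonneg
  have z0 : (0 : ℝ) ∈ Icc 0 (dist x y) := ⟨le_rfl, hD⟩
  have z1 : dist x y ∈ Icc 0 (dist x y) := ⟨hD, le_rfl⟩
  have key := c1b_loc (isPreconnected_Icc (a := (0 : ℝ)) (b := dist x y)) (fun t => s x (γ t) * (e x 1 * e (γ t) 1))
    (fun t ht => by
      obtain ⟨η, hη, h⟩ := hloc (γ t)
      refine ⟨η, hη, fun t' ht' htt => ?_⟩
      have d0 : dist x (γ t) ≤ δ := by
        have := hγ 0 z0 t ht
        rw [g0] at this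
        rw [this, zero_sub, abs_neg, abs_of_nonneg ht.1]
        exact ht.2.trans hxy
      have d1 : dist x (γ t') ≤ δ := by
        have := hγ 0 z0 t' ht'
        rw [g0] at this
        rw [this, zero_sub, abs_neg, abs_of_nonneg ht'.1]
        exact ht'.2.trans hxy
      have d2 : dist (γ t) (γ t') ≤ δ := by
        rw [hγ t ht t' ht', abs_le]
        constructor <;> linarith [ht.1, ht.2, ht'.1, ht'.2]
      have d3 : dist (γ t) (γ t') < η := by
        rw [hγ t ht t' ht', ← Real.dist_eq]
        exact htt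
      have a1 := h (γ t) (mem_ball_self hη) (γ t') (by rw [mem_ball, dist_comm]; exact d3)
      have a2 := hs x (γ t) (γ t') d0 d2 d1
      rw [a1] at a2
      rw [← a2]
      have c1 := c1b_sq (e (γ t') 1)
      calc s x (γ t) * (e x 1 * e (γ t) 1) = s x (γ t) * (e x 1 * e (γ t) 1) * (e (γ t') 1 * e (γ t') 1) := by
            rw [c1, mul_one]
        _ = _ := by simp only [mul_assoc, mul_comm, mul_left_comm]) 0 z0 _ z1
  simp only [g0, g1, h1] at key
  have c1 := c1b_sq (e x 1)
  have c3 := c1b_sq (e x 1 * e y 1)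
  rw [c1, one_mul] at key
  exact mul_right_cancel (key.symm.trans c3.symm)

end CEE
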