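import Pool.Agent.CEE.C2a
import Pool.Agent.CEE.G4

set_option autoImplicit false

/-!
# [CEE-C2] Sections over `Y0`
-/

namespace CEE

open Pool.Agent.MP_8db1a4_gt Set Real

/- PROOF NOTES [CEE-C2].
`exists_section`: `e` from `exists_ext`, `δ` from `collar`.  For `x ∈ Y0` which is near some plane: `E x = e w` for any `w` with `Near δ x w` (well defined by `collar` and `e (w h) = e w`; `Near δ (ρ(k) x) (k w)`).  For the other `x ∈ Y0` choose a representative `r` of the orbit `K x` (`Quotient.out`) and put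
 `E (ρ(k) r) = l k` (well defined since `K` acts freely: `K_free`).  Outside `Y0`: anything.
`near_of_not_ball`: there is `y` with `dist x y < r`, `lor y (ρ(w) vF) > 0`, while `lor x (ρ(w) vF) ≤ 0`; by the intermediate value theorem on the geodesic (`b1b_geod`, `B1c.hy_val_continuous`) there is `z` between `x` and `y` with `lor z (ρ(w) vF) = 0`, i.e. `z = ρ(w) p` with `p = ρ(w⁻¹) z ∈ Pl`. -/

theorem c2_near_smul {m : ℕ} (hm : 13 ≤ m) (δ : ℝ) (x : H3) (g w : (CM m).Group)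
    (h : Near hm δ x w) : Near hm δ ((RS0 hm).rho g • x) (g * w) := by
  obtain ⟨p, hp, hd⟩ := h
  refine ⟨p, hp, ?_⟩
  rw [map_mul, mul_smul, dist_smul_smul]
  exact hd

theorem c2_near_inv {m : ℕ} (hm : 13 ≤ m) (δ : ℝ) (x : H3) (g w : (CM m).Group)
    (h : Near hm δ ((RS0 hm).rho g • x) w) : Near hm δ x (g⁻¹ * w) := by
  have h1 := c2_near_smul hm δ _ g⁻¹ w h
  rwa [← mul_smul, ← map_mul, inv_mul_cancel, map_one, one_smul] at h1

/-- the orbit relation of `K` on `H3` -/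
def c2_setoid {m : ℕ} (hm : 13 ≤ m) : Setoid H3 where
  r x y := ∃ k : K m, (RS0 hm).rho (k : (CM m).Group) • x = y
  iseqv := by
    refine ⟨fun x => ⟨1, by simp⟩, ?_, ?_⟩
    · rintro x y ⟨k, hk⟩
      refine ⟨k⁻¹, ?_⟩
      rw [← hk, ← mul_smul, ← map_mul, Subgroup.coe_inv, inv_mul_cancel, map_one, one_smul]
    · rintro x y z ⟨k, hk⟩ ⟨k', hk'⟩
      refine ⟨k' * k, ?_⟩
      rw [← hk', ← hk, ← mul_smul, ← map_mul, Subgroup.coe_mul]

/-- representatives of the orbits of `K` -/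
theorem c2_exists_rep {m : ℕ} (hm : 13 ≤ m) : ∃ κ : H3 → K m,
    ∀ (k : K m) (x : H3), κ ((RS0 hm).rho (k : (CM m).Group) • x) = k * κ x := by
  classical
  have h1 : ∀ x : H3, ∃ k : K m,
      (RS0 hm).rho (k : (CM m).Group) • (Quotient.mk (c2_setoid hm) x).out = x := fun x =>
    @Quotient.exact H3 (c2_setoid hm) _ _ (Quotient.out_eq (Quotient.mk (c2_setoid hm) x))
  choose κ hκ using h1
  refine ⟨κ, fun k x => ?_⟩
  have h2 : Quotient.mk (c2_setoid hm) ((RS0 hm).rho (k : (CM m).Group) • x)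
      = Quotient.mk (c2_setoid hm) x := by
    apply Eq.symm
    exact @Quotient.sound H3 (c2_setoid hm) _ _ ⟨k, rfl⟩
  have h3 := hκ ((RS0 hm).rho (k : (CM m).Group) • x)
  rw [h2] at h3
  have h4 := hκ x
  obtain ⟨r, hr⟩ : ∃ r, r = (Quotient.mk (c2_setoid hm) x).out := ⟨_, rfl⟩
  obtain ⟨a, ha⟩ : ∃ a, a = κ ((RS0 hm).rho (k : (CM m).Group) • x) := ⟨_, rfl⟩
  rw [← hr] at h3 h4
  rw [← ha] at h3 ⊢
  obtain ⟨b, hb⟩ : ∃ b, b = κ x := ⟨_, rfl⟩
  rw [← hb] at h4 ⊢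
  have h5 : (RS0 hm).rho (((k * b)⁻¹ * a : K m) : (CM m).Group) • r = r := by
    rw [Subgroup.coe_mul, map_mul, mul_smul, h3, ← h4, ← mul_smul, ← mul_smul, ← map_mul,
      ← map_mul, Subgroup.coe_inv, Subgroup.coe_mul, mul_assoc, inv_mul_cancel, map_one, one_smul]
  have h6 := K_free m (by omega) (RS0 hm) r _ ((k * b)⁻¹ * a : K m).2 h5
  have h7 : (k * b)⁻¹ * a = 1 := Subtype.ext h6
  exact (inv_mul_eq_one.1 h7).symm

theorem exists_section {m : ℕ} (hm : 13 ≤ m) (ho : Odd m) (l : K m →* ℤˣ) (hl : l ∈ Lam m) :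
    ∃ δ > 0, ∃ E : H3 → ℤˣ, (∀ k : K m, ∀ x ∈ Y0 hm, E ((RS0 hm).rho k • x) = l k * E x) ∧
      ∀ x ∈ Y0 hm, ∀ y ∈ Y0 hm, ∀ w, Near hm δ x w → Near hm δ y w → E x = E y := by
  classical
  obtain ⟨e, he1, he2⟩ := exists_ext m ho l hl
  obtain ⟨δ, hδ, hcol⟩ := collar hm ho
  obtain ⟨κ, hκ⟩ := c2_exists_rep hm
  obtain ⟨E, hE⟩ : ∃ E : H3 → ℤˣ, ∀ x, E x =
      if h : ∃ w, Near hm δ x w then e h.choose else l (κ x) := ⟨_, fun x => rfl⟩
  have hE1 : ∀ x ∈ Y0 hm, ∀ w, Near hm δ x w → E x = e w := by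
    intro x hx w hw
    have h : ∃ w, Near hm δ x w := ⟨w, hw⟩
    rw [hE x, dif_pos h]
    have h1 := hcol x hx w h.choose hw h.choose_spec
    have h2 := he2 w _ h1
    rw [← h2]
    congr 1
    group
  refine ⟨δ, hδ, E, ?_, ?_⟩
  · intro k x hx
    have hkx : (RS0 hm).rho (k : (CM m).Group) • x ∈ Y0 hm := (Yset_smul_iff (RS0 hm) ex0 _ x).2 hx
    by_cases h : ∃ w, Near hm δ x w
    · obtain ⟨w, hw⟩ := h
      rw [hE1 x hx w hw, hE1 _ hkx _ (c2_near_smul hm δ x k w hw), he1]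
    · have h' : ¬ ∃ w, Near hm δ ((RS0 hm).rho (k : (CM m).Group) • x) w := by
        rintro ⟨w, hw⟩
        exact h ⟨_, c2_near_inv hm δ x k w hw⟩
      rw [hE x, hE _, dif_neg h, dif_neg h', hκ, map_mul]
  · intro x hx y hy w hxw hyw
    rw [hE1 x hx w hxw, hE1 y hy w hyw]

/-- a point of `Y0` close to the complement is near a boundary plane -/
theorem near_of_not_ball {m : ℕ} (hm : 13 ≤ m) (x : H3) (hx : x ∈ Y0 hm) (r : ℝ)
    (h : ¬ Metric.ball x r ⊆ Y0 hm) : ∃ w, Near hm r x w := by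
  obtain ⟨y, hy, hyn⟩ := not_subset.1 h
  have hd : dist y x < r := Metric.mem_ball.1 hy
  have h1 : ∃ w : (CM m).Group, 0 < lor y.val (((RS0 hm).rho w).1 vF) := by
    by_contra hcon
    push Not at hcon
    apply hyn
    intro w v hv
    have hv' : v = vF := hv
    rw [hv']
    exact hcon w
  obtain ⟨w, hw⟩ := h1
  have h2 : lor x.val (((RS0 hm).rho w).1 vF) ≤ 0 := hx w vF rfl
  obtain ⟨n, hn⟩ : ∃ n, n = ((RS0 hm).rho w).1 vF := ⟨_, rfl⟩
  rw [← hn] at hw h2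
  obtain ⟨z, hz, q, hq, hzq⟩ := exists_between x y (lor y.val n) (- lor x.val n) hw.le
    (by linarith) (by linarith)
  have h3 : lor z.val n = 0 := by
    have h4 := congrArg (fun X => lor X n) hzq
    simp only [lor_add_left, lor_smul_left] at h4
    have h5 : q * lor z.val n = 0 := by rw [← h4]; ring
    rcases mul_eq_zero.1 h5 with h6 | h6
    · exact absurd h6 hq.ne'
    · exact h6
  refine ⟨w, (RS0 hm).rho w⁻¹ • z, ?_, ?_⟩
  · show lor ((RS0 hm).rho w⁻¹ • z).val vF = 0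
    rw [smul_val, map_inv, lor_inv, ← hn]
    exact h3
  · rw [← mul_smul, ← map_mul, mul_inv_cancel, map_one, one_smul]
    have h6 : 0 ≤ dist z y := dist_nonneg
    rw [dist_comm y x] at hd
    linarith

end CEE
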