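import Pool.Agent.CEE.I1

set_option autoImplicit false

/-!
# [CEE-I2] Quantitative invariance of domain
-/

namespace CEE

open Pool.Agent.MP_8db1a4_gt Set Real

/- PROOF NOTES [CEE-I2].
`Im_closed`: let `z_n ∈ Im`, `z_n → z`, `d1 z_n (F y_n) = 0`.  `y_n ∈ Y0`; replace `y_n` by a `K`-translate in the compact set `⋃_{v ∈ t} ρ₀(v) D0` (finite transversal `t` of `K`; `Yset_fold`; this changes `F y_n` only by `d1 = 0`, because `d1 (F (ρ₀(k) y)) (F y) ≤ L d0 = 0`).  A subsequence `y_n → y ∈ Y0`.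
 `d1 z (F y) ≤ dist z z_n + d1 z_n (F y_n) + L d0 y_n y → 0`.  So `z ∈ Im`.  (`finite_transversal` is in D1.)
`Im_bounded`: the folded points: the same compact set `Y_c`: `fold₁ z` for `z ∈ Im`: `dist (fold₁ z) (fold₁ (F y)) ≤ d1 z (F y) = 0`, and `dist (fold₁ (F y)) (fold₁ (F O)) ≤ d1 (F y) (F O) ≤ L d0 y O ≤ L · (diameter)`.
`inv_dom_quant`: let `d1 z (F x) < r / L`; after replacing `F x` by the nearest translate `z₀ = ρ₁(k) F x`: `dist z₀ z < r / L`.  Geodesic `γ` from `z₀` to `z` (`b1b_geod`), `D = dist z₀ z`.  `A = {t ∈ [0, D] | ∀ s ∈ [0, t], γ s ∈ Im}` contains `0`, is closed (`Im_closed`); it is open in `[0, D]`: for `t ∈ A`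
 there is `y ∈ Y0` with `d1 (γ t) (F y) = 0`, `d0 x y ≤ L d1 (F x) (F y) = L d1 z₀ (γ t) ≤ L t < r`, so some translate `y' = ρ₀(k) y` has `dist x y' < r`, a ball around `y'` lies in `ball x r ⊆ Y0`, `d1 (γ t) (F y') = 0`: `Im_nhds`.  So `A = [0, D]` (`IsClosed.Icc_subset_of_forall_mem_nhdsWithin` or `sSup`). -/

/-- the action is continuous -/
theorem i2_cont (g : O31) : Continuous fun x : H3 => g • x :=
  (LipschitzWith.mk_one fun x y => (dist_smul_smul g x y).le).continuous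

theorem i2_d0_nonneg {m : ℕ} (hm : 13 ≤ m) (x y : H3) : 0 ≤ d0 hm x y := qd_nonneg _ _ x y

theorem i2_d1_nonneg {m : ℕ} (hm : 13 ≤ m) (x y : H3) : 0 ≤ d1 hm x y := qd_nonneg _ _ x y

theorem i2_d0_self {m : ℕ} (hm : 13 ≤ m) (y : H3) (k : (CM m).Group) (hk : k ∈ K m) :
    d0 hm y ((RS0 hm).rho k • y) = 0 := by
  apply le_antisymm _ (i2_d0_nonneg hm _ _)
  have h1 : d0 hm y ((RS0 hm).rho k • y) = d0 hm y y := qd_smul_right _ _ y y k hk
  rw [h1, ← dist_self y]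
  exact qd_le_dist _ _ y y

theorem i2_d1_self {m : ℕ} (hm : 13 ≤ m) (y : H3) (k : (CM m).Group) (hk : k ∈ K m) :
    d1 hm y ((RS1 hm).rho k • y) = 0 := by
  apply le_antisymm _ (i2_d1_nonneg hm _ _)
  have h1 : d1 hm y ((RS1 hm).rho k • y) = d1 hm y y := qd_smul_right _ _ y y k hk
  rw [h1, ← dist_self y]
  exact qd_le_dist _ _ y y

/-- changing the representative -/
theorem i2_change {m : ℕ} (hm : 13 ≤ m) {L : ℝ} {F : H3 → H3} (hF : LipF hm L F) {z y y' : H3}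
    (hy : y ∈ Y0 hm) (hy' : y' ∈ Y0 hm) (h0 : d0 hm y y' = 0) (hz : d1 hm z (F y) = 0) :
    d1 hm z (F y') = 0 := by
  apply le_antisymm _ (i2_d1_nonneg hm _ _)
  have h1 : d1 hm z (F y') ≤ d1 hm z (F y) + d1 hm (F y) (F y') := qd_triangle _ _ z (F y) (F y')
  have h2 := hF.upper y hy y' hy'
  rw [h0, mul_zero] at h2
  linarith

/-- compact set of representatives -/
theorem i2_compact {m : ℕ} (hm : 13 ≤ m) : ∃ C : Set H3, IsCompact C ∧ C ⊆ Y0 hm ∧
    ∀ {L : ℝ} {F : H3 → H3}, LipF hm L F → ∀ z ∈ Im hm F, ∃ y ∈ C, d1 hm z (F y) = 0 := by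
  obtain ⟨t, ht⟩ := finite_transversal m
  refine ⟨⋃ v ∈ t, (fun x : H3 => (RS0 hm).rho v • x) '' D0 m, ?_, ?_, ?_⟩
  · exact t.isCompact_biUnion fun v _ => (D0_compact hm).image (i2_cont _)
  · intro x hx
    rw [mem_iUnion₂] at hx
    obtain ⟨v, _, y, hy, rfl⟩ := hx
    exact Yset_smul _ _ v (Yset_cham (RS0 hm) ex0 (ex0_anti hm) hy)
  · intro L F hF z hz
    obtain ⟨y, hy, hyz⟩ := hz
    obtain ⟨u, hu⟩ := (RS0 hm).fold_spec y
    obtain ⟨k, hk, v, hv, hkv⟩ := ht u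
    have hfold : (RS0 hm).fold y ∈ D0 m := (Yset_fold (RS0 hm) ex0 (ex0_anti hm) y).1 hy
    refine ⟨(RS0 hm).rho v • (RS0 hm).fold y, ?_, ?_⟩
    · rw [mem_iUnion₂]
      exact ⟨v, hv, (RS0 hm).fold y, hfold, rfl⟩
    · have h1 : y = (RS0 hm).rho k • ((RS0 hm).rho v • (RS0 hm).fold y) := by
        rw [← mul_smul, ← map_mul, ← hkv]
        exact hu
      have hy' : (RS0 hm).rho v • (RS0 hm).fold y ∈ Y0 hm :=
        Yset_smul _ _ v (Yset_cham (RS0 hm) ex0 (ex0_anti hm) hfold)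
      refine i2_change hm hF hy hy' ?_ hyz
      have h2 := i2_d0_self hm ((RS0 hm).rho v • (RS0 hm).fold y) k hk
      rw [← h1] at h2
      have h3 : d0 hm y ((RS0 hm).rho v • (RS0 hm).fold y) =
          d0 hm ((RS0 hm).rho v • (RS0 hm).fold y) y := qd_symm _ _ _ _
      rw [h3, h2]

theorem Im_closed {m : ℕ} (hm : 13 ≤ m) {L : ℝ} {F : H3 → H3} (hF : LipF hm L F) :
    IsClosed (Im hm F) := by
  obtain ⟨C, hC, hCY, hrep⟩ := i2_compact hm
  apply IsSeqClosed.isClosed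
  intro x z hx hz
  choose y hyC hy using fun n => hrep hF (x n) (hx n)
  obtain ⟨a, haC, φ, hφ, hlim⟩ := hC.tendsto_subseq hyC
  refine ⟨a, hCY haC, ?_⟩
  apply le_antisymm _ (i2_d1_nonneg hm _ _)
  have h1 : ∀ n, d1 hm z (F a) ≤ dist z (x (φ n)) + L * dist (y (φ n)) a := by
    intro n
    have e1 : d1 hm z (F a) ≤ d1 hm z (F (y (φ n))) + d1 hm (F (y (φ n))) (F a) :=
      qd_triangle _ _ _ _ _
    have e2 : d1 hm z (F (y (φ n))) ≤ d1 hm z (x (φ n)) + d1 hm (x (φ n)) (F (y (φ n))) :=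
      qd_triangle _ _ _ _ _
    have e3 : d1 hm z (x (φ n)) ≤ dist z (x (φ n)) := qd_le_dist _ _ _ _
    have e4 := hF.upper (y (φ n)) (hCY (hyC _)) a (hCY haC)
    have e5 : d0 hm (y (φ n)) a ≤ dist (y (φ n)) a := qd_le_dist _ _ _ _
    have e6 : L * d0 hm (y (φ n)) a ≤ L * dist (y (φ n)) a :=
      mul_le_mul_of_nonneg_left e5 (by linarith [hF.one_le])
    have e7 := hy (φ n)
    linarith
  have h2 : Filter.Tendsto (fun n => dist z (x (φ n)) + L * dist (y (φ n)) a) Filter.atTop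
      (nhds (dist z z + L * dist a a)) := by
    refine Filter.Tendsto.add ?_ (Filter.Tendsto.const_mul L ?_)
    · exact (tendsto_const_nhds.dist (hz.comp hφ.tendsto_atTop))
    · exact (hlim.dist tendsto_const_nhds)
  rw [dist_self, dist_self, mul_zero, add_zero] at h2
  exact ge_of_tendsto' h2 h1

theorem Im_bounded {m : ℕ} (hm : 13 ≤ m) {L : ℝ} {F : H3 → H3} (hF : LipF hm L F) :
    ∃ R : ℝ, ∀ z ∈ Im hm F, ((RS1 hm).fold z).val.2 ≤ R := by
  obtain ⟨C, hC, hCY, hrep⟩ := i2_compact hm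
  by_cases hne : (Im hm F).Nonempty
  · obtain ⟨z₀, hz₀⟩ := hne
    obtain ⟨y₀, hy₀C, hy₀⟩ := hrep hF z₀ hz₀
    obtain ⟨Dm, hDm⟩ := hC.isBounded.subset_closedBall y₀
    refine ⟨Real.cosh (L * Dm + dist ((RS1 hm).fold (F y₀)) O), ?_⟩
    intro z hz
    obtain ⟨y, hyC, hy⟩ := hrep hF z hz
    have hdist : dist y y₀ ≤ Dm := hDm hyC
    have hL : 0 ≤ L := by linarith [hF.one_le]
    have e1 : dist ((RS1 hm).fold z) ((RS1 hm).fold (F y)) ≤ d1 hm z (F y) := fold_le_qd _ _ _ _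
    have e2 : dist ((RS1 hm).fold (F y)) ((RS1 hm).fold (F y₀)) ≤ d1 hm (F y) (F y₀) :=
      fold_le_qd _ _ _ _
    have e3 := hF.upper y (hCY hyC) y₀ (hCY hy₀C)
    have e4 : d0 hm y y₀ ≤ dist y y₀ := qd_le_dist _ _ _ _
    have e5 : L * d0 hm y y₀ ≤ L * Dm := mul_le_mul_of_nonneg_left (e4.trans hdist) hL
    have e6 := dist_triangle ((RS1 hm).fold z) ((RS1 hm).fold (F y)) O
    have e7 := dist_triangle ((RS1 hm).fold (F y)) ((RS1 hm).fold (F y₀)) O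
    have e8 : dist ((RS1 hm).fold z) O ≤ L * Dm + dist ((RS1 hm).fold (F y₀)) O := by
      rw [hy] at e1
      linarith
    have e9 : ((RS1 hm).fold z).val.2 = Real.cosh (dist ((RS1 hm).fold z) O) := by
      rw [cosh_dist, lor_eq]
      simp [Ohy]
    rw [e9, Real.cosh_le_cosh, abs_of_nonneg dist_nonneg]
    exact e8.trans (le_abs_self _)
  · refine ⟨0, fun z hz => ?_⟩
    exact absurd ⟨z, hz⟩ hne

theorem inv_dom_quant {m : ℕ} (hm : 13 ≤ m) {L : ℝ} {F : H3 → H3} (hF : LipF hm L F) (x : H3)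
    (r : ℝ) (hx : Metric.ball x r ⊆ Y0 hm) (z : H3) (hz : d1 hm z (F x) < r / L) :
    z ∈ Im hm F := by
  have hL : 0 < L := by linarith [hF.one_le]
  have hr : 0 < r := by
    by_contra hcon
    push Not at hcon
    have h1 : r / L ≤ 0 := div_nonpos_of_nonpos_of_nonneg hcon hL.le
    have h2 := i2_d1_nonneg hm z (F x)
    linarith
  have hxY : x ∈ Y0 hm := hx (Metric.mem_ball_self hr)
  obtain ⟨k, hk, hkd⟩ := qd_exists (RS1 hm) (K m) z (F x)
  have hkd' : d1 hm z (F x) = dist z ((RS1 hm).rho k • F x) := hkd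
  set z₀ : H3 := (RS1 hm).rho k • F x with hz₀
  have hz₀Im : z₀ ∈ Im hm F := ⟨x, hxY, by
    have h1 : d1 hm z₀ (F x) = d1 hm (F x) z₀ := qd_symm _ _ _ _
    rw [h1]
    exact i2_d1_self hm (F x) k hk⟩
  have hD : dist z₀ z < r / L := by
    rw [dist_comm, ← hkd']
    exact hz
  obtain ⟨γ, g0, g1, hγ⟩ := b1b_geod z₀ z
  have hD0 : 0 ≤ dist z₀ z := dist_nonneg
  have z0 : (0 : ℝ) ∈ Icc 0 (dist z₀ z) := ⟨le_rfl, hD0⟩
  have z1 : dist z₀ z ∈ Icc 0 (dist z₀ z) := ⟨hD0, le_rfl⟩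
  have hcont : ContinuousOn γ (Icc 0 (dist z₀ z)) := by
    have hlip : LipschitzOnWith 1 γ (Icc 0 (dist z₀ z)) := by
      apply LipschitzOnWith.of_dist_le_mul
      intro s hs t ht
      rw [hγ s hs t ht, NNReal.coe_one, one_mul, Real.dist_eq]
    exact hlip.continuousOn
  have hmem : ∀ t ∈ Icc 0 (dist z₀ z), γ t ∈ Im hm F → Im hm F ∈ nhds (γ t) := by
    intro t ht htIm
    obtain ⟨y, hy, hyt⟩ := htIm
    have hdt : dist z₀ (γ t) ≤ dist z₀ z := by
      rw [← g0, hγ 0 z0 t ht, zero_sub, abs_neg, abs_of_nonneg ht.1]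
      rw [g0]
      exact ht.2
    have e1 := hF.lower x hxY y hy
    have e2 : d1 hm (F x) (F y) ≤ d1 hm (F x) z₀ + d1 hm z₀ (F y) := qd_triangle _ _ _ _ _
    have e3 : d1 hm (F x) z₀ = 0 := i2_d1_self hm (F x) k hk
    have e4 : d1 hm z₀ (F y) ≤ d1 hm z₀ (γ t) + d1 hm (γ t) (F y) := qd_triangle _ _ _ _ _
    have e5 : d1 hm z₀ (γ t) ≤ dist z₀ (γ t) := qd_le_dist _ _ _ _
    have e6 : d0 hm x y < r := by
      have h1 : d1 hm (F x) (F y) < r / L := by linarith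
      have h2 : L * d1 hm (F x) (F y) < L * (r / L) := mul_lt_mul_of_pos_left h1 hL
      rw [mul_div_cancel₀ _ hL.ne'] at h2
      linarith
    obtain ⟨k', hk', hkd2⟩ := qd_exists (RS0 hm) (K m) x y
    have hkd3 : d0 hm x y = dist x ((RS0 hm).rho k' • y) := hkd2
    have hy' : (RS0 hm).rho k' • y ∈ Y0 hm := Yset_smul _ _ k' hy
    have hball : Metric.ball ((RS0 hm).rho k' • y) (r - dist x ((RS0 hm).rho k' • y)) ⊆ Y0 hm := by
      refine Subset.trans ?_ hx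
      intro p hp
      rw [Metric.mem_ball] at hp ⊢
      have h1 := dist_triangle p ((RS0 hm).rho k' • y) x
      rw [dist_comm ((RS0 hm).rho k' • y) x] at h1
      linarith
    refine Im_nhds hm hF ((RS0 hm).rho k' • y) (r - dist x ((RS0 hm).rho k' • y)) ?_ hball (γ t) ?_
    · rw [hkd3] at e6
      linarith
    · exact i2_change hm hF hy hy' (i2_d0_self hm y k' hk') hyt
  have hcl : IsClosed ({t | γ t ∈ Im hm F} ∩ Icc 0 (dist z₀ z)) := by
    rw [inter_comm]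
    exact hcont.preimage_isClosed_of_isClosed isClosed_Icc (Im_closed hm hF)
  have hall : Icc 0 (dist z₀ z) ⊆ {t | γ t ∈ Im hm F} := by
    refine IsClosed.Icc_subset_of_forall_mem_nhdsWithin hcl ?_ ?_
    · show γ 0 ∈ Im hm F
      rw [g0]
      exact hz₀Im
    · rintro t ⟨ht, ht'⟩
      have htI : t ∈ Icc 0 (dist z₀ z) := ⟨ht'.1, ht'.2.le⟩
      have h1 : ContinuousWithinAt γ (Icc 0 (dist z₀ z)) t := hcont t htI
      have h2 := h1 (hmem t htI ht)
      exact nhdsWithin_le_of_mem (Icc_mem_nhdsGT_of_mem ht') h2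
  have h3 := hall z1
  have h4 : γ (dist z₀ z) ∈ Im hm F := h3
  rw [g1] at h4
  exact h4

end CEE
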