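import Pool.Agent.CEE.C2
import Pool.Agent.CEE.I2

set_option autoImplicit false

/-!
# [CEE-C3a] Pairs of close lifts
-/

namespace CEE

open Pool.Agent.MP_8db1a4_gt Set Real

/- PROOF NOTES [CEE-C3a].
`pair_exists`: `z' ∈ Im` gives `y'' ∈ Y0` with `d1 z' (F y'') = 0`; `d0 y y'' ≤ L d1 (F y) (F y'') ≤ L (d1 (F y) z + d1 z z' + d1 z' (F y'')) ≤ L dist z z'`; take the nearest translate `y' = ρ₀(k) y''` (`qd_exists`, `Yset_smul`), `d1 (F y') (F y'') ≤ L d0 y' y'' = 0` (`qd_eq_zero`).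
`pair_unique`: `d0 y y₁ ≤ L d1 (F y) (F y₁) = 0`, so `y₁ = ρ₀(k) y`, `y₁' = ρ₀(k') y'` (`qd_eq_zero`, `qd_nonneg`), and `dist y' (ρ₀(k⁻¹ k') y') ≤ dist y' y + dist y (ρ₀(k⁻¹ k') y') = dist y y' + dist y₁ y₁' < ι`, so `k = k'`. -/

theorem pair_exists {m : ℕ} (hm : 13 ≤ m) {L : ℝ} {F : H3 → H3} (hF : LipF hm L F) (z z' : H3)
    (hz' : z' ∈ Im hm F) (y : H3) (hy : y ∈ Y0 hm) (hzy : d1 hm z (F y) = 0) :
    ∃ y' ∈ Y0 hm, d1 hm z' (F y') = 0 ∧ dist y y' ≤ L * dist z z' := by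
  obtain ⟨y'', hy'', hz''⟩ := hz'
  have hL := hF.one_le
  have h1 : d1 hm (F y) (F y'') ≤ dist z z' := by
    have e1 : d1 hm (F y) (F y'') ≤ d1 hm (F y) z + d1 hm z (F y'') := qd_triangle _ _ _ _ _
    have e2 : d1 hm z (F y'') ≤ d1 hm z z' + d1 hm z' (F y'') := qd_triangle _ _ _ _ _
    have e3 : d1 hm (F y) z = d1 hm z (F y) := qd_symm _ _ _ _
    have e4 : d1 hm z z' ≤ dist z z' := qd_le_dist _ _ _ _
    linarith
  have h2 : d0 hm y y'' ≤ L * dist z z' :=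
    (hF.lower y hy y'' hy'').trans (mul_le_mul_of_nonneg_left h1 (by linarith))
  obtain ⟨k, hk, hk2⟩ := qd_exists (RS0 hm) (K m) y y''
  have hy' : (RS0 hm).rho k • y'' ∈ Y0 hm := Yset_smul _ _ k hy''
  refine ⟨(RS0 hm).rho k • y'', hy', ?_, ?_⟩
  · have e1 : d0 hm ((RS0 hm).rho k • y'') y'' = 0 := (qd_eq_zero _ _ _ _).2 ⟨k, hk, rfl⟩
    have e2 := hF.upper _ hy' _ hy''
    rw [e1, mul_zero] at e2
    have e3 : d1 hm z' (F ((RS0 hm).rho k • y'')) ≤ d1 hm z' (F y'') + d1 hm (F y'') (F ((RS0 hm).rho k • y'')) :=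
      qd_triangle _ _ _ _ _
    have e4 : d1 hm (F y'') (F ((RS0 hm).rho k • y'')) = d1 hm (F ((RS0 hm).rho k • y'')) (F y'') := qd_symm _ _ _ _
    have e5 : 0 ≤ d1 hm z' (F ((RS0 hm).rho k • y'')) := qd_nonneg _ _ _ _
    linarith
  · rw [← hk2]
    exact h2

theorem pair_unique {m : ℕ} (hm : 13 ≤ m) {L : ℝ} {F : H3 → H3} (hF : LipF hm L F) (z z' : H3)
    (y y' y₁ y₁' : H3) (hy : y ∈ Y0 hm) (hy' : y' ∈ Y0 hm) (hy₁ : y₁ ∈ Y0 hm) (hy₁' : y₁' ∈ Y0 hm)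
    (h1 : d1 hm z (F y) = 0) (h2 : d1 hm z' (F y') = 0) (h3 : d1 hm z (F y₁) = 0)
    (h4 : d1 hm z' (F y₁') = 0) (ι : ℝ)
    (hι : ∀ x ∈ Y0 hm, ∀ k ∈ K m, k ≠ 1 → ι ≤ dist x ((RS0 hm).rho k • x))
    (h5 : dist y y' + dist y₁ y₁' < ι) :
    ∃ k ∈ K m, y₁ = (RS0 hm).rho k • y ∧ y₁' = (RS0 hm).rho k • y' := by
  have hL := hF.one_le
  have key : ∀ z y y₁ : H3, y ∈ Y0 hm → y₁ ∈ Y0 hm → d1 hm z (F y) = 0 → d1 hm z (F y₁) = 0 →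
      ∃ k ∈ K m, y₁ = (RS0 hm).rho k • y := by
    intro z y y₁ hy hy₁ h1 h3
    have e1 : d1 hm (F y₁) (F y) ≤ d1 hm (F y₁) z + d1 hm z (F y) := qd_triangle _ _ _ _ _
    have e2 : d1 hm (F y₁) z = d1 hm z (F y₁) := qd_symm _ _ _ _
    have e3 : d1 hm (F y₁) (F y) ≤ 0 := by linarith
    have e4 := hF.lower y₁ hy₁ y hy
    have e5 : L * d1 hm (F y₁) (F y) ≤ 0 := mul_nonpos_of_nonneg_of_nonpos (by linarith) e3
    have e6 : 0 ≤ d0 hm y₁ y := qd_nonneg _ _ _ _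
    exact (qd_eq_zero _ _ _ _).1 (le_antisymm (e4.trans e5) e6)
  obtain ⟨k, hk, hk1⟩ := key z y y₁ hy hy₁ h1 h3
  obtain ⟨k', hk', hk1'⟩ := key z' y' y₁' hy' hy₁' h2 h4
  have hkk : k = k' := by
    by_contra hne
    have h6 : k⁻¹ * k' ∈ K m := mul_mem (inv_mem hk) hk'
    have h7 : k⁻¹ * k' ≠ 1 := fun h => hne (inv_mul_eq_one.1 h)
    have h8 := hι y' hy' _ h6 h7
    have h9 : dist y ((RS0 hm).rho (k⁻¹ * k') • y') = dist y₁ y₁' := by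
      rw [hk1, hk1', ← dist_smul_smul ((RS0 hm).rho k) y, smul_smul, ← map_mul]
      congr 3
      rw [mul_inv_cancel_left]
    have h10 := dist_triangle y' y ((RS0 hm).rho (k⁻¹ * k') • y')
    rw [h9, dist_comm y' y] at h10
    linarith
  subst hkk
  exact ⟨k, hk, hk1, hk1'⟩

end CEE
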