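import Pool.Agent.CEE.C1a
import Pool.Agent.CEE.C1b
import Pool.Agent.CEE.C3a

set_option autoImplicit false

/-!
# [CEE-C3b] Transport of classes from the core to `M`
-/

namespace CEE

open Pool.Agent.MP_8db1a4_gt Set Real

/-- the class `l` of `core(M_geod)` and the class `mu` of `M` correspond by the map `F`, with support in the image -/
def Rel {m : ℕ} (hm : 13 ≤ m) (L : ℝ) (F : H3 → H3) (l mu : K m →* ℤˣ) : Prop :=
  ∃ (E E' : H3 → ℤˣ) (δ : ℝ), 0 < δ ∧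
    (∀ k : K m, ∀ x ∈ Y0 hm, E ((RS0 hm).rho k • x) = l k * E x) ∧
    (∀ k : K m, ∀ z, E' ((RS1 hm).rho k • z) = mu k * E' z) ∧
    (∀ z z', dist z z' ≤ δ → ∀ y ∈ Y0 hm, ∀ y' ∈ Y0 hm, d1 hm z (F y) = 0 → d1 hm z' (F y') = 0 →
      dist y y' ≤ L * δ → E' z * E' z' = E y * E y') ∧
    (∀ z z', dist z z' ≤ δ → z ∉ Im hm F → E' z = E' z')

/- PROOF NOTES [CEE-C3b].  `l ∈ Lam m`; `E, δ₀` from `exists_section`, `ι` from `iota`; choose `δ > 0` with `4 L δ < ι` and `3 L δ < δ₀`.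
(`pair_exists`:) For `z, z'` with `dist z z' ≤ δ` and `z, z' ∈ Im` there are `y, y' ∈ Y0` with `d1 z (F y) = 0`, `d1 z' (F y') = 0`, `dist y y' ≤ L δ`: (`d0 y y' ≤ L d1 (F y) (F y') = L d1 z z' ≤ L δ`, take the nearest translate `ρ₀(k) y'`, `d1 (F (ρ₀(k) y')) (F y') ≤ L d0 .. = 0`).
`s z z' := E y * E y'` for such a choice (`Classical.choose`), and `s z z' = 1` if `z ∉ Im` or `z' ∉ Im`.
`pair_unique` (well defined): if `y₁, y₁'` is another pair: `d0 y y₁ ≤ L d1 (F y) (F y₁) = 0`, so `y₁ = ρ₀(k) y`, `y₁' = ρ₀(k') y'` (`qd_eq_zero`), and `dist y' (ρ₀(k⁻¹ k') y') ≤ dist y' y + dist y (ρ₀(k⁻¹ k') y') ≤ 2 L δ < ι`, so `k = k'` and `E y₁ * E y₁' = l k * l k * E y * E y' = E y * E y'`.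
`cocycle`: `z₁, z₂, z₃` with mutual distances `≤ δ`.  All in `Im`: take `y₂` and `y₁, y₃` with `dist y₂ y_i ≤ L δ` (as above, fixing `y₂`); then `dist y₁ y₃ ≤ 2 L δ`; a correct pair for `(z₁, z₃)` is `(y₁, ρ₀(k) y₃)` with `dist y₁ (ρ₀(k) y₃) ≤ L δ`, so `dist y₃ (ρ₀(k) y₃) ≤ 3 L δ < ι`, `k = 1`.
 Exactly one not in `Im`, say `z₃` (the three positions are similar): `s z₁ z₂ = 1` must be shown: `d1 z₃ (F y₁) ≤ dist z₃ z₁ + 0 ≤ δ < (2 L δ) / L`, so by `inv_dom_quant` the ball of radius `2 L δ` around `y₁` is not contained in `Y0`: `near_of_not_ball`: `Near (2 L δ) y₁ w`, and `Near (3 L δ) y₂ w` (`dist y₁ y₂ ≤ L δ`);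
 `3 L δ < δ₀`: `E y₁ = E y₂`.  Two or three not in `Im`: all three values are `1`.
`exists_rel`: `integrate s δ`: `E'` with `s z z' = E' z * E' z'`.  `s (ρ₁(k) z) (ρ₁(k) z') = s z z'` (`Im_smul`, and a pair for `(z,z')` is a pair for the translates: `pair_unique`).  So `z ↦ E' (ρ₁(k) z) * E' z` is constant (`const_of_close` with `Y = univ`): call it `mu k`; `mu` is multiplicative:
 `E' (ρ₁(k k') z) * E' z = (E' (ρ₁(k) ρ₁(k') z) * E' (ρ₁(k') z)) * (E' (ρ₁(k') z) * E' z)`.  The last clause of `Rel`: `z ∉ Im`: `E' z * E' z' = s z z' = 1`. -/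

theorem c3b_sq (u : ℤˣ) : u * u = 1 := by
  rcases Int.units_eq_one_or u with h | h <;> rw [h] <;> rfl

theorem c3b_eq {u v : ℤˣ} (h : u * v = 1) : u = v := by
  have h1 := c3b_sq v
  exact mul_right_cancel (h.trans h1.symm)

theorem c3b_cancel (a u v : ℤˣ) : a * u * (a * v) = u * v := by
  have h1 := c3b_sq a
  calc a * u * (a * v) = (a * a) * (u * v) := by
        simp only [mul_comm, mul_left_comm]
    _ = u * v := by rw [h1, one_mul]

theorem c3b_mid (a b c : ℤˣ) : a * b * (b * c) = a * c := by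
  have h1 := c3b_sq b
  calc a * b * (b * c) = (b * b) * (a * c) := by
        simp only [mul_comm, mul_left_comm]
    _ = a * c := by rw [h1, one_mul]

/-- a pair of close lifts -/
def c3b_P {m : ℕ} (hm : 13 ≤ m) (r : ℝ) (F : H3 → H3) (z z' y y' : H3) : Prop :=
  y ∈ Y0 hm ∧ y' ∈ Y0 hm ∧ d1 hm z (F y) = 0 ∧ d1 hm z' (F y') = 0 ∧ dist y y' ≤ r

open Classical in
noncomputable def c3b_f (P : H3 → H3 → Prop) (E : H3 → ℤˣ) : ℤˣ :=
  if h : ∃ q : H3 × H3, P q.1 q.2 then E h.choose.1 * E h.choose.2 else 1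

/-- the cocycle -/
noncomputable def c3b_s {m : ℕ} (hm : 13 ≤ m) (r : ℝ) (F : H3 → H3) (E : H3 → ℤˣ) (z z' : H3) :
    ℤˣ := c3b_f (c3b_P hm r F z z') E

theorem c3b_s_eq {m : ℕ} (hm : 13 ≤ m) {L : ℝ} {F : H3 → H3} (hF : LipF hm L F) (r : ℝ)
    (E : H3 → ℤˣ) (l : K m →* ℤˣ)
    (hE : ∀ k : K m, ∀ x ∈ Y0 hm, E ((RS0 hm).rho k • x) = l k * E x) (ι : ℝ)
    (hι : ∀ x ∈ Y0 hm, ∀ k ∈ K m, k ≠ 1 → ι ≤ dist x ((RS0 hm).rho k • x)) (r' : ℝ)
    (hr : r + r' < ι) (z z' y y' : H3) (h : ∃ q : H3 × H3, c3b_P hm r F z z' q.1 q.2)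
    (hP : c3b_P hm r' F z z' y y') : c3b_s hm r F E z z' = E y * E y' := by
  unfold c3b_s c3b_f
  rw [dif_pos h]
  obtain ⟨h1, h2, h3, h4, h5⟩ := h.choose_spec
  obtain ⟨g1, g2, g3, g4, g5⟩ := hP
  obtain ⟨k, hk, e1, e2⟩ := pair_unique hm hF z z' y y' h.choose.1 h.choose.2 g1 g2 h1 h2 g3 g4
    h3 h4 ι hι (by linarith)
  rw [e1, e2]
  have a1 := hE ⟨k, hk⟩ y g1
  have a2 := hE ⟨k, hk⟩ y' g2
  simp only at a1 a2
  rw [a1, a2, c3b_cancel]

theorem c3b_s_one {m : ℕ} (hm : 13 ≤ m) (r : ℝ) (F : H3 → H3) (E : H3 → ℤˣ) (z z' : H3)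
    (h : z ∉ Im hm F ∨ z' ∉ Im hm F) : c3b_s hm r F E z z' = 1 := by
  unfold c3b_s c3b_f
  rw [dif_neg]
  rintro ⟨q, h1, h2, h3, h4, h5⟩
  rcases h with h | h
  · exact h ⟨_, h1, h3⟩
  · exact h ⟨_, h2, h4⟩

theorem exists_rel {m : ℕ} (hm : 13 ≤ m) (ho : Odd m) {L : ℝ} {F : H3 → H3} (hF : LipF hm L F)
    (l : K m →* ℤˣ) (hl : l ∈ Lam m) : ∃ mu : K m →* ℤˣ, Rel hm L F l mu := by
  obtain ⟨δ₀, hδ₀, E, hE, hN⟩ := exists_section hm ho l hl
  obtain ⟨ι, hι0, hι⟩ := iota hm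
  have hL1 := hF.one_le
  have hL : 0 < L := by linarith
  obtain ⟨δ, hδ, hδ1, hδ2⟩ : ∃ δ : ℝ, 0 < δ ∧ 4 * (L * δ) < ι ∧ 3 * (L * δ) < δ₀ := by
    refine ⟨min ι δ₀ / (8 * L), by positivity, ?_, ?_⟩
    · have h1 : L * (min ι δ₀ / (8 * L)) = min ι δ₀ / 8 := by field_simp
      have h2 := min_le_left ι δ₀
      rw [h1]
      linarith
    · have h1 : L * (min ι δ₀ / (8 * L)) = min ι δ₀ / 8 := by field_simp
      have h2 := min_le_right ι δ₀
      rw [h1]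
      linarith
  have hLδ : 0 < L * δ := by positivity
  -- existence of pairs
  have hex : ∀ z z', dist z z' ≤ δ → z' ∈ Im hm F → ∀ y ∈ Y0 hm, d1 hm z (F y) = 0 →
      ∃ y', c3b_P hm (L * δ) F z z' y y' := by
    intro z z' hzz hz' y hy hzy
    obtain ⟨y', h1, h2, h3⟩ := pair_exists hm hF z z' hz' y hy hzy
    exact ⟨y', hy, h1, hzy, h2, h3.trans (mul_le_mul_of_nonneg_left hzz hL.le)⟩
  have hval : ∀ z z' y y', c3b_P hm (L * δ) F z z' y y' →
      c3b_s hm (L * δ) F E z z' = E y * E y' := by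
    intro z z' y y' hP
    exact c3b_s_eq hm hF (L * δ) E l hE ι hι (L * δ) (by linarith) z z' y y' ⟨(y, y'), hP⟩ hP
  have hnear : ∀ a b c, dist a b ≤ δ → dist a c ≤ δ → c ∉ Im hm F →
      c3b_s hm (L * δ) F E a b = 1 := by
    intro a b c hab hac hc
    by_cases ha : a ∈ Im hm F
    swap
    · exact c3b_s_one hm _ F E a b (Or.inl ha)
    by_cases hb : b ∈ Im hm F
    swap
    · exact c3b_s_one hm _ F E a b (Or.inr hb)
    obtain ⟨y, hy, hay⟩ := ha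
    obtain ⟨y', hP⟩ := hex a b hab hb y hy hay
    rw [hval a b y y' hP]
    have hnb : ¬ Metric.ball y (2 * (L * δ)) ⊆ Y0 hm := by
      intro hsub
      apply hc
      apply inv_dom_quant hm hF y (2 * (L * δ)) hsub c
      have h1 : 2 * (L * δ) / L = 2 * δ := by field_simp
      rw [h1]
      have h2 : d1 hm c (F y) ≤ d1 hm c a + d1 hm a (F y) := qd_triangle _ _ _ _ _
      have h3 : d1 hm c a ≤ dist c a := qd_le_dist _ _ _ _
      rw [dist_comm] at h3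
      linarith
    obtain ⟨w, p, hp, hpd⟩ := near_of_not_ball hm y hy _ hnb
    have h1 : E y = E y' := by
      apply hN y hy y' hP.2.1 w
      · exact ⟨p, hp, by linarith⟩
      · refine ⟨p, hp, ?_⟩
        have h2 := dist_triangle y' y ((RS0 hm).rho w • p)
        have h3 := hP.2.2.2.2
        rw [dist_comm] at h3
        linarith
    rw [h1]
    exact c3b_sq _
  have hcoc : ∀ x y z, dist x y ≤ δ → dist y z ≤ δ → dist x z ≤ δ →
      c3b_s hm (L * δ) F E x y * c3b_s hm (L * δ) F E y z = c3b_s hm (L * δ) F E x z := by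
    intro z1 z2 z3 h12 h23 h13
    by_cases i1 : z1 ∈ Im hm F
    swap
    · rw [c3b_s_one hm _ F E z1 z2 (Or.inl i1), c3b_s_one hm _ F E z1 z3 (Or.inl i1),
        hnear z2 z3 z1 h23 (by rwa [dist_comm]) i1, one_mul]
    by_cases i2 : z2 ∈ Im hm F
    swap
    · rw [c3b_s_one hm _ F E z1 z2 (Or.inr i2), c3b_s_one hm _ F E z2 z3 (Or.inl i2),
        hnear z1 z3 z2 h13 h12 i2, one_mul]
    by_cases i3 : z3 ∈ Im hm F
    swap
    · rw [c3b_s_one hm _ F E z2 z3 (Or.inr i3), c3b_s_one hm _ F E z1 z3 (Or.inr i3),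
        hnear z1 z2 z3 h12 h13 i3, one_mul]
    obtain ⟨y1, hy1, e1⟩ := i1
    obtain ⟨y2, P12⟩ := hex z1 z2 h12 i2 y1 hy1 e1
    obtain ⟨y3, P23⟩ := hex z2 z3 h23 i3 y2 P12.2.1 P12.2.2.2.1
    obtain ⟨y3', P13⟩ := hex z1 z3 h13 i3 y1 hy1 e1
    rw [hval z1 z2 y1 y2 P12, hval z2 z3 y2 y3 P23]
    have hP : c3b_P hm (2 * (L * δ)) F z1 z3 y1 y3 := by
      refine ⟨hy1, P23.2.1, e1, P23.2.2.2.1, ?_⟩
      have h1 := dist_triangle y1 y2 y3
      have h2 := P12.2.2.2.2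
      have h3 := P23.2.2.2.2
      linarith
    rw [c3b_s_eq hm hF (L * δ) E l hE ι hι (2 * (L * δ)) (by linarith) z1 z3 y1 y3 ⟨(y1, y3'), P13⟩ hP,
      c3b_mid]
  obtain ⟨E', hE'⟩ := integrate (c3b_s hm (L * δ) F E) δ hδ hcoc
  -- equivariance
  have hinv : ∀ k ∈ K m, ∀ z z', c3b_s hm (L * δ) F E ((RS1 hm).rho k • z) ((RS1 hm).rho k • z') =
      c3b_s hm (L * δ) F E z z' := by
    intro k hk z z'
    have h1 : ∀ z y, d1 hm ((RS1 hm).rho k • z) (F y) = d1 hm z (F y) := fun z y =>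
      qd_smul_left _ _ _ _ k hk
    have h2 : c3b_P hm (L * δ) F ((RS1 hm).rho k • z) ((RS1 hm).rho k • z') =
        c3b_P hm (L * δ) F z z' := by
      funext y y'
      unfold c3b_P
      rw [h1, h1]
    unfold c3b_s
    rw [h2]
  have hg : ∀ k ∈ K m, ∀ z z', E' ((RS1 hm).rho k • z) * E' z = E' ((RS1 hm).rho k • z') * E' z' := by
    intro k hk z z'
    refine const_of_close Set.univ (fun _ _ _ _ _ _ => Set.mem_univ _)
      (fun z => E' ((RS1 hm).rho k • z) * E' z) δ hδ ?_ z (Set.mem_univ _) z' (Set.mem_univ _)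
    intro x _ y _ hxy
    have h1 := hE' x y hxy
    have h2 := hE' ((RS1 hm).rho k • x) ((RS1 hm).rho k • y) (by rwa [dist_smul_smul])
    rw [hinv k hk, h1] at h2
    have h3 : (E' ((RS1 hm).rho k • x) * E' x) * (E' ((RS1 hm).rho k • y) * E' y) = 1 := by
      calc (E' ((RS1 hm).rho k • x) * E' x) * (E' ((RS1 hm).rho k • y) * E' y) =
          (E' x * E' y) * (E' ((RS1 hm).rho k • x) * E' ((RS1 hm).rho k • y)) :=
            (mul_mul_mul_comm _ _ _ _).trans (mul_comm _ _)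
        _ = 1 := by rw [← h2]; exact c3b_sq _
    exact c3b_eq h3
  let mu : K m →* ℤˣ :=
    { toFun := fun k => E' ((RS1 hm).rho k • O) * E' O
      map_one' := by
        simp only [OneMemClass.coe_one, map_one, one_smul]
        exact c3b_sq _
      map_mul' := by
        intro k k'
        have h1 := hg k k.2 ((RS1 hm).rho k' • O) O
        rw [← h1]
        simp only [Subgroup.coe_mul, map_mul, mul_smul]
        rw [c3b_mid] }
  have hmu : ∀ (k : K m) z, E' ((RS1 hm).rho k • z) * E' z = mu k := fun k z => hg k k.2 z O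
  refine ⟨mu, E, E', δ, hδ, hE, ?_, ?_, ?_⟩
  · intro k z
    rw [← hmu k z, mul_assoc, c3b_sq, mul_one]
  · intro z z' hzz y hy y' hy' h1 h2 h3
    rw [← hE' z z' hzz]
    exact hval z z' y y' ⟨hy, hy', h1, h2, h3⟩
  · intro z z' hzz hz
    apply c3b_eq
    rw [← hE' z z' hzz]
    exact c3b_s_one hm _ F E z z' (Or.inl hz)

end CEE
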