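import Pool.Agent.CEE.G1

set_option autoImplicit false

/-!
# [CEE-G2] The finite quotient and the groups `K`, `H`
-/

namespace CEE

open Pool.Agent.MP_8db1a4_gt Set Real

/-- The finite group `D₄ × D₄ × {±1}`. -/
abbrev Q : Type := DihedralGroup 4 × DihedralGroup 4 × ℤˣ

/-- Images of the generators: they depend on the type only. -/
def typ (m : ℕ) : Gen m → Q
  | .T => (.sr 0, 1, -1)
  | .B => (1, .sr 0, -1)
  | .G i => if Even i.val then (1, .sr 1, -1) else (.sr 1, 1, -1)

/- PROOF NOTES [CEE-G2].  `liftable`: cases; the identities in `Q` by `decide` (after `Prod.ext`) or `rfl`-like computations: `(sr 0, sr 1, 1)^2 = 1`, `(sr 0 * sr 1, 1, 1)^4 = 1`, ...; sides: `i = j`: square of `typ` is `1`; `|i - j| = 1`: different parity, commuting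
involutions; label `0`: `pow_zero`.
`incl_liftable`: the labels of `CH` are those of `CM m` for the four generators (`m` odd: `G 1 ↦ G m` keeps the parity), label `0` is no condition; `CoxeterSystem.simple_mul_simple_pow`, `M.toCoxeterSystem_simple`.
`incl_range`: `MonoidHom.map_closure`/`Subgroup.closure_range_simple` (`subgroup_closure_range_simple`).
`exists_H`: `{w | ∃ h ∈ Hs m, phi m w = phi m h}` is the comap of `(Hs m).map (phi m)`; it contains all simple generators (`G i` has the same image as `G 0` or `G m`); `subgroup_closure_range_simple`. -/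

theorem g2_typ_G_even {m : ℕ} {i : Fin (m + 1)} (h : Even i.val) :
    typ m (.G i) = (1, .sr 1, -1) := if_pos h

theorem g2_typ_G_odd {m : ℕ} {i : Fin (m + 1)} (h : ¬ Even i.val) :
    typ m (.G i) = (.sr 1, 1, -1) := if_neg h

theorem g2_sq (m : ℕ) (s : Gen m) : (typ m s * typ m s) ^ 1 = 1 := by
  cases s with
  | T =>
    show (((.sr 0, 1, -1) : Q) * (.sr 0, 1, -1)) ^ 1 = 1
    decide
  | B =>
    show (((1, .sr 0, -1) : Q) * (1, .sr 0, -1)) ^ 1 = 1
    decide
  | G i =>
    by_cases h : Even i.val
    · rw [g2_typ_G_even h]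
      decide
    · rw [g2_typ_G_odd h]
      decide

theorem g2_TG (m : ℕ) (i : Fin (m + 1)) :
    (typ m .T * typ m (.G i)) ^ (if Even i.val then 2 else 4) = 1 := by
  by_cases h : Even i.val
  · rw [g2_typ_G_even h, if_pos h]
    show (((.sr 0, 1, -1) : Q) * (1, .sr 1, -1)) ^ 2 = 1
    decide
  · rw [g2_typ_G_odd h, if_neg h]
    show (((.sr 0, 1, -1) : Q) * (.sr 1, 1, -1)) ^ 4 = 1
    decide

theorem g2_GT (m : ℕ) (i : Fin (m + 1)) :
    (typ m (.G i) * typ m .T) ^ (if Even i.val then 2 else 4) = 1 := by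
  by_cases h : Even i.val
  · rw [g2_typ_G_even h, if_pos h]
    show (((1, .sr 1, -1) : Q) * (.sr 0, 1, -1)) ^ 2 = 1
    decide
  · rw [g2_typ_G_odd h, if_neg h]
    show (((.sr 1, 1, -1) : Q) * (.sr 0, 1, -1)) ^ 4 = 1
    decide

theorem g2_BG (m : ℕ) (i : Fin (m + 1)) :
    (typ m .B * typ m (.G i)) ^ (if Even i.val then 4 else 2) = 1 := by
  by_cases h : Even i.val
  · rw [g2_typ_G_even h, if_pos h]
    show (((1, .sr 0, -1) : Q) * (1, .sr 1, -1)) ^ 4 = 1
    decide
  · rw [g2_typ_G_odd h, if_neg h]
    show (((1, .sr 0, -1) : Q) * (.sr 1, 1, -1)) ^ 2 = 1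
    decide

theorem g2_GB (m : ℕ) (i : Fin (m + 1)) :
    (typ m (.G i) * typ m .B) ^ (if Even i.val then 4 else 2) = 1 := by
  by_cases h : Even i.val
  · rw [g2_typ_G_even h, if_pos h]
    show (((1, .sr 1, -1) : Q) * (1, .sr 0, -1)) ^ 4 = 1
    decide
  · rw [g2_typ_G_odd h, if_neg h]
    show (((.sr 1, 1, -1) : Q) * (1, .sr 0, -1)) ^ 2 = 1
    decide

theorem g2_GG (m : ℕ) (i j : Fin (m + 1)) (hij : i.val + 1 = j.val ∨ j.val + 1 = i.val) :
    (typ m (.G i) * typ m (.G j)) ^ 2 = 1 := by
  have h1 : Even i.val ↔ ¬ Even j.val := by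
    rcases hij with h | h
    · rw [← h, Nat.even_add_one, not_not]
    · rw [← h, Nat.even_add_one]
  by_cases h : Even i.val
  · rw [g2_typ_G_even h, g2_typ_G_odd (h1.1 h)]
    decide
  · have h2 : Even j.val := by
      by_contra h3
      exact h (h1.2 h3)
    rw [g2_typ_G_odd h, g2_typ_G_even h2]
    decide

theorem typ_liftable (m : ℕ) : (CM m).IsLiftable (typ m) := by
  intro s t
  rw [CM_apply]
  cases s with
  | T =>
    cases t with
    | T => exact g2_sq m .T
    | B => exact pow_zero _
    | G i => exact g2_TG m i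
  | B =>
    cases t with
    | T => exact pow_zero _
    | B => exact g2_sq m .B
    | G i => exact g2_BG m i
  | G i =>
    cases t with
    | T => exact g2_GT m i
    | B => exact g2_GB m i
    | G j =>
      show (typ m (.G i) * typ m (.G j)) ^
        (if i = j then 1 else if i.val + 1 = j.val ∨ j.val + 1 = i.val then 2 else 0) = 1
      by_cases h : i = j
      · rw [if_pos h, h]
        exact g2_sq m (.G j)
      · rw [if_neg h]
        by_cases h' : i.val + 1 = j.val ∨ j.val + 1 = i.val
        · rw [if_pos h']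
          exact g2_GG m i j h'
        · rw [if_neg h']
          exact pow_zero _

/-- The homomorphism onto the finite quotient. -/
noncomputable def phi (m : ℕ) : (CM m).Group →* Q := (CM m).toCoxeterSystem.lift ⟨typ m, typ_liftable m⟩

theorem phi_simple (m : ℕ) (s : Gen m) : phi m ((CM m).simple s) = typ m s :=
  (CM m).toCoxeterSystem.lift_apply_simple (typ_liftable m) s

theorem typH_liftable : CH.IsLiftable (typ 1) := by
  intro s t
  rw [CH_apply]
  cases s with
  | T =>
    cases t with
    | T => exact g2_sq 1 .T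
    | B => exact pow_zero _
    | G i => exact g2_TG 1 i
  | B =>
    cases t with
    | T => exact pow_zero _
    | B => exact g2_sq 1 .B
    | G i => exact g2_BG 1 i
  | G i =>
    cases t with
    | T => exact g2_GT 1 i
    | B => exact g2_GB 1 i
    | G j =>
      show (typ 1 (.G i) * typ 1 (.G j)) ^ (if i = j then 1 else 0) = 1
      by_cases h : i = j
      · rw [if_pos h, h]
        exact g2_sq 1 (.G j)
      · rw [if_neg h]
        exact pow_zero _

noncomputable def phiH : CH.Group →* Q := CH.toCoxeterSystem.lift ⟨typ 1, typH_liftable⟩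

theorem phiH_simple (s : Gen 1) : phiH (CH.simple s) = typ 1 s :=
  CH.toCoxeterSystem.lift_apply_simple typH_liftable s

/-- The torsion-free normal subgroup. -/
noncomputable def K (m : ℕ) : Subgroup (CM m).Group := (phi m).ker

noncomputable def KH : Subgroup CH.Group := phiH.ker

instance K_normal (m : ℕ) : (K m).Normal := MonoidHom.normal_ker _

instance KH_normal : KH.Normal := MonoidHom.normal_ker _

/-- the four walls which meet the free face -/
def Jset (m : ℕ) : Set (Gen m) := {Gen.T, Gen.B, Gen.G 0, Gen.G (Fin.last m)}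

/-- The boundary group. -/
def Hs (m : ℕ) : Subgroup (CM m).Group := Subgroup.closure ((CM m).simple '' Jset m)

def inclGen (m : ℕ) : Gen 1 → Gen m
  | .T => .T
  | .B => .B
  | .G i => if i = 0 then .G 0 else .G (Fin.last m)

theorem g2_pow (m : ℕ) (s t : Gen m) : ((CM m).simple s * (CM m).simple t) ^ lab m s t = 1 :=
  (CM m).toCoxeterSystem.simple_mul_simple_pow s t

theorem g2_fin2 (i : Fin 2) : i = 0 ∨ i = 1 := by
  revert i
  decide

theorem g2_one_ne : (1 : Fin 2) ≠ 0 := by decide

theorem g2_incl_zero (m : ℕ) : inclGen m (.G 0) = .G 0 := rfl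

theorem g2_incl_one (m : ℕ) : inclGen m (.G 1) = .G (Fin.last m) := by
  show (if (1 : Fin 2) = 0 then Gen.G 0 else Gen.G (Fin.last m)) = Gen.G (Fin.last m)
  exact if_neg g2_one_ne

theorem g2_even0 (m : ℕ) : Even (0 : Fin (m + 1)).val := ⟨0, rfl⟩

theorem incl_liftable (m : ℕ) (hm : Odd m) :
    CH.IsLiftable (fun s => (CM m).simple (inclGen m s)) := by
  have hme : ¬ Even m := Nat.not_even_iff_odd.2 hm
  intro s t
  rw [CH_apply]
  show ((CM m).simple (inclGen m s) * (CM m).simple (inclGen m t)) ^ labH s t = 1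
  have key : labH s t = 0 ∨ labH s t = lab m (inclGen m s) (inclGen m t) := by
    have e1 : ∀ a b : ℕ, (if Even (Fin.last m).val then a else b) = b := fun a b => if_neg hme
    cases s with
    | T =>
      cases t with
      | T => right; rfl
      | B => right; rfl
      | G i =>
        right
        rcases g2_fin2 i with rfl | rfl
        · rfl
        · rw [g2_incl_one]
          exact (e1 2 4).symm
    | B =>
      cases t with
      | T => right; rfl
      | B => right; rfl
      | G i =>
        right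
        rcases g2_fin2 i with rfl | rfl
        · rfl
        · rw [g2_incl_one]
          exact (e1 4 2).symm
    | G i =>
      cases t with
      | T =>
        right
        rcases g2_fin2 i with rfl | rfl
        · rfl
        · rw [g2_incl_one]
          exact (e1 2 4).symm
      | B =>
        right
        rcases g2_fin2 i with rfl | rfl
        · rfl
        · rw [g2_incl_one]
          exact (e1 4 2).symm
      | G j =>
        by_cases h : i = j
        · right
          subst h
          have h1 : labH (.G i) (.G i) = 1 := if_pos rfl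
          rw [h1]
          exact ((CM m).diagonal (inclGen m (.G i))).symm
        · left
          exact if_neg h
  rcases key with h | h
  · rw [h, pow_zero]
  · rw [h]
    exact g2_pow m _ _

noncomputable def incl (m : ℕ) (hm : Odd m) : CH.Group →* (CM m).Group :=
  CH.toCoxeterSystem.lift ⟨_, incl_liftable m hm⟩

theorem incl_simple (m : ℕ) (hm : Odd m) (s : Gen 1) :
    incl m hm (CH.simple s) = (CM m).simple (inclGen m s) :=
  CH.toCoxeterSystem.lift_apply_simple (incl_liftable m hm) s

theorem incl_range (m : ℕ) (hm : Odd m) : (incl m hm).range = Hs m := by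
  have h1 : Subgroup.closure (Set.range CH.simple) = ⊤ := CH.toCoxeterSystem.subgroup_closure_range_simple
  unfold Hs
  rw [MonoidHom.range_eq_map, ← h1, MonoidHom.map_closure]
  congr 1
  ext g
  constructor
  · rintro ⟨_, ⟨s, rfl⟩, rfl⟩
    rw [incl_simple]
    refine ⟨inclGen m s, ?_, rfl⟩
    cases s with
    | T => exact Or.inl rfl
    | B => exact Or.inr (Or.inl rfl)
    | G i =>
      rcases g2_fin2 i with rfl | rfl
      · exact Or.inr (Or.inr (Or.inl rfl))
      · rw [g2_incl_one]
        exact Or.inr (Or.inr (Or.inr rfl))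
  · rintro ⟨s, hs, rfl⟩
    rcases hs with rfl | rfl | rfl | hs
    · exact ⟨CH.simple .T, ⟨.T, rfl⟩, incl_simple m hm .T⟩
    · exact ⟨CH.simple .B, ⟨.B, rfl⟩, incl_simple m hm .B⟩
    · exact ⟨CH.simple (.G 0), ⟨.G 0, rfl⟩, incl_simple m hm (.G 0)⟩
    · have hs' : s = .G (Fin.last m) := hs
      subst hs'
      refine ⟨CH.simple (.G 1), ⟨.G 1, rfl⟩, ?_⟩
      rw [incl_simple, g2_incl_one]

theorem g2_typ_incl (m : ℕ) (hm : Odd m) (s : Gen 1) : typ m (inclGen m s) = typ 1 s := by
  have hme : ¬ Even m := Nat.not_even_iff_odd.2 hm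
  cases s with
  | T => rfl
  | B => rfl
  | G i =>
    rcases g2_fin2 i with rfl | rfl
    · rw [g2_incl_zero]
      rw [g2_typ_G_even (g2_even0 m), g2_typ_G_even (g2_even0 1)]
    · rw [g2_incl_one]
      rw [g2_typ_G_odd (m := m) (i := Fin.last m) hme, g2_typ_G_odd (m := 1) (i := 1) (by decide)]

theorem phi_incl (m : ℕ) (hm : Odd m) (h : CH.Group) : phi m (incl m hm h) = phiH h := by
  have h1 : (phi m).comp (incl m hm) = phiH := by
    apply CH.toCoxeterSystem.ext_simple
    intro s
    show phi m (incl m hm (CH.simple s)) = phiH (CH.simple s)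
    rw [incl_simple, phi_simple, phiH_simple, g2_typ_incl m hm]
  rw [← h1]
  rfl

theorem g2_refl_congr {a b : V} (hab : a = b) (ha : lor a a = 1) (hb : lor b b = 1) :
    refl a ha = refl b hb := by
  subst hab
  rfl

theorem g2_ev (w : ℝ) (m : ℕ) (s : Gen 1) : ev w m (inclGen m s) = evH w m s := by
  cases s with
  | T => rfl
  | B => rfl
  | G i =>
    rcases g2_fin2 i with rfl | rfl
    · rfl
    · rw [g2_incl_one]
      show vG w m = if (1 : Fin 2) = 0 then vG w 0 else vG w m
      rw [if_neg g2_one_ne]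

theorem rho_incl (m : ℕ) (hm : Odd m) {w : ℝ} (h : RS (CM m) (ev w m)) (hH : RS CH (evH w m))
    (g : CH.Group) : h.rho (incl m hm g) = hH.rho g := by
  have h1 : (h.rho).comp (incl m hm) = hH.rho := by
    apply CH.toCoxeterSystem.ext_simple
    intro s
    show h.rho (incl m hm (CH.simple s)) = hH.rho (CH.simple s)
    rw [incl_simple, h.rho_simple, hH.rho_simple]
    exact g2_refl_congr (g2_ev w m s) _ _
  rw [← h1]
  rfl

/-- `W = K H` -/
theorem exists_H (m : ℕ) (hm : Odd m) (w : (CM m).Group) : ∃ h ∈ Hs m, phi m w = phi m h := by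
  have hme : ¬ Even m := Nat.not_even_iff_odd.2 hm
  have h1 : (Subgroup.map (phi m) (Hs m)).comap (phi m) = ⊤ := by
    have h2 : Subgroup.closure (Set.range (CM m).simple) = ⊤ :=
      (CM m).toCoxeterSystem.subgroup_closure_range_simple
    rw [eq_top_iff, ← h2, Subgroup.closure_le]
    rintro _ ⟨s, rfl⟩
    have h3 : ∀ t ∈ Jset m, typ m s = typ m t →
        (CM m).simple s ∈ (Subgroup.map (phi m) (Hs m)).comap (phi m) := by
      intro t ht hst
      refine ⟨(CM m).simple t, Subgroup.subset_closure ⟨t, ht, rfl⟩, ?_⟩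
      rw [phi_simple, phi_simple, hst]
    cases s with
    | T => exact h3 .T (Or.inl rfl) rfl
    | B => exact h3 .B (Or.inr (Or.inl rfl)) rfl
    | G i =>
      by_cases h : Even i.val
      · refine h3 (.G 0) (Or.inr (Or.inr (Or.inl rfl))) ?_
        rw [g2_typ_G_even h, g2_typ_G_even (g2_even0 m)]
      · refine h3 (.G (Fin.last m)) (Or.inr (Or.inr (Or.inr rfl))) ?_
        rw [g2_typ_G_odd h, g2_typ_G_odd (m := m) (i := Fin.last m) hme]
  have h4 : w ∈ (Subgroup.map (phi m) (Hs m)).comap (phi m) := by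
    rw [h1]
    exact Subgroup.mem_top w
  obtain ⟨h, hh, he⟩ := h4
  exact ⟨h, hh, he.symm⟩

theorem exists_KH (m : ℕ) (hm : Odd m) (w : (CM m).Group) :
    ∃ k ∈ K m, ∃ h ∈ Hs m, w = k * h := by
  obtain ⟨h, hh, he⟩ := exists_H m hm w
  refine ⟨w * h⁻¹, ?_, h, hh, ?_⟩
  · show w * h⁻¹ ∈ (phi m).ker
    rw [MonoidHom.mem_ker, map_mul, map_inv, he, mul_inv_cancel]
  · rw [mul_assoc, inv_mul_cancel, mul_one]

theorem exists_KH' (m : ℕ) (hm : Odd m) (w : (CM m).Group) :
    ∃ k ∈ K m, ∃ h ∈ Hs m, w = h * k := by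
  obtain ⟨h, hh, he⟩ := exists_H m hm w
  refine ⟨h⁻¹ * w, ?_, h, hh, ?_⟩
  · show h⁻¹ * w ∈ (phi m).ker
    rw [MonoidHom.mem_ker, map_mul, map_inv, he, inv_mul_cancel]
  · rw [← mul_assoc, mul_inv_cancel, one_mul]

end CEE
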