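import Pool.Agent.CEE.Y2b
import Pool.Agent.CEE.G2

set_option autoImplicit false

/-!
# [CEE-C4a] The end of `M` is connected: paths near infinity to the four boundary walls
-/

namespace CEE

open Pool.Agent.MP_8db1a4_gt Set Real

/- PROOF NOTES [CEE-C4a].  `w = w1 m`, `(m+3) w = 2π`, `m` odd, `S, E, p, q, t` as in P1, `sinh u = √S`, `cosh u = √(1+S)`.
`pt θ ρ h` is the point with cylindrical coordinates; it is in `H3`.  `lor (pt θ ρ h) (vT w) = cosh ρ (sinh h √(1+S) - cosh h √S) ≤ 0` iff `tanh h ≤ t`; for `h = ± u` (`u = arsinh √S`) equality for `T` resp. `B`; `lor (pt θ ρ h) (vG w i) = q sinh ρ cos (θ - i w) + (-1)^i p t cosh ρ sinh h - p cosh ρ cosh h`.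
(A) For `|h| ≤ u`: `p cosh ρ (cosh h - |t sinh h|) ≥ p cosh ρ / √(1+S)` (`cosh h - tanh u sinh |h| = cosh (u - |h|)/cosh u ≥ 1/cosh u`).
(B) `θ_g = (m + 3/2) w`: for all `0 ≤ i ≤ m`: `cos (θ_g - i w) ≤ cos w` (angles `(m + 3/2 - i) w ∈ [3w/2, 2π - 3w/2]`), and `q cos w < p / √(1+S)`: `cos² w E/(8S(1+S)) < 1/(8S(1+S))`, i.e. `(1+2S)² < E` (`Ev_cos`).  So all side inequalities hold (strictly) at `pt θ_g ρ h`, `|h| ≤ u`, for every `ρ ≥ 0`.
Base point: `pt θ_g ρ 0`, `ρ = max (arcosh R0) ..` with `cosh ρ ≥ R0` and `ρ` so large that `q tanh ρ > p`.. (`q > p`; needed for the walls `G 0`, `G m`).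
Wall `T`: `A = {pt θ_g ρ h | 0 ≤ h ≤ u}` (image of an interval under a continuous map: `IsPreconnected.image`, continuity into `H3` by `B1c.b1c_isInducing`), last point on the wall `T`.  Wall `B`: `-u ≤ h ≤ 0`.
Wall `G m`: `A = {pt θ ρ 0 | θ₁ ≤ θ ≤ θ_g}` with `θ₁ = m w + arccos (p/(q tanh ρ))` (`p/(q tanh ρ) < 1`, and `≥ p/q > cos w`, so `arccos < w < 3w/2`): for `θ` in this interval and all `i`: `cos (θ - i w) ≤ cos (θ - m w) ≤ cos (θ₁ - m w) = p/(q tanh ρ)` (cyclic distance of `θ` to `i w` is at least `θ - m w`, which is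
 `≤ 3w/2 ≤ 2π - θ`).  Equality for `i = m` at `θ₁`.  Wall `G 0`: symmetric: `θ` from `θ_g` up to `2π - arccos (p/(q tanh ρ))`. -/

/-- the point with cylindrical coordinates `θ, ρ, h` -/
noncomputable def cyl (θ ρ h : ℝ) : V :=
  vec (sinh ρ * cos θ) (sinh ρ * sin θ) (cosh ρ * sinh h) (cosh ρ * cosh h)

theorem cyl_mem (θ ρ h : ℝ) : cyl θ ρ h ∈ LCone 3 ∧ lor (cyl θ ρ h) (cyl θ ρ h) = -1 := by
  have h1 : lor (cyl θ ρ h) (cyl θ ρ h) = -1 := by
    unfold cyl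
    rw [lor_eq]
    simp only [vec_0, vec_1, vec_2, vec_3]
    have e1 := cos_sq_add_sin_sq θ
    have e2 := cosh_sq ρ
    have e3 := cosh_sq h
    linear_combination (sinh ρ ^ 2) * e1 - e2 - (cosh ρ ^ 2) * e3
  refine ⟨?_, h1⟩
  show ‖(cyl θ ρ h).1‖ < (cyl θ ρ h).2
  have h2 : 0 ≤ (cyl θ ρ h).2 := by
    show 0 ≤ cosh ρ * cosh h
    exact mul_nonneg (cosh_pos ρ).le (cosh_pos h).le
  have h3 : ‖(cyl θ ρ h).1‖ ^ 2 = (cyl θ ρ h).2 ^ 2 - 1 := by
    unfold lor at h1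
    rw [real_inner_self_eq_norm_sq] at h1
    linarith [sq ((cyl θ ρ h).2)]
  refine lt_of_pow_lt_pow_left₀ 2 h2 ?_
  rw [h3]
  linarith

noncomputable def pt (θ ρ h : ℝ) : H3 := ⟨cyl θ ρ h, (cyl_mem θ ρ h).1, (cyl_mem θ ρ h).2⟩

theorem pt_val (θ ρ h : ℝ) : (pt θ ρ h).val = cyl θ ρ h := rfl

theorem pt_continuous : Continuous (fun a : ℝ × ℝ × ℝ => pt a.1 a.2.1 a.2.2) := by
  rw [(B1c.b1c_isInducing 3).continuous_iff]
  show Continuous fun a : ℝ × ℝ × ℝ => cyl a.1 a.2.1 a.2.2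
  unfold cyl vec
  refine Continuous.prodMk ?_ (by fun_prop)
  refine (PiLp.continuous_toLp 2 _).comp ?_
  rw [continuous_pi_iff]
  intro i
  fin_cases i
  · show Continuous fun a : ℝ × ℝ × ℝ => sinh a.2.1 * cos a.1
    fun_prop
  · show Continuous fun a : ℝ × ℝ × ℝ => sinh a.2.1 * sin a.1
    fun_prop
  · show Continuous fun a : ℝ × ℝ × ℝ => cosh a.2.1 * sinh a.2.2
    fun_prop

theorem exists_pt (x : H3) : ∃ θ ρ h : ℝ, 0 ≤ ρ ∧ x = pt θ ρ h := by
  have hx := x.lor_self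
  rw [lor_eq] at hx
  have hpos : 0 < x.val.2 := B1c.b1c_snd_pos x
  set z : ℂ := ⟨x.val.1 0, x.val.1 1⟩ with hz
  have hn : ‖z‖ ^ 2 = x.val.1 0 ^ 2 + x.val.1 1 ^ 2 := by
    rw [Complex.sq_norm, Complex.normSq_apply]
    ring
  have hs : sinh (arsinh ‖z‖) = ‖z‖ := sinh_arsinh _
  have hc : 0 < cosh (arsinh ‖z‖) := cosh_pos _
  have hc2 := cosh_sq (arsinh ‖z‖)
  rw [hs, hn] at hc2
  have hs2 : sinh (arsinh (x.val.1 2 / cosh (arsinh ‖z‖))) = x.val.1 2 / cosh (arsinh ‖z‖) :=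
    sinh_arsinh _
  have hc3 := cosh_sq (arsinh (x.val.1 2 / cosh (arsinh ‖z‖)))
  rw [hs2] at hc3
  refine ⟨Complex.arg z, arsinh ‖z‖, arsinh (x.val.1 2 / cosh (arsinh ‖z‖)), ?_, ?_⟩
  · rw [arsinh_nonneg_iff]
    exact norm_nonneg z
  · apply Hy.ext'
    rw [pt_val]
    have e0 : x.val.1 0 = sinh (arsinh ‖z‖) * cos (Complex.arg z) := by
      rw [hs, Complex.norm_mul_cos_arg]
    have e1 : x.val.1 1 = sinh (arsinh ‖z‖) * sin (Complex.arg z) := by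
      rw [hs, Complex.norm_mul_sin_arg]
    have e2 : x.val.1 2 = cosh (arsinh ‖z‖) * sinh (arsinh (x.val.1 2 / cosh (arsinh ‖z‖))) := by
      rw [hs2]
      field_simp
    have e3 : x.val.2 = cosh (arsinh ‖z‖) * cosh (arsinh (x.val.1 2 / cosh (arsinh ‖z‖))) := by
      have h1 : 0 ≤ cosh (arsinh ‖z‖) * cosh (arsinh (x.val.1 2 / cosh (arsinh ‖z‖))) :=
        mul_nonneg hc.le (cosh_pos _).le
      refine (pow_left_inj₀ hpos.le h1 two_ne_zero).1 ?_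
      rw [mul_pow, hc3, hc2]
      have h2 : (x.val.1 2 / cosh (arsinh ‖z‖)) ^ 2 * (x.val.1 0 ^ 2 + x.val.1 1 ^ 2 + 1) = x.val.1 2 ^ 2 := by
        rw [← hc2]
        field_simp
      linarith [h2, hx]
    refine Prod.ext ?_ e3
    ext i
    fin_cases i
    · exact e0
    · exact e1
    · exact e2

theorem c4a_cos {α φ : ℝ} (h0 : 0 ≤ α) (h1 : α ≤ φ) (h2 : φ ≤ 2 * π - α) : cos φ ≤ cos α := by
  rcases le_total φ π with h | h
  · exact cos_le_cos_of_nonneg_of_le_pi h0 h h1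
  · rw [← cos_two_pi_sub φ]
    exact cos_le_cos_of_nonneg_of_le_pi h0 (by linarith) (by linarith)

theorem c4a_cu {w : ℝ} (h0 : 0 < w) (h1 : w ≤ 1 / 2) :
    cosh (arsinh (sqrt (Sv w))) = sqrt (1 + Sv w) := by
  rw [cosh_arsinh, sq_sqrt (Sv_pos h0 h1).le]

theorem c4a_G (w θ ρ h : ℝ) (i : ℕ) : lor (cyl θ ρ h) (vG w i) =
    qv w * sinh ρ * cos (θ - i * w) + cosh ρ * (pv w * ((-1) ^ i * (tv w * sinh h) - cosh h)) := by
  unfold cyl vG
  rw [lor_eq, cos_sub]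
  simp only [vec_0, vec_1, vec_2, vec_3]
  ring

theorem c4a_T {w : ℝ} (h0 : 0 < w) (h1 : w ≤ 1 / 2) (θ ρ h : ℝ) : lor (cyl θ ρ h) (vT w) =
    cosh ρ * sinh (h - arsinh (sqrt (Sv w))) := by
  unfold cyl vT
  rw [lor_eq, sinh_sub, c4a_cu h0 h1, sinh_arsinh]
  simp only [vec_0, vec_1, vec_2, vec_3]
  ring

theorem c4a_B {w : ℝ} (h0 : 0 < w) (h1 : w ≤ 1 / 2) (θ ρ h : ℝ) : lor (cyl θ ρ h) (vB w) =
    -(cosh ρ * sinh (h + arsinh (sqrt (Sv w)))) := by
  unfold cyl vB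
  rw [lor_eq, sinh_add, c4a_cu h0 h1, sinh_arsinh]
  simp only [vec_0, vec_1, vec_2, vec_3]
  ring

theorem c4a_A {w : ℝ} (h0 : 0 < w) (h1 : w ≤ 1 / 2) (h : ℝ) (i : ℕ) :
    cosh (arsinh (sqrt (Sv w))) * ((-1) ^ i * (tv w * sinh h) - cosh h) ≤ -1 := by
  have hs : sinh (arsinh (sqrt (Sv w))) = sqrt (Sv w) := sinh_arsinh _
  have hc := c4a_cu h0 h1
  have ht : tv w * cosh (arsinh (sqrt (Sv w))) = sinh (arsinh (sqrt (Sv w))) := by
    rw [hc, hs]
    exact tv_eq h0 h1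
  set u := arsinh (sqrt (Sv w)) with hu
  rcases Nat.even_or_odd i with hi | hi
  · rw [hi.neg_one_pow]
    have e1 := one_le_cosh (u - h)
    rw [cosh_sub] at e1
    have e2 : cosh u * (1 * (tv w * sinh h) - cosh h) = (tv w * cosh u) * sinh h - cosh u * cosh h := by
      ring
    rw [e2, ht]
    linarith
  · rw [hi.neg_one_pow]
    have e1 := one_le_cosh (u + h)
    rw [cosh_add] at e1
    have e2 : cosh u * (-1 * (tv w * sinh h) - cosh h) = -((tv w * cosh u) * sinh h) - cosh u * cosh h := by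
      ring
    rw [e2, ht]
    linarith

theorem c4a_key {w : ℝ} (h0 : 0 < w) (h1 : w ≤ 1 / 2) :
    cosh (arsinh (sqrt (Sv w))) * (qv w * cos w) ≤ pv w := by
  have hS := Sv_pos h0 h1
  have hE := Ev_cos h0 h1
  have hcos := cos_ge h0 h1
  have hEv : Ev w = 8 * Sv w ^ 2 + 8 * Sv w + 1 := rfl
  have hE0 : 0 < Ev w := by
    rw [hEv]
    positivity
  have hE1 : Ev w * cos w ^ 2 ≤ 1 := by
    refine le_of_mul_le_mul_left ?_ hE0
    have e1 : Ev w * (Ev w * cos w ^ 2) = (1 + 2 * Sv w) ^ 2 := by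
      rw [← hE]
      ring
    rw [e1, hEv]
    nlinarith
  have h2 : (cosh (arsinh (sqrt (Sv w))) * (qv w * cos w)) ^ 2 ≤ pv w ^ 2 := by
    rw [c4a_cu h0 h1, mul_pow, mul_pow, sq_sqrt (by linarith), qv_sq h0 h1, pv_sq h0 h1]
    have e2 : (1 + Sv w) * (Ev w / (8 * Sv w * (1 + Sv w)) * cos w ^ 2) =
        (Ev w * cos w ^ 2) / (8 * Sv w) := by
      have : (1 + Sv w) ≠ 0 := by linarith
      field_simp
    rw [e2]
    exact div_le_div_of_nonneg_right hE1 (by linarith)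
  exact (le_abs_self _).trans (abs_le_of_sq_le_sq h2 (pv_pos h0 h1).le)

theorem c4a_pq {w : ℝ} (h0 : 0 < w) (h1 : w ≤ 1 / 2) : pv w < qv w := by
  have hS := Sv_pos h0 h1
  have hEv : Ev w = 8 * Sv w ^ 2 + 8 * Sv w + 1 := rfl
  refine lt_of_pow_lt_pow_left₀ 2 (qv_pos h0 h1).le ?_
  rw [pv_sq h0 h1, qv_sq h0 h1, div_lt_div_iff₀ (by linarith) (by positivity), hEv]
  nlinarith [mul_pos hS hS, mul_pos (mul_pos hS hS) hS]

theorem end_paths {m : ℕ} (hm : 13 ≤ m) (ho : Odd m) (R0 : ℝ) :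
    ∃ x ∈ cham (ev (w1 m) m), ∀ s ∈ Jset m, ∃ A : Set H3, IsPreconnected A ∧
      A ⊆ cham (ev (w1 m) m) ∧ x ∈ A ∧ (∃ y ∈ A, lor y.val (ev (w1 m) m s) = 0) ∧
      ∀ z ∈ A, R0 ≤ z.val.2 := by
  have h0 := w1_pos m
  have h1 := w1_le hm
  have hmul := w1_mul m
  set w := w1 m with hw
  have hS := Sv_pos h0 h1
  have hp := pv_pos h0 h1
  have hq := qv_pos h0 h1
  have hkey := c4a_key h0 h1
  have hcos := cos_ge h0 h1
  set u := arsinh (sqrt (Sv w)) with hu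
  have hu0 : 0 ≤ u := by
    rw [hu, arsinh_nonneg_iff]
    exact sqrt_nonneg _
  have hcu : 1 ≤ cosh u := one_le_cosh u
  have hqc : qv w * cos w ≤ pv w := by
    have h2 : 0 ≤ qv w * cos w := mul_nonneg hq.le (by linarith)
    nlinarith
  have hpq := c4a_pq h0 h1
  -- the choice of rho
  obtain ⟨ρ, hρC, hρ0⟩ : ∃ ρ : ℝ, max ((qv w + pv w) / (qv w - pv w)) (2 * R0) ≤ exp ρ ∧ 0 ≤ ρ :=
    ((tendsto_exp_atTop.eventually_ge_atTop _).and (Filter.eventually_ge_atTop (0 : ℝ))).exists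
  have hρ1 : (qv w + pv w) / (qv w - pv w) ≤ exp ρ := le_trans (le_max_left _ _) hρC
  have hρ2 : 2 * R0 ≤ exp ρ := le_trans (le_max_right _ _) hρC
  have hen : exp (-ρ) ≤ 1 := exp_le_one_iff.2 (by linarith)
  have hep : 0 < exp (-ρ) := exp_pos _
  have hR : R0 ≤ cosh ρ := by
    rw [cosh_eq]
    linarith
  have hch : 0 < cosh ρ := cosh_pos ρ
  have hsc : sinh ρ < cosh ρ := sinh_lt_cosh ρ
  have hps : pv w * cosh ρ ≤ qv w * sinh ρ := by
    rw [div_le_iff₀ (by linarith)] at hρ1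
    rw [cosh_eq, sinh_eq]
    nlinarith
  have hsh : 0 < sinh ρ := by
    have h2 : 0 < pv w * cosh ρ := mul_pos hp hch
    by_contra hcon
    push Not at hcon
    nlinarith
  have hqs : 0 < qv w * sinh ρ := mul_pos hq hsh
  obtain ⟨κ, hκ⟩ : ∃ κ, κ = pv w * cosh ρ / (qv w * sinh ρ) := ⟨_, rfl⟩
  have hκm : κ * (qv w * sinh ρ) = pv w * cosh ρ := by
    rw [hκ]
    field_simp
  have hκ1 : κ ≤ 1 := by
    rw [hκ, div_le_one hqs]
    exact hps
  have hκ0 : cos w ≤ κ := by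
    rw [hκ, le_div_iff₀ hqs]
    have h2 : qv w * cos w * sinh ρ ≤ pv w * sinh ρ := mul_le_mul_of_nonneg_right hqc hsh.le
    have h3 : pv w * sinh ρ ≤ pv w * cosh ρ := mul_le_mul_of_nonneg_left hsc.le hp.le
    linarith
  obtain ⟨α, hα⟩ : ∃ α, α = arccos κ := ⟨_, rfl⟩
  have hα0 : 0 ≤ α := by rw [hα]; exact arccos_nonneg κ
  have hcα : cos α = κ := by rw [hα]; exact cos_arccos (by linarith) hκ1
  have hwpi : w ≤ π := by linarith [pi_gt_three]
  have hαw : α ≤ w := by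
    rw [hα, ← arccos_cos h0.le hwpi]
    exact arccos_le_arccos hκ0
  obtain ⟨θg, hθg⟩ : ∃ θg, θg = (m + 3 / 2) * w := ⟨_, rfl⟩
  have hθg2 : θg = 2 * π - 3 / 2 * w := by
    rw [hθg]
    linarith
  -- points of the chamber
  have hTB : ∀ θ h : ℝ, -u ≤ h → h ≤ u → lor (pt θ ρ h).val (vT w) ≤ 0 ∧ lor (pt θ ρ h).val (vB w) ≤ 0 := by
    intro θ h ha hb
    rw [pt_val, c4a_T h0 h1, c4a_B h0 h1, ← hu]
    have e1 : sinh (h - u) ≤ 0 := by
      rw [← sinh_zero]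
      exact sinh_le_sinh.2 (by linarith)
    have e2 : 0 ≤ sinh (h + u) := by
      rw [← sinh_zero]
      exact sinh_le_sinh.2 (by linarith)
    constructor
    · nlinarith
    · nlinarith
  have hi : ∀ i : Fin (m + 1), (0 : ℝ) ≤ i.val ∧ (i.val : ℝ) ≤ m := fun i =>
    ⟨Nat.cast_nonneg _, by exact_mod_cast Nat.lt_succ_iff.1 i.isLt⟩
  have ch1 : ∀ h : ℝ, -u ≤ h → h ≤ u → pt θg ρ h ∈ cham (ev w m) := by
    intro h ha hb s
    cases s with
    | T => exact (hTB θg h ha hb).1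
    | B => exact (hTB θg h ha hb).2
    | G i =>
      show lor (pt θg ρ h).val (vG w i.val) ≤ 0
      rw [pt_val, c4a_G]
      obtain ⟨i0, im⟩ := hi i
      have e1 : cos (θg - i.val * w) ≤ cos w := by
        refine c4a_cos h0.le ?_ ?_
        · rw [hθg]
          nlinarith
        · rw [hθg2]
          nlinarith
      have e2 := c4a_A h0 h1 h i.val
      rw [← hu] at e2
      have e3 : 0 < cosh u := by linarith
      have e4 : cosh u * (qv w * sinh ρ * cos (θg - i.val * w) +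
          cosh ρ * (pv w * ((-1) ^ i.val * (tv w * sinh h) - cosh h))) ≤ 0 := by
        have f1 : cosh u * (qv w * sinh ρ * cos (θg - i.val * w)) ≤ cosh u * (qv w * cos w) * sinh ρ := by
          have : cosh u * (qv w * sinh ρ * cos (θg - i.val * w)) =
            (cosh u * qv w * sinh ρ) * cos (θg - i.val * w) := by ring
          rw [this]
          have h2 : 0 ≤ cosh u * qv w * sinh ρ := mul_nonneg (mul_nonneg e3.le hq.le) hsh.le
          nlinarith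
        have f2 : cosh u * (qv w * cos w) * sinh ρ ≤ pv w * cosh ρ := by
          have g1 : cosh u * (qv w * cos w) * sinh ρ ≤ pv w * sinh ρ := mul_le_mul_of_nonneg_right hkey hsh.le
          have g2 : pv w * sinh ρ ≤ pv w * cosh ρ := mul_le_mul_of_nonneg_left hsc.le hp.le
          linarith
        have f3 : cosh u * (cosh ρ * (pv w * ((-1) ^ i.val * (tv w * sinh h) - cosh h))) ≤
            -(pv w * cosh ρ) := by
          have : cosh u * (cosh ρ * (pv w * ((-1) ^ i.val * (tv w * sinh h) - cosh h))) =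
            (pv w * cosh ρ) * (cosh u * ((-1) ^ i.val * (tv w * sinh h) - cosh h)) := by ring
          rw [this]
          have h2 : 0 ≤ pv w * cosh ρ := mul_nonneg hp.le hch.le
          nlinarith
        rw [mul_add]
        linarith
      by_contra hcon
      push Not at hcon
      have := mul_pos e3 hcon
      linarith
  have hG0 : ∀ (θ : ℝ) (i : ℕ), lor (pt θ ρ 0).val (vG w i) = (qv w * sinh ρ) * (cos (θ - i * w) - κ) := by
    intro θ i
    rw [pt_val, c4a_G, sinh_zero, cosh_zero]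
    linear_combination hκm
  have ch2 : ∀ θ : ℝ, α ≤ θ - m * w → θ ≤ 2 * π - α → pt θ ρ 0 ∈ cham (ev w m) := by
    intro θ ha hb s
    cases s with
    | T => exact (hTB θ 0 (by linarith) hu0).1
    | B => exact (hTB θ 0 (by linarith) hu0).2
    | G i =>
      show lor (pt θ ρ 0).val (vG w i.val) ≤ 0
      rw [hG0]
      obtain ⟨i0, im⟩ := hi i
      have e1 : cos (θ - i.val * w) ≤ cos α := by
        refine c4a_cos hα0 ?_ ?_
        · nlinarith
        · nlinarith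
      rw [hcα] at e1
      nlinarith
  have hz : ∀ θ h : ℝ, R0 ≤ (pt θ ρ h).val.2 := by
    intro θ h
    show R0 ≤ cosh ρ * cosh h
    have := one_le_cosh h
    nlinarith
  have hθgm : α ≤ θg - m * w := by
    rw [hθg]
    linarith
  have hθgα : θg ≤ 2 * π - α := by linarith
  have hch0 : Continuous fun h : ℝ => pt θg ρ h :=
    pt_continuous.comp (continuous_const.prodMk (continuous_const.prodMk continuous_id))
  have hcθ : Continuous fun θ : ℝ => pt θ ρ 0 :=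
    pt_continuous.comp (continuous_id.prodMk (continuous_const.prodMk continuous_const))
  refine ⟨pt θg ρ 0, ch2 θg hθgm hθgα, ?_⟩
  intro s hs
  have hs' : s = Gen.T ∨ s = Gen.B ∨ s = Gen.G 0 ∨ s = Gen.G (Fin.last m) := hs
  rcases hs' with rfl | rfl | rfl | rfl
  · refine ⟨(fun h : ℝ => pt θg ρ h) '' Icc 0 u, isPreconnected_Icc.image _ hch0.continuousOn, ?_,
      ⟨0, ⟨le_rfl, hu0⟩, rfl⟩, ⟨_, ⟨u, ⟨hu0, le_rfl⟩, rfl⟩, ?_⟩, ?_⟩
    · rintro _ ⟨h, hh, rfl⟩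
      exact ch1 h (by linarith [hh.1]) hh.2
    · show lor (pt θg ρ u).val (vT w) = 0
      rw [pt_val, c4a_T h0 h1, ← hu, sub_self, sinh_zero, mul_zero]
    · rintro _ ⟨h, hh, rfl⟩
      exact hz θg h
  · refine ⟨(fun h : ℝ => pt θg ρ h) '' Icc (-u) 0, isPreconnected_Icc.image _ hch0.continuousOn, ?_,
      ⟨0, ⟨by linarith, le_rfl⟩, rfl⟩, ⟨_, ⟨-u, ⟨le_rfl, by linarith⟩, rfl⟩, ?_⟩, ?_⟩
    · rintro _ ⟨h, hh, rfl⟩
      exact ch1 h hh.1 (by linarith [hh.2])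
    · show lor (pt θg ρ (-u)).val (vB w) = 0
      rw [pt_val, c4a_B h0 h1, ← hu, neg_add_cancel, sinh_zero, mul_zero, neg_zero]
    · rintro _ ⟨h, hh, rfl⟩
      exact hz θg h
  · refine ⟨(fun θ : ℝ => pt θ ρ 0) '' Icc θg (2 * π - α), isPreconnected_Icc.image _ hcθ.continuousOn, ?_,
      ⟨θg, ⟨le_rfl, hθgα⟩, rfl⟩, ⟨_, ⟨2 * π - α, ⟨hθgα, le_rfl⟩, rfl⟩, ?_⟩, ?_⟩
    · rintro _ ⟨θ, hθ, rfl⟩
      exact ch2 θ (by linarith [hθ.1]) hθ.2
    · show lor (pt (2 * π - α) ρ 0).val (vG w (0 : Fin (m + 1)).val) = 0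
      rw [hG0, Fin.val_zero, Nat.cast_zero, zero_mul, sub_zero, cos_two_pi_sub, hcα, sub_self, mul_zero]
    · rintro _ ⟨θ, hθ, rfl⟩
      exact hz θ 0
  · refine ⟨(fun θ : ℝ => pt θ ρ 0) '' Icc (m * w + α) θg, isPreconnected_Icc.image _ hcθ.continuousOn, ?_,
      ⟨θg, ⟨by linarith, le_rfl⟩, rfl⟩, ⟨_, ⟨m * w + α, ⟨le_rfl, by linarith⟩, rfl⟩, ?_⟩, ?_⟩
    · rintro _ ⟨θ, hθ, rfl⟩
      exact ch2 θ (by linarith [hθ.1]) (by linarith [hθ.2])
    · show lor (pt (m * w + α) ρ 0).val (vG w (Fin.last m).val) = 0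
      rw [hG0, Fin.val_last, add_sub_cancel_left, hcα, sub_self, mul_zero]
    · rintro _ ⟨θ, hθ, rfl⟩
      exact hz θ 0

end CEE
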