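import Pool.Agent.CEE.C3b
import Pool.Agent.CEE.C4a

set_option autoImplicit false

/-!
# [CEE-C4b] The transported class is trivial on the boundary group
-/

namespace CEE

open Pool.Agent.MP_8db1a4_gt Set Real

/- PROOF NOTES [CEE-C4b].
`mu_mem`: `R` from `Im_bounded`; `end_paths` with `R0 = R + 1`: base point `x`.  Let `U = {z | R + 1 ≤ (fold₁ z).val.2} ⊆ (Im)ᶜ`.  For `s ∈ Jset m`: `B_s = A ∪ ρ₁(s) A` is preconnected (the point `y` on the wall is fixed by `ρ₁(s)`), contains `x` and `ρ₁(s) x`, and `B_s ⊆ U` (`fold_of_mem`, `fold_smul`).  By `const_of_preconn` (with the last clause of `Rel`)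
 `E'` is constant on `ρ₁(g) B_s` for every `g` (`U` is invariant: `fold_smul`).  So `E' (ρ₁(g s) x) = E' (ρ₁(g) x)` for all `g` and `s ∈ Jset m`, and by induction (`closure_induction`) `E' (ρ₁(h) x) = E' x` for `h ∈ Hs m`.  For `k ∈ K ∩ Hs`: `mu k = E' (ρ₁(k) x) * E' x = 1`.
-/

theorem mu_mem {m : ℕ} (hm : 13 ≤ m) (ho : Odd m) {L : ℝ} {F : H3 → H3} (hF : LipF hm L F)
    (l mu : K m →* ℤˣ) (h : Rel hm L F l mu) : mu ∈ Lam m := by
  obtain ⟨E, E', δ, hδ, -, hE', -, hout⟩ := h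
  obtain ⟨R, hR⟩ := Im_bounded hm hF
  obtain ⟨x, hx, hpath⟩ := end_paths hm ho (R + 1)
  have hg : ∀ z ∈ {z : H3 | R + 1 ≤ ((RS1 hm).fold z).val.2}, ∀ z', dist z z' ≤ δ → E' z = E' z' := by
    intro z hz z' hd
    refine hout z z' hd fun hzI => ?_
    have h1 := hR z hzI
    have h2 : R + 1 ≤ ((RS1 hm).fold z).val.2 := hz
    linarith
  have hcont : ∀ g : (CM m).Group, Continuous fun z : H3 => (RS1 hm).rho g • z := fun g =>
    (LipschitzWith.mk_one fun z z' => (dist_smul_smul _ z z').le).continuous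
  have hconst : ∀ (g : (CM m).Group) (A : Set H3), IsPreconnected A → A ⊆ cham (ev (w1 m) m) →
      (∀ z ∈ A, R + 1 ≤ z.val.2) → ∀ a ∈ A, ∀ b ∈ A,
      E' ((RS1 hm).rho g • a) = E' ((RS1 hm).rho g • b) := by
    intro g A hA hAc hAR a ha b hb
    refine const_of_preconn {z : H3 | R + 1 ≤ ((RS1 hm).fold z).val.2} E' δ hδ hg
      ((fun z => (RS1 hm).rho g • z) '' A) (hA.image _ (hcont g).continuousOn) ?_ _ ⟨a, ha, rfl⟩ _ ⟨b, hb, rfl⟩
    rintro _ ⟨z, hz, rfl⟩
    show R + 1 ≤ ((RS1 hm).fold ((RS1 hm).rho g • z)).val.2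
    rw [(RS1 hm).fold_smul, (RS1 hm).fold_of_mem z (hAc hz)]
    exact hAR z hz
  have hstep : ∀ s ∈ Jset m, ∀ g : (CM m).Group,
      E' ((RS1 hm).rho (g * (CM m).simple s) • x) = E' ((RS1 hm).rho g • x) := by
    intro s hs g
    obtain ⟨A, hA, hAc, hxA, ⟨y, hyA, hy0⟩, hAR⟩ := hpath s hs
    have hfix : (RS1 hm).rho ((CM m).simple s) • y = y := by
      apply Hy.ext'
      rw [smul_val, (RS1 hm).rho_simple_apply, hy0, mul_zero, zero_smul, sub_zero]
    rw [hconst (g * (CM m).simple s) A hA hAc hAR x hxA y hyA, hconst g A hA hAc hAR x hxA y hyA,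
      map_mul, mul_smul, hfix]
  have hH : ∀ h ∈ Hs m, ∀ g : (CM m).Group,
      E' ((RS1 hm).rho (g * h) • x) = E' ((RS1 hm).rho g • x) := by
    intro h hh
    unfold Hs at hh
    induction hh using Subgroup.closure_induction with
    | mem y hy =>
      obtain ⟨s, hs, rfl⟩ := hy
      exact hstep s hs
    | one => intro g; rw [mul_one]
    | mul a b _ _ iha ihb => intro g; rw [← mul_assoc, ihb, iha]
    | inv a _ iha =>
      intro g
      have h1 := iha (g * a⁻¹)
      rw [inv_mul_cancel_right] at h1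
      exact h1.symm
  intro k hk
  have h1 := hH k hk 1
  rw [one_mul, hE' k x, map_one, one_smul] at h1
  exact mul_eq_right.1 h1

end CEE
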