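import Pool.Agent.CEE.C3b

set_option autoImplicit false

/-!
# [CEE-C4c] The transported class determines the class
-/

namespace CEE

open Pool.Agent.MP_8db1a4_gt Set Real

/- PROOF NOTES [CEE-C4c].
`rel_inj`: let `δ = min` of the two `δ`'s.  `G z = E'₁ z * E'₂ z` satisfies `G (ρ₁(k) z) = G z` (`mu` twice).  For `y, y' ∈ Y0` with `dist y y' ≤ δ / L`: `d1 (F y) (F y') ≤ δ`; `z = F y`, `z' = ρ₁(k) F y'` with `dist z z' ≤ δ`; third clause for both: `E'_i z * E'_i z' = E_i y * E_i y'`; multiply: `G z * G z' = (E₁ E₂) y * (E₁ E₂) y'`, `G z' = G (F y')`.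
 So `y ↦ E₁ y * E₂ y * G (F y)` is constant on `Y0` (`const_of_close`).  `G (F (ρ₀(k) y)) = G (F y)` since `d1 (F (ρ₀(k) y)) (F y) ≤ L d0 = 0` (`qd_eq_zero`).  Compare `y` and `ρ₀(k) y`: `l₁ k * l₂ k = 1`.
-/

theorem c4c_ne {m : ℕ} (hm : 13 ≤ m) : (Y0 hm).Nonempty :=
  ⟨O, Yset_cham (RS0 hm) ex0 (ex0_anti hm) (O_mem_D0 hm)⟩

theorem rel_inj {m : ℕ} (hm : 13 ≤ m) {L : ℝ} {F : H3 → H3} (hF : LipF hm L F)
    (l₁ l₂ mu : K m →* ℤˣ) (h₁ : Rel hm L F l₁ mu) (h₂ : Rel hm L F l₂ mu) : l₁ = l₂ := by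
  obtain ⟨E₁, E'₁, δ₁, hδ₁, a₁, b₁, c₁, -⟩ := h₁
  obtain ⟨E₂, E'₂, δ₂, hδ₂, a₂, b₂, c₂, -⟩ := h₂
  have hL := hF.one_le
  have hL0 : (0 : ℝ) < L := by linarith
  have hδ : 0 < min δ₁ δ₂ := lt_min hδ₁ hδ₂
  have hsq : ∀ u : ℤˣ, u * u = 1 := Int.units_mul_self
  -- the function on `Y0`
  have hconst := const_of_close (Y0 hm) (Yset_convex _ _)
    (fun y => E₁ y * E₂ y * (E'₁ (F y) * E'₂ (F y))) (min δ₁ δ₂ / L) (div_pos hδ hL0) (by
      intro y hy y' hy' hd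
      have e1 : d1 hm (F y) (F y') ≤ min δ₁ δ₂ := by
        refine (hF.upper y hy y' hy').trans ?_
        have e2 : d0 hm y y' ≤ min δ₁ δ₂ / L := (qd_le_dist _ _ _ _).trans hd
        calc L * d0 hm y y' ≤ L * (min δ₁ δ₂ / L) := mul_le_mul_of_nonneg_left e2 hL0.le
          _ = min δ₁ δ₂ := by field_simp
      obtain ⟨k, hk, hk2⟩ := qd_exists (RS1 hm) (K m) (F y) (F y')
      have e3 : dist (F y) ((RS1 hm).rho k • F y') ≤ min δ₁ δ₂ := by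
        rw [← hk2]
        exact e1
      have e4 : d1 hm (F y) (F y) = 0 := (qd_eq_zero _ _ _ _).2 ⟨1, one_mem _, by rw [map_one, one_smul]⟩
      have e5 : d1 hm ((RS1 hm).rho k • F y') (F y') = 0 := (qd_eq_zero _ _ _ _).2 ⟨k, hk, rfl⟩
      have e6 : min δ₁ δ₂ / L ≤ min δ₁ δ₂ := div_le_self hδ.le hL
      have e7 : min δ₁ δ₂ ≤ L * min δ₁ δ₂ := le_mul_of_one_le_left hδ.le hL
      have e8 : dist y y' ≤ L * δ₁ :=
        (hd.trans (e6.trans e7)).trans (mul_le_mul_of_nonneg_left (min_le_left _ _) hL0.le)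
      have e9 : dist y y' ≤ L * δ₂ :=
        (hd.trans (e6.trans e7)).trans (mul_le_mul_of_nonneg_left (min_le_right _ _) hL0.le)
      have f1 := c₁ _ _ (e3.trans (min_le_left _ _)) y hy y' hy' e4 e5 e8
      have f2 := c₂ _ _ (e3.trans (min_le_right _ _)) y hy y' hy' e4 e5 e9
      have g1 := b₁ ⟨k, hk⟩ (F y')
      have g2 := b₂ ⟨k, hk⟩ (F y')
      rw [show (RS1 hm).rho k • F y' = (RS1 hm).rho ((⟨k, hk⟩ : K m) : (CM m).Group) • F y' from rfl, g1] at f1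
      rw [show (RS1 hm).rho k • F y' = (RS1 hm).rho ((⟨k, hk⟩ : K m) : (CM m).Group) • F y' from rfl, g2] at f2
      show E₁ y * E₂ y * (E'₁ (F y) * E'₂ (F y)) = E₁ y' * E₂ y' * (E'₁ (F y') * E'₂ (F y'))
      generalize mu ⟨k, hk⟩ = u at f1 f2
      generalize E'₁ (F y) = p₁ at f1 ⊢
      generalize E'₂ (F y) = p₂ at f2 ⊢
      generalize E'₁ (F y') = p₁' at f1 ⊢
      generalize E'₂ (F y') = p₂' at f2 ⊢
      generalize E₁ y = q₁ at f1 ⊢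
      generalize E₂ y = q₂ at f2 ⊢
      generalize E₁ y' = q₁' at f1 ⊢
      generalize E₂ y' = q₂' at f2 ⊢
      revert f1 f2
      revert u p₁ p₂ p₁' p₂' q₁ q₂ q₁' q₂'
      decide)
  ext1 k
  obtain ⟨y, hy⟩ : (Y0 hm).Nonempty := c4c_ne hm
  have hy' : (RS0 hm).rho (k : (CM m).Group) • y ∈ Y0 hm := Yset_smul _ _ _ hy
  have h1 := hconst _ hy' _ hy
  have h2 : d0 hm ((RS0 hm).rho (k : (CM m).Group) • y) y = 0 := (qd_eq_zero _ _ _ _).2 ⟨k, k.2, rfl⟩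
  have h3 : d1 hm (F ((RS0 hm).rho (k : (CM m).Group) • y)) (F y) = 0 := by
    have h4 := hF.upper _ hy' _ hy
    rw [h2, mul_zero] at h4
    exact le_antisymm h4 (qd_nonneg _ _ _ _)
  obtain ⟨k', hk', hk2⟩ := (qd_eq_zero _ _ _ _).1 h3
  have g1 := b₁ ⟨k', hk'⟩ (F y)
  have g2 := b₂ ⟨k', hk'⟩ (F y)
  have g3 := a₁ k y hy
  have g4 := a₂ k y hy
  rw [hk2, g3, g4] at h1
  rw [show (RS1 hm).rho k' • F y = (RS1 hm).rho ((⟨k', hk'⟩ : K m) : (CM m).Group) • F y from rfl, g1, g2] at h1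
  generalize mu ⟨k', hk'⟩ = u at h1
  generalize E'₁ (F y) = p₁ at h1
  generalize E'₂ (F y) = p₂ at h1
  generalize E₁ y = q₁ at h1
  generalize E₂ y = q₂ at h1
  generalize l₁ k = a at h1 ⊢
  generalize l₂ k = b at h1 ⊢
  revert h1
  revert u p₁ p₂ q₁ q₂ a b
  decide

end CEE
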