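import Pool.Agent.CEE.C4b
import Pool.Agent.CEE.C4c

set_option autoImplicit false

/-!
# [CEE-C4d] All classes are supported in the image of the core
-/

namespace CEE

open Pool.Agent.MP_8db1a4_gt Set Real

/- PROOF NOTES [CEE-C4d].
`rel_surj`: choose for each `l ∈ Lam` some `mu(l) ∈ Lam` (`exists_rel`, `mu_mem`); this map `Lam → Lam` is injective (`rel_inj`) and `Lam m` is finite (`finite_hom`), so surjective (`Finite.injective_iff_surjective`).
`meets`: `kt_chi`: `mu ∈ Lam` with `mu k_t = -1`; `rel_surj`.  `E' (ρ₁(k_t) x) = - E' x`.  If no point between `x` and `ρ₁(k_t) x` is in `Im` then `E'` is constant on this segment (it is `HConvex`; or subdivide the geodesic of `b1b_geod` into steps `≤ δ`, last clause of `Rel`): contradiction. -/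

theorem rel_surj {m : ℕ} (hm : 13 ≤ m) (ho : Odd m) {L : ℝ} {F : H3 → H3} (hF : LipF hm L F)
    (mu : K m →* ℤˣ) (hmu : mu ∈ Lam m) : ∃ l : K m →* ℤˣ, Rel hm L F l mu := by
  have h1 : ∀ l : Lam m, ∃ mu : Lam m, Rel hm L F l.1 mu.1 := by
    intro l
    obtain ⟨mu, h⟩ := exists_rel hm ho hF l.1 l.2
    exact ⟨⟨mu, mu_mem hm ho hF l.1 mu h⟩, h⟩
  choose f hf using h1
  have hinj : Function.Injective f := by
    intro l l' h
    apply Subtype.ext
    have h2 := hf l
    have h3 := hf l'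
    rw [← h] at h3
    exact rel_inj hm hF _ _ _ h2 h3
  have hsurj := Finite.injective_iff_surjective.1 hinj
  obtain ⟨l, hl⟩ := hsurj ⟨mu, hmu⟩
  refine ⟨l.1, ?_⟩
  have h2 := hf l
  rw [hl] at h2
  exact h2

/-- every path from `x` to `k_t x` meets the image of the core -/
theorem meets {m : ℕ} (hm : 13 ≤ m) (ho : Odd m) {L : ℝ} {F : H3 → H3} (hF : LipF hm L F)
    (t : ℕ) (ht : t + 2 ≤ m) (x : H3) :
    ∃ z ∈ Im hm F, dist x z + dist z ((RS1 hm).rho (kt m t ht) • x) =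
      dist x ((RS1 hm).rho (kt m t ht) • x) := by
  obtain ⟨mu, hmu, hmu1⟩ := kt_chi m t ht (by omega)
  obtain ⟨l, E, E', δ, hδ, -, hE', -, hc⟩ := rel_surj hm ho hF mu hmu
  by_contra hcon
  push Not at hcon
  obtain ⟨γ, h0, h1, hγ⟩ := b1b_geod x ((RS1 hm).rho (kt m t ht) • x)
  have hD : 0 ≤ dist x ((RS1 hm).rho (kt m t ht) • x) := dist_nonneg
  have h0m : (0 : ℝ) ∈ Icc 0 (dist x ((RS1 hm).rho (kt m t ht) • x)) := ⟨le_rfl, hD⟩
  have h1m : dist x ((RS1 hm).rho (kt m t ht) • x) ∈ Icc 0 (dist x ((RS1 hm).rho (kt m t ht) • x)) := ⟨hD, le_rfl⟩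
  have hnot : ∀ s ∈ Icc 0 (dist x ((RS1 hm).rho (kt m t ht) • x)), γ s ∉ Im hm F := by
    intro s hs hin
    apply hcon (γ s) hin
    have e1 := hγ 0 h0m s hs
    have e2 := hγ s hs _ h1m
    rw [h0] at e1
    rw [h1] at e2
    rw [e1, e2, zero_sub, abs_neg, abs_of_nonneg hs.1, abs_of_nonpos (by linarith [hs.2])]
    ring
  have hconst := c1a_loc (A := Icc 0 (dist x ((RS1 hm).rho (kt m t ht) • x))) isPreconnected_Icc (fun s => E' (γ s)) (by
    intro s hs
    refine ⟨δ, hδ, fun u hu hd => ?_⟩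
    refine hc _ _ ?_ (hnot s hs)
    rw [hγ s hs u hu, ← Real.dist_eq]
    exact hd.le)
  have h2 := hconst 0 h0m _ h1m
  have h3 : E' x = E' ((RS1 hm).rho (kt m t ht) • x) := by
    have h4 : E' (γ 0) = E' (γ (dist x ((RS1 hm).rho (kt m t ht) • x))) := h2
    rwa [h0, h1] at h4
  have h4 := hE' ⟨kt m t ht, kt_mem m t ht⟩ x
  rw [hmu1] at h4
  have h5 : E' x = -1 * E' x := h3.trans h4
  revert h5
  generalize E' x = u
  revert u
  decide

end CEE
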