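import Pool.Agent.CEE.T4b

set_option autoImplicit false

/-!
# [CEE-D1a] The distance of the quotients (generic part)
-/

namespace CEE

open Pool.Agent.MP_8db1a4_gt Set Real

section

variable {ι : Type} [Finite ι] {M : CoxeterMatrix ι} {e : ι → V}

/-- the quotient (pseudo)distance -/
noncomputable def qd (h : RS M e) (N : Subgroup M.Group) (x y : H3) : ℝ :=
  ⨅ k : N, dist x (h.rho k • y)

/- PROOF NOTES [CEE-D1a].
`qd_exists`: by `RS.finite_orbit` only finitely many `k` have `dist x (ρ(k) y) ≤ dist x y + 1`; take the minimum; `ciInf` is attained (`le_antisymm`, `ciInf_le` with `BddBelow` by `0`, `le_ciInf`).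
`qd_symm`: `dist x (ρ(k) y) = dist y (ρ(k⁻¹) x)`.  `qd_triangle`: with minimisers `k, l`: `dist x (ρ(k l) z) ≤ dist x (ρ(k) y) + dist (ρ(k) y) (ρ(k) ρ(l) z)`.
`qd_smul_left/right`: for `k ∈ N`: reindex by `Equiv.mulLeft`/`mulRight`; `qd_conj` (`N` normal, any `w`): `qd (ρ(w) x) (ρ(w) y) = qd x y` (reindex by conjugation).
`fold_le_qd`: `RS.fold_dist`, `RS.fold_smul`. -/

theorem d1a_inv (h : RS M e) (w : M.Group) (x : H3) : h.rho w⁻¹ • (h.rho w • x) = x := by
  rw [← mul_smul, ← map_mul, inv_mul_cancel, map_one, one_smul]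

theorem d1a_inv' (h : RS M e) (w : M.Group) (x : H3) : h.rho w • (h.rho w⁻¹ • x) = x := by
  rw [← mul_smul, ← map_mul, mul_inv_cancel, map_one, one_smul]

theorem d1a_le (h : RS M e) (N : Subgroup M.Group) (x y : H3) (k : M.Group) (hk : k ∈ N) :
    qd h N x y ≤ dist x (h.rho k • y) := by
  have hb : BddBelow (Set.range fun k : N => dist x (h.rho k • y)) :=
    ⟨0, by rintro _ ⟨k, rfl⟩; exact dist_nonneg⟩
  exact ciInf_le hb (⟨k, hk⟩ : N)

theorem d1a_ge (h : RS M e) (N : Subgroup M.Group) (x y : H3) (r : ℝ)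
    (hr : ∀ k ∈ N, r ≤ dist x (h.rho k • y)) : r ≤ qd h N x y :=
  le_ciInf fun k : N => hr k k.2

theorem qd_exists (h : RS M e) (N : Subgroup M.Group) (x y : H3) :
    ∃ k ∈ N, qd h N x y = dist x (h.rho k • y) := by
  have hfin := h.finite_orbit x y (dist x y)
  have hf : {k : M.Group | k ∈ N ∧ dist x (h.rho k • y) ≤ dist x y}.Finite :=
    hfin.subset fun k hk => hk.2
  have hne : {k : M.Group | k ∈ N ∧ dist x (h.rho k • y) ≤ dist x y}.Nonempty :=
    ⟨1, N.one_mem, by rw [map_one, one_smul]⟩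
  obtain ⟨k, hk, hmin⟩ := Set.exists_min_image _ (fun k => dist x (h.rho k • y)) hf hne
  refine ⟨k, hk.1, le_antisymm (d1a_le h N x y k hk.1) (d1a_ge h N x y _ fun l hl => ?_)⟩
  by_cases hd : dist x (h.rho l • y) ≤ dist x y
  · exact hmin l ⟨hl, hd⟩
  · exact hk.2.trans (not_le.mp hd).le

theorem qd_le (h : RS M e) (N : Subgroup M.Group) (x y : H3) (k : M.Group) (hk : k ∈ N) :
    qd h N x y ≤ dist x (h.rho k • y) := by
  exact d1a_le h N x y k hk

theorem qd_le_dist (h : RS M e) (N : Subgroup M.Group) (x y : H3) : qd h N x y ≤ dist x y := by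
  have h1 := d1a_le h N x y 1 N.one_mem
  rwa [map_one, one_smul] at h1

theorem qd_nonneg (h : RS M e) (N : Subgroup M.Group) (x y : H3) : 0 ≤ qd h N x y := by
  exact d1a_ge h N x y 0 fun k _ => dist_nonneg

theorem d1a_symm (h : RS M e) (N : Subgroup M.Group) (x y : H3) : qd h N x y ≤ qd h N y x := by
  refine d1a_ge h N y x _ fun k hk => ?_
  have h1 := d1a_le h N x y k⁻¹ (N.inv_mem hk)
  have h2 : dist x (h.rho k⁻¹ • y) = dist y (h.rho k • x) := by
    rw [← dist_smul_smul (h.rho k) x, d1a_inv', dist_comm]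
  rwa [h2] at h1

theorem qd_symm (h : RS M e) (N : Subgroup M.Group) (x y : H3) : qd h N x y = qd h N y x := by
  exact le_antisymm (d1a_symm h N x y) (d1a_symm h N y x)

theorem qd_triangle (h : RS M e) (N : Subgroup M.Group) (x y z : H3) :
    qd h N x z ≤ qd h N x y + qd h N y z := by
  obtain ⟨k, hk, ek⟩ := qd_exists h N x y
  obtain ⟨l, hl, el⟩ := qd_exists h N y z
  rw [ek, el]
  refine (d1a_le h N x z (k * l) (N.mul_mem hk hl)).trans ?_
  rw [map_mul, mul_smul]
  refine (dist_triangle _ (h.rho k • y) _).trans ?_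
  rw [dist_smul_smul]

theorem d1a_right (h : RS M e) (N : Subgroup M.Group) (x y : H3) (k : M.Group) (hk : k ∈ N) :
    qd h N x y ≤ qd h N x (h.rho k • y) := by
  refine d1a_ge h N x _ _ fun l hl => ?_
  have h1 := d1a_le h N x y (l * k) (N.mul_mem hl hk)
  rwa [map_mul, mul_smul] at h1

theorem d1a_right' (h : RS M e) (N : Subgroup M.Group) (x y : H3) (k : M.Group) (hk : k ∈ N) :
    qd h N x (h.rho k • y) = qd h N x y := by
  refine le_antisymm ?_ (d1a_right h N x y k hk)
  have h1 := d1a_right h N x (h.rho k • y) k⁻¹ (N.inv_mem hk)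
  rwa [d1a_inv] at h1

theorem qd_smul_left (h : RS M e) (N : Subgroup M.Group) (x y : H3) (k : M.Group) (hk : k ∈ N) :
    qd h N (h.rho k • x) y = qd h N x y := by
  rw [qd_symm, d1a_right' h N y x k hk, qd_symm]

theorem qd_smul_right (h : RS M e) (N : Subgroup M.Group) (x y : H3) (k : M.Group) (hk : k ∈ N) :
    qd h N x (h.rho k • y) = qd h N x y := by
  exact d1a_right' h N x y k hk

theorem d1a_conj (h : RS M e) (N : Subgroup M.Group) [N.Normal] (x y : H3) (w : M.Group) :
    qd h N (h.rho w • x) (h.rho w • y) ≤ qd h N x y := by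
  refine d1a_ge h N x y _ fun k hk => ?_
  have hn : N.Normal := inferInstance
  have h1 := d1a_le h N (h.rho w • x) (h.rho w • y) (w * k * w⁻¹) (hn.conj_mem k hk w)
  rw [map_mul, map_mul, mul_smul, mul_smul, d1a_inv, dist_smul_smul] at h1
  exact h1

theorem qd_conj (h : RS M e) (N : Subgroup M.Group) [N.Normal] (x y : H3) (w : M.Group) :
    qd h N (h.rho w • x) (h.rho w • y) = qd h N x y := by
  refine le_antisymm (d1a_conj h N x y w) ?_
  have h1 := d1a_conj h N (h.rho w • x) (h.rho w • y) w⁻¹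
  rwa [d1a_inv, d1a_inv] at h1

theorem fold_le_qd (h : RS M e) (N : Subgroup M.Group) (x y : H3) :
    dist (h.fold x) (h.fold y) ≤ qd h N x y := by
  refine d1a_ge h N x y _ fun k _ => ?_
  have h1 := h.fold_dist x (h.rho k • y)
  rwa [h.fold_smul] at h1

end

end CEE
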