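import Pool.Agent.MP_8db1a4_gt.HyMetric
import Pool.Agent.MP_8db1a4_gt.HyBasic
import Mathlib

set_option autoImplicit false

/-!
# MP_cee170_gt: the definitions used by the final statement

Hyperbolic space `HSp = Hy 3` (hyperboloid model), its isometries, hyperbolic 3-manifolds `HSp / Γ`,
their distance, convex hull, convex core.
-/

namespace CEE

open Pool.Agent.MP_8db1a4_gt Set

/-- Hyperbolic 3-space: the hyperboloid `⟨x, x⟩ = -1`, `x.val.2 > 0` in `ℝ^{3,1}`, with the distance
`arcosh (-⟨x, y⟩)`. -/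
abbrev HSp : Type := Hy 3

/-- The four coordinates of a point of the hyperboloid. -/
def co (x : HSp) : Fin 4 → ℝ := ![x.val.1 0, x.val.1 1, x.val.1 2, x.val.2]

/-- The isometry `g` preserves the orientation: it is given by a matrix with positive determinant. -/
def OrPres (g : HSp ≃ᵢ HSp) : Prop :=
  ∃ A : Matrix (Fin 4) (Fin 4) ℝ, 0 < A.det ∧ ∀ x : HSp, A.mulVec (co x) = co (g x)

/-- `Γ` acts on `HSp` by orientation preserving isometries, freely and properly discontinuously:
`HSp / Γ` is a complete orientable hyperbolic 3-manifold with the fundamental group `Γ`. -/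
structure HypGroup (Γ : Subgroup (HSp ≃ᵢ HSp)) : Prop where
  orient : ∀ g ∈ Γ, OrPres g
  free : ∀ x : HSp, ∃ ε : ℝ, 0 < ε ∧ ∀ g ∈ Γ, g ≠ 1 → ε ≤ dist x (g x)

/-- Two points are equivalent if some element of `Γ` maps one to the other. -/
def orb (Γ : Subgroup (HSp ≃ᵢ HSp)) : Setoid HSp where
  r x y := ∃ g ∈ Γ, g x = y
  iseqv :=
    { refl := fun x => ⟨1, one_mem Γ, rfl⟩
      symm := by
        rintro x y ⟨g, hg, h⟩
        exact ⟨g⁻¹, inv_mem hg, by rw [← h]; exact g.symm_apply_apply x⟩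
      trans := by
        rintro x y z ⟨g, hg, h⟩ ⟨g', hg', h'⟩
        exact ⟨g' * g, mul_mem hg' hg, by rw [← h', ← h]; rfl⟩ }

/-- The hyperbolic manifold `HSp / Γ`. -/
def Quo (Γ : Subgroup (HSp ≃ᵢ HSp)) : Type := Quotient (orb Γ)

/-- with the quotient topology -/
instance instTopQuo (Γ : Subgroup (HSp ≃ᵢ HSp)) : TopologicalSpace (Quo Γ) :=
  inferInstanceAs (TopologicalSpace (Quotient (orb Γ)))

/-- The covering map `HSp → HSp / Γ`. -/
def pr (Γ : Subgroup (HSp ≃ᵢ HSp)) (x : HSp) : Quo Γ := Quotient.mk (orb Γ) x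

/-- The hyperbolic distance of `HSp / Γ`: the infimum of the distances of lifts. -/
noncomputable def qdist (Γ : Subgroup (HSp ≃ᵢ HSp)) (a b : Quo Γ) : ℝ :=
  sInf {r | ∃ x y : HSp, pr Γ x = a ∧ pr Γ y = b ∧ r = dist x y}

/-- Convex subsets of `HSp`: with two points they contain all points between them. -/
def Cvx (Z : Set HSp) : Prop :=
  ∀ x ∈ Z, ∀ y ∈ Z, ∀ z : HSp, dist x z + dist z y = dist x y → z ∈ Z

/-- The smallest nonempty closed convex `Γ`-invariant subset of `HSp` (the intersection of all of them). -/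
def chull (Γ : Subgroup (HSp ≃ᵢ HSp)) : Set HSp :=
  ⋂₀ {Z | Z.Nonempty ∧ IsClosed Z ∧ Cvx Z ∧ ∀ g ∈ Γ, ∀ x ∈ Z, g x ∈ Z}

/-- The convex core of `HSp / Γ`. -/
def ccore (Γ : Subgroup (HSp ≃ᵢ HSp)) : Set (Quo Γ) := pr Γ '' chull Γ

/-- `HSp / Γ` is a convex cocompact complete orientable hyperbolic 3-manifold: its convex core is nonempty
and compact. -/
structure CCGroup (Γ : Subgroup (HSp ≃ᵢ HSp)) : Prop extends HypGroup Γ where
  nonempty : (chull Γ).Nonempty
  compact : IsCompact (ccore Γ)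

/-- `n` is the outer unit normal of a totally geodesic boundary plane of the hull. -/
structure BdPl (Γ : Subgroup (HSp ≃ᵢ HSp)) (n : LV 3) : Prop where
  unit : lor n n = 1
  sub : ∀ y : HSp, lor y.val n = 0 → y ∈ frontier (chull Γ)
  side : ∀ y ∈ chull Γ, lor y.val n ≤ 0

/-- The boundary of the convex core is nonempty and totally geodesic: each frontier point of the hull lies
on a boundary plane. -/
structure TotGeod (Γ : Subgroup (HSp ≃ᵢ HSp)) : Prop where
  nonempty : (frontier (chull Γ)).Nonempty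
  plane : ∀ x ∈ frontier (chull Γ), ∃ n : LV 3, lor x.val n = 0 ∧ BdPl Γ n

/-- No essential annuli: an element of `Γ` which maps two different boundary planes to themselves is
trivial. -/
def NoAnnuli (Γ : Subgroup (HSp ≃ᵢ HSp)) : Prop :=
  ∀ n n' : LV 3, BdPl Γ n → BdPl Γ n' → n ≠ n' → ∀ g ∈ Γ,
    (∀ y : HSp, lor y.val n = 0 → lor (g y).val n = 0) →
    (∀ y : HSp, lor y.val n' = 0 → lor (g y).val n' = 0) → g = 1

end CEE
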