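import Pool.Agent.CEE.Y3b
import Pool.Agent.CEE.G2

set_option autoImplicit false

/-!
# [CEE-F1] The boundary plane
-/

namespace CEE

open Pool.Agent.MP_8db1a4_gt Set Real

/-- The boundary plane `x₂ = 0`. -/
def Pl : Set H3 := {x | lor x.val vF = 0}

/- PROOF NOTES [CEE-F1].  `w = w0 m`, `m w = π`, `lor x vF = - x.val.1 1`.
`Pl_cham`: let `x ∈ Pl` satisfy the inequalities for `T, B, G 0, G m`.  For `0 < i < m` (write `X = x.val.2`, `t = tv w`): `lor x (vG w i) = q x₁ cos (i w) + (-1)^i p t x₃ - p X` (`x.val.1 1 = 0`).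
 If `x₁ cos (i w) ≤ 0` it is `≤ p (t |x₃| - X) < 0` (`|x₃| ≤ t X`: `abs_x3_le`, `t < 1`).  If `x₁ > 0`, `cos (i w) > 0`: `q x₁ ≤ p (X - t x₃)` (wall `G 0`), `cos (i w) ≤ cos w`; and `cos w (X - t x₃) < X - t |x₃|`:
 `cos w (1 + t²) < 1 - t²` because `cos w (1 + t²) = (1+2S)²/(E(1+S))`, `1 - t² = 1/(1+S)`, `(1+2S)² < E`; (`cos w (X + t|x₃|) - (X - t|x₃|) = t |x₃| (1 + cos w) - (1 - cos w) X ≤ X (t² (1 + cos w) - (1 - cos w)) < 0`).
 If `x₁ < 0`, `cos (i w) < 0`: the same with `G m`: `- q x₁ ≤ p (X + t x₃)` (`m` odd, `cos (m w) = -1`), `-cos (i w) = cos ((m-i) w) ≤ cos w`.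
`Hs_vF`: `closure_induction`: the four reflections fix `vF` (`lor_F_T`, `lor_F_B`, `lor_F_G` with `sin 0 = 0`, `sin (m w) = sin π = 0`).
`Pl_smul`: `lor (ρ(h) x) vF = lor (ρ(h) x) (ρ(h) vF) = lor x vF`.
`Pl_exists`: `RS.exists_chamber` for `J = Jset m`, then `Pl_smul` and `Pl_cham`.
`Pl_sub`: `ρ(h) x ∈ Pl ∩ cham ⊆ D0 ⊆ Y0` (`Yset_cham`), `Yset_smul_iff`.
`wallsAt_Pl`: for `x ∈ Pl ∩ cham` the walls through `x` are among the four ones in `Jset m` (`Pl_cham` strict), so `wallsAt x ≤ Hs m`.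
`coset_cham`: `x ∈ cham`, `ρ(w)⁻¹ x ∈ Pl`: choose `h ∈ Hs` with `ρ(h) ρ(w⁻¹) x ∈ Pl ∩ cham` (`Pl_exists`); `RS.fixed` for `h w⁻¹`: it fixes `x` and lies in `wallsAt x`; `x = ρ(h w⁻¹) x ∈ Pl`; so `h w⁻¹ ∈ Hs`, `w ∈ Hs`.
`coset`: `x ∈ Pl` and `ρ(w) x ∈ Pl`: move `ρ(w) x` into the chamber by some `h ∈ Hs`: `y = ρ(h w) x ∈ Pl ∩ cham`, `ρ(h w)⁻¹ y = x ∈ Pl`, so `h w ∈ Hs` by `coset_cham`. -/

theorem f1_lor_T (w : ℝ) (x : H3) : lor x.val (vT w) = x.val.1 2 * sqrt (1 + Sv w) - x.val.2 * sqrt (Sv w) := by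
  rw [lor_eq]
  simp only [vT, vec_0, vec_1, vec_2, vec_3]
  ring

theorem f1_x1 (x : H3) (hx : x ∈ Pl) : x.val.1 1 = 0 := by
  have h : lor x.val vF = 0 := hx
  rw [lor_eq] at h
  simp only [vF, vec_0, vec_1, vec_2, vec_3] at h
  linarith

theorem f1_lor_G (w : ℝ) (i : ℕ) (x : H3) (hx : x ∈ Pl) : lor x.val (vG w i) =
    qv w * (x.val.1 0 * cos (i * w)) + (-1) ^ i * (pv w * tv w * x.val.1 2) - pv w * x.val.2 := by
  rw [lor_eq, f1_x1 x hx]
  simp only [vG, vec_0, vec_1, vec_2, vec_3]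
  ring

theorem f1_cos {w : ℝ} (h0 : 0 < w) (h1 : w ≤ 1 / 2) : cos w * (1 + tv w ^ 2) < 1 - tv w ^ 2 := by
  have hS := Sv_pos h0 h1
  have hE := Ev_cos h0 h1
  have hEp := p1_Ev_pos hS
  have hE0 : Ev w = 8 * Sv w ^ 2 + 8 * Sv w + 1 := rfl
  rw [tv_sq h0 h1]
  have h2 : cos w = (1 + 2 * Sv w) / Ev w := by
    rw [eq_div_iff hEp.ne']
    exact hE
  have h3 : cos w * (1 + Sv w / (1 + Sv w)) = (1 + 2 * Sv w) ^ 2 / (Ev w * (1 + Sv w)) := by
    rw [h2]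
    field_simp
    ring
  have h4 : 1 - Sv w / (1 + Sv w) = Ev w / (Ev w * (1 + Sv w)) := by
    field_simp
    ring
  rw [h3, h4, div_lt_div_iff_of_pos_right (by positivity), hE0]
  nlinarith [mul_pos hS hS]

theorem f1_key {p q t X x1 x3 c C σ : ℝ} (hp : 0 < p) (hq : 0 < q) (ht : 0 < t) (hX : 0 < X)
    (hx3 : |x3| ≤ t * X) (hc : 0 < c) (hct : c * (1 + t ^ 2) < 1 - t ^ 2) (hσ : σ = 1 ∨ σ = -1)
    (h : (x1 * C ≤ 0) ∨ (0 < x1 ∧ 0 < C ∧ C ≤ c ∧ q * x1 + p * t * x3 - p * X ≤ 0) ∨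
      (x1 < 0 ∧ C < 0 ∧ -C ≤ c ∧ -(q * x1) - p * t * x3 - p * X ≤ 0)) :
    q * (x1 * C) + σ * (p * t * x3) - p * X < 0 := by
  have hpt : 0 < p * t := mul_pos hp ht
  have h1 : σ * (p * t * x3) ≤ p * t * |x3| := by
    have h2 : σ * x3 ≤ |x3| := by
      rcases hσ with rfl | rfl
      · rw [one_mul]
        exact le_abs_self _
      · rw [neg_one_mul]
        exact neg_le_abs _
    calc σ * (p * t * x3) = p * t * (σ * x3) := by ring
      _ ≤ p * t * |x3| := mul_le_mul_of_nonneg_left h2 hpt.le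
  have ht1 : t ^ 2 < 1 := by nlinarith [mul_pos hc (by positivity : (0 : ℝ) < 1 + t ^ 2)]
  have h3 : p * t * |x3| ≤ p * (t ^ 2 * X) := by
    calc p * t * |x3| ≤ p * t * (t * X) := mul_le_mul_of_nonneg_left hx3 hpt.le
      _ = p * (t ^ 2 * X) := by ring
  have hpX : 0 < p * X := mul_pos hp hX
  have hfin : ∀ y : ℝ, 0 < y → q * y ≤ p * X + p * t * |x3| → ∀ D : ℝ, 0 < D → D ≤ c →
      q * (y * D) + σ * (p * t * x3) - p * X < 0 := by
    intro y hy hyq D hD hDc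
    have h5 : q * (y * D) ≤ c * (p * X + p * t * |x3|) := by
      calc q * (y * D) = D * (q * y) := by ring
        _ ≤ c * (q * y) := mul_le_mul_of_nonneg_right hDc (mul_pos hq hy).le
        _ ≤ c * (p * X + p * t * |x3|) := mul_le_mul_of_nonneg_left hyq hc.le
    have h6 : (1 + c) * (p * t * |x3|) ≤ (1 + c) * (p * (t ^ 2 * X)) :=
      mul_le_mul_of_nonneg_left h3 (by linarith)
    have h7 : (c * (1 + t ^ 2)) * (p * X) < (1 - t ^ 2) * (p * X) := mul_lt_mul_of_pos_right hct hpX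
    nlinarith
  rcases h with h | ⟨h4, h5, h6, h7⟩ | ⟨h4, h5, h6, h7⟩
  · have h8 : q * (x1 * C) ≤ 0 := mul_nonpos_of_nonneg_of_nonpos hq.le h
    nlinarith [mul_pos hpX (by linarith : 0 < 1 - t ^ 2)]
  · have h8 : p * t * (-x3) ≤ p * t * |x3| := mul_le_mul_of_nonneg_left (neg_le_abs _) hpt.le
    exact hfin x1 h4 (by linarith) C h5 h6
  · have h8 : p * t * x3 ≤ p * t * |x3| := mul_le_mul_of_nonneg_left (le_abs_self _) hpt.le
    have h9 := hfin (-x1) (by linarith) (by linarith) (-C) (by linarith) h6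
    have h10 : -x1 * -C = x1 * C := by ring
    rwa [h10] at h9

theorem f1_X (x : H3) : 0 < x.val.2 := lt_of_le_of_lt (norm_nonneg _) x.mem

theorem Pl_cham {m : ℕ} (hm : 13 ≤ m) (ho : Odd m) (x : H3) (hx : x ∈ Pl)
    (hJ : ∀ s ∈ Jset m, lor x.val (ev (w0 m) m s) ≤ 0) :
    x ∈ cham (ev (w0 m) m) ∧ ∀ s, s ∉ Jset m → lor x.val (ev (w0 m) m s) < 0 := by
  have h0 := w0_pos hm
  have h1 := w0_le hm
  have hm0 : (0 : ℝ) < m := by
    have : 0 < m := by omega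
    exact_mod_cast this
  have hmw : (m : ℝ) * w0 m = π := by
    unfold w0
    field_simp
  have hT : lor x.val (vT (w0 m)) ≤ 0 := hJ .T (Or.inl rfl)
  have hB : lor x.val (vB (w0 m)) ≤ 0 := hJ .B (Or.inr (Or.inl rfl))
  have hG0 : lor x.val (vG (w0 m) 0) ≤ 0 := hJ (.G 0) (Or.inr (Or.inr (Or.inl rfl)))
  have hGm : lor x.val (vG (w0 m) m) ≤ 0 := hJ (.G (Fin.last m)) (Or.inr (Or.inr (Or.inr rfl)))
  rw [f1_lor_G _ _ x hx] at hG0 hGm
  rw [Nat.cast_zero, zero_mul, cos_zero, pow_zero] at hG0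
  rw [hmw, cos_pi, ho.neg_one_pow] at hGm
  have hx3 := abs_x3_le h0 h1 x hT hB
  have key : ∀ s, s ∉ Jset m → lor x.val (ev (w0 m) m s) < 0 := by
    intro s hs
    cases s with
    | T => exact absurd (Or.inl rfl) hs
    | B => exact absurd (Or.inr (Or.inl rfl)) hs
    | G i =>
      have hi0 : i.val ≠ 0 := by
        intro h
        apply hs
        have : i = 0 := Fin.ext h
        rw [this]
        exact Or.inr (Or.inr (Or.inl rfl))
      have him : i.val ≠ m := by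
        intro h
        apply hs
        have : i = Fin.last m := Fin.ext h
        rw [this]
        exact Or.inr (Or.inr (Or.inr rfl))
      have hilt := i.isLt
      have hi1 : (1 : ℝ) ≤ i.val := by
        have : 1 ≤ i.val := by omega
        exact_mod_cast this
      have hi2 : (i.val : ℝ) + 1 ≤ m := by
        have : i.val + 1 ≤ m := by omega
        exact_mod_cast this
      have hiw : w0 m ≤ i.val * w0 m := by nlinarith
      have hiw2 : i.val * w0 m + w0 m ≤ π := by nlinarith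
      have hpi := Real.pi_pos
      show lor x.val (vG (w0 m) i.val) < 0
      rw [f1_lor_G _ _ x hx]
      have hc1 : cos (i.val * w0 m) ≤ cos (w0 m) :=
        cos_le_cos_of_nonneg_of_le_pi h0.le (by linarith) hiw
      have hc2 : -cos (i.val * w0 m) ≤ cos (w0 m) := by
        rw [← cos_pi_sub]
        exact cos_le_cos_of_nonneg_of_le_pi h0.le (by linarith) (by linarith)
      have hcp : 0 < cos (w0 m) := by
        have := cos_ge h0 h1
        linarith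
      refine f1_key (pv_pos h0 h1) (qv_pos h0 h1) (tv_pos h0 h1) (f1_X x) hx3 hcp (f1_cos h0 h1)
        (neg_one_pow_eq_or ℝ _) ?_
      by_cases hle : x.val.1 0 * cos (i.val * w0 m) ≤ 0
      · exact Or.inl hle
      · rw [not_le] at hle
        rcases pos_and_pos_or_neg_and_neg_of_mul_pos hle with ⟨h2, h3⟩ | ⟨h2, h3⟩
        · exact Or.inr (Or.inl ⟨h2, h3, hc1, by linarith⟩)
        · exact Or.inr (Or.inr ⟨h2, h3, hc2, by linarith⟩)
  refine ⟨?_, key⟩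
  intro s
  by_cases hs : s ∈ Jset m
  · exact hJ s hs
  · exact (key s hs).le

theorem Hs_vF {m : ℕ} (hm : 13 ≤ m) (ho : Odd m) (h : (CM m).Group) (hh : h ∈ Hs m) :
    ((RS0 hm).rho h).1 vF = vF := by
  have hm0 : (0 : ℝ) < m := by
    have : 0 < m := by omega
    exact_mod_cast this
  have hmw : (m : ℝ) * w0 m = π := by
    unfold w0
    field_simp
  have key : ∀ s ∈ Jset m, lor vF (ev (w0 m) m s) = 0 := by
    intro s hs
    rcases hs with rfl | rfl | rfl | hs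
    · exact lor_F_T _
    · exact lor_F_B _
    · show lor vF (vG (w0 m) 0) = 0
      rw [lor_F_G, Nat.cast_zero, zero_mul, sin_zero, mul_zero, neg_zero]
    · have hs' : s = .G (Fin.last m) := hs
      subst hs'
      show lor vF (vG (w0 m) m) = 0
      rw [lor_F_G, hmw, sin_pi, mul_zero, neg_zero]
  have hle : Hs m ≤ (MulAction.stabilizer (V ≃ₗ[ℝ] V) vF).comap ((O31.subtype).comp (RS0 hm).rho) := by
    unfold Hs
    rw [Subgroup.closure_le]
    rintro _ ⟨s, hs, rfl⟩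
    show ((RS0 hm).rho ((CM m).simple s)).1 vF = vF
    rw [(RS0 hm).rho_simple_apply, key s hs, mul_zero, zero_smul, sub_zero]
  exact hle hh

theorem Pl_smul {m : ℕ} (hm : 13 ≤ m) (ho : Odd m) (h : (CM m).Group) (hh : h ∈ Hs m) (x : H3) :
    (RS0 hm).rho h • x ∈ Pl ↔ x ∈ Pl := by
  have h1 : lor ((RS0 hm).rho h • x).val vF = lor x.val vF := by
    have h2 := O31_lor ((RS0 hm).rho h) x.val vF
    rw [Hs_vF hm ho h hh] at h2
    exact h2
  show lor ((RS0 hm).rho h • x).val vF = 0 ↔ lor x.val vF = 0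
  rw [h1]

theorem Pl_exists {m : ℕ} (hm : 13 ≤ m) (ho : Odd m) (x : H3) (hx : x ∈ Pl) :
    ∃ h ∈ Hs m, (RS0 hm).rho h • x ∈ Pl ∧ (RS0 hm).rho h • x ∈ cham (ev (w0 m) m) := by
  obtain ⟨h, hh, h1⟩ := (RS0 hm).exists_chamber (Jset m) x
  have h2 : (RS0 hm).rho h • x ∈ Pl := (Pl_smul hm ho h hh x).2 hx
  exact ⟨h, hh, h2, (Pl_cham hm ho _ h2 h1).1⟩

theorem Pl_sub {m : ℕ} (hm : 13 ≤ m) (ho : Odd m) : Pl ⊆ Y0 hm := by
  intro x hx
  obtain ⟨h, hh, h1, h2⟩ := Pl_exists hm ho x hx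
  have h3 : (RS0 hm).rho h • x ∈ Y0 hm := by
    refine Yset_cham (RS0 hm) ex0 (ex0_anti hm) ⟨h2, ?_⟩
    intro v hv
    have hv' : v = vF := hv
    rw [hv']
    exact le_of_eq h1
  exact (Yset_smul_iff (RS0 hm) ex0 h x).1 h3

theorem wallsAt_Pl {m : ℕ} (hm : 13 ≤ m) (ho : Odd m) (x : H3) (hx : x ∈ Pl)
    (hc : x ∈ cham (ev (w0 m) m)) : wallsAt (CM m) (ev (w0 m) m) x ≤ Hs m := by
  unfold wallsAt
  rw [Subgroup.closure_le]
  rintro _ ⟨s, hs, rfl⟩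
  refine Subgroup.subset_closure ⟨s, ?_, rfl⟩
  by_contra hcon
  have h1 := (Pl_cham hm ho x hx (fun t _ => hc t)).2 s hcon
  rw [hs] at h1
  exact lt_irrefl _ h1

theorem coset_cham {m : ℕ} (hm : 13 ≤ m) (ho : Odd m) (w : (CM m).Group) (x : H3)
    (hc : x ∈ cham (ev (w0 m) m)) (hx : (RS0 hm).rho w⁻¹ • x ∈ Pl) : w ∈ Hs m ∧ x ∈ Pl := by
  obtain ⟨h, hh, h1, h2⟩ := Pl_exists hm ho _ hx
  have e : (RS0 hm).rho (h * w⁻¹) • x = (RS0 hm).rho h • ((RS0 hm).rho w⁻¹ • x) := by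
    rw [map_mul, mul_smul]
  rw [← e] at h1 h2
  obtain ⟨h3, h4⟩ := (RS0 hm).fixed (h * w⁻¹) x hc h2
  rw [h3] at h1
  refine ⟨?_, h1⟩
  have h5 := wallsAt_Pl hm ho x h1 hc h4
  have h6 : w⁻¹ ∈ Hs m := by
    have h7 := (Hs m).mul_mem ((Hs m).inv_mem hh) h5
    rwa [inv_mul_cancel_left] at h7
  have h8 := (Hs m).inv_mem h6
  rwa [inv_inv] at h8

/-- two boundary planes which meet belong to the same coset -/
theorem coset {m : ℕ} (hm : 13 ≤ m) (ho : Odd m) (w : (CM m).Group) (x : H3) (hx : x ∈ Pl)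
    (hwx : (RS0 hm).rho w • x ∈ Pl) : w ∈ Hs m := by
  obtain ⟨h, hh, h1, h2⟩ := Pl_exists hm ho _ hwx
  have e : (RS0 hm).rho (h * w)⁻¹ • ((RS0 hm).rho h • ((RS0 hm).rho w • x)) = x := by
    rw [← mul_smul ((RS0 hm).rho h), ← map_mul, ← mul_smul, ← map_mul, inv_mul_cancel, map_one, one_smul]
  have h3 := (coset_cham hm ho (h * w) _ h2 (by rw [e]; exact hx)).1
  have h7 := (Hs m).mul_mem ((Hs m).inv_mem hh) h3
  rwa [inv_mul_cancel_left] at h7

end CEE
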