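import Pool.Agent.CEE.F1

set_option autoImplicit false

/-!
# [CEE-F2] The frontier of `Y0`
-/

namespace CEE

open Pool.Agent.MP_8db1a4_gt Set Real

/- PROOF NOTES [CEE-F2].
`frontier_iff`: `→`: `Y0` is closed, so `x ∈ Y0`.  Let `y = fold x ∈ D0`, `x = ρ(v) y`.  If `lor y vF < 0`: all `lor y (ρ(w) vF) ≤ lor y vF =: -c < 0` (`RS.antidom`); for `y'` near `y` (`dist y y' < η`): `|lor y' n - lor y n|` is NOT uniformly small, but:
  use `lor z n = sinh (signed distance)`: precisely `plane_dist`: if `lor n n = 1`, `lor y n ≤ -c < 0` and `lor y' n > 0` then some point `z` between `y` and `y'` has `lor z n = 0` and `dist y y' ≥ dist y z ≥ arsinh c`.  So the ball of radius `arsinh c` around `y` is in `Y0`, hence `y` and `x` are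
  interior points (`Yset_smul_iff`, isometry).  So `x ∈ frontier` implies `lor y vF = 0`, i.e. `lor x (ρ(v) vF) = 0`.
  `←`: `x ∈ Y0`, `lor x n = 0`, `n = ρ(w) vF`: points beyond the plane arbitrarily close to `x` are not in `Y0`: normalise `x + ε n` (`exists_smul_hy`; `lor (x + ε n) n = ε > 0`, in the open cone for small `ε`), and it tends to `x`.
`plane_dist` is `sinh (dist x z) ≥ |lor x n|` for `lor z n = 0`: `lor_cauchy` on the orthogonal complement of `x` for `n + (lor x n) x`.. : let `u = z - cosh d • x` (orthogonal to `x`, `lor u u = sinh² d`), `n' = n + lor x n • x` (orthogonal to `x`, `lor n' n' = 1 + (lor x n)²`),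
  `lor u n' = lor z n - cosh d lor x n = - cosh d lor x n`; Cauchy: `cosh² d a² ≤ sinh² d (1 + a²)`, i.e. `a² ≤ sinh² d`.
`Pl_frontier`: `x ∈ Pl ⊆ Y0`, `w = 1`.
`frontier_exists`: `x = ρ(v) y` with `y = fold x ∈ D0`, `lor y vF = 0` as above (`RS.antidom` : `0 = lor x (ρ(w) vF)` gives `lor y (ρ(v⁻¹ w) vF) = 0 ≤ lor y vF ≤ 0`).
`frontier_plane`: `x = ρ(v) y`, `y ∈ Pl`, the plane is `n = ρ(v) vF`. -/

theorem plane_dist (x z : H3) (n : V) (hn : lor n n = 1) (hz : lor z.val n = 0) :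
    |lor x.val n| ≤ sinh (dist x z) := by
  obtain ⟨d, hd⟩ : ∃ d, d = dist x z := ⟨_, rfl⟩
  have hd0 : 0 ≤ d := by
    rw [hd]
    exact dist_nonneg
  have hc : cosh d = -lor x.val z.val := by
    rw [hd]
    exact cosh_dist x z
  rw [← hd]
  obtain ⟨a, ha⟩ : ∃ a, a = lor x.val n := ⟨_, rfl⟩
  rw [← ha]
  have hxx := x.lor_self
  have hzz := z.lor_self
  have hzx : lor z.val x.val = -cosh d := by
    rw [lor_comm, hc]
    ring
  have hnx : lor n x.val = a := by
    rw [lor_comm, ha]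
  have h1 : lor (z.val - cosh d • x.val) x.val = 0 := by
    rw [lor_sub_left, lor_smul_left, hxx, hzx]
    ring
  have h2 : lor (n + a • x.val) x.val = 0 := by
    rw [lor_add_left, lor_smul_left, hxx, hnx]
    ring
  have h3 := lor_cauchy x.mem h1 h2
  have e1 : lor (z.val - cosh d • x.val) (n + a • x.val) = -(a * cosh d) := by
    rw [lor_sub_left, lor_add_right, lor_add_right, lor_smul_left, lor_smul_right, lor_smul_right, lor_smul_left,
      hz, hzx, hxx, ← ha]
    ring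
  have e2 : lor (z.val - cosh d • x.val) (z.val - cosh d • x.val) = cosh d ^ 2 - 1 := by
    rw [lor_sub_left, lor_sub_right, lor_sub_right, lor_smul_left, lor_smul_right, lor_smul_right, lor_smul_left,
      hzz, hzx, hxx, lor_comm x.val z.val, hzx]
    ring
  have e3 : lor (n + a • x.val) (n + a • x.val) = 1 + a ^ 2 := by
    rw [lor_add_left, lor_add_right, lor_add_right, lor_smul_left, lor_smul_right, lor_smul_right, lor_smul_left,
      hn, hnx, hxx, ← ha]
    ring
  rw [e1, e2, e3] at h3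
  have h4 : cosh d ^ 2 = sinh d ^ 2 + 1 := cosh_sq d
  have h5 : a ^ 2 ≤ sinh d ^ 2 := by
    rw [neg_sq, mul_pow, h4] at h3
    nlinarith
  exact abs_le_of_sq_le_sq h5 (sinh_nonneg_iff.2 hd0)

theorem f2_mem {m : ℕ} (hm : 13 ≤ m) (v : (CM m).Group) (x : H3) :
    (RS0 hm).rho v • x ∈ Y0 hm ↔ x ∈ Y0 hm := Yset_smul_iff (RS0 hm) ex0 v x

/-- a point of `D0` off the plane has a quantitative ball inside `Y0` -/
theorem f2_ball {m : ℕ} (hm : 13 ≤ m) (y : H3) (hy : y ∈ D0 m) (c : ℝ) (hc : 0 < c)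
    (h : lor y.val vF ≤ -sinh c) : Metric.ball y c ⊆ Y0 hm := by
  intro z hz w v hv
  have hv' : v = vF := hv
  rw [hv']
  by_contra hcon
  rw [not_le] at hcon
  obtain ⟨n, hn⟩ : ∃ n, n = ((RS0 hm).rho w).1 vF := ⟨_, rfl⟩
  rw [← hn] at hcon
  have hnn : lor n n = 1 := by
    rw [hn, O31_lor]
    exact lor_F_F
  have h1 : lor y.val n ≤ -sinh c := by
    rw [hn]
    exact ((RS0 hm).antidom w vF (ex0_anti hm vF rfl) y hy.1).trans h
  have hsc : 0 < sinh c := sinh_pos_iff.2 hc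
  obtain ⟨p, hp1, r, hr, hp2⟩ := exists_between y z (lor z.val n) (-lor y.val n) hcon.le (by linarith)
    (by linarith)
  have h2 : lor p.val n = 0 := by
    have h3 : lor (lor z.val n • y.val + (-lor y.val n) • z.val) n = 0 := by
      rw [lor_add_left, lor_smul_left, lor_smul_left]
      ring
    rw [hp2, lor_smul_left] at h3
    exact (mul_eq_zero.1 h3).resolve_left hr.ne'
  have h3 := plane_dist y p n hnn h2
  have h4 : dist y p < c := by
    have h5 : dist y z < c := by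
      rw [dist_comm]
      exact hz
    have h6 : 0 ≤ dist p z := dist_nonneg
    linarith
  have h5 : sinh (dist y p) < sinh c := sinh_lt_sinh.2 h4
  have h6 := (abs_le.1 h3).1
  linarith

/-- points beyond the plane -/
theorem f2_beyond (y : H3) (hy : y ∈ Pl) (s : ℝ) (hs : 0 < s) :
    ∃ z : H3, dist y z = s ∧ 0 < lor z.val vF := by
  have h0 : lor y.val vF = 0 := hy
  have h0' : lor vF y.val = 0 := by rw [lor_comm]; exact hy
  have hyy := y.lor_self
  have hself : lor (cosh s • y.val + sinh s • vF) (cosh s • y.val + sinh s • vF) = -1 := by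
    rw [lor_add_left, lor_add_right, lor_add_right, lor_smul_left, lor_smul_right, lor_smul_right, lor_smul_left,
      lor_smul_left, lor_smul_right, lor_smul_left, lor_smul_right, hyy, h0, h0', lor_F_F]
    have := cosh_sq s
    linarith
  have hmem : cosh s • y.val + sinh s • vF ∈ LCone 3 := by
    apply b1a_mem_of_lor
    · rw [hself]
      norm_num
    · show 0 < cosh s * y.val.2 + sinh s * vF.2
      have h1 : (vF : V).2 = 0 := rfl
      rw [h1, mul_zero, add_zero]
      exact mul_pos (cosh_pos s) (f1_X y)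
  refine ⟨⟨cosh s • y.val + sinh s • vF, hmem, hself⟩, ?_, ?_⟩
  · have h1 : lor y.val (cosh s • y.val + sinh s • vF) = -cosh s := by
      rw [lor_add_right, lor_smul_right, lor_smul_right, hyy, h0]
      ring
    rw [dist_def]
    show arcosh (-lor y.val (cosh s • y.val + sinh s • vF)) = s
    rw [h1, neg_neg]
    exact arcosh_cosh hs.le
  · show 0 < lor (cosh s • y.val + sinh s • vF) vF
    rw [lor_add_left, lor_smul_left, lor_smul_left, h0, lor_F_F]
    have := sinh_pos_iff.2 hs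
    linarith


theorem frontier_exists {m : ℕ} (hm : 13 ≤ m) (x : H3) (hx : x ∈ frontier (Y0 hm)) :
    ∃ v : (CM m).Group, ∃ y ∈ D0 m, y ∈ Pl ∧ x = (RS0 hm).rho v • y := by
  have hcl : IsClosed (Y0 hm) := Yset_closed (RS0 hm) ex0
  have hxY : x ∈ Y0 hm := by
    have h1 := frontier_subset_closure hx
    rwa [hcl.closure_eq] at h1
  obtain ⟨v, hv⟩ := (RS0 hm).fold_spec x
  have hy : (RS0 hm).fold x ∈ D0 m := (Yset_fold (RS0 hm) ex0 (ex0_anti hm) x).1 hxY
  obtain ⟨y, hydef⟩ : ∃ y, y = (RS0 hm).fold x := ⟨_, rfl⟩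
  rw [← hydef] at hv hy
  refine ⟨v, y, hy, ?_, hv⟩
  by_contra hcon
  have h1 : lor y.val vF ≤ 0 := hy.2 vF rfl
  have h2 : lor y.val vF < 0 := lt_of_le_of_ne h1 hcon
  obtain ⟨c, hc⟩ : ∃ c, c = arsinh (-lor y.val vF) := ⟨_, rfl⟩
  have hc0 : 0 < c := by
    rw [hc]
    exact arsinh_pos_iff.2 (by linarith)
  have hcs : lor y.val vF ≤ -sinh c := by
    rw [hc, sinh_arsinh, neg_neg]
  have h3 := f2_ball hm y hy c hc0 hcs
  have h4 : Metric.ball x c ⊆ Y0 hm := by
    intro z hz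
    have h5 : (RS0 hm).rho v⁻¹ • z ∈ Metric.ball y c := by
      rw [Metric.mem_ball] at hz ⊢
      have e : y = (RS0 hm).rho v⁻¹ • x := by
        rw [hv, ← mul_smul, ← map_mul, inv_mul_cancel, map_one, one_smul]
      rw [e, dist_smul_smul]
      exact hz
    exact (f2_mem hm v⁻¹ z).1 (h3 h5)
  rw [frontier, mem_sdiff] at hx
  exact hx.2 (mem_interior.2 ⟨_, h4, Metric.isOpen_ball, Metric.mem_ball_self hc0⟩)

theorem frontier_of {m : ℕ} (hm : 13 ≤ m) (ho : Odd m) (v : (CM m).Group) (y : H3) (hy : y ∈ Pl) :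
    (RS0 hm).rho v • y ∈ frontier (Y0 hm) := by
  have h1 : (RS0 hm).rho v • y ∈ Y0 hm := (f2_mem hm v y).2 (Pl_sub hm ho hy)
  rw [frontier, mem_sdiff]
  refine ⟨subset_closure h1, ?_⟩
  intro h2
  rw [mem_interior_iff_mem_nhds, Metric.mem_nhds_iff] at h2
  obtain ⟨ε, hε, h3⟩ := h2
  obtain ⟨z, hz1, hz2⟩ := f2_beyond y hy (ε / 2) (by linarith)
  have h4 : (RS0 hm).rho v • z ∈ Y0 hm := by
    apply h3
    rw [Metric.mem_ball, dist_smul_smul, dist_comm, hz1]
    linarith
  have h5 : z ∈ Y0 hm := (f2_mem hm v z).1 h4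
  have h6 := h5 1 vF rfl
  rw [map_one] at h6
  exact absurd hz2 (not_lt.2 h6)

theorem frontier_plane {m : ℕ} (hm : 13 ≤ m) (ho : Odd m) (x : H3) (hx : x ∈ frontier (Y0 hm)) :
    ∃ n : V, lor n n = 1 ∧ lor x.val n = 0 ∧
      (∀ y : H3, lor y.val n = 0 → y ∈ frontier (Y0 hm)) ∧ ∀ y ∈ Y0 hm, lor y.val n ≤ 0 := by
  obtain ⟨v, y, -, hy, hxy⟩ := frontier_exists hm x hx
  refine ⟨((RS0 hm).rho v).1 vF, ?_, ?_, ?_, ?_⟩
  · rw [O31_lor]
    exact lor_F_F
  · rw [hxy, smul_val, O31_lor]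
    exact hy
  · intro z hz
    have h1 : (RS0 hm).rho v⁻¹ • z ∈ Pl := by
      show lor ((RS0 hm).rho v⁻¹ • z).val vF = 0
      rw [smul_val, map_inv, lor_inv]
      exact hz
    have h2 := frontier_of hm ho v _ h1
    rwa [← mul_smul, ← map_mul, mul_inv_cancel, map_one, one_smul] at h2
  · intro z hz
    exact hz v vF rfl

/-- a point of `D0` off the plane has a quantitative ball inside `Y0` -/
theorem ball_sub {m : ℕ} (hm : 13 ≤ m) (y : H3) (hy : y ∈ D0 m) (c : ℝ) (hc : 0 < c)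
    (h : lor y.val vF ≤ -sinh c) : Metric.ball y c ⊆ Y0 hm :=
  f2_ball hm y hy c hc h

end CEE
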