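import Pool.Agent.CEE.F3a

set_option autoImplicit false

/-!
# [CEE-F3] `Y0` is the smallest closed convex invariant set
-/

namespace CEE

open Pool.Agent.MP_8db1a4_gt Set Real

/- PROOF NOTES [CEE-F3].
`Pl_sub_Z`: suppose `y ∈ Pl ∖ Z`; `sep` gives `n` with `0 < lor n n`, `0 < lor y n`, `lor z n ≤ 0` on `Z`.  Pick `z ∈ Z`; `C` from `KH_cocompact`; `R = C + dist O z`; `far_point` gives `x ∈ Pl` such that the closed ball of radius `R` around `x` lies in `{0 < lor · n}`.  `KH_cocompact` for `x`: `k ∈ K` with `dist O (ρ(k) x) ≤ C`,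
 so `dist x (ρ(k⁻¹) z) = dist (ρ(k) x) z ≤ C + dist O z = R`, `0 < lor (ρ(k⁻¹) z) n`, but `ρ(k⁻¹) z ∈ Z`: contradiction.
`Y0_sub_Z`: all planes `ρ(v) Pl`, `v = k h` (`exists_KH`, `Pl_smul`), lie in `Z` (`Pl_sub_Z`, `hK`): `frontier (Y0) ⊆ Z` (`frontier_exists`).  Let `x ∈ Y0 ∖ Z`, `n` from `sep`, `A = {0 < lor · n}`; `A ∩ frontier Y0 = ∅`, `A` preconnected (`halfspace_preconn`), `x ∈ A ∩ Y0`: so `A ⊆ Y0` (`A ⊆ interior Y0 ∪ (Y0)ᶜ`, two disjoint open sets;
 `IsPreconnected.subset_left_of_subset_union`, `Yset_closed`).  Every point of `Y0` is within `C₂` of `frontier Y0` (`x = ρ(v) y`, `y ∈ D0` (`Yset_fold`), `O ∈ Pl ∩ D0`, `frontier_of`, `D0` bounded).  But `A` contains points at distance `> C₂` from the complement of `A` (as in `far_point`: `x.val` moved in the direction of any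
 unit vector `u` orthogonal to `x` with `lor u n ≥ 0`; for a quick proof use the sequence `g^j x` of F4b or: `x_s = cosh s • x + sinh s • u`, `lor x_s n ≥ cosh s lor x n → ∞`, and `plane_dist`): contradiction. -/

theorem f3_pt (n : V) (hn : 0 < lor n n) (M : ℝ) (hM : 0 ≤ M) : ∃ x : H3, M < lor x.val n := by
  have h1 : lor n n = ‖n.1‖ * ‖n.1‖ - n.2 * n.2 := by
    simp only [lor, real_inner_self_eq_norm_mul_norm]
  have h2 : |n.2| < ‖n.1‖ := by
    by_contra hc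
    push Not at hc
    have h3 : ‖n.1‖ * ‖n.1‖ ≤ |n.2| * |n.2| := by nlinarith [norm_nonneg n.1, abs_nonneg n.2]
    rw [abs_mul_abs_self] at h3
    linarith
  have hpos : 0 < ‖n.1‖ := lt_of_le_of_lt (abs_nonneg _) h2
  have hδ : 0 < ‖n.1‖ - n.2 := by linarith [le_abs_self n.2]
  have hσ : 0 < ‖n.1‖ + n.2 := by linarith [neg_abs_le n.2]
  set δ := ‖n.1‖ - n.2 with hδd
  set σ := ‖n.1‖ + n.2 with hσd
  set t : ℝ := 1 + (2 * M + σ + 1) / δ with ht
  have ht1 : 1 ≤ t := by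
    have : 0 ≤ (2 * M + σ + 1) / δ := by positivity
    linarith
  have ht0 : 0 < t := by linarith
  have htδ : t * δ = δ + (2 * M + σ + 1) := by
    rw [ht]
    field_simp
  have hinv : t * t⁻¹ = 1 := mul_inv_cancel₀ ht0.ne'
  have hinv0 : 0 < t⁻¹ := by positivity
  have hinv1 : t⁻¹ ≤ 1 := inv_le_one_of_one_le₀ ht1
  have hunit : ‖(‖n.1‖⁻¹ • n.1)‖ = 1 := by
    rw [norm_smul, norm_inv, norm_norm]
    exact inv_mul_cancel₀ hpos.ne'
  let X : V := (((t - t⁻¹) / 2) • (‖n.1‖⁻¹ • n.1), (t + t⁻¹) / 2)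
  have hX1 : ‖X.1‖ = (t - t⁻¹) / 2 := by
    show ‖((t - t⁻¹) / 2) • (‖n.1‖⁻¹ • n.1)‖ = _
    rw [norm_smul, hunit, mul_one, Real.norm_of_nonneg]
    linarith
  have hmem : X ∈ LCone 3 := by
    show ‖X.1‖ < (t + t⁻¹) / 2
    rw [hX1]
    linarith
  have hself : lor X X = -1 := by
    have : lor X X = ‖X.1‖ * ‖X.1‖ - X.2 * X.2 := by
      simp only [lor, real_inner_self_eq_norm_mul_norm]
    rw [this, hX1]
    show (t - t⁻¹) / 2 * ((t - t⁻¹) / 2) - (t + t⁻¹) / 2 * ((t + t⁻¹) / 2) = -1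
    linear_combination (-1) * hinv
  refine ⟨⟨X, hmem, hself⟩, ?_⟩
  show M < lor X n
  have h3 : lor X n = (t - t⁻¹) / 2 * ‖n.1‖ - (t + t⁻¹) / 2 * n.2 := by
    show inner ℝ (((t - t⁻¹) / 2) • (‖n.1‖⁻¹ • n.1)) n.1 - (t + t⁻¹) / 2 * n.2 = _
    rw [real_inner_smul_left, real_inner_smul_left, real_inner_self_eq_norm_mul_norm,
      ← mul_assoc (‖n.1‖⁻¹), inv_mul_cancel₀ hpos.ne', one_mul]
  rw [h3]
  have h4 : (t - t⁻¹) / 2 * ‖n.1‖ - (t + t⁻¹) / 2 * n.2 = (t * δ - t⁻¹ * σ) / 2 := by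
    rw [hδd, hσd]
    ring
  rw [h4, htδ]
  have h5 : t⁻¹ * σ ≤ σ := by nlinarith
  linarith

theorem f3_far (n : V) (hn : 0 < lor n n) (R : ℝ) :
    ∃ x : H3, 0 < lor x.val n ∧ ∀ z : H3, dist x z ≤ R → 0 < lor z.val n := by
  set N := Real.sqrt (lor n n) with hN
  have hN0 : 0 < N := Real.sqrt_pos.2 hn
  have hNN : N * N = lor n n := Real.mul_self_sqrt hn.le
  have hs0 : 0 ≤ sinh (max R 0) := Real.sinh_nonneg_iff.2 (le_max_right _ _)
  obtain ⟨x, hx⟩ := f3_pt n hn (N * sinh (max R 0)) (by positivity)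
  have hx0 : 0 < lor x.val n := lt_of_le_of_lt (by positivity) hx
  refine ⟨x, hx0, fun z hz => ?_⟩
  by_contra hc
  push Not at hc
  obtain ⟨z', hz', r, hr, hcomb⟩ := exists_between x z (-lor z.val n) (lor x.val n) (by linarith)
    hx0.le (by linarith)
  have h1 : lor z'.val n = 0 := by
    have h2 : lor ((-lor z.val n) • x.val + (lor x.val n) • z.val) n = lor (r • z'.val) n := by
      rw [hcomb]
    rw [lor_add_left, lor_smul_left, lor_smul_left, lor_smul_left] at h2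
    have h3 : r * lor z'.val n = 0 := by linarith
    exact (mul_eq_zero.1 h3).resolve_left hr.ne'
  have hunit : lor (N⁻¹ • n) (N⁻¹ • n) = 1 := by
    rw [lor_smul_left, lor_smul_right, ← hNN]
    field_simp
  have h4 := plane_dist x z' (N⁻¹ • n) hunit (by rw [lor_smul_right, h1, mul_zero])
  rw [lor_smul_right, abs_of_pos (by positivity)] at h4
  have h5 : sinh (dist x z') ≤ sinh (max R 0) := by
    rw [Real.sinh_le_sinh]
    have := dist_nonneg (x := z') (y := z)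
    exact le_trans (by linarith) (le_max_left _ _)
  have h6 : N * (N⁻¹ * lor x.val n) ≤ N * sinh (max R 0) :=
    mul_le_mul_of_nonneg_left (h4.trans h5) hN0.le
  rw [← mul_assoc, mul_inv_cancel₀ hN0.ne', one_mul] at h6
  linarith

theorem f3_inv {m : ℕ} (hm : 13 ≤ m) (k : (CM m).Group) (x : H3) :
    (RS0 hm).rho k • ((RS0 hm).rho k⁻¹ • x) = x := by
  rw [smul_smul, ← map_mul, mul_inv_cancel, map_one, one_smul]

theorem Pl_sub_Z {m : ℕ} (hm : 13 ≤ m) (ho : Odd m) (Z : Set H3) (hne : Z.Nonempty)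
    (hc : IsClosed Z) (hZ : HConvex Z) (hK : ∀ k ∈ K m, ∀ z ∈ Z, (RS0 hm).rho k • z ∈ Z) :
    Pl ⊆ Z := by
  intro y hy
  by_contra hyZ
  obtain ⟨n, hn, hyn, hzn⟩ := sep Z hne hc hZ y hyZ
  obtain ⟨z, hz⟩ := hne
  obtain ⟨C, hC⟩ := KH_cocompact hm ho
  obtain ⟨x, hx, hxz⟩ := far_point n hn y hy hyn (C + dist O z)
  obtain ⟨k, hk, -, hkC⟩ := hC x hx
  have h1 := hK k⁻¹ ((K m).inv_mem hk) z hz
  have h2 : dist x ((RS0 hm).rho k⁻¹ • z) ≤ C + dist O z := by
    rw [← dist_smul_smul ((RS0 hm).rho k), f3_inv hm]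
    calc dist ((RS0 hm).rho k • x) z ≤ dist ((RS0 hm).rho k • x) O + dist O z :=
          dist_triangle _ _ _
      _ ≤ C + dist O z := by
          rw [dist_comm]
          linarith
  exact absurd (hxz _ h2) (not_lt.2 (hzn _ h1))

theorem Y0_sub_Z {m : ℕ} (hm : 13 ≤ m) (ho : Odd m) (Z : Set H3) (hne : Z.Nonempty)
    (hc : IsClosed Z) (hZ : HConvex Z) (hK : ∀ k ∈ K m, ∀ z ∈ Z, (RS0 hm).rho k • z ∈ Z) :
    Y0 hm ⊆ Z := by
  have hPl := Pl_sub_Z hm ho Z hne hc hZ hK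
  have hfr : frontier (Y0 hm) ⊆ Z := by
    intro x hx
    obtain ⟨v, y, -, hyP, rfl⟩ := frontier_exists hm x hx
    obtain ⟨k, hk, h, hh, rfl⟩ := exists_KH m ho v
    rw [map_mul, mul_smul]
    exact hK k hk _ (hPl ((Pl_smul hm ho h hh y).2 hyP))
  intro x hx
  by_contra hxZ
  obtain ⟨n, hn, hxn, hzn⟩ := sep Z hne hc hZ x hxZ
  have hA : {p : H3 | 0 < lor p.val n} ⊆ interior (Y0 hm) := by
    have hcl : IsClosed (Y0 hm) := Yset_closed (RS0 hm) ex0
    have hcov : {p : H3 | 0 < lor p.val n} ⊆ interior (Y0 hm) ∪ (Y0 hm)ᶜ := by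
      intro p hp
      by_cases h1 : p ∈ Y0 hm
      · left
        by_contra h2
        have h3 : p ∈ frontier (Y0 hm) := by
          rw [hcl.frontier_eq]
          exact ⟨h1, h2⟩
        exact absurd (show 0 < lor p.val n from hp) (not_lt.2 (hzn p (hfr h3)))
      · exact Or.inr h1
    refine (halfspace_preconn n).subset_left_of_subset_union isOpen_interior hcl.isOpen_compl
      ?_ hcov ?_
    · exact disjoint_compl_right_iff_subset.2 interior_subset
    · refine ⟨x, hxn, ?_⟩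
      rcases hcov (show x ∈ {p : H3 | 0 < lor p.val n} from hxn) with h | h
      · exact h
      · exact absurd hx h
  obtain ⟨C, hC⟩ := (D0_compact hm).isBounded.subset_closedBall O
  obtain ⟨p, hp0, hp⟩ := f3_far n hn C
  have hpY : p ∈ Y0 hm := interior_subset (hA hp0)
  have hD := (Yset_fold (RS0 hm) ex0 (ex0_anti hm) p).1 hpY
  obtain ⟨w, hw⟩ := (RS0 hm).fold_spec p
  have hO : O ∈ Pl := by
    show lor O.val vF = 0
    simp [lor, Ohy, vF, vec]
  have h1 := frontier_of hm ho w O hO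
  have h2 : dist p ((RS0 hm).rho w • O) ≤ C := by
    conv_lhs => rw [hw]
    rw [dist_smul_smul]
    exact Metric.mem_closedBall.1 (hC hD)
  exact absurd (hp _ h2) (not_lt.2 (hzn _ (hfr h1)))

end CEE
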