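import Pool.Agent.CEE.Y1a

set_option autoImplicit false

/-!
# [CEE-Y1b] Separation
-/

namespace CEE

open Pool.Agent.MP_8db1a4_gt Set

/- PROOF NOTES [CEE-Y1b].
`sep` (separation): `C = {t • z.val | t > 0, z ∈ Z}` is convex (`exists_between`), `y.val ∉ closure C`: if `t_k z_k → y` then `t_k² = -lor → 1`, `z_k → y` in `V`, hence in `H3` (`B1c.b1c_isClosedEmbedding`), so `y ∈ Z`.
 Separate `y.val` from the closed convex cone `closure C` (`geometric_hahn_banach_point_closed` or similar; scaling shows that the constant can be taken `0`): a linear `f` with `f y > 0`, `f ≤ 0` on `C`.  `f = lor · n` for some `n` (`f X = f e₀ ..` coordinates; the form is nondegenerate).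
 `lor n n > 0`: otherwise `n` (or `-n`) is in the closed cone `‖n.1‖ ≤ |n.2|` and `lor x n` has the same sign (strict unless `n = 0`) for all `x ∈ H3`, but `lor y n > 0` and `lor z n ≤ 0` for `z ∈ Z ≠ ∅`. `halfspace_preconn`: the image of the convex set `{X ∈ LCone 3 | 0 < lor X n}` under the continuous map `X ↦ X / rad X` to `H3` (continuity into `H3` by `B1c.b1c_isInducing`); or: any two points are joined by the geodesic (`between_lor`, `b1b_geod`), which stays in the set. -/

/-- every linear functional is `lor · n` -/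
theorem y1b_repr (f : V →ₗ[ℝ] ℝ) : ∃ n : V, ∀ X : V, f X = lor X n := by
  refine ⟨vec (f (vec 1 0 0 0)) (f (vec 0 1 0 0)) (f (vec 0 0 1 0)) (-f (vec 0 0 0 1)), fun X => ?_⟩
  have hX : X = X.1 0 • vec 1 0 0 0 + X.1 1 • vec 0 1 0 0 + X.1 2 • vec 0 0 1 0 + X.2 • vec 0 0 0 1 := by
    refine Prod.ext ?_ ?_
    · ext i
      fin_cases i <;> simp [vec]
    · simp [vec]
  conv_lhs => rw [hX]
  rw [map_add, map_add, map_add, map_smul, map_smul, map_smul, map_smul, lor_eq, vec_0, vec_1, vec_2, vec_3]
  simp only [smul_eq_mul]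
  ring

/-- separation of a point from a closed convex set by a half space -/
theorem sep (Z : Set H3) (hne : Z.Nonempty) (hc : IsClosed Z) (hZ : HConvex Z) (y : H3) (hy : y ∉ Z) :
    ∃ n : V, 0 < lor n n ∧ 0 < lor y.val n ∧ ∀ z ∈ Z, lor z.val n ≤ 0 := by
  -- the cone over `Z`
  obtain ⟨C, hC⟩ : ∃ C : Set V, C = {X | ∃ t : ℝ, 0 < t ∧ ∃ z ∈ Z, X = t • z.val} := ⟨_, rfl⟩
  have hCc : Convex ℝ C := by
    rw [hC]
    rintro X ⟨t, ht, z, hz, rfl⟩ Y ⟨t', ht', z', hz', rfl⟩ a b ha hb hab
    have h1 : 0 < a * t + b * t' := by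
      rcases eq_or_lt_of_le ha with h0 | h0
      · have hb1 : b = 1 := by linarith
        rw [← h0, hb1]
        linarith
      · have := mul_pos h0 ht
        have := mul_nonneg hb ht'.le
        linarith
    obtain ⟨w, hw, r, hr, hrw⟩ := exists_between z z' (a * t) (b * t') (mul_nonneg ha ht.le) (mul_nonneg hb ht'.le) h1
    refine ⟨r, hr, w, hZ z hz z' hz' w hw, ?_⟩
    rw [smul_smul, smul_smul]
    exact hrw
  have hCcl : y.val ∉ closure C := by
    intro hcl
    have hc1 : ContinuousAt (fun X : V => (rad X)⁻¹ • X) y.val := by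
      refine ContinuousAt.smul (ContinuousAt.inv₀ (continuous_rad 3).continuousAt ?_) continuousAt_id
      rw [rad_hy]
      exact one_ne_zero
    have h1 := mem_closure_image hc1 hcl
    have himg : (fun X : V => (rad X)⁻¹ • X) '' C ⊆ (Hy.val : H3 → V) '' Z := by
      rintro _ ⟨X, hX, rfl⟩
      rw [hC] at hX
      obtain ⟨t, ht, z, hz, rfl⟩ := hX
      refine ⟨z, hz, ?_⟩
      simp only
      rw [rad_smul z.val ht.le, rad_hy, mul_one, smul_smul, inv_mul_cancel₀ ht.ne', one_smul]
    have hcl2 : IsClosed ((Hy.val : H3 → V) '' Z) := (B1c.b1c_isClosedEmbedding 3).isClosedMap Z hc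
    have h2 := hcl2.closure_subset_iff.2 himg h1
    obtain ⟨z, hz, hzy⟩ := h2
    rw [rad_hy, inv_one, one_smul] at hzy
    have : z = y := Hy.ext' hzy
    rw [this] at hz
    exact hy hz
  obtain ⟨f, u, hfu, hfy⟩ := geometric_hahn_banach_closed_point hCc.closure isClosed_closure hCcl
  obtain ⟨n, hn⟩ := y1b_repr (f : V →ₗ[ℝ] ℝ)
  have hn' : ∀ X : V, f X = lor X n := hn
  have hmem : ∀ z ∈ Z, ∀ t : ℝ, 0 < t → t * lor z.val n < u := by
    intro z hz t ht
    have h1 := hfu (t • z.val) (subset_closure (by rw [hC]; exact ⟨t, ht, z, hz, rfl⟩))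
    rw [hn', lor_smul_left] at h1
    exact h1
  have hneg : ∀ z ∈ Z, lor z.val n ≤ 0 := by
    intro z hz
    by_contra hcon
    push Not at hcon
    have h1 := hmem z hz ((|u| + 1) / lor z.val n) (div_pos (by positivity) hcon)
    rw [div_mul_cancel₀ _ hcon.ne'] at h1
    linarith [le_abs_self u]
  have hu : 0 ≤ u := by
    obtain ⟨z, hz⟩ := hne
    by_contra hcon
    push Not at hcon
    -- `t * lor z n < u < 0` for all `t > 0`
    have h2 := hneg z hz
    have h3 := hmem z hz (-u / (2 * (1 + |lor z.val n|))) (div_pos (by linarith) (by positivity))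
    have h4 : |(-u / (2 * (1 + |lor z.val n|))) * lor z.val n| ≤ -u / 2 := by
      rw [abs_mul, abs_of_pos (div_pos (by linarith : (0 : ℝ) < -u) (by positivity : (0 : ℝ) < 2 * (1 + |lor z.val n|)))]
      rw [div_mul_eq_mul_div, div_le_div_iff₀ (by positivity) (by norm_num)]
      have h5 : 0 ≤ |lor z.val n| := abs_nonneg _
      nlinarith
    have h5 := (abs_le.1 h4).1
    linarith
  have hyn : 0 < lor y.val n := by
    rw [← hn']
    linarith
  refine ⟨n, ?_, hyn, hneg⟩
  obtain ⟨z, hz⟩ := hne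
  have hzn := hneg z hz
  obtain ⟨w, hw, r, hr, hrw⟩ := exists_between y z (-lor z.val n) (lor y.val n) (by linarith) hyn.le (by linarith)
  have hw0 : lor n w.val = 0 := by
    have h1 : r * lor w.val n = 0 := by
      rw [← lor_smul_left, ← hrw, lor_add_left, lor_smul_left, lor_smul_left]
      ring
    rw [lor_comm]
    exact (mul_eq_zero.1 h1).resolve_left hr.ne'
  rcases eq_or_lt_of_le (lor_self_nonneg_of_orth w.mem hw0) with h0 | h0
  · have h1 := lor_self_eq_zero_of_orth w.mem hw0 h0.symm
    rw [h1] at hyn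
    have h2 : lor y.val (0 : V) = 0 := by
      have := lor_smul_right 0 y.val (0 : V)
      rwa [zero_smul, zero_mul] at this
    rw [h2] at hyn
    exact absurd hyn (lt_irrefl _)
  · exact h0

/-- open half spaces are connected -/
theorem halfspace_preconn (n : V) : IsPreconnected {x : H3 | 0 < lor x.val n} := by
  apply isPreconnected_of_forall_pair
  intro x hx y hy
  have hx' : 0 < lor x.val n := hx
  have hy' : 0 < lor y.val n := hy
  obtain ⟨γ, g0, g1, hγ⟩ := b1b_geod x y
  have hD : 0 ≤ dist x y := dist_nonneg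
  have z0 : (0 : ℝ) ∈ Icc 0 (dist x y) := ⟨le_rfl, hD⟩
  have z1 : dist x y ∈ Icc 0 (dist x y) := ⟨hD, le_rfl⟩
  refine ⟨γ '' Icc 0 (dist x y), ?_, ⟨0, z0, g0⟩, ⟨_, z1, g1⟩, ?_⟩
  · rintro _ ⟨t, ht, rfl⟩
    have hz : dist x (γ t) + dist (γ t) y = dist x y := by
      have e1 := hγ 0 z0 t ht
      have e2 := hγ t ht _ z1
      rw [g0] at e1
      rw [g1] at e2
      rw [e1, e2, zero_sub, abs_neg, abs_of_nonneg ht.1, abs_of_nonpos (by linarith [ht.2])]
      ring
    obtain ⟨a, b, ha, hb, hab⟩ := between_lor hz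
    show 0 < lor (γ t).val n
    rw [hab, lor_add_left, lor_smul_left, lor_smul_left]
    have h1 := mul_nonneg ha hx'.le
    have h2 := mul_nonneg hb hy'.le
    rcases eq_or_lt_of_le ha with h0 | h0
    · rcases eq_or_lt_of_le hb with h3 | h3
      · exfalso
        rw [← h0, ← h3, zero_smul, zero_smul, add_zero] at hab
        have h4 := (γ t).mem
        rw [hab] at h4
        exact zero_notMem_LCone 3 h4
      · have := mul_pos h3 hy'
        linarith
    · have := mul_pos h0 hx'
      linarith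
  · refine isPreconnected_Icc.image γ ?_
    have hl : LipschitzOnWith 1 γ (Icc 0 (dist x y)) := by
      apply LipschitzOnWith.of_dist_le_mul
      intro s hs t ht
      rw [hγ s hs t ht, NNReal.coe_one, one_mul, Real.dist_eq]
    exact hl.continuousOn

end CEE
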