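import Pool.Agent.CEE.F2
import Pool.Agent.CEE.Y1b

set_option autoImplicit false

/-!
# [CEE-F3a] Cocompactness on the boundary plane, far points
-/

namespace CEE

open Pool.Agent.MP_8db1a4_gt Set Real

/- PROOF NOTES [CEE-F3a].
`KH_cocompact`: `Pl = H (Pl ∩ D0)` (`Pl_exists`), `K ∩ H` has finite index in `H` (`phi m` has finite image, `Q` is finite): choose for each value `c ∈ phi m '' Hs m` an element `h_c ∈ Hs` with `phi h_c = c`; for `x ∈ Pl`, `ρ(h) x ∈ D0`, `k = h_c⁻¹ h ∈ K ∩ H` with `c = phi h`, so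
 `ρ(k) x ∈ ⋃_c ρ(h_c⁻¹) D0`, which is compact (`D0_compact`, finite union of isometric images), hence in a ball around `O`.  (`Pl ∩ cham ⊆ D0`: `lor x vF = 0 ≤ 0`.)
`far_point`: let `u` be a unit vector with `lor u y = 0`, `lor u vF = 0` and `lor u n ≥ 0` (take for example `u₀` = the normalised difference: `y.val = (a, 0, c; d)` (`y ∈ Pl` means `y.val.1 1 = 0`), `u₀ = (d, 0, 0; a)/√(d² - a²)`, and `u = ± u₀` so that `lor u n ≥ 0`).  The points `x_s` with the vector
 `cosh s • y + sinh s • u` (`s ≥ 0`) are in `H3` (`lor = -1`, the time coordinate is positive: e.g. `lor` with `y` is `- cosh s < 0` and `lor_self`; or directly for the explicit `u`: `cosh s d ± sinh s a/√.. > 0`) and in `Pl`, and `lor x_s n = cosh s lor y n + sinh s lor u n ≥ cosh s lor y n`, which is unbounded.  No case distinction is needed.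
 Take `s` with `cosh s · lor y n > √(lor n n) · sinh (max R 0)`.  If `dist x z ≤ R` and `lor z n ≤ 0`: on the geodesic from `x` to `z` (`b1b_geod`, or `exists_between` with the coefficients `- lor z n ≥ 0`, `lor x n > 0`) there is a point `z'` with `lor z' n = 0` and `dist x z' ≤ dist x z ≤ R`; `plane_dist` for the unit vector `n/√(lor n n)` gives
 `lor x n / √(lor n n) ≤ sinh R`: contradiction. -/

theorem KH_cocompact {m : ℕ} (hm : 13 ≤ m) (ho : Odd m) :
    ∃ C : ℝ, ∀ x ∈ Pl, ∃ k ∈ K m, k ∈ Hs m ∧ dist O ((RS0 hm).rho k • x) ≤ C := by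
  classical
  have hch : ∀ c : Q, ∃ h : (CM m).Group, h ∈ Hs m ∧ ((∃ h' ∈ Hs m, phi m h' = c) → phi m h = c) := by
    intro c
    by_cases hc : ∃ h' ∈ Hs m, phi m h' = c
    · obtain ⟨h', h1, h2⟩ := hc
      exact ⟨h', h1, fun _ => h2⟩
    · exact ⟨1, one_mem _, fun h => absurd h hc⟩
  choose hq hq1 hq2 using hch
  obtain ⟨C1, hC1⟩ : ∃ C1 : ℝ, ∀ c : Q, dist ((RS0 hm).rho (hq c) • O) O ≤ C1 := by
    obtain ⟨C1, hC1⟩ := (Set.finite_range fun c : Q => dist ((RS0 hm).rho (hq c) • O) O).bddAbove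
    exact ⟨C1, fun c => hC1 (Set.mem_range_self c)⟩
  obtain ⟨C2, hC2⟩ : ∃ C2 : ℝ, ∀ y ∈ D0 m, dist O y ≤ C2 := by
    obtain ⟨C2, hC2⟩ := (D0_compact hm).isBounded.subset_closedBall O
    exact ⟨C2, fun y hy => by
      rw [dist_comm]
      exact hC2 hy⟩
  refine ⟨C1 + C2, fun x hx => ?_⟩
  obtain ⟨h, hh, hP, hc⟩ := Pl_exists hm ho x hx
  have hD : (RS0 hm).rho h • x ∈ D0 m := by
    refine ⟨hc, fun v hv => ?_⟩
    have hv' : v = vF := hv
    rw [hv']
    exact le_of_eq hP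
  have hk : phi m (hq (phi m h)) = phi m h := hq2 _ ⟨h, hh, rfl⟩
  refine ⟨(hq (phi m h))⁻¹ * h, ?_, mul_mem (inv_mem (hq1 _)) hh, ?_⟩
  · show phi m ((hq (phi m h))⁻¹ * h) = 1
    rw [map_mul, map_inv, hk, inv_mul_cancel]
  · rw [map_mul, mul_smul, map_inv]
    have e1 : dist O (((RS0 hm).rho (hq (phi m h)))⁻¹ • ((RS0 hm).rho h • x)) =
        dist ((RS0 hm).rho (hq (phi m h)) • O) ((RS0 hm).rho h • x) := by
      rw [← dist_smul_smul ((RS0 hm).rho (hq (phi m h))) O, smul_inv_smul]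
    rw [e1]
    refine (dist_triangle _ O _).trans ?_
    exact add_le_add (hC1 _) (hC2 _ hD)

/-- the point in the direction `u` -/
theorem f3a_pt (y : H3) (u : V) (hu : lor u u = 1) (huy : lor u y.val = 0) (t : ℝ) :
    ∃ x : H3, x.val = Real.cosh t • y.val + Real.sinh t • u := by
  have h1 : lor (Real.cosh t • y.val + Real.sinh t • u) (Real.cosh t • y.val + Real.sinh t • u) = -1 := by
    simp only [lor_add_left, lor_add_right, lor_smul_left, lor_smul_right, y.lor_self, hu, huy, lor_comm y.val u]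
    have := Real.cosh_sq t
    linarith
  have h2 : lor (Real.cosh t • y.val + Real.sinh t • u) y.val = -Real.cosh t := by
    rw [lor_add_left, lor_smul_left, lor_smul_left, y.lor_self, huy]
    ring
  obtain ⟨X, hX⟩ : ∃ X : V, X = Real.cosh t • y.val + Real.sinh t • u := ⟨_, rfl⟩
  rw [← hX] at h1 h2
  have hi : lor X X = ‖X.1‖ * ‖X.1‖ - X.2 * X.2 := by
    have h5 : inner ℝ X.1 X.1 = ‖X.1‖ * ‖X.1‖ := real_inner_self_eq_norm_mul_norm _
    simp only [lor, h5]
  have hy1 : ‖y.val.1‖ < y.val.2 := y.mem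
  have hy0 : 0 < y.val.2 := lt_of_le_of_lt (norm_nonneg _) hy1
  have hc : 0 < Real.cosh t := Real.cosh_pos t
  have hin : inner ℝ X.1 y.val.1 - X.2 * y.val.2 = -Real.cosh t := h2
  have habs := abs_real_inner_le_norm X.1 y.val.1
  have hX2 : 0 < X.2 := by
    by_contra hcon
    push Not at hcon
    have h3 : ‖X.1‖ < |X.2| := by
      refine lt_of_pow_lt_pow_left₀ 2 (abs_nonneg _) ?_
      rw [sq_abs]
      nlinarith
    have h4 : |X.2| = -X.2 := abs_of_nonpos hcon
    rw [h4] at h3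
    have h5 := (abs_le.1 habs).1
    nlinarith [norm_nonneg X.1, norm_nonneg y.val.1]
  refine ⟨⟨X, ?_, h1⟩, hX⟩
  show ‖X.1‖ < X.2
  refine lt_of_pow_lt_pow_left₀ 2 hX2.le ?_
  nlinarith

theorem f3a_dir (n : V) (y : H3) (hy : y ∈ Pl) :
    ∃ u : V, lor u u = 1 ∧ lor u y.val = 0 ∧ lor u vF = 0 ∧ 0 ≤ lor u n := by
  have hy1 : y.val.1 1 = 0 := by
    have h1 : lor y.val vF = 0 := hy
    rw [lor_eq] at h1
    simp only [vF, vec_0, vec_1, vec_2, vec_3] at h1
    linarith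
  have hyy := y.lor_self
  rw [lor_eq, hy1] at hyy
  obtain ⟨a, ha⟩ : ∃ a, a = y.val.1 0 := ⟨_, rfl⟩
  obtain ⟨c, hc⟩ : ∃ c, c = y.val.1 2 := ⟨_, rfl⟩
  obtain ⟨d, hd⟩ : ∃ d, d = y.val.2 := ⟨_, rfl⟩
  rw [← ha, ← hc, ← hd] at hyy
  have hpos : 0 < d ^ 2 - a ^ 2 := by nlinarith [sq_nonneg c]
  have hr : 0 < Real.sqrt (d ^ 2 - a ^ 2) := Real.sqrt_pos.2 hpos
  have hr2 : Real.sqrt (d ^ 2 - a ^ 2) ^ 2 = d ^ 2 - a ^ 2 := Real.sq_sqrt hpos.le
  obtain ⟨r, hrd⟩ : ∃ r, r = Real.sqrt (d ^ 2 - a ^ 2) := ⟨_, rfl⟩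
  rw [← hrd] at hr hr2
  obtain ⟨u, hu⟩ : ∃ u : V, u = vec (d / r) 0 0 (a / r) := ⟨_, rfl⟩
  have h1 : lor u u = 1 := by
    rw [hu, lor_eq, vec_0, vec_1, vec_2, vec_3]
    field_simp
    linarith
  have h2 : lor u y.val = 0 := by
    rw [hu, lor_eq, vec_0, vec_1, vec_2, vec_3, hy1, ← ha, ← hc, ← hd]
    field_simp
    ring
  have h3 : lor u vF = 0 := by
    rw [hu, lor_eq]
    simp only [vF, vec_0, vec_1, vec_2, vec_3]
    ring
  rcases le_total 0 (lor u n) with h4 | h4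
  · exact ⟨u, h1, h2, h3, h4⟩
  · refine ⟨-u, ?_, ?_, ?_, ?_⟩
    · rw [lor_neg_left, lor_neg_right, h1]
      ring
    · rw [lor_neg_left, h2, neg_zero]
    · rw [lor_neg_left, h3, neg_zero]
    · rw [lor_neg_left]
      linarith

theorem far_point (n : V) (hn : 0 < lor n n) (y : H3) (hy : y ∈ Pl) (hyn : 0 < lor y.val n) (R : ℝ) :
    ∃ x ∈ Pl, ∀ z : H3, dist x z ≤ R → 0 < lor z.val n := by
  obtain ⟨u, hu, huy, huF, hun⟩ := f3a_dir n y hy
  have hN : 0 < Real.sqrt (lor n n) := Real.sqrt_pos.2 hn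
  -- the parameter
  obtain ⟨t, ht0, ht⟩ : ∃ t : ℝ, 0 ≤ t ∧ Real.sqrt (lor n n) * Real.sinh (max R 0) < Real.cosh t * lor y.val n := by
    obtain ⟨A, hA⟩ : ∃ A, A = Real.sqrt (lor n n) * Real.sinh (max R 0) / lor y.val n := ⟨_, rfl⟩
    refine ⟨|A|, abs_nonneg _, ?_⟩
    have h1 : A < Real.cosh |A| := by
      have h2 : |A| + 1 ≤ Real.exp |A| := Real.add_one_le_exp _
      have h3 : |A| < Real.cosh |A| := by
        have h4 := Real.self_le_sinh_iff.2 (abs_nonneg A)
        have h5 := Real.sinh_lt_cosh |A|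
        linarith
      exact lt_of_le_of_lt (le_abs_self A) h3
    have h6 : A * lor y.val n = Real.sqrt (lor n n) * Real.sinh (max R 0) := by
      rw [hA, div_mul_cancel₀ _ hyn.ne']
    rw [← h6]
    exact mul_lt_mul_of_pos_right h1 hyn
  obtain ⟨x, hx⟩ := f3a_pt y u hu huy t
  have hsh : 0 ≤ Real.sinh t := Real.sinh_nonneg_iff.2 ht0
  have hxn : Real.cosh t * lor y.val n ≤ lor x.val n := by
    rw [hx, lor_add_left, lor_smul_left, lor_smul_left]
    have := mul_nonneg hsh hun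
    linarith
  refine ⟨x, ?_, fun z hz => ?_⟩
  · show lor x.val vF = 0
    have hyF : lor y.val vF = 0 := hy
    rw [hx, lor_add_left, lor_smul_left, lor_smul_left, hyF, huF]
    ring
  · by_contra hcon
    push Not at hcon
    have hxp : 0 < lor x.val n := by
      have := mul_pos (Real.cosh_pos t) hyn
      linarith
    obtain ⟨z', hz', r, hr, hrz⟩ := exists_between x z (-lor z.val n) (lor x.val n) (by linarith) hxp.le (by linarith)
    have h0 : lor z'.val n = 0 := by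
      have h1 : r * lor z'.val n = 0 := by
        rw [← lor_smul_left, ← hrz, lor_add_left, lor_smul_left, lor_smul_left]
        ring
      exact (mul_eq_zero.1 h1).resolve_left hr.ne'
    have hunit : lor ((Real.sqrt (lor n n))⁻¹ • n) ((Real.sqrt (lor n n))⁻¹ • n) = 1 := by
      rw [lor_smul_left, lor_smul_right]
      have h2 : Real.sqrt (lor n n) * Real.sqrt (lor n n) = lor n n := Real.mul_self_sqrt hn.le
      have h3 : (Real.sqrt (lor n n))⁻¹ * ((Real.sqrt (lor n n))⁻¹ * lor n n) =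
          (Real.sqrt (lor n n))⁻¹ * ((Real.sqrt (lor n n))⁻¹ * (Real.sqrt (lor n n) * Real.sqrt (lor n n))) := by
        rw [h2]
      rw [h3]
      field_simp
    have h4 := plane_dist x z' ((Real.sqrt (lor n n))⁻¹ • n) hunit (by rw [lor_smul_right, h0, mul_zero])
    have h5 : dist x z' ≤ max R 0 := by
      have := dist_nonneg (x := z') (y := z)
      have h6 : dist x z' ≤ dist x z := by linarith
      exact (h6.trans hz).trans (le_max_left _ _)
    have h7 : Real.sinh (dist x z') ≤ Real.sinh (max R 0) := Real.sinh_le_sinh.2 h5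
    rw [lor_smul_right] at h4
    have h8 : (Real.sqrt (lor n n))⁻¹ * lor x.val n ≤ Real.sinh (max R 0) := ((le_abs_self _).trans h4).trans h7
    have h9 : lor x.val n ≤ Real.sqrt (lor n n) * Real.sinh (max R 0) := by
      have h10 := mul_le_mul_of_nonneg_left h8 hN.le
      rwa [← mul_assoc, mul_inv_cancel₀ hN.ne', one_mul] at h10
    linarith

end CEE
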