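import Pool.Agent.CEE.P2a

set_option autoImplicit false

/-!
# [CEE-Y3a] The sector estimate
-/

namespace CEE

open Pool.Agent.MP_8db1a4_gt Set Real

/- PROOF NOTES [CEE-Y3a].  `C = cos (w/2)`, `s = sin (w/2)` (positive), `X = x.val.2 ≥ 1`, `x₃ = x.val.1 2`, `t = tv w`, `σ = (-1)^i`, `β = σ t x₃`.
`half_cos`: `2 C² = 1 + cos w`, `E cos w = 1 + 2 S`: `C² = (4S+1)(S+1)/E`, `s² = S(4S+3)/E`.
`T, B`: `x₃ √(1+S) ≤ X √S`, so `|x₃| ≤ t X`, `|β| ≤ t² X`.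
The two side inequalities: `q r cos(φ + w/2) + p β ≤ p X`, `q r cos(φ - w/2) - p β ≤ p X` (`cos (θ - i w)`, `cos (θ - (i+1) w)` with `θ = (i+1/2) w + φ`; addition formulas in `lor_eq`).
Put `y = (q/p) r cos φ · C ≥ 0`, `z = (q/p) r sin φ · s`: `y - z ≤ X - β`, `y + z ≤ X + β`, `|z| ≤ (s²/C²) y` (because `|sin φ| C ≤ cos φ s`, i.e. `sin (w/2 ± φ) ≥ 0`), and `((q/p) r)² = y²/C² + z²/s²`.
CLAIM `y²/C² + z²/s² ≤ max (X²/C² + β²/s²) ((X+|β|)²)`.  By symmetry (`z, β → -z, -β`) let `β ≤ z`.  Then `0 ≤ y ≤ X + β - z` and `z ≤ (s²/C²)(X + β - z)`, i.e. `z ≤ s² (X + β)` (`C² + s² = 1`).  The convex function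
`g(z) = (X+β-z)²/C² + z²/s²` is at most the maximum of its values at `β` (`X²/C² + β²/s²`) and at `s² (X+β)` (`(X+β)² (C² + s²) = (X+β)²`).
Then `X² = 1 + r² + x₃²` (`x.lor_self`), `r² ≤ (p²/q²) max(...)`, `p²/q² = (1+S)/E`, `t² = S/(1+S)`:
 first case: `X² (1 - t² - (p²/q²)(1/C² + t⁴/s²)) ≤ 1` and the bracket is exactly `8S/((4S+3)(4S+1))`;
 second case: `X² (1 - t² - (p²/q²)(1+t²)²) ≤ 1`, bracket `= 4S/E ≥ 8S/((4S+3)(4S+1))` since `(4S+3)(4S+1) = 2E + 1`.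
Finally `(4S+3)(4S+1)/8 ≤ 1` for `S ≤ 1/8`. -/

/-- the sum-to-one form of the quadratic, convexity -/
theorem y3a_convex {p q K a z b : ℝ} (hp : 0 ≤ p) (hq : 0 ≤ q) (h1 : a ≤ z) (h2 : z ≤ b) :
    p * (K - z) ^ 2 + q * z ^ 2 ≤
      max (p * (K - a) ^ 2 + q * a ^ 2) (p * (K - b) ^ 2 + q * b ^ 2) := by
  by_contra hcon
  rw [not_le, max_lt_iff] at hcon
  obtain ⟨h3, h4⟩ := hcon
  have e1 : p * (K - z) ^ 2 + q * z ^ 2 - (p * (K - a) ^ 2 + q * a ^ 2) =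
      (z - a) * (p * (z + a - 2 * K) + q * (z + a)) := by ring
  have e2 : p * (K - z) ^ 2 + q * z ^ 2 - (p * (K - b) ^ 2 + q * b ^ 2) =
      (b - z) * -(p * (z + b - 2 * K) + q * (z + b)) := by ring
  have h5 : 0 < (z - a) * (p * (z + a - 2 * K) + q * (z + a)) := by linarith
  have h6 : 0 < (b - z) * -(p * (z + b - 2 * K) + q * (z + b)) := by linarith
  have h7 : 0 < p * (z + a - 2 * K) + q * (z + a) := by
    by_contra hh
    have := mul_nonpos_of_nonneg_of_nonpos (sub_nonneg.2 h1) (not_lt.1 hh)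
    linarith
  have h8 : 0 < -(p * (z + b - 2 * K) + q * (z + b)) := by
    by_contra hh
    have := mul_nonpos_of_nonneg_of_nonpos (sub_nonneg.2 h2) (not_lt.1 hh)
    linarith
  have h9 : 0 ≤ (p + q) * (b - a) := mul_nonneg (by linarith) (by linarith)
  nlinarith

theorem y3a_half {C s X y z β : ℝ} (hC : 0 < C) (hs : 0 < s) (hCs : C ^ 2 + s ^ 2 = 1)
    (hX : 0 ≤ X) (hy : 0 ≤ y) (h2 : y + z ≤ X + β) (hz : |z| * C ^ 2 ≤ y * s ^ 2)
    (hβ : |β| ≤ X) (hle : β ≤ z) :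
    y ^ 2 / C ^ 2 + z ^ 2 / s ^ 2 ≤ max (X ^ 2 / C ^ 2 + β ^ 2 / s ^ 2) ((X + |β|) ^ 2) := by
  have hC2 : 0 < C ^ 2 := by positivity
  have hs2 : 0 < s ^ 2 := by positivity
  have h3 : z * C ^ 2 ≤ |z| * C ^ 2 := mul_le_mul_of_nonneg_right (le_abs_self z) hC2.le
  have h4 : y * s ^ 2 ≤ (X + β - z) * s ^ 2 := mul_le_mul_of_nonneg_right (by linarith) hs2.le
  have h5 : z ≤ s ^ 2 * (X + β) := by
    have h6 : z = z * C ^ 2 + z * s ^ 2 := by rw [← mul_add, hCs, mul_one]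
    rw [h6]
    nlinarith
  have h6 := y3a_convex (p := 1 / C ^ 2) (q := 1 / s ^ 2) (K := X + β) (by positivity)
    (by positivity) hle h5
  have h7 : y ^ 2 / C ^ 2 ≤ 1 / C ^ 2 * (X + β - z) ^ 2 := by
    rw [div_eq_mul_one_div, mul_comm]
    apply mul_le_mul_of_nonneg_left _ (by positivity)
    exact pow_le_pow_left₀ hy (by linarith) 2
  have h8 : z ^ 2 / s ^ 2 = 1 / s ^ 2 * z ^ 2 := by rw [div_eq_mul_one_div, mul_comm]
  rw [h8]
  refine le_trans (by linarith : _ ≤ 1 / C ^ 2 * (X + β - z) ^ 2 + 1 / s ^ 2 * z ^ 2)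
    (le_trans h6 ?_)
  apply max_le_max
  · apply le_of_eq
    rw [show X + β - β = X by ring]
    ring
  · have h9 : X + β - s ^ 2 * (X + β) = C ^ 2 * (X + β) := by
      linear_combination -(X + β) * hCs
    rw [h9]
    have h10 : 1 / C ^ 2 * (C ^ 2 * (X + β)) ^ 2 + 1 / s ^ 2 * (s ^ 2 * (X + β)) ^ 2 =
        (C ^ 2 + s ^ 2) * (X + β) ^ 2 := by
      field_simp
    rw [h10, hCs, one_mul]
    have h11 := abs_le.1 hβ
    apply pow_le_pow_left₀ (by linarith)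
    linarith [le_abs_self β]

theorem half_cos {w : ℝ} (h0 : 0 < w) (h1 : w ≤ 1 / 2) :
    cos (w / 2) ^ 2 = (4 * Sv w + 1) * (Sv w + 1) / Ev w ∧
      sin (w / 2) ^ 2 = Sv w * (4 * Sv w + 3) / Ev w := by
  have hS := Sv_pos h0 h1
  have hE := p1_Ev_pos hS
  have h2 : Ev w = 8 * Sv w ^ 2 + 8 * Sv w + 1 := rfl
  have h3 := Ev_cos h0 h1
  have h4 : cos w = (1 + 2 * Sv w) / Ev w := by
    rw [eq_div_iff hE.ne', h3]
  have h5 : cos (w / 2) ^ 2 = (4 * Sv w + 1) * (Sv w + 1) / Ev w := by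
    rw [Real.cos_sq, show 2 * (w / 2) = w by ring, h4]
    rw [h2] at hE ⊢
    field_simp
    ring
  refine ⟨h5, ?_⟩
  rw [Real.sin_sq, h5]
  rw [h2] at hE ⊢
  field_simp
  ring

theorem abs_x3_le {w : ℝ} (h0 : 0 < w) (h1 : w ≤ 1 / 2) (x : H3) (hT : lor x.val (vT w) ≤ 0)
    (hB : lor x.val (vB w) ≤ 0) : |x.val.1 2| ≤ tv w * x.val.2 := by
  have hS := Sv_pos h0 h1
  have e := tv_eq h0 h1
  have hs : 0 < sqrt (1 + Sv w) := Real.sqrt_pos.2 (by linarith)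
  rw [lor_eq] at hT hB
  simp only [vT, vB, vec_0, vec_1, vec_2, vec_3] at hT hB
  rw [← e] at hT hB
  rw [abs_le]
  constructor
  · refine le_of_mul_le_mul_right ?_ hs
    linarith
  · refine le_of_mul_le_mul_right ?_ hs
    linarith

theorem max_claim {C s X y z β : ℝ} (hC : 0 < C) (hs : 0 < s) (hCs : C ^ 2 + s ^ 2 = 1) (hX : 0 ≤ X)
    (hy : 0 ≤ y) (h1 : y - z ≤ X - β) (h2 : y + z ≤ X + β) (hz : |z| * C ^ 2 ≤ y * s ^ 2)
    (hβ : |β| ≤ X) :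
    y ^ 2 / C ^ 2 + z ^ 2 / s ^ 2 ≤ max (X ^ 2 / C ^ 2 + β ^ 2 / s ^ 2) ((X + |β|) ^ 2) := by
  rcases le_total β z with h | h
  · exact y3a_half hC hs hCs hX hy h2 hz hβ h
  · have h3 := y3a_half (z := -z) (β := -β) hC hs hCs hX hy (by linarith)
      (by rw [abs_neg]; exact hz) (by rw [abs_neg]; exact hβ) (by linarith)
    rw [abs_neg, neg_sq, neg_sq] at h3
    exact h3

theorem y3a_pos (x : H3) : 0 < x.val.2 :=
  lt_of_le_of_lt (norm_nonneg _) x.mem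

theorem y3a_final {S E X r x3 β c s : ℝ} (hS : 0 < S) (hS8 : S ≤ 1 / 8)
    (hE : E = 8 * S ^ 2 + 8 * S + 1) (hXX : 0 < X ^ 2) (hX : 0 ≤ X)
    (hr2 : X ^ 2 = 1 + r ^ 2 + x3 ^ 2) (hx3 : x3 ^ 2 ≤ S / (1 + S) * X ^ 2)
    (hβ2 : β ^ 2 ≤ (S / (1 + S)) ^ 2 * X ^ 2) (hβ : |β| ≤ S / (1 + S) * X)
    (hc : c ^ 2 = (4 * S + 1) * (S + 1) / E) (hs : s ^ 2 = S * (4 * S + 3) / E)
    (hm : E / (1 + S) * r ^ 2 ≤ max (X ^ 2 / c ^ 2 + β ^ 2 / s ^ 2) ((X + |β|) ^ 2)) :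
    X ^ 2 ≤ 1 / S := by
  have hE0 : 0 < E := by rw [hE]; positivity
  have hs0 : 0 < S * (4 * S + 3) / E := by positivity
  rw [hc, hs] at hm
  have hEr : r ^ 2 = (1 + S) / E * (E / (1 + S) * r ^ 2) := by
    field_simp
  have hES : 0 < (1 + S) / E := by positivity
  rcases le_max_iff.1 hm with h | h
  · have h1 : r ^ 2 ≤ X ^ 2 * (1 / (4 * S + 1) + S / ((1 + S) * (4 * S + 3))) := by
      rw [hEr]
      have h2 : E / (1 + S) * r ^ 2 ≤ X ^ 2 / ((4 * S + 1) * (S + 1) / E) +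
          (S / (1 + S)) ^ 2 * X ^ 2 / (S * (4 * S + 3) / E) := by
        refine h.trans ?_
        have h3 := div_le_div_of_nonneg_right hβ2 hs0.le
        linarith
      refine (mul_le_mul_of_nonneg_left h2 hES.le).trans (le_of_eq ?_)
      field_simp
      ring
    have h2 : X ^ 2 * (8 * S / ((4 * S + 1) * (4 * S + 3))) ≤ 1 := by
      have h3 : X ^ 2 * (8 * S / ((4 * S + 1) * (4 * S + 3))) =
          X ^ 2 - S / (1 + S) * X ^ 2 -
            X ^ 2 * (1 / (4 * S + 1) + S / ((1 + S) * (4 * S + 3))) := by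
        field_simp
        ring
      rw [h3]
      linarith
    rw [le_div_iff₀ hS]
    have h4 : S ≤ 8 * S / ((4 * S + 1) * (4 * S + 3)) := by
      rw [le_div_iff₀ (by positivity)]
      have h5 : (4 * S + 1) * (4 * S + 3) ≤ 8 := by nlinarith
      nlinarith
    exact (mul_le_mul_of_nonneg_left h4 hXX.le).trans h2
  · have h1 : r ^ 2 ≤ X ^ 2 * ((1 + 2 * S) ^ 2 / (E * (1 + S))) := by
      rw [hEr]
      have h2 : E / (1 + S) * r ^ 2 ≤ (X + S / (1 + S) * X) ^ 2 := by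
        refine h.trans ?_
        apply pow_le_pow_left₀ (by positivity)
        linarith
      refine (mul_le_mul_of_nonneg_left h2 hES.le).trans (le_of_eq ?_)
      field_simp
      ring
    have h2 : X ^ 2 * (4 * S / E) ≤ 1 := by
      have h3 : X ^ 2 * (4 * S / E) =
          X ^ 2 - S / (1 + S) * X ^ 2 - X ^ 2 * ((1 + 2 * S) ^ 2 / (E * (1 + S))) := by
        rw [hE] at hE0 ⊢
        field_simp
        ring
      rw [h3]
      linarith
    rw [le_div_iff₀ hS]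
    have h4 : S ≤ 4 * S / E := by
      rw [le_div_iff₀ hE0, hE]
      have h5 : 8 * S ^ 2 + 8 * S + 1 ≤ 4 := by nlinarith
      nlinarith
    exact (mul_le_mul_of_nonneg_left h4 hXX.le).trans h2

theorem sector_bound {w : ℝ} (h0 : 0 < w) (h1 : w ≤ 1 / 2) (i : ℕ) (x : H3)
    (hT : lor x.val (vT w) ≤ 0) (hB : lor x.val (vB w) ≤ 0) (hi : lor x.val (vG w i) ≤ 0)
    (hi1 : lor x.val (vG w (i + 1)) ≤ 0) (φ r : ℝ) (hφ : |φ| ≤ w / 2) (hr : 0 ≤ r)
    (hx1 : x.val.1 0 = r * cos ((i + 1 / 2) * w + φ))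
    (hx2 : x.val.1 1 = r * sin ((i + 1 / 2) * w + φ)) : x.val.2 ^ 2 ≤ 1 / Sv w := by
  have hS := Sv_pos h0 h1
  have hS8 := Sv_le h0 h1
  have hE := p1_Ev_pos hS
  have hEe : Ev w = 8 * Sv w ^ 2 + 8 * Sv w + 1 := rfl
  have hp := pv_pos h0 h1
  have hq := qv_pos h0 h1
  have ht := tv_pos h0 h1
  have hp2 := pv_sq h0 h1
  have hq2 := qv_sq h0 h1
  have ht2 := tv_sq h0 h1
  obtain ⟨hc2, hs2⟩ := half_cos h0 h1
  have hx3 := abs_x3_le h0 h1 x hT hB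
  have hX : 0 < x.val.2 := y3a_pos x
  have hlor := x.lor_self
  rw [lor_eq, hx1, hx2] at hlor
  rw [lor_eq, hx1, hx2] at hi hi1
  simp only [vG, vec_0, vec_1, vec_2, vec_3] at hi hi1
  obtain ⟨θ, hθ⟩ : ∃ θ, θ = (i + 1 / 2) * w + φ := ⟨_, rfl⟩
  rw [← hθ] at hlor hi hi1
  obtain ⟨σ, hσ⟩ : ∃ σ : ℝ, σ = (-1) ^ i := ⟨_, rfl⟩
  have hσ2 : σ ^ 2 = 1 := by
    rw [hσ, ← pow_mul, mul_comm, pow_mul]
    norm_num
  have hσa : |σ| = 1 := by
    rw [hσ, abs_pow, abs_neg, abs_one, one_pow]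
  obtain ⟨β, hβ⟩ : ∃ β, β = σ * tv w * x.val.1 2 := ⟨_, rfl⟩
  have hpi := Real.pi_gt_three
  have hφ' := abs_le.1 hφ
  have hC : 0 < cos (w / 2) := Real.cos_pos_of_mem_Ioo ⟨by linarith, by linarith⟩
  have hs : 0 < sin (w / 2) := Real.sin_pos_of_pos_of_lt_pi (by linarith) (by linarith)
  have hcφ : 0 < cos φ := Real.cos_pos_of_mem_Ioo ⟨by linarith, by linarith⟩
  have hCs : cos (w / 2) ^ 2 + sin (w / 2) ^ 2 = 1 := by
    rw [add_comm]
    exact Real.sin_sq_add_cos_sq _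
  -- the side inequalities
  have g1 : r * cos θ * (qv w * cos (i * w)) + r * sin θ * (qv w * sin (i * w)) =
      qv w * r * (cos φ * cos (w / 2) - sin φ * sin (w / 2)) := by
    have : cos θ * cos (i * w) + sin θ * sin (i * w) =
        cos φ * cos (w / 2) - sin φ * sin (w / 2) := by
      rw [← Real.cos_sub, ← Real.cos_add, hθ]
      congr 1
      ring
    linear_combination (qv w * r) * this
  have g2 : r * cos θ * (qv w * cos ((i + 1 : ℕ) * w)) + r * sin θ * (qv w * sin ((i + 1 : ℕ) * w)) =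
      qv w * r * (cos φ * cos (w / 2) + sin φ * sin (w / 2)) := by
    have : cos θ * cos ((i + 1 : ℕ) * w) + sin θ * sin ((i + 1 : ℕ) * w) =
        cos φ * cos (w / 2) + sin φ * sin (w / 2) := by
      rw [← Real.cos_sub, ← Real.cos_sub, hθ]
      congr 1
      push_cast
      ring
    linear_combination (qv w * r) * this
  rw [g1, ← hσ] at hi
  rw [g2, pow_succ, ← hσ] at hi1
  obtain ⟨k, hk⟩ : ∃ k, k = qv w / pv w := ⟨_, rfl⟩
  have hk0 : 0 < k := by rw [hk]; positivity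
  have hkp : k * pv w = qv w := by rw [hk]; field_simp
  have hk2 : k ^ 2 = Ev w / (1 + Sv w) := by
    rw [hk, div_pow, hq2, hp2]
    field_simp
  have f1 : k * r * cos φ * cos (w / 2) - k * r * sin φ * sin (w / 2) ≤ x.val.2 - β := by
    refine le_of_mul_le_mul_right ?_ hp
    rw [← hkp] at hi
    rw [hβ]
    linarith
  have f2 : k * r * cos φ * cos (w / 2) + k * r * sin φ * sin (w / 2) ≤ x.val.2 + β := by
    refine le_of_mul_le_mul_right ?_ hp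
    rw [← hkp] at hi1
    rw [hβ]
    linarith
  have f3 : |sin φ * cos (w / 2)| ≤ cos φ * sin (w / 2) := by
    have a1 : 0 ≤ sin (w / 2 - φ) :=
      Real.sin_nonneg_of_nonneg_of_le_pi (by linarith) (by linarith)
    have a2 : 0 ≤ sin (w / 2 + φ) :=
      Real.sin_nonneg_of_nonneg_of_le_pi (by linarith) (by linarith)
    rw [Real.sin_sub] at a1
    rw [Real.sin_add] at a2
    rw [abs_le]
    constructor <;> linarith
  have f4 : |k * r * sin φ * sin (w / 2)| * cos (w / 2) ^ 2 ≤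
      k * r * cos φ * cos (w / 2) * sin (w / 2) ^ 2 := by
    have a1 : |k * r * sin φ * sin (w / 2)| * cos (w / 2) ^ 2 =
        k * r * sin (w / 2) * cos (w / 2) * |sin φ * cos (w / 2)| := by
      rw [abs_mul, abs_mul, abs_mul, abs_mul, abs_of_pos hk0, abs_of_nonneg hr, abs_of_pos hs,
        abs_of_pos hC]
      ring
    rw [a1]
    have a2 : 0 ≤ k * r * sin (w / 2) * cos (w / 2) := by positivity
    have a3 := mul_le_mul_of_nonneg_left f3 a2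
    linarith
  have hβa : |β| ≤ tv w ^ 2 * x.val.2 := by
    rw [hβ, abs_mul, abs_mul, hσa, one_mul, abs_of_pos ht, sq, mul_assoc]
    exact mul_le_mul_of_nonneg_left hx3 ht.le
  have ht1 : tv w ^ 2 ≤ 1 := by
    rw [ht2, div_le_one (by linarith)]
    linarith
  have hβX : |β| ≤ x.val.2 := hβa.trans (by nlinarith)
  have f5 := max_claim hC hs hCs hX.le (by positivity) f1 f2 f4 hβX
  have f6 : (k * r * cos φ * cos (w / 2)) ^ 2 / cos (w / 2) ^ 2 +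
      (k * r * sin φ * sin (w / 2)) ^ 2 / sin (w / 2) ^ 2 = k ^ 2 * r ^ 2 := by
    have a1 := Real.sin_sq_add_cos_sq φ
    have a2 : (k * r * cos φ * cos (w / 2)) ^ 2 / cos (w / 2) ^ 2 = k ^ 2 * r ^ 2 * cos φ ^ 2 := by
      field_simp
    have a3 : (k * r * sin φ * sin (w / 2)) ^ 2 / sin (w / 2) ^ 2 = k ^ 2 * r ^ 2 * sin φ ^ 2 := by
      field_simp
    rw [a2, a3]
    linear_combination (k ^ 2 * r ^ 2) * a1
  rw [f6] at f5
  -- the quadratic relation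
  have hr2 : x.val.2 ^ 2 = 1 + r ^ 2 + x.val.1 2 ^ 2 := by
    have a1 := Real.sin_sq_add_cos_sq θ
    linear_combination (r ^ 2) * a1 - hlor
  have hx32 : x.val.1 2 ^ 2 ≤ tv w ^ 2 * x.val.2 ^ 2 := by
    have a1 : |x.val.1 2| ^ 2 ≤ (tv w * x.val.2) ^ 2 := pow_le_pow_left₀ (abs_nonneg _) hx3 2
    rw [sq_abs, mul_pow] at a1
    exact a1
  have hβ2 : β ^ 2 ≤ (tv w ^ 2) ^ 2 * x.val.2 ^ 2 := by
    have a1 : |β| ^ 2 ≤ (tv w ^ 2 * x.val.2) ^ 2 := pow_le_pow_left₀ (abs_nonneg _) hβa 2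
    rw [sq_abs, mul_pow] at a1
    exact a1
  rw [ht2] at hx32 hβ2 hβa
  rw [hk2] at f5
  have hXX : 0 < x.val.2 ^ 2 := by positivity
  exact y3a_final hS hS8 hEe hXX hX.le hr2 hx32 hβ2 hβa hc2 hs2 f5

end CEE
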