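import Pool.Agent.CEE.Y2b
import Pool.Agent.CEE.Y3a

set_option autoImplicit false

/-!
# [CEE-Y3b] The fundamental polyhedra are compact
-/

namespace CEE

open Pool.Agent.MP_8db1a4_gt Set Real

/- PROOF NOTES [CEE-Y3b].
`D0_bound`: `lor x vF = - x.val.1 1 ≤ 0`, so `(x₁, x₂) = r (cos θ, sin θ)` with `0 ≤ θ ≤ π` (`Complex.arg` or `Real.arccos (x₁/r)`); `i = min ⌊θ / w0⌋₊ (m - 1)`, `φ = θ - (i + 1/2) w0`, `|φ| ≤ w0/2` (`m w0 = π`), `sector_bound`; the two sides `i, i+1 ≤ m` are walls of the chamber.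
`D1_bound`: `θ ∈ [0, 2π)`, `i = ⌊θ / w1⌋₊ ≤ m + 2` (`(m+3) w1 = 2π`); the sides `i, i+1` are walls of the chamber (`≤ m`), or in `ex1` (`m+1`, `m+2`), or `i + 1 = m + 3`: `vG (w1 m) (m+3) = vG (w1 m) 0` (`cos (2π) = 1`, `m + 3` even).
`D0_compact`: closed subset (finitely many closed half spaces: `halfspace_closed`) of `{x | x.val.2 ≤ R}`, which is a closed ball around `O` (`cosh (dist x O) = x.val.2`), `ProperSpace H3` (`B1c.hy_proper 3`). -/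

theorem y3b_cell {w : ℝ} : ∀ (N : ℕ) (θ : ℝ), 0 ≤ θ → θ ≤ ((N : ℝ) + 1) * w →
    ∃ i : ℕ, i ≤ N ∧ (i : ℝ) * w ≤ θ ∧ θ ≤ ((i : ℝ) + 1) * w := by
  intro N
  induction N with
  | zero =>
    intro θ h0 h1
    exact ⟨0, le_rfl, by rw [Nat.cast_zero, zero_mul]; exact h0, h1⟩
  | succ N ih =>
    intro θ h0 h1
    by_cases h : θ ≤ ((N : ℝ) + 1) * w
    · obtain ⟨i, hi, h2, h3⟩ := ih θ h0 h
      exact ⟨i, by omega, h2, h3⟩
    · refine ⟨N + 1, le_rfl, ?_, h1⟩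
      push_cast
      exact (not_le.1 h).le

/-- the bound from the cell of the angle -/
theorem y3b_bound {w : ℝ} (h0 : 0 < w) (h1 : w ≤ 1 / 2) (x : H3) (hT : lor x.val (vT w) ≤ 0)
    (hB : lor x.val (vB w) ≤ 0) (N : ℕ) (hG : ∀ i, i ≤ N + 1 → lor x.val (vG w i) ≤ 0)
    {r θ : ℝ} (hr : 0 ≤ r) (hθ0 : 0 ≤ θ) (hθ1 : θ ≤ ((N : ℝ) + 1) * w)
    (hx1 : x.val.1 0 = r * cos θ) (hx2 : x.val.1 1 = r * sin θ) : x.val.2 ^ 2 ≤ 1 / Sv w := by
  obtain ⟨i, hi, h2, h3⟩ := y3b_cell N θ hθ0 hθ1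
  have h4 : ((i : ℝ) + 1 / 2) * w + (θ - ((i : ℝ) + 1 / 2) * w) = θ := by ring
  refine sector_bound h0 h1 i x hT hB (hG i (by omega)) (hG (i + 1) (by omega))
    (θ - ((i : ℝ) + 1 / 2) * w) r ?_ hr ?_ ?_
  · rw [abs_le]
    constructor <;> linarith
  · rw [h4]
    exact hx1
  · rw [h4]
    exact hx2

theorem y3b_G {m : ℕ} {w : ℝ} {x : H3} (hx : x ∈ cham (ev w m)) {i : ℕ} (hi : i ≤ m) :
    lor x.val (vG w i) ≤ 0 := hx (.G ⟨i, Nat.lt_succ_of_le hi⟩)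

theorem y3b_vF (x : H3) : lor x.val vF = -x.val.1 1 := by
  rw [lor_eq]
  unfold vF
  rw [vec_0, vec_1, vec_2, vec_3]
  ring

theorem D0_bound {m : ℕ} (hm : 13 ≤ m) (x : H3) (hx : x ∈ D0 m) : x.val.2 ^ 2 ≤ 1 / Sv (w0 m) := by
  obtain ⟨hc, hex⟩ := hx
  have h1 : 0 ≤ x.val.1 1 := by
    have h2 := hex vF rfl
    rw [y3b_vF] at h2
    linarith
  set z : ℂ := ⟨x.val.1 0, x.val.1 1⟩ with hz
  have hre : ‖z‖ * cos (Complex.arg z) = x.val.1 0 := Complex.norm_mul_cos_arg z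
  have him : ‖z‖ * sin (Complex.arg z) = x.val.1 1 := Complex.norm_mul_sin_arg z
  have hm0 : (13 : ℝ) ≤ m := by exact_mod_cast hm
  have hN : ((m - 1 : ℕ) : ℝ) + 1 = m := by
    rw [Nat.cast_sub (by omega)]
    push_cast
    ring
  refine y3b_bound (w0_pos hm) (w0_le hm) x (hc .T) (hc .B) (m - 1)
    (fun i hi => y3b_G hc (by omega)) (norm_nonneg z) (Complex.arg_nonneg_iff.2 h1) ?_ hre.symm him.symm
  rw [hN]
  unfold w0
  rw [mul_div_cancel₀ _ (by linarith : (m : ℝ) ≠ 0)]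
  exact Complex.arg_le_pi z

theorem y3b_last {m : ℕ} (ho : Odd m) : vG (w1 m) (m + 3) = vG (w1 m) 0 := by
  have h1 : ((m + 3 : ℕ) : ℝ) * w1 m = 2 * π := by
    push_cast
    exact w1_mul m
  have h2 : (-1 : ℝ) ^ (m + 3) = 1 := by
    apply Even.neg_one_pow
    obtain ⟨k, hk⟩ := ho
    exact ⟨k + 2, by omega⟩
  unfold vG
  rw [h1, h2, cos_two_pi, sin_two_pi, Nat.cast_zero, zero_mul, cos_zero, sin_zero, pow_zero]

theorem D1_bound {m : ℕ} (hm : 13 ≤ m) (ho : Odd m) (x : H3) (hx : x ∈ D1 m) :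
    x.val.2 ^ 2 ≤ 1 / Sv (w1 m) := by
  obtain ⟨hc, hex⟩ := hx
  set z : ℂ := ⟨x.val.1 0, x.val.1 1⟩ with hz
  have hre : ‖z‖ * cos (Complex.arg z) = x.val.1 0 := Complex.norm_mul_cos_arg z
  have him : ‖z‖ * sin (Complex.arg z) = x.val.1 1 := Complex.norm_mul_sin_arg z
  have hG : ∀ i, i ≤ (m + 2) + 1 → lor x.val (vG (w1 m) i) ≤ 0 := by
    intro i hi
    by_cases h1 : i ≤ m
    · exact y3b_G hc h1
    · by_cases h2 : i = m + 1
      · rw [h2]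
        exact hex _ (Or.inl rfl)
      · by_cases h3 : i = m + 2
        · rw [h3]
          exact hex _ (Or.inr rfl)
        · have h4 : i = m + 3 := by omega
          rw [h4, y3b_last ho]
          exact y3b_G hc (Nat.zero_le m)
  have hmul : (((m + 2 : ℕ) : ℝ) + 1) * w1 m = 2 * π := by
    rw [← w1_mul m]
    push_cast
    ring
  have hpi := Real.pi_pos
  by_cases h0 : 0 ≤ Complex.arg z
  · refine y3b_bound (w1_pos m) (w1_le hm) x (hc .T) (hc .B) (m + 2) hG (norm_nonneg z) h0 ?_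
      hre.symm him.symm
    rw [hmul]
    linarith [Complex.arg_le_pi z]
  · refine y3b_bound (w1_pos m) (w1_le hm) x (hc .T) (hc .B) (m + 2) hG (norm_nonneg z)
      (θ := Complex.arg z + 2 * π) ?_ ?_ ?_ ?_
    · linarith [Complex.neg_pi_lt_arg z]
    · rw [hmul]
      linarith
    · rw [cos_add_two_pi]
      exact hre.symm
    · rw [sin_add_two_pi]
      exact him.symm

theorem y3b_lor_O (x : H3) : lor x.val O.val = -x.val.2 := by
  rw [lor_eq]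
  show x.val.1 0 * 0 + x.val.1 1 * 0 + x.val.1 2 * 0 - x.val.2 * 1 = _
  ring

theorem y3b_lor_vO (w : ℝ) (j : ℕ) : lor (vG w j) O.val = -pv w := by
  rw [lor_eq]
  unfold vG
  rw [vec_0, vec_1, vec_2, vec_3]
  show qv w * cos (j * w) * 0 + qv w * sin (j * w) * 0 + (-1) ^ j * (pv w * tv w) * 0 - pv w * 1 = -pv w
  ring

theorem y3b_closed {ι : Type} (e : ι → V) (ex : Set V) : IsClosed (Dset e ex) := by
  have h : Dset e ex = (⋂ s, {x : H3 | lor x.val (e s) ≤ 0}) ∩ ⋂ v ∈ ex, {x : H3 | lor x.val v ≤ 0} := by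
    ext x
    simp only [Dset, cham, mem_ofPred_eq, mem_inter_iff, mem_iInter]
  rw [h]
  exact (isClosed_iInter fun s => halfspace_closed _).inter
    (isClosed_biInter fun v _ => halfspace_closed _)

theorem y3b_compact {ι : Type} (e : ι → V) (ex : Set V) (c : ℝ)
    (h : ∀ x ∈ Dset e ex, x.val.2 ^ 2 ≤ c) : IsCompact (Dset e ex) := by
  have hp : ProperSpace H3 := B1c.hy_proper 3
  refine Metric.isCompact_of_isClosed_isBounded (y3b_closed e ex) ?_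
  refine (Metric.isBounded_closedBall (x := O) (r := c + 1)).subset ?_
  intro x hx
  rw [Metric.mem_closedBall]
  have h1 := cosh_dist x O
  rw [y3b_lor_O, neg_neg] at h1
  have h2 : dist x O ≤ Real.sinh (dist x O) := Real.self_le_sinh_iff.2 dist_nonneg
  have h3 := (Real.sinh_lt_cosh (dist x O)).le
  have h4 := h x hx
  nlinarith [sq_nonneg (x.val.2 - 1)]

theorem D0_compact {m : ℕ} (hm : 13 ≤ m) : IsCompact (D0 m) :=
  y3b_compact _ _ _ (D0_bound hm)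

theorem D1_compact {m : ℕ} (hm : 13 ≤ m) (ho : Odd m) : IsCompact (D1 m) :=
  y3b_compact _ _ _ (D1_bound hm ho)

theorem O_mem_D0 {m : ℕ} (hm : 13 ≤ m) : O ∈ D0 m := by
  refine ⟨fun s => (O_mem_cham (w0_pos hm) (w0_le hm) m s).le, fun v hv => ?_⟩
  have hv' : v = vF := hv
  rw [hv', y3b_vF]
  show -(0 : ℝ) ≤ 0
  rw [neg_zero]

theorem O_mem_D1 {m : ℕ} (hm : 13 ≤ m) : O ∈ D1 m := by
  refine ⟨fun s => (O_mem_cham (w1_pos m) (w1_le hm) m s).le, fun v hv => ?_⟩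
  have h1 : ∀ j : ℕ, lor O.val (vG (w1 m) j) ≤ 0 := by
    intro j
    rw [lor_comm, y3b_lor_vO]
    exact neg_nonpos.2 (pv_pos (w1_pos m) (w1_le hm)).le
  have hv' : v = vG (w1 m) (m + 1) ∨ v = vG (w1 m) (m + 2) := hv
  rcases hv' with rfl | rfl
  · exact h1 _
  · exact h1 _

end CEE
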