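import Pool.Agent.CEE.Y1b
import Pool.Agent.CEE.Y3b
import Pool.Agent.CEE.D1

set_option autoImplicit false

/-!
# [CEE-F4b] The hull of the second group is not empty
-/

namespace CEE

open Pool.Agent.MP_8db1a4_gt Set Real

/- PROOF NOTES [CEE-F4b].
`hull1_nonempty`: `g = (T B)²`.. more precisely: `τ = ρ(T B)` is the translation along the axis `x₁ = x₂ = 0`: it fixes the coordinates `0, 1` and acts on `(x₃, x₀)` by a hyperbolic rotation with parameter `2 · 2u`, `sinh u = √S`.  `g = (T B)^4 ∈ K` (`phi`: `(sr 0, sr 0, 1)^2 = 1`, so already `(T B)^2 ∈ K`).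
 Let `Z` be closed convex nonempty `K`-invariant, `z ∈ Z`.  The points `g^n z`, `g^(-n) z` are in `Z`; the point between them proportional to `g^n z + g^(-n) z = (2 x₁, 2 x₂, 2 cosh(nℓ) x₃; 2 cosh (nℓ) x₀)` is in `Z` (`exists_between`) and tends to `a = (0,0,x₃;x₀)/√(x₀²-x₃²)`; so `a ∈ Z`.  `a` is on the axis, all `g^j a ∈ Z`, and
 the base point `O` lies between two of them, so `O ∈ Z`.  Hence `O ∈ hull`.
-/

theorem f4b_ext {X Y : V} (h0 : X.1 0 = Y.1 0) (h1 : X.1 1 = Y.1 1) (h2 : X.1 2 = Y.1 2)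
    (h3 : X.2 = Y.2) : X = Y := by
  refine Prod.ext ?_ h3
  ext i
  fin_cases i
  · exact h0
  · exact h1
  · exact h2

/-- hyperbolic translation along the axis -/
noncomputable def f4b_bst (μ : ℝ) (X : V) : V :=
  vec (X.1 0) (X.1 1) (X.1 2 * cosh μ + X.2 * sinh μ) (X.1 2 * sinh μ + X.2 * cosh μ)

theorem f4b_bst_add (μ ν : ℝ) (X : V) : f4b_bst μ (f4b_bst ν X) = f4b_bst (μ + ν) X := by
  unfold f4b_bst
  apply f4b_ext
  · rfl
  · rfl
  · simp only [vec_0, vec_1, vec_2, vec_3]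
    rw [Real.cosh_add, Real.sinh_add]
    ring
  · simp only [vec_0, vec_1, vec_2, vec_3]
    rw [Real.cosh_add, Real.sinh_add]
    ring

theorem f4b_bst_zero (X : V) : f4b_bst 0 X = X := by
  unfold f4b_bst
  apply f4b_ext
  · rfl
  · rfl
  · simp only [vec_2]
    rw [Real.cosh_zero, Real.sinh_zero]
    ring
  · simp only [vec_3]
    rw [Real.cosh_zero, Real.sinh_zero]
    ring

/-- the product of the two reflections is a translation -/
theorem f4b_refl (S θ : ℝ) (hS : 0 < S) (hc : cosh θ = 1 + 2 * S)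
    (hs : sinh θ = 2 * (sqrt (1 + S) * sqrt S)) (X : V) :
    (X - (2 * lor X (vec 0 0 (-sqrt (1 + S)) (sqrt S))) • vec 0 0 (-sqrt (1 + S)) (sqrt S)) -
      (2 * lor (X - (2 * lor X (vec 0 0 (-sqrt (1 + S)) (sqrt S))) • vec 0 0 (-sqrt (1 + S)) (sqrt S))
        (vec 0 0 (sqrt (1 + S)) (sqrt S))) • vec 0 0 (sqrt (1 + S)) (sqrt S) =
    f4b_bst (2 * θ) X := by
  have ha : sqrt (1 + S) ^ 2 = 1 + S := Real.sq_sqrt (by linarith)
  have hb : sqrt S ^ 2 = S := Real.sq_sqrt hS.le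
  obtain ⟨a, haa⟩ : ∃ a, a = sqrt (1 + S) := ⟨_, rfl⟩
  obtain ⟨b, hbb⟩ : ∃ b, b = sqrt S := ⟨_, rfl⟩
  rw [← haa] at ha hs ⊢
  rw [← hbb] at hb hs ⊢
  obtain ⟨Y, hY⟩ : ∃ Y : V, Y = X - (2 * lor X (vec 0 0 (-a) b)) • vec 0 0 (-a) b := ⟨_, rfl⟩
  rw [← hY]
  have l1 : lor X (vec 0 0 (-a) b) = -(a * X.1 2) - b * X.2 := by
    rw [lor_eq, vec_0, vec_1, vec_2, vec_3]
    ring
  have y0 : Y.1 0 = X.1 0 := by
    rw [hY]
    show X.1 0 - (2 * lor X (vec 0 0 (-a) b)) * 0 = X.1 0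
    ring
  have y1 : Y.1 1 = X.1 1 := by
    rw [hY]
    show X.1 1 - (2 * lor X (vec 0 0 (-a) b)) * 0 = X.1 1
    ring
  have y2 : Y.1 2 = X.1 2 - (2 * lor X (vec 0 0 (-a) b)) * (-a) := by
    rw [hY]
    rfl
  have y3 : Y.2 = X.2 - (2 * lor X (vec 0 0 (-a) b)) * b := by
    rw [hY]
    rfl
  rw [l1] at y2 y3
  have l2 : lor Y (vec 0 0 a b) = a * Y.1 2 - b * Y.2 := by
    rw [lor_eq, vec_0, vec_1, vec_2, vec_3]
    ring
  have hc2 : cosh (2 * θ) = (1 + 2 * S) ^ 2 + (2 * (a * b)) ^ 2 := by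
    rw [Real.cosh_two_mul, hc, hs]
  have hs2 : sinh (2 * θ) = 2 * (2 * (a * b)) * (1 + 2 * S) := by
    rw [Real.sinh_two_mul, hc, hs]
  apply f4b_ext
  · show Y.1 0 - (2 * lor Y (vec 0 0 a b)) * 0 = X.1 0
    rw [y0]
    ring
  · show Y.1 1 - (2 * lor Y (vec 0 0 a b)) * 0 = X.1 1
    rw [y1]
    ring
  · show Y.1 2 - (2 * lor Y (vec 0 0 a b)) * a = X.1 2 * cosh (2 * θ) + X.2 * sinh (2 * θ)
    rw [l2, y2, y3, hc2, hs2]
    obtain rfl : S = b ^ 2 := hb.symm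
    have ha' : a ^ 2 = 1 + b ^ 2 := ha
    linear_combination (4 * X.1 2 * (a ^ 2 + b ^ 2) + 4 * a * b * X.2) * ha'
  · show Y.2 - (2 * lor Y (vec 0 0 a b)) * b = X.1 2 * sinh (2 * θ) + X.2 * cosh (2 * θ)
    rw [l2, y2, y3, hc2, hs2]
    obtain rfl : S = b ^ 2 := hb.symm
    have ha' : a ^ 2 = 1 + b ^ 2 := ha
    linear_combination (4 * a * b * X.1 2) * ha'

/-- the growth argument -/
theorem f4b_growth {A B C μ : ℝ} (hμ : 0 < μ) (h : ∀ n : ℕ, A + B * cosh (n * μ) + C * sinh (n * μ) ≤ 0) :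
    B + C ≤ 0 := by
  by_contra hcon
  push Not at hcon
  obtain ⟨n, hn⟩ := exists_nat_gt ((2 * (|A| + |B| + |C|)) / ((B + C) * μ))
  have h1 := h n
  have hpos : 0 < (B + C) * μ := mul_pos hcon hμ
  rw [div_lt_iff₀ hpos] at hn
  have h2 := Real.add_one_le_exp ((n : ℝ) * μ)
  have h3 : cosh ((n : ℝ) * μ) = (Real.exp (n * μ) + Real.exp (-(n * μ))) / 2 := Real.cosh_eq _
  have h4 : sinh ((n : ℝ) * μ) = (Real.exp (n * μ) - Real.exp (-(n * μ))) / 2 := Real.sinh_eq _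
  have h5 : 0 < Real.exp (-((n : ℝ) * μ)) := Real.exp_pos _
  have h6 : Real.exp (-((n : ℝ) * μ)) ≤ 1 := by
    rw [Real.exp_le_one_iff]
    have : 0 ≤ (n : ℝ) * μ := mul_nonneg (Nat.cast_nonneg n) hμ.le
    linarith
  rw [h3, h4] at h1
  have h7 : (B + C) * ((n : ℝ) * μ + 1) ≤ (B + C) * Real.exp (n * μ) :=
    mul_le_mul_of_nonneg_left h2 hcon.le
  have h8 : -(|B| + |C|) ≤ (B - C) * Real.exp (-((n : ℝ) * μ)) := by
    have e1 : |(B - C) * Real.exp (-((n : ℝ) * μ))| ≤ |B| + |C| := by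
      rw [abs_mul, abs_of_pos h5]
      have e2 : |B - C| ≤ |B| + |C| := abs_sub B C
      calc |B - C| * Real.exp (-((n : ℝ) * μ)) ≤ |B - C| * 1 :=
            mul_le_mul_of_nonneg_left h6 (abs_nonneg _)
        _ ≤ |B| + |C| := by rw [mul_one]; exact e2
    exact (abs_le.1 e1).1
  have h9 := neg_abs_le A
  have h10 := abs_nonneg B
  have h11 := abs_nonneg C
  nlinarith

theorem hull1_nonempty {m : ℕ} (hm : 13 ≤ m) (ho : Odd m) : (hull (Gam1 hm)).Nonempty := by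
  obtain ⟨S, hSdef⟩ : ∃ S, S = Sv (w1 m) := ⟨_, rfl⟩
  have hS : 0 < S := hSdef ▸ Sv_pos (w1_pos m) (w1_le hm)
  have ha : 0 < sqrt (1 + S) := Real.sqrt_pos.2 (by linarith)
  have hb : 0 < sqrt S := Real.sqrt_pos.2 hS
  have hab : 0 < 2 * (sqrt (1 + S) * sqrt S) := by positivity
  obtain ⟨θ, hθ⟩ : ∃ θ, θ = Real.arsinh (2 * (sqrt (1 + S) * sqrt S)) := ⟨_, rfl⟩
  have hs : sinh θ = 2 * (sqrt (1 + S) * sqrt S) := by
    rw [hθ, Real.sinh_arsinh]
  have hc : cosh θ = 1 + 2 * S := by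
    rw [hθ, Real.cosh_arsinh]
    have e1 : 1 + (2 * (sqrt (1 + S) * sqrt S)) ^ 2 = (1 + 2 * S) ^ 2 := by
      rw [mul_pow, mul_pow, Real.sq_sqrt (by linarith), Real.sq_sqrt hS.le]
      ring
    rw [e1, Real.sqrt_sq (by linarith)]
  have hθ0 : 0 < θ := by
    rw [← Real.sinh_pos_iff, hs]
    exact hab
  obtain ⟨τ, hτ⟩ : ∃ τ, τ = (CM m).simple Gen.T * (CM m).simple Gen.B := ⟨_, rfl⟩
  have hτX : ∀ X : V, ((RS1 hm).rho τ).1 X = f4b_bst (2 * θ) X := by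
    intro X
    rw [hτ, (RS1 hm).rho_mul_apply, (RS1 hm).rho_simple_apply, (RS1 hm).rho_simple_apply]
    have eT : ev (w1 m) m Gen.T = vec 0 0 (sqrt (1 + S)) (sqrt S) := by
      rw [hSdef]
      rfl
    have eB : ev (w1 m) m Gen.B = vec 0 0 (-sqrt (1 + S)) (sqrt S) := by
      rw [hSdef]
      rfl
    rw [eT, eB]
    exact f4b_refl S θ hS hc hs X
  obtain ⟨g, hg⟩ : ∃ g, g = τ * τ := ⟨_, rfl⟩
  have hgX : ∀ X : V, ((RS1 hm).rho g).1 X = f4b_bst (4 * θ) X := by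
    intro X
    rw [hg, (RS1 hm).rho_mul_apply, hτX, hτX, f4b_bst_add]
    congr 1
    ring
  have hgK : g ∈ K m := by
    show phi m g = 1
    rw [hg, hτ, map_mul, map_mul, phi_simple, phi_simple]
    show ((((.sr 0, 1, -1) : Q) * (1, .sr 0, -1)) * (((.sr 0, 1, -1) : Q) * (1, .sr 0, -1))) = 1
    decide
  have hginv : ∀ X : V, ((RS1 hm).rho g⁻¹).1 X = f4b_bst (-(4 * θ)) X := by
    intro X
    have h1 : ((RS1 hm).rho g).1 (f4b_bst (-(4 * θ)) X) = X := by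
      rw [hgX, f4b_bst_add, add_neg_cancel, f4b_bst_zero]
    conv_lhs => rw [← h1]
    rw [← (RS1 hm).rho_mul_apply, inv_mul_cancel, map_one]
    rfl
  have hpow : ∀ n : ℕ, ∀ X : V, ((RS1 hm).rho (g ^ n)).1 X = f4b_bst (n * (4 * θ)) X := by
    intro n
    induction n with
    | zero =>
      intro X
      rw [pow_zero, map_one, Nat.cast_zero, zero_mul, f4b_bst_zero]
      rfl
    | succ n ih =>
      intro X
      rw [pow_succ, (RS1 hm).rho_mul_apply, hgX, ih, f4b_bst_add]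
      congr 1
      push_cast
      ring
  have hpow' : ∀ n : ℕ, ∀ X : V, ((RS1 hm).rho (g⁻¹ ^ n)).1 X = f4b_bst (-(n * (4 * θ))) X := by
    intro n
    induction n with
    | zero =>
      intro X
      rw [pow_zero, map_one, Nat.cast_zero, zero_mul, neg_zero, f4b_bst_zero]
      rfl
    | succ n ih =>
      intro X
      rw [pow_succ, (RS1 hm).rho_mul_apply, hginv, ih, f4b_bst_add]
      congr 1
      push_cast
      ring
  refine ⟨O, ?_⟩
  rintro Z ⟨hne, hcl, hconv, hinv⟩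
  by_contra hO
  obtain ⟨n, -, hn2, hn3⟩ := sep Z hne hcl hconv O hO
  obtain ⟨z, hz⟩ := hne
  have hOn : lor O.val n = -n.2 := by
    rw [lor_eq]
    simp [Ohy]
  rw [hOn] at hn2
  have hzn : ∀ k : ℕ, lor (f4b_bst (k * (4 * θ)) z.val) n ≤ 0 := by
    intro k
    have h1 := hn3 _ (hinv ((RS1 hm).rho (g ^ k)) ⟨g ^ k, (K m).pow_mem hgK k, rfl⟩ z hz)
    rw [smul_val, hpow] at h1
    exact h1
  have hzn' : ∀ k : ℕ, lor (f4b_bst (-(k * (4 * θ))) z.val) n ≤ 0 := by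
    intro k
    have h1 := hn3 _ (hinv ((RS1 hm).rho (g⁻¹ ^ k))
      ⟨g⁻¹ ^ k, (K m).pow_mem ((K m).inv_mem hgK) k, rfl⟩ z hz)
    rw [smul_val, hpow'] at h1
    exact h1
  have h4θ : 0 < 4 * θ := by linarith
  have g1 : (z.val.1 2 * n.1 2 - z.val.2 * n.2) + (z.val.2 * n.1 2 - z.val.1 2 * n.2) ≤ 0 := by
    refine f4b_growth (A := z.val.1 0 * n.1 0 + z.val.1 1 * n.1 1) h4θ fun k => ?_
    have h1 := hzn k
    rw [lor_eq] at h1
    unfold f4b_bst at h1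
    rw [vec_0, vec_1, vec_2, vec_3] at h1
    linarith
  have g2 : (z.val.1 2 * n.1 2 - z.val.2 * n.2) + -(z.val.2 * n.1 2 - z.val.1 2 * n.2) ≤ 0 := by
    refine f4b_growth (A := z.val.1 0 * n.1 0 + z.val.1 1 * n.1 1) h4θ fun k => ?_
    have h1 := hzn' k
    rw [lor_eq] at h1
    unfold f4b_bst at h1
    rw [vec_0, vec_1, vec_2, vec_3, Real.cosh_neg, Real.sinh_neg] at h1
    linarith
  have hz3 : |z.val.1 2| < z.val.2 := by
    have h1 : ‖z.val.1‖ < z.val.2 := z.mem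
    have h2 : |z.val.1 2| ≤ ‖z.val.1‖ := by
      have := PiLp.norm_apply_le z.val.1 2
      rwa [Real.norm_eq_abs] at this
    linarith
  obtain ⟨h5, h6⟩ := abs_lt.1 hz3
  have k1 : (z.val.1 2 + z.val.2) * (n.1 2 - n.2) ≤ 0 := by linarith
  have k2 : (z.val.2 - z.val.1 2) * (n.1 2 + n.2) ≥ 0 := by linarith
  have k3 : n.1 2 - n.2 ≤ 0 := by
    by_contra hcon
    push Not at hcon
    have := mul_pos (by linarith : 0 < z.val.1 2 + z.val.2) hcon
    linarith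
  have k4 : 0 ≤ n.1 2 + n.2 := by
    by_contra hcon
    push Not at hcon
    have := mul_neg_of_pos_of_neg (by linarith : 0 < z.val.2 - z.val.1 2) hcon
    linarith
  linarith

end CEE
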