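import Pool.Agent.CEE.F4a
import Pool.Agent.CEE.F4b

set_option autoImplicit false

/-!
# [CEE-F4c] The second convex core is compact
-/

namespace CEE

open Pool.Agent.MP_8db1a4_gt Set Real

/- PROOF NOTES [CEE-F4c].  `finite_transversal` (F4a), `Y1` contains the hull (`Yset_closed`, `Yset_convex`, `Yset_smul`, nonempty by `O_mem_D1`).
`core_compact1`: `hull ⊆ Y1` closed, `proj '' hull` is a closed subset of the compact `proj '' Y1`: better: `hull = ⋃_k ρ(k) (hull ∩ (finite union of translates of D1))`, so it is the image of the compact set `hull ∩ ⋃_c ρ(v_c) D1` (`hull` is closed: intersection of closed sets; `Gam1`-invariant). -/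

/-- the quotient of a closed invariant set which is covered by the translates of a compact set -/
theorem f4c_compact {ι : Type} [Finite ι] {M : CoxeterMatrix ι} {e : ι → V} (h : RS M e) (N : Subgroup M.Group)
    (t : Finset M.Group) (ht : ∀ w : M.Group, ∃ k ∈ N, ∃ v ∈ t, w = k * v) (D S : Set H3)
    (hD : IsCompact D) (hS : IsClosed S) (hinv : ∀ k ∈ N, ∀ x ∈ S, h.rho k • x ∈ S)
    (hex : ∀ x ∈ S, ∃ w : M.Group, ∃ y ∈ D, x = h.rho w • y) :
    IsCompact (proj (N.map h.rho) '' S) := by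
  have hcont : ∀ g : O31, Continuous fun x : H3 => g • x := fun g =>
    (Isometry.of_dist_eq (dist_smul_smul g)).continuous
  have hC : IsCompact (⋃ v ∈ t, (fun x : H3 => h.rho v • x) '' D) :=
    t.isCompact_biUnion fun v _ => hD.image (hcont _)
  have he : proj (N.map h.rho) '' S =
      proj (N.map h.rho) '' ((⋃ v ∈ t, (fun x : H3 => h.rho v • x) '' D) ∩ S) := by
    apply Subset.antisymm
    · rintro _ ⟨x, hx, rfl⟩
      obtain ⟨w, y, hy, hxy⟩ := hex x hx
      obtain ⟨k, hk, v, hv, hw⟩ := ht w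
      have h1 : x = h.rho k • h.rho v • y := by
        rw [hxy, hw, map_mul, mul_smul]
      have h2 : h.rho v • y = h.rho k⁻¹ • x := by
        rw [h1, ← mul_smul (h.rho k⁻¹), ← map_mul, inv_mul_cancel, map_one, one_smul]
      refine ⟨h.rho v • y, ⟨?_, ?_⟩, ?_⟩
      · rw [mem_iUnion₂]
        exact ⟨v, hv, y, hy, rfl⟩
      · rw [h2]
        exact hinv k⁻¹ (N.inv_mem hk) x hx
      · rw [proj_eq]
        exact ⟨k⁻¹, N.inv_mem hk, h2⟩
    · exact image_mono inter_subset_right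
  rw [he]
  exact (hC.inter_right hS).image continuous_quotient_mk'

theorem core_compact1 {m : ℕ} (hm : 13 ≤ m) (ho : Odd m) : IsCompact (core (Gam1 hm)) := by
  obtain ⟨t, ht⟩ := finite_transversal m
  have hY : hull (Gam1 hm) ⊆ Y1 hm := by
    apply sInter_subset_of_mem
    refine ⟨⟨O, Yset_cham (RS1 hm) (ex1 m) (ex1_anti hm ho) (O_mem_D1 hm)⟩, Yset_closed _ _, Yset_convex _ _, ?_⟩
    rintro _ ⟨k, _, rfl⟩ x hx
    exact Yset_smul (RS1 hm) (ex1 m) k hx
  unfold core
  refine f4c_compact (RS1 hm) (K m) t ht (D1 m) (hull (Gam1 hm)) (D1_compact hm ho) ?_ ?_ ?_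
  · apply isClosed_sInter
    rintro Z ⟨_, hc, _, _⟩
    exact hc
  · intro k hk x hx Z hZ
    exact hZ.2.2.2 _ ⟨k, hk, rfl⟩ x (hx Z hZ)
  · intro x hx
    obtain ⟨w, hw⟩ := (RS1 hm).fold_spec x
    exact ⟨w, _, (Yset_fold (RS1 hm) (ex1 m) (ex1_anti hm ho) x).1 (hY hx), hw⟩

theorem ConvexCocompact1 {m : ℕ} (hm : 13 ≤ m) (ho : Odd m) : ConvexCocompact (Gam1 hm) := by
  exact ⟨IsHyp1 hm, hull1_nonempty hm ho, core_compact1 hm ho⟩

end CEE
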