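import Pool.Agent.CEE.G2

set_option autoImplicit false

/-!
# [CEE-G3b] Walls through a point, finite subgroups
-/

namespace CEE

open Pool.Agent.MP_8db1a4_gt Set Real

/- PROOF NOTES [CEE-G3b].
`clique`: `a + b` is orthogonal to `x`; if `lor a b ≤ -1` then `lor (a+b) (a+b) ≤ 0`, so `lor_self_nonneg_of_orth`, `lor_self_eq_zero_of_orth` (with `x.mem`) give `a + b = 0`.
`not_both`: for two different walls `s ≠ t` of a system through one point the label is not `0` (`a = -b` is impossible because of the interior point).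
`closure_three`: the set `R = {(a b)^k a^i c^j}` (`k < 4`, `i, j < 2`) contains `1` and is stable under left multiplication by `a, b, c` (and these are their own inverses): `Subgroup.closure_induction` or `Subgroup.closure_induction_left`.
 `a (a b)^k = (a b)^(4-k) a` (`a (ab) a = b a = (a b)⁻¹`), `b (a b)^k = (a b)^(..) a ..`: `b = a (a b)`, so `b (a b)^k = a (a b)^(k+1)`; `c` commutes with everything; exponents of `a b` modulo 4, of `a`, `c` modulo 2. -/

theorem clique (x : H3) {a b : V} (ha : lor a a = 1) (hb : lor b b = 1) (hxa : lor x.val a = 0)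
    (hxb : lor x.val b = 0) (hab : lor a b ≤ -1) : a = -b := by
  have h1 : lor (a + b) x.val = 0 := by
    rw [lor_comm, lor_add_right, hxa, hxb, add_zero]
  have h2 := lor_self_nonneg_of_orth x.mem h1
  have h3 : lor (a + b) (a + b) = 2 + 2 * lor a b := by
    rw [lor_add_left, lor_add_right, lor_add_right, ha, hb, lor_comm b a]
    ring
  exact eq_neg_of_add_eq_zero_left (lor_self_eq_zero_of_orth x.mem h1 (by linarith))

theorem not_both {ι : Type} {M : CoxeterMatrix ι} {e : ι → V} (h : RS M e) (x : H3) {s t : ι} (hst : s ≠ t)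
    (hs : lor x.val (e s) = 0) (ht : lor x.val (e t) = 0) : M s t = 2 ∨ M s t = 4 := by
  rcases h.gram s t hst with ⟨h1, -⟩ | ⟨h1, -⟩ | ⟨-, h1⟩
  · exact Or.inl h1
  · exact Or.inr h1
  · exfalso
    have h2 := clique x (h.unit s) (h.unit t) hs ht h1
    obtain ⟨y, hy⟩ := h.inter
    have h3 := hy s
    have h4 := hy t
    rw [h2, lor_neg_right] at h3
    linarith

theorem closure_three {G : Type*} [Group G] {a b c : G} (ha : a * a = 1) (hb : b * b = 1)
    (hc : c * c = 1) (hab : (a * b) ^ 4 = 1) (hac : a * c = c * a) (hbc : b * c = c * b)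
    (g : G) (hg : g ∈ Subgroup.closure {a, b, c}) :
    ∃ k < 4, ∃ i < 2, ∃ j < 2, g = (a * b) ^ k * a ^ i * c ^ j := by
  have hb3 : (a * b) ^ 3 * a = b := by
    have h1 : (a * b) ^ 3 * a * b = 1 := by
      rw [mul_assoc, ← pow_succ]
      exact hab
    calc (a * b) ^ 3 * a = (a * b) ^ 3 * a * b * b := by rw [mul_assoc _ b b, hb, mul_one]
      _ = b := by rw [h1, one_mul]
  have ha3 : ∀ k : ℕ, a * (a * b) ^ k = (a * b) ^ (3 * k) * a := by
    intro k
    induction k with
    | zero => simp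
    | succ k ih =>
      calc a * (a * b) ^ (k + 1) = a * (a * b) ^ k * (a * b) := by rw [pow_succ, mul_assoc]
        _ = (a * b) ^ (3 * k) * (a * a) * b := by rw [ih]; simp only [mul_assoc]
        _ = (a * b) ^ (3 * k) * ((a * b) ^ 3 * a) := by rw [ha, mul_one, hb3]
        _ = (a * b) ^ (3 * (k + 1)) * a := by rw [← mul_assoc, ← pow_add, mul_add, mul_one]
  have hma : ∀ y : G, (∃ k i j : ℕ, y = (a * b) ^ k * a ^ i * c ^ j) →
      ∃ k i j : ℕ, a * y = (a * b) ^ k * a ^ i * c ^ j := by
    rintro y ⟨k, i, j, rfl⟩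
    refine ⟨3 * k, i + 1, j, ?_⟩
    rw [pow_succ' a i, ← mul_assoc, ← mul_assoc, ha3]
    simp only [mul_assoc]
  have hmb : ∀ y : G, (∃ k i j : ℕ, y = (a * b) ^ k * a ^ i * c ^ j) →
      ∃ k i j : ℕ, b * y = (a * b) ^ k * a ^ i * c ^ j := by
    rintro y hy
    obtain ⟨k, i, j, h1⟩ := hma y hy
    refine ⟨3 + k, i, j, ?_⟩
    rw [pow_add]
    calc b * y = (a * b) ^ 3 * (a * y) := by rw [← mul_assoc, hb3]
      _ = _ := by rw [h1]; simp only [mul_assoc]
  have hmc : ∀ y : G, (∃ k i j : ℕ, y = (a * b) ^ k * a ^ i * c ^ j) →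
      ∃ k i j : ℕ, c * y = (a * b) ^ k * a ^ i * c ^ j := by
    rintro y ⟨k, i, j, rfl⟩
    refine ⟨k, i, j + 1, ?_⟩
    have hca : Commute c a := hac.symm
    have hcb : Commute c b := hbc.symm
    have h1 : Commute c ((a * b) ^ k * a ^ i) :=
      ((hca.mul_right hcb).pow_right k).mul_right (hca.pow_right i)
    rw [← mul_assoc, h1.eq, mul_assoc, ← pow_succ']
  have hia : a⁻¹ = a := inv_eq_of_mul_eq_one_left ha
  have hib : b⁻¹ = b := inv_eq_of_mul_eq_one_left hb
  have hic : c⁻¹ = c := inv_eq_of_mul_eq_one_left hc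
  have hP : ∃ k i j : ℕ, g = (a * b) ^ k * a ^ i * c ^ j := by
    induction hg using Subgroup.closure_induction_left with
    | one => exact ⟨0, 0, 0, by simp⟩
    | mul_left x hx y hy ih =>
      rcases hx with rfl | rfl | rfl
      · exact hma y ih
      · exact hmb y ih
      · exact hmc y ih
    | inv_mul_cancel x hx y hy ih =>
      rcases hx with rfl | rfl | rfl
      · rw [hia]
        exact hma y ih
      · rw [hib]
        exact hmb y ih
      · rw [hic]
        exact hmc y ih
  obtain ⟨k, i, j, h1⟩ := hP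
  refine ⟨k % 4, Nat.mod_lt _ (by norm_num), i % 2, Nat.mod_lt _ (by norm_num), j % 2,
    Nat.mod_lt _ (by norm_num), ?_⟩
  have ha2 : a ^ 2 = 1 := by rw [sq, ha]
  have hc2 : c ^ 2 = 1 := by rw [sq, hc]
  rw [← pow_eq_pow_mod k hab, ← pow_eq_pow_mod i ha2, ← pow_eq_pow_mod j hc2, h1]

end CEE
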