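import Pool.Agent.CEE.J1a

set_option autoImplicit false

/-!
# [CEE-J1b] Invariance of domain in Euclidean space
-/

namespace CEE

open Metric Set MeasureTheory

/- PROOF NOTES [CEE-J1b].  (Kulpa, Tao.)  `E = EuclideanSpace ℝ (Fin n)`, `B = closedBall 0 1`.
`ball_interior`: `f : B → f(B)` has a continuous inverse (compactness); extend it by Tietze to a continuous `G : E → E`, `G (f x) = x` on `B` (`ContinuousMap.exists_extension`-type results for the closed set `f(B)`; coordinatewise for `ℝ`-valued functions if necessary).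
 Suppose `f 0 ∉ interior (f '' B)`.  Choose `0 < ε` with `‖G y‖ ≤ 1/10` for `‖y - f 0‖ ≤ 2 ε` (`G (f 0) = 0`), and `c ∉ f '' B` with `‖c - f 0‖ < ε`.  Put `Σ₁ = {y ∈ f '' B | ε ≤ ‖y - c‖}`, `Σ₂ = sphere c ε`, `Σ = Σ₁ ∪ Σ₂` (compact).
 `Φ y = c + max (ε / ‖y - c‖) 1 • (y - c)` is continuous on `f '' B` and maps it into `Σ` (`Φ y = y` on `Σ₁`).  `G ≠ 0` on `Σ₁` (`G y = 0`, `y ∈ f '' B` imply `y = f 0`, but `‖f 0 - c‖ < ε`); let `0 < δ ≤ 1/10`, `4 δ ≤ ‖G‖` on `Σ₁` (compact, maybe empty).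
 `approx_smooth` for `Σ`, `ε := δ`: `P`.  `P '' Σ₂` is a null set (`image_sphere_null`), so there is `v` with `‖v‖ < δ`, `v ∉ P '' Σ₂`.  `G' = fun y => P (Φ y) - v` has no zero on `f '' B`: on `Σ₁` `‖P - v‖ ≥ 4δ - 2δ`, on the rest `Φ y ∈ Σ₂`.
 `‖G y - G' y‖ ≤ 2 δ + ‖G (Φ y) - G y‖ ≤ 2/10 + 2/10` (`Φ y = y`, or both `y`, `Φ y` have distance `≤ 2 ε` from `f 0`).  `stable_zero`: contradiction.
`inv_dom`: for `x ∈ U` a small closed ball `closedBall x r ⊆ U`; apply `ball_interior` to `z ↦ g (x + r • z)`.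
 (`n = 0` is no problem: everything works, or treat it separately.) -/

/-- A continuous injective map of the closed ball has a continuous left inverse on the whole space. -/
private theorem j1b_inverse (n : ℕ) (f : EuclideanSpace ℝ (Fin n) → EuclideanSpace ℝ (Fin n))
    (hf : ContinuousOn f (closedBall 0 1)) (hi : InjOn f (closedBall 0 1)) :
    ∃ G : EuclideanSpace ℝ (Fin n) → EuclideanSpace ℝ (Fin n), Continuous G ∧
      ∀ x ∈ closedBall (0 : EuclideanSpace ℝ (Fin n)) 1, G (f x) = x := by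
  have : CompactSpace (closedBall (0 : EuclideanSpace ℝ (Fin n)) 1) :=
    isCompact_iff_compactSpace.1 (isCompact_closedBall _ _)
  have h1 : Continuous ((closedBall (0 : EuclideanSpace ℝ (Fin n)) 1).domRestrict f) :=
    continuousOn_iff_continuous_domRestrict.1 hf
  have h2 : Function.Injective ((closedBall (0 : EuclideanSpace ℝ (Fin n)) 1).domRestrict f) :=
    injOn_iff_injective.1 hi
  have h3 := h1.isClosedEmbedding h2
  have : TietzeExtension (EuclideanSpace ℝ (Fin n)) := TietzeExtension.of_tvs ℝ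
  obtain ⟨g, hg⟩ := ContinuousMap.exists_extension' h3
    (⟨fun x => (x : EuclideanSpace ℝ (Fin n)), continuous_subtype_val⟩ :
      C(closedBall (0 : EuclideanSpace ℝ (Fin n)) 1, EuclideanSpace ℝ (Fin n)))
  refine ⟨g, g.continuous, fun x hx => ?_⟩
  exact congrFun hg ⟨x, hx⟩

theorem ball_interior (n : ℕ) (f : EuclideanSpace ℝ (Fin n) → EuclideanSpace ℝ (Fin n))
    (hf : ContinuousOn f (closedBall 0 1)) (hi : InjOn f (closedBall 0 1)) :
    f 0 ∈ interior (f '' closedBall 0 1) := by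
  obtain ⟨G, hGc, hG⟩ := j1b_inverse n f hf hi
  by_contra hint
  have h0mem : (0 : EuclideanSpace ℝ (Fin n)) ∈ closedBall (0 : EuclideanSpace ℝ (Fin n)) 1 :=
    mem_closedBall_self (by norm_num)
  have hG0 : G (f 0) = 0 := hG 0 h0mem
  -- ε
  obtain ⟨ε, hε, hGε⟩ : ∃ ε : ℝ, 0 < ε ∧ ∀ y, ‖y - f 0‖ ≤ 2 * ε → ‖G y‖ ≤ 1 / 10 := by
    have h1 : ∀ᶠ y in nhds (f 0), dist (G y) (G (f 0)) < 1 / 10 :=
      hGc.continuousAt.eventually (Metric.ball_mem_nhds _ (by norm_num))
    obtain ⟨η, hη, h2⟩ := Metric.eventually_nhds_iff.1 h1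
    refine ⟨η / 4, by positivity, fun y hy => ?_⟩
    have h3 : dist y (f 0) < η := by rw [dist_eq_norm]; linarith
    have h4 := h2 h3
    rw [hG0, dist_zero_right] at h4
    exact h4.le
  -- c
  obtain ⟨c, hcK, hc⟩ : ∃ c, c ∉ f '' closedBall 0 1 ∧ ‖c - f 0‖ < ε := by
    by_contra hcon
    push Not at hcon
    apply hint
    rw [mem_interior_iff_mem_nhds, Metric.mem_nhds_iff]
    refine ⟨ε, hε, fun y hy => ?_⟩
    by_contra hyK
    have := hcon y hyK
    rw [mem_ball, dist_eq_norm] at hy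
    linarith
  have hKc : IsCompact (f '' closedBall 0 1) := (isCompact_closedBall _ _).image_of_continuousOn hf
  set K : Set (EuclideanSpace ℝ (Fin n)) := f '' closedBall 0 1 with hK
  have hne : ∀ y ∈ K, 0 < ‖y - c‖ := by
    intro y hy
    rw [norm_pos_iff, sub_ne_zero]
    rintro rfl
    exact hcK hy
  set S1 : Set (EuclideanSpace ℝ (Fin n)) := K ∩ {y | ε ≤ ‖y - c‖} with hS1
  have hS1c : IsCompact S1 := by
    apply hKc.inter_right
    exact isClosed_le continuous_const (by fun_prop)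
  have hX : IsCompact (S1 ∪ sphere c ε) := hS1c.union (isCompact_sphere _ _)
  -- Φ
  let Φ : EuclideanSpace ℝ (Fin n) → EuclideanSpace ℝ (Fin n) :=
    fun y => c + max (ε / ‖y - c‖) 1 • (y - c)
  have hΦ1 : ∀ y ∈ K, ε ≤ ‖y - c‖ → Φ y = y := by
    intro y hy h
    have h1 : max (ε / ‖y - c‖) 1 = 1 := by
      apply max_eq_right
      rw [div_le_one (hne y hy)]
      exact h
    show c + max (ε / ‖y - c‖) 1 • (y - c) = y
    rw [h1, one_smul]
    abel
  have hΦ2 : ∀ y ∈ K, ‖y - c‖ ≤ ε → Φ y ∈ sphere c ε := by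
    intro y hy h
    have h1 : max (ε / ‖y - c‖) 1 = ε / ‖y - c‖ := by
      apply max_eq_left
      rw [one_le_div (hne y hy)]
      exact h
    rw [mem_sphere_iff_norm]
    show ‖c + max (ε / ‖y - c‖) 1 • (y - c) - c‖ = ε
    rw [h1, add_sub_cancel_left, norm_smul, Real.norm_of_nonneg (by positivity)]
    exact div_mul_cancel₀ _ (hne y hy).ne'
  have hΦc : ContinuousOn Φ K := by
    apply ContinuousOn.add continuousOn_const
    have hm : ContinuousOn (fun y => max (ε / ‖y - c‖) 1) K := by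
      apply ContinuousOn.sup _ continuousOn_const
      apply ContinuousOn.div continuousOn_const (by fun_prop)
      intro y hy
      exact (hne y hy).ne'
    have hs : ContinuousOn (fun y => y - c) K := by fun_prop
    exact hm.smul hs
  -- δ
  obtain ⟨δ, hδ, hδ10, hδG⟩ : ∃ δ : ℝ, 0 < δ ∧ δ ≤ 1 / 10 ∧ ∀ y ∈ S1, 4 * δ ≤ ‖G y‖ := by
    have hpos : ∀ y ∈ S1, 0 < ‖G y‖ := by
      rintro y ⟨hyK, hyc⟩
      rw [norm_pos_iff]
      intro hGy
      obtain ⟨x, hx, rfl⟩ := hyK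
      rw [hG x hx] at hGy
      rw [hGy, mem_ofPred_eq, norm_sub_rev] at hyc
      linarith
    rcases S1.eq_empty_or_nonempty with he | hne1
    · refine ⟨1 / 10, by norm_num, le_rfl, ?_⟩
      rw [he]; simp
    · obtain ⟨y0, hy0, hmin⟩ := hS1c.exists_isMinOn hne1 (f := fun y => ‖G y‖)
        (by fun_prop)
      have h0 := hpos y0 hy0
      refine ⟨min (1 / 10) (‖G y0‖ / 4), by positivity, min_le_left _ _, fun y hy => ?_⟩
      have h1 := hmin hy
      simp only [mem_ofPred_eq] at h1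
      have h2 := min_le_right (1 / 10 : ℝ) (‖G y0‖ / 4)
      linarith
  obtain ⟨P, hP, hPG⟩ := approx_smooth n (S1 ∪ sphere c ε) hX G hGc.continuousOn δ hδ
  have hnull := image_sphere_null n P hP c ε hε.ne'
  obtain ⟨v, hvδ, hvP⟩ : ∃ v : EuclideanSpace ℝ (Fin n), ‖v‖ < δ ∧ v ∉ P '' sphere c ε := by
    by_contra hcon
    push Not at hcon
    have h1 : ball (0 : EuclideanSpace ℝ (Fin n)) δ ⊆ P '' sphere c ε := by
      intro v hv
      exact hcon v (by simpa using hv)
    have h2 : volume (ball (0 : EuclideanSpace ℝ (Fin n)) δ) = 0 := measure_mono_null h1 hnull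
    exact (measure_ball_pos volume (0 : EuclideanSpace ℝ (Fin n)) hδ).ne' h2
  have hG'c : ContinuousOn (fun y => P (Φ y) - v) K := by
    apply ContinuousOn.sub _ continuousOn_const
    exact hP.continuous.comp_continuousOn hΦc
  have hclose : ∀ y ∈ K, ‖G y - (P (Φ y) - v)‖ ≤ 1 := by
    intro y hy
    have hΦX : Φ y ∈ S1 ∪ sphere c ε := by
      rcases le_total ε ‖y - c‖ with h | h
      · left
        rw [hΦ1 y hy h]
        exact ⟨hy, h⟩
      · right
        exact hΦ2 y hy h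
    have h1 := hPG (Φ y) hΦX
    have h2 : ‖G y - G (Φ y)‖ ≤ 2 / 10 := by
      rcases le_total ε ‖y - c‖ with h | h
      · rw [hΦ1 y hy h, sub_self, norm_zero]; norm_num
      · have h3 : ‖G y‖ ≤ 1 / 10 := by
          apply hGε
          calc ‖y - f 0‖ = ‖(y - c) + (c - f 0)‖ := by congr 1; abel
            _ ≤ ‖y - c‖ + ‖c - f 0‖ := norm_add_le _ _
            _ ≤ 2 * ε := by linarith
        have h4 : ‖G (Φ y)‖ ≤ 1 / 10 := by
          apply hGε
          have h5 := hΦ2 y hy h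
          rw [mem_sphere_iff_norm] at h5
          calc ‖Φ y - f 0‖ = ‖(Φ y - c) + (c - f 0)‖ := by congr 1; abel
            _ ≤ ‖Φ y - c‖ + ‖c - f 0‖ := norm_add_le _ _
            _ ≤ 2 * ε := by linarith
        calc ‖G y - G (Φ y)‖ ≤ ‖G y‖ + ‖G (Φ y)‖ := norm_sub_le _ _
          _ ≤ 2 / 10 := by linarith
    calc ‖G y - (P (Φ y) - v)‖ = ‖(G y - G (Φ y)) - (P (Φ y) - G (Φ y)) + v‖ := by
          congr 1; abel
      _ ≤ ‖(G y - G (Φ y)) - (P (Φ y) - G (Φ y))‖ + ‖v‖ := norm_add_le _ _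
      _ ≤ ‖G y - G (Φ y)‖ + ‖P (Φ y) - G (Φ y)‖ + ‖v‖ := by
          gcongr
          exact norm_sub_le _ _
      _ ≤ 1 := by linarith
  obtain ⟨y, hy, hy0⟩ := stable_zero n f G (fun y => P (Φ y) - v) hf hG hG'c hclose
  rcases le_total ε ‖y - c‖ with h | h
  · have hyS : y ∈ S1 := ⟨hy, h⟩
    have h1 := hδG y hyS
    have h2 := hPG y (Or.inl hyS)
    have h3 : P y - v = 0 := by
      have := hy0
      simp only [hΦ1 y hy h] at this
      exact this
    have h4 : P y = v := sub_eq_zero.1 h3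
    have h5 : ‖G y‖ ≤ ‖P y - G y‖ + ‖P y‖ := by
      calc ‖G y‖ = ‖P y - (P y - G y)‖ := by congr 1; abel
        _ ≤ ‖P y‖ + ‖P y - G y‖ := norm_sub_le _ _
        _ = ‖P y - G y‖ + ‖P y‖ := add_comm _ _
    rw [h4] at h5 h2
    linarith
  · apply hvP
    refine ⟨Φ y, hΦ2 y hy h, ?_⟩
    exact sub_eq_zero.1 hy0

theorem inv_dom (n : ℕ) (U : Set (EuclideanSpace ℝ (Fin n))) (hU : IsOpen U)
    (g : EuclideanSpace ℝ (Fin n) → EuclideanSpace ℝ (Fin n)) (hg : ContinuousOn g U)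
    (hi : InjOn g U) : IsOpen (g '' U) := by
  rw [isOpen_iff_mem_nhds]
  rintro _ ⟨x, hx, rfl⟩
  obtain ⟨r, hr, hrU⟩ := Metric.nhds_basis_closedBall.mem_iff.1 (hU.mem_nhds hx)
  have hmaps : ∀ z ∈ closedBall (0 : EuclideanSpace ℝ (Fin n)) 1, x + r • z ∈ closedBall x r := by
    intro z hz
    rw [mem_closedBall_zero_iff] at hz
    rw [mem_closedBall_iff_norm, add_sub_cancel_left, norm_smul, Real.norm_of_nonneg hr.le]
    nlinarith
  have h1 : ContinuousOn (fun z => g (x + r • z)) (closedBall (0 : EuclideanSpace ℝ (Fin n)) 1) := by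
    apply hg.comp (by fun_prop)
    intro z hz
    exact hrU (hmaps z hz)
  have h2 : InjOn (fun z => g (x + r • z)) (closedBall (0 : EuclideanSpace ℝ (Fin n)) 1) := by
    intro a ha b hb hab
    have h3 := hi (hrU (hmaps a ha)) (hrU (hmaps b hb)) hab
    have h4 : r • a = r • b := add_left_cancel h3
    exact smul_right_injective _ hr.ne' h4
  have h3 := ball_interior n (fun z => g (x + r • z)) h1 h2
  simp only [smul_zero, add_zero] at h3
  rw [mem_interior_iff_mem_nhds] at h3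
  apply Filter.mem_of_superset h3
  rintro _ ⟨z, hz, rfl⟩
  exact ⟨_, hrU (hmaps z hz), rfl⟩

end CEE
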