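import Pool.Agent.CEE.Base
import Pool.Agent.CEE.J1b

set_option autoImplicit false

/-!
# [CEE-J2] Invariance of domain in H3
-/

namespace CEE

open Pool.Agent.MP_8db1a4_gt Metric Set

/- PROOF NOTES [CEE-J2].  `chart x = x.val.1` with inverse `ξ ↦ (ξ, √(1 + ‖ξ‖²))`; continuity: `B1c.hy_val_continuous`, and `B1c.b1c_isClosedEmbedding` (inducing) for the inverse.
`inv_dom_H3`: transport `inv_dom` by the homeomorphism. -/

/-- vertical projection: `H3 ≃ₜ ℝ³` -/
theorem exists_chart : ∃ c : H3 ≃ₜ EuclideanSpace ℝ (Fin 3), ∀ x, c x = x.val.1 := by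
  have hmem : ∀ ξ : EuclideanSpace ℝ (Fin 3),
      ((ξ, Real.sqrt (1 + ‖ξ‖ ^ 2)) : V) ∈ LCone 3 := by
    intro ξ
    show ‖ξ‖ < Real.sqrt (1 + ‖ξ‖ ^ 2)
    rw [Real.lt_sqrt (norm_nonneg ξ)]
    linarith
  have hlor : ∀ ξ : EuclideanSpace ℝ (Fin 3),
      lor ((ξ, Real.sqrt (1 + ‖ξ‖ ^ 2)) : V) (ξ, Real.sqrt (1 + ‖ξ‖ ^ 2)) = -1 := by
    intro ξ
    simp only [lor]
    rw [Real.mul_self_sqrt (by positivity), real_inner_self_eq_norm_sq]
    ring
  refine ⟨{ toFun := fun x => x.val.1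
            invFun := fun ξ => ⟨(ξ, Real.sqrt (1 + ‖ξ‖ ^ 2)), hmem ξ, hlor ξ⟩
            left_inv := ?_
            right_inv := ?_
            continuous_toFun := ?_
            continuous_invFun := ?_ }, fun x => rfl⟩
  · intro x
    apply Hy.ext'
    refine Prod.ext rfl ?_
    show Real.sqrt (1 + ‖x.val.1‖ ^ 2) = x.val.2
    rw [B1c.b1c_norm_sq x]
    have e : 1 + (x.val.2 ^ 2 - 1) = x.val.2 ^ 2 := by ring
    rw [e, Real.sqrt_sq (B1c.b1c_snd_pos x).le]
  · intro ξ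
    rfl
  · exact continuous_fst.comp (hy_val_continuous 3)
  · rw [(B1c.b1c_isInducing 3).continuous_iff]
    show Continuous fun ξ : EuclideanSpace ℝ (Fin 3) => ((ξ, Real.sqrt (1 + ‖ξ‖ ^ 2)) : V)
    fun_prop

theorem inv_dom_H3 (U : Set H3) (hU : IsOpen U) (g : H3 → H3) (hg : ContinuousOn g U)
    (hi : InjOn g U) : IsOpen (g '' U) := by
  obtain ⟨c, -⟩ := exists_chart
  have h1 : IsOpen (c '' U) := c.isOpen_image.mpr hU
  have hmaps : MapsTo c.symm (c '' U) U := by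
    rintro _ ⟨x, hx, rfl⟩
    rw [c.symm_apply_apply]
    exact hx
  have h2 := inv_dom 3 (c '' U) h1 (fun ξ => c (g (c.symm ξ)))
    (c.continuous.comp_continuousOn (hg.comp c.symm.continuous.continuousOn hmaps))
    (fun ξ hξ η hη h => c.symm.injective (hi (hmaps hξ) (hmaps hη) (c.injective h)))
  have e : (fun ξ => c (g (c.symm ξ))) '' (c '' U) = c '' (g '' U) := by
    rw [image_image, image_image]
    exact image_congr fun x _ => by simp only [c.symm_apply_apply]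
  rw [e] at h2
  exact c.isOpen_image.mp h2

end CEE
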