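import Pool.Agent.CEE.F2
import Pool.Agent.CEE.D1
import Pool.Agent.CEE.J2

set_option autoImplicit false

/-!
# [CEE-I1] The bi-Lipschitz map on lifts, invariance of domain
-/

namespace CEE

open Pool.Agent.MP_8db1a4_gt Set Real

/-- `F` is a lift of an `L`-bi-Lipschitz map `core(M_geod) → M`. -/
structure LipF {m : ℕ} (hm : 13 ≤ m) (L : ℝ) (F : H3 → H3) : Prop where
  one_le : 1 ≤ L
  lower : ∀ x ∈ Y0 hm, ∀ y ∈ Y0 hm, d0 hm x y ≤ L * d1 hm (F x) (F y)
  upper : ∀ x ∈ Y0 hm, ∀ y ∈ Y0 hm, d1 hm (F x) (F y) ≤ L * d0 hm x y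

/-- the preimage in `H3` of the image of the core -/
def Im {m : ℕ} (hm : 13 ≤ m) (F : H3 → H3) : Set H3 :=
  {z | ∃ y ∈ Y0 hm, d1 hm z (F y) = 0}

/- PROOF NOTES [CEE-I1].
`Im_smul`: `qd_smul_left`.  `Im_iff`: `qd_eq_zero`.
`Im_nhds` (local invariance of domain): let `ball x r ⊆ Y0`, `z ∈ Im` with `d1 z (F x) = 0`; wlog (replace `F x`) think of `z = ρ₁(k₀) F x`.  `K_disp` (`G3c`) at `x` for `ρ₀`: `ε₀`, at `z` for `ρ₁`: `ε₁`.  Let `0 < η ≤ r`, `4 η < ε₀`, `8 L η < ε₁`.  For `y, y' ∈ ball x η`: `d0 y y' = dist y y'`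
 (for `k ≠ 1`: `dist y (ρ₀(k) y') ≥ dist x (ρ₀(k) x) - dist x y - dist x y' > ε₀ - 2 η ≥ 2 η > dist y y'`).  For `y ∈ ball x η` let `g y = ρ₁(k_y) F y` with `k_y ∈ K`, `dist z (g y) = d1 z (F y) ≤ L η` (`qd_exists`; `d1 z (F y) = d1 (F x) (F y) ≤ L d0 x y`).
 For `y, y' ∈ ball x η`: `dist (g y) (g y') = d1 (F y) (F y')` (both in `ball z (L η)`, `8 L η < ε₁`, same argument), so `dist y y' / L ≤ dist (g y) (g y') ≤ L dist y y'`: `g` is continuous and injective on `ball x η`: `inv_dom_H3`: `g '' ball x η` is open, contains `g x = z` (`dist z (g x) = d1 z (F x) = 0`), and is contained in `Im`. -/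

theorem Im_smul {m : ℕ} (hm : 13 ≤ m) (F : H3 → H3) (k : (CM m).Group) (hk : k ∈ K m) (z : H3) :
    (RS1 hm).rho k • z ∈ Im hm F ↔ z ∈ Im hm F := by
  have h : ∀ y, d1 hm ((RS1 hm).rho k • z) y = d1 hm z y := fun y =>
    qd_smul_left (RS1 hm) (K m) z y k hk
  constructor
  · rintro ⟨y, hy, h1⟩
    exact ⟨y, hy, by rw [← h]; exact h1⟩
  · rintro ⟨y, hy, h1⟩
    exact ⟨y, hy, by rw [h]; exact h1⟩

theorem Im_F {m : ℕ} (hm : 13 ≤ m) (F : H3 → H3) (y : H3) (hy : y ∈ Y0 hm) : F y ∈ Im hm F := by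
  refine ⟨y, hy, ?_⟩
  refine (qd_eq_zero (RS1 hm) (K m) (F y) (F y)).2 ⟨1, (K m).one_mem, ?_⟩
  rw [map_one, one_smul]

theorem i1_loc {m : ℕ} {w : ℝ} (h : RS (CM m) (ev w m)) (x : H3) (ε η : ℝ)
    (hε : ∀ k ∈ K m, k ≠ 1 → ε ≤ dist x (h.rho k • x)) (hη : 4 * η ≤ ε) (y y' : H3)
    (hy : dist y x < η) (hy' : dist y' x < η) : qd h (K m) y y' = dist y y' := by
  refine le_antisymm (qd_le_dist h (K m) y y') ?_
  obtain ⟨k, hk, hq⟩ := qd_exists h (K m) y y'
  by_cases hk1 : k = 1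
  · rw [hq, hk1, map_one, one_smul]
  · exfalso
    have h1 := hε k hk hk1
    have h2 : dist x (h.rho k • x) ≤ dist x y + dist y (h.rho k • y') + dist (h.rho k • y') (h.rho k • x) :=
      dist_triangle4 _ _ _ _
    rw [dist_smul_smul, dist_comm x y] at h2
    have h3 := qd_le_dist h (K m) y y'
    have h4 := dist_triangle y x y'
    rw [dist_comm x y'] at h4
    rw [← hq] at h2
    linarith

theorem Im_nhds {m : ℕ} (hm : 13 ≤ m) {L : ℝ} {F : H3 → H3} (hF : LipF hm L F) (x : H3) (r : ℝ)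
    (hr : 0 < r) (hx : Metric.ball x r ⊆ Y0 hm) (z : H3) (hz : d1 hm z (F x) = 0) :
    Im hm F ∈ nhds z := by
  obtain ⟨ε0, hε0, h0⟩ := K_disp m (by omega) (RS0 hm) x
  obtain ⟨ε1, hε1, h1⟩ := K_disp m (by omega) (RS1 hm) z
  have hL := hF.one_le
  have hL0 : 0 < L := by linarith
  obtain ⟨η, hη, hηr, hη0, hη1⟩ : ∃ η : ℝ, 0 < η ∧ η ≤ r ∧ 4 * η ≤ ε0 ∧ 4 * (2 * L * η) ≤ ε1 := by
    refine ⟨min r (min (ε0 / 4) (ε1 / (8 * L))), ?_, min_le_left _ _, ?_, ?_⟩
    · exact lt_min hr (lt_min (by positivity) (by positivity))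
    · have := (min_le_right r (min (ε0 / 4) (ε1 / (8 * L)))).trans (min_le_left _ _)
      linarith
    · have h2 := (min_le_right r (min (ε0 / 4) (ε1 / (8 * L)))).trans (min_le_right _ _)
      rw [le_div_iff₀ (by positivity)] at h2
      linarith
  have hY : ∀ y ∈ Metric.ball x η, y ∈ Y0 hm := fun y hy => hx (Metric.ball_subset_ball hηr hy)
  have hxη : x ∈ Metric.ball x η := Metric.mem_ball_self hη
  have hd0 : ∀ y ∈ Metric.ball x η, ∀ y' ∈ Metric.ball x η, d0 hm y y' = dist y y' :=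
    fun y hy y' hy' => i1_loc (RS0 hm) x ε0 η h0 hη0 y y' hy hy'
  choose kf hkf hkd using fun y => qd_exists (RS1 hm) (K m) z (F y)
  set g : H3 → H3 := fun y => (RS1 hm).rho (kf y) • F y with hg
  have hdz : ∀ y ∈ Metric.ball x η, dist (g y) z < 2 * L * η := by
    intro y hy
    have e1 : dist z (g y) = d1 hm z (F y) := (hkd y).symm
    have e2 : d1 hm z (F y) ≤ d1 hm z (F x) + d1 hm (F x) (F y) := qd_triangle _ _ _ _ _
    have e3 := hF.upper x (hY x hxη) y (hY y hy)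
    rw [hd0 x hxη y hy] at e3
    have e4 : dist x y < η := by rw [dist_comm]; exact hy
    have e5 : L * dist x y ≤ L * η := mul_le_mul_of_nonneg_left e4.le hL0.le
    have e6 : 0 < L * η := mul_pos hL0 hη
    rw [dist_comm, e1]
    linarith
  have hdg : ∀ y ∈ Metric.ball x η, ∀ y' ∈ Metric.ball x η,
      dist (g y) (g y') = d1 hm (F y) (F y') := by
    intro y hy y' hy'
    rw [← i1_loc (RS1 hm) z ε1 (2 * L * η) h1 hη1 (g y) (g y') (hdz y hy) (hdz y' hy')]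
    show qd (RS1 hm) (K m) ((RS1 hm).rho (kf y) • F y) ((RS1 hm).rho (kf y') • F y') = _
    rw [qd_smul_left _ _ _ _ _ (hkf y), qd_smul_right _ _ _ _ _ (hkf y')]
    rfl
  have hcont : ContinuousOn g (Metric.ball x η) := by
    have hlip : LipschitzOnWith (Real.toNNReal L) g (Metric.ball x η) := by
      refine LipschitzOnWith.of_dist_le_mul fun y hy y' hy' => ?_
      rw [Real.coe_toNNReal L hL0.le, hdg y hy y' hy', ← hd0 y hy y' hy']
      exact hF.upper y (hY y hy) y' (hY y' hy')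
    exact hlip.continuousOn
  have hinj : InjOn g (Metric.ball x η) := by
    intro y hy y' hy' h
    have e1 := hF.lower y (hY y hy) y' (hY y' hy')
    rw [hd0 y hy y' hy', ← hdg y hy y' hy', h, dist_self, mul_zero] at e1
    exact dist_le_zero.1 e1
  have hopen := inv_dom_H3 (Metric.ball x η) Metric.isOpen_ball g hcont hinj
  have hgx : g x = z := by
    have e1 : dist z (g x) = d1 hm z (F x) := (hkd x).symm
    rw [hz] at e1
    exact (dist_eq_zero.1 e1).symm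
  refine Filter.mem_of_superset (hopen.mem_nhds ⟨x, hxη, hgx⟩) ?_
  rintro _ ⟨y, hy, rfl⟩
  exact (Im_smul hm F (kf y) (hkf y) (F y)).2 (Im_F hm F y (hY y hy))

end CEE
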