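import Pool.Agent.MP_d0c340_co.Brouwer2
import Mathlib

set_option autoImplicit false

/-!
# [CEE-J1a] Smooth approximation, stability of zeros
-/

namespace CEE

open Metric Set MeasureTheory

/- PROOF NOTES [CEE-J1a].
`approx_smooth`: the second half of the proof of `MPd0c340.brouwer_ball` (in `Pool/Agent/MP_d0c340_co/Brouwer2.lean`) contains this approximation by Stone-Weierstrass, coordinatewise, on the ball; copy it for a compact set `X`.
`stable_zero`: the map `x ↦ x - G' (f x) = G (f x) - G' (f x)` maps the closed unit ball continuously into itself; `MPd0c340.brouwer_ball` gives a fixed point `x`, i.e. `G' (f x) = 0`.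
`image_sphere_null`: `ContDiff ℝ 1 P` is differentiable, `Σ = sphere c ε` has measure `0` (`Measure.addHaar_sphere`), `MeasureTheory.addHaar_image_eq_zero_of_differentiableOn_of_addHaar_eq_zero`. -/

theorem approx_smooth (n : ℕ) (X : Set (EuclideanSpace ℝ (Fin n))) (hX : IsCompact X)
    (G : EuclideanSpace ℝ (Fin n) → EuclideanSpace ℝ (Fin n)) (hG : ContinuousOn G X) (ε : ℝ)
    (hε : 0 < ε) : ∃ P : EuclideanSpace ℝ (Fin n) → EuclideanSpace ℝ (Fin n), ContDiff ℝ 1 P ∧
      ∀ x ∈ X, ‖P x - G x‖ ≤ ε := by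
  have hT : TietzeExtension (EuclideanSpace ℝ (Fin n)) := TietzeExtension.of_tvs ℝ
  obtain ⟨F, hF⟩ := ContinuousMap.exists_restrict_eq hX.isClosed
    (⟨X.domRestrict G, continuousOn_iff_continuous_domRestrict.1 hG⟩ : C(X, EuclideanSpace ℝ (Fin n)))
  have hFG : ∀ x ∈ X, F x = G x := by
    intro x hx
    have h1 := congrArg (fun f : C(X, EuclideanSpace ℝ (Fin n)) => f ⟨x, hx⟩) hF
    exact h1
  have hdense := ContinuousMap.dense_setOfPred_contDiff (E := EuclideanSpace ℝ (Fin n))
    (F := EuclideanSpace ℝ (Fin n)) F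
  rw [mem_closure_iff_nhds_basis (nhds_basis_uniformity
    Metric.uniformity_basis_dist.compactConvergenceUniformity)] at hdense
  obtain ⟨p, hp, hpF⟩ := hdense (X, ε) ⟨hX, hε⟩
  refine ⟨p, ?_, ?_⟩
  · have hpc : ContDiff ℝ ((⊤ : ℕ∞) : WithTop ℕ∞) p := hp
    exact hpc.of_le (by exact_mod_cast le_top)
  · intro x hx
    have h1 := hpF x hx
    simp only [mem_ofPred_eq] at h1
    rw [dist_eq_norm, hFG x hx] at h1
    exact h1.le

theorem stable_zero (n : ℕ) (f G G' : EuclideanSpace ℝ (Fin n) → EuclideanSpace ℝ (Fin n))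
    (hf : ContinuousOn f (closedBall 0 1)) (hG : ∀ x ∈ closedBall (0 : EuclideanSpace ℝ (Fin n)) 1, G (f x) = x)
    (hG' : ContinuousOn G' (f '' closedBall 0 1))
    (h : ∀ y ∈ f '' closedBall 0 1, ‖G y - G' y‖ ≤ 1) : ∃ y ∈ f '' closedBall 0 1, G' y = 0 := by
  have hc : ContinuousOn (fun x => x - G' (f x)) (closedBall (0 : EuclideanSpace ℝ (Fin n)) 1) :=
    continuousOn_id.sub (hG'.comp hf (mapsTo_image f _))
  obtain ⟨x, hx, hfix⟩ := MPd0c340.brouwer_ball n (fun x => x - G' (f x)) hc (by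
    intro x hx
    rw [mem_closedBall_zero_iff]
    have h1 := h (f x) (mem_image_of_mem f hx)
    rwa [hG x hx] at h1)
  refine ⟨f x, mem_image_of_mem f hx, ?_⟩
  have h2 : x - G' (f x) = x := hfix
  exact sub_eq_self.1 h2

theorem image_sphere_null (n : ℕ) (P : EuclideanSpace ℝ (Fin n) → EuclideanSpace ℝ (Fin n))
    (hP : ContDiff ℝ 1 P) (c : EuclideanSpace ℝ (Fin n)) (ε : ℝ) (hε : ε ≠ 0) :
    volume (P '' sphere c ε) = 0 := by
  exact addHaar_image_eq_zero_of_differentiableOn_of_addHaar_eq_zero volume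
    (hP.differentiable (by norm_num)).differentiableOn (Measure.addHaar_sphere_of_ne_zero volume c hε)

end CEE
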