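import Pool.Agent.CEE.L1a

set_option autoImplicit false

/-!
# [CEE-L1] Chains around the axis
-/

namespace CEE

open Pool.Agent.MP_8db1a4_gt Set Real

/- PROOF NOTES [CEE-L1].
`chain_axis`: suppose `‖hz (ζ i)‖ > M := 1 + 2 N sinh (A/2)/c` for all `i ≤ N`.  (`N = 0`: `ee (ζ 0) - ee (ζ N) = 0`, contradiction; so `A ≥ dist ≥ 0`.)  `star_ee`: `M² ‖ee (ζ i) - ee (ζ (i+1))‖² / 2 ≤ cosh A - 1 = 2 sinh² (A/2)`, so `‖ee (ζ i) - ee (ζ (i+1))‖ ≤ 2 sinh (A/2)/M`; sum: `c ≤ N · 2 sinh (A/2)/M`,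
 `c M ≤ 2 N sinh (A/2) < c M`: contradiction.
`two_angle_aux`: `c/2 ≤ ‖uu θ - uu θ'‖` for `θ, θ' ∈ [0, π]`, `c ≤ |θ - θ'|`: `‖uu θ - uu θ'‖ = 2 sin (|θ - θ'|/2) ≥ (2/π) |θ - θ'|` (`Real.mul_le_sin`), `4 sin² (x/2) = 2 - 2 cos x`. -/

theorem le_of_sq_le_sq_L1 {a b : ℝ} (h : a ^ 2 ≤ b ^ 2) (hb : 0 ≤ b) : a ≤ b :=
  (abs_le_of_sq_le_sq' h hb).2

theorem chain_axis (ζ : ℕ → H3) (N : ℕ) (A c : ℝ) (hc : 0 < c)
    (hA : ∀ i < N, dist (ζ i) (ζ (i + 1)) ≤ A) (he : c ≤ ‖ee (ζ 0) - ee (ζ N)‖) :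
    ∃ i ≤ N, ‖hz (ζ i)‖ ≤ 1 + 2 * N * sinh (A / 2) / c := by
  by_contra hcon
  push Not at hcon
  have hN : 0 < N := by
    rcases Nat.eq_zero_or_pos N with h | h
    · subst h
      rw [sub_self, norm_zero] at he
      linarith
    · exact h
  have hA0 : 0 ≤ A := le_trans dist_nonneg (hA 0 hN)
  have hs0 : 0 ≤ sinh (A / 2) := Real.sinh_nonneg_iff.mpr (by linarith)
  obtain ⟨M, hM⟩ : ∃ M, M = 1 + 2 * N * sinh (A / 2) / c := ⟨_, rfl⟩
  have hM1 : 1 ≤ M := by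
    rw [hM]
    have : 0 ≤ 2 * (N : ℝ) * sinh (A / 2) / c := by positivity
    linarith
  have hM0 : 0 < M := by linarith
  have hstep : ∀ i < N, ‖ee (ζ i) - ee (ζ (i + 1))‖ ≤ 2 * sinh (A / 2) / M := by
    intro i hi
    have hx : M < ‖hz (ζ i)‖ := by rw [hM]; exact hcon i hi.le
    have hy : M < ‖hz (ζ (i + 1))‖ := by rw [hM]; exact hcon (i + 1) hi
    have h1 := star_ee (ζ i) (ζ (i + 1)) (by linarith) (by linarith)
    have h2 : cosh (dist (ζ i) (ζ (i + 1))) ≤ cosh A := by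
      rw [Real.cosh_le_cosh, abs_of_nonneg dist_nonneg, abs_of_nonneg hA0]
      exact hA i hi
    have h3 : cosh A - 1 = 2 * sinh (A / 2) ^ 2 := by
      have h4 := Real.cosh_two_mul (A / 2)
      have h5 := Real.cosh_sq (A / 2)
      have h6 : 2 * (A / 2) = A := by ring
      rw [h6] at h4
      rw [h4, h5]
      ring
    have h7 : M * M ≤ ‖hz (ζ i)‖ * ‖hz (ζ (i + 1))‖ :=
      mul_le_mul hx.le hy.le hM0.le (by linarith)
    have h8 : M * M * ‖ee (ζ i) - ee (ζ (i + 1))‖ ^ 2 ≤ 4 * sinh (A / 2) ^ 2 := by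
      have h9 : M * M * ‖ee (ζ i) - ee (ζ (i + 1))‖ ^ 2 ≤
          ‖hz (ζ i)‖ * ‖hz (ζ (i + 1))‖ * ‖ee (ζ i) - ee (ζ (i + 1))‖ ^ 2 :=
        mul_le_mul_of_nonneg_right h7 (sq_nonneg _)
      linarith
    rw [le_div_iff₀ hM0]
    apply le_of_sq_le_sq_L1 _ (by positivity)
    calc (‖ee (ζ i) - ee (ζ (i + 1))‖ * M) ^ 2 = M * M * ‖ee (ζ i) - ee (ζ (i + 1))‖ ^ 2 := by ring
      _ ≤ 4 * sinh (A / 2) ^ 2 := h8
      _ = (2 * sinh (A / 2)) ^ 2 := by ring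
  have hsum : ∀ k ≤ N, ‖ee (ζ 0) - ee (ζ k)‖ ≤ k * (2 * sinh (A / 2) / M) := by
    intro k
    induction k with
    | zero => intro _; simp
    | succ k ih =>
      intro hk
      have h1 := ih (by omega)
      have h2 := hstep k (by omega)
      have h3 : ‖ee (ζ 0) - ee (ζ (k + 1))‖ ≤
          ‖ee (ζ 0) - ee (ζ k)‖ + ‖ee (ζ k) - ee (ζ (k + 1))‖ := by
        have h4 : ee (ζ 0) - ee (ζ (k + 1)) =
            (ee (ζ 0) - ee (ζ k)) + (ee (ζ k) - ee (ζ (k + 1))) := by ring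
        rw [h4]
        exact norm_add_le _ _
      push_cast
      linarith
  have h1 := hsum N le_rfl
  have h2 : c ≤ N * (2 * sinh (A / 2) / M) := he.trans h1
  have h3 : c * M ≤ N * (2 * sinh (A / 2)) := by
    have h4 := mul_le_mul_of_nonneg_right h2 hM0.le
    have h5 : N * (2 * sinh (A / 2) / M) * M = N * (2 * sinh (A / 2)) := by
      field_simp
    linarith
  have h6 : c * M = c + 2 * N * sinh (A / 2) := by
    rw [hM]
    field_simp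
  linarith

theorem norm_uu (θ : ℝ) : ‖uu θ‖ = 1 := by
  have h : ‖uu θ‖ ^ 2 = 1 := by
    rw [← Complex.normSq_eq_norm_sq, Complex.normSq_apply]
    show cos θ * cos θ + sin θ * sin θ = 1
    linarith [cos_sq_add_sin_sq θ, sq (cos θ), sq (sin θ)]
  have h0 := norm_nonneg (uu θ)
  nlinarith [h, h0]

theorem norm_uu_sub_sq (θ θ' : ℝ) : ‖uu θ - uu θ'‖ ^ 2 = 2 * (1 - cos (θ - θ')) := by
  rw [← Complex.normSq_eq_norm_sq, Complex.normSq_apply, Complex.sub_re, Complex.sub_im,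
    Real.cos_sub]
  show (cos θ - cos θ') * (cos θ - cos θ') + (sin θ - sin θ') * (sin θ - sin θ') = _
  have h1 := cos_sq_add_sin_sq θ
  have h2 := cos_sq_add_sin_sq θ'
  linear_combination h1 + h2

theorem two_angle_aux (c θ θ' : ℝ) (h0 : θ ∈ Icc 0 π) (h1 : θ' ∈ Icc 0 π) (h : c ≤ |θ - θ'|) :
    c / 2 ≤ ‖uu θ - uu θ'‖ := by
  have hp := Real.pi_pos
  obtain ⟨x, hx⟩ : ∃ x, x = |θ - θ'| := ⟨_, rfl⟩
  have hx0 : 0 ≤ x := by rw [hx]; exact abs_nonneg _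
  have hxp : x ≤ π := by
    rw [hx, abs_le]
    obtain ⟨a1, a2⟩ := h0
    obtain ⟨b1, b2⟩ := h1
    constructor <;> linarith
  have h2 := norm_uu_sub_sq θ θ'
  have h3 : cos (θ - θ') = cos x := by rw [hx, Real.cos_abs]
  have h4 : cos x = 1 - 2 * sin (x / 2) ^ 2 := by
    have h5 := Real.cos_sq_add_sin_sq (x / 2)
    have h6 := Real.cos_two_mul (x / 2)
    have h7 : 2 * (x / 2) = x := by ring
    rw [h7] at h6
    linarith
  have h5 : ‖uu θ - uu θ'‖ ^ 2 = (2 * sin (x / 2)) ^ 2 := by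
    rw [h2, h3, h4]; ring
  have h6 : 0 ≤ sin (x / 2) := Real.sin_nonneg_of_nonneg_of_le_pi (by linarith) (by linarith)
  have h7 : ‖uu θ - uu θ'‖ = 2 * sin (x / 2) := by
    apply le_antisymm
    · exact le_of_sq_le_sq_L1 h5.le (by positivity)
    · exact le_of_sq_le_sq_L1 h5.ge (norm_nonneg _)
  have h8 : 2 / π * (x / 2) ≤ sin (x / 2) := Real.mul_le_sin (by linarith) (by linarith)
  rw [h7]
  have h9 : c ≤ x := by rw [hx]; exact h
  have h10 : x / 4 ≤ 2 / π * (x / 2) := by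
    have h11 : 2 / π * (x / 2) = x / π := by field_simp
    rw [h11]
    exact div_le_div_of_nonneg_left hx0 hp Real.pi_le_four
  linarith

end CEE
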