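import Pool.Agent.CEE.L7

set_option autoImplicit false

/-!
# [CEE-L10] Crossing a half plane
-/

namespace CEE

open Pool.Agent.MP_8db1a4_gt Set Real

private theorem im_nonneg {m : ℕ} {y : H3} (hy : y ∈ D0 m) : 0 ≤ y.val.1 1 := by
  have h1 := hy.2 vF rfl
  rw [lor_eq] at h1
  simp only [vF, vec_0, vec_1, vec_2, vec_3] at h1
  linarith

private theorem re_eq (y : H3) : y.val.1 0 = ‖hz y‖ * cos (An y) := by
  have h1 := congrArg Complex.re (OnHP_arg y)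
  rw [Complex.mul_re, Complex.ofReal_re, Complex.ofReal_im, zero_mul, sub_zero] at h1
  exact h1

private theorem norm_sq (y : H3) : ‖hz y‖ * ‖hz y‖ = y.val.1 0 * y.val.1 0 + y.val.1 1 * y.val.1 1 := by
  rw [← sq, ← Complex.normSq_eq_norm_sq, Complex.normSq_apply]
  rfl

private theorem onHP_of {m : ℕ} {y : H3} (hy : y ∈ D0 m) {θ : ℝ} (hθ : θ ∈ Icc 0 π)
    (h : y.val.1 0 = cos θ * ‖hz y‖) : OnHP θ y := by
  have h1 := im_nonneg hy
  have h2 := norm_sq y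
  have hs : 0 ≤ sin θ := sin_nonneg_of_mem_Icc hθ
  have h3 : y.val.1 1 = ‖hz y‖ * sin θ := by
    have h4 : 0 ≤ ‖hz y‖ * sin θ := mul_nonneg (norm_nonneg _) hs
    have h5 : y.val.1 1 ^ 2 = (‖hz y‖ * sin θ) ^ 2 := by
      have h6 := sin_sq_add_cos_sq θ
      rw [h] at h2
      nlinarith
    exact (pow_left_inj₀ h1 h4 two_ne_zero).1 h5
  show hz y = (‖hz y‖ : ℂ) * uu θ
  apply Complex.ext
  · rw [Complex.mul_re, Complex.ofReal_re, Complex.ofReal_im, zero_mul, sub_zero]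
    show y.val.1 0 = ‖hz y‖ * cos θ
    rw [h, mul_comm]
  · rw [Complex.mul_im, Complex.ofReal_re, Complex.ofReal_im, zero_mul, add_zero]
    exact h3

private theorem g_continuous {m : ℕ} (hm : 13 ≤ m) (θ : ℝ) :
    Continuous fun x : H3 => ((RS0 hm).fold x).val.1 0 - cos θ * ‖hz ((RS0 hm).fold x)‖ := by
  have h0 : Continuous fun x : H3 => ((RS0 hm).fold x).val.1 :=
    (continuous_fst.comp (hy_val_continuous 3)).comp (RS0 hm).fold_continuous
  have hc : ∀ i : Fin 3, Continuous fun x : H3 => ((RS0 hm).fold x).val.1 i := fun i =>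
    (PiLp.continuous_apply 2 (fun _ : Fin 3 => ℝ) i).comp h0
  have h1 : Continuous fun x : H3 => hz ((RS0 hm).fold x) :=
    Complex.equivRealProdCLM.symm.continuous.comp ((hc 0).prodMk (hc 1))
  exact (hc 0).sub (continuous_const.mul h1.norm)

theorem exists_cross {m : ℕ} (hm : 13 ≤ m) (p p' : H3) (hp : p ∈ Y0 hm) (hp' : p' ∈ Y0 hm) (θ : ℝ)
    (hθ : θ ∈ Icc 0 π)
    (h : (An ((RS0 hm).fold p) ≤ θ ∧ θ < An ((RS0 hm).fold p')) ∨
      (θ < An ((RS0 hm).fold p) ∧ An ((RS0 hm).fold p') ≤ θ)) :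
    ∃ z ∈ Y0 hm, dist p z ≤ d0 hm p p' ∧ OnHP θ ((RS0 hm).fold z) := by
  obtain ⟨k, hk, hd⟩ := qd_exists (RS0 hm) (K m) p p'
  have hd' : d0 hm p p' = dist p ((RS0 hm).rho k • p') := hd
  have hp2 : (RS0 hm).rho k • p' ∈ Y0 hm := Yset_smul (RS0 hm) ex0 k hp'
  have hf : (RS0 hm).fold ((RS0 hm).rho k • p') = (RS0 hm).fold p' := (RS0 hm).fold_smul k p'
  generalize hq : (RS0 hm).rho k • p' = q at hd' hp2 hf
  obtain ⟨γ, g0, g1, hγ⟩ := b1b_geod p q
  have hD : 0 ≤ dist p q := dist_nonneg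
  have z0 : (0 : ℝ) ∈ Icc 0 (dist p q) := ⟨le_rfl, hD⟩
  have z1 : dist p q ∈ Icc 0 (dist p q) := ⟨hD, le_rfl⟩
  have hin : ∀ t ∈ Icc 0 (dist p q), γ t ∈ Y0 hm := by
    intro t ht
    refine Yset_convex (RS0 hm) ex0 p hp q hp2 (γ t) ?_
    have e1 := hγ 0 z0 t ht
    have e2 := hγ t ht _ z1
    rw [g0] at e1
    rw [g1] at e2
    rw [e1, e2, zero_sub, abs_neg, abs_of_nonneg ht.1, abs_of_nonpos (by linarith [ht.2])]
    ring
  have hc : ContinuousOn γ (Icc 0 (dist p q)) := by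
    have hl : LipschitzOnWith 1 γ (Icc 0 (dist p q)) := by
      apply LipschitzOnWith.of_dist_le_mul
      intro s hs t ht
      rw [hγ s hs t ht, NNReal.coe_one, one_mul, Real.dist_eq]
    exact hl.continuousOn
  have hgc : ContinuousOn (fun t : ℝ => ((RS0 hm).fold (γ t)).val.1 0 -
      cos θ * ‖hz ((RS0 hm).fold (γ t))‖) (Icc 0 (dist p q)) :=
    (g_continuous hm θ).comp_continuousOn hc
  have hfold : ∀ t ∈ Icc 0 (dist p q), (RS0 hm).fold (γ t) ∈ D0 m := fun t ht =>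
    (Yset_fold (RS0 hm) ex0 (ex0_anti hm) (γ t)).1 (hin t ht)
  have hle : ∀ t ∈ Icc 0 (dist p q), An ((RS0 hm).fold (γ t)) ≤ θ →
      0 ≤ ((RS0 hm).fold (γ t)).val.1 0 - cos θ * ‖hz ((RS0 hm).fold (γ t))‖ := by
    intro t ht h1
    have h2 := An_mem _ (hfold t ht)
    have h3 : cos θ ≤ cos (An ((RS0 hm).fold (γ t))) :=
      cos_le_cos_of_nonneg_of_le_pi h2.1 hθ.2 h1
    rw [re_eq]
    nlinarith [norm_nonneg (hz ((RS0 hm).fold (γ t)))]
  have hge : ∀ t ∈ Icc 0 (dist p q), θ < An ((RS0 hm).fold (γ t)) →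
      ((RS0 hm).fold (γ t)).val.1 0 - cos θ * ‖hz ((RS0 hm).fold (γ t))‖ ≤ 0 := by
    intro t ht h1
    have h2 := An_mem _ (hfold t ht)
    have h3 : cos (An ((RS0 hm).fold (γ t))) ≤ cos θ :=
      cos_le_cos_of_nonneg_of_le_pi hθ.1 h2.2 h1.le
    rw [re_eq]
    nlinarith [norm_nonneg (hz ((RS0 hm).fold (γ t)))]
  have hex : ∃ t ∈ Icc 0 (dist p q), ((RS0 hm).fold (γ t)).val.1 0 -
      cos θ * ‖hz ((RS0 hm).fold (γ t))‖ = 0 := by
    rcases h with ⟨h1, h2⟩ | ⟨h1, h2⟩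
    · have a1 := hle 0 z0 (by rw [g0]; exact h1)
      have a2 := hge _ z1 (by rw [g1, hf]; exact h2)
      exact intermediate_value_Icc' hD hgc ⟨a2, a1⟩
    · have a1 := hge 0 z0 (by rw [g0]; exact h1)
      have a2 := hle _ z1 (by rw [g1, hf]; exact h2)
      exact intermediate_value_Icc hD hgc ⟨a1, a2⟩
  obtain ⟨t, ht, h0⟩ := hex
  refine ⟨γ t, hin t ht, ?_, ?_⟩
  · have e1 := hγ 0 z0 t ht
    rw [g0] at e1
    rw [e1, zero_sub, abs_neg, abs_of_nonneg ht.1, hd']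
    exact ht.2
  · exact onHP_of (hfold t ht) hθ (by linarith)

end CEE
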