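import Pool.Agent.CEE.G2

set_option autoImplicit false

/-!
# [CEE-L11] Bounded words for the cosets
-/

namespace CEE

open Set

/- PROOF NOTES [CEE-L11].  Let `τ = typ m .T = (sr 0, 1, -1)`, `β = typ m .B = (1, sr 0, -1)`, `ε = (1, sr 1, -1)` (even sides), `ο = (sr 1, 1, -1)` (odd sides): they do not depend on `m`.  Let `Sg = {τ, β, ε, ο} ⊆ Q`, `C = closure Sg`.
Every element of `C` is the product of a list of elements of `Sg` (`Subgroup.exists_list_of_mem_closure`: lists of elements and inverses; all elements of `Sg` are involutions; or `closure_induction`).  Choose such a list for each of the finitely many elements of `C` and let `NQ` be the maximum of the lengths (`Finset.sup univ`, or `Finite.bddAbove_range`).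
`phi m v ∈ C` for all `v` (the simple generators generate `(CM m).Group`: `CoxeterSystem.subgroup_closure_range_simple` / `M.toCoxeterSystem.simple_induction`, `phi_simple`).  Lift the list letter by letter: `τ ↦ T`, `β ↦ B`, `ε, ο ↦` the one of `G i`, `G (i+1)` with the right parity. -/

/-- the images of the generators -/
def l11_S : Set Q := {(.sr 0, 1, -1), (1, .sr 0, -1), (1, .sr 1, -1), (.sr 1, 1, -1)}

theorem l11_inv {x : Q} (hx : x ∈ l11_S) : x⁻¹ = x := by
  rcases hx with rfl | rfl | rfl | rfl <;> decide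

theorem l11_list {q : Q} (hq : q ∈ Subgroup.closure l11_S) :
    ∃ L : List Q, (∀ x ∈ L, x ∈ l11_S) ∧ L.prod = q := by
  rw [← Subgroup.mem_toSubmonoid, Subgroup.closure_toSubmonoid] at hq
  obtain ⟨L, hL, hp⟩ := Submonoid.exists_list_of_mem_closure hq
  refine ⟨L, fun x hx => ?_, hp⟩
  rcases hL x hx with h | h
  · exact h
  · have h2 : x⁻¹ ∈ l11_S := h
    have h1 := l11_inv h2
    rw [inv_inv] at h1
    rw [h1]
    exact h2

theorem l11_typ_mem (m : ℕ) (s : Gen m) : typ m s ∈ l11_S := by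
  cases s with
  | T => exact Or.inl rfl
  | B => exact Or.inr (Or.inl rfl)
  | G i =>
    by_cases h : Even i.val
    · rw [g2_typ_G_even h]
      exact Or.inr (Or.inr (Or.inl rfl))
    · rw [g2_typ_G_odd h]
      exact Or.inr (Or.inr (Or.inr rfl))

theorem l11_phi_mem (m : ℕ) (v : (CM m).Group) : phi m v ∈ Subgroup.closure l11_S := by
  have h1 : Subgroup.closure (Set.range (CM m).simple) = ⊤ :=
    (CM m).toCoxeterSystem.subgroup_closure_range_simple
  have h2 : (⊤ : Subgroup (CM m).Group) ≤ (Subgroup.closure l11_S).comap (phi m) := by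
    rw [← h1, Subgroup.closure_le]
    rintro _ ⟨s, rfl⟩
    show phi m ((CM m).simple s) ∈ Subgroup.closure l11_S
    rw [phi_simple]
    exact Subgroup.subset_closure (l11_typ_mem m s)
  exact h2 (Subgroup.mem_top v)

theorem l11_letter (m i : ℕ) (hi : i < m) {x : Q} (hx : x ∈ l11_S) :
    ∃ s : Gen m, (s = .T ∨ s = .B ∨ s = .G ⟨i, by omega⟩ ∨ s = .G ⟨i + 1, by omega⟩) ∧
      typ m s = x := by
  rcases hx with rfl | rfl | rfl | rfl
  · exact ⟨.T, Or.inl rfl, rfl⟩
  · exact ⟨.B, Or.inr (Or.inl rfl), rfl⟩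
  · by_cases h : Even i
    · exact ⟨.G ⟨i, by omega⟩, Or.inr (Or.inr (Or.inl rfl)), g2_typ_G_even h⟩
    · refine ⟨.G ⟨i + 1, by omega⟩, Or.inr (Or.inr (Or.inr rfl)), g2_typ_G_even ?_⟩
      exact Nat.even_add_one.2 h
  · by_cases h : Even i
    · refine ⟨.G ⟨i + 1, by omega⟩, Or.inr (Or.inr (Or.inr rfl)), g2_typ_G_odd ?_⟩
      exact fun h' => (Nat.even_add_one.1 h') h
    · exact ⟨.G ⟨i, by omega⟩, Or.inr (Or.inr (Or.inl rfl)), g2_typ_G_odd h⟩

theorem l11_lift (m i : ℕ) (hi : i < m) (L : List Q) (hL : ∀ x ∈ L, x ∈ l11_S) :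
    ∃ l : List (Gen m), l.length = L.length ∧
      (∀ s ∈ l, s = .T ∨ s = .B ∨ s = .G ⟨i, by omega⟩ ∨ s = .G ⟨i + 1, by omega⟩) ∧
      (l.map (typ m)).prod = L.prod := by
  induction L with
  | nil => exact ⟨[], rfl, fun s hs => absurd hs List.not_mem_nil, rfl⟩
  | cons x L ih =>
    obtain ⟨l, h1, h2, h3⟩ := ih fun y hy => hL y (List.mem_cons_of_mem x hy)
    obtain ⟨s, hs, hx⟩ := l11_letter m i hi (hL x List.mem_cons_self)
    refine ⟨s :: l, ?_, ?_, ?_⟩
    · rw [List.length_cons, List.length_cons, h1]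
    · intro t ht
      rcases List.mem_cons.1 ht with rfl | ht
      · exact hs
      · exact h2 t ht
    · rw [List.map_cons, List.prod_cons, List.prod_cons, h3, hx]

theorem exists_word : ∃ NQ : ℕ, ∀ (m i : ℕ) (hi : i < m) (v : (CM m).Group), ∃ l : List (Gen m),
    l.length ≤ NQ ∧
    (∀ s ∈ l, s = .T ∨ s = .B ∨ s = .G ⟨i, by omega⟩ ∨ s = .G ⟨i + 1, by omega⟩) ∧
    phi m v = phi m (l.map (CM m).simple).prod := by
  classical
  have hch : ∀ q : Q, ∃ L : List Q, q ∈ Subgroup.closure l11_S →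
      (∀ x ∈ L, x ∈ l11_S) ∧ L.prod = q := by
    intro q
    by_cases hq : q ∈ Subgroup.closure l11_S
    · obtain ⟨L, h1, h2⟩ := l11_list hq
      exact ⟨L, fun _ => ⟨h1, h2⟩⟩
    · exact ⟨[], fun h => absurd h hq⟩
  choose L hL using hch
  refine ⟨Finset.univ.sup fun q => (L q).length, fun m i hi v => ?_⟩
  obtain ⟨h1, h2⟩ := hL (phi m v) (l11_phi_mem m v)
  obtain ⟨l, e1, e2, e3⟩ := l11_lift m i hi (L (phi m v)) h1
  refine ⟨l, ?_, e2, ?_⟩
  · rw [e1]
    exact Finset.le_sup (f := fun q => (L q).length) (Finset.mem_univ (phi m v))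
  · rw [map_list_prod, List.map_map]
    have e4 : (phi m) ∘ (CM m).simple = typ m := funext fun s => phi_simple m s
    rw [e4, e3, h2]

end CEE
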