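import Pool.Agent.CEE.L3
import Pool.Agent.CEE.C4d

set_option autoImplicit false

/-!
# [CEE-L4] The ring points and their partners
-/

namespace CEE

open Pool.Agent.MP_8db1a4_gt Set Real

/-- the ring points in the chamber of `M`, `0 ≤ t ≤ m - 2` -/
noncomputable def aT (m t : ℕ) : H3 := pt ((t + 1) * w1 m) (rs (w1 m)) 0

/-- partners `p t ∈ Y0` of the ring points: `F (p t)` is (up to `K`) the point `q t` close to `aT m t` -/
structure PQ {m : ℕ} (hm : 13 ≤ m) (F : H3 → H3) (p q : ℕ → H3) : Prop where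
  mem : ∀ t, t + 2 ≤ m → p t ∈ Y0 hm
  near : ∀ t, t + 2 ≤ m → dist (aT m t) (q t) ≤ 4
  eq : ∀ t, t + 2 ≤ m → d1 hm (q t) (F (p t)) = 0

/- PROOF NOTES [CEE-L4].
`dist_refl_le`: `cosh (dist x (refl n • x)) = - lor x (x - 2 ⟨x,n⟩ n) = 1 + 2 ⟨x,n⟩² ≤ 3 ≤ cosh 2`.
`dist_a_le`: `rho_simple` and `dist_refl_le` with `lor_a_T`, `lor_a_B`, `lor_a_G`: for `|θ - i w| ≤ w`: `cos (θ - i w) ≥ cos w` (`Real.cos_le_cos_of_nonneg_of_le_pi` with `Real.cos_abs`), so `0 ≤ p cosh rs (1 - cos (θ - i w)) ≤ p cosh rs (1 - cos w) ≤ 1` (`p_cosh`).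
`exists_PQ`: for `t + 2 ≤ m` use `meets` for `x = aT m t`: `z ∈ Im`, `dist x z ≤ dist x (ρ₁(kt) x) ≤ dist x (ρ₁(G_t) x) + dist (ρ₁(G_t) x) (ρ₁(G_t) ρ₁(G_{t+2}) x) ≤ 2 + 2` (`dist_a_le` with `θ = (t+1) w1`, `θ - t w1 = w1`, `θ - (t+2) w1 = - w1`; `kt m t ht = simple (G t) * simple (G (t+2))`, `rho_mul_apply`, `dist_smul_smul`).
 `z ∈ Im` gives `y ∈ Y0` with `d1 z (F y) = 0`.  Choose (`if h : t + 2 ≤ m then .. else default/O`).
`aT_mem`: `pt_mem_cham` with `s = rs`.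
`pq_fold`: `fold₁ (q t) = fold₁ (F (p t))` (`fold_le_qd`, distance `0`), `fold₁ (aT m t) = aT m t` (`fold_of_mem`), `fold_dist`.
`pq_upper`: `d0 (p t) (p s) ≤ L d1 (F (p t)) (F (p s)) ≤ L (0 + d1 (q t) (q s) + 0)` (`qd_triangle`, `qd_symm`), `d1 (q t) (q s) ≤ dist (q t) (q s) ≤ 4 + dist (aT t) (aT s) + 4` (`qd_le_dist`).
`pq_lower`: `dist (aT t) (aT s) ≤ 4 + dist (fold₁ (F (p t))) (fold₁ (F (p s))) + 4 ≤ 8 + d1 (F (p t)) (F (p s)) ≤ 8 + L d0 (p t) (p s)`. -/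

theorem dist_refl_le (n : V) (hn : lor n n = 1) (x : H3) (h : |lor x.val n| ≤ 1) :
    dist x (refl n hn • x) ≤ 2 := by
  have h1 : cosh (dist x (refl n hn • x)) = 1 + 2 * lor x.val n ^ 2 := by
    rw [cosh_dist, smul_val, refl_apply, lor_sub_right, lor_smul_right, x.lor_self]
    ring
  have h2 : lor x.val n ^ 2 ≤ 1 := by
    rw [← sq_abs]
    have := abs_nonneg (lor x.val n)
    nlinarith
  have h3 : cosh (dist x (refl n hn • x)) ≤ cosh 2 := by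
    rw [h1, Real.cosh_eq 2]
    have h5 := Real.exp_one_gt_d9
    have h6 := Real.exp_pos (-2)
    have h7 : exp 2 = exp 1 * exp 1 := by
      rw [← Real.exp_add]
      norm_num
    have h8 : 7 ≤ exp 2 := by
      rw [h7]
      nlinarith
    linarith
  have h4 := Real.cosh_le_cosh.1 h3
  rw [abs_of_nonneg dist_nonneg, abs_of_nonneg (by norm_num : (0 : ℝ) ≤ 2)] at h4
  exact h4

theorem dist_a_le {m : ℕ} {w : ℝ} (h0 : 0 < w) (h1 : w ≤ 1 / 2) (h : RS (CM m) (ev w m)) (θ : ℝ)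
    (s : Gen m) (hs : s = .T ∨ s = .B ∨ ∃ i, s = .G i ∧ |θ - i.val * w| ≤ w) :
    dist (pt θ (rs w) 0) (h.rho ((CM m).simple s) • pt θ (rs w) 0) ≤ 2 := by
  rw [h.rho_simple]
  apply dist_refl_le
  rcases hs with rfl | rfl | ⟨i, rfl, hi⟩
  · exact lor_a_T h0 h1 θ
  · exact lor_a_B h0 h1 θ
  · show |lor (pt θ (rs w) 0).val (vG w i.val)| ≤ 1
    rw [lor_a_G h0 h1 θ i.val, abs_neg]
    have hp := pv_pos h0 h1
    have hc := Real.cosh_pos (rs w)
    have h2 : cos w ≤ cos (θ - i.val * w) := by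
      rw [← Real.cos_abs (θ - i.val * w)]
      apply Real.cos_le_cos_of_nonneg_of_le_pi (abs_nonneg _) _ hi
      linarith [Real.pi_gt_three]
    have h3 := Real.cos_le_one (θ - i.val * w)
    have hpc := mul_pos hp hc
    rw [abs_of_nonneg (mul_nonneg hpc.le (by linarith))]
    refine le_trans ?_ (p_cosh h0 h1)
    apply mul_le_mul_of_nonneg_left _ hpc.le
    linarith

theorem aT_mem {m : ℕ} (hm : 13 ≤ m) (t : ℕ) : aT m t ∈ cham (ev (w1 m) m) := by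
  exact pt_mem_cham (w1_pos m) (w1_le hm) m _ _ (rs_pos (w1_pos m) (w1_le hm)).le le_rfl

theorem exists_PQ {m : ℕ} (hm : 13 ≤ m) (ho : Odd m) {L : ℝ} {F : H3 → H3} (hF : LipF hm L F) :
    ∃ p q : ℕ → H3, PQ hm F p q := by
  have key : ∀ t : ℕ, ∃ a : H3 × H3, t + 2 ≤ m →
      a.1 ∈ Y0 hm ∧ dist (aT m t) a.2 ≤ 4 ∧ d1 hm a.2 (F a.1) = 0 := by
    intro t
    by_cases ht : t + 2 ≤ m
    · obtain ⟨z, ⟨y, hy, hzy⟩, hz⟩ := meets hm ho hF t ht (aT m t)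
      refine ⟨(y, z), fun _ => ⟨hy, ?_, hzy⟩⟩
      show dist (aT m t) z ≤ 4
      have h1 : dist (aT m t) z ≤ dist (aT m t) ((RS1 hm).rho (kt m t ht) • aT m t) := by
        have := dist_nonneg (x := z) (y := (RS1 hm).rho (kt m t ht) • aT m t)
        linarith
      refine h1.trans ?_
      have hw := w1_pos m
      have h2 : dist (aT m t) ((RS1 hm).rho ((CM m).simple (.G ⟨t, by omega⟩)) • aT m t) ≤ 2 := by
        apply dist_a_le hw (w1_le hm) (RS1 hm)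
        refine Or.inr (Or.inr ⟨⟨t, by omega⟩, rfl, ?_⟩)
        have h3 : ((t : ℝ) + 1) * w1 m - ((⟨t, by omega⟩ : Fin (m + 1)).val : ℝ) * w1 m = w1 m := by
          show ((t : ℝ) + 1) * w1 m - (t : ℝ) * w1 m = w1 m
          ring
        rw [h3, abs_of_pos hw]
      have h4 : dist (aT m t) ((RS1 hm).rho ((CM m).simple (.G ⟨t + 2, by omega⟩)) • aT m t) ≤ 2 := by
        apply dist_a_le hw (w1_le hm) (RS1 hm)
        refine Or.inr (Or.inr ⟨⟨t + 2, by omega⟩, rfl, ?_⟩)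
        have h3 : ((t : ℝ) + 1) * w1 m - ((⟨t + 2, by omega⟩ : Fin (m + 1)).val : ℝ) * w1 m =
            -w1 m := by
          show ((t : ℝ) + 1) * w1 m - ((t + 2 : ℕ) : ℝ) * w1 m = -w1 m
          push_cast
          ring
        rw [h3, abs_neg, abs_of_pos hw]
      have h5 : (RS1 hm).rho (kt m t ht) • aT m t =
          (RS1 hm).rho ((CM m).simple (.G ⟨t, by omega⟩)) •
            (RS1 hm).rho ((CM m).simple (.G ⟨t + 2, by omega⟩)) • aT m t := by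
        unfold kt
        rw [map_mul, mul_smul]
      rw [h5]
      have h6 := dist_triangle (aT m t) ((RS1 hm).rho ((CM m).simple (.G ⟨t, by omega⟩)) • aT m t)
        ((RS1 hm).rho ((CM m).simple (.G ⟨t, by omega⟩)) •
            (RS1 hm).rho ((CM m).simple (.G ⟨t + 2, by omega⟩)) • aT m t)
      rw [dist_smul_smul] at h6
      linarith
    · exact ⟨(O, O), fun h => absurd h ht⟩
  choose a ha using key
  exact ⟨fun t => (a t).1, fun t => (a t).2, ⟨fun t ht => (ha t ht).1, fun t ht => (ha t ht).2.1,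
    fun t ht => (ha t ht).2.2⟩⟩

theorem pq_fold {m : ℕ} (hm : 13 ≤ m) {F : H3 → H3} {p q : ℕ → H3} (h : PQ hm F p q) (t : ℕ)
    (ht : t + 2 ≤ m) : dist (aT m t) ((RS1 hm).fold (F (p t))) ≤ 4 := by
  have h1 := fold_le_qd (RS1 hm) (K m) (q t) (F (p t))
  have h2 : qd (RS1 hm) (K m) (q t) (F (p t)) = 0 := h.eq t ht
  have h3 := (RS1 hm).fold_dist (aT m t) (q t)
  rw [(RS1 hm).fold_of_mem _ (aT_mem hm t)] at h3
  have h4 := dist_triangle (aT m t) ((RS1 hm).fold (q t)) ((RS1 hm).fold (F (p t)))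
  have h5 := h.near t ht
  linarith

theorem pq_upper {m : ℕ} (hm : 13 ≤ m) {L : ℝ} {F : H3 → H3} (hF : LipF hm L F) {p q : ℕ → H3}
    (h : PQ hm F p q) (t s : ℕ) (ht : t + 2 ≤ m) (hs : s + 2 ≤ m) :
    d0 hm (p t) (p s) ≤ L * (dist (aT m t) (aT m s) + 8) := by
  have hL : 0 ≤ L := by linarith [hF.one_le]
  refine (hF.lower _ (h.mem t ht) _ (h.mem s hs)).trans ?_
  apply mul_le_mul_of_nonneg_left _ hL
  have h1 : qd (RS1 hm) (K m) (F (p t)) (F (p s)) ≤ qd (RS1 hm) (K m) (F (p t)) (q t) +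
      qd (RS1 hm) (K m) (q t) (F (p s)) := qd_triangle _ _ _ _ _
  have h2 : qd (RS1 hm) (K m) (q t) (F (p s)) ≤ qd (RS1 hm) (K m) (q t) (q s) +
      qd (RS1 hm) (K m) (q s) (F (p s)) := qd_triangle _ _ _ _ _
  have h3 : qd (RS1 hm) (K m) (F (p t)) (q t) = 0 := by
    rw [qd_symm]
    exact h.eq t ht
  have h4 : qd (RS1 hm) (K m) (q s) (F (p s)) = 0 := h.eq s hs
  have h5 := qd_le_dist (RS1 hm) (K m) (q t) (q s)
  have h6 := dist_triangle (q t) (aT m t) (q s)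
  have h7 := dist_triangle (aT m t) (aT m s) (q s)
  have h8 := h.near t ht
  have h9 := h.near s hs
  rw [dist_comm (q t) (aT m t)] at h6
  show qd (RS1 hm) (K m) (F (p t)) (F (p s)) ≤ dist (aT m t) (aT m s) + 8
  linarith

theorem pq_lower {m : ℕ} (hm : 13 ≤ m) {L : ℝ} {F : H3 → H3} (hF : LipF hm L F) {p q : ℕ → H3}
    (h : PQ hm F p q) (t s : ℕ) (ht : t + 2 ≤ m) (hs : s + 2 ≤ m) :
    dist (aT m t) (aT m s) ≤ L * d0 hm (p t) (p s) + 8 := by
  have h1 := hF.upper _ (h.mem t ht) _ (h.mem s hs)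
  have h2 : dist ((RS1 hm).fold (F (p t))) ((RS1 hm).fold (F (p s))) ≤
      d1 hm (F (p t)) (F (p s)) := fold_le_qd (RS1 hm) (K m) _ _
  have h3 := pq_fold hm h t ht
  have h4 := pq_fold hm h s hs
  have h5 := dist_triangle (aT m t) ((RS1 hm).fold (F (p t))) (aT m s)
  have h6 := dist_triangle ((RS1 hm).fold (F (p t))) ((RS1 hm).fold (F (p s))) (aT m s)
  rw [dist_comm ((RS1 hm).fold (F (p s))) (aT m s)] at h6
  linarith

end CEE
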