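import Pool.Agent.CEE.L12a
import Pool.Agent.CEE.L4
import Pool.Agent.CEE.L11

set_option autoImplicit false

/-!
# [CEE-L12] Chains: changing the sheet
-/

namespace CEE

open Pool.Agent.MP_8db1a4_gt Set Real

/- PROOF NOTES [CEE-L12].
`chn_sheet`: `a = pt θ rs 0`, `i = min ⌊θ / w0 m⌋₊ (m - 1)`: `|θ - i w0| ≤ w0`, `|θ - (i+1) w0| ≤ w0` (`m w0 = π`).  `exists_word` for `v⁻¹ v'`: a list `l`; `z j = ρ(v (l.take j).prod) a` for `j ≤ NQ` (`List.take` is constant after the length), `z (NQ + 1) = ρ(v') a`.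
 Steps: `dist (ρ(u) a) (ρ(u s) a) = dist a (ρ(s) a) ≤ 2` (`dist_a_le`); last step: `phi (v l.prod) = phi v'`, so `v l.prod v'⁻¹ ∈ K` and `d0 (ρ(v l.prod) a) (ρ(v') a) = 0` (`qd_eq_zero`).  `d0 (ρ(v) a) (z j) ≤ 2 j ≤ 2 NQ` by the triangle inequality. -/

theorem l12_index {m : ℕ} (hm : 13 ≤ m) (θ : ℝ) (hθ : θ ∈ Icc 0 π) :
    ∃ i < m, |θ - (i : ℝ) * w0 m| ≤ w0 m ∧ |θ - ((i + 1 : ℕ) : ℝ) * w0 m| ≤ w0 m := by
  have hw := w0_pos hm
  have hm0 : (0 : ℝ) < m := by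
    have : 0 < m := by omega
    exact_mod_cast this
  have hmw : (m : ℝ) * w0 m = π := by
    unfold w0
    field_simp
  have h0 : 0 ≤ θ / w0 m := div_nonneg hθ.1 hw.le
  have h1 := Nat.floor_le h0
  have h2 := Nat.lt_floor_add_one (θ / w0 m)
  rw [le_div_iff₀ hw] at h1
  rw [div_lt_iff₀ hw] at h2
  obtain ⟨f, hf⟩ : ∃ f, f = ⌊θ / w0 m⌋₊ := ⟨_, rfl⟩
  rw [← hf] at h1 h2
  have key : ∃ i < m, (i : ℝ) * w0 m ≤ θ ∧ θ ≤ ((i : ℝ) + 1) * w0 m := by
    by_cases hc : f < m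
    · exact ⟨f, hc, h1, h2.le⟩
    · have h3 : (m : ℝ) ≤ f := by exact_mod_cast not_lt.1 hc
      have h4 := mul_le_mul_of_nonneg_right h3 hw.le
      obtain ⟨k, rfl⟩ : ∃ k, m = k + 1 := ⟨m - 1, by omega⟩
      push_cast at h4 hmw
      refine ⟨k, by omega, ?_, ?_⟩
      · nlinarith
      · rw [hmw]
        exact hθ.2
  obtain ⟨i, hi, h3, h4⟩ := key
  refine ⟨i, hi, ?_, ?_⟩
  · rw [abs_le]
    constructor <;> nlinarith
  · push_cast
    rw [abs_le]
    constructor <;> nlinarith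

theorem chn_sheet : ∃ NQ : ℕ, ∀ {m : ℕ} (hm : 13 ≤ m) (θ : ℝ), θ ∈ Icc 0 π →
    ∀ v v' : (CM m).Group,
      Chn hm (fun z => z ∈ Y0 hm ∧ OnHP θ ((RS0 hm).fold z) ∧ Ra ((RS0 hm).fold z) = rs (w0 m) ∧
          d0 hm ((RS0 hm).rho v • pt θ (rs (w0 m)) 0) z ≤ 2 * NQ)
        2 (NQ + 1) ((RS0 hm).rho v • pt θ (rs (w0 m)) 0)
        ((RS0 hm).rho v' • pt θ (rs (w0 m)) 0) := by
  obtain ⟨NQ, hNQ⟩ := exists_word
  refine ⟨NQ, ?_⟩
  intro m hm θ hθ v v'
  obtain ⟨i, hi, hi1, hi2⟩ := l12_index hm θ hθ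
  obtain ⟨l, hl, hs, hph⟩ := hNQ m i hi (v⁻¹ * v')
  have hw := w0_pos hm
  have hw1 := w0_le hm
  have hrs := rs_pos hw hw1
  obtain ⟨a, ha⟩ : ∃ a, a = pt θ (rs (w0 m)) 0 := ⟨_, rfl⟩
  have haD : a ∈ D0 m := by
    rw [ha]
    exact pt_mem_D0 hm θ _ hθ hrs.le le_rfl
  have haY : a ∈ Y0 hm := Yset_cham (RS0 hm) ex0 (ex0_anti hm) haD
  have hfold : ∀ x : (CM m).Group, (RS0 hm).fold ((RS0 hm).rho x • a) = a := by
    intro x
    rw [RS.fold_smul, RS.fold_of_mem _ _ haD.1]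
  obtain ⟨u, hu⟩ : ∃ u : ℕ → (CM m).Group,
      ∀ j, u j = v * ((l.take j).map (CM m).simple).prod := ⟨_, fun _ => rfl⟩
  have hu0 : u 0 = v := by
    rw [hu, List.take_zero, List.map_nil, List.prod_nil, mul_one]
  have hstep : ∀ j, dist ((RS0 hm).rho (u j) • a) ((RS0 hm).rho (u (j + 1)) • a) ≤ 2 := by
    intro j
    rw [hu, hu, List.take_add_one, List.map_append, List.prod_append, ← mul_assoc]
    cases hc : l[j]? with
    | none =>
      simp only [Option.toList_none, List.map_nil, List.prod_nil, mul_one, dist_self]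
      norm_num
    | some s =>
      simp only [Option.toList_some, List.map_cons, List.map_nil, List.prod_cons, List.prod_nil,
        mul_one]
      rw [map_mul _ _ ((CM m).simple s), mul_smul, dist_smul_smul, ha]
      apply dist_a_le hw hw1
      rcases hs s (List.mem_of_getElem? hc) with h1 | h1 | h1 | h1
      · exact Or.inl h1
      · exact Or.inr (Or.inl h1)
      · exact Or.inr (Or.inr ⟨_, h1, hi1⟩)
      · exact Or.inr (Or.inr ⟨_, h1, hi2⟩)
  have hd : ∀ j, d0 hm ((RS0 hm).rho v • a) ((RS0 hm).rho (u j) • a) ≤ 2 * j := by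
    intro j
    induction j with
    | zero =>
      rw [hu0]
      have h1 := qd_le_dist (RS0 hm) (K m) ((RS0 hm).rho v • a) ((RS0 hm).rho v • a)
      rw [dist_self] at h1
      have h2 : d0 hm ((RS0 hm).rho v • a) ((RS0 hm).rho v • a) ≤ 0 := h1
      simpa using h2
    | succ j ih =>
      have h1 := qd_triangle (RS0 hm) (K m) ((RS0 hm).rho v • a) ((RS0 hm).rho (u j) • a)
        ((RS0 hm).rho (u (j + 1)) • a)
      have h2 := (qd_le_dist (RS0 hm) (K m) ((RS0 hm).rho (u j) • a)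
        ((RS0 hm).rho (u (j + 1)) • a)).trans (hstep j)
      have h3 : qd (RS0 hm) (K m) ((RS0 hm).rho v • a) ((RS0 hm).rho (u j) • a) ≤ 2 * j := ih
      show qd (RS0 hm) (K m) ((RS0 hm).rho v • a) ((RS0 hm).rho (u (j + 1)) • a) ≤
        2 * ((j + 1 : ℕ) : ℝ)
      push_cast
      linarith
  have hlast : d0 hm ((RS0 hm).rho (u NQ) • a) ((RS0 hm).rho v' • a) = 0 := by
    show qd (RS0 hm) (K m) _ _ = 0
    rw [qd_eq_zero]
    refine ⟨u NQ * v'⁻¹, ?_, ?_⟩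
    · show u NQ * v'⁻¹ ∈ (phi m).ker
      rw [MonoidHom.mem_ker, map_mul, hu, List.take_of_length_le hl, map_mul, ← hph, map_mul,
        map_inv, mul_inv_cancel_left, map_inv, mul_inv_cancel]
    · rw [← mul_smul, ← map_mul, inv_mul_cancel_right]
  rw [← ha]
  refine ⟨fun j => if j ≤ NQ then (RS0 hm).rho (u j) • a else (RS0 hm).rho v' • a, ?_, ?_, ?_, ?_⟩
  · show (if 0 ≤ NQ then (RS0 hm).rho (u 0) • a else (RS0 hm).rho v' • a) = _
    rw [if_pos (Nat.zero_le _), hu0]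
  · show (if NQ + 1 ≤ NQ then (RS0 hm).rho (u (NQ + 1)) • a else (RS0 hm).rho v' • a) = _
    rw [if_neg (by omega)]
  · intro j hj
    have hP : ∀ x : (CM m).Group, d0 hm ((RS0 hm).rho v • a) ((RS0 hm).rho x • a) ≤ 2 * NQ →
        ((RS0 hm).rho x • a ∈ Y0 hm ∧ OnHP θ ((RS0 hm).fold ((RS0 hm).rho x • a)) ∧
          Ra ((RS0 hm).fold ((RS0 hm).rho x • a)) = rs (w0 m) ∧
          d0 hm ((RS0 hm).rho v • a) ((RS0 hm).rho x • a) ≤ 2 * NQ) := by
      intro x hx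
      refine ⟨Yset_smul (RS0 hm) ex0 x haY, ?_, ?_, hx⟩
      · rw [hfold, ha]
        exact OnHP_pt θ _ 0 hrs.le
      · rw [hfold, ha]
        exact Ra_pt θ _ 0 hrs.le
    by_cases hc : j ≤ NQ
    · simp only [if_pos hc]
      apply hP
      refine (hd j).trans ?_
      have : (j : ℝ) ≤ NQ := by exact_mod_cast hc
      linarith
    · simp only [if_neg hc]
      apply hP
      have h1 := qd_triangle (RS0 hm) (K m) ((RS0 hm).rho v • a) ((RS0 hm).rho (u NQ) • a)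
        ((RS0 hm).rho v' • a)
      have h2 : qd (RS0 hm) (K m) ((RS0 hm).rho (u NQ) • a) ((RS0 hm).rho v' • a) = 0 := hlast
      have h3 : qd (RS0 hm) (K m) ((RS0 hm).rho v • a) ((RS0 hm).rho (u NQ) • a) ≤ 2 * NQ :=
        hd NQ
      show qd (RS0 hm) (K m) _ _ ≤ _
      linarith
  · intro j hj
    have hc : j ≤ NQ := by omega
    simp only [if_pos hc]
    by_cases hc' : j + 1 ≤ NQ
    · simp only [if_pos hc']
      exact (qd_le_dist (RS0 hm) (K m) _ _).trans (hstep j)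
    · simp only [if_neg hc']
      have hj' : j = NQ := by omega
      rw [hj', hlast]
      norm_num

end CEE
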