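import Pool.Agent.CEE.L3
import Pool.Agent.CEE.D1

set_option autoImplicit false

/-!
# [CEE-L12a] Chains: basics
-/

namespace CEE

open Pool.Agent.MP_8db1a4_gt Set Real

/-- chains with `N` steps of length at most `A` through points with the property `P` -/
def Chn {m : ℕ} (hm : 13 ≤ m) (P : H3 → Prop) (A : ℝ) (N : ℕ) (x y : H3) : Prop :=
  ∃ z : ℕ → H3, z 0 = x ∧ z N = y ∧ (∀ i ≤ N, P (z i)) ∧ ∀ i < N, d0 hm (z i) (z (i + 1)) ≤ A

/- PROOF NOTES [CEE-L12a].
`Chn_trans`: `z i = if i ≤ N then z₁ i else z₂ (i - N)`.  `Chn_symm`: `z (N - i)`, `qd_symm`.  `Chn_mono`: trivial. -/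

theorem Chn_trans {m : ℕ} (hm : 13 ≤ m) {P : H3 → Prop} {A : ℝ} {N N' : ℕ} {x y z : H3}
    (h : Chn hm P A N x y) (h' : Chn hm P A N' y z) : Chn hm P A (N + N') x z := by
  obtain ⟨z₁, h0, hN, hP, hA⟩ := h
  obtain ⟨z₂, h0', hN', hP', hA'⟩ := h'
  refine ⟨fun i => if i ≤ N then z₁ i else z₂ (i - N), ?_, ?_, ?_, ?_⟩
  · simp only [Nat.zero_le, if_true]
    exact h0
  · by_cases hc : N' = 0
    · subst hc
      simp only [Nat.add_zero, le_refl, if_true]
      rw [hN, ← h0', hN']
    · have h1 : ¬ (N + N' ≤ N) := by omega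
      simp only [h1, if_false]
      rw [show N + N' - N = N' by omega]
      exact hN'
  · intro i hi
    by_cases hc : i ≤ N
    · simp only [hc, if_true]
      exact hP i hc
    · simp only [hc, if_false]
      exact hP' (i - N) (by omega)
  · intro i hi
    rcases lt_trichotomy i N with hc | hc | hc
    · have h1 : i ≤ N := by omega
      have h2 : i + 1 ≤ N := by omega
      simp only [h1, h2, if_true]
      exact hA i hc
    · subst hc
      have h2 : ¬ (i + 1 ≤ i) := by omega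
      simp only [le_refl, if_true, h2, if_false]
      rw [show i + 1 - i = 0 + 1 by omega, hN, ← h0']
      exact hA' 0 (by omega)
    · have h1 : ¬ (i ≤ N) := by omega
      have h2 : ¬ (i + 1 ≤ N) := by omega
      simp only [h1, h2, if_false]
      rw [show i + 1 - N = (i - N) + 1 by omega]
      exact hA' (i - N) (by omega)

theorem Chn_symm {m : ℕ} (hm : 13 ≤ m) {P : H3 → Prop} {A : ℝ} {N : ℕ} {x y : H3}
    (h : Chn hm P A N x y) : Chn hm P A N y x := by
  obtain ⟨z, h0, hN, hP, hA⟩ := h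
  refine ⟨fun i => z (N - i), ?_, ?_, ?_, ?_⟩
  · simp only [Nat.sub_zero]
    exact hN
  · simp only [Nat.sub_self]
    exact h0
  · intro i _
    exact hP (N - i) (by omega)
  · intro i hi
    have h1 := hA (N - (i + 1)) (by omega)
    rw [show N - (i + 1) + 1 = N - i by omega] at h1
    have h2 : d0 hm (z (N - i)) (z (N - (i + 1))) = d0 hm (z (N - (i + 1))) (z (N - i)) :=
      qd_symm _ _ _ _
    change d0 hm (z (N - i)) (z (N - (i + 1))) ≤ A
    rw [h2]
    exact h1

theorem Chn_mono {m : ℕ} (hm : 13 ≤ m) {P P' : H3 → Prop} {A A' : ℝ} {N : ℕ} {x y : H3}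
    (h : Chn hm P A N x y) (hP : ∀ z, P z → P' z) (hA : A ≤ A') : Chn hm P' A' N x y := by
  obtain ⟨z, h0, hN, hPz, hAz⟩ := h
  exact ⟨z, h0, hN, fun i hi => hP _ (hPz i hi), fun i hi => le_trans (hAz i hi) hA⟩

end CEE
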