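import Pool.Agent.CEE.L12a

set_option autoImplicit false

/-!
# [CEE-L12b] Chains: the radial part
-/

namespace CEE

open Pool.Agent.MP_8db1a4_gt Set Real

/- PROOF NOTES [CEE-L12b].
`chn_radial`: `x = ρ(v) (pt θ ρ h)`, `z 0 = x`, `z (j+1) = ρ(v) (pt θ (s j) 0)` with `s j = min (ρ + j) rs`, `rs = rs (w0 m)`; `s ⌈rs⌉₊ = rs`.  All points `pt θ s 0` with `0 ≤ s ≤ rs` are in `D0 ⊆ Y0` (`pt_mem_D0`, `Yset_cham`, `ex0_anti`), `fold (ρ(v) (pt θ s 0)) = pt θ s 0` (`fold_smul`, `fold_of_mem`), `OnHP_pt`, `Ra_pt`.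
 `ρ = Ra (pt θ ρ h) ≤ 3 - log (w0 m) ≤ 3 + rs` (`Ra_D0_le`, `rs_ge`).  First step: `dist (pt θ ρ h) (pt θ ρ 0) ≤ 2` (`dist_h_D0`), `dist (pt θ ρ 0) (pt θ (min ρ rs) 0) = ρ - min ρ rs ≤ 3` (`dist_pt_rho`); the other steps are `≤ 1`.
 `d0 x (ρ(v) (pt θ s 0)) ≤ 2 + |ρ - s|` and `|ρ - s| ≤ s + 3` for `s = s j ≥ min ρ rs` (if `ρ ≤ s`: `s - ρ ≤ s`; otherwise `s = rs`, `ρ - rs ≤ 3`).  (`d0 ≤ dist`: `qd_le_dist`.) -/

/-- the points of the chain -/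
noncomputable def l12b_z {m : ℕ} (hm : 13 ≤ m) (θ ρ h : ℝ) (v : (CM m).Group) : ℕ → H3
  | 0 => (RS0 hm).rho v • pt θ ρ h
  | (j + 1) => (RS0 hm).rho v • pt θ (min (ρ + j) (rs (w0 m))) 0

theorem chn_radial {m : ℕ} (hm : 13 ≤ m) (θ ρ h : ℝ) (hθ : θ ∈ Icc 0 π) (hρ : 0 ≤ ρ)
    (hy : pt θ ρ h ∈ D0 m) (v : (CM m).Group) :
    Chn hm (fun z => z ∈ Y0 hm ∧ OnHP θ ((RS0 hm).fold z) ∧
        d0 hm ((RS0 hm).rho v • pt θ ρ h) z ≤ Ra ((RS0 hm).fold z) + 5)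
      6 (⌈rs (w0 m)⌉₊ + 1) ((RS0 hm).rho v • pt θ ρ h)
      ((RS0 hm).rho v • pt θ (rs (w0 m)) 0) := by
  have hw := w0_pos hm
  have hl := w0_le hm
  have hR : 0 < rs (w0 m) := rs_pos hw hl
  have hρ3 : ρ ≤ 3 + rs (w0 m) := by
    have h1 := Ra_D0_le hm _ hy
    rw [Ra_pt θ ρ h hρ] at h1
    have h2 := rs_ge hw hl
    linarith
  have hxY : (RS0 hm).rho v • pt θ ρ h ∈ Y0 hm :=
    Yset_smul (RS0 hm) ex0 v (Yset_cham (RS0 hm) ex0 (ex0_anti hm) hy)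
  have hxf : (RS0 hm).fold ((RS0 hm).rho v • pt θ ρ h) = pt θ ρ h := by
    rw [(RS0 hm).fold_smul, (RS0 hm).fold_of_mem _ hy.1]
  have hD : ∀ s, 0 ≤ s → s ≤ rs (w0 m) → pt θ s 0 ∈ D0 m := fun s h0 h1 =>
    pt_mem_D0 hm θ s hθ h0 h1
  have hd : ∀ s, dist ((RS0 hm).rho v • pt θ ρ h) ((RS0 hm).rho v • pt θ s 0) ≤ 2 + |ρ - s| := by
    intro s
    rw [dist_smul_smul]
    have h1 := dist_h_D0 hm θ ρ h hy
    have h2 := dist_pt_rho θ ρ s 0
    have h3 := dist_triangle (pt θ ρ h) (pt θ ρ 0) (pt θ s 0)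
    linarith
  have hs0 : ∀ j : ℕ, 0 ≤ min (ρ + j) (rs (w0 m)) := fun j =>
    le_min (add_nonneg hρ (Nat.cast_nonneg j)) hR.le
  have hs1 : ∀ j : ℕ, min (ρ + j) (rs (w0 m)) ≤ rs (w0 m) := fun j => min_le_right _ _
  have hs2 : ∀ j : ℕ, |ρ - min (ρ + j) (rs (w0 m))| ≤ min (ρ + j) (rs (w0 m)) + 3 := by
    intro j
    have hj : (0 : ℝ) ≤ j := Nat.cast_nonneg j
    rcases le_total (ρ + j) (rs (w0 m)) with h1 | h1
    · rw [min_eq_left h1, abs_le]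
      constructor <;> linarith
    · rw [min_eq_right h1, abs_le]
      constructor <;> linarith
  refine ⟨l12b_z hm θ ρ h v, rfl, ?_, ?_, ?_⟩
  · show (RS0 hm).rho v • pt θ (min (ρ + (⌈rs (w0 m)⌉₊ : ℕ)) (rs (w0 m))) 0 = _
    rw [min_eq_right]
    have := Nat.le_ceil (rs (w0 m))
    linarith
  · rintro (_ | j) -
    · refine ⟨hxY, ?_, ?_⟩
      · show OnHP θ ((RS0 hm).fold ((RS0 hm).rho v • pt θ ρ h))
        rw [hxf]
        exact OnHP_pt θ ρ h hρ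
      · show d0 hm ((RS0 hm).rho v • pt θ ρ h) ((RS0 hm).rho v • pt θ ρ h) ≤
          Ra ((RS0 hm).fold ((RS0 hm).rho v • pt θ ρ h)) + 5
        have h1 : d0 hm ((RS0 hm).rho v • pt θ ρ h) ((RS0 hm).rho v • pt θ ρ h) ≤
            dist ((RS0 hm).rho v • pt θ ρ h) ((RS0 hm).rho v • pt θ ρ h) := qd_le_dist _ _ _ _
        rw [dist_self] at h1
        have h2 := Ra_nonneg ((RS0 hm).fold ((RS0 hm).rho v • pt θ ρ h))
        linarith
    · have hDj := hD _ (hs0 j) (hs1 j)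
      have hfj : (RS0 hm).fold ((RS0 hm).rho v • pt θ (min (ρ + j) (rs (w0 m))) 0) =
          pt θ (min (ρ + j) (rs (w0 m))) 0 := by
        rw [(RS0 hm).fold_smul, (RS0 hm).fold_of_mem _ hDj.1]
      refine ⟨Yset_smul (RS0 hm) ex0 v (Yset_cham (RS0 hm) ex0 (ex0_anti hm) hDj), ?_, ?_⟩
      · show OnHP θ ((RS0 hm).fold ((RS0 hm).rho v • pt θ (min (ρ + j) (rs (w0 m))) 0))
        rw [hfj]
        exact OnHP_pt _ _ _ (hs0 j)
      · show d0 hm ((RS0 hm).rho v • pt θ ρ h)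
            ((RS0 hm).rho v • pt θ (min (ρ + j) (rs (w0 m))) 0) ≤
          Ra ((RS0 hm).fold ((RS0 hm).rho v • pt θ (min (ρ + j) (rs (w0 m))) 0)) + 5
        rw [hfj, Ra_pt _ _ _ (hs0 j)]
        refine (qd_le_dist _ _ _ _).trans ((hd _).trans ?_)
        have := hs2 j
        linarith
  · rintro (_ | j) -
    · show d0 hm ((RS0 hm).rho v • pt θ ρ h)
            ((RS0 hm).rho v • pt θ (min (ρ + (0 : ℕ)) (rs (w0 m))) 0) ≤ 6
      refine (qd_le_dist _ _ _ _).trans ((hd _).trans ?_)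
      rw [Nat.cast_zero, add_zero]
      rcases le_total ρ (rs (w0 m)) with h1 | h1
      · rw [min_eq_left h1, sub_self, abs_zero]
        norm_num
      · rw [min_eq_right h1, abs_of_nonneg (by linarith)]
        linarith
    · show d0 hm ((RS0 hm).rho v • pt θ (min (ρ + j) (rs (w0 m))) 0)
            ((RS0 hm).rho v • pt θ (min (ρ + (j + 1 : ℕ)) (rs (w0 m))) 0) ≤ 6
      refine (qd_le_dist _ _ _ _).trans ?_
      rw [dist_smul_smul, dist_pt_rho]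
      push_cast
      rcases le_total (ρ + (j + 1)) (rs (w0 m)) with h1 | h1
      · rw [min_eq_left h1, min_eq_left (by linarith), abs_le]
        constructor <;> linarith
      · rw [min_eq_right h1]
        rcases le_total (ρ + j) (rs (w0 m)) with h2 | h2
        · rw [min_eq_left h2, abs_le]
          constructor <;> linarith
        · rw [min_eq_right h2, sub_self, abs_zero]
          norm_num

end CEE
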