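import Pool.Agent.CEE.L12
import Pool.Agent.CEE.L12b

set_option autoImplicit false

/-!
# [CEE-L13] The chain on a half plane
-/

namespace CEE

open Pool.Agent.MP_8db1a4_gt Set Real

/- PROOF NOTES [CEE-L13].  `x = ρ(v) y`, `x' = ρ(v') y'` (`fold_spec`), `y = fold x = pt θ (Ra y) h ∈ D0`, the same for `x'` (`exists_pt_of`, `Yset_fold`, `ex0_anti`).  Concatenate (`Chn_trans`): `chn_radial` for `x`, `chn_sheet` from `ρ(v) a` to `ρ(v') a`, reversed (`Chn_symm`) `chn_radial` for `x'`; `N = 2 (⌈rs⌉₊ + 1) + NQ + 1 ≤ 2 (2 - log (w0 m) + 2) + NQ + 1` (`rs_le`).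
On the middle part: `d0 x z ≤ d0 x (ρ(v) a) + d0 (ρ(v) a) z ≤ rs + 5 + 2 NQ = Ra (fold z) + 5 + 2 NQ` (`qd_triangle`; the last point of the radial chain is `ρ(v) a`, `Ra (fold (ρ(v) a)) = rs`).  `C = 2 NQ + 20`. -/

theorem l13_half {m : ℕ} (hm : 13 ≤ m) (θ : ℝ) (hθ : θ ∈ Icc 0 π) (x : H3) (hx : x ∈ Y0 hm)
    (ho : OnHP θ ((RS0 hm).fold x)) : ∃ v : (CM m).Group,
      Chn hm (fun z => z ∈ Y0 hm ∧ OnHP θ ((RS0 hm).fold z) ∧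
        d0 hm x z ≤ Ra ((RS0 hm).fold z) + 5)
      6 (⌈rs (w0 m)⌉₊ + 1) x ((RS0 hm).rho v • pt θ (rs (w0 m)) 0) := by
  obtain ⟨v, hv⟩ := (RS0 hm).fold_spec x
  obtain ⟨h, hh⟩ := exists_pt_of θ _ ho
  have hD : (RS0 hm).fold x ∈ D0 m := (Yset_fold (RS0 hm) ex0 (ex0_anti hm) x).1 hx
  have hxe : x = (RS0 hm).rho v • pt θ (Ra ((RS0 hm).fold x)) h := by
    rw [← hh]
    exact hv
  have h1 := chn_radial hm θ (Ra ((RS0 hm).fold x)) h hθ (Ra_nonneg _) (by rw [← hh]; exact hD) v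
  rw [← hxe] at h1
  exact ⟨v, h1⟩

theorem chain0 : ∃ C : ℕ, ∀ {m : ℕ} (hm : 13 ≤ m) (θ : ℝ), θ ∈ Icc 0 π →
    ∀ x ∈ Y0 hm, ∀ x' ∈ Y0 hm, OnHP θ ((RS0 hm).fold x) → OnHP θ ((RS0 hm).fold x') →
      ∃ N : ℕ, (N : ℝ) ≤ 2 * (-log (w0 m)) + C ∧
        Chn hm (fun z => z ∈ Y0 hm ∧ OnHP θ ((RS0 hm).fold z) ∧
            (d0 hm x z ≤ Ra ((RS0 hm).fold z) + C ∨ d0 hm x' z ≤ Ra ((RS0 hm).fold z) + C))
          6 N x x' := by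
  obtain ⟨NQ, hNQ⟩ := chn_sheet
  refine ⟨2 * NQ + 20, fun {m} hm θ hθ x hx x' hx' ho ho' => ?_⟩
  obtain ⟨v, hv⟩ := l13_half hm θ hθ x hx ho
  obtain ⟨v', hv'⟩ := l13_half hm θ hθ x' hx' ho'
  have hs := hNQ hm θ hθ v v'
  have hNQ0 : (0 : ℝ) ≤ NQ := Nat.cast_nonneg NQ
  refine ⟨(⌈rs (w0 m)⌉₊ + 1) + (NQ + 1) + (⌈rs (w0 m)⌉₊ + 1), ?_, ?_⟩
  · have h1 := rs_le (w0_pos hm) (w0_le hm)
    have h2 := rs_pos (w0_pos hm) (w0_le hm)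
    have h3 := Nat.ceil_lt_add_one h2.le
    push_cast
    linarith
  · have hend : d0 hm x ((RS0 hm).rho v • pt θ (rs (w0 m)) 0) ≤ rs (w0 m) + 5 := by
      obtain ⟨z, -, h2, h3, -⟩ := hv
      obtain ⟨z', h1', -, h3', -⟩ := hs
      have h4 := (h3 _ le_rfl).2.2
      have h5 := (h3' 0 (Nat.zero_le _)).2.2.1
      rw [h2] at h4
      rw [h1'] at h5
      rw [h5] at h4
      exact h4
    have c1 := Chn_mono hm (P' := fun z => z ∈ Y0 hm ∧ OnHP θ ((RS0 hm).fold z) ∧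
            (d0 hm x z ≤ Ra ((RS0 hm).fold z) + ((2 * NQ + 20 : ℕ) : ℝ) ∨
              d0 hm x' z ≤ Ra ((RS0 hm).fold z) + ((2 * NQ + 20 : ℕ) : ℝ))) hv
      (fun z hz => ⟨hz.1, hz.2.1, Or.inl (hz.2.2.trans (by push_cast; linarith))⟩) (le_refl 6)
    have c3 := Chn_mono hm (P' := fun z => z ∈ Y0 hm ∧ OnHP θ ((RS0 hm).fold z) ∧
            (d0 hm x z ≤ Ra ((RS0 hm).fold z) + ((2 * NQ + 20 : ℕ) : ℝ) ∨
              d0 hm x' z ≤ Ra ((RS0 hm).fold z) + ((2 * NQ + 20 : ℕ) : ℝ))) (Chn_symm hm hv')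
      (fun z hz => ⟨hz.1, hz.2.1, Or.inr (hz.2.2.trans (by push_cast; linarith))⟩) (le_refl 6)
    have c2 := Chn_mono hm (P' := fun z => z ∈ Y0 hm ∧ OnHP θ ((RS0 hm).fold z) ∧
            (d0 hm x z ≤ Ra ((RS0 hm).fold z) + ((2 * NQ + 20 : ℕ) : ℝ) ∨
              d0 hm x' z ≤ Ra ((RS0 hm).fold z) + ((2 * NQ + 20 : ℕ) : ℝ))) hs
      (fun z hz => ⟨hz.1, hz.2.1, Or.inl (by
        have h1 := qd_triangle (RS0 hm) (K m) x ((RS0 hm).rho v • pt θ (rs (w0 m)) 0) z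
        have h2 : d0 hm x z ≤ d0 hm x ((RS0 hm).rho v • pt θ (rs (w0 m)) 0) +
          d0 hm ((RS0 hm).rho v • pt θ (rs (w0 m)) 0) z := h1
        have h3 := hz.2.2.2
        rw [hz.2.2.1]
        push_cast
        linarith)⟩) (show (2 : ℝ) ≤ 6 by norm_num)
    exact Chn_trans hm (Chn_trans hm c1 c2) c3

end CEE
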