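import Pool.Agent.CEE.L5

set_option autoImplicit false

/-!
# [CEE-L6] Directions of the images of the partners
-/

namespace CEE

open Pool.Agent.MP_8db1a4_gt Set Real

/- PROOF NOTES [CEE-L6].
`Ra_img`: `|Ra (aT m t) - Ra (fold₁ (F (p t)))| ≤ 4` (`Ra_lip`, `pq_fold`), `Ra (aT m t) = rs (w1 m) ≥ - log (w1 m)` (`Ra_pt`, `rs_ge`).
`ee_img`: with `a = aT m t`, `b = fold₁ (F (p t))`: `‖hz a‖ = sinh rs ≥ 1/(2 w1)`, `Ra b ≥ - log w1 - 4`, so `‖hz b‖ = sinh (Ra b) ≥ 1` if `- log w1 ≥ 5`; `star_ee`: `‖ee a - ee b‖² ≤ 2 (cosh 4 - 1) · 2 w1 ≤ 110 w1 ≤ 1/1024` if `w1 ≤ 1/112640`; so `m₀` with `2π/(m₀+3) ≤ 1/200000` works.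
`ee_img_far`: triangle inequality: `1/8 ≤ ‖ee a_t - ee a_s‖ ≤ 1/32 + ‖ee b_t - ee b_s‖ + 1/32`. -/

theorem Ra_img {m : ℕ} (hm : 13 ≤ m) {F : H3 → H3} {p q : ℕ → H3} (h : PQ hm F p q) (t : ℕ)
    (ht : t + 2 ≤ m) : -log (w1 m) - 4 ≤ Ra ((RS1 hm).fold (F (p t))) := by
  have h1 := Ra_lip (aT m t) ((RS1 hm).fold (F (p t)))
  have h2 := pq_fold hm h t ht
  have h3 : Ra (aT m t) = rs (w1 m) := Ra_pt _ _ _ (rs_pos (w1_pos m) (w1_le hm)).le
  have h4 := rs_ge (w1_pos m) (w1_le hm)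
  have h5 := (abs_le.mp (le_trans h1 h2)).2
  rw [h3] at h5
  linarith

theorem ee_img : ∃ m₀ : ℕ, ∀ {m : ℕ} (hm : 13 ≤ m), m₀ ≤ m → ∀ {F : H3 → H3} {p q : ℕ → H3},
    PQ hm F p q → ∀ t, t + 2 ≤ m →
      ‖ee (aT m t) - ee ((RS1 hm).fold (F (p t)))‖ ≤ 1 / 32 := by
  refine ⟨710000, ?_⟩
  intro m hm hm0 F p q h t ht
  have hw := w1_pos m
  have hw2 := w1_le hm
  have hws : w1 m ≤ 1 / 112640 := by
    have h1 : (710000 : ℝ) ≤ m := by exact_mod_cast hm0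
    unfold w1
    rw [div_le_iff₀ (by linarith)]
    linarith [Real.pi_lt_d2]
  set w := w1 m with hwdef
  set a := aT m t with ha
  set b := (RS1 hm).fold (F (p t)) with hb
  have he1 : exp 1 ≤ 2.7182818286 := Real.exp_one_lt_d9.le
  have he0 : 0 < exp 1 := exp_pos 1
  have h5 : -log w ≥ 5 := by
    have h51 : log w ≤ -5 := by
      rw [Real.log_le_iff_le_exp hw]
      have h52 : exp 5 ≤ 150 := by
        have : exp 5 = exp 1 ^ 5 := by
          rw [← Real.exp_nat_mul]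
          norm_num
        rw [this]
        calc exp 1 ^ 5 ≤ (2.7182818286 : ℝ) ^ 5 := pow_le_pow_left₀ he0.le he1 5
          _ ≤ 150 := by norm_num
      rw [Real.exp_neg]
      have h53 : (150 : ℝ)⁻¹ ≤ (exp 5)⁻¹ := inv_anti₀ (exp_pos 5) h52
      refine le_trans hws (le_trans ?_ h53)
      norm_num
    linarith
  have hRb := Ra_img hm h t ht
  have hRb1 : 1 ≤ Ra b := by
    rw [← hb] at hRb
    rw [← hwdef] at hRb
    linarith
  have hbn : 1 ≤ ‖hz b‖ := by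
    rw [← sinh_Ra b]
    exact le_trans hRb1 (Real.self_le_sinh_iff.mpr (by linarith))
  have han : 1 / (2 * w) ≤ ‖hz a‖ := by
    have h6 : ‖hz a‖ = sinh (rs w) := norm_hz_pt _ _ _ (rs_pos hw hw2).le
    rw [h6]
    exact sinh_rs_ge hw hw2
  have h2w : 0 < 1 / (2 * w) := by positivity
  have hs := star_ee a b (by linarith) (by linarith)
  have hd : dist a b ≤ 4 := pq_fold hm h t ht
  have hc : cosh (dist a b) ≤ cosh 4 := by
    rw [Real.cosh_le_cosh, abs_of_nonneg dist_nonneg, abs_of_nonneg (by norm_num)]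
    exact hd
  have hc4 : cosh 4 ≤ 28.5 := by
    rw [Real.cosh_eq]
    have h7 : exp 4 ≤ 55 := by
      have : exp 4 = exp 1 ^ 4 := by
        rw [← Real.exp_nat_mul]
        norm_num
      rw [this]
      calc exp 1 ^ 4 ≤ (2.7182818286 : ℝ) ^ 4 := pow_le_pow_left₀ he0.le he1 4
        _ ≤ 55 := by norm_num
    have h8 : exp (-4) ≤ 1 := Real.exp_le_one_iff.mpr (by norm_num)
    linarith
  set N := ‖ee a - ee b‖ with hN
  have hN0 : 0 ≤ N := norm_nonneg _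
  -- lower bound of the product
  have hprod : 1 / (2 * w) ≤ ‖hz a‖ * ‖hz b‖ := by
    calc 1 / (2 * w) ≤ ‖hz a‖ := han
      _ = ‖hz a‖ * 1 := (mul_one _).symm
      _ ≤ ‖hz a‖ * ‖hz b‖ := mul_le_mul_of_nonneg_left hbn (norm_nonneg _)
  have h9 : 1 / (2 * w) * N ^ 2 / 2 ≤ 27.5 := by
    have h10 : 1 / (2 * w) * N ^ 2 ≤ ‖hz a‖ * ‖hz b‖ * N ^ 2 :=
      mul_le_mul_of_nonneg_right hprod (sq_nonneg N)
    linarith
  have h11 : N ^ 2 ≤ 110 * w := by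
    have h12 : 1 / (2 * w) * N ^ 2 / 2 = N ^ 2 / (4 * w) := by
      field_simp
      ring
    rw [h12, div_le_iff₀ (by positivity)] at h9
    linarith
  have h13 : N ^ 2 ≤ (1 / 32) ^ 2 := by
    linarith
  exact abs_le_of_sq_le_sq' h13 (by norm_num) |>.2

theorem ee_img_far : ∃ m₀ : ℕ, ∀ {m : ℕ} (hm : 13 ≤ m), m₀ ≤ m → ∀ {F : H3 → H3} {p q : ℕ → H3},
    PQ hm F p q → ∀ t s, t + 2 ≤ m → s + 2 ≤ m → ((m - 1 : ℕ) : ℝ) / 20 ≤ cyc (m - 1) t s →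
      1 / 16 ≤ ‖ee ((RS1 hm).fold (F (p t))) - ee ((RS1 hm).fold (F (p s)))‖ := by
  obtain ⟨m₀, h0⟩ := ee_img
  refine ⟨m₀, ?_⟩
  intro m hm hm0 F p q h t s ht hs hc
  have h1 := h0 hm hm0 h t ht
  have h2 := h0 hm hm0 h s hs
  have h3 := ee_ring hm t s ht hs hc
  set a := ee (aT m t)
  set a' := ee (aT m s)
  set b := ee ((RS1 hm).fold (F (p t)))
  set b' := ee ((RS1 hm).fold (F (p s)))
  have h4 : ‖a - a'‖ ≤ ‖a - b‖ + ‖b - b'‖ + ‖a' - b'‖ := by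
    have h5 : a - a' = (a - b) + (b - b') - (a' - b') := by ring
    rw [h5]
    refine le_trans (norm_sub_le _ _) ?_
    have := norm_add_le (a - b) (b - b')
    linarith
  linarith

end CEE
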