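import Pool.Agent.CEE.L5

set_option autoImplicit false

/-!
# [CEE-L8b] Cyclic crossings: pure combinatorics
-/

namespace CEE

open Set Real

/-- the next index -/
def nx (n t : ℕ) : ℕ := if t + 1 = n then 0 else t + 1

/- PROOF NOTES [CEE-L8b].
`crossings`: a crossing exists: otherwise `P` is constant on `{0,…,n-1}` (induction), `card = 0` or `n`.  Fix one, `t₀`.  Suppose all crossings `t` satisfy `20 * cyc n t t₀ < n`.  Put `P' i = P ((t₀ + i) % n)`, `nx n ((t₀ + i) % n) = (t₀ + i + 1) % n`, `cyc n ((t₀ + i) % n) t₀ = min i (n - i)` for `0 ≤ i < n`.  So `P' i ↔ P' (i+1)`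
 whenever `n ≤ 20 i` and `n ≤ 20 (n - i)`: `P'` is constant on the indices `i` with `n ≤ 20 i`, `20 i ≤ 19 n`, of which there are at least `(9/10) n - 1`.  `i ↦ (t₀ + i) % n` is a bijection of `{0,…,n-1}`.  If `P'` is true there then `4 card ≥ 4 ((9/10) n - 1) > 3n`; if false then `4 card ≤ 4 (n/10 + 1) < n` (`n ≥ 40`): contradiction. -/

theorem L8b_mod (n t i : ℕ) (ht : t < n) (hi : i < n) :
    (t + i) % n = if t + i < n then t + i else t + i - n := by
  split_ifs with h
  · exact Nat.mod_eq_of_lt h
  · rw [Nat.mod_eq_sub_mod (by omega), Nat.mod_eq_of_lt (by omega)]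

theorem L8b_cyc (n t i : ℕ) (ht : t < n) (hi : i < n) :
    cyc n ((t + i) % n) t = min i (n - i) := by
  rw [L8b_mod n t i ht hi]
  unfold cyc
  split_ifs with h
  · have : t + i - t + (t - (t + i)) = i := by omega
    rw [this]
  · have : t + i - n - t + (t - (t + i - n)) = n - i := by omega
    rw [this]
    omega

theorem L8b_nx (n t i : ℕ) (ht : t < n) (hi : i < n) :
    nx n ((t + i) % n) = (t + (i + 1)) % n := by
  rw [L8b_mod n t i ht hi]
  unfold nx
  by_cases h : t + i < n
  · rw [if_pos h]
    by_cases h2 : t + i + 1 = n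
    · rw [if_pos h2]
      rw [show t + (i + 1) = n by omega, Nat.mod_self]
    · rw [if_neg h2, Nat.mod_eq_of_lt (by omega)]
      omega
  · rw [if_neg h, if_neg (by omega)]
    rw [Nat.mod_eq_sub_mod (by omega), Nat.mod_eq_of_lt (by omega)]
    omega

/-- a long constant stretch -/
theorem L8b_long (n a t : ℕ) (ht : t < n) (P : ℕ → Prop) [DecidablePred P] (ha : 1 ≤ a)
    (h : ∀ i, a ≤ i → i + a ≤ n → P ((t + i) % n)) :
    n + 1 ≤ ((Finset.range n).filter P).card + 2 * a := by
  have h1 : (Finset.Icc a (n - a)).card ≤ ((Finset.range n).filter P).card := by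
    apply Finset.card_le_card_of_injOn (fun i => (t + i) % n)
    · intro i hi
      simp only [Finset.coe_Icc, Set.mem_Icc] at hi
      simp only [Finset.coe_filter, Set.mem_setOf_eq, Finset.mem_range]
      exact ⟨Nat.mod_lt _ (by omega), h i hi.1 (by omega)⟩
    · intro i hi j hj hij
      simp only [Finset.coe_Icc, Set.mem_Icc] at hi hj
      have h2 : t + i ≡ t + j [MOD n] := hij
      have h3 := Nat.ModEq.add_left_cancel' t h2
      have h4 : i % n = j % n := h3
      rwa [Nat.mod_eq_of_lt (by omega), Nat.mod_eq_of_lt (by omega)] at h4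
  rw [Nat.card_Icc] at h1
  omega

theorem crossings (n : ℕ) (hn : 40 ≤ n) (P : ℕ → Prop) [DecidablePred P]
    (h1 : n ≤ 4 * ((Finset.range n).filter P).card)
    (h2 : 4 * ((Finset.range n).filter P).card ≤ 3 * n) :
    ∃ t < n, ∃ s < n, ((P t ∧ ¬ P (nx n t)) ∨ (¬ P t ∧ P (nx n t))) ∧
      ((P s ∧ ¬ P (nx n s)) ∨ (¬ P s ∧ P (nx n s))) ∧ (n : ℝ) / 20 ≤ cyc n t s := by
  have hex : ∃ t < n, ((P t ∧ ¬ P (nx n t)) ∨ (¬ P t ∧ P (nx n t))) := by
    by_contra hcon
    push Not at hcon
    have hc : ∀ t < n, (P t ↔ P (nx n t)) := by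
      intro t ht
      have := hcon t ht
      tauto
    have hall : ∀ t, t < n → (P t ↔ P 0) := by
      intro t
      induction t with
      | zero => intro _; rfl
      | succ t ih =>
        intro ht
        have e : nx n t = t + 1 := by unfold nx; rw [if_neg (by omega)]
        have := hc t (by omega)
        rw [e] at this
        rw [← this]
        exact ih (by omega)
    by_cases hP : P 0
    · have e : (Finset.range n).filter P = Finset.range n := by
        apply Finset.filter_true_of_mem
        intro t ht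
        exact (hall t (Finset.mem_range.mp ht)).2 hP
      rw [e, Finset.card_range] at h2
      omega
    · have e : (Finset.range n).filter P = ∅ := by
        apply Finset.filter_false_of_mem
        intro t ht h
        exact hP ((hall t (Finset.mem_range.mp ht)).1 h)
      rw [e, Finset.card_empty] at h1
      omega
  obtain ⟨t, ht, hct⟩ := hex
  by_contra hcon
  have hno : ∀ s < n, n ≤ 20 * cyc n s t → (P s ↔ P (nx n s)) := by
    intro s hs hcyc
    by_contra hne
    apply hcon
    refine ⟨s, hs, t, ht, ?_, hct, ?_⟩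
    · by_cases hPs : P s
      · left
        refine ⟨hPs, fun h => hne ⟨fun _ => h, fun _ => hPs⟩⟩
      · right
        refine ⟨hPs, ?_⟩
        by_contra h
        exact hne ⟨fun h' => absurd h' hPs, fun h' => absurd h' h⟩
    · have : (n : ℝ) ≤ 20 * (cyc n s t : ℝ) := by exact_mod_cast hcyc
      linarith
  obtain ⟨a, ha⟩ : ∃ a, a = (n + 19) / 20 := ⟨_, rfl⟩
  have ha1 : n ≤ 20 * a := by omega
  have ha2 : 20 * a ≤ n + 19 := by omega
  have ha0 : 1 ≤ a := by omega
  have hconst : ∀ d, 2 * a + d ≤ n → (P ((t + (a + d)) % n) ↔ P ((t + a) % n)) := by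
    intro d
    induction d with
    | zero => intro _; rfl
    | succ d ih =>
      intro hd
      have h3 := hno ((t + (a + d)) % n) (Nat.mod_lt _ (by omega))
        (by rw [L8b_cyc n t (a + d) ht (by omega)]; omega)
      rw [L8b_nx n t (a + d) ht (by omega)] at h3
      rw [show a + (d + 1) = a + d + 1 by omega, ← h3]
      exact ih (by omega)
  have hconst' : ∀ i, a ≤ i → i + a ≤ n → (P ((t + i) % n) ↔ P ((t + a) % n)) := by
    intro i hi hi'
    have := hconst (i - a) (by omega)
    rwa [show a + (i - a) = i by omega] at this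
  by_cases hPa : P ((t + a) % n)
  · have := L8b_long n a t ht P ha0 (fun i hi hi' => (hconst' i hi hi').2 hPa)
    omega
  · have := L8b_long n a t ht (fun x => ¬ P x) ha0 (fun i hi hi' h => hPa ((hconst' i hi hi').1 h))
    have h5 := Finset.card_filter_add_card_filter_not (s := Finset.range n) P
    rw [Finset.card_range] at h5
    omega

end CEE
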