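import Pool.Agent.CEE.L1
import Pool.Agent.CEE.L13
import Pool.Agent.CEE.L10
import Pool.Agent.CEE.L6
import Pool.Agent.CEE.L8b

set_option autoImplicit false

/-!
# [CEE-L14] On every good half plane there is a point whose image is close to the axis
-/

namespace CEE

open Pool.Agent.MP_8db1a4_gt Set Real

/- PROOF NOTES [CEE-L14].  `n = m - 1 ≥ 40`.  `crossings` for `P t = (An (fold (p t)) ≤ θ)`: `t, s < n` with `n/20 ≤ cyc n t s`, and `t⁺ = nx n t`, `s⁺ = nx n s` (`< n`).  `dist (aT t) (aT t⁺) ≤ 4` (`dist_succ`, `dist_wrap`: `t + 1 = n` means `t = m - 2`, `t⁺ = 0`), so `d0 (p t) (p t⁺) ≤ 12 L` (`pq_upper`).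
`exists_cross` (`¬ (An ≤ θ)` is `θ < An`): `x ∈ Y0` with `dist (p t) x ≤ 12 L`, `OnHP θ (fold x)`; the same `x'` for `s`.  `chain0`: `z 0 = x, …, z N = x'`, `N ≤ 2 (- log (w0 m)) + C ≤ 2 log m + C` (`w0 m = π/m`).
Extended chain of images: `ζ 0 = fold₁ (F (p t))`, `ζ (i+1) = fold₁ (F (z i))` (`i ≤ N`), `ζ (N+2) = fold₁ (F (p s))`.  Steps: `dist ≤ d1 (F ..) (F ..) ≤ L d0 .. ≤ L * max (12 L) 6 ≤ 12 L²` (`fold_le_qd`, `hF.upper`, `qd_le_dist`, `L ≥ 1`; all points are in `Y0`).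
`ee_img_far`: `‖ee (ζ 0) - ee (ζ (N+2))‖ ≥ 1/16`; `chain_axis` with `c = 1/16`: some `i ≤ N + 2` with `‖hz (ζ i)‖ ≤ 1 + 32 (N+2) sinh (6 L²)`; `Ra (ζ i) = arsinh .. ≤ log (2 ‖hz (ζ i)‖ + 1) ≤ log (1 + log m) + C'`.
If `i = 0` use `z 0 = x`: `Ra (fold₁ (F x)) ≤ Ra (ζ 0) + 12 L²` (`Ra_lip`); if `i = N + 2` use `z N = x'`.  For the point `z = z j` found: `d0 x z ≤ Ra (fold z) + C` or `d0 x' z ≤ ..` gives `d0 (p t) z ≤ 12 L + Ra (fold z) + C` or the same for `s` (`qd_triangle`, `qd_le_dist`). -/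

theorem l14_arsinh (x : ℝ) (hx : 0 ≤ x) : arsinh x ≤ log (2 * x + 1) := by
  unfold arsinh
  have h1 : sqrt (1 + x ^ 2) ≤ 1 + x := by
    rw [Real.sqrt_le_iff]
    exact ⟨by linarith, by nlinarith⟩
  have h2 : 0 ≤ sqrt (1 + x ^ 2) := sqrt_nonneg _
  have h3 : 0 < sqrt (1 + x ^ 2) := by
    apply Real.sqrt_pos.2
    positivity
  exact Real.log_le_log (by linarith) (by linarith)

theorem l14_logw {m : ℕ} (hm : 13 ≤ m) : -log (w0 m) ≤ log m := by
  have h0 : (0 : ℝ) < m := by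
    have : 0 < m := by omega
    exact_mod_cast this
  unfold w0
  rw [Real.log_div Real.pi_pos.ne' h0.ne']
  have h1 : 0 ≤ log π := Real.log_nonneg (by linarith [Real.pi_gt_three])
  linarith

theorem l14_logm {m : ℕ} (hm : 13 ≤ m) : 0 ≤ log (m : ℝ) := by
  apply Real.log_nonneg
  have : 1 ≤ m := by omega
  exact_mod_cast this

theorem l14_bound {m : ℕ} (hm : 13 ≤ m) (a : ℝ) (ha : 0 ≤ a) (C N : ℕ) (x : ℝ) (hx0 : 0 ≤ x)
    (hN : (N : ℝ) ≤ 2 * (-log (w0 m)) + C)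
    (hx : x ≤ 1 + 2 * ((N + 2 : ℕ) : ℝ) * a / (1 / 16)) :
    arsinh x ≤ log (1 + log m) + log (3 + 64 * a * (C + 4)) := by
  have lm := l14_logm hm
  have lw := l14_logw hm
  have hC : (0 : ℝ) ≤ C := Nat.cast_nonneg C
  have hK : 0 < 3 + 64 * a * ((C : ℝ) + 4) := by positivity
  rw [← Real.log_mul (by linarith) hK.ne']
  refine (l14_arsinh x hx0).trans (Real.log_le_log (by linarith) ?_)
  have h1 : 64 * a * ((N : ℝ) + 2) ≤ 64 * a * (2 * log m + C + 2) :=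
    mul_le_mul_of_nonneg_left (by linarith) (by positivity)
  have h2 : x ≤ 1 + 32 * a * ((N : ℝ) + 2) := by
    refine hx.trans (le_of_eq ?_)
    push_cast
    ring
  have p1 : 0 ≤ a * log (m : ℝ) := mul_nonneg ha lm
  have p2 : 0 ≤ a * C * log (m : ℝ) := mul_nonneg (mul_nonneg ha hC) lm
  nlinarith [p1, p2, h1, h2, lm, ha]

theorem l14_nx {m : ℕ} (hm : 13 ≤ m) (t : ℕ) (ht : t < m - 1) :
    nx (m - 1) t + 2 ≤ m ∧ dist (aT m t) (aT m (nx (m - 1) t)) ≤ 4 := by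
  unfold nx
  split_ifs with h
  · refine ⟨by omega, ?_⟩
    have : t = m - 2 := by omega
    rw [this]
    exact dist_wrap hm
  · exact ⟨by omega, dist_succ hm t⟩

/-- the crossing of a half plane -/
theorem l14_cross {m : ℕ} (hm : 13 ≤ m) {L : ℝ} {F : H3 → H3} (hF : LipF hm L F) {p q : ℕ → H3}
    (h : PQ hm F p q) (θ : ℝ) (hθ : θ ∈ Icc 0 π) (t : ℕ) (ht : t < m - 1)
    (hc : (An ((RS0 hm).fold (p t)) ≤ θ ∧ ¬ An ((RS0 hm).fold (p (nx (m - 1) t))) ≤ θ) ∨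
      (¬ An ((RS0 hm).fold (p t)) ≤ θ ∧ An ((RS0 hm).fold (p (nx (m - 1) t))) ≤ θ)) :
    ∃ z ∈ Y0 hm, dist (p t) z ≤ 12 * L ∧ OnHP θ ((RS0 hm).fold z) := by
  obtain ⟨h1, h2⟩ := l14_nx hm t ht
  have ht' : t + 2 ≤ m := by omega
  have h3 := pq_upper hm hF h t (nx (m - 1) t) ht' h1
  have hL := hF.one_le
  have h4 : L * (dist (aT m t) (aT m (nx (m - 1) t)) + 8) ≤ L * 12 :=
    mul_le_mul_of_nonneg_left (by linarith) (by linarith)
  obtain ⟨z, hz, h5, h6⟩ := exists_cross hm (p t) (p (nx (m - 1) t)) (h.mem t ht') (h.mem _ h1) θ hθ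
    (by
      rcases hc with ⟨c1, c2⟩ | ⟨c1, c2⟩
      · exact Or.inl ⟨c1, not_le.1 c2⟩
      · exact Or.inr ⟨not_le.1 c1, c2⟩)
  exact ⟨z, hz, by linarith, h6⟩

theorem angle_point (L : ℝ) : ∃ C : ℝ, 0 < C ∧ ∃ m₀ : ℕ, ∀ {m : ℕ} (hm : 13 ≤ m), m₀ ≤ m →
    ∀ {F : H3 → H3}, LipF hm L F → ∀ {p q : ℕ → H3}, PQ hm F p q → ∀ θ ∈ Icc 0 π,
      m - 1 ≤ 4 * ((Finset.range (m - 1)).filter (fun t => An ((RS0 hm).fold (p t)) ≤ θ)).card →
      4 * ((Finset.range (m - 1)).filter (fun t => An ((RS0 hm).fold (p t)) ≤ θ)).card ≤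
        3 * (m - 1) →
      ∃ z ∈ Y0 hm, OnHP θ ((RS0 hm).fold z) ∧
        Ra ((RS1 hm).fold (F z)) ≤ log (1 + log m) + C ∧
        ∃ t, t + 2 ≤ m ∧ d0 hm (p t) z ≤ Ra ((RS0 hm).fold z) + C := by
  by_cases hL1 : 1 ≤ L
  swap
  · exact ⟨1, one_pos, 0, fun {m} hm _ {F} hF => absurd hF.one_le hL1⟩
  obtain ⟨C, hC⟩ := chain0
  obtain ⟨m₁, hm₁⟩ := ee_img_far
  set a : ℝ := sinh (12 * L ^ 2 / 2) with ha
  have ha0 : 0 ≤ a := by
    rw [ha, Real.sinh_nonneg_iff]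
    positivity
  have hC0 : (0 : ℝ) ≤ C := Nat.cast_nonneg C
  have hK1 : 1 ≤ 3 + 64 * a * ((C : ℝ) + 4) := by
    have : 0 ≤ 64 * a * ((C : ℝ) + 4) := by positivity
    linarith
  have hlogK : 0 ≤ log (3 + 64 * a * ((C : ℝ) + 4)) := Real.log_nonneg hK1
  refine ⟨log (3 + 64 * a * ((C : ℝ) + 4)) + 12 * L ^ 2 + 12 * L + C + 1, by positivity,
    max m₁ 41, ?_⟩
  intro m hm hmm F hF p q hPQ θ hθ hc1 hc2
  have hmm1 : m₁ ≤ m := (le_max_left _ _).trans hmm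
  have hmm2 : 41 ≤ m := (le_max_right _ _).trans hmm
  obtain ⟨t, ht, s, hs, hct, hcs, hcyc⟩ := crossings (m - 1) (by omega)
    (fun t => An ((RS0 hm).fold (p t)) ≤ θ) hc1 hc2
  have ht' : t + 2 ≤ m := by omega
  have hs' : s + 2 ≤ m := by omega
  obtain ⟨x, hx, hx1, hx2⟩ := l14_cross hm hF hPQ θ hθ t ht hct
  obtain ⟨x', hx', hx1', hx2'⟩ := l14_cross hm hF hPQ θ hθ s hs hcs
  obtain ⟨N, hN, z, hz0, hzN, hzP, hzd⟩ := hC hm θ hθ x hx x' hx' hx2 hx2'
  -- the extended chain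
  set y : ℕ → H3 := fun i => if i = 0 then p t else if i = N + 2 then p s else z (i - 1) with hy
  have y0 : y 0 = p t := by simp only [hy, if_true]
  have yN : y (N + 2) = p s := by
    have h1 : ¬ (N + 2 = 0) := by omega
    simp only [hy, h1, if_false, if_true]
  have yi : ∀ i, i ≤ N → y (i + 1) = z i := by
    intro i hi
    have h1 : ¬ (i + 1 = 0) := by omega
    have h2 : ¬ (i + 1 = N + 2) := by omega
    simp only [hy, h1, h2, if_false, Nat.add_sub_cancel]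
  have hymem : ∀ i, i ≤ N + 2 → y i ∈ Y0 hm := by
    intro i hi
    rcases i with - | i
    · rw [y0]
      exact hPQ.mem t ht'
    · by_cases h1 : i ≤ N
      · rw [yi i h1]
        exact (hzP i h1).1
      · have h2 : i + 1 = N + 2 := by omega
        rw [h2, yN]
        exact hPQ.mem s hs'
  have hLL : (6 : ℝ) ≤ 12 * L := by linarith
  have hd0x : d0 hm (p t) x ≤ 12 * L := (qd_le_dist (RS0 hm) (K m) _ _).trans hx1
  have hd0x' : d0 hm (p s) x' ≤ 12 * L := (qd_le_dist (RS0 hm) (K m) _ _).trans hx1'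
  have hyd : ∀ i, i < N + 2 → d0 hm (y i) (y (i + 1)) ≤ 12 * L := by
    intro i hi
    rcases i with - | i
    · rw [y0, yi 0 (Nat.zero_le _), hz0]
      exact hd0x
    · by_cases h1 : i < N
      · rw [yi i h1.le, yi (i + 1) h1]
        exact (hzd i h1).trans hLL
      · have h2 : i = N := by omega
        rw [h2, yi N le_rfl, yN, hzN]
        have h3 : d0 hm x' (p s) = d0 hm (p s) x' := qd_symm (RS0 hm) (K m) _ _
        rw [h3]
        exact hd0x'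
  have hstep : ∀ i, i < N + 2 →
      dist ((RS1 hm).fold (F (y i))) ((RS1 hm).fold (F (y (i + 1)))) ≤ 12 * L ^ 2 := by
    intro i hi
    have h1 := fold_le_qd (RS1 hm) (K m) (F (y i)) (F (y (i + 1)))
    have h2 := hF.upper (y i) (hymem i (by omega)) (y (i + 1)) (hymem (i + 1) (by omega))
    have h3 : L * d0 hm (y i) (y (i + 1)) ≤ L * (12 * L) :=
      mul_le_mul_of_nonneg_left (hyd i hi) (by linarith)
    calc _ ≤ d1 hm (F (y i)) (F (y (i + 1))) := h1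
      _ ≤ L * (12 * L) := h2.trans h3
      _ = 12 * L ^ 2 := by ring
  have hfar := hm₁ hm hmm1 hPQ t s ht' hs' hcyc
  obtain ⟨i, hi, hib⟩ := chain_axis (fun i => (RS1 hm).fold (F (y i))) (N + 2) (12 * L ^ 2) (1 / 16)
    (by norm_num) hstep (by
      show 1 / 16 ≤ ‖ee ((RS1 hm).fold (F (y 0))) - ee ((RS1 hm).fold (F (y (N + 2))))‖
      rw [y0, yN]
      exact hfar)
  have hRa : Ra ((RS1 hm).fold (F (y i))) ≤ log (1 + log m) + log (3 + 64 * a * (C + 4)) :=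
    l14_bound hm a ha0 C N _ (norm_nonneg _) hN hib
  have hLsq : 0 ≤ 12 * L ^ 2 := by positivity
  rcases i with - | i
  · -- use `x`
    refine ⟨x, hx, hx2, ?_, t, ht', ?_⟩
    · have h1 := Ra_lip ((RS1 hm).fold (F (y 1))) ((RS1 hm).fold (F (y 0)))
      have h2 := hstep 0 (by omega)
      rw [zero_add, dist_comm] at h2
      have h3 := (le_abs_self _).trans (h1.trans h2)
      have h4 : y 1 = x := by
        rw [← hz0]
        exact yi 0 (Nat.zero_le _)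
      rw [h4] at h3
      linarith
    · have h1 := Ra_nonneg ((RS0 hm).fold x)
      linarith
  · by_cases h1 : i ≤ N
    · obtain ⟨q1, q2, q3⟩ := hzP i h1
      refine ⟨z i, q1, q2, ?_, ?_⟩
      · rw [← yi i h1]
        linarith
      · rcases q3 with q3 | q3
        · refine ⟨t, ht', ?_⟩
          have h2 : d0 hm (p t) (z i) ≤ d0 hm (p t) x + d0 hm x (z i) :=
            qd_triangle (RS0 hm) (K m) _ _ _
          linarith
        · refine ⟨s, hs', ?_⟩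
          have h2 : d0 hm (p s) (z i) ≤ d0 hm (p s) x' + d0 hm x' (z i) :=
            qd_triangle (RS0 hm) (K m) _ _ _
          linarith
    · have h2 : i = N + 1 := by omega
      subst h2
      refine ⟨x', hx', hx2', ?_, s, hs', ?_⟩
      · have h3 := Ra_lip ((RS1 hm).fold (F (y (N + 1)))) ((RS1 hm).fold (F (y (N + 1 + 1))))
        have h4 := hstep (N + 1) (by omega)
        have h5 := (le_abs_self _).trans (h3.trans h4)
        have h6 : y (N + 1) = x' := by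
          rw [yi N le_rfl, hzN]
        rw [h6] at h5
        linarith
      · have h3 := Ra_nonneg ((RS0 hm).fold x')
        linarith

end CEE
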