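import Pool.Agent.CEE.L1a
import Pool.Agent.CEE.C4a

set_option autoImplicit false

/-!
# [CEE-L2a] Cylindrical coordinates: distances
-/

namespace CEE

open Pool.Agent.MP_8db1a4_gt Set Real

/-- the point lies on the half plane at the angle `θ` (or on the axis) -/
def OnHP (θ : ℝ) (y : H3) : Prop := hz y = (‖hz y‖ : ℂ) * uu θ

/- PROOF NOTES [CEE-L2a].  Everything by direct computation from `cyl` and `lor_eq`; `cosh_dist`.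
`dist_pt_rho`: `cosh (dist) = cosh ρ cosh ρ' - sinh ρ sinh ρ' = cosh (ρ - ρ')`; `Real.cosh_inj`-type lemma for nonnegative arguments (`cosh (dist) = cosh |ρ - ρ'|`).
`dist_pt_le`: `dist (pt θ ρ h) (pt θ 0 h) = ρ`, `dist (pt θ 0 h) (pt θ' 0 h') = |h - h'|` (`cosh_pt` with `sinh 0 = 0`), `dist (pt θ' 0 h') (pt θ' ρ' h') = ρ'`. -/

theorem l2a_norm_uu (θ : ℝ) : ‖uu θ‖ = 1 := by
  have h : ‖uu θ‖ ^ 2 = 1 := by
    rw [Complex.sq_norm, Complex.normSq_apply]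
    show cos θ * cos θ + sin θ * sin θ = 1
    nlinarith [Real.sin_sq_add_cos_sq θ]
  have h0 := norm_nonneg (uu θ)
  nlinarith

theorem hz_pt (θ ρ h : ℝ) : hz (pt θ ρ h) = (sinh ρ : ℂ) * uu θ := by
  apply Complex.ext
  · rw [Complex.re_ofReal_mul]
    rfl
  · rw [Complex.im_ofReal_mul]
    rfl

theorem norm_hz_pt (θ ρ h : ℝ) (hρ : 0 ≤ ρ) : ‖hz (pt θ ρ h)‖ = sinh ρ := by
  rw [hz_pt, norm_mul, l2a_norm_uu, mul_one, Complex.norm_real,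
    Real.norm_eq_abs, abs_of_nonneg (Real.sinh_nonneg_iff.2 hρ)]

theorem Ra_pt (θ ρ h : ℝ) (hρ : 0 ≤ ρ) : Ra (pt θ ρ h) = ρ := by
  unfold Ra
  rw [norm_hz_pt θ ρ h hρ, Real.arsinh_sinh]

theorem ee_pt (θ ρ h : ℝ) (hρ : 0 < ρ) : ee (pt θ ρ h) = uu θ := by
  unfold ee
  rw [norm_hz_pt θ ρ h hρ.le, hz_pt]
  have h1 : (sinh ρ : ℝ) ≠ 0 := (Real.sinh_pos_iff.2 hρ).ne'
  have h2 : ((sinh ρ : ℝ) : ℂ) ≠ 0 := by exact_mod_cast h1
  rw [mul_div_assoc, mul_comm, div_mul_cancel₀ _ h2]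

theorem OnHP_pt (θ ρ h : ℝ) (hρ : 0 ≤ ρ) : OnHP θ (pt θ ρ h) := by
  unfold OnHP
  rw [norm_hz_pt θ ρ h hρ, hz_pt]

theorem cosh_pt (θ ρ h θ' ρ' h' : ℝ) : cosh (dist (pt θ ρ h) (pt θ' ρ' h')) =
    cosh ρ * cosh ρ' * cosh (h - h') - sinh ρ * sinh ρ' * cos (θ - θ') := by
  rw [cosh_dist, lor_eq, pt_val, pt_val]
  unfold cyl
  simp only [vec_0, vec_1, vec_2, vec_3]
  rw [Real.cosh_sub, Real.cos_sub]
  ring

theorem l2a_eq_abs {a b : ℝ} (ha : 0 ≤ a) (h : cosh a = cosh b) : a = |b| := by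
  have h1 : |a| = |b| := le_antisymm (Real.cosh_le_cosh.1 h.le) (Real.cosh_le_cosh.1 h.ge)
  rwa [abs_of_nonneg ha] at h1

theorem dist_pt_rho (θ ρ ρ' h : ℝ) : dist (pt θ ρ h) (pt θ ρ' h) = |ρ - ρ'| := by
  apply l2a_eq_abs dist_nonneg
  rw [cosh_pt, sub_self, sub_self, Real.cosh_zero, Real.cos_zero, Real.cosh_sub]
  ring

theorem cosh_pt_h (θ ρ h h' : ℝ) : cosh (dist (pt θ ρ h) (pt θ ρ h')) =
    1 + cosh ρ ^ 2 * (cosh (h - h') - 1) := by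
  rw [cosh_pt, sub_self, Real.cos_zero]
  have h1 := Real.cosh_sq ρ
  linear_combination h1

theorem dist_pt_le (θ ρ h θ' ρ' h' : ℝ) (hρ : 0 ≤ ρ) (hρ' : 0 ≤ ρ') :
    dist (pt θ ρ h) (pt θ' ρ' h') ≤ ρ + ρ' + |h - h'| := by
  have h1 : dist (pt θ ρ h) (pt θ 0 h) = ρ := by
    rw [dist_pt_rho, sub_zero, abs_of_nonneg hρ]
  have h2 : dist (pt θ' 0 h') (pt θ' ρ' h') = ρ' := by
    rw [dist_pt_rho, zero_sub, abs_neg, abs_of_nonneg hρ']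
  have h3 : dist (pt θ 0 h) (pt θ' 0 h') = |h - h'| := by
    apply l2a_eq_abs dist_nonneg
    rw [cosh_pt, Real.sinh_zero, Real.cosh_zero]
    ring
  have h4 := dist_triangle (pt θ ρ h) (pt θ 0 h) (pt θ' ρ' h')
  have h5 := dist_triangle (pt θ 0 h) (pt θ' 0 h') (pt θ' ρ' h')
  linarith

end CEE
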