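import Pool.Agent.CEE.L1
import Pool.Agent.CEE.L2a

set_option autoImplicit false

/-!
# [CEE-L15] Points on two different half planes; an elementary limit
-/

namespace CEE

open Pool.Agent.MP_8db1a4_gt Set Real

/- PROOF NOTES [CEE-L15].
`two_angle`: `r = ‖hz y‖ = sinh (Ra y)`, `r' = ‖hz y'‖`, `d = dist y y'`.  `dt (hz y) (hz y') = r r' cos (θ - θ')` (`OnHP`), so `star` gives `r r' (1 - cos (θ - θ')) ≤ cosh d - 1 ≤ exp d`, and `1 - cos (θ - θ') = ‖uu θ - uu θ'‖²/2 ≥ c²/8` (`two_angle_aux`, `norm_uu_sub_sq`): `r r' ≤ (8/c²) exp d`.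
 Let `μ = min (Ra y) (Ra y')`: `sinh² μ ≤ (8/c²) exp d`; `exp μ ≤ 1 + 2 sinh μ ≤ 1 + (6/c) exp (d/2) ≤ (1 + 6/c) exp (d/2)`, `μ ≤ log (1 + 6/c) + d/2`; `Ra y ≤ μ + d` (`Ra_lip`).  `C = log (1 + 6/c)`, `3d/2 ≤ 2 d`.
`loglog`: `log (1 + log m) = o(log m)`: with `y = log m → ∞`: `C log (1 + y) + C < y` for large `y` (`log (1+y) ≤ 2 √(1+y)`-type bound: `Real.log_le_sub_one_of_pos` for `√(1+y)`, `log (1+y) = 2 log √(1+y) ≤ 2 √(1+y)`; or `Real.isLittleO_log_id_atTop`), `Real.tendsto_log_atTop`, `tendsto_natCast_atTop_atTop`, `Filter.eventually_atTop`. -/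

theorem two_angle (c : ℝ) (hc : 0 < c) : ∃ C : ℝ, 0 ≤ C ∧ ∀ (y y' : H3) (θ θ' : ℝ), θ ∈ Icc 0 π →
    θ' ∈ Icc 0 π → c ≤ |θ - θ'| → OnHP θ y → OnHP θ' y' → Ra y ≤ 2 * dist y y' + C := by
  refine ⟨log (1 + 6 / c), Real.log_nonneg (by have : 0 < 6 / c := by positivity
                                               linarith), ?_⟩
  intro y y' θ θ' hθ hθ' hcc hy hy'
  set d := dist y y' with hd
  have hd0 : 0 ≤ d := dist_nonneg
  have hre : ∀ (v : H3) (t : ℝ), OnHP t v → (hz v).re = ‖hz v‖ * cos t ∧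
      (hz v).im = ‖hz v‖ * sin t := by
    intro v t hv
    constructor
    · conv_lhs => rw [hv]
      rw [Complex.re_ofReal_mul]
      rfl
    · conv_lhs => rw [hv]
      rw [Complex.im_ofReal_mul]
      rfl
  obtain ⟨e1, e2⟩ := hre y θ hy
  obtain ⟨e3, e4⟩ := hre y' θ' hy'
  have hdt : dt (hz y) (hz y') = ‖hz y‖ * ‖hz y'‖ * cos (θ - θ') := by
    unfold dt
    rw [e1, e2, e3, e4, cos_sub]
    ring
  have h1 := star y y'
  rw [hdt] at h1
  have h2 := two_angle_aux c θ θ' hθ hθ' hcc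
  have h3 := norm_uu_sub_sq θ θ'
  have h4 : c ^ 2 / 8 ≤ 1 - cos (θ - θ') := by
    have h5 : (c / 2) ^ 2 ≤ ‖uu θ - uu θ'‖ ^ 2 := pow_le_pow_left₀ (by positivity) h2 2
    rw [h3] at h5
    nlinarith
  have hr0 : 0 ≤ ‖hz y‖ := norm_nonneg _
  have hr0' : 0 ≤ ‖hz y'‖ := norm_nonneg _
  have h6 : ‖hz y‖ * ‖hz y'‖ * (c ^ 2 / 8) ≤ exp d := by
    have h7 : ‖hz y‖ * ‖hz y'‖ * (c ^ 2 / 8) ≤ ‖hz y‖ * ‖hz y'‖ * (1 - cos (θ - θ')) :=
      mul_le_mul_of_nonneg_left h4 (mul_nonneg hr0 hr0')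
    have h8 : cosh d ≤ exp d := by
      rw [Real.cosh_eq]
      have : exp (-d) ≤ exp d := Real.exp_le_exp.2 (by linarith)
      linarith
    nlinarith
  set μ := min (Ra y) (Ra y') with hμ
  have hμ0 : 0 ≤ μ := le_min (Ra_nonneg _) (Ra_nonneg _)
  have hs0 : 0 ≤ sinh μ := Real.sinh_nonneg_iff.2 hμ0
  have hs1 : sinh μ ≤ ‖hz y‖ := by
    rw [← sinh_Ra]
    exact Real.sinh_le_sinh.2 (min_le_left _ _)
  have hs2 : sinh μ ≤ ‖hz y'‖ := by
    rw [← sinh_Ra]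
    exact Real.sinh_le_sinh.2 (min_le_right _ _)
  have h9 : sinh μ ^ 2 * (c ^ 2 / 8) ≤ exp d := by
    have h10 : sinh μ * sinh μ ≤ ‖hz y‖ * ‖hz y'‖ := mul_le_mul hs1 hs2 hs0 hr0
    have h11 : sinh μ * sinh μ * (c ^ 2 / 8) ≤ ‖hz y‖ * ‖hz y'‖ * (c ^ 2 / 8) :=
      mul_le_mul_of_nonneg_right h10 (by positivity)
    rw [pow_two]
    linarith
  have h12 : sinh μ ≤ 3 / c * exp (d / 2) := by
    apply le_of_sq_le_sq _ (by positivity)
    have h13 : (3 / c * exp (d / 2)) ^ 2 = 9 / c ^ 2 * exp d := by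
      rw [mul_pow, div_pow, ← Real.exp_nat_mul]
      congr 2
      · norm_num
      · push_cast
        ring
    rw [h13]
    have h14 : sinh μ ^ 2 ≤ 8 / c ^ 2 * exp d := by
      rw [div_mul_eq_mul_div, le_div_iff₀ (by positivity)]
      nlinarith
    have h15 : 8 / c ^ 2 * exp d ≤ 9 / c ^ 2 * exp d := by
      apply mul_le_mul_of_nonneg_right _ (exp_pos d).le
      apply div_le_div_of_nonneg_right (by norm_num) (by positivity)
    exact h14.trans h15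
  have h16 : exp μ ≤ (1 + 6 / c) * exp (d / 2) := by
    have h17 : exp μ = cosh μ + sinh μ := (Real.cosh_add_sinh μ).symm
    have h18 : cosh μ - sinh μ = exp (-μ) := Real.cosh_sub_sinh μ
    have h19 : exp (-μ) ≤ 1 := Real.exp_le_one_iff.2 (by linarith)
    have h20 : 1 ≤ exp (d / 2) := Real.one_le_exp (by linarith)
    have h21 : 6 / c = 2 * (3 / c) := by ring
    rw [h21, add_mul, one_mul, mul_assoc]
    linarith
  have h22 : μ ≤ log (1 + 6 / c) + d / 2 := by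
    have h23 : (0 : ℝ) < 1 + 6 / c := by positivity
    have h24 := Real.log_le_log (exp_pos μ) h16
    rw [Real.log_exp, Real.log_mul h23.ne' (exp_pos _).ne', Real.log_exp] at h24
    exact h24
  have h25 : Ra y ≤ μ + d := by
    have h26 := (le_abs_self _).trans (Ra_lip y y')
    rcases le_total (Ra y) (Ra y') with h | h
    · rw [hμ, min_eq_left h]
      linarith
    · rw [hμ, min_eq_right h]
      linarith
  linarith

theorem loglog (C : ℝ) : ∃ m₀ : ℕ, ∀ m : ℕ, m₀ ≤ m → C * log (1 + log m) + C < log m := by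
  set K : ℝ := |C| with hK
  have hK0 : 0 ≤ K := abs_nonneg C
  refine ⟨⌈exp ((3 * K + 2) ^ 2)⌉₊, fun m hm => ?_⟩
  have hm1 : exp ((3 * K + 2) ^ 2) ≤ (m : ℝ) := (Nat.le_ceil _).trans (by exact_mod_cast hm)
  have hm0 : (0 : ℝ) < m := (exp_pos _).trans_le hm1
  have h1 : (3 * K + 2) ^ 2 ≤ log (m : ℝ) := (Real.le_log_iff_exp_le hm0).2 hm1
  set y := log (m : ℝ) with hy
  have hy0 : 0 ≤ y := (sq_nonneg _).trans h1
  set t := sqrt (1 + y) with ht
  have ht2 : t ^ 2 = 1 + y := Real.sq_sqrt (by linarith)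
  have ht0 : 3 * K + 2 ≤ t := by
    rw [ht]
    apply Real.le_sqrt_of_sq_le
    linarith
  have htpos : 0 < t := by linarith
  have h2 : log (1 + y) ≤ 2 * t := by
    rw [← ht2, Real.log_pow]
    have h3 := Real.log_le_sub_one_of_pos htpos
    push_cast
    linarith
  have h3 : 0 ≤ log (1 + y) := Real.log_nonneg (by linarith)
  have h4 : C * log (1 + y) ≤ K * (2 * t) :=
    (mul_le_mul_of_nonneg_right (le_abs_self C) h3).trans (mul_le_mul_of_nonneg_left h2 hK0)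
  have h5 : C ≤ K := le_abs_self C
  have h6 : t * (3 * K + 2) ≤ t * t := mul_le_mul_of_nonneg_left ht0 htpos.le
  have h7 : K * 1 ≤ K * t := mul_le_mul_of_nonneg_left (by linarith) hK0
  nlinarith

end CEE
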