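import Pool.Agent.CEE.L5
import Pool.Agent.CEE.G2

set_option autoImplicit false

/-!
# [CEE-L8a] Counting: pure combinatorics
-/

namespace CEE

open Set Real

/- PROOF NOTES [CEE-L8a].
`cyc_count`: `t < n` with `cyc n t s ≤ k`: either `|t - s| ≤ k` (at most `2k + 1` values, an interval) or `n - |t - s| ≤ k`: `t ≥ s + n - k` with `t < n` (at most `k` values) or `t ≤ s - (n - k)`, `s < n` (at most `k` values: `t < k`).
`card_Q`: `Fintype.card Q = 8 * 8 * 2` (`Fintype.card_prod`, `DihedralGroup.card`, `Fintype.card_units_int` or `rfl`/`decide`).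
`count_abs`: apply `Finset.card_le_mul_card_image` to `f t = (S t, ⌊R t⌋₊, ⌊A t * exp ⌊R t⌋₊⌋) : Q × ℕ × ℤ` on the filtered set.  Fibres: `f t = f s` implies `|A t - A s| * exp n < 1` (same floor), so `cyc n t s ≤ k` (`hcell`), at most `4k + 1` elements (`cyc_count`).
 Image: contained in the union over `c ∈ Q`, `j ∈ range (⌊Rmax⌋₊ + 1)` of `{c} × {j} × Icc ⌊a e^j⌋ ⌊b e^j⌋` (`Int.card_Icc`: `⌊b e^j⌋ + 1 - ⌊a e^j⌋ ≤ (b - a) e^j + 2`), i.e. a `Finset.sigma`/`biUnion`; cardinality `≤ 128 ∑_{j ≤ ⌊Rmax⌋} ((b - a) e^j + 2) ≤ 128 ((b - a) 2 e^{Rmax} + 2 (Rmax + 1))`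
 (`∑_{j ≤ J} e^j ≤ 2 e^J` by induction, `e ≥ 2`).  (`Rmax ≥ 0` if the set is nonempty.) -/

theorem cyc_count (n k s : ℕ) (hs : s < n) :
    ((Finset.range n).filter (fun t => cyc n t s ≤ k)).card ≤ 4 * k + 1 := by
  have hsub : ((Finset.range n).filter (fun t => cyc n t s ≤ k)) ⊆
      Finset.Icc (s - k) (s + k) ∪ (Finset.Ico (n - k) n ∪ Finset.range k) := by
    intro t ht
    simp only [Finset.mem_filter, Finset.mem_range, cyc] at ht
    simp only [Finset.mem_union, Finset.mem_Icc, Finset.mem_Ico, Finset.mem_range]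
    omega
  refine (Finset.card_le_card hsub).trans ((Finset.card_union_le _ _).trans ?_)
  have h1 := Finset.card_union_le (Finset.Ico (n - k) n) (Finset.range k)
  rw [Nat.card_Ico, Finset.card_range] at h1
  rw [Nat.card_Icc]
  omega

theorem card_Q : Fintype.card Q = 128 := by
  show Fintype.card (DihedralGroup 4 × DihedralGroup 4 × ℤˣ) = 128
  rw [Fintype.card_prod, Fintype.card_prod, DihedralGroup.card]
  rfl

theorem sum_exp_le (J : ℕ) : ∑ j ∈ Finset.range (J + 1), exp (j : ℝ) ≤ 2 * exp (J : ℝ) := by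
  induction J with
  | zero => simp
  | succ J ih =>
    rw [Finset.sum_range_succ]
    have h1 : exp ((J + 1 : ℕ) : ℝ) = exp (J : ℝ) * exp 1 := by
      push_cast
      rw [← exp_add]
    have h2 : (2 : ℝ) ≤ exp 1 := by
      have := Real.add_one_le_exp (1 : ℝ)
      linarith
    have h3 := exp_pos (J : ℝ)
    rw [h1]
    nlinarith

theorem count_abs (n k : ℕ) (Rmax : ℝ) (hRm : 0 ≤ Rmax) (S : ℕ → Q) (R A : ℕ → ℝ)
    (hR0 : ∀ t < n, 0 ≤ R t) (hR : ∀ t < n, R t ≤ Rmax)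
    (hcell : ∀ t < n, ∀ s < n, S t = S s → ⌊R t⌋₊ = ⌊R s⌋₊ →
      |A t - A s| ≤ exp (-(⌊R t⌋₊ : ℝ)) → cyc n t s ≤ k) (a b : ℝ) (hab : a ≤ b) :
    (((Finset.range n).filter (fun t => a ≤ A t ∧ A t ≤ b)).card : ℝ) ≤
      (4 * k + 1) * (128 * ((b - a) * (2 * exp Rmax) + 2 * (Rmax + 1))) := by
  classical
  set T := (Finset.range n).filter (fun t => a ≤ A t ∧ A t ≤ b) with hT
  set f : ℕ → Q × ℕ × ℤ := fun t => (S t, ⌊R t⌋₊, ⌊A t * exp (⌊R t⌋₊ : ℝ)⌋) with hf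
  obtain ⟨J, hJ⟩ : ∃ J, J = ⌊Rmax⌋₊ := ⟨_, rfl⟩
  set W : Finset (Q × ℕ × ℤ) := (Finset.range (J + 1)).biUnion (fun j =>
    (Finset.univ : Finset Q) ×ˢ (({j} : Finset ℕ) ×ˢ
      Finset.Icc ⌊a * exp (j : ℝ)⌋ ⌊b * exp (j : ℝ)⌋)) with hW
  have hfib : ∀ y ∈ T.image f, (T.filter (fun x => f x = y)).card ≤ 4 * k + 1 := by
    intro y hy
    obtain ⟨s, hs, rfl⟩ := Finset.mem_image.mp hy
    have hsn : s < n := by
      rw [hT, Finset.mem_filter] at hs
      exact Finset.mem_range.mp hs.1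
    refine le_trans (Finset.card_le_card ?_) (cyc_count n k s hsn)
    intro t ht
    rw [Finset.mem_filter] at ht
    obtain ⟨ht1, ht2⟩ := ht
    rw [hT, Finset.mem_filter] at ht1
    rw [Finset.mem_filter]
    refine ⟨ht1.1, ?_⟩
    simp only [hf, Prod.mk.injEq] at ht2
    obtain ⟨e1, e2, e3⟩ := ht2
    apply hcell t (Finset.mem_range.mp ht1.1) s hsn e1 e2
    have hpos := exp_pos ((⌊R t⌋₊ : ℝ))
    rw [← e2] at e3
    have h5 := Int.abs_sub_lt_one_of_floor_eq_floor e3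
    rw [← sub_mul, abs_mul, abs_of_pos hpos] at h5
    rw [exp_neg]
    rw [← one_div, le_div_iff₀ hpos]
    exact h5.le
  have hsub : T.image f ⊆ W := by
    intro y hy
    obtain ⟨s, hs, rfl⟩ := Finset.mem_image.mp hy
    rw [hT, Finset.mem_filter] at hs
    have hsn := Finset.mem_range.mp hs.1
    rw [hW, Finset.mem_biUnion]
    refine ⟨⌊R s⌋₊, ?_, ?_⟩
    · rw [Finset.mem_range, hJ]
      exact Nat.lt_succ_of_le (Nat.floor_mono (hR s hsn))
    · simp only [hf, Finset.mem_product, Finset.mem_univ, Finset.mem_singleton, true_and,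
        Finset.mem_Icc]
      have hpos := (exp_pos ((⌊R s⌋₊ : ℝ))).le
      exact ⟨Int.floor_mono (mul_le_mul_of_nonneg_right hs.2.1 hpos),
        Int.floor_mono (mul_le_mul_of_nonneg_right hs.2.2 hpos)⟩
  have h1 : (T.card : ℝ) ≤ (4 * k + 1) * (W.card : ℝ) := by
    have h2 := Finset.card_le_mul_card_image T (4 * k + 1) hfib
    have h3 := Finset.card_le_card hsub
    have h4 : T.card ≤ (4 * k + 1) * W.card := h2.trans (Nat.mul_le_mul_left _ h3)
    exact_mod_cast h4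
  refine h1.trans (mul_le_mul_of_nonneg_left ?_ (by positivity))
  have h2 : (W.card : ℝ) ≤ ∑ j ∈ Finset.range (J + 1), (128 * ((b - a) * exp (j : ℝ) + 2)) := by
    have h3 : W.card ≤ ∑ j ∈ Finset.range (J + 1), 128 * (⌊b * exp (j : ℝ)⌋ + 1 - ⌊a * exp (j : ℝ)⌋).toNat := by
      refine (Finset.card_biUnion_le).trans (le_of_eq ?_)
      apply Finset.sum_congr rfl
      intro j _
      rw [Finset.card_product, Finset.card_product, Finset.card_singleton, one_mul, Int.card_Icc,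
        Finset.card_univ, card_Q]
    have h4 : (W.card : ℝ) ≤ ((∑ j ∈ Finset.range (J + 1), 128 * (⌊b * exp (j : ℝ)⌋ + 1 - ⌊a * exp (j : ℝ)⌋).toNat : ℕ) : ℝ) := by
      exact_mod_cast h3
    refine h4.trans ?_
    push_cast
    apply Finset.sum_le_sum
    intro j _
    apply mul_le_mul_of_nonneg_left _ (by norm_num)
    have hle : ⌊a * exp (j : ℝ)⌋ ≤ ⌊b * exp (j : ℝ)⌋ :=
      Int.floor_mono (mul_le_mul_of_nonneg_right hab (exp_pos _).le)
    have h5 : (((⌊b * exp (j : ℝ)⌋ + 1 - ⌊a * exp (j : ℝ)⌋).toNat : ℕ) : ℝ) =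
        (⌊b * exp (j : ℝ)⌋ : ℝ) + 1 - (⌊a * exp (j : ℝ)⌋ : ℝ) := by
      have h6 : (((⌊b * exp (j : ℝ)⌋ + 1 - ⌊a * exp (j : ℝ)⌋).toNat : ℕ) : ℤ) =
        ⌊b * exp (j : ℝ)⌋ + 1 - ⌊a * exp (j : ℝ)⌋ := Int.toNat_of_nonneg (by omega)
      have h7 := congrArg (fun z : ℤ => (z : ℝ)) h6
      push_cast at h7
      exact h7
    rw [h5]
    have h8 := Int.floor_le (b * exp (j : ℝ))
    have h9 := (Int.sub_one_lt_floor (a * exp (j : ℝ))).le
    nlinarith
  refine h2.trans ?_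
  rw [← Finset.mul_sum, Finset.sum_add_distrib, ← Finset.mul_sum]
  simp only [Finset.sum_const, Finset.card_range, nsmul_eq_mul]
  have h3 := sum_exp_le J
  have h4 : (J : ℝ) ≤ Rmax := by rw [hJ]; exact Nat.floor_le hRm
  have h5 : exp (J : ℝ) ≤ exp Rmax := exp_le_exp.mpr h4
  have h6 : 0 ≤ b - a := by linarith
  have h7 : (b - a) * ∑ i ∈ Finset.range (J + 1), exp (i : ℝ) ≤ (b - a) * (2 * exp Rmax) :=
    mul_le_mul_of_nonneg_left (h3.trans (by linarith)) h6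
  push_cast
  nlinarith

end CEE
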