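import Pool.Agent.CEE.L5

set_option autoImplicit false

/-!
# [CEE-L8d] Quantiles: pure combinatorics
-/

namespace CEE

open Set Real

/- PROOF NOTES [CEE-L8d].
`interval_abs`: `f j = card {t < n | A t ≤ j δ}`.  `f 0 ≤ card {0 ≤ A t ≤ 0} ≤ n/8` (`hcount`, `A t ≥ 0`); `f (j+1) ≤ f j + card {jδ ≤ A t ≤ (j+1)δ} ≤ f j + n/8`; `f j = n` for `j δ ≥ π`.  Let `j` be the first index with `n ≤ 4 f j` (`Nat.find`); `j ≥ 1`, `8 f j ≤ 8 f (j-1) + n < 3n`, `8 f (j+1) ≤ 8 f j + n < 4 n`.  `a = j δ`.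
 `(j+1) δ ≤ π`: otherwise `f (j+1) = n`, contradiction with `8 f (j+1) < 4n`.  For `θ ∈ [jδ, (j+1)δ]`: `f j ≤ card {A t ≤ θ} ≤ f (j+1)` (`Finset.card_le_card`, `Finset.filter_subset_filter`). -/

theorem interval_abs (n : ℕ) (hn : 0 < n) (A : ℕ → ℝ) (hA : ∀ t < n, A t ∈ Icc 0 π) (δ : ℝ)
    (hδ : 0 < δ)
    (hcount : ∀ a b, a ≤ b → b - a ≤ δ →
      8 * ((Finset.range n).filter (fun t => a ≤ A t ∧ A t ≤ b)).card ≤ n) :
    ∃ a, 0 ≤ a ∧ a + δ ≤ π ∧ ∀ θ ∈ Icc a (a + δ),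
      n ≤ 4 * ((Finset.range n).filter (fun t => A t ≤ θ)).card ∧
        4 * ((Finset.range n).filter (fun t => A t ≤ θ)).card ≤ 3 * n := by
  classical
  set f : ℕ → ℕ := fun j => ((Finset.range n).filter (fun t => A t ≤ (j : ℝ) * δ)).card with hf
  have h0 : 8 * f 0 ≤ n := by
    have h := hcount 0 0 le_rfl (by simpa using hδ.le)
    have e : ((Finset.range n).filter (fun t => A t ≤ ((0 : ℕ) : ℝ) * δ)) =
        ((Finset.range n).filter (fun t => (0 : ℝ) ≤ A t ∧ A t ≤ 0)) := by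
      apply Finset.filter_congr
      intro t ht
      have := (hA t (Finset.mem_range.mp ht)).1
      simp [this]
    rw [hf]
    simp only
    rw [e]
    exact h
  have hstep : ∀ j, 8 * f (j + 1) ≤ 8 * f j + n := by
    intro j
    have h := hcount ((j : ℝ) * δ) (((j + 1 : ℕ) : ℝ) * δ)
      (by push_cast; nlinarith) (by push_cast; linarith)
    have hsub : ((Finset.range n).filter (fun t => A t ≤ ((j + 1 : ℕ) : ℝ) * δ)) ⊆
        ((Finset.range n).filter (fun t => A t ≤ (j : ℝ) * δ)) ∪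
        ((Finset.range n).filter (fun t => (j : ℝ) * δ ≤ A t ∧ A t ≤ ((j + 1 : ℕ) : ℝ) * δ)) := by
      intro t ht
      rw [Finset.mem_filter] at ht
      rw [Finset.mem_union, Finset.mem_filter, Finset.mem_filter]
      rcases le_total (A t) ((j : ℝ) * δ) with h1 | h1
      · exact Or.inl ⟨ht.1, h1⟩
      · exact Or.inr ⟨ht.1, h1, ht.2⟩
    have h2 := (Finset.card_le_card hsub).trans (Finset.card_union_le _ _)
    simp only [hf]
    omega
  have hmono : ∀ (j : ℕ) (θ : ℝ), (j : ℝ) * δ ≤ θ →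
      f j ≤ ((Finset.range n).filter (fun t => A t ≤ θ)).card := by
    intro j θ h
    apply Finset.card_le_card
    intro t ht
    rw [Finset.mem_filter] at ht ⊢
    exact ⟨ht.1, ht.2.trans h⟩
  have hmono' : ∀ (j : ℕ) (θ : ℝ), θ ≤ (j : ℝ) * δ →
      ((Finset.range n).filter (fun t => A t ≤ θ)).card ≤ f j := by
    intro j θ h
    apply Finset.card_le_card
    intro t ht
    rw [Finset.mem_filter] at ht ⊢
    exact ⟨ht.1, ht.2.trans h⟩
  have hfull : ∀ j : ℕ, π ≤ (j : ℝ) * δ → f j = n := by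
    intro j h
    have e : ((Finset.range n).filter (fun t => A t ≤ (j : ℝ) * δ)) = Finset.range n := by
      apply Finset.filter_true_of_mem
      intro t ht
      exact (hA t (Finset.mem_range.mp ht)).2.trans h
    simp only [hf]
    rw [e, Finset.card_range]
  have hex : ∃ j, n ≤ 4 * f j := by
    obtain ⟨J, hJ⟩ := exists_nat_ge (π / δ)
    refine ⟨J, ?_⟩
    have : π ≤ (J : ℝ) * δ := by
      rwa [div_le_iff₀ hδ] at hJ
    rw [hfull J this]
    omega
  obtain ⟨j, hj⟩ : ∃ j, j = Nat.find hex := ⟨_, rfl⟩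
  have hj1 : n ≤ 4 * f j := by rw [hj]; exact Nat.find_spec hex
  have hjpos : j ≠ 0 := by
    intro h
    rw [h] at hj1
    omega
  obtain ⟨i, rfl⟩ := Nat.exists_eq_succ_of_ne_zero hjpos
  have hi : ¬ n ≤ 4 * f i := Nat.find_min hex (by omega)
  have hs1 := hstep i
  have hs2 := hstep (i + 1)
  have hle : (((i + 1 : ℕ) : ℝ) + 1) * δ ≤ π := by
    by_contra hcon
    push Not at hcon
    have := hfull (i + 1 + 1) (by push_cast at hcon ⊢; exact hcon.le)
    simp only [Nat.succ_eq_add_one] at *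
    omega
  refine ⟨((i + 1 : ℕ) : ℝ) * δ, by positivity, by nlinarith, ?_⟩
  intro θ hθ
  have h1 := hmono (i + 1) θ hθ.1
  have h2 := hmono' (i + 1 + 1) θ (by have := hθ.2; push_cast at this ⊢; nlinarith)
  simp only [Nat.succ_eq_add_one] at *
  constructor <;> omega

end CEE
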