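import Pool.Agent.CEE.L7
import Pool.Agent.CEE.L8a
import Pool.Agent.CEE.L8d

set_option autoImplicit false

/-!
# [CEE-L9] Counting the partners in an angle; an interval of good angles
-/

namespace CEE

open Pool.Agent.MP_8db1a4_gt Set Real

/- PROOF NOTES [CEE-L9].  `n = m - 1`, `y t = fold₀ (p t) ∈ D0` (`Yset_fold`, `ex0_anti`), `S t = sh0 (p t)`, `R t = Ra (y t)`, `A t = An (y t)`.
`count`: `count_abs` with `k = ⌈√(20 exp (3 L + 8))⌉₊`: if `S t = S s`, the same `⌊R⌋₊` and close angles then `dist (y t) (y s) ≤ 3` (`cell`), `d0 (p t) (p s) ≤ 3` (`d0_le_sh`), `cyc² ≤ 20 exp (3 L + 8)` (`sep_cyc`).  `Rmax = 3 - log (w0 m) ≤ 3 + log m` (`Ra_D0_le`, `w0 m = π/m`), `exp Rmax ≤ e³ m`.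
 `B = (4k + 1) * 128 * (2 e³ + 8)`: `(b-a) 2 e³ m + 2 (4 + log m) ≤ (2e³ + 8)(m (b - a) + 1 + log m)`.
`good_interval`: `δ = 1/(32 B)`-like: need `8 B (m δ + 1 + log m) ≤ m - 1` for large `m`: `8 B m δ ≤ m/4` for `δ = 1/(32 B)` and `8 B (1 + log m) ≤ m/2` for large `m` (`log m / m → 0`; e.g. `log m ≤ 2 √m`).  Then `interval_abs`. -/

theorem L9_fold {m : ℕ} (hm : 13 ≤ m) {F : H3 → H3} {p q : ℕ → H3} (h : PQ hm F p q) (t : ℕ)
    (ht : t + 2 ≤ m) : (RS0 hm).fold (p t) ∈ D0 m :=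
  (Yset_fold (RS0 hm) ex0 (ex0_anti hm) (p t)).1 (h.mem t ht)

theorem count (L : ℝ) : ∃ B : ℝ, 0 < B ∧ ∀ {m : ℕ} (hm : 13 ≤ m) {F : H3 → H3},
    LipF hm L F → ∀ {p q : ℕ → H3}, PQ hm F p q → ∀ a b : ℝ, a ≤ b →
      (((Finset.range (m - 1)).filter (fun t => a ≤ An ((RS0 hm).fold (p t)) ∧
        An ((RS0 hm).fold (p t)) ≤ b)).card : ℝ) ≤ B * (m * (b - a) + 1 + log m) := by
  obtain ⟨k, hk⟩ : ∃ k : ℕ, 20 * exp (L * 3 + 8) ≤ (k : ℝ) ^ 2 := by
    obtain ⟨k, hk⟩ := exists_nat_ge (20 * exp (L * 3 + 8) + 1)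
    refine ⟨k, ?_⟩
    have := exp_pos (L * 3 + 8)
    nlinarith
  refine ⟨(4 * k + 1) * (128 * (2 * exp 3 + 8)), by positivity, ?_⟩
  intro m hm F hF p q h a b hab
  have hm' : (13 : ℝ) ≤ m := by exact_mod_cast hm
  have hlog : 0 ≤ log (m : ℝ) := log_nonneg (by linarith)
  have key := count_abs (m - 1) k (3 + log m) (by positivity) (fun t => sh0 hm (p t))
    (fun t => Ra ((RS0 hm).fold (p t))) (fun t => An ((RS0 hm).fold (p t)))
    (fun t _ => Ra_nonneg _) (fun t ht => by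
      have h1 := Ra_D0_le hm _ (L9_fold hm h t (by omega))
      have h2 : log (w0 m) = log π - log m := by
        unfold w0
        rw [log_div pi_pos.ne' (by positivity)]
      have h3 : 0 ≤ log π := log_nonneg (by linarith [pi_gt_three])
      show Ra ((RS0 hm).fold (p t)) ≤ 3 + log m
      linarith) (fun t ht s hs hS hR hA => by
      have hyt := L9_fold hm h t (by omega)
      have hys := L9_fold hm h s (by omega)
      have h1 := cell hm _ _ hyt hys ⌊Ra ((RS0 hm).fold (p t))⌋₊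
        (Nat.floor_le (Ra_nonneg _)) (Nat.lt_floor_add_one _)
        (by rw [hR]; exact Nat.floor_le (Ra_nonneg _))
        (by rw [hR]; exact Nat.lt_floor_add_one _) hA
      have h2 := (d0_le_sh hm (p t) (p s) hS).trans h1
      have h3 := (sep_cyc hm hF h t s (by omega) (by omega) 3 h2).trans hk
      have h4 : (cyc (m - 1) t s : ℝ) ≤ k := by
        exact (sq_le_sq₀ (by positivity) (by positivity)).1 h3
      exact_mod_cast h4) a b hab
  refine key.trans ?_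
  rw [mul_assoc, mul_assoc]
  apply mul_le_mul_of_nonneg_left _ (by positivity)
  apply mul_le_mul_of_nonneg_left _ (by norm_num)
  have h1 : exp (3 + log (m : ℝ)) = exp 3 * m := by
    rw [exp_add, exp_log (by linarith)]
  rw [h1]
  have h2 : 0 ≤ (m : ℝ) * (b - a) := mul_nonneg (by linarith) (by linarith)
  have h3 := exp_pos (3 : ℝ)
  have h4 : 0 ≤ exp 3 * log (m : ℝ) := mul_nonneg h3.le hlog
  nlinarith

theorem good_interval (L : ℝ) : ∃ δ : ℝ, 0 < δ ∧ ∃ m₀ : ℕ, ∀ {m : ℕ} (hm : 13 ≤ m), m₀ ≤ m →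
    ∀ {F : H3 → H3}, LipF hm L F → ∀ {p q : ℕ → H3}, PQ hm F p q →
      ∃ a, 0 ≤ a ∧ a + δ ≤ π ∧ ∀ θ ∈ Icc a (a + δ),
        m - 1 ≤ 4 * ((Finset.range (m - 1)).filter (fun t => An ((RS0 hm).fold (p t)) ≤ θ)).card ∧
        4 * ((Finset.range (m - 1)).filter (fun t => An ((RS0 hm).fold (p t)) ≤ θ)).card ≤
          3 * (m - 1) := by
  obtain ⟨B, hB, hcount⟩ := count L
  obtain ⟨m₀, hm₀⟩ := exists_nat_ge ((32 * B) ^ 2)
  refine ⟨1 / (32 * B), by positivity, m₀, ?_⟩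
  intro m hm hmm F hF p q h
  have hm' : (13 : ℝ) ≤ m := by exact_mod_cast hm
  have hmm' : ((32 * B) ^ 2 : ℝ) ≤ m := hm₀.trans (by exact_mod_cast hmm)
  have hs0 : 0 < sqrt (m : ℝ) := sqrt_pos.mpr (by linarith)
  have hs1 : sqrt (m : ℝ) * sqrt (m : ℝ) = m := mul_self_sqrt (by linarith)
  have hs2 : 32 * B ≤ sqrt (m : ℝ) := Real.le_sqrt_of_sq_le hmm'
  have hs3 : 1 + log (m : ℝ) ≤ 2 * sqrt (m : ℝ) := by
    have h1 := Real.log_le_sub_one_of_pos hs0
    have h2 : log (m : ℝ) = 2 * log (sqrt (m : ℝ)) := by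
      rw [Real.log_sqrt (by linarith)]
      ring
    linarith
  have hA : ∀ t < m - 1, An ((RS0 hm).fold (p t)) ∈ Icc 0 π := fun t ht =>
    An_mem _ (L9_fold hm h t (by omega))
  have hcast : (((m - 1 : ℕ)) : ℝ) = (m : ℝ) - 1 := by
    rw [Nat.cast_sub (by omega)]
    simp
  exact interval_abs (m - 1) (by omega) (fun t => An ((RS0 hm).fold (p t))) hA (1 / (32 * B))
    (by positivity) (fun a b hab hba => by
      have h1 := hcount hm hF h a b hab
      have h2 : (8 * ((Finset.range (m - 1)).filter (fun t => a ≤ An ((RS0 hm).fold (p t)) ∧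
        An ((RS0 hm).fold (p t)) ≤ b)).card : ℝ) ≤ ((m - 1 : ℕ) : ℝ) := by
        rw [hcast]
        have h3 : B * (m * (b - a)) ≤ m / 32 := by
          have h4 : B * (b - a) ≤ 1 / 32 := by
            have h5 := mul_le_mul_of_nonneg_left hba hB.le
            have h6 : B * (1 / (32 * B)) = 1 / 32 := by field_simp
            linarith
          nlinarith
        have h7 : B * (1 + log (m : ℝ)) ≤ m / 16 := by
          have h8 : B * (1 + log (m : ℝ)) ≤ B * (2 * sqrt (m : ℝ)) :=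
            mul_le_mul_of_nonneg_left hs3 hB.le
          have h9 : (32 * B) * sqrt (m : ℝ) ≤ sqrt (m : ℝ) * sqrt (m : ℝ) :=
            mul_le_mul_of_nonneg_right hs2 hs0.le
          nlinarith
        nlinarith
      exact_mod_cast h2)

end CEE
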