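import Pool.Agent.CEE.L14
import Pool.Agent.CEE.L15
import Pool.Agent.CEE.L9

set_option autoImplicit false

/-!
# [CEE-L16] There is no bi-Lipschitz map for large `m`
-/

namespace CEE

open Pool.Agent.MP_8db1a4_gt Set Real

/- PROOF NOTES [CEE-L16].  `δ` from `good_interval`, `c = δ/128`, `C₁` from `angle_point`, `C₂` from `two_angle c`; `m` odd, larger than all the `m₀`'s and than the `m₀` of `loglog C₃` (`C₃ = C₃(L, C₁, C₂)` below).  Suppose `F` with `LipF hm L F`.  `exists_PQ`.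
`good_interval`: `a`; angles `θ i = a + i δ/128`, `i : Fin 129` (in `Icc a (a + δ) ⊆ Icc 0 π`).  `angle_point` gives `z i`.  Pigeonhole for `i ↦ sh1 (F (z i)) ∈ Q`, `card Q = 128 < 129` (`card_Q`, `Fintype.exists_ne_map_eq_of_card_lt`): `i ≠ j`, `|θ i - θ j| ≥ δ/128`.  Write `z = z i`, `z' = z j`, `ℓ = log (1 + log m)`:
 `d1 (F z) (F z') ≤ dist (fold₁ (F z)) (fold₁ (F z')) ≤ Ra .. + Ra .. + 1 ≤ 2 ℓ + 2 C₁ + 1` (`d1_le_sh`, `dist_cham_le` with `w1_pos`, `w1_le`, `fold_mem`).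
 `dist (fold z) (fold z') ≤ d0 z z' ≤ L (2 ℓ + 2 C₁ + 1)` (`fold_le_qd`, `hF.lower`).  `two_angle`: `Ra (fold z) ≤ 2 L (2 ℓ + 2 C₁ + 1) + C₂`.
 `d0 (p t) z ≤ Ra (fold z) + C₁`, so `dist (fold₁ (F (p t))) (fold₁ (F z)) ≤ d1 .. ≤ L (Ra (fold z) + C₁)` (`hF.upper`), `Ra (fold₁ (F (p t))) ≤ ℓ + C₁ + L (Ra (fold z) + C₁)` (`Ra_lip`).  `Ra_img`: `- log (w1 m) - 4 ≤ Ra (fold₁ (F (p t)))`, `- log (w1 m) = log ((m+3)/(2π)) ≥ log m - 2`.
 Together `log m ≤ C₃ ℓ + C₃` with `C₃ = 6 + C₁ + L (2L(2C₁+1) + C₂ + C₁) + 1 + 4 L²` (any `C₃` dominating both coefficients): contradiction to `loglog`. -/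

theorem main_lift (L : ℝ) : ∃ m₀ : ℕ, ∀ {m : ℕ} (hm : 13 ≤ m), Odd m → m₀ ≤ m →
    ¬ ∃ F : H3 → H3, LipF hm L F := by
  by_cases hL : 1 ≤ L
  swap
  · exact ⟨0, fun _ _ _ ⟨_, hF⟩ => hL hF.one_le⟩
  obtain ⟨δ, hδ, m1, good⟩ := good_interval L
  obtain ⟨C1, hC1, m2, ang⟩ := angle_point L
  obtain ⟨C2, hC2, two⟩ := two_angle (δ / 128) (by positivity)
  obtain ⟨m3, hlog⟩ := loglog (6 + C1 + L * (2 * L * (2 * C1 + 1) + C2 + C1) + 1 + 4 * L ^ 2)
  refine ⟨max m1 (max m2 m3), ?_⟩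
  intro m hm ho hmm
  rintro ⟨F, hF⟩
  have hm1 : m1 ≤ m := le_trans (le_max_left _ _) hmm
  have hm2 : m2 ≤ m := le_trans (le_trans (le_max_left _ _) (le_max_right _ _)) hmm
  have hm3 : m3 ≤ m := le_trans (le_trans (le_max_right _ _) (le_max_right _ _)) hmm
  obtain ⟨p, q, hpq⟩ := exists_PQ hm ho hF
  obtain ⟨a, ha0, haπ, ha⟩ := good hm hm1 hF hpq
  have hθm : ∀ i : Fin 129, a + (i.val : ℝ) * (δ / 128) ∈ Icc a (a + δ) := by
    intro i
    have h1 : (i.val : ℝ) ≤ 128 := by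
      have : i.val ≤ 128 := by omega
      exact_mod_cast this
    have h2 : (0 : ℝ) ≤ i.val := Nat.cast_nonneg _
    have h3 : (i.val : ℝ) * (δ / 128) ≤ 128 * (δ / 128) :=
      mul_le_mul_of_nonneg_right h1 (by positivity)
    have h4 : 0 ≤ (i.val : ℝ) * (δ / 128) := by positivity
    constructor
    · linarith
    · linarith
  have hθπ : ∀ i : Fin 129, a + (i.val : ℝ) * (δ / 128) ∈ Icc 0 π := by
    intro i
    obtain ⟨h1, h2⟩ := hθm i
    exact ⟨by linarith, by linarith⟩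
  choose z hzY hzH hzR t ht htd using fun i : Fin 129 =>
    ang hm hm2 hF hpq (a + (i.val : ℝ) * (δ / 128)) (hθπ i) (ha _ (hθm i)).1 (ha _ (hθm i)).2
  obtain ⟨i, j, hij, hs⟩ := Fintype.exists_ne_map_eq_of_card_lt
    (fun i : Fin 129 => sh1 hm (F (z i))) (by rw [card_Q, Fintype.card_fin]; norm_num)
  have hs' : sh1 hm (F (z i)) = sh1 hm (F (z j)) := hs
  have hdist : δ / 128 ≤ |(a + (i.val : ℝ) * (δ / 128)) - (a + (j.val : ℝ) * (δ / 128))| := by
    have h1 : (a + (i.val : ℝ) * (δ / 128)) - (a + (j.val : ℝ) * (δ / 128)) =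
        ((i.val : ℝ) - (j.val : ℝ)) * (δ / 128) := by ring
    rw [h1, abs_mul, abs_of_pos (by positivity : 0 < δ / 128)]
    have h2 : (1 : ℝ) ≤ |(i.val : ℝ) - (j.val : ℝ)| := by
      have h3 : (i.val : ℤ) - (j.val : ℤ) ≠ 0 := by
        intro h
        apply hij
        apply Fin.ext
        omega
      have h4 : (1 : ℤ) ≤ |(i.val : ℤ) - (j.val : ℤ)| := Int.one_le_abs h3
      exact_mod_cast h4
    have h5 := mul_le_mul_of_nonneg_right h2 (by positivity : (0 : ℝ) ≤ δ / 128)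
    linarith
  obtain ⟨l, hl⟩ : ∃ l : ℝ, l = log (1 + log m) := ⟨_, rfl⟩
  rw [← hl] at hzR
  have hl0 : 0 ≤ l := by
    rw [hl]
    apply Real.log_nonneg
    have : 0 ≤ log (m : ℝ) := Real.log_natCast_nonneg m
    linarith
  have e1 : d1 hm (F (z i)) (F (z j)) ≤ 2 * l + 2 * C1 + 1 := by
    have h1 := d1_le_sh hm (F (z i)) (F (z j)) hs'
    have h2 := dist_cham_le (w1_pos m) (w1_le hm) ((RS1 hm).fold (F (z i)))
      ((RS1 hm).fold (F (z j))) ((RS1 hm).fold_mem _) ((RS1 hm).fold_mem _)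
    have h3 := hzR i
    have h4 := hzR j
    linarith
  have e2 : dist ((RS0 hm).fold (z i)) ((RS0 hm).fold (z j)) ≤ L * (2 * l + 2 * C1 + 1) := by
    have h1 : dist ((RS0 hm).fold (z i)) ((RS0 hm).fold (z j)) ≤ d0 hm (z i) (z j) :=
      fold_le_qd _ _ _ _
    have h2 := hF.lower (z i) (hzY i) (z j) (hzY j)
    have h3 := mul_le_mul_of_nonneg_left e1 (by linarith : (0 : ℝ) ≤ L)
    linarith
  have e3 : Ra ((RS0 hm).fold (z i)) ≤ 2 * (L * (2 * l + 2 * C1 + 1)) + C2 := by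
    have h1 := two ((RS0 hm).fold (z i)) ((RS0 hm).fold (z j)) _ _ (hθπ i) (hθπ j) hdist
      (hzH i) (hzH j)
    linarith
  have e4 : dist ((RS1 hm).fold (F (p (t i)))) ((RS1 hm).fold (F (z i))) ≤
      L * (2 * (L * (2 * l + 2 * C1 + 1)) + C2 + C1) := by
    have h1 : dist ((RS1 hm).fold (F (p (t i)))) ((RS1 hm).fold (F (z i))) ≤
        d1 hm (F (p (t i))) (F (z i)) := fold_le_qd _ _ _ _
    have h2 := hF.upper (p (t i)) (hpq.mem _ (ht i)) (z i) (hzY i)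
    have h3 : d0 hm (p (t i)) (z i) ≤ 2 * (L * (2 * l + 2 * C1 + 1)) + C2 + C1 := by
      have := htd i
      linarith
    have h4 := mul_le_mul_of_nonneg_left h3 (by linarith : (0 : ℝ) ≤ L)
    linarith
  have e5 : Ra ((RS1 hm).fold (F (p (t i)))) ≤
      l + C1 + L * (2 * (L * (2 * l + 2 * C1 + 1)) + C2 + C1) := by
    have h1 := (abs_le.mp (Ra_lip ((RS1 hm).fold (F (p (t i)))) ((RS1 hm).fold (F (z i))))).2
    have h2 := hzR i
    linarith
  have e6 := Ra_img hm hpq (t i) (ht i)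
  have e7 : log (w1 m) ≤ 2 - log m := by
    have hm0 : (0 : ℝ) < m := by
      have : 0 < m := by omega
      exact_mod_cast this
    have h1 : w1 m ≤ exp 2 / m := by
      unfold w1
      have h2 : 2 * π ≤ exp 2 := by
        have h3 := Real.pi_lt_d2
        have h4 : (2.7182818283 : ℝ) < exp 1 := Real.exp_one_gt_d9
        have h5 : exp 2 = exp 1 * exp 1 := by rw [← Real.exp_add]; norm_num
        rw [h5]
        nlinarith
      have h3 : (2 * π) / (m + 3) ≤ (2 * π) / m :=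
        div_le_div_of_nonneg_left (by positivity) hm0 (by linarith)
      have h4 : (2 * π) / m ≤ exp 2 / m := div_le_div_of_nonneg_right h2 hm0.le
      linarith
    have h2 := Real.log_le_log (w1_pos m) h1
    rw [Real.log_div (Real.exp_pos 2).ne' hm0.ne', Real.log_exp] at h2
    exact h2
  have e8 := hlog m hm3
  rw [← hl] at e8
  have e9 : L * (2 * (L * (2 * l + 2 * C1 + 1)) + C2 + C1) =
      4 * L ^ 2 * l + L * (2 * L * (2 * C1 + 1) + C2 + C1) := by ring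
  have e10 : 0 ≤ (6 + C1 + L * (2 * L * (2 * C1 + 1) + C2 + C1)) * l := by
    have : 0 ≤ L := by linarith
    positivity
  have e11 : 0 ≤ 1 + 4 * L ^ 2 := by positivity
  nlinarith

end CEE
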