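import Pool.Agent.CEE.X2

set_option autoImplicit false

/-!
# [CEE-L1a] The distance to the axis and the angle
-/

namespace CEE

open Pool.Agent.MP_8db1a4_gt Set Real

/-- horizontal part -/
noncomputable def hz (x : H3) : ℂ := ⟨x.val.1 0, x.val.1 1⟩

/-- distance to the axis `x₁ = x₂ = 0` -/
noncomputable def Ra (x : H3) : ℝ := arsinh ‖hz x‖

/-- direction -/
noncomputable def ee (x : H3) : ℂ := hz x / (‖hz x‖ : ℂ)

/- PROOF NOTES [CEE-L1a].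
`x.lor_self` gives `x₀² = 1 + ‖hz x‖² + x₃²` (`‖hz x‖² = x₁² + x₂²`: `Complex.sq_norm`, `Complex.normSq_apply`), `x₀ ≥ 1`.
`cosh_ge`: `cosh (dist x y) = - lor x y = x₀ y₀ - x₃ y₃ - dt (hz x) (hz y)`, and `(x₀ y₀ - x₃ y₃)² ≥ (x₀² - x₃²)(y₀² - y₃²) = (1 + ‖hz x‖²)(1 + ‖hz y‖²)` (`(x₀ y₃ - x₃ y₀)² ≥ 0`), `x₀ y₀ - x₃ y₃ > 0`.
`star`: `√((1+r²)(1+s²)) ≥ 1 + r s` (squares: `(r - s)² ≥ 0`).
`Ra_lip`: `dt ≤ r s` (Cauchy), so `cosh (dist x y) ≥ √((1+r²)(1+s²)) - r s = cosh (Ra x - Ra y)` (`Real.cosh_sub`, `Real.cosh_arsinh`, `Real.sinh_arsinh`), and `Real.cosh_le_cosh`.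
`star_ee`: `‖ee x - ee y‖² = 2 - 2 dt (hz x) (hz y)/(r s)` for `r, s > 0`. -/

theorem L1a_pos (x : H3) : 0 < x.val.2 := by
  have h := x.mem
  change ‖x.val.1‖ < x.val.2 at h
  exact lt_of_le_of_lt (norm_nonneg _) h

theorem L1a_dt_le (a b : ℂ) : dt a b ≤ ‖a‖ * ‖b‖ := by
  have n1 : ‖a‖ ^ 2 = a.re ^ 2 + a.im ^ 2 := by
    rw [← Complex.normSq_eq_norm_sq, Complex.normSq_apply]; ring
  have n2 : ‖b‖ ^ 2 = b.re ^ 2 + b.im ^ 2 := by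
    rw [← Complex.normSq_eq_norm_sq, Complex.normSq_apply]; ring
  have h1 : dt a b ^ 2 ≤ (‖a‖ * ‖b‖) ^ 2 := by
    unfold dt
    rw [mul_pow, n1, n2]
    nlinarith [sq_nonneg (a.re * b.im - a.im * b.re)]
  exact (abs_le_of_sq_le_sq' h1 (by positivity)).2

theorem norm_hz_sq (x : H3) : ‖hz x‖ ^ 2 = x.val.1 0 ^ 2 + x.val.1 1 ^ 2 := by
  rw [← Complex.normSq_eq_norm_sq, Complex.normSq_apply]
  simp only [hz]
  ring

theorem x0_sq (x : H3) : x.val.2 ^ 2 = 1 + ‖hz x‖ ^ 2 + x.val.1 2 ^ 2 := by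
  have h := x.lor_self
  rw [lor_eq] at h
  rw [norm_hz_sq]
  linarith [h]

theorem cosh_ge (x y : H3) :
    sqrt ((1 + ‖hz x‖ ^ 2) * (1 + ‖hz y‖ ^ 2)) - dt (hz x) (hz y) ≤ cosh (dist x y) := by
  have hx := x0_sq x
  have hy := x0_sq y
  have px := L1a_pos x
  have py := L1a_pos y
  have hc := cosh_dist x y
  rw [lor_eq] at hc
  have ax : |x.val.1 2| ≤ x.val.2 := by
    apply abs_le_of_sq_le_sq _ px.le
    nlinarith [sq_nonneg ‖hz x‖]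
  have ay : |y.val.1 2| ≤ y.val.2 := by
    apply abs_le_of_sq_le_sq _ py.le
    nlinarith [sq_nonneg ‖hz y‖]
  have h0 : x.val.1 2 * y.val.1 2 ≤ x.val.2 * y.val.2 := by
    calc x.val.1 2 * y.val.1 2 ≤ |x.val.1 2 * y.val.1 2| := le_abs_self _
      _ = |x.val.1 2| * |y.val.1 2| := abs_mul _ _
      _ ≤ x.val.2 * y.val.2 := mul_le_mul ax ay (abs_nonneg _) px.le
  have h1 : sqrt ((1 + ‖hz x‖ ^ 2) * (1 + ‖hz y‖ ^ 2)) ≤
      x.val.2 * y.val.2 - x.val.1 2 * y.val.1 2 := by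
    rw [Real.sqrt_le_iff]
    refine ⟨by linarith, ?_⟩
    have e1 : 1 + ‖hz x‖ ^ 2 = x.val.2 ^ 2 - x.val.1 2 ^ 2 := by linarith
    have e2 : 1 + ‖hz y‖ ^ 2 = y.val.2 ^ 2 - y.val.1 2 ^ 2 := by linarith
    rw [e1, e2]
    nlinarith [sq_nonneg (x.val.2 * y.val.1 2 - x.val.1 2 * y.val.2)]
  have h2 : dt (hz x) (hz y) = x.val.1 0 * y.val.1 0 + x.val.1 1 * y.val.1 1 := rfl
  rw [hc, h2]
  linarith

theorem star (x y : H3) : ‖hz x‖ * ‖hz y‖ - dt (hz x) (hz y) ≤ cosh (dist x y) - 1 := by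
  have h1 := cosh_ge x y
  have h2 : 1 + ‖hz x‖ * ‖hz y‖ ≤ sqrt ((1 + ‖hz x‖ ^ 2) * (1 + ‖hz y‖ ^ 2)) := by
    apply Real.le_sqrt_of_sq_le
    nlinarith [sq_nonneg (‖hz x‖ - ‖hz y‖)]
  linarith

theorem Ra_nonneg (x : H3) : 0 ≤ Ra x := by
  exact Real.arsinh_nonneg_iff.mpr (norm_nonneg _)

theorem sinh_Ra (x : H3) : sinh (Ra x) = ‖hz x‖ := by
  exact Real.sinh_arsinh _

theorem Ra_lip (x y : H3) : |Ra x - Ra y| ≤ dist x y := by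
  have h1 : cosh (Ra x - Ra y) ≤ cosh (dist x y) := by
    have h2 := cosh_ge x y
    have h3 := L1a_dt_le (hz x) (hz y)
    have h4 : sqrt ((1 + ‖hz x‖ ^ 2) * (1 + ‖hz y‖ ^ 2)) = cosh (Ra x) * cosh (Ra y) := by
      rw [Real.sqrt_mul (by positivity)]
      unfold Ra
      rw [Real.cosh_arsinh, Real.cosh_arsinh]
    rw [Real.cosh_sub, sinh_Ra, sinh_Ra, ← h4]
    linarith
  have h5 := Real.cosh_le_cosh.mp h1
  rwa [abs_of_nonneg (dist_nonneg : 0 ≤ dist x y)] at h5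

theorem star_ee (x y : H3) (hx : 0 < ‖hz x‖) (hy : 0 < ‖hz y‖) :
    ‖hz x‖ * ‖hz y‖ * ‖ee x - ee y‖ ^ 2 / 2 ≤ cosh (dist x y) - 1 := by
  have h1 := star x y
  obtain ⟨u1, hu1⟩ : ∃ u, u = (hz x).re / ‖hz x‖ := ⟨_, rfl⟩
  obtain ⟨u2, hu2⟩ : ∃ u, u = (hz x).im / ‖hz x‖ := ⟨_, rfl⟩
  obtain ⟨v1, hv1⟩ : ∃ u, u = (hz y).re / ‖hz y‖ := ⟨_, rfl⟩
  obtain ⟨v2, hv2⟩ : ∃ u, u = (hz y).im / ‖hz y‖ := ⟨_, rfl⟩
  have a1 : (hz x).re = u1 * ‖hz x‖ := by rw [hu1]; field_simp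
  have a2 : (hz x).im = u2 * ‖hz x‖ := by rw [hu2]; field_simp
  have b1 : (hz y).re = v1 * ‖hz y‖ := by rw [hv1]; field_simp
  have b2 : (hz y).im = v2 * ‖hz y‖ := by rw [hv2]; field_simp
  have n1 : ‖hz x‖ ^ 2 = (hz x).re ^ 2 + (hz x).im ^ 2 := by
    rw [← Complex.normSq_eq_norm_sq, Complex.normSq_apply]; ring
  have n2 : ‖hz y‖ ^ 2 = (hz y).re ^ 2 + (hz y).im ^ 2 := by
    rw [← Complex.normSq_eq_norm_sq, Complex.normSq_apply]; ring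
  have hu : u1 ^ 2 + u2 ^ 2 = 1 := by
    have h2 : ‖hz x‖ ^ 2 * (u1 ^ 2 + u2 ^ 2 - 1) = 0 := by
      rw [a1, a2] at n1
      linear_combination -n1
    have h3 : ‖hz x‖ ^ 2 ≠ 0 := by positivity
    have h4 := (mul_eq_zero.mp h2).resolve_left h3
    linarith
  have hv : v1 ^ 2 + v2 ^ 2 = 1 := by
    have h2 : ‖hz y‖ ^ 2 * (v1 ^ 2 + v2 ^ 2 - 1) = 0 := by
      rw [b1, b2] at n2
      linear_combination -n2
    have h3 : ‖hz y‖ ^ 2 ≠ 0 := by positivity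
    have h4 := (mul_eq_zero.mp h2).resolve_left h3
    linarith
  have e1 : ‖ee x - ee y‖ ^ 2 = (u1 - v1) ^ 2 + (u2 - v2) ^ 2 := by
    rw [← Complex.normSq_eq_norm_sq, Complex.normSq_apply]
    unfold ee
    rw [Complex.sub_re, Complex.sub_im, Complex.div_ofReal_re, Complex.div_ofReal_re,
      Complex.div_ofReal_im, Complex.div_ofReal_im, ← hu1, ← hu2, ← hv1, ← hv2]
    ring
  have e2 : ‖hz x‖ * ‖hz y‖ * ‖ee x - ee y‖ ^ 2 / 2 = ‖hz x‖ * ‖hz y‖ - dt (hz x) (hz y) := by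
    unfold dt
    rw [e1, a1, a2, b1, b2]
    linear_combination (‖hz x‖ * ‖hz y‖ / 2) * (hu + hv)
  rw [e2]
  exact h1

end CEE
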