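import Pool.Agent.CEE.L2a

set_option autoImplicit false

/-!
# [CEE-L2] Cylindrical coordinates
-/

namespace CEE

open Pool.Agent.MP_8db1a4_gt Set Real

/- PROOF NOTES [CEE-L2].
`exists_pt_of`: if `hz y = ‖hz y‖ * uu θ` then `y = pt θ (Ra y) h` with `sinh h = x₃/√(1 + ‖hz y‖²)` (`h = arsinh ..`), `x₀ = cosh (Ra y) cosh h` from `x.lor_self` and `x₀ > 0`.
`exists_pt_arg`: `hz y = ‖hz y‖ * uu (arg (hz y))` (`Complex.norm_mul_exp_arg_mul_I` or `Complex.cos_arg`, `Complex.sin_arg`; for `hz y = 0` both sides are `0`).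
`h_le`: `lor (pt θ ρ h).val (vT w) = cosh ρ (sinh h √(1+S) - cosh h √S) = cosh ρ sinh (h - u) ≤ 0` with `u = arsinh √S` (`cosh u = √(1+S)`), so `h ≤ u`; for `vB`: `- h ≤ u`.
`cosh_h_le`: `|h - h'| ≤ 2u`, `cosh 2u - 1 = 2 sinh² u = 2 S`.
`abs_h_sub_le`: `cosh (h - h') ≤ 1 + 2 S ≤ 5/4 ≤ cosh 1`.
`dist_cham_le`: `exists_pt_of` with `OnHP_arg` for `y` and `y'`, `dist_pt_le`, `Ra_pt`, `h_le` and `abs_h_sub_le` (the walls `T`, `B` of the chamber: `ev w m .T = vT w`). -/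

theorem l2_ext {X Y : V} (h0 : X.1 0 = Y.1 0) (h1 : X.1 1 = Y.1 1) (h2 : X.1 2 = Y.1 2)
    (h3 : X.2 = Y.2) : X = Y := by
  refine Prod.ext ?_ h3
  ext i
  fin_cases i
  · exact h0
  · exact h1
  · exact h2

theorem exists_pt_of (θ : ℝ) (y : H3) (hy : OnHP θ y) : ∃ h : ℝ, y = pt θ (Ra y) h := by
  have hR : 0 < 1 + ‖hz y‖ ^ 2 := by positivity
  have hs : 0 < sqrt (1 + ‖hz y‖ ^ 2) := Real.sqrt_pos.2 hR
  have hss : sqrt (1 + ‖hz y‖ ^ 2) ^ 2 = 1 + ‖hz y‖ ^ 2 := Real.sq_sqrt hR.le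
  have hch : cosh (Ra y) = sqrt (1 + ‖hz y‖ ^ 2) := Real.cosh_arsinh _
  have hsh : sinh (Ra y) = ‖hz y‖ := Real.sinh_arsinh _
  have hx0 : 0 < y.val.2 := lt_of_le_of_lt (norm_nonneg _) y.mem
  have hx := x0_sq y
  refine ⟨arsinh (y.val.1 2 / sqrt (1 + ‖hz y‖ ^ 2)), Hy.ext' ?_⟩
  rw [pt_val]
  unfold cyl
  have hre : (hz y).re = ‖hz y‖ * cos θ := by
    have h1 := congrArg Complex.re hy
    rw [Complex.re_ofReal_mul] at h1
    exact h1
  have him : (hz y).im = ‖hz y‖ * sin θ := by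
    have h1 := congrArg Complex.im hy
    rw [Complex.im_ofReal_mul] at h1
    exact h1
  apply l2_ext
  · rw [vec_0, hsh]
    exact hre
  · rw [vec_1, hsh]
    exact him
  · rw [vec_2, hch, Real.sinh_arsinh, mul_div_cancel₀ _ hs.ne']
  · rw [vec_3, hch, Real.cosh_arsinh, ← Real.sqrt_mul hR.le]
    have h1 : (1 + ‖hz y‖ ^ 2) * (1 + (y.val.1 2 / sqrt (1 + ‖hz y‖ ^ 2)) ^ 2) = y.val.2 ^ 2 := by
      rw [div_pow, hss, hx]
      field_simp
    rw [h1, Real.sqrt_sq hx0.le]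

theorem OnHP_arg (y : H3) : OnHP (Complex.arg (hz y)) y := by
  unfold OnHP
  rcases eq_or_ne (hz y) 0 with h0 | h0
  · rw [h0]
    simp
  · have hn : ‖hz y‖ ≠ 0 := norm_ne_zero_iff.2 h0
    apply Complex.ext
    · rw [Complex.re_ofReal_mul]
      show (hz y).re = ‖hz y‖ * cos (Complex.arg (hz y))
      rw [Complex.cos_arg h0, mul_div_cancel₀ _ hn]
    · rw [Complex.im_ofReal_mul]
      show (hz y).im = ‖hz y‖ * sin (Complex.arg (hz y))
      rw [Complex.sin_arg, mul_div_cancel₀ _ hn]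

theorem h_le {w : ℝ} (h0 : 0 < w) (h1 : w ≤ 1 / 2) (θ ρ h : ℝ)
    (hT : lor (pt θ ρ h).val (vT w) ≤ 0) (hB : lor (pt θ ρ h).val (vB w) ≤ 0) :
    |h| ≤ arsinh (sqrt (Sv w)) := by
  have hS := Sv_pos h0 h1
  have hsu : sinh (arsinh (sqrt (Sv w))) = sqrt (Sv w) := Real.sinh_arsinh _
  have hcu : cosh (arsinh (sqrt (Sv w))) = sqrt (1 + Sv w) := by
    rw [Real.cosh_arsinh, Real.sq_sqrt hS.le]
  have hc := Real.cosh_pos ρ
  rw [pt_val, lor_eq] at hT hB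
  unfold cyl vT at hT
  unfold cyl vB at hB
  simp only [vec_0, vec_1, vec_2, vec_3] at hT hB
  have e1 : sinh (h - arsinh (sqrt (Sv w))) ≤ 0 := by
    rw [Real.sinh_sub, hsu, hcu]
    have h5 : cosh ρ * (sinh h * sqrt (1 + Sv w) - cosh h * sqrt (Sv w)) ≤ 0 := by linarith
    by_contra hcon
    push Not at hcon
    have := mul_pos hc hcon
    linarith
  have e2 : sinh (-h - arsinh (sqrt (Sv w))) ≤ 0 := by
    rw [Real.sinh_sub, hsu, hcu, Real.sinh_neg, Real.cosh_neg]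
    have h5 : cosh ρ * (-sinh h * sqrt (1 + Sv w) - cosh h * sqrt (Sv w)) ≤ 0 := by linarith
    by_contra hcon
    push Not at hcon
    have := mul_pos hc hcon
    linarith
  rw [Real.sinh_nonpos_iff] at e1 e2
  rw [abs_le]
  constructor <;> linarith

theorem cosh_h_le {w : ℝ} (h0 : 0 < w) (h1 : w ≤ 1 / 2) (h h' : ℝ)
    (hh : |h| ≤ arsinh (sqrt (Sv w))) (hh' : |h'| ≤ arsinh (sqrt (Sv w))) :
    cosh (h - h') ≤ 1 + 2 * Sv w := by
  have hS := Sv_pos h0 h1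
  have hsu : sinh (arsinh (sqrt (Sv w))) = sqrt (Sv w) := Real.sinh_arsinh _
  have hu : 0 ≤ arsinh (sqrt (Sv w)) := Real.arsinh_nonneg_iff.2 (Real.sqrt_nonneg _)
  have h2 : |h - h'| ≤ |2 * arsinh (sqrt (Sv w))| := by
    rw [abs_of_nonneg (by linarith : 0 ≤ 2 * arsinh (sqrt (Sv w)))]
    have h3 := abs_sub h h'
    linarith
  have h3 := Real.cosh_le_cosh.2 h2
  have h4 : cosh (2 * arsinh (sqrt (Sv w))) = 1 + 2 * Sv w := by
    rw [Real.cosh_two_mul, Real.cosh_sq, hsu, Real.sq_sqrt hS.le]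
    ring
  rwa [h4] at h3

theorem abs_h_sub_le {w : ℝ} (h0 : 0 < w) (h1 : w ≤ 1 / 2) (h h' : ℝ)
    (hh : |h| ≤ arsinh (sqrt (Sv w))) (hh' : |h'| ≤ arsinh (sqrt (Sv w))) :
    |h - h'| ≤ 1 := by
  have h2 := cosh_h_le h0 h1 h h' hh hh'
  have h3 := Sv_le h0 h1
  have h4 : cosh (h - h') ≤ cosh 1 := by
    have h5 := Real.exp_one_gt_d9
    have h6 := Real.exp_pos (-1)
    rw [Real.cosh_eq 1]
    linarith
  have h5 := Real.cosh_le_cosh.1 h4
  rwa [abs_one] at h5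

/-- a point of the chamber at the distance `ρ`, in cylindrical coordinates -/
theorem dist_cham_le {m : ℕ} {w : ℝ} (h0 : 0 < w) (h1 : w ≤ 1 / 2) (y y' : H3)
    (hy : y ∈ cham (ev w m)) (hy' : y' ∈ cham (ev w m)) : dist y y' ≤ Ra y + Ra y' + 1 := by
  obtain ⟨h, hh⟩ := exists_pt_of _ y (OnHP_arg y)
  obtain ⟨h', hh'⟩ := exists_pt_of _ y' (OnHP_arg y')
  have a1 : |h| ≤ arsinh (sqrt (Sv w)) := by
    apply h_le h0 h1 (Complex.arg (hz y)) (Ra y) h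
    · rw [← hh]
      exact hy .T
    · rw [← hh]
      exact hy .B
  have a2 : |h'| ≤ arsinh (sqrt (Sv w)) := by
    apply h_le h0 h1 (Complex.arg (hz y')) (Ra y') h'
    · rw [← hh']
      exact hy' .T
    · rw [← hh']
      exact hy' .B
  have a3 := abs_h_sub_le h0 h1 h h' a1 a2
  have a4 := dist_pt_le (Complex.arg (hz y)) (Ra y) h (Complex.arg (hz y')) (Ra y') h'
    (Ra_nonneg y) (Ra_nonneg y')
  rw [← hh, ← hh'] at a4
  linarith

end CEE
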