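import Pool.Agent.CEE.P1

set_option autoImplicit false

/-!
# [CEE-L3a] The block radius: numbers
-/

namespace CEE

open Set Real

/-- the block radius: `sinh² = (1+S)/(S(8S+7))` -/
noncomputable def rs (w : ℝ) : ℝ := arsinh (sqrt ((1 + Sv w) / (Sv w * (8 * Sv w + 7))))

/- PROOF NOTES [CEE-L3a].  `S = Sv w`, `E = 8S²+8S+1`, `0 < S ≤ 1/8`.
`cosh_rs_sq`: `cosh² = 1 + sinh²`.  `q_sinh_rs`: `q² sinh² = E/(8S(1+S)) · (1+S)/(S(8S+7)) = E/(8 S² (8S+7)) = p² cosh²`, both sides positive.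
`q_sinh_le`: `tanh` is increasing: `q sinh s cosh rs ≤ q sinh rs cosh s = p cosh rs cosh s` (`sinh (rs - s) ≥ 0`).
`sinh_rs_ge`: `sinh² rs ≥ 1/(8S) ≥ 1/(4w²)` (`Sv_le_sq`), so `sinh rs ≥ 1/(2w)`.  `sinh_rs_le`: `sinh² rs ≤ 1/(7S)`.
`rs_ge`: `exp rs ≥ 2 sinh rs ≥ 1/w`.  `rs_le`: `exp rs ≤ 1 + 2 sinh rs`, `sinh rs ≤ √(30/(7w²)) ≤ 2.1/w` (`Sv_ge_sq`), so `exp rs ≤ 5/w ≤ exp 2 / w`.
`p_cosh`: `(p cosh rs (1 - cos w))² = E/(8 S² (8S+7)) · (8S²+6S)²/E² = (8S+6)²/(8 E (8S+7)) ≤ 49/56` (`one_sub_cos`, `E ≥ 1`). -/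

theorem L3a_E {w : ℝ} : Ev w = 8 * Sv w ^ 2 + 8 * Sv w + 1 := rfl

theorem rs_pos {w : ℝ} (h0 : 0 < w) (h1 : w ≤ 1 / 2) : 0 < rs w := by
  have h := Sv_pos h0 h1
  unfold rs
  rw [Real.arsinh_pos_iff]
  positivity

theorem sinh_rs_sq {w : ℝ} (h0 : 0 < w) (h1 : w ≤ 1 / 2) :
    sinh (rs w) ^ 2 = (1 + Sv w) / (Sv w * (8 * Sv w + 7)) := by
  have h := Sv_pos h0 h1
  unfold rs
  rw [Real.sinh_arsinh, Real.sq_sqrt (by positivity)]

theorem cosh_rs_sq {w : ℝ} (h0 : 0 < w) (h1 : w ≤ 1 / 2) :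
    cosh (rs w) ^ 2 = Ev w / (Sv w * (8 * Sv w + 7)) := by
  have h := Sv_pos h0 h1
  rw [Real.cosh_sq, sinh_rs_sq h0 h1, L3a_E]
  field_simp
  ring

theorem L3a_sinh_pos {w : ℝ} (h0 : 0 < w) (h1 : w ≤ 1 / 2) : 0 < sinh (rs w) :=
  Real.sinh_pos_iff.2 (rs_pos h0 h1)

theorem q_sinh_rs {w : ℝ} (h0 : 0 < w) (h1 : w ≤ 1 / 2) :
    qv w * sinh (rs w) = pv w * cosh (rs w) := by
  have h := Sv_pos h0 h1
  have hq := qv_pos h0 h1
  have hp := pv_pos h0 h1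
  have hs := L3a_sinh_pos h0 h1
  have hc := Real.cosh_pos (rs w)
  rw [← pow_left_inj₀ (by positivity) (by positivity) two_ne_zero, mul_pow, mul_pow, qv_sq h0 h1,
    pv_sq h0 h1, sinh_rs_sq h0 h1, cosh_rs_sq h0 h1]
  field_simp

theorem q_sinh_le {w : ℝ} (h0 : 0 < w) (h1 : w ≤ 1 / 2) (s : ℝ) (hs : s ≤ rs w) :
    qv w * sinh s ≤ pv w * cosh s := by
  have hq := qv_pos h0 h1
  have hc := Real.cosh_pos (rs w)
  have h2 := q_sinh_rs h0 h1
  have h3 : 0 ≤ sinh (rs w - s) := Real.sinh_nonneg_iff.2 (by linarith)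
  rw [Real.sinh_sub] at h3
  have h4 := mul_nonneg hq.le h3
  have h5 : qv w * sinh s * cosh (rs w) ≤ pv w * cosh s * cosh (rs w) := by
    have h6 : qv w * (sinh (rs w) * cosh s - cosh (rs w) * sinh s) =
        (qv w * sinh (rs w)) * cosh s - qv w * sinh s * cosh (rs w) := by ring
    rw [h6, h2] at h4
    linarith
  exact le_of_mul_le_mul_right h5 hc

theorem sinh_rs_ge {w : ℝ} (h0 : 0 < w) (h1 : w ≤ 1 / 2) : 1 / (2 * w) ≤ sinh (rs w) := by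
  have h := Sv_pos h0 h1
  have hs := L3a_sinh_pos h0 h1
  have h2 := Sv_le_sq h0 h1
  have h3 : 0 ≤ 1 / (2 * w) := by positivity
  rw [← pow_le_pow_iff_left₀ h3 hs.le two_ne_zero, sinh_rs_sq h0 h1, div_pow, one_pow, mul_pow,
    div_le_div_iff₀ (by positivity) (by positivity)]
  have h4 : (1 + Sv w) * (2 * Sv w) ≤ (1 + Sv w) * w ^ 2 :=
    mul_le_mul_of_nonneg_left (by linarith) (by linarith)
  nlinarith

theorem sinh_rs_sq_le {w : ℝ} (h0 : 0 < w) (h1 : w ≤ 1 / 2) :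
    sinh (rs w) ^ 2 ≤ 1 / (7 * Sv w) := by
  have h := Sv_pos h0 h1
  rw [sinh_rs_sq h0 h1, div_le_div_iff₀ (by positivity) (by positivity)]
  nlinarith

theorem rs_ge {w : ℝ} (h0 : 0 < w) (h1 : w ≤ 1 / 2) : -log w ≤ rs w := by
  have h2 := sinh_rs_ge h0 h1
  have h3 := Real.sinh_lt_cosh (rs w)
  have h4 := Real.cosh_add_sinh (rs w)
  have h5 : w⁻¹ ≤ exp (rs w) := by
    have h6 : 1 / (2 * w) * 2 = w⁻¹ := by field_simp
    linarith
  rw [← Real.log_inv]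
  calc log w⁻¹ ≤ log (exp (rs w)) := Real.log_le_log (by positivity) h5
    _ = rs w := Real.log_exp _

theorem rs_le {w : ℝ} (h0 : 0 < w) (h1 : w ≤ 1 / 2) : rs w ≤ 2 - log w := by
  have h := Sv_pos h0 h1
  have hs := L3a_sinh_pos h0 h1
  have hc := Real.cosh_pos (rs w)
  have h2 := sinh_rs_sq_le h0 h1
  have h3 := Sv_ge_sq h0 h1
  have h4 := Real.cosh_add_sinh (rs w)
  have h5 : cosh (rs w) ≤ 1 + sinh (rs w) := by
    have h6 := Real.cosh_sq (rs w)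
    rw [← pow_le_pow_iff_left₀ hc.le (by positivity) two_ne_zero, h6]
    nlinarith
  have h7 : sinh (rs w) ≤ 21 / (10 * w) := by
    rw [← pow_le_pow_iff_left₀ hs.le (by positivity) two_ne_zero]
    refine h2.trans ?_
    rw [div_pow, mul_pow, div_le_div_iff₀ (by positivity) (by positivity)]
    nlinarith
  have h8 : exp (rs w) ≤ 5 / w := by
    have h9 : 1 ≤ (1 / 2) / w := by
      rw [le_div_iff₀ h0]
      linarith
    have h10 : 21 / (10 * w) * 2 = (21 / 5) / w := by field_simp; norm_num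
    have h11 : (1 / 2) / w + (21 / 5) / w ≤ 5 / w := by
      rw [← add_div]
      exact div_le_div_of_nonneg_right (by norm_num) h0.le
    linarith
  have h9 : (5 : ℝ) ≤ exp 2 := by
    have h10 := Real.exp_one_gt_d9
    have h11 : exp 2 = exp 1 * exp 1 := by rw [← Real.exp_add]; norm_num
    rw [h11]
    nlinarith
  have h10 : exp (rs w) ≤ exp (2 - log w) := by
    rw [Real.exp_sub, Real.exp_log h0]
    exact h8.trans (div_le_div_of_nonneg_right h9 h0.le)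
  exact Real.exp_le_exp.1 h10

theorem p_cosh {w : ℝ} (h0 : 0 < w) (h1 : w ≤ 1 / 2) :
    pv w * cosh (rs w) * (1 - cos w) ≤ 1 := by
  have h := Sv_pos h0 h1
  have hE := p1_Ev_pos h
  have hp := pv_pos h0 h1
  have hc := Real.cosh_pos (rs w)
  have h2 := one_sub_cos h0 h1
  have h3 : 0 < 1 - cos w := by linarith [cos_lt h0 h1]
  have h4 : 1 - cos w = (8 * Sv w ^ 2 + 6 * Sv w) / Ev w := by
    rw [eq_div_iff hE.ne']
    exact h2
  have h5 : (pv w * cosh (rs w) * (1 - cos w)) ^ 2 ≤ 1 ^ 2 := by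
    rw [mul_pow, mul_pow, pv_sq h0 h1, cosh_rs_sq h0 h1, h4, div_pow]
    have h6 : 1 / (8 * Sv w) * (Ev w / (Sv w * (8 * Sv w + 7))) *
        ((8 * Sv w ^ 2 + 6 * Sv w) ^ 2 / Ev w ^ 2) =
        (8 * Sv w + 6) ^ 2 / (8 * (8 * Sv w + 7) * Ev w) := by
      field_simp
    rw [h6, div_le_iff₀ (by positivity), L3a_E]
    have h7 : 0 < Sv w ^ 3 := by positivity
    nlinarith
  exact (pow_le_pow_iff_left₀ (by positivity) zero_le_one two_ne_zero).1 h5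

end CEE
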