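import Pool.Agent.CEE.L2
import Pool.Agent.CEE.L3a
import Pool.Agent.CEE.Y3b

set_option autoImplicit false

/-!
# [CEE-L3] The block points
-/

namespace CEE

open Pool.Agent.MP_8db1a4_gt Set Real

/- PROOF NOTES [CEE-L3].  `S = Sv w`, `E = 8S²+8S+1`, `0 < S ≤ 1/8`.
`lor_a_T`: `lor (pt θ rs 0).val (vT w) = - cosh rs √S`, `cosh² rs · S = E/(8S+7) ≤ 1`; the same for `vB`.
`lor_a_G`: `q sinh rs cos (θ - i w) - p cosh rs` and `q_sinh_rs`.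
`pt_mem_cham`: `T, B`: `- cosh s √S ≤ 0`; `G i`: `q sinh s cos (..) + .. - p cosh s ≤ q sinh s - p cosh s ≤ 0` (`x₃ = 0`).
`pt_mem_D0`: moreover `lor (pt θ s 0) vF = - sinh s sin θ ≤ 0`.
`cosh_a`: `cosh_pt`.
`Ra_D0_le`: `cosh (Ra y)² ≤ x₀² ≤ 1/S ≤ 30/w²` (`D0_bound`, `x0_sq`), `exp (Ra y) ≤ 2 cosh (Ra y) ≤ 11/w ≤ exp 3 / w`.
`dist_h_D0`: `cosh_pt_h`; `cosh h ≤ 1 + 2 S` (`h_le`, `cosh_h_le` with `h' = 0`), `cosh² ρ ≤ (cosh ρ cosh h)² = x₀² ≤ 1/S` (`D0_bound`): `cosh (dist) ≤ 3 ≤ cosh 2`. -/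

theorem l3_vals (θ s : ℝ) : (pt θ s 0).val.1 0 = sinh s * cos θ ∧
    (pt θ s 0).val.1 1 = sinh s * sin θ ∧ (pt θ s 0).val.1 2 = 0 ∧ (pt θ s 0).val.2 = cosh s := by
  rw [pt_val]
  unfold cyl
  rw [vec_0, vec_1, vec_2, vec_3, sinh_zero, cosh_zero, mul_zero, mul_one]
  exact ⟨rfl, rfl, rfl, rfl⟩

theorem l3_T (w θ s : ℝ) : lor (pt θ s 0).val (vT w) = -(cosh s * sqrt (Sv w)) := by
  obtain ⟨e0, e1, e2, e3⟩ := l3_vals θ s
  rw [lor_eq, e0, e1, e2, e3]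
  simp only [vT, vec_0, vec_1, vec_2, vec_3]
  ring

theorem l3_B (w θ s : ℝ) : lor (pt θ s 0).val (vB w) = -(cosh s * sqrt (Sv w)) := by
  obtain ⟨e0, e1, e2, e3⟩ := l3_vals θ s
  rw [lor_eq, e0, e1, e2, e3]
  simp only [vB, vec_0, vec_1, vec_2, vec_3]
  ring

theorem l3_G (w θ s : ℝ) (i : ℕ) : lor (pt θ s 0).val (vG w i) =
    qv w * sinh s * cos (θ - i * w) - pv w * cosh s := by
  obtain ⟨e0, e1, e2, e3⟩ := l3_vals θ s
  rw [lor_eq, e0, e1, e2, e3, cos_sub]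
  simp only [vG, vec_0, vec_1, vec_2, vec_3]
  ring

theorem l3_abs {w : ℝ} (h0 : 0 < w) (h1 : w ≤ 1 / 2) :
    |-(cosh (rs w) * sqrt (Sv w))| ≤ 1 := by
  have hS := Sv_pos h0 h1
  have hS8 := Sv_le h0 h1
  rw [abs_le_one_iff_mul_self_le_one]
  have h2 : -(cosh (rs w) * sqrt (Sv w)) * -(cosh (rs w) * sqrt (Sv w)) =
      cosh (rs w) ^ 2 * (sqrt (Sv w) * sqrt (Sv w)) := by ring
  rw [h2, Real.mul_self_sqrt hS.le, cosh_rs_sq h0 h1, div_mul_eq_mul_div, div_le_one (by positivity)]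
  unfold Ev
  nlinarith

theorem l3_exp_three : (11 : ℝ) ≤ exp 3 := by
  have h := Real.exp_one_gt_d9
  have h2 : exp 3 = exp 1 * exp 1 * exp 1 := by
    rw [← Real.exp_add, ← Real.exp_add]
    norm_num
  rw [h2]
  have h3 : (2.7 : ℝ) ≤ exp 1 := by linarith
  have h4 : (2.7 : ℝ) * 2.7 ≤ exp 1 * exp 1 := mul_le_mul h3 h3 (by norm_num) (by positivity)
  have h5 : (2.7 : ℝ) * 2.7 * 2.7 ≤ exp 1 * exp 1 * exp 1 :=
    mul_le_mul h4 h3 (by norm_num) (by positivity)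
  linarith

theorem l3_cosh_two : (3 : ℝ) ≤ cosh 2 := by
  have h := Real.exp_one_gt_d9
  have h2 : exp 2 = exp 1 * exp 1 := by
    rw [← Real.exp_add]
    norm_num
  have h3 : (2.7 : ℝ) ≤ exp 1 := by linarith
  have h4 : (2.7 : ℝ) * 2.7 ≤ exp 1 * exp 1 := mul_le_mul h3 h3 (by norm_num) (by positivity)
  have h5 := Real.exp_pos (-2 : ℝ)
  rw [Real.cosh_eq, h2]
  linarith

theorem lor_a_T {w : ℝ} (h0 : 0 < w) (h1 : w ≤ 1 / 2) (θ : ℝ) :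
    |lor (pt θ (rs w) 0).val (vT w)| ≤ 1 := by
  rw [l3_T]
  exact l3_abs h0 h1

theorem lor_a_B {w : ℝ} (h0 : 0 < w) (h1 : w ≤ 1 / 2) (θ : ℝ) :
    |lor (pt θ (rs w) 0).val (vB w)| ≤ 1 := by
  rw [l3_B]
  exact l3_abs h0 h1

theorem lor_a_G {w : ℝ} (h0 : 0 < w) (h1 : w ≤ 1 / 2) (θ : ℝ) (i : ℕ) :
    lor (pt θ (rs w) 0).val (vG w i) = -(pv w * cosh (rs w) * (1 - cos (θ - i * w))) := by
  rw [l3_G, q_sinh_rs h0 h1]
  ring

theorem pt_mem_cham {w : ℝ} (h0 : 0 < w) (h1 : w ≤ 1 / 2) (m : ℕ) (θ s : ℝ) (hs : 0 ≤ s)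
    (hs' : s ≤ rs w) : pt θ s 0 ∈ cham (ev w m) := by
  have hS := Sv_pos h0 h1
  intro g
  cases g with
  | T =>
    show lor (pt θ s 0).val (vT w) ≤ 0
    rw [l3_T]
    have := mul_nonneg (cosh_pos s).le (sqrt_nonneg (Sv w))
    linarith
  | B =>
    show lor (pt θ s 0).val (vB w) ≤ 0
    rw [l3_B]
    have := mul_nonneg (cosh_pos s).le (sqrt_nonneg (Sv w))
    linarith
  | G i =>
    show lor (pt θ s 0).val (vG w i.val) ≤ 0
    rw [l3_G]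
    have h2 := q_sinh_le h0 h1 s hs'
    have h3 : 0 ≤ qv w * sinh s := mul_nonneg (qv_pos h0 h1).le (Real.sinh_nonneg_iff.2 hs)
    have h4 := mul_le_mul_of_nonneg_left (Real.cos_le_one (θ - i.val * w)) h3
    linarith

theorem pt_mem_D0 {m : ℕ} (hm : 13 ≤ m) (θ s : ℝ) (hθ : θ ∈ Icc 0 π) (hs : 0 ≤ s)
    (hs' : s ≤ rs (w0 m)) : pt θ s 0 ∈ D0 m := by
  refine ⟨pt_mem_cham (w0_pos hm) (w0_le hm) m θ s hs hs', ?_⟩
  intro v hv
  have hv' : v = vF := hv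
  obtain ⟨e0, e1, e2, e3⟩ := l3_vals θ s
  rw [hv', lor_eq, e0, e1, e2, e3]
  simp only [vF, vec_0, vec_1, vec_2, vec_3]
  have := mul_nonneg (Real.sinh_nonneg_iff.2 hs) (Real.sin_nonneg_of_nonneg_of_le_pi hθ.1 hθ.2)
  linarith

theorem cosh_a (w θ θ' : ℝ) : cosh (dist (pt θ (rs w) 0) (pt θ' (rs w) 0)) =
    1 + sinh (rs w) ^ 2 * (1 - cos (θ - θ')) := by
  rw [cosh_pt, sub_zero, cosh_zero]
  have := Real.cosh_sq (rs w)
  linear_combination this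

theorem Ra_D0_le {m : ℕ} (hm : 13 ≤ m) (y : H3) (hy : y ∈ D0 m) : Ra y ≤ 3 - log (w0 m) := by
  have hw := w0_pos hm
  have hw1 := w0_le hm
  have hS := Sv_pos hw hw1
  have h1 := D0_bound hm y hy
  have h2 := x0_sq y
  have h3 : cosh (Ra y) ^ 2 ≤ 1 / Sv (w0 m) := by
    rw [Real.cosh_sq, sinh_Ra]
    have := sq_nonneg (y.val.1 2)
    linarith
  have h4 := Sv_ge_sq hw hw1
  have h5 : (cosh (Ra y) * w0 m) ^ 2 ≤ 5.5 ^ 2 := by
    rw [mul_pow]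
    rw [le_div_iff₀ hS] at h3
    have h6 := mul_le_mul_of_nonneg_left h4 (sq_nonneg (cosh (Ra y)))
    nlinarith
  have h6 : cosh (Ra y) * w0 m ≤ 5.5 := by
    have := abs_le_of_sq_le_sq h5 (by norm_num)
    exact (le_abs_self _).trans this
  have h7 : exp (Ra y) ≤ 2 * cosh (Ra y) := by
    rw [Real.cosh_eq]
    have := Real.exp_pos (-Ra y)
    linarith
  have h8 : exp (Ra y) ≤ exp (3 - log (w0 m)) := by
    rw [Real.exp_sub, Real.exp_log hw, le_div_iff₀ hw]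
    have h9 := mul_le_mul_of_nonneg_right h7 hw.le
    have h10 := l3_exp_three
    linarith
  exact Real.exp_le_exp.1 h8

/-- inside `D0`, the height coordinate costs a bounded distance -/
theorem dist_h_D0 {m : ℕ} (hm : 13 ≤ m) (θ ρ h : ℝ) (hy : pt θ ρ h ∈ D0 m) :
    dist (pt θ ρ h) (pt θ ρ 0) ≤ 2 := by
  have hw := w0_pos hm
  have hw1 := w0_le hm
  have hS := Sv_pos hw hw1
  have h1 := D0_bound hm _ hy
  have hT : lor (pt θ ρ h).val (vT (w0 m)) ≤ 0 := hy.1 .T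
  have hB : lor (pt θ ρ h).val (vB (w0 m)) ≤ 0 := hy.1 .B
  have h2 := h_le hw hw1 θ ρ h hT hB
  have h3 := cosh_h_le hw hw1 h 0 h2 (by
    rw [abs_zero]
    exact Real.arsinh_nonneg_iff.2 (sqrt_nonneg _))
  have h4 : (pt θ ρ h).val.2 = cosh ρ * cosh h := by
    rw [pt_val]
    unfold cyl
    rw [vec_3]
  rw [h4, mul_pow] at h1
  have h5 : 1 ≤ cosh h ^ 2 := by
    have := Real.one_le_cosh h
    nlinarith
  have h6 : cosh ρ ^ 2 ≤ 1 / Sv (w0 m) := by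
    have := mul_le_mul_of_nonneg_left h5 (sq_nonneg (cosh ρ))
    linarith
  have h7 : cosh (dist (pt θ ρ h) (pt θ ρ 0)) ≤ 3 := by
    rw [cosh_pt_h]
    have h8 : cosh ρ ^ 2 * (cosh (h - 0) - 1) ≤ 1 / Sv (w0 m) * (2 * Sv (w0 m)) := by
      apply mul_le_mul h6 (by linarith) _ (by positivity)
      have := Real.one_le_cosh (h - 0)
      linarith
    have h9 : 1 / Sv (w0 m) * (2 * Sv (w0 m)) = 2 := by
      field_simp
    linarith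
  have h8 := Real.cosh_le_cosh.1 (h7.trans l3_cosh_two)
  rw [abs_of_nonneg dist_nonneg, abs_of_nonneg (by norm_num : (0 : ℝ) ≤ 2)] at h8
  exact h8

end CEE
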