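import Pool.Agent.CEE.L4

set_option autoImplicit false

/-!
# [CEE-L5] Distances on the ring
-/

namespace CEE

open Pool.Agent.MP_8db1a4_gt Set Real

/-- cyclic distance on `{0, …, n-1}` -/
def cyc (n t s : ℕ) : ℕ := min (t - s + (s - t)) (n - (t - s + (s - t)))

/- PROOF NOTES [CEE-L5].  `w = w1 m`, `(m+3) w = 2π`.  `t - s + (s - t) = |t - s|` in `ℕ`.
`dist_succ`: `cosh (dist) = 1 + sinh² rs (1 - cos w)` (`cosh_a`), `sinh² rs ≤ 1/(7S)`, `1 - cos w ≤ 6 S` (`one_sub_cos_le`): `≤ 1 + 6/7 ≤ cosh 4`.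
`dist_wrap`: the angles are `(m-1) w` and `w`: `cos ((m-2) w) = cos (2π - 5w) = cos (5w)`; `1 - cos (5w) ≤ 25 (1 - cos w)` (`1 - cos (n w) ≤ n² (1 - cos w)`; e.g. `sin² (5x) ≤ 25 sin² x`, `|sin (n x)| ≤ n |sin x|` by induction), so `cosh (dist) ≤ 1 + 150/7 ≤ 23 ≤ cosh 4` (`cosh 4 ≥ exp 4 / 2 ≥ 27`).
`one_sub_cos_ring`: `j = |t - s| ≤ m - 2`, `x = j w ∈ [0, 2π)`; if `x ≤ π`: `1 - cos x ≥ 2 x²/π² ` (`Real.cos_le_one_sub_mul_cos_sq`; or `1 - cos x = 2 sin² (x/2)`, `sin (x/2) ≥ (2/π)(x/2)`: `Real.mul_le_sin`) and `x = j w ≥ cyc · w`; otherwise `1 - cos x = 1 - cos (2π - x)`, `2π - x = (m + 3 - j) w ≥ (m - 1 - j) w ≥ cyc · w`, `2π - x ≤ π`.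
`cyc_le`: `cosh (dist) - 1 = sinh² rs (1 - cos) ≥ 1/(4w²) · 2 (cyc w)²/π² = cyc²/(2π²) ≥ cyc²/20` (`sinh_rs_ge`, `π² ≤ 10`).
`ee_ring`: `‖uu a - uu b‖² = 2 (1 - cos (a - b)) ≥ 4 (cyc w)²/π²`, and `cyc w ≥ ((m-1)/20) · 2π/(m+3)`, `(m-1)/(m+3) ≥ 3/4`: `‖..‖ ≥ (2/π) · (2π/20) · (3/4) = 3/20 ≥ 1/8`.
`sep_cyc`: `pq_lower`, `cyc_le`, `cosh x ≤ exp x`, `d0 ≤ D`. -/

theorem l5_dist_le_four {a b : H3} (h : cosh (dist a b) ≤ 23) : dist a b ≤ 4 := by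
  have h5 := Real.exp_one_gt_d9
  have h6 := Real.exp_pos (-4)
  have h7 : exp 4 = exp 1 * exp 1 * (exp 1 * exp 1) := by
    rw [← Real.exp_add, ← Real.exp_add]
    norm_num
  have h8 : 7 ≤ exp 1 * exp 1 := by nlinarith
  have h9 : 49 ≤ exp 4 := by
    rw [h7]
    nlinarith
  have h10 : cosh (dist a b) ≤ cosh 4 := by
    rw [Real.cosh_eq 4]
    have h11 : 46 ≤ exp 4 := by linarith
    linarith
  have h4 := Real.cosh_le_cosh.1 h10
  rw [abs_of_nonneg dist_nonneg, abs_of_nonneg (by norm_num : (0 : ℝ) ≤ 4)] at h4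
  exact h4

theorem dist_succ {m : ℕ} (hm : 13 ≤ m) (t : ℕ) : dist (aT m t) (aT m (t + 1)) ≤ 4 := by
  have hw := w1_pos m
  have hl := w1_le hm
  have hS := Sv_pos hw hl
  apply l5_dist_le_four
  unfold aT
  rw [cosh_a]
  have h1 : ((t : ℝ) + 1) * w1 m - (((t + 1 : ℕ) : ℝ) + 1) * w1 m = -w1 m := by
    push_cast
    ring
  rw [h1, Real.cos_neg]
  have h2 := sinh_rs_sq_le hw hl
  have h3 := one_sub_cos_le hw hl
  have h4 := Real.cos_le_one (w1 m)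
  have h5 : sinh (rs (w1 m)) ^ 2 * (1 - cos (w1 m)) ≤ 1 / (7 * Sv (w1 m)) * (6 * Sv (w1 m)) :=
    mul_le_mul h2 h3 (by linarith) (by positivity)
  have h6 : 1 / (7 * Sv (w1 m)) * (6 * Sv (w1 m)) = 6 / 7 := by
    field_simp
  rw [h6] at h5
  linarith

theorem l5_cos_five (x : ℝ) (h : 0 ≤ cos x) : 1 - cos (5 * x) ≤ 25 * (1 - cos x) := by
  have h1 : cos (5 * x) = 16 * cos x ^ 5 - 20 * cos x ^ 3 + 5 * cos x := by
    have h2 : 5 * x = 2 * x + 3 * x := by ring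
    rw [h2, Real.cos_add, Real.cos_two_mul, Real.sin_two_mul, Real.cos_three_mul,
      Real.sin_three_mul]
    have h3 := Real.sin_sq_add_cos_sq x
    have h4 : sin x ^ 2 = 1 - cos x ^ 2 := by linarith
    have h5 : 2 * sin x * cos x * (3 * sin x - 4 * sin x ^ 3) =
        2 * cos x * (3 * sin x ^ 2 - 4 * (sin x ^ 2) ^ 2) := by ring
    rw [h5, h4]
    ring
  rw [h1]
  have h2 : 0 ≤ (1 - cos x) ^ 2 * (6 + 7 * cos x + 8 * cos x ^ 2 + 4 * cos x ^ 3) := by positivity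
  nlinarith

theorem dist_wrap {m : ℕ} (hm : 13 ≤ m) : dist (aT m (m - 2)) (aT m 0) ≤ 4 := by
  have hw := w1_pos m
  have hl := w1_le hm
  have hS := Sv_pos hw hl
  apply l5_dist_le_four
  unfold aT
  rw [cosh_a]
  have h1 : (((m - 2 : ℕ) : ℝ) + 1) * w1 m - (((0 : ℕ) : ℝ) + 1) * w1 m =
      2 * π - 5 * w1 m := by
    rw [Nat.cast_sub (by omega : 2 ≤ m)]
    push_cast
    linear_combination w1_mul m
  rw [h1, Real.cos_two_pi_sub]
  have h2 := sinh_rs_sq_le hw hl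
  have h3 := one_sub_cos_le hw hl
  have hc := cos_ge hw hl
  have h4 := Real.cos_le_one (5 * w1 m)
  have h7 := l5_cos_five (w1 m) (by linarith)
  have h5 : sinh (rs (w1 m)) ^ 2 * (1 - cos (5 * w1 m)) ≤
      1 / (7 * Sv (w1 m)) * (25 * (6 * Sv (w1 m))) :=
    mul_le_mul h2 (by linarith) (by linarith) (by positivity)
  have h6 : 1 / (7 * Sv (w1 m)) * (25 * (6 * Sv (w1 m))) = 150 / 7 := by
    field_simp
    norm_num
  rw [h6] at h5
  linarith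

theorem l5_one_sub_cos {y z : ℝ} (hy : 0 ≤ y) (hyz : y ≤ z) (hz : z ≤ π) :
    2 * y ^ 2 / π ^ 2 ≤ 1 - cos z := by
  have hpi := Real.pi_pos
  have h1 : cos z = 1 - 2 * sin (z / 2) ^ 2 := by
    have h2 : z = 2 * (z / 2) := by ring
    conv_lhs => rw [h2]
    rw [Real.cos_two_mul, Real.cos_sq']
    ring
  have h2 : 2 / π * (z / 2) ≤ sin (z / 2) :=
    Real.mul_le_sin (by linarith) (by linarith)
  have h3 : y / π ≤ sin (z / 2) := by
    refine le_trans ?_ h2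
    rw [div_mul_div_comm, mul_comm π 2, mul_div_mul_left _ _ (by norm_num : (2 : ℝ) ≠ 0)]
    gcongr
  have h4 : (y / π) ^ 2 ≤ sin (z / 2) ^ 2 := by
    have : 0 ≤ y / π := by positivity
    gcongr
  rw [h1, mul_div_assoc, ← div_pow]
  linarith

theorem one_sub_cos_ring {m : ℕ} (hm : 13 ≤ m) (t s : ℕ) (ht : t + 2 ≤ m) (hs : s + 2 ≤ m) :
    2 * ((cyc (m - 1) t s : ℝ) * w1 m) ^ 2 / π ^ 2 ≤
      1 - cos ((t + 1) * w1 m - (s + 1) * w1 m) := by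
  have hw := w1_pos m
  have hpi := Real.pi_pos
  have hmul := w1_mul m
  obtain ⟨j, hj⟩ : ∃ j : ℕ, j = t - s + (s - t) := ⟨_, rfl⟩
  have hjm : j + 2 ≤ m := by omega
  have habs : |((t : ℝ) + 1) * w1 m - (s + 1) * w1 m| = j * w1 m := by
    have h1 : ((t : ℝ) + 1) * w1 m - (s + 1) * w1 m = (t - s) * w1 m := by ring
    rw [h1, abs_mul, abs_of_pos hw]
    congr 1
    rcases le_total s t with h | h
    · have h2 : j = t - s := by omega
      rw [h2, Nat.cast_sub h, abs_of_nonneg]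
      have : (s : ℝ) ≤ t := by exact_mod_cast h
      linarith
    · have h2 : j = s - t := by omega
      rw [h2, Nat.cast_sub h, abs_of_nonpos]
      · ring
      · have : (t : ℝ) ≤ s := by exact_mod_cast h
        linarith
  rw [← Real.cos_abs, habs]
  have hc : cyc (m - 1) t s = min j (m - 1 - j) := by
    unfold cyc
    rw [← hj]
  have hc1 : cyc (m - 1) t s ≤ j := by rw [hc]; exact min_le_left _ _
  have hc2 : cyc (m - 1) t s + j + 1 ≤ m := by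
    rw [hc]
    have := min_le_right j (m - 1 - j)
    omega
  have hc1' : (cyc (m - 1) t s : ℝ) ≤ j := by exact_mod_cast hc1
  have hc2' : (cyc (m - 1) t s : ℝ) + j + 1 ≤ m := by exact_mod_cast hc2
  have hc0 : (0 : ℝ) ≤ cyc (m - 1) t s := Nat.cast_nonneg _
  rcases le_total ((j : ℝ) * w1 m) π with hle | hle
  · exact l5_one_sub_cos (mul_nonneg hc0 hw.le) (mul_le_mul_of_nonneg_right hc1' hw.le) hle
  · rw [← Real.cos_two_pi_sub]
    apply l5_one_sub_cos (mul_nonneg hc0 hw.le)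
    · rw [← hmul]
      nlinarith
    · linarith

theorem cyc_le {m : ℕ} (hm : 13 ≤ m) (t s : ℕ) (ht : t + 2 ≤ m) (hs : s + 2 ≤ m) :
    (cyc (m - 1) t s : ℝ) ^ 2 / 20 ≤ cosh (dist (aT m t) (aT m s)) - 1 := by
  have hw := w1_pos m
  have hl := w1_le hm
  have hpi := Real.pi_pos
  have h1 := one_sub_cos_ring hm t s ht hs
  have h2 := sinh_rs_ge hw hl
  unfold aT
  rw [cosh_a]
  have h3 : (1 / (2 * w1 m)) ^ 2 ≤ sinh (rs (w1 m)) ^ 2 := by
    have : 0 ≤ 1 / (2 * w1 m) := by positivity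
    gcongr
  have h4 : (1 / (2 * w1 m)) ^ 2 * (2 * ((cyc (m - 1) t s : ℝ) * w1 m) ^ 2 / π ^ 2) ≤
      sinh (rs (w1 m)) ^ 2 * (1 - cos ((t + 1) * w1 m - (s + 1) * w1 m)) :=
    mul_le_mul h3 h1 (by positivity) (by positivity)
  have h5 : (1 / (2 * w1 m)) ^ 2 * (2 * ((cyc (m - 1) t s : ℝ) * w1 m) ^ 2 / π ^ 2) =
      (cyc (m - 1) t s : ℝ) ^ 2 / (2 * π ^ 2) := by
    field_simp
  have h6 : (cyc (m - 1) t s : ℝ) ^ 2 / 20 ≤ (cyc (m - 1) t s : ℝ) ^ 2 / (2 * π ^ 2) := by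
    have h7 := Real.pi_lt_d2
    have h8 : 2 * π ^ 2 ≤ 20 := by nlinarith
    gcongr
  rw [h5] at h4
  linarith

theorem ee_ring {m : ℕ} (hm : 13 ≤ m) (t s : ℕ) (ht : t + 2 ≤ m) (hs : s + 2 ≤ m)
    (h : ((m - 1 : ℕ) : ℝ) / 20 ≤ cyc (m - 1) t s) : 1 / 8 ≤ ‖ee (aT m t) - ee (aT m s)‖ := by
  have hw := w1_pos m
  have hl := w1_le hm
  have hpi := Real.pi_pos
  have hmul := w1_mul m
  have hr := rs_pos hw hl
  have h1 := one_sub_cos_ring hm t s ht hs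
  unfold aT
  rw [ee_pt _ _ _ hr, ee_pt _ _ _ hr]
  have h2 : ‖uu ((t + 1) * w1 m) - uu ((s + 1) * w1 m)‖ ^ 2 =
      2 * (1 - cos ((t + 1) * w1 m - (s + 1) * w1 m)) := by
    rw [Complex.sq_norm, Complex.normSq_apply, Complex.sub_re, Complex.sub_im, Real.cos_sub]
    show (cos ((t + 1) * w1 m) - cos ((s + 1) * w1 m)) * (cos ((t + 1) * w1 m) - cos ((s + 1) * w1 m)) +
      (sin ((t + 1) * w1 m) - sin ((s + 1) * w1 m)) * (sin ((t + 1) * w1 m) - sin ((s + 1) * w1 m)) = _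
    have e1 := Real.sin_sq_add_cos_sq ((t + 1) * w1 m)
    have e2 := Real.sin_sq_add_cos_sq ((s + 1) * w1 m)
    linear_combination e1 + e2
  have hm' : (13 : ℝ) ≤ m := by exact_mod_cast hm
  have hc : ((m : ℝ) - 1) / 20 ≤ cyc (m - 1) t s := by
    have h3 : ((m - 1 : ℕ) : ℝ) = (m : ℝ) - 1 := by
      rw [Nat.cast_sub (by omega : 1 ≤ m)]
      push_cast
      ring
    rw [← h3]
    exact h
  have h4 : 3 / 40 * π ≤ (cyc (m - 1) t s : ℝ) * w1 m := by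
    have h5 : ((m : ℝ) - 1) / 20 * w1 m ≤ (cyc (m - 1) t s : ℝ) * w1 m :=
      mul_le_mul_of_nonneg_right hc hw.le
    refine le_trans ?_ h5
    have h6 : 3 / 4 * ((m : ℝ) + 3) ≤ (m : ℝ) - 1 := by linarith
    have h7 := mul_le_mul_of_nonneg_right h6 hw.le
    have h8 : 3 / 4 * ((m : ℝ) + 3) * w1 m = 3 / 2 * π := by
      linear_combination 3 / 4 * hmul
    rw [h8] at h7
    linarith
  have h9 : (3 / 40) ^ 2 * 2 ≤ 2 * ((cyc (m - 1) t s : ℝ) * w1 m) ^ 2 / π ^ 2 := by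
    rw [le_div_iff₀ (by positivity)]
    have h10 : (3 / 40 * π) ^ 2 ≤ ((cyc (m - 1) t s : ℝ) * w1 m) ^ 2 := by
      have : 0 ≤ 3 / 40 * π := by positivity
      gcongr
    nlinarith
  have h11 : (1 / 8 : ℝ) ^ 2 ≤ ‖uu ((t + 1) * w1 m) - uu ((s + 1) * w1 m)‖ ^ 2 := by
    rw [h2]
    norm_num at h9 ⊢
    linarith
  exact (pow_le_pow_iff_left₀ (by norm_num) (norm_nonneg _) two_ne_zero).1 h11

/-- separation of the partners -/
theorem sep_cyc {m : ℕ} (hm : 13 ≤ m) {L : ℝ} {F : H3 → H3} (hF : LipF hm L F) {p q : ℕ → H3}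
    (h : PQ hm F p q) (t s : ℕ) (ht : t + 2 ≤ m) (hs : s + 2 ≤ m) (D : ℝ)
    (hD : d0 hm (p t) (p s) ≤ D) : (cyc (m - 1) t s : ℝ) ^ 2 ≤ 20 * exp (L * D + 8) := by
  have hL : 0 ≤ L := by linarith [hF.one_le]
  have h1 := pq_lower hm hF h t s ht hs
  have h2 := cyc_le hm t s ht hs
  have h3 : dist (aT m t) (aT m s) ≤ L * D + 8 := by
    have := mul_le_mul_of_nonneg_left hD hL
    linarith
  have h0 : 0 ≤ L * D + 8 := le_trans dist_nonneg h3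
  have h4 : cosh (dist (aT m t) (aT m s)) ≤ cosh (L * D + 8) := by
    apply Real.cosh_le_cosh.2
    rw [abs_of_nonneg dist_nonneg, abs_of_nonneg h0]
    exact h3
  have h5 : cosh (L * D + 8) ≤ exp (L * D + 8) := by
    rw [Real.cosh_eq]
    have : exp (-(L * D + 8)) ≤ exp (L * D + 8) := Real.exp_le_exp.2 (by linarith)
    linarith
  linarith

end CEE
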