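import Pool.Agent.CEE.L3
import Pool.Agent.CEE.D1

set_option autoImplicit false

/-!
# [CEE-L7] Sheets and cells
-/

namespace CEE

open Pool.Agent.MP_8db1a4_gt Set Real

/-- angle -/
noncomputable def An (y : H3) : ℝ := Complex.arg (hz y)

/-- coset of the sheet of `x` -/
noncomputable def sh0 {m : ℕ} (hm : 13 ≤ m) (x : H3) : Q := phi m ((RS0 hm).fold_spec x).choose

noncomputable def sh1 {m : ℕ} (hm : 13 ≤ m) (x : H3) : Q := phi m ((RS1 hm).fold_spec x).choose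

/- PROOF NOTES [CEE-L7].
`d0_le_sh`: `x = ρ(v) y`, `x' = ρ(v') y'` with `y = fold x`, `y' = fold x'`, `phi v = phi v'`: `k = v v'⁻¹ ∈ K`, `ρ(k) x' = ρ(v) y'`, so `d0 x x' ≤ dist x (ρ(k) x') = dist (ρ(v) y) (ρ(v) y') = dist y y'` (`qd_le`, `dist_smul_smul`).
`An_mem`: `lor y vF = - y.val.1 1 ≤ 0`, `Complex.arg_nonneg_iff`, `Complex.arg_le_pi`.
`cell`: `y = pt (An y) (Ra y) h`, `y' = pt (An y') (Ra y') h'` (`OnHP_arg`, `exists_pt_of`), `ρ = Ra y`, `ρ' = Ra y'`.  `cosh_pt`: `cosh (dist) = cosh ρ cosh ρ' (cosh (h - h') - 1) + cosh (ρ - ρ') + sinh ρ sinh ρ' (1 - cos (An y - An y'))`.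
 First term: `cosh (h - h') - 1 ≤ 2 S` (`h_le`, `cosh_h_le`), `cosh² ρ ≤ x₀² ≤ 1/S` (`D0_bound`, `x0_sq`), so `≤ 2`.  Second: `cosh 1 ≤ 2` (`|ρ - ρ'| ≤ 1`).  Third: `sinh ρ ≤ exp ρ / 2 ≤ exp (n+1)/2`, `1 - cos x ≤ x²/2 ≤ exp (-2n)/2`: `≤ e²/8 ≤ 1`.  Total `≤ 5 ≤ cosh 3`. -/

theorem l7_le {m : ℕ} {e : Gen m → V} (h : RS (CM m) e) (v v' : (CM m).Group) (x x' y y' : H3)
    (hx : x = h.rho v • y) (hx' : x' = h.rho v' • y') (hp : phi m v = phi m v') :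
    qd h (K m) x x' ≤ dist y y' := by
  have hk : v * v'⁻¹ ∈ K m := by
    show v * v'⁻¹ ∈ (phi m).ker
    rw [MonoidHom.mem_ker, map_mul, map_inv, hp, mul_inv_cancel]
  have h1 := qd_le h (K m) x x' (v * v'⁻¹) hk
  have h2 : h.rho (v * v'⁻¹) • x' = h.rho v • y' := by
    rw [hx', ← mul_smul, ← map_mul, inv_mul_cancel_right]
  rw [h2, hx, dist_smul_smul] at h1
  rw [hx]
  exact h1

theorem l7_exp_sq : exp 1 * exp 1 ≤ 8 := by
  have h := Real.exp_one_lt_d9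
  have h3 : exp 1 ≤ 2.72 := by linarith
  have h4 : exp 1 * exp 1 ≤ 2.72 * 2.72 := mul_le_mul h3 h3 (by positivity) (by norm_num)
  linarith

theorem l7_cosh_one : cosh 1 ≤ 2 := by
  have h := Real.exp_one_lt_d9
  have h2 : exp (-1 : ℝ) ≤ 1 := Real.exp_le_one_iff.2 (by norm_num)
  rw [Real.cosh_eq]
  linarith

theorem l7_cosh_three : 5 ≤ cosh 3 := by
  have h := l3_exp_three
  have h5 := Real.exp_pos (-3 : ℝ)
  rw [Real.cosh_eq]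
  linarith

theorem l7_sinh {n ρ : ℝ} (h : ρ < n + 1) : sinh ρ ≤ exp (n + 1) / 2 := by
  have h1 := Real.exp_le_exp.2 h.le
  have h2 := Real.exp_pos (-ρ)
  rw [Real.sinh_eq]
  linarith

/-- the three summands -/
theorem l7_cell {w : ℝ} (h0 : 0 < w) (h1 : w ≤ 1 / 2) (θ ρ h θ' ρ' h' n : ℝ) (hn : 0 ≤ n)
    (hT : lor (pt θ ρ h).val (vT w) ≤ 0) (hB : lor (pt θ ρ h).val (vB w) ≤ 0)
    (hT' : lor (pt θ' ρ' h').val (vT w) ≤ 0) (hB' : lor (pt θ' ρ' h').val (vB w) ≤ 0)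
    (hb : (pt θ ρ h).val.2 ^ 2 ≤ 1 / Sv w) (hb' : (pt θ' ρ' h').val.2 ^ 2 ≤ 1 / Sv w)
    (a1 : n ≤ ρ) (a2 : ρ < n + 1) (a3 : n ≤ ρ') (a4 : ρ' < n + 1)
    (a5 : |θ - θ'| ≤ exp (-n)) : dist (pt θ ρ h) (pt θ' ρ' h') ≤ 3 := by
  have hS := Sv_pos h0 h1
  have b1 := cosh_h_le h0 h1 h h' (h_le h0 h1 θ ρ h hT hB) (h_le h0 h1 θ' ρ' h' hT' hB')
  have hc : ∀ θ ρ h : ℝ, (pt θ ρ h).val.2 ^ 2 ≤ 1 / Sv w → cosh ρ ^ 2 ≤ 1 / Sv w := by
    intro θ ρ h hb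
    have h4 : (pt θ ρ h).val.2 = cosh ρ * cosh h := by
      rw [pt_val]
      unfold cyl
      rw [vec_3]
    rw [h4, mul_pow] at hb
    have h5 : 1 ≤ cosh h ^ 2 := by
      have := Real.one_le_cosh h
      nlinarith
    have := mul_le_mul_of_nonneg_left h5 (sq_nonneg (cosh ρ))
    linarith
  have c1 := hc _ _ _ hb
  have c2 := hc _ _ _ hb'
  have c3 : cosh ρ * cosh ρ' ≤ 1 / Sv w := by
    nlinarith [sq_nonneg (cosh ρ - cosh ρ')]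
  have d1 : cosh ρ * cosh ρ' * (cosh (h - h') - 1) ≤ 2 := by
    have e1 : cosh ρ * cosh ρ' * (cosh (h - h') - 1) ≤ 1 / Sv w * (2 * Sv w) := by
      apply mul_le_mul c3 (by linarith) _ (by positivity)
      have := Real.one_le_cosh (h - h')
      linarith
    have e2 : 1 / Sv w * (2 * Sv w) = 2 := by
      field_simp
    linarith
  have d2 : cosh ρ * cosh ρ' - sinh ρ * sinh ρ' ≤ 2 := by
    rw [← Real.cosh_sub]
    have e1 : cosh (ρ - ρ') ≤ cosh 1 := by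
      rw [Real.cosh_le_cosh, abs_one, abs_le]
      constructor <;> linarith
    exact e1.trans l7_cosh_one
  have s1 : 0 ≤ sinh ρ := Real.sinh_nonneg_iff.2 (by linarith)
  have s2 : 0 ≤ sinh ρ' := Real.sinh_nonneg_iff.2 (by linarith)
  have t1 := l7_sinh a2
  have t2 := l7_sinh a4
  have d3 : sinh ρ * sinh ρ' * (1 - cos (θ - θ')) ≤ 1 := by
    have e1 := Real.one_sub_sq_div_two_le_cos (x := θ - θ')
    have e2 : (θ - θ') ^ 2 ≤ exp (-n) ^ 2 := by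
      rw [← sq_abs]
      exact pow_le_pow_left₀ (abs_nonneg _) a5 2
    have e3 : 1 - cos (θ - θ') ≤ exp (-n) ^ 2 / 2 := by linarith
    have e4 : sinh ρ * sinh ρ' ≤ exp (n + 1) / 2 * (exp (n + 1) / 2) :=
      mul_le_mul t1 t2 s2 (by positivity)
    have e5 : sinh ρ * sinh ρ' * (1 - cos (θ - θ')) ≤
        exp (n + 1) / 2 * (exp (n + 1) / 2) * (exp (-n) ^ 2 / 2) := by
      apply mul_le_mul e4 e3 _ (by positivity)
      have := Real.cos_le_one (θ - θ')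
      linarith
    have e6 : exp (n + 1) * exp (-n) = exp 1 := by
      rw [← Real.exp_add]
      congr 1
      ring
    have e7 : exp (n + 1) / 2 * (exp (n + 1) / 2) * (exp (-n) ^ 2 / 2) =
        (exp (n + 1) * exp (-n)) * (exp (n + 1) * exp (-n)) / 8 := by ring
    rw [e7, e6] at e5
    have e8 := l7_exp_sq
    linarith
  have f1 : cosh (dist (pt θ ρ h) (pt θ' ρ' h')) ≤ cosh 3 := by
    rw [cosh_pt]
    have := l7_cosh_three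
    linarith
  have f2 := Real.cosh_le_cosh.1 f1
  rw [abs_of_nonneg dist_nonneg, abs_of_nonneg (by norm_num : (0 : ℝ) ≤ 3)] at f2
  exact f2

theorem d0_le_sh {m : ℕ} (hm : 13 ≤ m) (x x' : H3) (h : sh0 hm x = sh0 hm x') :
    d0 hm x x' ≤ dist ((RS0 hm).fold x) ((RS0 hm).fold x') := by
  exact l7_le (RS0 hm) _ _ x x' _ _ ((RS0 hm).fold_spec x).choose_spec
    ((RS0 hm).fold_spec x').choose_spec h

theorem d1_le_sh {m : ℕ} (hm : 13 ≤ m) (x x' : H3) (h : sh1 hm x = sh1 hm x') :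
    d1 hm x x' ≤ dist ((RS1 hm).fold x) ((RS1 hm).fold x') := by
  exact l7_le (RS1 hm) _ _ x x' _ _ ((RS1 hm).fold_spec x).choose_spec
    ((RS1 hm).fold_spec x').choose_spec h

theorem An_mem {m : ℕ} (y : H3) (hy : y ∈ D0 m) : An y ∈ Icc 0 π := by
  have h1 : lor y.val vF ≤ 0 := hy.2 vF rfl
  rw [lor_eq] at h1
  simp only [vF, vec_0, vec_1, vec_2, vec_3] at h1
  have h2 : 0 ≤ (hz y).im := by
    show 0 ≤ y.val.1 1
    linarith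
  exact ⟨Complex.arg_nonneg_iff.2 h2, Complex.arg_le_pi _⟩

theorem cell {m : ℕ} (hm : 13 ≤ m) (y y' : H3) (hy : y ∈ D0 m) (hy' : y' ∈ D0 m) (n : ℕ)
    (h1 : (n : ℝ) ≤ Ra y) (h2 : Ra y < n + 1) (h3 : (n : ℝ) ≤ Ra y') (h4 : Ra y' < n + 1)
    (h5 : |An y - An y'| ≤ exp (-(n : ℝ))) : dist y y' ≤ 3 := by
  obtain ⟨h, e⟩ := exists_pt_of (An y) y (OnHP_arg y)
  obtain ⟨h', e'⟩ := exists_pt_of (An y') y' (OnHP_arg y')
  obtain ⟨θ, hθ⟩ : ∃ θ, θ = An y := ⟨_, rfl⟩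
  obtain ⟨ρ, hρ⟩ : ∃ ρ, ρ = Ra y := ⟨_, rfl⟩
  obtain ⟨θ', hθ'⟩ : ∃ θ, θ = An y' := ⟨_, rfl⟩
  obtain ⟨ρ', hρ'⟩ : ∃ ρ, ρ = Ra y' := ⟨_, rfl⟩
  rw [← hθ, ← hρ] at e
  rw [← hθ', ← hρ'] at e'
  rw [← hρ] at h1 h2
  rw [← hρ'] at h3 h4
  rw [← hθ, ← hθ'] at h5
  have b := D0_bound hm y hy
  have b' := D0_bound hm y' hy'
  have hT : lor y.val (vT (w0 m)) ≤ 0 := hy.1 .T
  have hB : lor y.val (vB (w0 m)) ≤ 0 := hy.1 .B
  have hT' : lor y'.val (vT (w0 m)) ≤ 0 := hy'.1 .T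
  have hB' : lor y'.val (vB (w0 m)) ≤ 0 := hy'.1 .B
  clear hθ hρ hθ' hρ' hy hy'
  subst e
  subst e'
  exact l7_cell (w0_pos hm) (w0_le hm) θ ρ h θ' ρ' h' n (Nat.cast_nonneg _) hT hB hT' hB' b b'
    h1 h2 h3 h4 h5

end CEE
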