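import Pool.Agent.CEE.Base

set_option autoImplicit false

/-!
# [CEE-P1] The explicit vectors
-/

namespace CEE

open Pool.Agent.MP_8db1a4_gt Set Real

/-- `S = sinh² u`, the positive root of `cos w (8 S² + 8 S + 1) = 1 + 2 S`. -/
noncomputable def Sv (w : ℝ) : ℝ := (1 - 4 * cos w + sqrt (8 * cos w ^ 2 + 1)) / (8 * cos w)

/-- `E = 8 S² + 8 S + 1`. -/
noncomputable def Ev (w : ℝ) : ℝ := 8 * Sv w ^ 2 + 8 * Sv w + 1

noncomputable def pv (w : ℝ) : ℝ := 1 / sqrt (8 * Sv w)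

/-- `τ = tanh u` -/
noncomputable def tv (w : ℝ) : ℝ := sqrt (Sv w / (1 + Sv w))

noncomputable def qv (w : ℝ) : ℝ := sqrt (Ev w / (8 * Sv w * (1 + Sv w)))

/-- top wall -/
noncomputable def vT (w : ℝ) : V := vec 0 0 (sqrt (1 + Sv w)) (sqrt (Sv w))

/-- bottom wall -/
noncomputable def vB (w : ℝ) : V := vec 0 0 (-sqrt (1 + Sv w)) (sqrt (Sv w))

/-- the side wall at the angle `i w` -/
noncomputable def vG (w : ℝ) (i : ℕ) : V :=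
  vec (qv w * cos (i * w)) (qv w * sin (i * w)) ((-1) ^ i * (pv w * tv w)) (pv w)

/-- the wall of the free face of `M_geod`: half space `x₂ ≥ 0` -/
noncomputable def vF : V := vec 0 (-1) 0 0

/- PROOF NOTES [CEE-P1].  Everything for `0 < w ≤ 1/2`; `c = cos w`, `7/8 ≤ c < 1` (`Real.one_sub_sq_div_two_le_cos`, `Real.cos_lt_one`-type lemmas: `cos_lt_cos_of_nonneg_of_le_pi_div_two`).
`Sv_pos`: `sqrt (8c²+1) > 4c - 1` since `8c²+1 - (4c-1)² = 8c(1-c) > 0`.  `Sv_le`: `S ≤ 1/8`: `sqrt (8c²+1) ≤ 5c - 1`, since `(5c-1)² - 8c² - 1 = c (17 c - 10) ≥ 0`.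
`Ev_cos`: `8 c S = 1 - 4c + sqrt(8c²+1)`, square: `(8cS + 4c - 1)² = 8c²+1`, i.e. `64c²S² + 16 c S (4c - 1) + (4c-1)² - 8c² - 1 = 0`, i.e. `8c (8 c S² + 8 c S - 2 S + c - 1) = 0`.
`pv_sq = 1/(8S)`, `tv_sq = S/(1+S)`, `qv_sq = E/(8S(1+S))`; `tv_eq : tv = sqrt S / sqrt (1+S)`; `pv_mul : pv * sqrt S = 1/(2√2)`, i.e. `pv w * sqrt (Sv w) = sqrt 2 / 4`.
`one_sub_cos`: `(1 - c) E = 8S² + 6S`.  Hence `S ≤ 1 - c ≤ 6 S` (`8S + 6 ≥ E`, since `S ≤ 1/8`; and `8S²+6S ≤ 6S E`).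
`Sv_le_sq`: `S ≤ 1 - c ≤ w²/2`; `Sv_ge_sq`: `6 S ≥ 1 - c ≥ 2 w²/π² ≥ w²/5` (`Real.cos_le_one_sub_mul_cos_sq`, `Real.cos_le_one_sub_...`, or `1 - cos w = 2 sin²(w/2)` and `Real.mul_le_sin`): `w²/30 ≤ S`. -/

theorem p1_Ev_pos {w : ℝ} (h : 0 < Sv w) : 0 < Ev w := by
  unfold Ev
  positivity

theorem cos_ge {w : ℝ} (h0 : 0 < w) (h1 : w ≤ 1 / 2) : 7 / 8 ≤ cos w := by
  have h := Real.one_sub_sq_div_two_le_cos (x := w)
  nlinarith

theorem cos_lt {w : ℝ} (h0 : 0 < w) (h1 : w ≤ 1 / 2) : cos w < 1 := by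
  have h2 : w ≤ π / 2 := by linarith [Real.pi_gt_three]
  have h := Real.cos_lt_cos_of_nonneg_of_le_pi_div_two le_rfl h2 h0
  rwa [Real.cos_zero] at h

theorem Sv_pos {w : ℝ} (h0 : 0 < w) (h1 : w ≤ 1 / 2) : 0 < Sv w := by
  have hc := cos_ge h0 h1
  have hc1 := cos_lt h0 h1
  have h2 : 4 * cos w - 1 < sqrt (8 * cos w ^ 2 + 1) := by
    apply Real.lt_sqrt_of_sq_lt
    nlinarith
  unfold Sv
  apply div_pos <;> linarith

theorem Sv_le {w : ℝ} (h0 : 0 < w) (h1 : w ≤ 1 / 2) : Sv w ≤ 1 / 8 := by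
  have hc := cos_ge h0 h1
  have h2 : sqrt (8 * cos w ^ 2 + 1) ≤ 5 * cos w - 1 := by
    rw [Real.sqrt_le_iff]
    constructor
    · linarith
    · nlinarith
  unfold Sv
  rw [div_le_iff₀ (by linarith)]
  linarith

theorem Ev_cos {w : ℝ} (h0 : 0 < w) (h1 : w ≤ 1 / 2) : cos w * Ev w = 1 + 2 * Sv w := by
  have hc := cos_ge h0 h1
  have hs : sqrt (8 * cos w ^ 2 + 1) ^ 2 = 8 * cos w ^ 2 + 1 := Real.sq_sqrt (by positivity)
  have hS : 8 * cos w * Sv w = 1 - 4 * cos w + sqrt (8 * cos w ^ 2 + 1) := by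
    unfold Sv
    field_simp
  have h8 : (8 * cos w) ≠ 0 := by linarith
  apply mul_left_cancel₀ h8
  unfold Ev
  have h3 : (8 * cos w * Sv w + 4 * cos w - 1) ^ 2 = 8 * cos w ^ 2 + 1 := by
    have h4 : 8 * cos w * Sv w + 4 * cos w - 1 = sqrt (8 * cos w ^ 2 + 1) := by
      rw [hS]
      ring
    rw [h4]
    exact hs
  linear_combination h3

theorem pv_pos {w : ℝ} (h0 : 0 < w) (h1 : w ≤ 1 / 2) : 0 < pv w := by
  have h := Sv_pos h0 h1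
  unfold pv
  positivity

theorem pv_sq {w : ℝ} (h0 : 0 < w) (h1 : w ≤ 1 / 2) : pv w ^ 2 = 1 / (8 * Sv w) := by
  have h := Sv_pos h0 h1
  unfold pv
  rw [div_pow, one_pow, Real.sq_sqrt (by positivity)]

theorem tv_pos {w : ℝ} (h0 : 0 < w) (h1 : w ≤ 1 / 2) : 0 < tv w := by
  have h := Sv_pos h0 h1
  unfold tv
  positivity

theorem tv_sq {w : ℝ} (h0 : 0 < w) (h1 : w ≤ 1 / 2) : tv w ^ 2 = Sv w / (1 + Sv w) := by
  have h := Sv_pos h0 h1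
  unfold tv
  rw [Real.sq_sqrt (by positivity)]

theorem tv_eq {w : ℝ} (h0 : 0 < w) (h1 : w ≤ 1 / 2) : tv w * sqrt (1 + Sv w) = sqrt (Sv w) := by
  have h := Sv_pos h0 h1
  unfold tv
  rw [← Real.sqrt_mul (by positivity), div_mul_cancel₀ _ (by positivity)]

theorem qv_pos {w : ℝ} (h0 : 0 < w) (h1 : w ≤ 1 / 2) : 0 < qv w := by
  have h := Sv_pos h0 h1
  have hE := p1_Ev_pos h
  unfold qv
  positivity

theorem qv_sq {w : ℝ} (h0 : 0 < w) (h1 : w ≤ 1 / 2) :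
    qv w ^ 2 = Ev w / (8 * Sv w * (1 + Sv w)) := by
  have h := Sv_pos h0 h1
  have hE := p1_Ev_pos h
  unfold qv
  rw [Real.sq_sqrt (by positivity)]

theorem pv_mul {w : ℝ} (h0 : 0 < w) (h1 : w ≤ 1 / 2) : pv w * sqrt (Sv w) = sqrt 2 / 4 := by
  have h := Sv_pos h0 h1
  have hp := pv_pos h0 h1
  rw [← pow_left_inj₀ (by positivity) (by positivity) two_ne_zero, mul_pow, pv_sq h0 h1,
    Real.sq_sqrt h.le, div_pow, Real.sq_sqrt (by norm_num : (0 : ℝ) ≤ 2)]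
  field_simp
  norm_num

theorem one_sub_cos {w : ℝ} (h0 : 0 < w) (h1 : w ≤ 1 / 2) :
    (1 - cos w) * Ev w = 8 * Sv w ^ 2 + 6 * Sv w := by
  have h := Ev_cos h0 h1
  have h2 : Ev w = 8 * Sv w ^ 2 + 8 * Sv w + 1 := rfl
  linear_combination h2 - h

theorem Sv_le_one_sub_cos {w : ℝ} (h0 : 0 < w) (h1 : w ≤ 1 / 2) : Sv w ≤ 1 - cos w := by
  have h := Sv_pos h0 h1
  have h8 := Sv_le h0 h1
  have hE := p1_Ev_pos h
  have h2 : Ev w = 8 * Sv w ^ 2 + 8 * Sv w + 1 := rfl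
  have h3 := one_sub_cos h0 h1
  by_contra hcon
  have hcon' : 0 < Sv w - (1 - cos w) := by linarith [not_le.1 hcon]
  have h4 := mul_pos hcon' hE
  have h5 : (Sv w - (1 - cos w)) * Ev w = Sv w * (8 * Sv w ^ 2 - 5) := by
    linear_combination Sv w * h2 - h3
  rw [h5] at h4
  have h6 : 8 * Sv w ^ 2 - 5 < 0 := by nlinarith
  nlinarith

theorem one_sub_cos_le {w : ℝ} (h0 : 0 < w) (h1 : w ≤ 1 / 2) : 1 - cos w ≤ 6 * Sv w := by
  have h := Sv_pos h0 h1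
  have hE := p1_Ev_pos h
  have h2 : Ev w = 8 * Sv w ^ 2 + 8 * Sv w + 1 := rfl
  have h3 := one_sub_cos h0 h1
  by_contra hcon
  have hcon' : 0 < (1 - cos w) - 6 * Sv w := by linarith [not_le.1 hcon]
  have h4 := mul_pos hcon' hE
  have h5 : ((1 - cos w) - 6 * Sv w) * Ev w = -(48 * Sv w ^ 3 + 40 * Sv w ^ 2) := by
    linear_combination h3 - 6 * Sv w * h2
  rw [h5] at h4
  have h6 : 0 < 48 * Sv w ^ 3 + 40 * Sv w ^ 2 := by positivity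
  linarith

theorem Sv_le_sq {w : ℝ} (h0 : 0 < w) (h1 : w ≤ 1 / 2) : Sv w ≤ w ^ 2 / 2 := by
  have h := Sv_le_one_sub_cos h0 h1
  have h2 := Real.one_sub_sq_div_two_le_cos (x := w)
  linarith

theorem Sv_ge_sq {w : ℝ} (h0 : 0 < w) (h1 : w ≤ 1 / 2) : w ^ 2 / 30 ≤ Sv w := by
  have h := one_sub_cos_le h0 h1
  have h2 : |w| ≤ 1 := by rw [abs_of_pos h0]; linarith
  have h3 := (abs_le.1 (Real.cos_bound h2)).2
  rw [abs_of_pos h0] at h3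
  have h4 : w ^ 4 ≤ w ^ 2 * (1 / 4) := by
    have h5 : w ^ 2 ≤ 1 / 4 := by nlinarith
    have h6 : w ^ 4 = w ^ 2 * w ^ 2 := by ring
    rw [h6]
    exact mul_le_mul_of_nonneg_left h5 (by positivity)
  have h7 : 0 < w ^ 2 := by positivity
  linarith

end CEE
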