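import Pool.Agent.CEE.P1

set_option autoImplicit false

/-!
# [CEE-P2a] The Gram matrix
-/

namespace CEE

open Pool.Agent.MP_8db1a4_gt Set Real

/- PROOF NOTES [CEE-P2a].  `lor_eq`, `vec_0..vec_3`, `pv_sq`, `tv_sq`, `qv_sq`, `pv_mul`, `tv_eq`, `Real.mul_self_sqrt`.  Write `S, E, p, t, q`; `8 S p² = 1`, `(1+S) t² = S`, `8 S (1+S) q² = E`, `q² = 1 + p² - p² t²`,
`((-1)^i)^2 = 1`; parity: `Even.neg_one_pow`, `Odd.neg_one_pow`.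
-/

theorem p2a_s1 {w : ℝ} (h0 : 0 < w) (h1 : w ≤ 1 / 2) : sqrt (Sv w) * sqrt (Sv w) = Sv w :=
  Real.mul_self_sqrt (Sv_pos h0 h1).le

theorem p2a_s2 {w : ℝ} (h0 : 0 < w) (h1 : w ≤ 1 / 2) :
    sqrt (1 + Sv w) * sqrt (1 + Sv w) = 1 + Sv w :=
  Real.mul_self_sqrt (by linarith [Sv_pos h0 h1])

theorem lor_T_T {w : ℝ} (h0 : 0 < w) (h1 : w ≤ 1 / 2) : lor (vT w) (vT w) = 1 := by
  rw [lor_eq]
  simp only [vT, vec_0, vec_1, vec_2, vec_3]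
  rw [p2a_s1 h0 h1, p2a_s2 h0 h1]
  ring

theorem lor_B_B {w : ℝ} (h0 : 0 < w) (h1 : w ≤ 1 / 2) : lor (vB w) (vB w) = 1 := by
  rw [lor_eq]
  simp only [vB, vec_0, vec_1, vec_2, vec_3]
  rw [neg_mul_neg, p2a_s1 h0 h1, p2a_s2 h0 h1]
  ring

theorem lor_T_B {w : ℝ} (h0 : 0 < w) (h1 : w ≤ 1 / 2) : lor (vT w) (vB w) ≤ -1 := by
  rw [lor_eq]
  simp only [vT, vB, vec_0, vec_1, vec_2, vec_3]
  rw [mul_neg, p2a_s1 h0 h1, p2a_s2 h0 h1]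
  linarith [Sv_pos h0 h1]

theorem lor_G_self {w : ℝ} (h0 : 0 < w) (h1 : w ≤ 1 / 2) (i : ℕ) : lor (vG w i) (vG w i) = 1 := by
  have hS := Sv_pos h0 h1
  have e1 := pv_sq h0 h1
  have e2 := tv_sq h0 h1
  have e3 := qv_sq h0 h1
  have e4 : ((-1 : ℝ) ^ i) ^ 2 = 1 := by
    rw [← pow_mul, mul_comm, pow_mul]
    norm_num
  have e5 := Real.sin_sq_add_cos_sq ((i : ℝ) * w)
  rw [lor_eq]
  simp only [vG, vec_0, vec_1, vec_2, vec_3]
  have e6 : qv w * cos (i * w) * (qv w * cos (i * w)) + qv w * sin (i * w) * (qv w * sin (i * w)) +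
      (-1) ^ i * (pv w * tv w) * ((-1) ^ i * (pv w * tv w)) - pv w * pv w =
      qv w ^ 2 + pv w ^ 2 * tv w ^ 2 - pv w ^ 2 := by
    linear_combination qv w ^ 2 * e5 + (pv w * tv w) ^ 2 * e4
  rw [e6, e1, e2, e3, Ev]
  have h2 : Sv w ≠ 0 := hS.ne'
  have h3 : 1 + Sv w ≠ 0 := by linarith
  field_simp
  ring

theorem lor_T_G_even {w : ℝ} (h0 : 0 < w) (h1 : w ≤ 1 / 2) {i : ℕ} (hi : Even i) :
    lor (vT w) (vG w i) = 0 := by
  have e1 := tv_eq h0 h1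
  have e2 := pv_mul h0 h1
  rw [lor_eq]
  simp only [vT, vG, vec_0, vec_1, vec_2, vec_3]
  rw [hi.neg_one_pow]
  linear_combination (pv w) * e1

theorem lor_T_G_odd {w : ℝ} (h0 : 0 < w) (h1 : w ≤ 1 / 2) {i : ℕ} (hi : Odd i) :
    lor (vT w) (vG w i) = -(sqrt 2 / 2) := by
  have e1 := tv_eq h0 h1
  have e2 := pv_mul h0 h1
  rw [lor_eq]
  simp only [vT, vG, vec_0, vec_1, vec_2, vec_3]
  rw [hi.neg_one_pow]
  linear_combination (-pv w) * e1 - 2 * e2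

theorem lor_B_G_even {w : ℝ} (h0 : 0 < w) (h1 : w ≤ 1 / 2) {i : ℕ} (hi : Even i) :
    lor (vB w) (vG w i) = -(sqrt 2 / 2) := by
  have e1 := tv_eq h0 h1
  have e2 := pv_mul h0 h1
  rw [lor_eq]
  simp only [vB, vG, vec_0, vec_1, vec_2, vec_3]
  rw [hi.neg_one_pow]
  linear_combination (-pv w) * e1 - 2 * e2

theorem lor_B_G_odd {w : ℝ} (h0 : 0 < w) (h1 : w ≤ 1 / 2) {i : ℕ} (hi : Odd i) :
    lor (vB w) (vG w i) = 0 := by
  have e1 := tv_eq h0 h1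
  have e2 := pv_mul h0 h1
  rw [lor_eq]
  simp only [vB, vG, vec_0, vec_1, vec_2, vec_3]
  rw [hi.neg_one_pow]
  linear_combination (pv w) * e1

/-- the free face -/
theorem lor_F_F : lor vF vF = 1 := by
  rw [lor_eq]
  simp only [vF, vec_0, vec_1, vec_2, vec_3]
  ring

theorem lor_F_T (w : ℝ) : lor vF (vT w) = 0 := by
  rw [lor_eq]
  simp only [vF, vT, vec_0, vec_1, vec_2, vec_3]
  ring

theorem lor_F_B (w : ℝ) : lor vF (vB w) = 0 := by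
  rw [lor_eq]
  simp only [vF, vB, vec_0, vec_1, vec_2, vec_3]
  ring

theorem lor_F_G (w : ℝ) (i : ℕ) : lor vF (vG w i) = -(qv w * sin (i * w)) := by
  rw [lor_eq]
  simp only [vF, vG, vec_0, vec_1, vec_2, vec_3]
  ring

end CEE
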