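import Pool.Agent.CEE.X6
import Pool.Agent.CEE.F1

set_option autoImplicit false

/-!
# [CEE-S1] The quadrilateral in the boundary plane
-/

namespace CEE

open Pool.Agent.MP_8db1a4_gt Set Real

theorem RSH {m : ℕ} (hm : 13 ≤ m) (ho : Odd m) : RS CH (evH (w0 m) m) :=
  RS_evH m ho (by omega) (w0_pos hm) (w0_le hm) (w0_mul hm)

/-- map of the quadrilaterals in Klein coordinates: `(ξ, z) ↦ (a, b) = ((q/p) ξ + t z, z/t)` and back for `m'` -/
noncomputable def sqMap (m m' : ℕ) (x : H3) : H3 :=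
  mkH ((pv (w0 m') / qv (w0 m') * ((qv (w0 m) / pv (w0 m) * (kx x).re + tv (w0 m) * kz x) -
      tv (w0 m') ^ 2 * (kz x / tv (w0 m))) : ℝ), tv (w0 m') * (kz x / tv (w0 m)))

/- PROOF NOTES [CEE-S1].  `w = w0 m`, `w' = w0 m'`, `m, m'` odd.  For `x ∈ Pl`: `x.val.1 1 = 0`, `kx x = ξ` real.
`quad_iff`: `T, B`: `lor_T_le`, `lor_B_le`; `vG w 0`, `vG w m` with `cos (m w) = cos π = -1`, `sin (m w) = 0`, `(-1)^m = -1`: `lor x (vG w 0) = x₀ (q ξ + p t z - p)`, `lor x (vG w m) = x₀ (- q ξ - p t z - p)`; so with `a = (q/p) ξ + t z`: `≤ 0` iff `a ≤ 1` resp. `-1 ≤ a` (equality iff equality).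
`sq_ball`: `|a|, |b| ≤ 1`: `((p'/q')(a - t'² b))² + (t' b)² ≤ (p'/q')² (1 + t'²)² + t'² < 1`: `(p/q)² = (1+S)/E`, `1 + t² = (1+2S)/(1+S)`, `(1+2S)²/(E (1+S)) + S/(1+S) < 1` iff `(1+2S)² < E`.
`sqMap_coord`: `mkH_spec`: `kx (sqMap x) = (p'/q')(a - t'² b)` (real), `kz (sqMap x) = t' b`; `sqMap x ∈ Pl` (`(kx y).im = 0` iff `y.val.1 1 = 0`).  So the coordinates `a', b'` of `sqMap x` are `a, b`: the faces correspond.
`sqMap_inv`: `mkH_kx`.  `sqMap_cont`: `mkH_cont`, `kx_continuous`, `kz_continuous`. -/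

/-- the coordinates `a`, `b` -/
noncomputable def ca (m : ℕ) (x : H3) : ℝ := qv (w0 m) / pv (w0 m) * (kx x).re + tv (w0 m) * kz x

noncomputable def cb (m : ℕ) (x : H3) : ℝ := kz x / tv (w0 m)

theorem s1_im {x : H3} (hx : x ∈ Pl) : (kx x).im = 0 := by
  have h : lor x.val vF = 0 := hx
  rw [lor_eq] at h
  simp only [vF, vec_0, vec_1, vec_2, vec_3] at h
  have h1 : x.val.1 1 = 0 := by linarith
  show x.val.1 1 / x.val.2 = 0
  rw [h1, zero_div]

theorem s1_mem {x : H3} (h : (kx x).im = 0) : x ∈ Pl := by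
  have h0 : 0 < x.val.2 := lt_of_le_of_lt (norm_nonneg _) x.mem
  have h1 : x.val.1 1 / x.val.2 = 0 := h
  have h2 : x.val.1 1 = 0 := by
    rcases div_eq_zero_iff.1 h1 with h3 | h3
    · exact h3
    · exact absurd h3 h0.ne'
  show lor x.val vF = 0
  rw [lor_eq]
  simp only [vF, vec_0, vec_1, vec_2, vec_3]
  rw [h2]
  ring

theorem s1_mw {m : ℕ} (hm : 13 ≤ m) : (m : ℝ) * w0 m = π := by
  have h1 : (13 : ℝ) ≤ m := by exact_mod_cast hm
  unfold w0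
  rw [mul_div_assoc', mul_comm, mul_div_assoc, div_self (by linarith), mul_one]

theorem s1_iff1 {r a z : ℝ} (hr : 0 < r) : a ≤ r * (1 - z) ↔ r⁻¹ * a + z ≤ 1 := by
  have hri : 0 < r⁻¹ := inv_pos.2 hr
  constructor
  · intro h
    have h2 := mul_le_mul_of_nonneg_left h hri.le
    rw [inv_mul_cancel_left₀ hr.ne'] at h2
    linarith
  · intro h
    have h2 := mul_le_mul_of_nonneg_left h hr.le
    rw [mul_add, mul_inv_cancel_left₀ hr.ne'] at h2
    linarith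

theorem s1_iff2 {r a z : ℝ} (hr : 0 < r) : -a ≤ r * (1 + z) ↔ -1 ≤ r⁻¹ * a + z := by
  have h := s1_iff1 (a := -a) (z := -z) hr
  rw [sub_neg_eq_add] at h
  rw [h]
  constructor <;> intro h2 <;> linarith

theorem quad_iff {m : ℕ} (hm : 13 ≤ m) (ho : Odd m) (x : H3) (hx : x ∈ Pl) :
    ((lor x.val (evH (w0 m) m .T) ≤ 0 ↔ cb m x ≤ 1) ∧
      (lor x.val (evH (w0 m) m .B) ≤ 0 ↔ -1 ≤ cb m x) ∧
      (lor x.val (evH (w0 m) m (.G 0)) ≤ 0 ↔ ca m x ≤ 1) ∧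
      (lor x.val (evH (w0 m) m (.G 1)) ≤ 0 ↔ -1 ≤ ca m x)) ∧
    ((lor x.val (evH (w0 m) m .T) = 0 ↔ cb m x = 1) ∧
      (lor x.val (evH (w0 m) m .B) = 0 ↔ cb m x = -1) ∧
      (lor x.val (evH (w0 m) m (.G 0)) = 0 ↔ ca m x = 1) ∧
      (lor x.val (evH (w0 m) m (.G 1)) = 0 ↔ ca m x = -1)) := by
  have hw := w0_pos hm
  have hl := w0_le hm
  have ht := tv_pos hw hl
  have hp := pv_pos hw hl
  have hq := qv_pos hw hl
  have him := s1_im hx
  obtain ⟨T1, T2⟩ := lor_T_le hw hl x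
  obtain ⟨B1, B2⟩ := lor_B_le hw hl x
  obtain ⟨G1, G2⟩ := lor_G_le hw hl x 0
  obtain ⟨M1, M2⟩ := lor_G_le hw hl x m
  have eT : evH (w0 m) m .T = vT (w0 m) := rfl
  have eB : evH (w0 m) m .B = vB (w0 m) := rfl
  have e0 : evH (w0 m) m (.G 0) = vG (w0 m) 0 := by
    show (if (0 : Fin 2) = 0 then vG (w0 m) 0 else vG (w0 m) m) = vG (w0 m) 0
    exact if_pos rfl
  have e1 : evH (w0 m) m (.G 1) = vG (w0 m) m := by
    show (if (1 : Fin 2) = 0 then vG (w0 m) 0 else vG (w0 m) m) = vG (w0 m) m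
    exact if_neg g2_one_ne
  have d0 : dt (kx x) (uu ((0 : ℕ) * w0 m)) = (kx x).re := by
    unfold dt uu
    simp
  have dm : dt (kx x) (uu (m * w0 m)) = -(kx x).re := by
    rw [s1_mw hm]
    unfold dt uu
    simp
  have c0 : cG (w0 m) 0 (kz x) = pv (w0 m) / qv (w0 m) * (1 - tv (w0 m) * kz x) := by
    unfold cG
    simp
  have cm : cG (w0 m) m (kz x) = pv (w0 m) / qv (w0 m) * (1 + tv (w0 m) * kz x) := by
    unfold cG
    rw [ho.neg_one_pow]
    ring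
  rw [d0, c0] at G1 G2
  rw [dm, cm] at M1 M2
  rw [eT, eB, e0, e1, T1, T2, B1, B2, G1, G2, M1, M2]
  unfold ca cb
  have hpq : 0 < pv (w0 m) / qv (w0 m) := div_pos hp hq
  have hqp : qv (w0 m) / pv (w0 m) = (pv (w0 m) / qv (w0 m))⁻¹ := (inv_div _ _).symm
  rw [hqp]
  set r := pv (w0 m) / qv (w0 m) with hr
  set t := tv (w0 m) with htd
  have hrr : r * r⁻¹ = 1 := mul_inv_cancel₀ hpq.ne'
  have hri : 0 < r⁻¹ := inv_pos.2 hpq
  refine ⟨⟨?_, ?_, ?_, ?_⟩, ?_, ?_, ?_, ?_⟩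
  · rw [div_le_one ht]
  · rw [le_div_iff₀ ht]
    constructor <;> intro h <;> linarith
  · exact s1_iff1 hpq
  · exact s1_iff2 hpq
  · rw [div_eq_one_iff_eq ht.ne']
  · rw [div_eq_iff ht.ne']
    constructor <;> intro h <;> linarith
  · constructor
    · intro h
      rw [h]
      linear_combination (1 - t * kz x) * hrr
    · intro h
      linear_combination r * h - (kx x).re * hrr
  · constructor
    · intro h
      have h' : (kx x).re = -(r * (1 + t * kz x)) := by linarith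
      rw [h']
      linear_combination -(1 + t * kz x) * hrr
    · intro h
      linear_combination -r * h + (kx x).re * hrr

theorem s1_gen (s : Gen 1) : s = .T ∨ s = .B ∨ s = .G 0 ∨ s = .G 1 := by
  cases s with
  | T => exact Or.inl rfl
  | B => exact Or.inr (Or.inl rfl)
  | G i =>
    rcases g2_fin2 i with rfl | rfl
    · exact Or.inr (Or.inr (Or.inl rfl))
    · exact Or.inr (Or.inr (Or.inr rfl))

theorem s1_bd {m : ℕ} (hm : 13 ≤ m) (ho : Odd m) (x : H3) (hx : x ∈ cham (evH (w0 m) m) ∩ Pl) :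
    |ca m x| ≤ 1 ∧ |cb m x| ≤ 1 := by
  obtain ⟨⟨h1, h2, h3, h4⟩, -⟩ := quad_iff hm ho x hx.2
  exact ⟨abs_le.2 ⟨h4.1 (hx.1 _), h3.1 (hx.1 _)⟩, abs_le.2 ⟨h2.1 (hx.1 _), h1.1 (hx.1 _)⟩⟩

theorem s1_ball {w : ℝ} (h0 : 0 < w) (h1 : w ≤ 1 / 2) {a b : ℝ} (ha : |a| ≤ 1) (hb : |b| ≤ 1) :
    (((pv w / qv w * (a - tv w ^ 2 * b) : ℝ) : ℂ), tv w * b) ∈ Kball := by
  have hS := Sv_pos h0 h1
  have hE : 0 < Ev w := p1_Ev_pos hS
  have ht := tv_pos h0 h1
  have hp2 := pv_sq h0 h1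
  have hq2 := qv_sq h0 h1
  have ht2 := tv_sq h0 h1
  show ‖((pv w / qv w * (a - tv w ^ 2 * b) : ℝ) : ℂ)‖ ^ 2 + (tv w * b) ^ 2 < 1
  rw [Complex.norm_real, Real.norm_eq_abs, sq_abs, mul_pow, mul_pow, div_pow, hp2, hq2, ht2]
  have hEv : Ev w = 8 * Sv w ^ 2 + 8 * Sv w + 1 := rfl
  set S := Sv w with hSd
  set E := Ev w with hEd
  have h1S : 0 < 1 + S := by linarith
  have e1 : 1 / (8 * S) / (E / (8 * S * (1 + S))) = (1 + S) / E := by
    field_simp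
  rw [e1]
  have hT0 : 0 ≤ S / (1 + S) := by positivity
  set T := S / (1 + S) with hT
  have hTm : T * (1 + S) = S := div_mul_cancel₀ _ h1S.ne'
  have k1 : (a - T * b) ^ 2 ≤ (1 + T) ^ 2 := by
    apply sq_le_sq'
    · have := abs_le.1 ha
      have hb' := abs_le.1 hb
      nlinarith
    · have := abs_le.1 ha
      have hb' := abs_le.1 hb
      nlinarith
  have k2 : b ^ 2 ≤ 1 := by
    have hb' := abs_le.1 hb
    nlinarith
  have k3 : (1 + S) / E * (a - T * b) ^ 2 ≤ (1 + S) / E * (1 + T) ^ 2 :=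
    mul_le_mul_of_nonneg_left k1 (by positivity)
  have k4 : T * b ^ 2 ≤ T := by nlinarith
  have k5 : (1 + S) / E * (1 + T) ^ 2 + T < 1 := by
    have e2 : (1 + S) * (1 + T) = 1 + 2 * S := by linarith
    have e3 : (1 + S) / E * (1 + T) ^ 2 = (1 + 2 * S) ^ 2 / (E * (1 + S)) := by
      rw [← e2]
      field_simp
    rw [e3, hT, div_add_div _ _ (by positivity) (by positivity), div_lt_one (by positivity)]
    rw [hEv]
    nlinarith [mul_pos hS hS, mul_pos (mul_pos hS hS) hS]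
  linarith

theorem s1_spec {m m' : ℕ} (hm : 13 ≤ m) (ho : Odd m) (hm' : 13 ≤ m') (x : H3)
    (hx : x ∈ cham (evH (w0 m) m) ∩ Pl) :
    kx (sqMap m m' x) = ((pv (w0 m') / qv (w0 m') * (ca m x - tv (w0 m') ^ 2 * cb m x) : ℝ) : ℂ) ∧
      kz (sqMap m m' x) = tv (w0 m') * cb m x := by
  obtain ⟨ha, hb⟩ := s1_bd hm ho x hx
  exact mkH_spec _ (s1_ball (w0_pos hm') (w0_le hm') ha hb)

theorem sqMap_coord {m m' : ℕ} (hm : 13 ≤ m) (ho : Odd m) (hm' : 13 ≤ m') (ho' : Odd m') (x : H3)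
    (hx : x ∈ cham (evH (w0 m) m) ∩ Pl) :
    sqMap m m' x ∈ Pl ∧ ca m' (sqMap m m' x) = ca m x ∧ cb m' (sqMap m m' x) = cb m x := by
  obtain ⟨h1, h2⟩ := s1_spec hm ho hm' x hx
  have hw := w0_pos hm'
  have hl := w0_le hm'
  have ht := tv_pos hw hl
  have hp := pv_pos hw hl
  have hq := qv_pos hw hl
  refine ⟨s1_mem (by rw [h1, Complex.ofReal_im]), ?_, ?_⟩
  · have e : ca m' (sqMap m m' x) = qv (w0 m') / pv (w0 m') * (kx (sqMap m m' x)).re +
        tv (w0 m') * kz (sqMap m m' x) := rfl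
    rw [e, h1, h2, Complex.ofReal_re]
    field_simp
    ring
  · have e : cb m' (sqMap m m' x) = kz (sqMap m m' x) / tv (w0 m') := rfl
    rw [e, h2]
    field_simp

theorem sqMap_mem {m m' : ℕ} (hm : 13 ≤ m) (ho : Odd m) (hm' : 13 ≤ m') (ho' : Odd m') (x : H3)
    (hx : x ∈ cham (evH (w0 m) m) ∩ Pl) : sqMap m m' x ∈ cham (evH (w0 m') m') ∩ Pl := by
  obtain ⟨h1, h2, h3⟩ := sqMap_coord hm ho hm' ho' x hx
  obtain ⟨ha, hb⟩ := s1_bd hm ho x hx
  obtain ⟨⟨k1, k2, k3, k4⟩, -⟩ := quad_iff hm' ho' (sqMap m m' x) h1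
  rw [h3] at k1 k2
  rw [h2] at k3 k4
  refine ⟨fun s => ?_, h1⟩
  rcases s1_gen s with rfl | rfl | rfl | rfl
  · exact k1.2 (abs_le.1 hb).2
  · exact k2.2 (abs_le.1 hb).1
  · exact k3.2 (abs_le.1 ha).2
  · exact k4.2 (abs_le.1 ha).1

theorem sqMap_face {m m' : ℕ} (hm : 13 ≤ m) (ho : Odd m) (hm' : 13 ≤ m') (ho' : Odd m') (x : H3)
    (hx : x ∈ cham (evH (w0 m) m) ∩ Pl) (s : Gen 1) (hs : lor x.val (evH (w0 m) m s) = 0) :
    lor (sqMap m m' x).val (evH (w0 m') m' s) = 0 := by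
  obtain ⟨h1, h2, h3⟩ := sqMap_coord hm ho hm' ho' x hx
  obtain ⟨-, l1, l2, l3, l4⟩ := quad_iff hm ho x hx.2
  obtain ⟨-, k1, k2, k3, k4⟩ := quad_iff hm' ho' (sqMap m m' x) h1
  rw [h3] at k1 k2
  rw [h2] at k3 k4
  rcases s1_gen s with rfl | rfl | rfl | rfl
  · exact k1.2 (l1.1 hs)
  · exact k2.2 (l2.1 hs)
  · exact k3.2 (l3.1 hs)
  · exact k4.2 (l4.1 hs)

theorem sqMap_inv {m m' : ℕ} (hm : 13 ≤ m) (ho : Odd m) (hm' : 13 ≤ m') (ho' : Odd m') (x : H3)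
    (hx : x ∈ cham (evH (w0 m) m) ∩ Pl) : sqMap m' m (sqMap m m' x) = x := by
  obtain ⟨h1, h2, h3⟩ := sqMap_coord hm ho hm' ho' x hx
  have hw := w0_pos hm
  have hl := w0_le hm
  have ht := tv_pos hw hl
  have hp := pv_pos hw hl
  have hq := qv_pos hw hl
  have e : sqMap m' m (sqMap m m' x) = mkH (((pv (w0 m) / qv (w0 m) *
      (ca m' (sqMap m m' x) - tv (w0 m) ^ 2 * cb m' (sqMap m m' x)) : ℝ) : ℂ),
      tv (w0 m) * cb m' (sqMap m m' x)) := rfl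
  rw [e, h2, h3]
  have e1 : pv (w0 m) / qv (w0 m) * (ca m x - tv (w0 m) ^ 2 * cb m x) = (kx x).re := by
    unfold ca cb
    field_simp
    ring
  have e2 : tv (w0 m) * cb m x = kz x := by
    unfold cb
    field_simp
  have e3 : (((kx x).re : ℝ) : ℂ) = kx x := by
    apply Complex.ext
    · rw [Complex.ofReal_re]
    · rw [Complex.ofReal_im, s1_im hx.2]
  rw [e1, e2, e3]
  exact mkH_kx x

theorem sqMap_cont {m m' : ℕ} (hm : 13 ≤ m) (ho : Odd m) (hm' : 13 ≤ m') (ho' : Odd m') :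
    ContinuousOn (sqMap m m') (cham (evH (w0 m) m) ∩ Pl) := by
  have ca_cont : Continuous (ca m) := by
    unfold ca
    exact (continuous_const.mul (Complex.continuous_re.comp kx_continuous)).add
      (continuous_const.mul kz_continuous)
  have cb_cont : Continuous (cb m) := by
    unfold cb
    exact kz_continuous.div_const _
  have hf : Continuous (fun x : H3 => (((pv (w0 m') / qv (w0 m') *
      (ca m x - tv (w0 m') ^ 2 * cb m x) : ℝ) : ℂ), tv (w0 m') * cb m x)) := by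
    refine Continuous.prodMk ?_ (continuous_const.mul cb_cont)
    exact Complex.continuous_ofReal.comp
      (continuous_const.mul (ca_cont.sub (continuous_const.mul cb_cont)))
  have h2 := mkH_cont.comp hf.continuousOn (s := cham (evH (w0 m) m) ∩ Pl) (fun x hx => by
    obtain ⟨ha, hb⟩ := s1_bd hm ho x hx
    exact s1_ball (w0_pos hm') (w0_le hm') ha hb)
  exact h2

end CEE
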