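import Pool.Agent.CEE.T4b

set_option autoImplicit false

/-!
# [CEE-X1] Equivariant extension of a map between chambers
-/

namespace CEE

open Pool.Agent.MP_8db1a4_gt Set

/- PROOF NOTES [CEE-X1].
`extend`: define `Ψ x = ρ'(w) ψ(ρ(w)⁻¹ x)` for a chosen `w` with `ρ(w)⁻¹ x ∈ cham e` (`fold_spec`: `x = ρ(w) (fold x)`), so `Ψ x = ρ'(w) ψ (fold x)`.
Independence (`key`): if `y ∈ cham e ∩ P` and `ρ(g) y = y` with `g ∈ wallsAt y` then `ρ'(g) ψ y = ψ y`: `closure_induction`; the generators `s` with `lor y (e s) = 0` satisfy `lor (ψ y) (e' s) = 0`, so `ρ'(s)` fixes `ψ y` (`rho_simple_apply`).  If `ρ(w) y = ρ(w') y'` with `y, y' ∈ cham`, then `y = y'` and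
 `w'⁻¹ w ∈ wallsAt y` (`RS.fixed`).  Hence `Ψ (ρ(w) y) = ρ'(w) ψ y` for all `w` and `y ∈ cham e ∩ P`; equivariance follows.  `fold x ∈ P` if `x ∈ P` (invariance).
Continuity on `P`: the sets `ρ(w) (cham e) ∩ P` are closed, locally finite (`finite_orbit`: if `ρ(w) cham` meets `ball x 1` then .. careful: `cham` is not bounded: `ρ(w) y ∈ ball x 1`, `y ∈ cham`: `fold` is 1-Lipschitz, so `dist y (fold x) < 1`, `dist x (ρ(w) fold x) ≤ 1 + 1`: finitely many `w`), and on each of them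
 `Ψ = ρ'(w) ∘ ψ ∘ ρ(w)⁻¹` is continuous.  `LocallyFinite.continuousOn_iUnion`-type lemma (`LocallyFinite.continuous` on the subtype `P`).
`extend_pair`: apply `extend` to `ψ` and to `ψ'`; `Ψ' (Ψ (ρ(w) y)) = ρ(w) ψ'(ψ y) = ρ(w) y` for `y ∈ cham e ∩ P`; every `x ∈ P` is of this form. -/

variable {ι : Type} [Finite ι] {M : CoxeterMatrix ι} {e e' : ι → V}

omit [Finite ι] in
theorem x1_fix (h' : RS M e') {y z : H3} (hf : ∀ s, lor y.val (e s) = 0 → lor z.val (e' s) = 0)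
    (g : M.Group) (hg : g ∈ wallsAt M e y) : h'.rho g • z = z := by
  refine Subgroup.closure_induction (p := fun g _ => h'.rho g • z = z) ?_ ?_ ?_ ?_ hg
  · rintro g ⟨s, hs, rfl⟩
    apply Hy.ext'
    rw [smul_val, h'.rho_simple_apply, hf s hs, mul_zero, zero_smul, sub_zero]
  · rw [map_one, one_smul]
  · intro a b _ _ ha hb
    rw [map_mul, mul_smul, hb, ha]
  · intro a _ ha
    have h1 : h'.rho a⁻¹ • (h'.rho a • z) = z := t4b_inv h' a z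
    rw [ha] at h1
    exact h1

omit [Finite ι] in
theorem x1_ind (h : RS M e) (h' : RS M e') {y z : H3} (hy : y ∈ cham e)
    (hf : ∀ s, lor y.val (e s) = 0 → lor z.val (e' s) = 0) (w w₂ : M.Group)
    (hw : h.rho w • y = h.rho w₂ • y) : h'.rho w • z = h'.rho w₂ • z := by
  have h1 : h.rho (w₂⁻¹ * w) • y = y := by
    rw [map_mul, mul_smul, hw]
    exact t4b_inv h w₂ y
  have h2 := (h.fixed (w₂⁻¹ * w) y hy (by rw [h1]; exact hy)).2
  have h3 := x1_fix h' hf _ h2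
  have h4 : h'.rho w₂ • (h'.rho (w₂⁻¹ * w) • z) = h'.rho w • z := by
    rw [← mul_smul, ← map_mul, mul_inv_cancel_left]
  rw [← h4, h3]

theorem x1_foldP (h : RS M e) (P : Set H3) (hP : ∀ w : M.Group, ∀ x ∈ P, h.rho w • x ∈ P) {x : H3}
    (hx : x ∈ P) : h.fold x ∈ cham e ∩ P := by
  obtain ⟨w, hw⟩ := h.fold_spec x
  refine ⟨h.fold_mem x, ?_⟩
  have h1 := hP w⁻¹ x hx
  have h2 : h.rho w⁻¹ • x = h.fold x := by
    conv_lhs => rw [hw]
    exact t4b_inv h w _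
  rwa [h2] at h1

theorem extend (h : RS M e) (h' : RS M e') (P P' : Set H3)
    (hP : ∀ w : M.Group, ∀ x ∈ P, h.rho w • x ∈ P) (hP' : ∀ w : M.Group, ∀ x ∈ P', h'.rho w • x ∈ P')
    (ψ : H3 → H3) (hψ : ContinuousOn ψ (cham e ∩ P)) (hm : MapsTo ψ (cham e ∩ P) (cham e' ∩ P'))
    (hf : ∀ x ∈ cham e ∩ P, ∀ s, lor x.val (e s) = 0 → lor (ψ x).val (e' s) = 0) :
    ∃ Ψ : H3 → H3, ContinuousOn Ψ P ∧ MapsTo Ψ P P' ∧ (∀ x ∈ cham e ∩ P, Ψ x = ψ x) ∧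
      ∀ w : M.Group, ∀ x ∈ P, Ψ (h.rho w • x) = h'.rho w • Ψ x := by
  choose W hW using h.fold_spec
  obtain ⟨Ψ, hΨ⟩ : ∃ Ψ : H3 → H3, Ψ = fun x => h'.rho (W x) • ψ (h.fold x) := ⟨_, rfl⟩
  have hΨx : ∀ x, Ψ x = h'.rho (W x) • ψ (h.fold x) := fun x => by rw [hΨ]
  have key : ∀ w : M.Group, ∀ y ∈ cham e ∩ P, Ψ (h.rho w • y) = h'.rho w • ψ y := by
    intro w y hy
    have h1 : h.fold (h.rho w • y) = y := by rw [h.fold_smul, h.fold_of_mem y hy.1]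
    have h2 := hW (h.rho w • y)
    rw [h1] at h2
    rw [hΨx, h1]
    exact x1_ind h h' hy.1 (hf y hy) _ _ h2.symm
  have hfold : ∀ x ∈ P, h.fold x ∈ cham e ∩ P := fun x hx => x1_foldP h P hP hx
  refine ⟨Ψ, ?_, ?_, ?_, ?_⟩
  · intro x₀ hx₀
    have hy₀ := hfold x₀ hx₀
    obtain ⟨y₀, hy₀e⟩ : ∃ y, y = h.fold x₀ := ⟨_, rfl⟩
    rw [← hy₀e] at hy₀
    -- separation
    have hfin := h.finite_orbit x₀ y₀ 2
    have hδ : ∃ δ : ℝ, 0 < δ ∧ ∀ w : M.Group, dist x₀ (h.rho w • y₀) < δ → h.rho w • y₀ = x₀ := by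
      have hfin2 : ((fun w : M.Group => dist x₀ (h.rho w • y₀)) ''
          {w : M.Group | dist x₀ (h.rho w • y₀) ≤ 2} \ {0}).Finite := (hfin.image _).sdiff
      obtain ⟨δ, hδ0, hδ⟩ : ∃ δ : ℝ, 0 < δ ∧ ∀ t ∈ ((fun w : M.Group => dist x₀ (h.rho w • y₀)) ''
          {w : M.Group | dist x₀ (h.rho w • y₀) ≤ 2} \ {0}), δ ≤ t := by
        rcases Set.eq_empty_or_nonempty ((fun w : M.Group => dist x₀ (h.rho w • y₀)) ''
          {w : M.Group | dist x₀ (h.rho w • y₀) ≤ 2} \ {0}) with he | hne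
        · exact ⟨1, one_pos, fun t ht => by rw [he] at ht; exact absurd ht (Set.notMem_empty t)⟩
        · obtain ⟨t, ht, hmin⟩ := Set.exists_min_image _ id hfin2 hne
          refine ⟨t, ?_, fun t' ht' => hmin t' ht'⟩
          obtain ⟨⟨w, -, rfl⟩, h2⟩ := ht
          exact lt_of_le_of_ne dist_nonneg (fun h3 => h2 h3.symm)
      refine ⟨min δ 2, lt_min hδ0 two_pos, fun w hw => ?_⟩
      by_contra hne
      have h1 : dist x₀ (h.rho w • y₀) ≠ 0 := fun h2 => hne (dist_eq_zero.1 h2).symm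
      have h2 := hδ _ ⟨⟨w, (hw.trans_le (min_le_right _ _)).le, rfl⟩, h1⟩
      exact absurd (hw.trans_le (min_le_left _ _)) (not_lt.2 h2)
    obtain ⟨δ, hδ0, hδ⟩ := hδ
    have hψ₀ := hψ y₀ hy₀
    rw [Metric.continuousWithinAt_iff] at hψ₀ ⊢
    intro ε hε
    obtain ⟨η, hη, hη2⟩ := hψ₀ ε hε
    refine ⟨min η (δ / 2), lt_min hη (half_pos hδ0), ?_⟩
    intro x hx hd
    have hd1 : dist x x₀ < η := hd.trans_le (min_le_left _ _)
    have hd2 : dist x x₀ < δ / 2 := hd.trans_le (min_le_right _ _)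
    have hfd : dist (h.fold x) y₀ ≤ dist x x₀ := by
      rw [hy₀e]
      exact h.fold_dist x x₀
    have hwx : h.rho (W x) • y₀ = x₀ := by
      apply hδ
      have h1 : dist x₀ (h.rho (W x) • y₀) ≤ dist x₀ x + dist x (h.rho (W x) • y₀) :=
        dist_triangle _ _ _
      have h2 : dist x (h.rho (W x) • y₀) = dist (h.fold x) y₀ := by
        obtain ⟨w, hw⟩ : ∃ w, w = W x := ⟨_, rfl⟩
        have h3 := hW x
        rw [← hw] at h3 ⊢
        have h4 : dist x (h.rho w • y₀) = dist (h.rho w • h.fold x) (h.rho w • y₀) := by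
          rw [← h3]
        rw [h4, dist_smul_smul]
      rw [h2, dist_comm x₀ x] at h1
      linarith
    have h1 : Ψ x₀ = h'.rho (W x) • ψ y₀ := by
      have h2 := key (W x) y₀ hy₀
      rwa [hwx] at h2
    rw [h1, hΨx, dist_smul_smul]
    exact hη2 (hfold x hx) (hfd.trans_lt hd1)
  · intro x hx
    rw [hΨx]
    exact hP' _ _ (hm (hfold x hx)).2
  · intro x hx
    have h1 := key 1 x hx
    rwa [map_one, one_smul, map_one, one_smul] at h1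
  · intro w x hx
    have h1 := key (w * W x) (h.fold x) (hfold x hx)
    rw [map_mul, mul_smul, ← hW x, map_mul, mul_smul, ← hΨx] at h1
    exact h1

theorem extend_pair (h : RS M e) (h' : RS M e') (P P' : Set H3)
    (hP : ∀ w : M.Group, ∀ x ∈ P, h.rho w • x ∈ P) (hP' : ∀ w : M.Group, ∀ x ∈ P', h'.rho w • x ∈ P')
    (ψ ψ' : H3 → H3) (hψ : ContinuousOn ψ (cham e ∩ P)) (hψ' : ContinuousOn ψ' (cham e' ∩ P'))
    (hm : MapsTo ψ (cham e ∩ P) (cham e' ∩ P')) (hm' : MapsTo ψ' (cham e' ∩ P') (cham e ∩ P))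
    (hf : ∀ x ∈ cham e ∩ P, ∀ s, lor x.val (e s) = 0 → lor (ψ x).val (e' s) = 0)
    (hf' : ∀ x ∈ cham e' ∩ P', ∀ s, lor x.val (e' s) = 0 → lor (ψ' x).val (e s) = 0)
    (hi : ∀ x ∈ cham e ∩ P, ψ' (ψ x) = x) (hi' : ∀ x ∈ cham e' ∩ P', ψ (ψ' x) = x) :
    ∃ Ψ Ψ' : H3 → H3, ContinuousOn Ψ P ∧ ContinuousOn Ψ' P' ∧ MapsTo Ψ P P' ∧ MapsTo Ψ' P' P ∧
      (∀ x ∈ P, Ψ' (Ψ x) = x) ∧ (∀ x ∈ P', Ψ (Ψ' x) = x) ∧
      (∀ w : M.Group, ∀ x ∈ P, Ψ (h.rho w • x) = h'.rho w • Ψ x) ∧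
      ∀ w : M.Group, ∀ x ∈ P', Ψ' (h'.rho w • x) = h.rho w • Ψ' x := by
  obtain ⟨Ψ, c1, c2, c3, c4⟩ := extend h h' P P' hP hP' ψ hψ hm hf
  obtain ⟨Ψ', d1, d2, d3, d4⟩ := extend h' h P' P hP' hP ψ' hψ' hm' hf'
  refine ⟨Ψ, Ψ', c1, d1, c2, d2, ?_, ?_, c4, d4⟩
  · intro x hx
    obtain ⟨w, hw⟩ := h.fold_spec x
    have hy := x1_foldP h P hP hx
    have h1 := c4 w _ hy.2
    rw [← hw, c3 _ hy] at h1
    rw [h1, d4 w _ (hm hy).2, d3 _ (hm hy), hi _ hy, ← hw]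
  · intro x hx
    obtain ⟨w, hw⟩ := h'.fold_spec x
    have hy := x1_foldP h' P' hP' hx
    have h1 := d4 w _ hy.2
    rw [← hw, d3 _ hy] at h1
    rw [h1, c4 w _ (hm' hy).2, c3 _ (hm' hy), hi' _ hy, ← hw]

end CEE
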