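import Pool.Agent.CEE.S1
import Pool.Agent.CEE.X1

set_option autoImplicit false

/-!
# [CEE-S2] The boundary surfaces are all homeomorphic
-/

namespace CEE

open Pool.Agent.MP_8db1a4_gt Set Real

/-- the boundary plane modulo the boundary group -/
def plSetoid {m : ℕ} (hm : 13 ≤ m) (ho : Odd m) : Setoid Pl where
  r x y := ∃ k ∈ KH, x.1 = (RSH hm ho).rho k • y.1
  iseqv :=
    { refl := fun x => ⟨1, one_mem _, by rw [map_one, one_smul]⟩
      symm := by
        rintro x y ⟨k, hk, h⟩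
        exact ⟨k⁻¹, inv_mem hk, by rw [h, map_inv, inv_smul_smul]⟩
      trans := by
        rintro x y z ⟨k, hk, h⟩ ⟨l, hl, h'⟩
        exact ⟨k * l, mul_mem hk hl, by rw [h, h', map_mul, mul_smul]⟩ }

/-- the boundary surface -/
abbrev Sm {m : ℕ} (hm : 13 ≤ m) (ho : Odd m) : Type := Quotient (plSetoid hm ho)

/- PROOF NOTES [CEE-S2].
`Pl_inv`: `rho_incl` (with `RS0 hm`, `RSH hm ho`), `incl m ho g ∈ Hs m` (`incl_range`), `Pl_smul`.
`Pl_conn`: `Pl` is the image of `ℝ × ℝ` under the continuous map `(s, h) ↦ pt 0 s h` (`pt` from C4a: import it; `x.val.1 1 = 0`, `x₁ = sinh s`, `x₃ = cosh s sinh h`, `x₀ = cosh s cosh h`), or: `Pl` is convex and nonempty.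
`Sm_homeo`: `extend_pair` for `RSH hm ho`, `RSH hm' ho'`, `P = P' = Pl`, `ψ = sqMap m m'`, `ψ' = sqMap m' m` (S1).  The maps `Ψ : Pl → Pl` descend to the quotients (equivariance: `KH` is the same subgroup of `CH.Group` for all `m`); continuity: `ContinuousOn.restrict`, `Continuous.quotient_map'`/`continuous_quot_lift`; a `Homeomorph` from the two inverse continuous maps.
`Sm_conn`: image of the connected space `Pl` (`Pl_conn`, `isConnected_iff_connectedSpace`, `Quotient.mk` surjective and continuous). -/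

theorem Pl_inv {m : ℕ} (hm : 13 ≤ m) (ho : Odd m) (g : CH.Group) (x : H3) (hx : x ∈ Pl) :
    (RSH hm ho).rho g • x ∈ Pl := by
  have h1 : incl m ho g ∈ Hs m := by
    rw [← incl_range m ho]
    exact ⟨g, rfl⟩
  have h2 := (Pl_smul hm ho (incl m ho g) h1 x).2 hx
  rwa [rho_incl m ho (RS0 hm) (RSH hm ho)] at h2

/-- the disc of Klein coordinates of the points of `Pl` -/
def s2_D : Set (ℂ × ℝ) := {a | a ∈ Kball ∧ a.1.im = 0}

theorem s2_D_star : StarConvex ℝ (0 : ℂ × ℝ) s2_D := by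
  rw [starConvex_zero_iff]
  rintro ⟨a, b⟩ ⟨h1, h2⟩ t ht0 ht1
  have h1' : ‖a‖ ^ 2 + b ^ 2 < 1 := h1
  have h2' : a.im = 0 := h2
  refine ⟨?_, ?_⟩
  · show ‖(t : ℝ) • a‖ ^ 2 + (t • b) ^ 2 < 1
    rw [norm_smul, Real.norm_eq_abs, mul_pow, sq_abs, smul_eq_mul, mul_pow]
    have h3 : t ^ 2 ≤ 1 := by nlinarith
    have h4 : 0 ≤ ‖a‖ ^ 2 + b ^ 2 := by positivity
    nlinarith
  · show ((t : ℝ) • a).im = 0
    rw [Complex.smul_im, h2', smul_zero]

theorem s2_zero_mem : (0 : ℂ × ℝ) ∈ s2_D := by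
  refine ⟨?_, rfl⟩
  show ‖(0 : ℂ)‖ ^ 2 + (0 : ℝ) ^ 2 < 1
  rw [norm_zero]
  norm_num

theorem s2_image : mkH '' s2_D = Pl := by
  ext x
  constructor
  · rintro ⟨a, ⟨ha, ha'⟩, rfl⟩
    apply s1_mem
    rw [(mkH_spec a ha).1]
    exact ha'
  · intro hx
    exact ⟨(kx x, kz x), ⟨klein_mem x, s1_im hx⟩, mkH_kx x⟩

theorem Pl_conn : IsConnected Pl := by
  rw [← s2_image]
  exact (s2_D_star.isPathConnected s2_zero_mem).isConnected.image mkH
    (mkH_cont.mono fun a ha => ha.1)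

theorem Sm_homeo {m m' : ℕ} (hm : 13 ≤ m) (ho : Odd m) (hm' : 13 ≤ m') (ho' : Odd m') :
    Nonempty (Sm hm ho ≃ₜ Sm hm' ho') := by
  obtain ⟨F, F', hF, hF', hm1, hm2, hi, hi', he, he'⟩ := extend_pair (RSH hm ho) (RSH hm' ho') Pl Pl
    (fun w x hx => Pl_inv hm ho w x hx) (fun w x hx => Pl_inv hm' ho' w x hx)
    (sqMap m m') (sqMap m' m) (sqMap_cont hm ho hm' ho') (sqMap_cont hm' ho' hm ho)
    (fun x hx => sqMap_mem hm ho hm' ho' x hx) (fun x hx => sqMap_mem hm' ho' hm ho x hx)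
    (fun x hx s hs => sqMap_face hm ho hm' ho' x hx s hs)
    (fun x hx s hs => sqMap_face hm' ho' hm ho x hx s hs)
    (fun x hx => sqMap_inv hm ho hm' ho' x hx) (fun x hx => sqMap_inv hm' ho' hm ho x hx)
  let G : Pl → Pl := fun x => ⟨F x.1, hm1 x.2⟩
  let G' : Pl → Pl := fun x => ⟨F' x.1, hm2 x.2⟩
  have hG : Continuous G := Continuous.subtype_mk hF.restrict _
  have hG' : Continuous G' := Continuous.subtype_mk hF'.restrict _
  let f : Sm hm ho → Sm hm' ho' := Quotient.lift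
    (fun x : Pl => (Quotient.mk (plSetoid hm' ho') (G x) : Sm hm' ho')) (by
      rintro x y ⟨k, hk, h⟩
      refine Quotient.sound (s := plSetoid hm' ho') ⟨k, hk, ?_⟩
      show F x.1 = (RSH hm' ho').rho k • F y.1
      rw [h, he k y.1 y.2])
  let f' : Sm hm' ho' → Sm hm ho := Quotient.lift
    (fun x : Pl => (Quotient.mk (plSetoid hm ho) (G' x) : Sm hm ho)) (by
      rintro x y ⟨k, hk, h⟩
      refine Quotient.sound (s := plSetoid hm ho) ⟨k, hk, ?_⟩
      show F' x.1 = (RSH hm ho).rho k • F' y.1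
      rw [h, he' k y.1 y.2])
  refine ⟨⟨⟨f, f', ?_, ?_⟩, ?_, ?_⟩⟩
  · intro q
    induction q using Quotient.inductionOn with
    | h x =>
      show (Quotient.mk (plSetoid hm ho) (G' (G x)) : Sm hm ho) = Quotient.mk (plSetoid hm ho) x
      congr 1
      exact Subtype.ext (hi x.1 x.2)
  · intro q
    induction q using Quotient.inductionOn with
    | h x =>
      show (Quotient.mk (plSetoid hm' ho') (G (G' x)) : Sm hm' ho') = Quotient.mk (plSetoid hm' ho') x
      congr 1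
      exact Subtype.ext (hi' x.1 x.2)
  · exact Continuous.quotient_lift (continuous_quot_mk.comp hG) _
  · exact Continuous.quotient_lift (continuous_quot_mk.comp hG') _

theorem Sm_conn {m : ℕ} (hm : 13 ≤ m) (ho : Odd m) : ConnectedSpace (Sm hm ho) := by
  haveI : ConnectedSpace Pl := isConnected_iff_connectedSpace.1 Pl_conn
  infer_instance

end CEE
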