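import Pool.Agent.CEE.S2
import Pool.Agent.CEE.F4a

set_option autoImplicit false

/-!
# [CEE-S3] The boundary of the convex core
-/

namespace CEE

open Pool.Agent.MP_8db1a4_gt Set Real

/- PROOF NOTES [CEE-S3].
`Mfd_t2`: for `a = proj x ≠ proj y = b`: `δ = d0 x y > 0` (`qd_eq_zero`, `proj_eq`).  `U = {c | d0 x c̃ < δ/2}`, `V = {c | d0 y c̃ < δ/2}` (well defined by `qd_smul_right`; formally: images under `proj` of the open sets `{z | d0 x z < δ/2}`; they are saturated; open because `z ↦ d0 x z` is continuous: `|d0 x z - d0 x z'| ≤ dist z z'`: `qd_triangle`, `qd_le_dist`;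
 `isOpen_coinduced`/`isQuotientMap_quotient_mk'`), disjoint by the triangle inequality.
`Sm_compact`: `KH_cocompact`: every `x ∈ Pl` has a `k ∈ K ∩ Hs` with `ρ(k) x` in the ball around `O`; `k = incl g` (`incl_range`), `phiH g = phi m (incl g) = 1`, `g ∈ KH`, `ρ(k) = (RSH).rho g` (`rho_incl`).  So `Sm` is the image of the compact set `Pl ∩ closedBall O C` (`Pl` closed; `B1c.hy_proper 3`).
`coreBd_homeo`: the map `[x] ↦ proj x`, `Sm → coreBd`: `hull_Gam0`, `frontier_of` with `v = 1`: in `coreBd`; well defined and continuous; surjective: `frontier_exists`: `x = ρ(v) y`, `v = k h` (`exists_KH`), `ρ(h) y ∈ Pl` (`Pl_smul`), `proj x = proj (ρ(h) y)`; injective: `x = ρ(k) y` with `k ∈ K`, `coset`: `k ∈ Hs`, `k = incl g`, `g ∈ KH`.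
 `Continuous.homeoOfEquivCompactToT2` (`Sm` compact, `coreBd` is Hausdorff as a subspace of `Mfd`). -/

theorem s3_KH {m : ℕ} (ho : Odd m) (g : CH.Group) : incl m ho g ∈ K m ↔ g ∈ KH := by
  show phi m (incl m ho g) = 1 ↔ phiH g = 1
  rw [phi_incl]

theorem s3_lip {m : ℕ} (hm : 13 ≤ m) (x : H3) : Continuous (fun z : H3 => d0 hm x z) := by
  have h : LipschitzWith 1 (fun z : H3 => d0 hm x z) := by
    apply LipschitzWith.of_le_add
    intro z z'
    have h1 := qd_triangle (RS0 hm) (K m) x z' z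
    have h2 := qd_le_dist (RS0 hm) (K m) z' z
    rw [dist_comm z z']
    unfold d0
    linarith
  exact h.continuous

theorem s3_proj {m : ℕ} (hm : 13 ≤ m) (x y : H3) :
    proj (Gam0 hm) x = proj (Gam0 hm) y ↔ ∃ k ∈ K m, x = (RS0 hm).rho k • y :=
  proj_eq (RS0 hm) (K m) x y

theorem s3_proj_cont (Γ : Subgroup O31) : Continuous (proj Γ) := continuous_quot_mk

theorem s3_proj_surj (Γ : Subgroup O31) (a : Mfd Γ) : ∃ x, proj Γ x = a :=
  Quotient.exists_rep a

theorem Mfd_t2 {m : ℕ} (hm : 13 ≤ m) : T2Space (Mfd (Gam0 hm)) := by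
  refine ⟨fun a b hab => ?_⟩
  obtain ⟨x, rfl⟩ := s3_proj_surj _ a
  obtain ⟨y, rfl⟩ := s3_proj_surj _ b
  let f : Mfd (Gam0 hm) → ℝ := Quotient.lift (fun z : H3 => d0 hm x z) (by
    intro z z' h
    have h1 : proj (Gam0 hm) z = proj (Gam0 hm) z' := Quotient.sound h
    obtain ⟨k, hk, h2⟩ := (s3_proj hm z z').1 h1
    show d0 hm x z = d0 hm x z'
    rw [h2]
    exact qd_smul_right (RS0 hm) (K m) x z' k hk)
  have hf : Continuous f := Continuous.quotient_lift (s3_lip hm x) _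
  apply separated_by_continuous hf
  show d0 hm x x ≠ d0 hm x y
  have h0 : d0 hm x x = 0 := by
    have h1 := qd_le_dist (RS0 hm) (K m) x x
    have h2 := qd_nonneg (RS0 hm) (K m) x x
    rw [dist_self] at h1
    exact le_antisymm h1 h2
  rw [h0]
  intro h
  exact hab ((s3_proj hm x y).2 ((qd_eq_zero (RS0 hm) (K m) x y).1 h.symm))

theorem s3_Pl_closed : IsClosed Pl := by
  have h : Continuous (fun x : H3 => lor x.val vF) :=
    (continuous_lor 3).comp ((hy_val_continuous 3).prodMk continuous_const)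
  exact isClosed_singleton.preimage h

theorem Sm_compact {m : ℕ} (hm : 13 ≤ m) (ho : Odd m) : CompactSpace (Sm hm ho) := by
  obtain ⟨C, hC⟩ := KH_cocompact hm ho
  haveI := hy_proper 3
  have h1 : IsCompact ((Subtype.val : Pl → H3) ⁻¹' Metric.closedBall O C) :=
    s3_Pl_closed.isClosedEmbedding_subtypeVal.isCompact_preimage (isCompact_closedBall O C)
  have h2 : IsCompact ((fun x : Pl => (Quotient.mk (plSetoid hm ho) x : Sm hm ho)) ''
      ((Subtype.val : Pl → H3) ⁻¹' Metric.closedBall O C)) := h1.image continuous_quot_mk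
  refine ⟨?_⟩
  convert h2 using 1
  symm
  rw [eq_univ_iff_forall]
  intro q
  obtain ⟨x, rfl⟩ := Quotient.exists_rep q
  obtain ⟨k, hk, hkH, hd⟩ := hC x.1 x.2
  rw [← incl_range m ho] at hkH
  obtain ⟨g, rfl⟩ := hkH
  rw [rho_incl m ho (RS0 hm) (RSH hm ho)] at hd
  have hg : g ∈ KH := (s3_KH ho g).1 hk
  refine ⟨⟨(RSH hm ho).rho g • x.1, Pl_inv hm ho g x.1 x.2⟩, ?_, ?_⟩
  · show (RSH hm ho).rho g • x.1 ∈ Metric.closedBall O C
    rw [Metric.mem_closedBall, dist_comm]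
    exact hd
  · exact Quotient.sound (s := plSetoid hm ho) ⟨g, hg, rfl⟩

theorem s3_front {m : ℕ} (hm : 13 ≤ m) (ho : Odd m) (x : H3) (hx : x ∈ Pl) :
    x ∈ frontier (hull (Gam0 hm)) := by
  rw [hull_Gam0 hm ho]
  have h := frontier_of hm ho 1 x hx
  rwa [map_one, one_smul] at h

theorem coreBd_homeo {m : ℕ} (hm : 13 ≤ m) (ho : Odd m) :
    Nonempty (Sm hm ho ≃ₜ coreBd (Gam0 hm)) := by
  haveI := Mfd_t2 hm
  haveI := Sm_compact hm ho
  let f : Sm hm ho → coreBd (Gam0 hm) := Quotient.lift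
    (fun x : Pl => (⟨proj (Gam0 hm) x.1, ⟨x.1, s3_front hm ho x.1 x.2, rfl⟩⟩ : coreBd (Gam0 hm))) (by
      rintro x y ⟨k, hk, h⟩
      apply Subtype.ext
      show proj (Gam0 hm) x.1 = proj (Gam0 hm) y.1
      rw [s3_proj]
      refine ⟨incl m ho k, (s3_KH ho k).2 hk, ?_⟩
      rw [rho_incl m ho (RS0 hm) (RSH hm ho)]
      exact h)
  have hf : Continuous f := Continuous.quotient_lift
    (Continuous.subtype_mk ((s3_proj_cont _).comp continuous_subtype_val) _) _
  have hinj : Function.Injective f := by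
    intro p q
    obtain ⟨x, rfl⟩ := Quotient.exists_rep p
    obtain ⟨y, rfl⟩ := Quotient.exists_rep q
    intro h
    have h1 : proj (Gam0 hm) x.1 = proj (Gam0 hm) y.1 := congrArg Subtype.val h
    obtain ⟨k, hk, h2⟩ := (s3_proj hm x.1 y.1).1 h1
    have h3 : k ∈ Hs m := coset hm ho k y.1 y.2 (by rw [← h2]; exact x.2)
    rw [← incl_range m ho] at h3
    obtain ⟨g, rfl⟩ := h3
    refine Quotient.sound (s := plSetoid hm ho) ⟨g, (s3_KH ho g).1 hk, ?_⟩
    rw [h2, rho_incl m ho (RS0 hm) (RSH hm ho)]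
  have hsur : Function.Surjective f := by
    rintro ⟨a, x, hx, rfl⟩
    rw [hull_Gam0 hm ho] at hx
    obtain ⟨v, y, -, hy, h2⟩ := frontier_exists hm x hx
    obtain ⟨k, hk, h, hh, hv⟩ := exists_KH m ho v
    have hz : (RS0 hm).rho h • y ∈ Pl := (Pl_smul hm ho h hh y).2 hy
    refine ⟨Quotient.mk (plSetoid hm ho) ⟨_, hz⟩, ?_⟩
    apply Subtype.ext
    show proj (Gam0 hm) ((RS0 hm).rho h • y) = proj (Gam0 hm) x
    symm
    rw [s3_proj]
    exact ⟨k, hk, by rw [h2, hv, map_mul, mul_smul]⟩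
  exact ⟨Continuous.homeoOfEquivCompactToT2 (f := Equiv.ofBijective f ⟨hinj, hsur⟩) hf⟩

end CEE
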