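import Pool.Agent.CEE.Base

set_option autoImplicit false

/-!
# [CEE-T1] Chamber systems: the reflection group of a Coxeter matrix with labels 2, 4, ∞
-/

namespace CEE

open Pool.Agent.MP_8db1a4_gt Set

variable {ι : Type}

/-- The unit vectors `e s` are the outer normals of the walls of a chamber with interior points; the
dihedral angles are `π/2` (label 2), `π/4` (label 4), or the walls do not meet (label `∞`, written `0`). -/
structure RS (M : CoxeterMatrix ι) (e : ι → V) : Prop where
  unit : ∀ s, lor (e s) (e s) = 1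
  gram : ∀ s t, s ≠ t → (M s t = 2 ∧ lor (e s) (e t) = 0) ∨
    (M s t = 4 ∧ lor (e s) (e t) = -(Real.sqrt 2 / 2)) ∨ (M s t = 0 ∧ lor (e s) (e t) ≤ -1)
  inter : ∃ x : H3, ∀ s, lor x.val (e s) < 0

/-- The closed chamber. -/
def cham (e : ι → V) : Set H3 := {x | ∀ s, lor x.val (e s) ≤ 0}

/- PROOF NOTES [CEE-T1].
`refl_pow_two`: `Subtype.ext`, `LinearEquiv.ext`; `(refl a * refl b) X = X - 2 ⟨X,a⟩ a - 2 ⟨X,b⟩ b` if `⟨a,b⟩ = 0` (it is an involution).
Use `refl_apply`, `lor_sub_left`, `lor_smul_left`, `LinearEquiv.mul_apply`, `module`/`linear_combination (exp := ..)` on vectors (`module`, or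
`linear_combination (_ : ℝ) • a`).
`refl_pow_four`: with `k = ⟨a,b⟩ = - √2/2`, `k² = 1/2`: compute `(r_a r_b)² X`, it equals `X` minus a combination; easier: show
`(r_a r_b)² = (r_b r_a)²` by computing both on `X` (both are `X ↦ X - (2⟨X,a⟩ + 2√2 ⟨X,b⟩ ...)`: just expand both sides with `k² = 1/2`), then
`(r_a r_b)^4 = (r_a r_b)² (r_a r_b)² = (r_a r_b)² (r_b r_a)² = 1`.
`liftable`: `M s s = 1` (`M.diagonal`), `refl_mul_self`; the other cases from `gram` (`pow_zero` for label `0`).
`rho_simple`: `CoxeterSystem.lift_apply_simple`, `CoxeterMatrix.toCoxeterSystem_simple`. -/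

theorem t1_mul_apply (g g' : O31) (X : V) : (g * g').1 X = g.1 (g'.1 X) := rfl

theorem t1_comm {a b : V} (ha : lor a a = 1) (hb : lor b b = 1) (hab : lor a b = 0) :
    refl a ha * refl b hb = refl b hb * refl a ha := by
  apply Subtype.ext
  apply LinearEquiv.ext
  intro X
  have hba : lor b a = 0 := by rw [lor_comm, hab]
  show (refl a ha).1 ((refl b hb).1 X) = (refl b hb).1 ((refl a ha).1 X)
  simp only [refl_apply, lor_sub_left, lor_smul_left, hab, hba]
  module

theorem t1_braid {a b : V} (ha : lor a a = 1) (hb : lor b b = 1) {k : ℝ} (hab : lor a b = k)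
    (hk : k * k = 1 / 2) (X : V) :
    (refl a ha).1 ((refl b hb).1 ((refl a ha).1 ((refl b hb).1 X))) =
      X - (4 * lor X a - 4 * lor X b * k) • a - (4 * lor X b - 4 * lor X a * k) • b := by
  have hba : lor b a = k := by rw [lor_comm, hab]
  have h1 : (refl b hb).1 X = X - (2 * lor X b) • b := refl_apply _ _ _
  have h1a : lor ((refl b hb).1 X) a = lor X a - 2 * lor X b * k := by
    rw [h1, lor_sub_left, lor_smul_left, hba]
  have h1b : lor ((refl b hb).1 X) b = -lor X b := by
    rw [h1, lor_sub_left, lor_smul_left, hb]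
    ring
  have h2 : (refl a ha).1 ((refl b hb).1 X) =
      (refl b hb).1 X - (2 * (lor X a - 2 * lor X b * k)) • a := by rw [refl_apply, h1a]
  have h2a : lor ((refl a ha).1 ((refl b hb).1 X)) a = -(lor X a - 2 * lor X b * k) := by
    rw [h2, lor_sub_left, lor_smul_left, ha, h1a]
    ring
  have h2b : lor ((refl a ha).1 ((refl b hb).1 X)) b = lor X b - 2 * lor X a * k := by
    rw [h2, lor_sub_left, lor_smul_left, hab, h1b]
    linear_combination 4 * lor X b * hk
  have h3 : (refl b hb).1 ((refl a ha).1 ((refl b hb).1 X)) =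
      (refl a ha).1 ((refl b hb).1 X) - (2 * (lor X b - 2 * lor X a * k)) • b := by
    rw [refl_apply b hb ((refl a ha).1 ((refl b hb).1 X)), h2b]
  have h3a : lor ((refl b hb).1 ((refl a ha).1 ((refl b hb).1 X))) a = lor X a := by
    rw [h3, lor_sub_left, lor_smul_left, hba, h2a]
    linear_combination 4 * lor X a * hk
  rw [refl_apply a ha ((refl b hb).1 ((refl a ha).1 ((refl b hb).1 X))), h3a, h3, h2, h1]
  module

theorem refl_pow_two {a b : V} (ha : lor a a = 1) (hb : lor b b = 1) (hab : lor a b = 0) :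
    (refl a ha * refl b hb) ^ 2 = 1 := by
  have h := t1_comm ha hb hab
  have hA := refl_mul_self a ha
  have hB := refl_mul_self b hb
  calc (refl a ha * refl b hb) ^ 2 = (refl a ha * refl b hb) * (refl a ha * refl b hb) := pow_two _
    _ = (refl a ha * refl b hb) * (refl b hb * refl a ha) := by rw [← h]
    _ = refl a ha * (refl b hb * refl b hb) * refl a ha := by group
    _ = 1 := by rw [hB, mul_one, hA]

theorem refl_pow_four {a b : V} (ha : lor a a = 1) (hb : lor b b = 1)
    (hab : lor a b = -(Real.sqrt 2 / 2)) : (refl a ha * refl b hb) ^ 4 = 1 := by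
  have hk : -(Real.sqrt 2 / 2) * -(Real.sqrt 2 / 2) = 1 / 2 := by
    have h2 : Real.sqrt 2 * Real.sqrt 2 = 2 := Real.mul_self_sqrt (by norm_num)
    linear_combination (1 / 4) * h2
  have hba : lor b a = -(Real.sqrt 2 / 2) := by rw [lor_comm, hab]
  have h : refl a ha * refl b hb * (refl a ha * refl b hb) =
      refl b hb * refl a ha * (refl b hb * refl a ha) := by
    apply Subtype.ext
    apply LinearEquiv.ext
    intro X
    show (refl a ha).1 ((refl b hb).1 ((refl a ha).1 ((refl b hb).1 X))) =
      (refl b hb).1 ((refl a ha).1 ((refl b hb).1 ((refl a ha).1 X)))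
    rw [t1_braid ha hb hab hk, t1_braid hb ha hba hk]
    module
  have hA := refl_mul_self a ha
  have hB := refl_mul_self b hb
  calc (refl a ha * refl b hb) ^ 4 = refl a ha * refl b hb * (refl a ha * refl b hb) *
        (refl a ha * refl b hb * (refl a ha * refl b hb)) := by
          rw [show (4 : ℕ) = 2 * 2 from rfl, pow_mul, pow_two, pow_two]
    _ = refl b hb * refl a ha * (refl b hb * refl a ha) *
        (refl a ha * refl b hb * (refl a ha * refl b hb)) := by rw [← h]
    _ = refl b hb * refl a ha * refl b hb * (refl a ha * refl a ha) * refl b hb *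
        refl a ha * refl b hb := by group
    _ = refl b hb * refl a ha * (refl b hb * refl b hb) * refl a ha * refl b hb := by
          rw [hA, mul_one]
          group
    _ = 1 := by rw [hB, mul_one, mul_assoc (refl b hb), hA, mul_one, hB]

theorem RS.liftable {M : CoxeterMatrix ι} {e : ι → V} (h : RS M e) :
    M.IsLiftable (fun s => refl (e s) (h.unit s)) := by
  intro s t
  by_cases hst : s = t
  · subst hst
    rw [M.diagonal, pow_one]
    exact refl_mul_self _ _
  · rcases h.gram s t hst with ⟨h1, h2⟩ | ⟨h1, h2⟩ | ⟨h1, _⟩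
    · rw [h1]
      exact refl_pow_two _ _ h2
    · rw [h1]
      exact refl_pow_four _ _ h2
    · rw [h1, pow_zero]

/-- The reflection representation. -/
noncomputable def RS.rho {M : CoxeterMatrix ι} {e : ι → V} (h : RS M e) : M.Group →* O31 :=
  M.toCoxeterSystem.lift ⟨_, h.liftable⟩

theorem RS.rho_simple {M : CoxeterMatrix ι} {e : ι → V} (h : RS M e) (s : ι) :
    h.rho (M.simple s) = refl (e s) (h.unit s) := by
  have h1 := M.toCoxeterSystem.lift_apply_simple h.liftable s
  rwa [M.toCoxeterSystem_simple] at h1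

theorem RS.rho_simple_apply {M : CoxeterMatrix ι} {e : ι → V} (h : RS M e) (s : ι) (X : V) :
    (h.rho (M.simple s)).1 X = X - (2 * lor X (e s)) • e s := by
  rw [h.rho_simple, refl_apply]

theorem RS.rho_mul_apply {M : CoxeterMatrix ι} {e : ι → V} (h : RS M e) (w w' : M.Group) (X : V) :
    (h.rho (w * w')).1 X = (h.rho w).1 ((h.rho w').1 X) := by
  rw [map_mul]; rfl

theorem simple_mul_self (M : CoxeterMatrix ι) (s : ι) : M.simple s * M.simple s = 1 := by
  have := M.toCoxeterSystem.simple_mul_simple_self s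
  rwa [M.toCoxeterSystem_simple] at this

end CEE
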