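import Pool.Agent.CEE.T1

set_option autoImplicit false

/-!
# [CEE-T2] Word length
-/

namespace CEE

open Pool.Agent.MP_8db1a4_gt Set

variable {ι : Type}

/-- word length -/
noncomputable def len (M : CoxeterMatrix ι) (w : M.Group) : ℕ := M.toCoxeterSystem.length w

/- PROOF NOTES [CEE-T2].  All length facts are in `Mathlib/GroupTheory/Coxeter/Length.lean` (`length_one`, `length_mul_simple`, `length_simple_mul`, `length_inv`, `length_eq_zero_iff`, `length_mul_le`, `exists_rightDescent_of_ne_one`,
`exists_leftDescent_of_ne_one`, `IsRightDescent`); `M.toCoxeterSystem_simple : cs.simple = M.simple`.  Just restate them for `len`. -/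

theorem len_one (M : CoxeterMatrix ι) : len M 1 = 0 := by
  exact M.toCoxeterSystem.length_one

theorem len_mul_simple (M : CoxeterMatrix ι) (w : M.Group) (s : ι) :
    len M (w * M.simple s) = len M w + 1 ∨ len M (w * M.simple s) + 1 = len M w := by
  have h := M.toCoxeterSystem.length_mul_simple w s
  rwa [M.toCoxeterSystem_simple] at h

theorem len_simple_mul (M : CoxeterMatrix ι) (w : M.Group) (s : ι) :
    len M (M.simple s * w) = len M w + 1 ∨ len M (M.simple s * w) + 1 = len M w := by
  have h := M.toCoxeterSystem.length_simple_mul w s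
  rwa [M.toCoxeterSystem_simple] at h

theorem len_inv (M : CoxeterMatrix ι) (w : M.Group) : len M w⁻¹ = len M w := by
  exact M.toCoxeterSystem.length_inv w

theorem len_eq_zero (M : CoxeterMatrix ι) (w : M.Group) : len M w = 0 ↔ w = 1 := by
  exact M.toCoxeterSystem.length_eq_zero_iff

theorem len_mul_le (M : CoxeterMatrix ι) (w w' : M.Group) : len M (w * w') ≤ len M w + len M w' := by
  exact M.toCoxeterSystem.length_mul_le w w'

/-- every `w ≠ 1` has a right descent -/
theorem exists_right (M : CoxeterMatrix ι) {w : M.Group} (hw : w ≠ 1) :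
    ∃ s, len M (w * M.simple s) < len M w := by
  obtain ⟨s, hs⟩ := M.toCoxeterSystem.exists_rightDescent_of_ne_one hw
  refine ⟨s, ?_⟩
  unfold CoxeterSystem.IsRightDescent at hs
  rwa [M.toCoxeterSystem_simple] at hs

/-- every `w ≠ 1` has a left descent -/
theorem exists_left (M : CoxeterMatrix ι) {w : M.Group} (hw : w ≠ 1) :
    ∃ s, len M (M.simple s * w) < len M w := by
  obtain ⟨s, hs⟩ := M.toCoxeterSystem.exists_leftDescent_of_ne_one hw
  refine ⟨s, ?_⟩
  unfold CoxeterSystem.IsLeftDescent at hs
  rwa [M.toCoxeterSystem_simple] at hs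

end CEE
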