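import Pool.Agent.CEE.T2

set_option autoImplicit false

/-!
# [CEE-T2b] Positive roots (Tits)
-/

namespace CEE

open Pool.Agent.MP_8db1a4_gt Set

variable {ι : Type}

/- PROOF NOTES [CEE-T2b].
`dih_two`, `dih_four`, `dih_inf` are about the plane spanned by `a = e s`, `b = e t`:  one right descent `t` of `w` (with `s` not a descent of `w`) is cut off, then maybe `s`, ...
`pos` by strong induction on `len M w` (for all `s`).  If `w = 1`: `x ∈ cham e`.  Otherwise let `t` be a right descent of `w` (`t ≠ s`).
Case label 2: `w = v t`, `len v = len w - 1`.  `t` is no descent of `v`.  `s` is no descent of `v`: otherwise `v = v' s` and `w s = v' s t s = v' t` (label 2: `s t s = t`) has length `≤ len w - 1`.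
  By induction `pos v s`; `ρ(w) e_s = ρ(v) (r_t e_s) = ρ(v) e_s`.
Case label 4: cut letters `t, s, t` as long as the length drops: `w = v t` or `w = v s t` or `w = v t s t`, where both `s` and `t` are no descents of `v`.  (If also `v t s t` with `s` descent of `v`: `v = v' s`, `w s = v' s t s t s = v' t s t`
  (braid relation `s t s t = t s t s`) would be shorter than `w`.)  Induction: `pos v s`, `pos v t`; with `k = √2`: `r_t e_s = e_s + k e_t`; `r_s r_t e_s = e_s + k e_t`; `r_t r_s r_t e_s = e_s`.
Case label ∞ (`c = -⟨e_s,e_t⟩ ≥ 1`): claim: for `a ≥ 0`.. let `P(v, r)` := (for all `x y : ℝ` with `0 ≤ x ≤ y`, the vector `x e_r + y e_r'` is mapped by `ρ(v)` to a vector which is `≤ 0` on the chamber), where `r` is the only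
  letter of `{s,t}` which may still be a descent of `v` (`{r, r'} = {s, t}`, `r'` no descent of `v`, obtained after cutting off `r'`).  If `r` is a descent of `v`: `v = v' r`, `r_r (x e_r + y e_r') = (2 c y - x) e_r + y e_r'` and `2 c y - x ≥ y ≥ 0`: apply the claim
  to `v'` (shorter) with the roles exchanged.  If `r` is no descent of `v`: both are no descents and `ρ(v) (x e_r + y e_r') = x ρ(v) e_r + y ρ(v) e_r'` by `pos` for the shorter `v`.  Start: `w = v t`, `r_t e_s = e_s + 2 c e_t`, `0 ≤ 1 ≤ 2 c`. -/

/-- `X` is at most zero on the chamber -/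
def t2b_P (e : ι → V) (X : V) : Prop := ∀ x ∈ cham e, lor x.val X ≤ 0

theorem t2b_comb {e : ι → V} {X Y : V} (hX : t2b_P e X) (hY : t2b_P e Y) {a b : ℝ} (ha : 0 ≤ a)
    (hb : 0 ≤ b) : t2b_P e (a • X + b • Y) := by
  intro x hx
  rw [lor_add_right, lor_smul_right, lor_smul_right]
  have h1 := hX x hx
  have h2 := hY x hx
  nlinarith

theorem t2b_step {M : CoxeterMatrix ι} {e : ι → V} (h : RS M e) (v : M.Group) (r r' : ι)
    (x y c : ℝ) (hc : lor (e r) (e r') = -c) :
    (h.rho (v * M.simple r)).1 (x • e r + y • e r') =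
      (h.rho v).1 ((2 * c * y - x) • e r + y • e r') := by
  rw [h.rho_mul_apply, h.rho_simple_apply]
  congr 1
  rw [lor_add_left, lor_smul_left, lor_smul_left, h.unit, lor_comm (e r') (e r), hc]
  module

theorem t2b_pair {M : CoxeterMatrix ι} {e : ι → V} (h : RS M e) {v : M.Group} {r r' : ι}
    (h1 : t2b_P e ((h.rho v).1 (e r))) (h2 : t2b_P e ((h.rho v).1 (e r'))) {a b : ℝ} (ha : 0 ≤ a)
    (hb : 0 ≤ b) : t2b_P e ((h.rho v).1 (a • e r + b • e r')) := by
  rw [map_add, map_smul, map_smul]
  exact t2b_comb h1 h2 ha hb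

theorem t2b_desc (M : CoxeterMatrix ι) (v : M.Group) (r : ι) :
    len M v < len M (v * M.simple r) ∨
      ∃ v' : M.Group, v = v' * M.simple r ∧ len M v = len M v' + 1 := by
  rcases len_mul_simple M v r with h | h
  · exact Or.inl (by omega)
  · refine Or.inr ⟨v * M.simple r, ?_, by omega⟩
    rw [mul_assoc, simple_mul_self, mul_one]

theorem t2b_up (M : CoxeterMatrix ι) {v v' : M.Group} {r : ι} (h : v = v' * M.simple r)
    (hl : len M v = len M v' + 1) : len M v' < len M (v' * M.simple r) := by
  rw [← h]
  omega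

theorem t2b_len_le (M : CoxeterMatrix ι) (v : M.Group) (r : ι) :
    len M (v * M.simple r) ≤ len M v + 1 := by
  rcases len_mul_simple M v r with h | h <;> omega

theorem t2b_pow (M : CoxeterMatrix ι) (s t : ι) : (M.simple s * M.simple t) ^ M s t = 1 := by
  have := M.toCoxeterSystem.simple_mul_simple_pow s t
  rwa [M.toCoxeterSystem_simple] at this

theorem t2b_cancel (M : CoxeterMatrix ι) (s : ι) (g : M.Group) :
    M.simple s * (M.simple s * g) = g := by
  rw [← mul_assoc, simple_mul_self, one_mul]

theorem t2b_braid2 (M : CoxeterMatrix ι) {s t : ι} (h : M s t = 2) :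
    M.simple s * M.simple t * M.simple s = M.simple t := by
  have h1 := t2b_pow M s t
  rw [h] at h1
  have h2 : M.simple s * M.simple t * M.simple s =
      (M.simple s * M.simple t) ^ 2 * M.simple t := by
    simp only [pow_succ, pow_zero, one_mul, mul_assoc, simple_mul_self, mul_one]
  rw [h2, h1, one_mul]

theorem t2b_braid4 (M : CoxeterMatrix ι) {s t : ι} (h : M s t = 4) :
    M.simple s * M.simple t * M.simple s * M.simple t * M.simple s =
      M.simple t * M.simple s * M.simple t := by
  have h1 := t2b_pow M s t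
  rw [h] at h1
  have h2 : M.simple s * M.simple t * M.simple s * M.simple t * M.simple s =
      (M.simple s * M.simple t) ^ 4 * (M.simple t * M.simple s * M.simple t) := by
    simp only [pow_succ, pow_zero, one_mul, mul_assoc, t2b_cancel, simple_mul_self, mul_one]
  rw [h2, h1, one_mul]

/-- the case of the label `∞` -/
theorem t2b_inf {M : CoxeterMatrix ι} {e : ι → V} (h : RS M e) {c : ℝ} (hc1 : 1 ≤ c) (N : ℕ)
    (ih : ∀ v : M.Group, len M v < N → ∀ s, len M v < len M (v * M.simple s) →
      t2b_P e ((h.rho v).1 (e s))) (n : ℕ) :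
    ∀ (v : M.Group) (r r' : ι), len M v ≤ n → len M v < N → lor (e r) (e r') = -c →
      len M v < len M (v * M.simple r') → ∀ x y : ℝ, 0 ≤ x → x ≤ y →
      t2b_P e ((h.rho v).1 (x • e r + y • e r')) := by
  induction n with
  | zero =>
    intro v r r' hn hN hc hr' x y hx hxy
    rcases t2b_desc M v r with h1 | ⟨v', h1, h2⟩
    · exact t2b_pair h (ih v hN r h1) (ih v hN r' hr') hx (hx.trans hxy)
    · omega
  | succ n ihn =>
    intro v r r' hn hN hc hr' x y hx hxy
    rcases t2b_desc M v r with h1 | ⟨v', h1, h2⟩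
    · exact t2b_pair h (ih v hN r h1) (ih v hN r' hr') hx (hx.trans hxy)
    · rw [h1, t2b_step h v' r r' x y c hc, add_comm]
      refine ihn v' r' r (by omega) (by omega) (by rw [lor_comm, hc]) (t2b_up M h1 h2) y
        (2 * c * y - x) (hx.trans hxy) ?_
      nlinarith

theorem t2b_main {M : CoxeterMatrix ι} {e : ι → V} (h : RS M e) (n : ℕ) :
    ∀ w : M.Group, len M w < n → ∀ s, len M w < len M (w * M.simple s) →
      t2b_P e ((h.rho w).1 (e s)) := by
  induction n with
  | zero =>
    intro w hw
    omega
  | succ n ih =>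
    intro w hw s hs
    by_cases hw1 : w = 1
    · rw [hw1, map_one]
      intro x hx
      exact hx s
    obtain ⟨t, ht⟩ := exists_right M hw1
    have hst : s ≠ t := by
      rintro rfl
      omega
    rcases t2b_desc M w t with h0 | ⟨v, hv, hlv⟩
    · omega
    have hvt : len M v < len M (v * M.simple t) := t2b_up M hv hlv
    have hvn : len M v < n := by omega
    have key : ∀ c : ℝ, lor (e t) (e s) = -c →
        (h.rho w).1 (e s) = (h.rho v).1 ((2 * c) • e t + (1 : ℝ) • e s) := by
      intro c hc
      have h1 := t2b_step h v t s 0 1 c hc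
      rw [zero_smul, zero_add, one_smul, ← hv, mul_one, sub_zero] at h1
      rw [h1, one_smul]
    rcases h.gram s t hst with ⟨hM, hg⟩ | ⟨hM, hg⟩ | ⟨hM, hg⟩
    · -- label 2
      rw [key 0 (by rw [lor_comm, hg, neg_zero]), mul_zero, zero_smul, zero_add, one_smul]
      refine ih v hvn s ?_
      rcases t2b_desc M v s with h1 | ⟨v', h1, h2⟩
      · exact h1
      · exfalso
        have e1 : w * M.simple s = v' * M.simple t := by
          rw [hv, h1, mul_assoc, mul_assoc, ← mul_assoc (M.simple s), t2b_braid2 M hM]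
        have e2 := t2b_len_le M v' t
        rw [← e1] at e2
        omega
    · -- label 4
      have hk : Real.sqrt 2 * Real.sqrt 2 = 2 := Real.mul_self_sqrt (by norm_num)
      have hk0 : 0 ≤ Real.sqrt 2 := Real.sqrt_nonneg 2
      have hg' : lor (e t) (e s) = -(Real.sqrt 2 / 2) := by rw [lor_comm, hg]
      have e0 : 2 * (Real.sqrt 2 / 2) = Real.sqrt 2 := by ring
      rw [key _ hg', e0]
      rcases t2b_desc M v s with h1 | ⟨v1, h1, l1⟩
      · exact t2b_pair h (ih v hvn t hvt) (ih v hvn s h1) hk0 zero_le_one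
      have hs1 := t2b_up M h1 l1
      have e1 : (h.rho v).1 (Real.sqrt 2 • e t + (1 : ℝ) • e s) =
          (h.rho v1).1 ((1 : ℝ) • e s + Real.sqrt 2 • e t) := by
        rw [h1, add_comm, t2b_step h v1 s t 1 (Real.sqrt 2) _ hg, e0, hk]
        norm_num
      rw [e1]
      rcases t2b_desc M v1 t with h2 | ⟨v2, h2, l2⟩
      · exact t2b_pair h (ih v1 (by omega) s hs1) (ih v1 (by omega) t h2) zero_le_one hk0
      have ht2 := t2b_up M h2 l2
      have e2 : (h.rho v1).1 ((1 : ℝ) • e s + Real.sqrt 2 • e t) = (h.rho v2).1 (e s) := by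
        rw [h2, add_comm, t2b_step h v2 t s (Real.sqrt 2) 1 _ hg', e0, mul_one, sub_self,
          zero_smul, zero_add, one_smul]
      rw [e2]
      refine ih v2 (by omega) s ?_
      rcases t2b_desc M v2 s with h3 | ⟨v3, h3, l3⟩
      · exact h3
      · exfalso
        have e3 : w * M.simple s = v3 * (M.simple t * M.simple s * M.simple t) := by
          rw [← t2b_braid4 M hM, hv, h1, h2, h3]
          simp only [mul_assoc]
        have e4 : w * M.simple s = v3 * M.simple t * M.simple s * M.simple t := by
          rw [e3]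
          simp only [mul_assoc]
        have e5 := t2b_len_le M (v3 * M.simple t * M.simple s) t
        have e6 := t2b_len_le M (v3 * M.simple t) s
        have e7 := t2b_len_le M v3 t
        rw [← e4] at e5
        omega
    · -- label infinity
      have hg' : lor (e t) (e s) = -(-lor (e s) (e t)) := by rw [neg_neg, lor_comm]
      rw [key _ hg', add_comm]
      refine t2b_inf h (c := -lor (e s) (e t)) (by linarith) n ih (len M v) v s t le_rfl hvn
        (by rw [neg_neg]) hvt 1 _ zero_le_one (by linarith)

/-- Tits: if `l(ws) > l(w)` then `ρ(w) e_s` is a positive root: it is `≤ 0` on the chamber. -/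
theorem RS.pos {M : CoxeterMatrix ι} {e : ι → V} (h : RS M e) (w : M.Group) (s : ι)
    (hl : len M w < len M (w * M.simple s)) (x : H3) (hx : x ∈ cham e) :
    lor x.val ((h.rho w).1 (e s)) ≤ 0 :=
  t2b_main h (len M w + 1) w (Nat.lt_succ_self _) s hl x hx

end CEE
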