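import Pool.Agent.CEE.T2b

set_option autoImplicit false

/-!
# [CEE-T3] Consequences of positivity
-/

namespace CEE

open Pool.Agent.MP_8db1a4_gt Set

variable {ι : Type} {M : CoxeterMatrix ι} {e : ι → V}

/- PROOF NOTES [CEE-T3].
`side`: `RS.pos` for `w⁻¹` and `s`: `len (w⁻¹ s) = len ((s w)⁻¹) = len (s w)`; `lor x (ρ(w⁻¹) e_s) = lor (ρ(w) x) e_s` (`lor_inv`, `smul_val`, `map_inv`).
`side'`: `w = s w'` with `w' = s w` longer... apply `side` to `s w` (`s (s w) = w` is longer than `s w`): `lor (ρ(s w) x) e_s ≤ 0` and `ρ(s w) x = r_s (ρ(w) x)`, `lor (r_s Z) e_s = - lor Z e_s`.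
`antidom`: induction on `len w`: `w = 1` trivial; otherwise take a right descent `s`, `w = w' s` with `w' = w s` shorter, `len w' < len (w' s)`:
`ρ(w) v = ρ(w') (v - 2 ⟨v,e_s⟩ e_s)`, so `⟨x, ρ(w) v⟩ = ⟨x, ρ(w') v⟩ - 2 ⟨v,e_s⟩ ⟨x, ρ(w') e_s⟩ ≤ ⟨x, ρ(w') v⟩` (`RS.pos`, product of two nonpositive numbers).
`dist_le`: `antidom` for `v = y.val` (`y ∈ cham e` says exactly `⟨y, e_s⟩ ≤ 0`), `dist_def`, `Real.arcosh` monotone (or `cosh_dist` and `Real.cosh_le_cosh`).
`fixed`: induction on `len w`: if `w ≠ 1` take a left descent `s`; `side'` gives `0 ≤ lor (ρ(w) x) e_s`, and `ρ(w) x ∈ cham e` gives `≤ 0`; so it is `0` and `ρ(s w) x = r_s (ρ(w) x) = ρ(w) x ∈ cham e`; the induction hypothesis for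
`s w` gives `ρ(s w) x = x` and `s w ∈ closure ..`; hence `ρ(w) x = x`, `lor x e_s = 0`, `w = s (s w)`. -/

theorem t3_simple_inv (M : CoxeterMatrix ι) (s : ι) : (M.simple s)⁻¹ = M.simple s :=
  inv_eq_of_mul_eq_one_right (simple_mul_self M s)

theorem t3_cancel (M : CoxeterMatrix ι) (s : ι) (w : M.Group) : M.simple s * (M.simple s * w) = w := by
  rw [← mul_assoc, simple_mul_self, one_mul]

theorem t3_cancel' (M : CoxeterMatrix ι) (s : ι) (w : M.Group) : w * M.simple s * M.simple s = w := by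
  rw [mul_assoc, simple_mul_self, mul_one]

theorem RS.side (h : RS M e) (w : M.Group) (s : ι) (hl : len M w < len M (M.simple s * w))
    (x : H3) (hx : x ∈ cham e) : lor (h.rho w • x).val (e s) ≤ 0 := by
  have h1 : len M w⁻¹ < len M (w⁻¹ * M.simple s) := by
    have e1 : w⁻¹ * M.simple s = (M.simple s * w)⁻¹ := by rw [mul_inv_rev, t3_simple_inv]
    rw [e1, len_inv, len_inv]
    exact hl
  have h2 := h.pos w⁻¹ s h1 x hx
  rw [← lor_inv, map_inv, inv_inv] at h2
  exact h2

theorem RS.side' (h : RS M e) (w : M.Group) (s : ι) (hl : len M (M.simple s * w) < len M w)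
    (x : H3) (hx : x ∈ cham e) : 0 ≤ lor (h.rho w • x).val (e s) := by
  have h1 := h.side (M.simple s * w) s (by rw [t3_cancel]; exact hl) x hx
  rw [smul_val, h.rho_mul_apply, h.rho_simple_apply, lor_sub_left, lor_smul_left, h.unit s] at h1
  rw [smul_val]
  linarith

/-- images of antidominant vectors decrease on the chamber -/
theorem RS.antidom (h : RS M e) (w : M.Group) (v : V) (hv : ∀ s, lor v (e s) ≤ 0)
    (x : H3) (hx : x ∈ cham e) : lor x.val ((h.rho w).1 v) ≤ lor x.val v := by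
  obtain ⟨n, hn⟩ : ∃ n : ℕ, len M w ≤ n := ⟨_, le_rfl⟩
  induction n generalizing w with
  | zero =>
    have h1 : w = 1 := (len_eq_zero M w).1 (Nat.le_zero.1 hn)
    rw [h1, map_one]
    exact le_refl _
  | succ n ih =>
    by_cases hw : w = 1
    · rw [hw, map_one]
      exact le_refl _
    · obtain ⟨s, hs⟩ := exists_right M hw
      have h1 : lor x.val ((h.rho (w * M.simple s)).1 v) ≤ lor x.val v := ih _ (by omega)
      have h2 : lor x.val ((h.rho (w * M.simple s)).1 (e s)) ≤ 0 :=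
        h.pos (w * M.simple s) s (by rw [t3_cancel']; exact hs) x hx
      have h3 : (h.rho w).1 v = (h.rho (w * M.simple s)).1 v -
          (2 * lor v (e s)) • (h.rho (w * M.simple s)).1 (e s) := by
        have h4 : h.rho w = h.rho (w * M.simple s * M.simple s) := by rw [t3_cancel']
        rw [h4, h.rho_mul_apply, h.rho_simple_apply, map_sub, map_smul]
      rw [h3, lor_sub_right, lor_smul_right]
      have h5 : 0 ≤ lor v (e s) * lor x.val ((h.rho (w * M.simple s)).1 (e s)) :=
        mul_nonneg_of_nonpos_of_nonpos (hv s) h2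
      nlinarith

theorem RS.dist_le (h : RS M e) (w : M.Group) (x y : H3) (hx : x ∈ cham e) (hy : y ∈ cham e) :
    dist x y ≤ dist x (h.rho w • y) := by
  have h1 := h.antidom w y.val hy x hx
  have h2 : Real.cosh (dist x y) ≤ Real.cosh (dist x (h.rho w • y)) := by
    rw [cosh_dist, cosh_dist, smul_val]
    linarith
  have h3 := Real.cosh_le_cosh.1 h2
  rwa [abs_of_nonneg dist_nonneg, abs_of_nonneg dist_nonneg] at h3

/-- the walls containing `x` -/
def wallsAt (M : CoxeterMatrix ι) (e : ι → V) (x : H3) : Subgroup M.Group :=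
  Subgroup.closure {g | ∃ s, lor x.val (e s) = 0 ∧ g = M.simple s}

theorem RS.fixed (h : RS M e) (w : M.Group) (x : H3) (hx : x ∈ cham e)
    (hwx : h.rho w • x ∈ cham e) : h.rho w • x = x ∧ w ∈ wallsAt M e x := by
  obtain ⟨n, hn⟩ : ∃ n : ℕ, len M w ≤ n := ⟨_, le_rfl⟩
  induction n generalizing w with
  | zero =>
    have h1 : w = 1 := (len_eq_zero M w).1 (Nat.le_zero.1 hn)
    rw [h1, map_one, one_smul]
    exact ⟨rfl, one_mem _⟩
  | succ n ih =>
    by_cases hw : w = 1
    · rw [hw, map_one, one_smul]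
      exact ⟨rfl, one_mem _⟩
    · obtain ⟨s, hs⟩ := exists_left M hw
      have h1 : lor (h.rho w • x).val (e s) = 0 := le_antisymm (hwx s) (h.side' w s hs x hx)
      have h2 : h.rho (M.simple s * w) • x = h.rho w • x := by
        apply Hy.ext'
        rw [smul_val] at h1
        rw [smul_val, smul_val, h.rho_mul_apply, h.rho_simple_apply, h1, mul_zero, zero_smul, sub_zero]
      obtain ⟨h3, h4⟩ := ih (M.simple s * w) (by rw [h2]; exact hwx) (by omega)
      have h5 : h.rho w • x = x := by rw [← h2, h3]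
      refine ⟨h5, ?_⟩
      rw [h5] at h1
      have h6 : M.simple s ∈ wallsAt M e x := Subgroup.subset_closure ⟨s, h1, rfl⟩
      have h7 := mul_mem h6 h4
      rwa [t3_cancel] at h7

end CEE
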