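import Pool.Agent.CEE.T3

set_option autoImplicit false

/-!
# [CEE-T4a] Local finiteness
-/

namespace CEE

open Pool.Agent.MP_8db1a4_gt Set

variable {ι : Type} {M : CoxeterMatrix ι} {e : ι → V}

/- PROOF NOTES [CEE-T4a].  `haveI := B1c.hy_proper 3` (`ProperSpace H3`).
`finite_orbit` (needs `[Finite ι]`): let `x₀` be an interior point of the chamber (`h.inter`); a ball `B(x₀, r)` lies in the interior `{x | ∀ s, lor x e_s < 0}` (open: `B1c.hy_val_continuous`, `continuous_lor_right`/`lor_comm`, finitely many `s`).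
If `w ≠ w'` then `dist (ρ(w) x₀) (ρ(w') x₀) ≥ r`: otherwise `ρ(w⁻¹ w') x₀ ∈ B(x₀, r) ⊆ cham e`, so by `fixed` it equals `x₀` and `w⁻¹ w' ∈ wallsAt x₀ = closure ∅ = ⊥` (no wall contains `x₀`).
A family of `r`-separated points in a compact ball is finite (`IsCompact`: finite cover by balls of radius `r/2`, each contains at most one of them).  First the case `x = y = x₀`, then
`dist x₀ (ρ(w) x₀) ≤ dist x₀ x + dist x (ρ(w) y) + dist (ρ(w) y) (ρ(w) x₀)`.
`rho_injective`: if `ρ(w) = 1` then `ρ(w) x₀ = x₀` for an interior point `x₀` of the chamber, so `w ∈ wallsAt x₀ = ⊥` (`fixed`). -/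

theorem t4a_walls {x : H3} (hx : ∀ s, lor x.val (e s) < 0) : wallsAt M e x = ⊥ := by
  unfold wallsAt
  have h1 : {g : M.Group | ∃ s, lor x.val (e s) = 0 ∧ g = M.simple s} = ∅ := by
    ext g
    simp only [Set.mem_setOf_eq, Set.mem_empty_iff_false, iff_false, not_exists, not_and]
    intro s hs
    exact absurd hs (hx s).ne
  rw [h1, Subgroup.closure_empty]

theorem t4a_open [Finite ι] (e : ι → V) : IsOpen {x : H3 | ∀ s, lor x.val (e s) < 0} := by
  have h1 : {x : H3 | ∀ s, lor x.val (e s) < 0} = ⋂ s, {x : H3 | lor x.val (e s) < 0} := by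
    ext x
    simp
  rw [h1]
  refine isOpen_iInter_of_finite fun s => ?_
  have h2 : Continuous fun x : H3 => lor x.val (e s) := by
    have h3 : Continuous fun x : H3 => lor (e s) x.val :=
      (continuous_lor_right (e s)).comp (B1c.hy_val_continuous 3)
    exact h3.congr fun x => lor_comm _ _
  exact isOpen_lt h2 continuous_const

theorem t4a_sep (h : RS M e) {x₀ : H3} (hx : ∀ s, lor x₀.val (e s) < 0) {r : ℝ}
    (hr : Metric.ball x₀ r ⊆ {x : H3 | ∀ s, lor x.val (e s) < 0}) {w w' : M.Group}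
    (hd : dist (h.rho w • x₀) (h.rho w' • x₀) < r) : w = w' := by
  have h1 : dist (h.rho (w⁻¹ * w') • x₀) x₀ < r := by
    rw [dist_comm, ← dist_smul_smul (h.rho w) x₀, ← mul_smul, ← map_mul, mul_inv_cancel_left]
    exact hd
  have h2 := hr (Metric.mem_ball.2 h1)
  have h3 := (h.fixed (w⁻¹ * w') x₀ (fun s => (hx s).le) (fun s => (h2 s).le)).2
  rw [t4a_walls hx, Subgroup.mem_bot] at h3
  exact (inv_mul_eq_one.1 h3)

theorem RS.finite_orbit [Finite ι] (h : RS M e) (x y : H3) (R : ℝ) :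
    {w : M.Group | dist x (h.rho w • y) ≤ R}.Finite := by
  haveI := B1c.hy_proper 3
  obtain ⟨x₀, hx₀⟩ := h.inter
  obtain ⟨r, hr0, hr⟩ := Metric.isOpen_iff.1 (t4a_open e) x₀ hx₀
  have hfin : ∀ R' : ℝ, {w : M.Group | dist x₀ (h.rho w • x₀) ≤ R'}.Finite := by
    intro R'
    obtain ⟨t, -, ht, hcov⟩ := (isCompact_closedBall x₀ R').finite_cover_balls (half_pos hr0)
    have hc : ∀ w : M.Group, ∃ c : H3, dist x₀ (h.rho w • x₀) ≤ R' →
        c ∈ t ∧ dist (h.rho w • x₀) c < r / 2 := by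
      intro w
      by_cases hw : dist x₀ (h.rho w • x₀) ≤ R'
      · have h1 : h.rho w • x₀ ∈ Metric.closedBall x₀ R' := by
          rw [Metric.mem_closedBall, dist_comm]
          exact hw
        obtain ⟨c, hc1, hc2⟩ := Set.mem_iUnion₂.1 (hcov h1)
        exact ⟨c, fun _ => ⟨hc1, hc2⟩⟩
      · exact ⟨x₀, fun h' => absurd h' hw⟩
    choose c hc using hc
    refine Set.Finite.of_injOn (f := c) (t := t) (fun w hw => (hc w hw).1) ?_ ht
    intro w hw w' hw' hww
    refine t4a_sep h hx₀ hr ?_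
    have h1 := (hc w hw).2
    have h2 := (hc w' hw').2
    rw [← hww] at h2
    have h3 := dist_triangle_right (h.rho w • x₀) (h.rho w' • x₀) (c w)
    linarith
  refine (hfin (dist x₀ x + R + dist y x₀)).subset fun w hw => ?_
  have hw' : dist x (h.rho w • y) ≤ R := hw
  have h1 : dist x₀ (h.rho w • x₀) ≤ dist x₀ x + dist x (h.rho w • y) + dist (h.rho w • y) (h.rho w • x₀) :=
    (dist_triangle _ (h.rho w • y) _).trans (add_le_add_left (dist_triangle _ x _) _)
  rw [dist_smul_smul] at h1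
  show dist x₀ (h.rho w • x₀) ≤ dist x₀ x + R + dist y x₀
  linarith

theorem RS.rho_injective [Finite ι] (h : RS M e) : Function.Injective h.rho := by
  obtain ⟨x₀, hx₀⟩ := h.inter
  rw [injective_iff_map_eq_one]
  intro w hw
  have h1 : h.rho w • x₀ = x₀ := by
    rw [hw, one_smul]
  have h2 := (h.fixed w x₀ (fun s => (hx₀ s).le) (by rw [h1]; exact fun s => (hx₀ s).le)).2
  rw [t4a_walls hx₀, Subgroup.mem_bot] at h2
  exact h2

end CEE
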