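import Pool.Agent.CEE.T4a

set_option autoImplicit false

/-!
# [CEE-T4b] Fundamental domain, folding
-/

namespace CEE

open Pool.Agent.MP_8db1a4_gt Set

variable {ι : Type} {M : CoxeterMatrix ι} {e : ι → V}

/- PROOF NOTES [CEE-T4b].
`exists_chamber` (for a set `J` of walls): among the `w ∈ closure {s : s ∈ J}` minimise `dist x₀ (ρ(w) y)` (`finite_orbit`: nonempty finite set after intersecting with `dist ≤ dist x₀ y`).  For `s ∈ J`: if `lor (ρ(w) y) e_s > 0` then
`lor x₀ (r_s Z) = lor x₀ Z - 2 lor Z e_s lor x₀ e_s > lor x₀ Z` for `Z = ρ(w) y`, so `dist x₀ (ρ(s w) y) < dist x₀ (ρ(w) y)`: contradiction.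
`fold`: choose `w` with `ρ(w) x ∈ cham e` (`exists_chamber` with `J = univ`), `fold x = ρ(w) x`.  `fold_smul`: `fold (ρ(w) x)` and `fold x` are both in the chamber and in one orbit: `fixed`.  `fold_dist`: `dist_le` after moving by an isometry
(`dist_smul_smul`). -/

theorem t4b_unique (h : RS M e) {x y : H3} (hx : x ∈ cham e) (hy : y ∈ cham e) (w : M.Group)
    (hxy : y = h.rho w • x) : y = x := by
  rw [hxy] at hy ⊢
  exact (h.fixed w x hx hy).1

theorem t4b_inv (h : RS M e) (w : M.Group) (x : H3) : h.rho w⁻¹ • (h.rho w • x) = x := by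
  rw [← mul_smul, ← map_mul, inv_mul_cancel, map_one, one_smul]

theorem RS.exists_chamber [Finite ι] (h : RS M e) (J : Set ι) (y : H3) :
    ∃ w ∈ Subgroup.closure (M.simple '' J), ∀ s ∈ J, lor (h.rho w • y).val (e s) ≤ 0 := by
  obtain ⟨x₀, hx₀⟩ := h.inter
  have hfin : {w : M.Group | w ∈ Subgroup.closure (M.simple '' J) ∧ dist x₀ (h.rho w • y) ≤ dist x₀ y}.Finite :=
    (h.finite_orbit x₀ y (dist x₀ y)).subset fun w hw => hw.2
  have hne : {w : M.Group | w ∈ Subgroup.closure (M.simple '' J) ∧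
      dist x₀ (h.rho w • y) ≤ dist x₀ y}.Nonempty :=
    ⟨1, Subgroup.one_mem _, by rw [map_one, one_smul]⟩
  obtain ⟨w, hw, hmin⟩ := Set.exists_min_image _ (fun w => dist x₀ (h.rho w • y)) hfin hne
  refine ⟨w, hw.1, fun s hs => ?_⟩
  by_contra hcon
  push Not at hcon
  have h1 : lor x₀.val (h.rho w • y).val < lor x₀.val (h.rho (M.simple s * w) • y).val := by
    have h2 : (h.rho (M.simple s * w) • y).val =
        (h.rho w • y).val - (2 * lor (h.rho w • y).val (e s)) • e s := by
      rw [smul_val, h.rho_mul_apply, h.rho_simple_apply]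
      rfl
    rw [h2, lor_sub_right, lor_smul_right]
    have h3 := hx₀ s
    have h4 : 0 < lor (h.rho w • y).val (e s) * -lor x₀.val (e s) := mul_pos hcon (by linarith)
    nlinarith
  have h5 : dist x₀ (h.rho (M.simple s * w) • y) < dist x₀ (h.rho w • y) := by
    have h6 : Real.cosh (dist x₀ (h.rho (M.simple s * w) • y)) < Real.cosh (dist x₀ (h.rho w • y)) := by
      rw [cosh_dist, cosh_dist]
      linarith
    rw [Real.cosh_lt_cosh, abs_of_nonneg dist_nonneg, abs_of_nonneg dist_nonneg] at h6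
    exact h6
  have h7 := hmin (M.simple s * w)
    ⟨Subgroup.mul_mem _ (Subgroup.subset_closure ⟨s, hs, rfl⟩) hw.1, h5.le.trans hw.2⟩
  exact absurd h5 (not_lt.2 h7)

/-- there is a unique point of the orbit in the chamber -/
theorem RS.exists_fold [Finite ι] (h : RS M e) (x : H3) :
    ∃ y : H3, y ∈ cham e ∧ ∃ w : M.Group, x = h.rho w • y := by
  obtain ⟨w, -, hw⟩ := h.exists_chamber Set.univ x
  exact ⟨h.rho w • x, fun s => hw s (Set.mem_univ s), w⁻¹, (t4b_inv h w x).symm⟩

/-- the folding onto the chamber -/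
noncomputable def RS.fold [Finite ι] (h : RS M e) (x : H3) : H3 := (h.exists_fold x).choose

theorem RS.fold_mem [Finite ι] (h : RS M e) (x : H3) : h.fold x ∈ cham e :=
  (h.exists_fold x).choose_spec.1

theorem RS.fold_spec [Finite ι] (h : RS M e) (x : H3) : ∃ w : M.Group, x = h.rho w • h.fold x :=
  (h.exists_fold x).choose_spec.2

theorem RS.fold_smul [Finite ι] (h : RS M e) (w : M.Group) (x : H3) :
    h.fold (h.rho w • x) = h.fold x := by
  obtain ⟨u, hu⟩ := h.fold_spec x
  obtain ⟨v, hv⟩ := h.fold_spec (h.rho w • x)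
  refine t4b_unique h (h.fold_mem x) (h.fold_mem _) (v⁻¹ * (w * u)) ?_
  rw [map_mul, mul_smul, map_mul, mul_smul, ← hu]
  conv_rhs => rw [hv]
  exact (t4b_inv h v _).symm

theorem RS.fold_of_mem [Finite ι] (h : RS M e) (x : H3) (hx : x ∈ cham e) : h.fold x = x := by
  obtain ⟨u, hu⟩ := h.fold_spec x
  exact (t4b_unique h (h.fold_mem x) hx u hu).symm

theorem RS.fold_dist [Finite ι] (h : RS M e) (x y : H3) : dist (h.fold x) (h.fold y) ≤ dist x y := by
  obtain ⟨u, hu⟩ := h.fold_spec x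
  obtain ⟨v, hv⟩ := h.fold_spec y
  have h1 := h.dist_le (u⁻¹ * v) (h.fold x) (h.fold y) (h.fold_mem x) (h.fold_mem y)
  rw [← dist_smul_smul (h.rho u) (h.fold x) (h.rho (u⁻¹ * v) • h.fold y), ← mul_smul, ← map_mul,
    mul_inv_cancel_left, ← hu, ← hv] at h1
  exact h1

theorem RS.fold_continuous [Finite ι] (h : RS M e) : Continuous h.fold := by
  exact (LipschitzWith.mk_one h.fold_dist).continuous

end CEE
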