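import Pool.Agent.CEE.Base

set_option autoImplicit false

/-!
# MP_cee170_gt: boundary planes, absence of annuli
-/

namespace CEE

open Pool.Agent.MP_8db1a4_gt Set

/-- `n` is the outer unit normal of a boundary plane of the hull -/
structure BdPlane (Γ : Subgroup O31) (n : V) : Prop where
  unit : lor n n = 1
  sub : ∀ y : H3, lor y.val n = 0 → y ∈ frontier (hull Γ)
  side : ∀ y ∈ hull Γ, lor y.val n ≤ 0

/-- no essential annuli: the stabilisers in `Γ` of two different boundary planes of the hull intersect
trivially -/
def Acyl (Γ : Subgroup O31) : Prop :=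
  ∀ n n' : V, BdPlane Γ n → BdPlane Γ n' → n ≠ n' → ∀ g ∈ Γ, g.1 n = n → g.1 n' = n' → g = 1

end CEE
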