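import Pool.Agent.CEE.Base

set_option autoImplicit false

/-!
# [CEE-V1] A reparametrisation of the normal coordinate
-/

namespace CEE

open Set Real

/-- homeomorphism `ℝ → (-∞, 0)`, the identity below `-κ` -/
noncomputable def GG (κ σ : ℝ) : ℝ := if σ ≤ -κ then σ else -κ ^ 2 / (σ + 2 * κ)

/-- its inverse -/
noncomputable def GI (κ σ : ℝ) : ℝ := if σ ≤ -κ then σ else -κ ^ 2 / σ - 2 * κ

theorem v1_gt {κ : ℝ} (hκ : 0 < κ) {σ : ℝ} (h : ¬ σ ≤ -κ) :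
    -κ < -κ ^ 2 / (σ + 2 * κ) ∧ -κ ^ 2 / (σ + 2 * κ) < 0 := by
  have h1 : 0 < σ + 2 * κ := by linarith [not_le.1 h]
  have h2 : κ < σ + 2 * κ := by linarith [not_le.1 h]
  constructor
  · rw [lt_div_iff₀ h1]; nlinarith
  · apply div_neg_of_neg_of_pos _ h1
    nlinarith

theorem GG_neg {κ : ℝ} (hκ : 0 < κ) (σ : ℝ) : GG κ σ < 0 := by
  unfold GG
  split_ifs with h
  · linarith
  · exact (v1_gt hκ h).2

theorem GG_le_iff {κ : ℝ} (hκ : 0 < κ) (σ : ℝ) : GG κ σ ≤ -κ ↔ σ ≤ -κ := by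
  unfold GG
  split_ifs with h
  · exact Iff.rfl
  · exact ⟨fun h' => absurd h' (not_le.2 (v1_gt hκ h).1), fun h' => absurd h' h⟩

theorem v1_GI {κ : ℝ} (hκ : 0 < κ) {σ : ℝ} (h : ¬ σ ≤ -κ) (hσ : σ < 0) :
    -κ < -κ ^ 2 / σ - 2 * κ := by
  have h1 : κ < -κ ^ 2 / σ := by
    rw [lt_div_iff_of_neg hσ]
    nlinarith [not_le.1 h]
  linarith

theorem GI_le_iff {κ : ℝ} (hκ : 0 < κ) (σ : ℝ) (hσ : σ < 0) : GI κ σ ≤ -κ ↔ σ ≤ -κ := by
  unfold GI
  split_ifs with h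
  · exact Iff.rfl
  · exact ⟨fun h' => absurd h' (not_le.2 (v1_GI hκ h hσ)), fun h' => absurd h' h⟩

theorem GI_GG {κ : ℝ} (hκ : 0 < κ) (σ : ℝ) : GI κ (GG κ σ) = σ := by
  by_cases h : σ ≤ -κ
  · have h1 : GG κ σ = σ := if_pos h
    rw [h1]; exact if_pos h
  · have h1 : GG κ σ = -κ ^ 2 / (σ + 2 * κ) := if_neg h
    have h2 : ¬ GG κ σ ≤ -κ := fun h' => h ((GG_le_iff hκ σ).1 h')
    have h3 : GI κ (GG κ σ) = -κ ^ 2 / GG κ σ - 2 * κ := if_neg h2
    have h4 : σ + 2 * κ ≠ 0 := by linarith [not_le.1 h]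
    rw [h3, h1]
    have h5 : κ ^ 2 ≠ 0 := by positivity
    field_simp
    ring

theorem GG_GI {κ : ℝ} (hκ : 0 < κ) (σ : ℝ) (hσ : σ < 0) : GG κ (GI κ σ) = σ := by
  by_cases h : σ ≤ -κ
  · have h1 : GI κ σ = σ := if_pos h
    rw [h1]; exact if_pos h
  · have h1 : GI κ σ = -κ ^ 2 / σ - 2 * κ := if_neg h
    have h2 : ¬ GI κ σ ≤ -κ := fun h' => h ((GI_le_iff hκ σ hσ).1 h')
    have h3 : GG κ (GI κ σ) = -κ ^ 2 / (GI κ σ + 2 * κ) := if_neg h2
    rw [h3, h1]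
    have h4 : σ ≠ 0 := hσ.ne
    have h5 : κ ^ 2 ≠ 0 := by positivity
    have h6 : -κ ^ 2 / σ - 2 * κ + 2 * κ = -κ ^ 2 / σ := by ring
    rw [h6]
    field_simp

theorem GG_cont {κ : ℝ} (hκ : 0 < κ) : Continuous (GG κ) := by
  have h : GG κ = fun σ => if σ ≤ -κ then σ else -κ ^ 2 / (max σ (-κ) + 2 * κ) := by
    funext σ
    unfold GG
    split_ifs with h
    · rfl
    · rw [max_eq_left (not_le.1 h).le]
  rw [h]
  refine Continuous.if_le continuous_id ?_ continuous_id continuous_const ?_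
  · refine continuous_const.div (by fun_prop) ?_
    intro σ
    have := le_max_right σ (-κ)
    have : 0 < max σ (-κ) + 2 * κ := by linarith
    exact this.ne'
  · intro σ hσ
    have hσ' : σ = -κ := hσ
    show σ = _
    rw [hσ', max_self]
    have : -κ + 2 * κ = κ := by ring
    rw [this]
    field_simp

theorem GI_cont {κ : ℝ} (hκ : 0 < κ) : ContinuousOn (GI κ) (Iio 0) := by
  have h : ∀ σ ∈ Iio (0 : ℝ), GI κ σ = (if σ ≤ -κ then σ else -κ ^ 2 / σ - 2 * κ) := fun _ _ => rfl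
  unfold GI
  apply ContinuousOn.if
  · intro σ hσ
    have h1 : σ ∈ frontier {a : ℝ | a ≤ -κ} := hσ.2
    have h2 : frontier {a : ℝ | a ≤ -κ} = {-κ} := frontier_Iic
    rw [h2] at h1
    have h3 : σ = -κ := h1
    rw [h3]
    have h4 : κ ≠ 0 := hκ.ne'
    field_simp
    ring
  · exact continuousOn_id
  · intro σ hσ
    have h1 : σ ≠ 0 := (hσ.1 : σ < 0).ne
    apply ContinuousAt.continuousWithinAt
    exact (continuousAt_const.div continuousAt_id h1).sub continuousAt_const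

end CEE
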