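import Pool.Agent.CEE.V1
import Pool.Agent.CEE.V2
import Pool.Agent.CEE.X1
import Pool.Agent.CEE.F2

set_option autoImplicit false

/-!
# [CEE-V3] `H3` and the interior of `Y0` are equivariantly homeomorphic
-/

namespace CEE

open Pool.Agent.MP_8db1a4_gt Set Real

/- PROOF NOTES [CEE-V3].
`interior_iff` (`x ∈ cham`): `←`: `x ∈ D0`, `lor x vF = -c' < 0`, `ball_sub` with `c = arsinh c'`.  `→`: `lor x vF ≤ 0` since `x ∈ Y0` (`w = 1`), and `lor x vF = 0` means `x ∈ Pl`, `x ∈ frontier (Y0)` (`frontier_of` with `v = 1`), not in the interior.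
`int_inv`: `Yset_smul_iff`; `ρ(w)` is an isometry with inverse `ρ(w⁻¹)` (`dist_smul_smul`): it maps interiors to interiors.
`homeo_int`: `κ` from `gap_const`; `ψ x = mv (GG κ (lor x vF)) x`, `ψ' x = mv (GI κ (lor x vF)) x`; `extend_pair` with `h = h' = RS0 hm`, `P = univ`, `P' = interior (Y0 hm)`.
 `ψ` maps `cham` to `cham ∩ interior`: if `lor x vF ≤ -κ`: `ψ x = x` (`mv_self`).  Otherwise `σ' = GG κ σ ∈ (-κ, 0)` (`GG_neg`, `GG_le_iff`), the four walls of `Jset m` keep their signs (`lor_mv` with positive factor, `lor_F_*`), the other walls: `gap_const` for `ψ x`.  Interior: `interior_iff`, `lor_mv_F`, `GG_neg`.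
 Faces: `lor x (ev s) = 0`: `s ∈ Jset m`: `lor_mv`; otherwise `gap_const` for `x` (contrapositive) gives `lor x vF ≤ -κ`, `ψ x = x`.  The same for `ψ'` on `cham ∩ interior` (`lor x vF < 0` there, `GI_le_iff`).
 Inverse: `lor_mv_F`, `mv_mv`, `GI_GG`, `GG_GI`, `mv_self`.  Continuity: `mv_cont`, `GG_cont`, `GI_cont`. -/

theorem interior_iff {m : ℕ} (hm : 13 ≤ m) (ho : Odd m) (x : H3) (hx : x ∈ cham (ev (w0 m) m)) :
    x ∈ interior (Y0 hm) ↔ lor x.val vF < 0 := by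
  constructor
  · intro h
    have h1 : x ∈ Y0 hm := interior_subset h
    have h2 : lor x.val vF ≤ 0 := by
      have h3 := h1 1 vF rfl
      rwa [map_one] at h3
    rcases h2.lt_or_eq with h3 | h3
    · exact h3
    · exfalso
      have h4 := frontier_of hm ho 1 x h3
      rw [map_one, one_smul, frontier, mem_sdiff] at h4
      exact h4.2 h
  · intro h
    have hD : x ∈ D0 m := by
      refine ⟨hx, ?_⟩
      intro v hv
      have hv' : v = vF := hv
      rw [hv']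
      exact h.le
    have hc : 0 < arsinh (-lor x.val vF) := arsinh_pos_iff.2 (by linarith)
    have h1 := ball_sub hm x hD _ hc (by rw [sinh_arsinh, neg_neg])
    exact mem_interior.2 ⟨_, h1, Metric.isOpen_ball, Metric.mem_ball_self hc⟩

theorem int_inv {m : ℕ} (hm : 13 ≤ m) (w : (CM m).Group) (x : H3) (hx : x ∈ interior (Y0 hm)) :
    (RS0 hm).rho w • x ∈ interior (Y0 hm) := by
  rw [mem_interior_iff_mem_nhds, Metric.mem_nhds_iff] at hx ⊢
  obtain ⟨ε, hε, h⟩ := hx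
  refine ⟨ε, hε, ?_⟩
  intro z hz
  have h5 : (RS0 hm).rho w⁻¹ • z ∈ Metric.ball x ε := by
    rw [Metric.mem_ball] at hz ⊢
    have e : x = (RS0 hm).rho w⁻¹ • ((RS0 hm).rho w • x) := by
      rw [← mul_smul, ← map_mul, inv_mul_cancel, map_one, one_smul]
    rw [e, dist_smul_smul]
    exact hz
  exact (f2_mem hm w⁻¹ z).1 (h h5)

theorem v3_J {m : ℕ} (hm : 13 ≤ m) : ∀ s ∈ Jset m, lor vF (ev (w0 m) m s) = 0 := by
  intro s hs
  rcases hs with hs | hs | hs | hs
  · rw [hs]; exact lor_F_T _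
  · rw [hs]; exact lor_F_B _
  · rw [hs]
    show lor vF (vG (w0 m) 0) = 0
    rw [lor_F_G]
    simp
  · rw [mem_singleton_iff] at hs
    rw [hs]
    show lor vF (vG (w0 m) m) = 0
    rw [lor_F_G]
    have h1 : (m : ℝ) * w0 m = π := by
      have h2 : (m : ℝ) ≠ 0 := by
        have : 0 < m := by omega
        exact_mod_cast this.ne'
      rw [w0]
      field_simp
    rw [h1, sin_pi]
    simp

theorem v3_mv_J {m : ℕ} (hm : 13 ≤ m) (τ : ℝ) (x : H3) (s : Gen m) (hs : s ∈ Jset m) :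
    ∃ c : ℝ, 0 < c ∧ lor (mv τ x).val (ev (w0 m) m s) = c * lor x.val (ev (w0 m) m s) := by
  refine ⟨_, ?_, lor_mv τ x _ (v3_J hm s hs)⟩
  apply div_pos
  · apply sqrt_pos.2
    positivity
  · apply sqrt_pos.2
    positivity

theorem v3_mem {m : ℕ} (hm : 13 ≤ m) {κ : ℝ}
    (hg : ∀ x : H3, (∀ s ∈ Jset m, lor x.val (ev (w0 m) m s) ≤ 0) → -κ < lor x.val vF →
      ∀ s, s ∉ Jset m → lor x.val (ev (w0 m) m s) < 0) (τ : ℝ) (hτ : -κ < τ) (x : H3)
    (hx : x ∈ cham (ev (w0 m) m)) : mv τ x ∈ cham (ev (w0 m) m) := by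
  have h1 : ∀ s ∈ Jset m, lor (mv τ x).val (ev (w0 m) m s) ≤ 0 := by
    intro s hs
    obtain ⟨c, hc, h⟩ := v3_mv_J hm τ x s hs
    rw [h]
    exact mul_nonpos_of_nonneg_of_nonpos hc.le (hx s)
  intro s
  by_cases hs : s ∈ Jset m
  · exact h1 s hs
  · exact (hg (mv τ x) h1 (by rw [lor_mv_F]; exact hτ) s hs).le

theorem v3_lor_cont : Continuous (fun x : H3 => lor x.val vF) := by
  have h1 : (fun x : H3 => lor x.val vF) = fun x : H3 => lor vF x.val := by
    funext x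
    exact lor_comm _ _
  rw [h1]
  exact (continuous_lor_right vF).comp (B1c.hy_val_continuous 3)

theorem homeo_int {m : ℕ} (hm : 13 ≤ m) (ho : Odd m) : ∃ Θ Θ' : H3 → H3, Continuous Θ ∧
    ContinuousOn Θ' (interior (Y0 hm)) ∧ (∀ x, Θ x ∈ interior (Y0 hm)) ∧ (∀ x, Θ' (Θ x) = x) ∧
    (∀ x ∈ interior (Y0 hm), Θ (Θ' x) = x) ∧
    (∀ (w : (CM m).Group) (x : H3), Θ ((RS0 hm).rho w • x) = (RS0 hm).rho w • Θ x) ∧
    ∀ (w : (CM m).Group), ∀ x ∈ interior (Y0 hm),
      Θ' ((RS0 hm).rho w • x) = (RS0 hm).rho w • Θ' x := by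
  obtain ⟨κ, hκ, hg⟩ := gap_const hm ho
  have hGG : ∀ σ, σ ≤ -κ → GG κ σ = σ := fun σ h => if_pos h
  have hGI : ∀ σ, σ ≤ -κ → GI κ σ = σ := fun σ h => if_pos h
  have hσ : ∀ x ∈ cham (ev (w0 m) m) ∩ interior (Y0 hm), lor x.val vF < 0 := fun x hx =>
    (interior_iff hm ho x hx.1).1 hx.2
  have e1 : ∀ x : H3, lor x.val vF ≤ -κ → mv (GG κ (lor x.val vF)) x = x := by
    intro x h
    rw [hGG _ h, mv_self]
  have e2 : ∀ x : H3, lor x.val vF ≤ -κ → mv (GI κ (lor x.val vF)) x = x := by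
    intro x h
    rw [hGI _ h, mv_self]
  have hP : ∀ w : (CM m).Group, ∀ x ∈ (univ : Set H3), (RS0 hm).rho w • x ∈ (univ : Set H3) :=
    fun _ _ _ => mem_univ _
  have hP' : ∀ w : (CM m).Group, ∀ x ∈ interior (Y0 hm), (RS0 hm).rho w • x ∈ interior (Y0 hm) :=
    fun w x hx => int_inv hm w x hx
  have c1 : ContinuousOn (fun x : H3 => mv (GG κ (lor x.val vF)) x) (cham (ev (w0 m) m) ∩ univ) := by
    have h1 : Continuous (fun x : H3 => (GG κ (lor x.val vF), x)) :=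
      ((GG_cont hκ).comp v3_lor_cont).prodMk continuous_id
    exact (mv_cont.comp h1).continuousOn
  have c2 : ContinuousOn (fun x : H3 => mv (GI κ (lor x.val vF)) x)
      (cham (ev (w0 m) m) ∩ interior (Y0 hm)) := by
    have h0 : ContinuousOn (fun x : H3 => GI κ (lor x.val vF))
        (cham (ev (w0 m) m) ∩ interior (Y0 hm)) :=
      (GI_cont hκ).comp v3_lor_cont.continuousOn (fun x hx => hσ x hx)
    have h1 : ContinuousOn (fun x : H3 => (GI κ (lor x.val vF), x))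
        (cham (ev (w0 m) m) ∩ interior (Y0 hm)) := h0.prodMk continuousOn_id
    have h2 := Continuous.comp_continuousOn (g := fun a : ℝ × H3 => mv a.1 a.2) mv_cont h1
    exact h2
  have m1 : MapsTo (fun x : H3 => mv (GG κ (lor x.val vF)) x) (cham (ev (w0 m) m) ∩ univ)
      (cham (ev (w0 m) m) ∩ interior (Y0 hm)) := by
    rintro x ⟨hx, -⟩
    have h1 : mv (GG κ (lor x.val vF)) x ∈ cham (ev (w0 m) m) := by
      by_cases h : lor x.val vF ≤ -κ
      · rw [e1 x h]; exact hx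
      · apply v3_mem hm hg _ _ x hx
        rw [← not_le, GG_le_iff hκ]
        exact h
    refine ⟨h1, ?_⟩
    rw [interior_iff hm ho _ h1, lor_mv_F]
    exact GG_neg hκ _
  have m2 : MapsTo (fun x : H3 => mv (GI κ (lor x.val vF)) x)
      (cham (ev (w0 m) m) ∩ interior (Y0 hm)) (cham (ev (w0 m) m) ∩ univ) := by
    rintro x hx
    refine ⟨?_, mem_univ _⟩
    by_cases h : lor x.val vF ≤ -κ
    · show mv (GI κ (lor x.val vF)) x ∈ cham (ev (w0 m) m)
      rw [e2 x h]; exact hx.1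
    · apply v3_mem hm hg _ _ x hx.1
      rw [← not_le, GI_le_iff hκ _ (hσ x hx)]
      exact h
  have f1 : ∀ x ∈ cham (ev (w0 m) m) ∩ univ, ∀ s, lor x.val (ev (w0 m) m s) = 0 →
      lor (mv (GG κ (lor x.val vF)) x).val (ev (w0 m) m s) = 0 := by
    rintro x ⟨hx, -⟩ s hs
    by_cases hJ : s ∈ Jset m
    · obtain ⟨c, hc, h⟩ := v3_mv_J hm (GG κ (lor x.val vF)) x s hJ
      rw [h, hs, mul_zero]
    · have h : lor x.val vF ≤ -κ := by
        by_contra hcon
        rw [not_le] at hcon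
        exact absurd hs (hg x (fun s _ => hx s) hcon s hJ).ne
      rw [e1 x h]; exact hs
  have f2 : ∀ x ∈ cham (ev (w0 m) m) ∩ interior (Y0 hm), ∀ s, lor x.val (ev (w0 m) m s) = 0 →
      lor (mv (GI κ (lor x.val vF)) x).val (ev (w0 m) m s) = 0 := by
    rintro x ⟨hx, -⟩ s hs
    by_cases hJ : s ∈ Jset m
    · obtain ⟨c, hc, h⟩ := v3_mv_J hm (GI κ (lor x.val vF)) x s hJ
      rw [h, hs, mul_zero]
    · have h : lor x.val vF ≤ -κ := by
        by_contra hcon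
        rw [not_le] at hcon
        exact absurd hs (hg x (fun s _ => hx s) hcon s hJ).ne
      rw [e2 x h]; exact hs
  have i1 : ∀ x ∈ cham (ev (w0 m) m) ∩ univ,
      mv (GI κ (lor (mv (GG κ (lor x.val vF)) x).val vF)) (mv (GG κ (lor x.val vF)) x) = x := by
    intro x _
    rw [mv_mv, lor_mv_F, GI_GG hκ, mv_self]
  have i2 : ∀ x ∈ cham (ev (w0 m) m) ∩ interior (Y0 hm),
      mv (GG κ (lor (mv (GI κ (lor x.val vF)) x).val vF)) (mv (GI κ (lor x.val vF)) x) = x := by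
    intro x hx
    rw [mv_mv, lor_mv_F, GG_GI hκ _ (hσ x hx), mv_self]
  obtain ⟨Ψ, Ψ', h1, h2, h3, -, h5, h6, h7, h8⟩ := extend_pair (RS0 hm) (RS0 hm) univ
    (interior (Y0 hm)) hP hP' _ _ c1 c2 m1 m2 f1 f2 i1 i2
  exact ⟨Ψ, Ψ', continuousOn_univ.1 h1, h2, fun x => h3 (mem_univ x), fun x => h5 x (mem_univ x),
    h6, fun w x => h7 w x (mem_univ x), h8⟩

end CEE
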