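import Pool.Agent.CEE.X6
import Pool.Agent.CEE.X1
import Pool.Agent.CEE.D1

set_option autoImplicit false

/-!
# [CEE-X7] The two manifolds are homeomorphic
-/

namespace CEE

open Pool.Agent.MP_8db1a4_gt Set Real

/- PROOF NOTES [CEE-X7].
`homeo_H3`: `extend_pair` with `P = P' = univ`, `ψ = chMap m (w0 m) (w1 m)`, `ψ' = chMap m (w1 m) (w0 m)`.
`homeo_Mfd`: the homeomorphism descends: `Quotient.map`/`Quotient.lift` in both directions (`MulAction.orbitRel`: `x ~ y` iff `x = ρ(k) • y` for some `k ∈ K m`, see `proj_eq`; the elements of `Gam0 hm` are the `ρ₀(k)`), continuity by `continuous_quot_lift`/`Continuous.quotient_map'`. -/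

theorem homeo_H3 {m : ℕ} (hm : 13 ≤ m) (ho : Odd m) :
    ∃ Ψ : H3 ≃ₜ H3, ∀ (w : (CM m).Group) (x : H3),
      Ψ ((RS0 hm).rho w • x) = (RS1 hm).rho w • Ψ x := by
  have W0 := WOK0 hm ho
  have W1 := WOK1 hm ho
  obtain ⟨Ψ, Ψ', h1, h2, -, -, h5, h6, h7, -⟩ := extend_pair (RS0 hm) (RS1 hm) univ univ
    (fun _ _ _ => mem_univ _) (fun _ _ _ => mem_univ _)
    (chMap m (w0 m) (w1 m)) (chMap m (w1 m) (w0 m))
    ((chMap_cont W0 W1).mono inter_subset_left) ((chMap_cont W1 W0).mono inter_subset_left)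
    (fun x hx => ⟨chMap_mem W0 W1 x hx.1, mem_univ _⟩)
    (fun x hx => ⟨chMap_mem W1 W0 x hx.1, mem_univ _⟩)
    (fun x hx s hs => chMap_face W0 W1 x hx.1 s hs)
    (fun x hx s hs => chMap_face W1 W0 x hx.1 s hs)
    (fun x hx => chMap_chMap W0 W1 x hx.1) (fun x hx => chMap_chMap W1 W0 x hx.1)
  refine ⟨⟨⟨Ψ, Ψ', fun x => h5 x (mem_univ _), fun x => h6 x (mem_univ _)⟩, ?_, ?_⟩,
    fun w x => h7 w x (mem_univ _)⟩
  · exact continuousOn_univ.1 h1
  · exact continuousOn_univ.1 h2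

/-- an equivariant map descends -/
theorem X7_desc {m : ℕ} {e e' : Gen m → V} (h : RS (CM m) e) (h' : RS (CM m) e')
    (Ψ : H3 → H3) (hΨ : ∀ (w : (CM m).Group) (x : H3), Ψ (h.rho w • x) = h'.rho w • Ψ x)
    {x y : H3} (hxy : proj ((K m).map h.rho) x = proj ((K m).map h.rho) y) :
    proj ((K m).map h'.rho) (Ψ x) = proj ((K m).map h'.rho) (Ψ y) := by
  obtain ⟨k, hk, rfl⟩ := (proj_eq h (K m) x y).1 hxy
  exact (proj_eq h' (K m) _ _).2 ⟨k, hk, hΨ k y⟩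

theorem homeo_Mfd {m : ℕ} (hm : 13 ≤ m) (ho : Odd m) :
    Nonempty (Mfd (Gam0 hm) ≃ₜ Mfd (Gam1 hm)) := by
  obtain ⟨Ψ, hΨ⟩ := homeo_H3 hm ho
  have hΨ' : ∀ (w : (CM m).Group) (x : H3),
      Ψ.symm ((RS1 hm).rho w • x) = (RS0 hm).rho w • Ψ.symm x := by
    intro w x
    apply Ψ.injective
    rw [hΨ, Ψ.apply_symm_apply, Ψ.apply_symm_apply]
  refine ⟨⟨⟨Quotient.lift (fun x => proj (Gam1 hm) (Ψ x)) fun x y hxy =>
      X7_desc (RS0 hm) (RS1 hm) Ψ hΨ (Quotient.sound hxy),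
    Quotient.lift (fun x => proj (Gam0 hm) (Ψ.symm x)) fun x y hxy =>
      X7_desc (RS1 hm) (RS0 hm) Ψ.symm hΨ' (Quotient.sound hxy), ?_, ?_⟩, ?_, ?_⟩⟩
  · intro a
    induction a using Quotient.inductionOn with
    | h x =>
      show proj (Gam0 hm) (Ψ.symm (Ψ x)) = _
      rw [Ψ.symm_apply_apply]
      rfl
  · intro a
    induction a using Quotient.inductionOn with
    | h x =>
      show proj (Gam1 hm) (Ψ (Ψ.symm x)) = _
      rw [Ψ.apply_symm_apply]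
      rfl
  · exact (continuous_quotient_mk'.comp Ψ.continuous).quotient_lift _
  · exact (continuous_quotient_mk'.comp Ψ.symm.continuous).quotient_lift _

end CEE
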