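import Pool.Agent.CEE.V3
import Pool.Agent.CEE.F4a
import Pool.Agent.CEE.X7

set_option autoImplicit false

/-!
# [CEE-V4] Both manifolds are homeomorphic to the interior of the core
-/

namespace CEE

open Pool.Agent.MP_8db1a4_gt Set Real

/- PROOF NOTES [CEE-V4].
`proj_open`: the saturation of an open set `U` is the union of the open sets `g • U` (`isOpenMap_quotient_mk'_mul` needs `ContinuousConstSMul Γ H3`: provide it from `dist_smul_smul`; or by hand: `isOpen_coinduced`).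
`interior_core`: `core = proj '' Y0` (`hull_Gam0`), `proj ⁻¹' core = Y0` (`proj_eq`, `Yset_smul_iff`).  `⊆`: `proj ⁻¹' (interior core)` is open and contained in `Y0`, hence in `interior Y0`; `proj` is surjective.  `⊇`: `proj '' interior Y0` is open (`proj_open`) and contained in `core`.
`frontier_core`: `core` is compact in a Hausdorff space, or: `proj ⁻¹' core = Y0` is closed, so `core` is closed (`isQuotientMap`); `frontier core = core \ interior core = proj '' Y0 \ proj '' interior Y0 = proj '' (Y0 \ interior Y0)` (`interior Y0` is `K`-invariant: `int_inv`), and `coreBd = proj '' frontier Y0` (`hull_Gam0`).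
`Mfd0_int`: `Θ, Θ'` from `homeo_int`.  `[x] ↦ proj (Θ x)` is well defined (`proj_eq`, equivariance), continuous (`Continuous.quotient_lift`), with values in `interior core`; injective: `proj (Θ x) = proj (Θ y)` gives `Θ x = ρ(k) Θ y = Θ (ρ(k) y)`, `x = ρ(k) y`; surjective: `proj y` with `y ∈ interior Y0` is the image of `proj (Θ' y)`.
 Open: the image of the open set `proj '' U` (`U` open, saturated) is `proj '' (Θ '' U)`, and `Θ '' U = interior Y0 ∩ Θ' ⁻¹' U` is open (`ContinuousOn.isOpen_inter_preimage`), `proj_open`.  So it is a homeomorphism onto `interior core` (`Homeomorph.homeomorphOfContinuousOpen` / `Equiv.toHomeomorphOfIsInducing`..).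
`Mfd1_int`: `homeo_Mfd` composed with `Mfd0_int`. -/

theorem proj_cont (Γ : Subgroup O31) : Continuous (proj Γ) := continuous_quot_mk

theorem v4_smul_cont (g : O31) : Continuous (fun x : H3 => g • x) := by
  apply (Isometry.of_dist_eq (f := fun x : H3 => g • x) _).continuous
  intro x y
  exact dist_smul_smul g x y

theorem v4_proj_eq (Γ : Subgroup O31) (x y : H3) : proj Γ x = proj Γ y ↔ ∃ g ∈ Γ, g • y = x := by
  unfold proj
  rw [Quotient.eq]
  constructor
  · rintro ⟨g, hg⟩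
    exact ⟨g.1, g.2, hg⟩
  · rintro ⟨g, hg, h⟩
    exact ⟨⟨g, hg⟩, h⟩

theorem v4_quot (Γ : Subgroup O31) : Topology.IsQuotientMap (proj Γ) := isQuotientMap_quot_mk

theorem proj_open (Γ : Subgroup O31) (U : Set H3) (hU : IsOpen U) : IsOpen (proj Γ '' U) := by
  rw [← (v4_quot Γ).isOpen_preimage]
  have h1 : proj Γ ⁻¹' (proj Γ '' U) = ⋃ g ∈ Γ, (fun x : H3 => g • x) ⁻¹' U := by
    ext x
    simp only [mem_preimage, mem_image, mem_iUnion]
    constructor
    · rintro ⟨y, hy, h⟩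
      obtain ⟨g, hg, h'⟩ := (v4_proj_eq Γ y x).1 h
      exact ⟨g, hg, by rw [h']; exact hy⟩
    · rintro ⟨g, hg, h⟩
      exact ⟨g • x, h, (v4_proj_eq Γ _ _).2 ⟨g, hg, rfl⟩⟩
  rw [h1]
  exact isOpen_biUnion fun g _ => hU.preimage (v4_smul_cont g)

theorem v4_core {m : ℕ} (hm : 13 ≤ m) (ho : Odd m) :
    core (Gam0 hm) = proj (Gam0 hm) '' Y0 hm := by
  rw [core, hull_Gam0 hm ho]

theorem v4_pre {m : ℕ} (hm : 13 ≤ m) (ho : Odd m) :
    proj (Gam0 hm) ⁻¹' core (Gam0 hm) = Y0 hm := by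
  rw [v4_core hm ho]
  ext x
  constructor
  · rintro ⟨y, hy, h⟩
    obtain ⟨k, -, hk⟩ := (proj_eq (RS0 hm) (K m) y x).1 h
    rw [hk] at hy
    exact (f2_mem hm k x).1 hy
  · intro h
    exact ⟨x, h, rfl⟩

theorem interior_core {m : ℕ} (hm : 13 ≤ m) (ho : Odd m) :
    interior (core (Gam0 hm)) = proj (Gam0 hm) '' interior (Y0 hm) := by
  apply Subset.antisymm
  · intro q hq
    obtain ⟨x, rfl⟩ := Quotient.exists_rep q
    refine ⟨x, ?_, rfl⟩
    have h1 : IsOpen (proj (Gam0 hm) ⁻¹' interior (core (Gam0 hm))) :=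
      isOpen_interior.preimage (proj_cont _)
    have h2 : proj (Gam0 hm) ⁻¹' interior (core (Gam0 hm)) ⊆ Y0 hm := by
      rw [← v4_pre hm ho]
      exact preimage_mono interior_subset
    exact interior_maximal h2 h1 hq
  · apply interior_maximal
    · rw [v4_core hm ho]
      exact image_mono interior_subset
    · exact proj_open _ _ isOpen_interior

theorem frontier_core {m : ℕ} (hm : 13 ≤ m) (ho : Odd m) :
    frontier (core (Gam0 hm)) = coreBd (Gam0 hm) := by
  have hcl : IsClosed (core (Gam0 hm)) := by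
    rw [← (v4_quot (Gam0 hm)).isClosed_preimage, v4_pre hm ho]
    exact Yset_closed (RS0 hm) ex0
  have hclY : IsClosed (Y0 hm) := Yset_closed (RS0 hm) ex0
  rw [coreBd, hull_Gam0 hm ho, hcl.frontier_eq, hclY.frontier_eq, interior_core hm ho]
  ext q
  constructor
  · rintro ⟨h1, h2⟩
    rw [v4_core hm ho] at h1
    obtain ⟨x, hx, rfl⟩ := h1
    exact ⟨x, ⟨hx, fun h => h2 ⟨x, h, rfl⟩⟩, rfl⟩
  · rintro ⟨x, ⟨hx, hx'⟩, rfl⟩
    refine ⟨?_, ?_⟩
    · rw [v4_core hm ho]
      exact ⟨x, hx, rfl⟩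
    · rintro ⟨y, hy, h⟩
      apply hx'
      obtain ⟨k, -, hk⟩ := (proj_eq (RS0 hm) (K m) x y).1 h.symm
      rw [hk]
      exact int_inv hm k y hy

theorem Mfd0_int {m : ℕ} (hm : 13 ≤ m) (ho : Odd m) :
    Nonempty (Mfd (Gam0 hm) ≃ₜ interior (core (Gam0 hm))) := by
  obtain ⟨Θ, Θ', h1, h2, h3, h4, h5, h6, h7⟩ := homeo_int hm ho
  have hwd : ∀ x y : H3, (MulAction.orbitRel (Gam0 hm) H3) x y →
      proj (Gam0 hm) (Θ x) = proj (Gam0 hm) (Θ y) := by
    intro x y hxy
    have h : proj (Gam0 hm) x = proj (Gam0 hm) y := Quotient.sound hxy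
    obtain ⟨k, hk, h'⟩ := (proj_eq (RS0 hm) (K m) x y).1 h
    rw [h', h6]
    exact (proj_eq (RS0 hm) (K m) _ _).2 ⟨k, hk, rfl⟩
  let f0 : Mfd (Gam0 hm) → Mfd (Gam0 hm) := Quotient.lift (fun x => proj (Gam0 hm) (Θ x)) hwd
  have hf0 : ∀ x, f0 (proj (Gam0 hm) x) = proj (Gam0 hm) (Θ x) := fun _ => rfl
  have hc0 : Continuous f0 := ((proj_cont _).comp h1).quotient_lift hwd
  have hm0 : ∀ q, f0 q ∈ interior (core (Gam0 hm)) := by
    intro q
    obtain ⟨x, rfl⟩ := Quotient.exists_rep q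
    rw [interior_core hm ho]
    exact ⟨Θ x, h3 x, rfl⟩
  have hinj : Function.Injective f0 := by
    intro q q' hqq
    obtain ⟨x, rfl⟩ := Quotient.exists_rep q
    obtain ⟨y, rfl⟩ := Quotient.exists_rep q'
    have h : proj (Gam0 hm) (Θ x) = proj (Gam0 hm) (Θ y) := hqq
    obtain ⟨k, hk, h'⟩ := (proj_eq (RS0 hm) (K m) _ _).1 h
    rw [← h6] at h'
    have h'' : x = (RS0 hm).rho k • y := by
      rw [← h4 x, h', h4]
    exact (proj_eq (RS0 hm) (K m) x y).2 ⟨k, hk, h''⟩
  have hopen : ∀ W : Set (Mfd (Gam0 hm)), IsOpen W → IsOpen (f0 '' W) := by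
    intro W hW
    have hU : IsOpen (proj (Gam0 hm) ⁻¹' W) := hW.preimage (proj_cont _)
    have hV : IsOpen (interior (Y0 hm) ∩ Θ' ⁻¹' (proj (Gam0 hm) ⁻¹' W)) :=
      h2.isOpen_inter_preimage isOpen_interior hU
    have he : f0 '' W = proj (Gam0 hm) '' (interior (Y0 hm) ∩ Θ' ⁻¹' (proj (Gam0 hm) ⁻¹' W)) := by
      ext q
      constructor
      · rintro ⟨p, hp, rfl⟩
        obtain ⟨x, rfl⟩ := Quotient.exists_rep p
        refine ⟨Θ x, ⟨h3 x, ?_⟩, rfl⟩
        show proj (Gam0 hm) (Θ' (Θ x)) ∈ W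
        rw [h4]
        exact hp
      · rintro ⟨y, ⟨hy, hy'⟩, rfl⟩
        refine ⟨proj (Gam0 hm) (Θ' y), hy', ?_⟩
        rw [hf0, h5 y hy]
    rw [he]
    exact proj_open _ _ hV
  let F : Mfd (Gam0 hm) → interior (core (Gam0 hm)) := fun q => ⟨f0 q, hm0 q⟩
  have hF : Function.Bijective F := by
    constructor
    · intro q q' h
      exact hinj (congrArg Subtype.val h)
    · rintro ⟨q, hq⟩
      have hq' := hq
      rw [interior_core hm ho] at hq'
      obtain ⟨y, hy, rfl⟩ := hq'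
      refine ⟨proj (Gam0 hm) (Θ' y), ?_⟩
      apply Subtype.ext
      show f0 (proj (Gam0 hm) (Θ' y)) = proj (Gam0 hm) y
      rw [hf0, h5 y hy]
  have hFc : Continuous F := hc0.subtype_mk hm0
  have hFo : IsOpenMap F := by
    intro W hW
    rw [isOpen_interior.isOpenEmbedding_subtypeVal.isOpen_iff_image_isOpen]
    have he : Subtype.val '' (F '' W) = f0 '' W := by
      rw [image_image]
    rw [he]
    exact hopen W hW
  exact ⟨(Equiv.ofBijective F hF).toHomeomorphOfContinuousOpen hFc hFo⟩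

theorem Mfd1_int {m : ℕ} (hm : 13 ≤ m) (ho : Odd m) :
    Nonempty (Mfd (Gam1 hm) ≃ₜ interior (core (Gam0 hm))) := by
  obtain ⟨f⟩ := homeo_Mfd hm ho
  obtain ⟨g⟩ := Mfd0_int hm ho
  exact ⟨f.symm.trans g⟩

end CEE
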