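import Pool.Agent.CEE.Base

set_option autoImplicit false

/-!
# [CEE-Y1a] Convex sets
-/

namespace CEE

open Pool.Agent.MP_8db1a4_gt Set

/- PROOF NOTES [CEE-Y1a].
`between_lor`: let `dist x z + dist z y = dist x y`, `a = dist x z`, `b = dist z y`.  With `X, Y, Z` the vectors, `W = sinh b • X + sinh a • Y - sinh (a+b) • Z`: `lor Z W = - sinh b cosh a - sinh a cosh b + sinh (a+b) = 0` and
 `lor W W = 0` (computation with `lor X Y = - cosh (a+b)`, ...; `cosh_dist`), so `W = 0` (`lor_self_eq_zero_of_orth z.mem`).  If `a + b = 0` then `x = z = y`.  So `Z` is a nonnegative combination of `X` and `Y` (divide by `sinh (a+b)`).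
`exists_between`: conversely for `s, t ≥ 0`, not both `0`, the normalised vector `(s X + t Y)/rad` is a point between `x` and `y`: `exists_smul_hy` (HyBasic) for `s X + t Y` in the cone (`convex_LCone`, `smul_mem_LCone`); the distances add up: use `b1b_geod`: the points `γ t` on the geodesic are
 combinations by `between_lor`, and every direction `s X + t Y` is attained by the intermediate value theorem; or compute `cosh (d(x,z)+d(z,y))` directly: with `lor X Y = -c`, `N² = s² + t² + 2 s t c`: `cosh d(x,z) = (s + t c)/N`, `sinh d(x,z) = t √(c²-1)/N`, `cosh d(z,y) = (t + s c)/N`,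
 `sinh d(z,y) = s √(c²-1)/N`, so `cosh (sum) = ((s+tc)(t+sc) + s t (c²-1))/N² = c`.
`halfspace_convex`, `halfspace_open_convex`: from `between_lor`.
-/

theorem between_lor {x y z : H3} (h : dist x z + dist z y = dist x y) :
    ∃ a b : ℝ, 0 ≤ a ∧ 0 ≤ b ∧ z.val = a • x.val + b • y.val := by
  obtain ⟨p, hp⟩ : ∃ p, p = dist x z := ⟨_, rfl⟩
  obtain ⟨q, hq⟩ : ∃ q, q = dist z y := ⟨_, rfl⟩
  have hp0 : 0 ≤ p := by rw [hp]; exact dist_nonneg
  have hq0 : 0 ≤ q := by rw [hq]; exact dist_nonneg
  have e1 : lor x.val z.val = -Real.cosh p := by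
    rw [hp, cosh_dist]; ring
  have e2 : lor z.val y.val = -Real.cosh q := by
    rw [hq, cosh_dist]; ring
  have e3 : lor x.val y.val = -Real.cosh (p + q) := by
    rw [hp, hq, h, cosh_dist]; ring
  rcases eq_or_lt_of_le (add_nonneg hp0 hq0) with h0 | h0
  · have hp1 : dist x z = 0 := by rw [← hp]; linarith
    have hxz : x = z := dist_eq_zero.1 hp1
    exact ⟨1, 0, zero_le_one, le_rfl, by rw [hxz, one_smul, zero_smul, add_zero]⟩
  · have hS : 0 < Real.sinh (p + q) := Real.sinh_pos_iff.2 h0
    have s1 := Real.cosh_sq p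
    have s2 := Real.cosh_sq q
    have s3 := Real.cosh_add p q
    have s4 := Real.sinh_add p q
    have hW : Real.sinh q • x.val + Real.sinh p • y.val - Real.sinh (p + q) • z.val = 0 := by
      apply lor_self_eq_zero_of_orth z.mem
      · rw [lor_sub_left, lor_add_left, lor_smul_left, lor_smul_left, lor_smul_left, z.lor_self, e1,
          lor_comm y.val z.val, e2, s4]
        ring
      · simp only [lor_sub_left, lor_add_left, lor_smul_left, lor_sub_right, lor_add_right, lor_smul_right, z.lor_self,
          x.lor_self, y.lor_self, e1, e2, e3, lor_comm y.val z.val, lor_comm z.val x.val, lor_comm y.val x.val]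
        rw [s4, s3]
        linear_combination (Real.sinh q ^ 2) * s1 + (Real.sinh p ^ 2) * s2
    have h2 : z.val = (Real.sinh (p + q))⁻¹ • (Real.sinh q • x.val + Real.sinh p • y.val) := by
      rw [sub_eq_zero.1 hW, smul_smul, inv_mul_cancel₀ hS.ne', one_smul]
    refine ⟨(Real.sinh (p + q))⁻¹ * Real.sinh q, (Real.sinh (p + q))⁻¹ * Real.sinh p,
      mul_nonneg (inv_nonneg.2 hS.le) (Real.sinh_nonneg_iff.2 hq0),
      mul_nonneg (inv_nonneg.2 hS.le) (Real.sinh_nonneg_iff.2 hp0), ?_⟩
    rw [h2, smul_add, smul_smul, smul_smul]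

theorem exists_between (x y : H3) (s t : ℝ) (hs : 0 ≤ s) (ht : 0 ≤ t) (hst : 0 < s + t) :
    ∃ z : H3, dist x z + dist z y = dist x y ∧ ∃ r : ℝ, 0 < r ∧ s • x.val + t • y.val = r • z.val := by
  have hP : s • x.val + t • y.val ∈ LCone 3 := by
    rcases eq_or_lt_of_le hs with h0 | h0
    · have ht' : 0 < t := by rw [← h0] at hst; linarith
      rw [← h0, zero_smul, zero_add]
      exact smul_mem_LCone y.mem ht'
    · rcases eq_or_lt_of_le ht with h1 | h1
      · rw [← h1, zero_smul, add_zero]
        exact smul_mem_LCone x.mem h0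
      · have hx := smul_mem_LCone x.mem h0
        have hy := smul_mem_LCone y.mem h1
        have h2 := (convex_LCone 3) hx hy (show (0 : ℝ) ≤ 1 / 2 by norm_num) (show (0 : ℝ) ≤ 1 / 2 by norm_num) (by norm_num)
        have h3 := smul_mem_LCone h2 (show (0 : ℝ) < 2 by norm_num)
        have e : (2 : ℝ) • ((1 / 2 : ℝ) • s • x.val + (1 / 2 : ℝ) • t • y.val) = s • x.val + t • y.val := by
          rw [smul_add, smul_smul (2 : ℝ) (1 / 2) (s • x.val), smul_smul (2 : ℝ) (1 / 2) (t • y.val),
            show (2 : ℝ) * (1 / 2) = 1 by norm_num, one_smul, one_smul]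
        rwa [e] at h3
  obtain ⟨z, hz⟩ := exists_smul_hy hP
  have hN := rad_pos hP
  have hN2 := rad_sq hP
  obtain ⟨N, hNdef⟩ : ∃ N, N = rad (s • x.val + t • y.val) := ⟨_, rfl⟩
  rw [← hNdef] at hz hN hN2
  obtain ⟨c, hc⟩ : ∃ c, c = -lor x.val y.val := ⟨_, rfl⟩
  have hc1 : lor x.val y.val = -c := by rw [hc]; ring
  have hN3 : N ^ 2 = s ^ 2 + t ^ 2 + 2 * s * t * c := by
    rw [hN2]
    simp only [lor_add_left, lor_smul_left, lor_add_right, lor_smul_right, x.lor_self, y.lor_self,
      lor_comm y.val x.val, hc1]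
    ring
  have hzv : z.val = N⁻¹ • (s • x.val + t • y.val) := by
    rw [hz, smul_smul, inv_mul_cancel₀ hN.ne', one_smul]
  have c1 : Real.cosh (dist x z) = (s + t * c) / N := by
    rw [cosh_dist, hzv, lor_smul_right, lor_add_right, lor_smul_right, lor_smul_right, x.lor_self, hc1]
    field_simp
    ring
  have c2 : Real.cosh (dist z y) = (t + s * c) / N := by
    rw [cosh_dist, hzv, lor_smul_left, lor_add_left, lor_smul_left, lor_smul_left, y.lor_self, hc1]
    field_simp
    ring
  have c3 : Real.cosh (dist x y) = c := by rw [cosh_dist, hc]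
  have q3 := Real.cosh_sq (dist x y)
  rw [c3] at q3
  have hS0 : 0 ≤ Real.sinh (dist x y) := Real.sinh_nonneg_iff.2 dist_nonneg
  have hN0 : N ≠ 0 := hN.ne'
  have d1 : Real.sinh (dist x z) = t * Real.sinh (dist x y) / N := by
    have h1 : Real.sinh (dist x z) ^ 2 = (t * Real.sinh (dist x y) / N) ^ 2 := by
      have q1 := Real.cosh_sq (dist x z)
      rw [c1] at q1
      have e : Real.sinh (dist x z) ^ 2 = ((s + t * c) / N) ^ 2 - 1 := by linarith
      rw [e]
      field_simp
      rw [hN3]
      linear_combination t ^ 2 * q3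
    exact (pow_left_inj₀ (Real.sinh_nonneg_iff.2 dist_nonneg)
      (div_nonneg (mul_nonneg ht hS0) hN.le) two_ne_zero).1 h1
  have d2 : Real.sinh (dist z y) = s * Real.sinh (dist x y) / N := by
    have h1 : Real.sinh (dist z y) ^ 2 = (s * Real.sinh (dist x y) / N) ^ 2 := by
      have q1 := Real.cosh_sq (dist z y)
      rw [c2] at q1
      have e : Real.sinh (dist z y) ^ 2 = ((t + s * c) / N) ^ 2 - 1 := by linarith
      rw [e]
      field_simp
      rw [hN3]
      linear_combination s ^ 2 * q3
    exact (pow_left_inj₀ (Real.sinh_nonneg_iff.2 dist_nonneg)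
      (div_nonneg (mul_nonneg hs hS0) hN.le) two_ne_zero).1 h1
  refine ⟨z, ?_, N, hN, hz⟩
  have h5 : Real.cosh (dist x z + dist z y) = Real.cosh (dist x y) := by
    rw [Real.cosh_add, c1, c2, d1, d2, c3]
    field_simp
    rw [hN3]
    linear_combination (-(s * t)) * q3
  have h6 : 0 ≤ dist x z + dist z y := add_nonneg dist_nonneg dist_nonneg
  rw [← Real.arcosh_cosh h6, h5, Real.arcosh_cosh dist_nonneg]

theorem halfspace_convex (n : V) : HConvex {x : H3 | lor x.val n ≤ 0} := by
  intro x hx y hy z hz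
  obtain ⟨a, b, ha, hb, hab⟩ := between_lor hz
  show lor z.val n ≤ 0
  have hx' : lor x.val n ≤ 0 := hx
  have hy' : lor y.val n ≤ 0 := hy
  rw [hab, lor_add_left, lor_smul_left, lor_smul_left]
  have h1 := mul_nonneg ha (neg_nonneg.2 hx')
  have h2 := mul_nonneg hb (neg_nonneg.2 hy')
  linarith

theorem halfspace_closed (n : V) : IsClosed {x : H3 | lor x.val n ≤ 0} := by
  have h : Continuous (fun x : H3 => lor x.val n) := by
    have h1 := (continuous_lor_right n).comp (hy_val_continuous 3)
    have e : (fun x : H3 => lor x.val n) = (fun Y : V => lor n Y) ∘ (Hy.val : H3 → V) := by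
      funext x
      exact lor_comm _ _
    rw [e]
    exact h1
  exact isClosed_le h continuous_const

theorem halfspace_open (n : V) : IsOpen {x : H3 | lor x.val n < 0} := by
  have h : Continuous (fun x : H3 => lor x.val n) := by
    have h1 := (continuous_lor_right n).comp (hy_val_continuous 3)
    have e : (fun x : H3 => lor x.val n) = (fun Y : V => lor n Y) ∘ (Hy.val : H3 → V) := by
      funext x
      exact lor_comm _ _
    rw [e]
    exact h1
  exact isOpen_lt h continuous_const

end CEE
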