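import Pool.Agent.CEE.G1
import Pool.Agent.CEE.Y1a

set_option autoImplicit false

/-!
# [CEE-X2] Klein coordinates, disjoint half spaces
-/

namespace CEE

open Pool.Agent.MP_8db1a4_gt Set Real

/-- horizontal Klein coordinate `(x₁ + i x₂)/x₀` -/
noncomputable def kx (x : H3) : ℂ := ⟨x.val.1 0 / x.val.2, x.val.1 1 / x.val.2⟩

/-- vertical Klein coordinate `x₃/x₀` -/
noncomputable def kz (x : H3) : ℝ := x.val.1 2 / x.val.2

def Kball : Set (ℂ × ℝ) := {a | ‖a.1‖ ^ 2 + a.2 ^ 2 < 1}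

/-- the unit vector at the angle `θ` -/
noncomputable def uu (θ : ℝ) : ℂ := ⟨cos θ, sin θ⟩

/-- scalar product of plane vectors -/
noncomputable def dt (a b : ℂ) : ℝ := a.re * b.re + a.im * b.im

/-- `pv/qv * (1 - (-1)^i t z)` -/
noncomputable def cG (w : ℝ) (i : ℕ) (z : ℝ) : ℝ := pv w / qv w * (1 - (-1) ^ i * (tv w * z))

/- PROOF NOTES [CEE-X2].
`klein`: `mk (ξ, z) = (ξ.re, ξ.im, z; 1) / √(1 - ‖ξ‖² - z²)` on the ball (and the base point elsewhere); `x.lor_self` gives `(kx x, kz x) ∈ Kball`, `x₀ = 1/√(1 - ‖ξ‖² - z²)`; continuity by `B1c.hy_val_continuous` and `B1c.b1c_isInducing`.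
`lor_T_iff`: `lor x (vT w) = x₀ (√(1+S) kz - √S)`, `tv w = √S/√(1+S)`.  `lor_G_iff`: `lor x (vG w i) = x₀ (q dt (kx x) (uu (i w)) + (-1)^i p t kz - p)`.
`disj`: if `a = lor x n ≥ 0`, `b = lor x n' ≥ 0`: put `A = - lor o n > 0`, `B = - lor o n' > 0`, `y = (A + B) x + (a + b) o` (in the cone), `lor y (n + n') = (A+B)(a+b) - (a+b)(A+B) = 0`, `lor (n+n') (n+n') = 2 + 2 lor n n' ≤ 0`, so `n + n' = 0` (`lor_self_nonneg_of_orth`, `lor_self_eq_zero_of_orth`), but then
 `lor o n' = - lor o n > 0`: contradiction. -/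

theorem x2_pos (x : H3) : 0 < x.val.2 := B1c.b1c_snd_pos x

theorem x2_sq (x : H3) :
    x.val.1 0 * x.val.1 0 + x.val.1 1 * x.val.1 1 + x.val.1 2 * x.val.1 2 = x.val.2 * x.val.2 - 1 := by
  have h := x.lor_self
  rw [lor_eq] at h
  linarith

/-- the point of the affine chart -/
noncomputable def x2X (a : ℂ × ℝ) : V := vec a.1.re a.1.im a.2 1

theorem x2X_lor (a : ℂ × ℝ) : lor (x2X a) (x2X a) = ‖a.1‖ ^ 2 + a.2 ^ 2 - 1 := by
  rw [lor_eq]
  simp only [x2X, vec_0, vec_1, vec_2, vec_3]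
  rw [← Complex.normSq_eq_norm_sq, Complex.normSq_apply]
  ring

theorem x2X_cone {a : ℂ × ℝ} (ha : a ∈ Kball) : x2X a ∈ LCone 3 := by
  show ‖(x2X a).1‖ < (x2X a).2
  have h1 : lor (x2X a) (x2X a) = ‖(x2X a).1‖ * ‖(x2X a).1‖ - (x2X a).2 * (x2X a).2 := by
    simp only [lor, real_inner_self_eq_norm_mul_norm]
  rw [x2X_lor] at h1
  have h2 : (x2X a).2 = 1 := rfl
  have h3 : ‖a.1‖ ^ 2 + a.2 ^ 2 < 1 := ha
  rw [h2] at h1 ⊢
  nlinarith [norm_nonneg (x2X a).1]

theorem x2X_cont : Continuous x2X := by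
  unfold x2X vec
  refine Continuous.prodMk ?_ continuous_const
  refine (PiLp.continuous_toLp 2 _).comp ?_
  refine continuous_pi fun i => ?_
  fin_cases i
  · exact Complex.continuous_re.comp continuous_fst
  · exact Complex.continuous_im.comp continuous_fst
  · exact continuous_snd

theorem x2X_k (x : H3) : x2X (kx x, kz x) = (1 / x.val.2) • x.val := by
  have h := (x2_pos x).ne'
  unfold x2X kx kz vec
  refine Prod.ext ?_ ?_
  · ext i
    fin_cases i
    · show x.val.1 0 / x.val.2 = 1 / x.val.2 * x.val.1 0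
      ring
    · show x.val.1 1 / x.val.2 = 1 / x.val.2 * x.val.1 1
      ring
    · show x.val.1 2 / x.val.2 = 1 / x.val.2 * x.val.1 2
      ring
  · show (1 : ℝ) = 1 / x.val.2 * x.val.2
    field_simp

theorem klein_mem (x : H3) : (kx x, kz x) ∈ Kball := by
  have h1 := x2X_lor (kx x, kz x)
  rw [x2X_k, lor_smul_left, lor_smul_right, x.lor_self] at h1
  have h2 := x2_pos x
  have h3 : 0 < 1 / x.val.2 := by positivity
  have h4 := mul_pos h3 h3
  show ‖kx x‖ ^ 2 + kz x ^ 2 < 1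
  simp only at h1
  linarith

theorem klein : ∃ mk : ℂ × ℝ → H3, ContinuousOn mk Kball ∧
    (∀ a ∈ Kball, kx (mk a) = a.1 ∧ kz (mk a) = a.2) ∧ ∀ x, mk (kx x, kz x) = x := by
  classical
  have hex : ∀ a : ℂ × ℝ, ∃ x : H3, a ∈ Kball → x2X a = rad (x2X a) • x.val := by
    intro a
    by_cases ha : a ∈ Kball
    · obtain ⟨x, hx⟩ := exists_smul_hy (x2X_cone ha)
      exact ⟨x, fun _ => hx⟩
    · exact ⟨Ohy 3, fun h => absurd h ha⟩
  choose mk hmk using hex
  have hval : ∀ a ∈ Kball, (mk a).val = (rad (x2X a))⁻¹ • x2X a := by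
    intro a ha
    have h1 := rad_pos (x2X_cone ha)
    have h2 := hmk a ha
    obtain ⟨r, hr⟩ : ∃ r, r = rad (x2X a) := ⟨_, rfl⟩
    rw [← hr] at h1 h2 ⊢
    rw [h2, smul_smul, inv_mul_cancel₀ h1.ne', one_smul]
  refine ⟨mk, ?_, ?_, ?_⟩
  · rw [(B1c.b1c_isInducing 3).continuousOn_iff]
    have h1 : ContinuousOn (fun a => (rad (x2X a))⁻¹ • x2X a) Kball := by
      refine ContinuousOn.smul (ContinuousOn.inv₀ ((continuous_rad 3).comp x2X_cont).continuousOn ?_)
        x2X_cont.continuousOn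
      intro a ha
      exact (rad_pos (x2X_cone ha)).ne'
    exact h1.congr hval
  · intro a ha
    have h1 := rad_pos (x2X_cone ha)
    have h2 := hval a ha
    obtain ⟨r, hr⟩ : ∃ r, r = (rad (x2X a))⁻¹ := ⟨_, rfl⟩
    have hr0 : r ≠ 0 := by rw [hr]; exact inv_ne_zero h1.ne'
    rw [← hr] at h2
    have e0 : (mk a).val.1 0 = r * a.1.re := by rw [h2]; rfl
    have e1 : (mk a).val.1 1 = r * a.1.im := by rw [h2]; rfl
    have e2 : (mk a).val.1 2 = r * a.2 := by rw [h2]; rfl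
    have e3 : (mk a).val.2 = r * 1 := by rw [h2]; rfl
    constructor
    · unfold kx
      rw [e0, e1, e3]
      apply Complex.ext
      · show r * a.1.re / (r * 1) = a.1.re
        field_simp
      · show r * a.1.im / (r * 1) = a.1.im
        field_simp
    · unfold kz
      rw [e2, e3]
      field_simp
  · intro x
    apply Hy.ext'
    rw [hval _ (klein_mem x), x2X_k, rad_smul _ (by have := x2_pos x; positivity), rad_hy, smul_smul,
      mul_one]
    have h := (x2_pos x).ne'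
    rw [inv_mul_cancel₀ (by positivity), one_smul]

theorem x2_val1 (i : Fin 3) : Continuous (fun x : H3 => x.val.1 i) := by
  have h1 : Continuous (fun x : H3 => x.val.1) := continuous_fst.comp (B1c.hy_val_continuous 3)
  exact (EuclideanSpace.proj i : EuclideanSpace ℝ (Fin 3) →L[ℝ] ℝ).continuous.comp h1

theorem x2_val2 : Continuous (fun x : H3 => x.val.2) :=
  continuous_snd.comp (B1c.hy_val_continuous 3)

theorem kx_continuous : Continuous kx := by
  have h1 : Continuous (fun x : H3 => ((x.val.1 0 / x.val.2, x.val.1 1 / x.val.2) : ℝ × ℝ)) :=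
    ((x2_val1 0).div x2_val2 fun x => (x2_pos x).ne').prodMk
      ((x2_val1 1).div x2_val2 fun x => (x2_pos x).ne')
  exact Complex.equivRealProdCLM.symm.continuous.comp h1

theorem kz_continuous : Continuous kz :=
  (x2_val1 2).div x2_val2 fun x => (x2_pos x).ne'

theorem x2_0 (x : H3) : x.val.1 0 = (kx x).re * x.val.2 := by
  have h := (x2_pos x).ne'
  show x.val.1 0 = x.val.1 0 / x.val.2 * x.val.2
  field_simp

theorem x2_1 (x : H3) : x.val.1 1 = (kx x).im * x.val.2 := by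
  have h := (x2_pos x).ne'
  show x.val.1 1 = x.val.1 1 / x.val.2 * x.val.2
  field_simp

theorem x2_2 (x : H3) : x.val.1 2 = kz x * x.val.2 := by
  have h := (x2_pos x).ne'
  show x.val.1 2 = x.val.1 2 / x.val.2 * x.val.2
  field_simp

theorem x2_sign {c a b L : ℝ} (hc : 0 < c) (hL : L = c * (a - b)) :
    (L ≤ 0 ↔ a ≤ b) ∧ (L = 0 ↔ a = b) := by
  rw [hL]
  constructor
  · constructor
    · intro h
      by_contra h2
      have := mul_pos hc (sub_pos.2 (not_le.1 h2))
      linarith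
    · intro h
      exact mul_nonpos_of_nonneg_of_nonpos hc.le (sub_nonpos.2 h)
  · constructor
    · intro h
      rcases mul_eq_zero.1 h with h2 | h2
      · exact absurd h2 hc.ne'
      · linarith
    · intro h
      rw [h, sub_self, mul_zero]

theorem lor_T_le {w : ℝ} (h0 : 0 < w) (h1 : w ≤ 1 / 2) (x : H3) :
    (lor x.val (vT w) ≤ 0 ↔ kz x ≤ tv w) ∧ (lor x.val (vT w) = 0 ↔ kz x = tv w) := by
  have hS := Sv_pos h0 h1
  refine x2_sign (c := x.val.2 * sqrt (1 + Sv w)) (mul_pos (x2_pos x) (by positivity)) ?_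
  have e := tv_eq h0 h1
  rw [lor_eq, x2_2]
  simp only [vT, vec_0, vec_1, vec_2, vec_3]
  linear_combination (x.val.2) * e

theorem lor_B_le {w : ℝ} (h0 : 0 < w) (h1 : w ≤ 1 / 2) (x : H3) :
    (lor x.val (vB w) ≤ 0 ↔ -tv w ≤ kz x) ∧ (lor x.val (vB w) = 0 ↔ kz x = -tv w) := by
  have hS := Sv_pos h0 h1
  have h := x2_sign (c := x.val.2 * sqrt (1 + Sv w)) (a := -tv w) (b := kz x)
    (L := lor x.val (vB w)) (mul_pos (x2_pos x) (by positivity)) (by
      have e := tv_eq h0 h1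
      rw [lor_eq, x2_2]
      simp only [vB, vec_0, vec_1, vec_2, vec_3]
      linear_combination (x.val.2) * e)
  exact ⟨h.1, h.2.trans eq_comm⟩

theorem lor_G_le {w : ℝ} (h0 : 0 < w) (h1 : w ≤ 1 / 2) (x : H3) (i : ℕ) :
    (lor x.val (vG w i) ≤ 0 ↔ dt (kx x) (uu (i * w)) ≤ cG w i (kz x)) ∧
      (lor x.val (vG w i) = 0 ↔ dt (kx x) (uu (i * w)) = cG w i (kz x)) := by
  have hq := qv_pos h0 h1
  refine x2_sign (c := x.val.2 * qv w) (mul_pos (x2_pos x) hq) ?_
  have e : qv w * cG w i (kz x) = pv w * (1 - (-1) ^ i * (tv w * kz x)) := by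
    unfold cG
    field_simp
  rw [mul_sub, mul_assoc (x.val.2) (qv w) (cG w i (kz x)), e, lor_eq, x2_2, x2_1, x2_0]
  simp only [vG, vec_0, vec_1, vec_2, vec_3, dt, uu]
  ring

/-- half spaces not containing `o` with `⟨n, n'⟩ ≤ -1` are disjoint -/
theorem disj {n n' : V} (hn : lor n n = 1) (hn' : lor n' n' = 1) (h : lor n n' ≤ -1) (o : H3)
    (ho : lor o.val n < 0) (ho' : lor o.val n' < 0) (x : H3) (hx : 0 ≤ lor x.val n) :
    lor x.val n' < 0 := by
  by_contra hb
  have hb' : 0 ≤ lor x.val n' := not_lt.1 hb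
  obtain ⟨a, ha⟩ : ∃ a, a = lor x.val n := ⟨_, rfl⟩
  obtain ⟨b, hb1⟩ : ∃ b, b = lor x.val n' := ⟨_, rfl⟩
  obtain ⟨A, hA⟩ : ∃ A, A = -lor o.val n := ⟨_, rfl⟩
  obtain ⟨B, hB⟩ : ∃ B, B = -lor o.val n' := ⟨_, rfl⟩
  have hA0 : 0 < A := by rw [hA]; linarith
  have hB0 : 0 < B := by rw [hB]; linarith
  have ha0 : 0 ≤ a := by rw [ha]; exact hx
  have hb0 : 0 ≤ b := by rw [hb1]; exact hb'
  have hy : (A + B) • x.val + (a + b) • o.val ∈ LCone 3 := by
    have h1 := smul_mem_LCone x.mem (by linarith : 0 < A + B)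
    rcases eq_or_lt_of_le (add_nonneg ha0 hb0) with h2 | h2
    · rw [← h2, zero_smul, add_zero]
      exact h1
    · have h3 := smul_mem_LCone o.mem h2
      show ‖((A + B) • x.val + (a + b) • o.val).1‖ < ((A + B) • x.val + (a + b) • o.val).2
      have h4 : ‖((A + B) • x.val).1‖ < ((A + B) • x.val).2 := h1
      have h5 : ‖((a + b) • o.val).1‖ < ((a + b) • o.val).2 := h3
      rw [Prod.fst_add, Prod.snd_add]
      exact (norm_add_le _ _).trans_lt (add_lt_add h4 h5)
  have horth : lor (n + n') ((A + B) • x.val + (a + b) • o.val) = 0 := by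
    rw [lor_comm, lor_add_left, lor_smul_left, lor_smul_left, lor_add_right, lor_add_right, ← ha,
      ← hb1]
    have e1 : lor o.val n = -A := by rw [hA]; ring
    have e2 : lor o.val n' = -B := by rw [hB]; ring
    rw [e1, e2]
    ring
  have h1 := lor_self_nonneg_of_orth hy horth
  have h2 : lor (n + n') (n + n') = 2 + 2 * lor n n' := by
    rw [lor_add_left, lor_add_right, lor_add_right, hn, hn', lor_comm n' n]
    ring
  have h3 : lor (n + n') (n + n') = 0 := by
    apply le_antisymm _ h1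
    rw [h2]
    linarith
  have h4 := lor_self_eq_zero_of_orth hy horth h3
  have h5 : lor o.val (n + n') = 0 := by
    rw [h4]
    have : (0 : V) = (0 : ℝ) • n := by rw [zero_smul]
    rw [this, lor_smul_right, zero_mul]
  rw [lor_add_right] at h5
  linarith

end CEE
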