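import Pool.Agent.CEE.X2

set_option autoImplicit false
set_option linter.unusedVariables false

/-!
# [CEE-X3a] The fan of the chamber slice: basic inequalities
-/

namespace CEE

open Set Real

/-- admissible opening angles -/
structure WOK (m : ℕ) (w : ℝ) : Prop where
  pos : 0 < w
  le : w ≤ 1 / 2
  lo : π ≤ m * w
  hi : (m + 3) * w ≤ 2 * π
  odd : Odd m
  ge : 13 ≤ m

/-- radius of the slice disc at the height `z = t v` -/
noncomputable def cR (w v : ℝ) : ℝ := sqrt (1 - (tv w * v) ^ 2)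

/-- deviation angle -/
noncomputable def eta (w v : ℝ) : ℝ := arctan (tv w ^ 2 * v * (cos (w / 2) / sin (w / 2)))

/- PROOF NOTES [CEE-X3a].  `|v| ≤ 1`.  `t² = S/(1+S)`, `(p/q)² = (1+S)/E`, `tan²(w/2) = S(4S+3)/((4S+1)(S+1))` (from `Ev_cos`: `cos w = (1+2S)/E`, `2 cos² (w/2) = 1 + cos w`, `2 sin² (w/2) = 1 - cos w`, `(1 - cos w) E = 8S² + 6S`: `one_sub_cos`), `0 < S ≤ 1/8`.
`eta_lt`: `t² < tan² (w/2)` (`4S+1 < 4S+3`), so `t² cot(w/2) < tan (w/2)`, `|eta| < w/2` (`arctan` strictly monotone, `arctan (tan (w/2)) = w/2`; `|v| ≤ 1`).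
`cR_pos`: `t² v² ≤ t² < 1`.
`cG_ge`: `cos w ≤ (p/q)(1 - t²) ≤ cG w i (t v)` (`|(-1)^i t² v| ≤ t²`): `cos² w = (1+2S)²/E² ≤ 1/(E (1+S)) = (p/q)² (1 - t²)²` because `(1+2S)² (1+S) ≤ E` (`4 S³ ≤ 3 S`).
`cG_lt`: `cG ≤ (p/q)(1 + t²)`, `(p/q)² (1+t²)² = (1+2S)²/(E(1+S)) < 1/(1+S) = 1 - t² ≤ 1 - t² v²` (`(1+2S)² < E` iff `4S² + 4S < 8 S² + 8S`). -/

theorem x3a_key {w : ℝ} (h0 : 0 < w) (h1 : w ≤ 1 / 2) : cos w * (1 + 2 * Sv w) < 1 := by
  have hS := Sv_pos h0 h1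
  have hE := Ev_cos h0 h1
  have hE0 : Ev w = 8 * Sv w ^ 2 + 8 * Sv w + 1 := rfl
  have hEp : 0 < Ev w := p1_Ev_pos hS
  by_contra hcon
  have h2 := not_lt.1 hcon
  have h3 := mul_le_mul_of_nonneg_right h2 hEp.le
  have h4 : cos w * (1 + 2 * Sv w) * Ev w = (1 + 2 * Sv w) * (1 + 2 * Sv w) := by
    linear_combination (1 + 2 * Sv w) * hE
  rw [h4, one_mul, hE0] at h3
  nlinarith

theorem x3a_t {w : ℝ} (h0 : 0 < w) (h1 : w ≤ 1 / 2) :
    tv w ^ 2 * cos (w / 2) ^ 2 < sin (w / 2) ^ 2 := by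
  have hS := Sv_pos h0 h1
  have h2 := x3a_key h0 h1
  have e : 2 * (w / 2) = w := by ring
  rw [Real.cos_sq, Real.sin_sq_eq_half_sub, e, tv_sq h0 h1, div_mul_eq_mul_div,
    div_lt_iff₀ (by linarith)]
  nlinarith

theorem x3a_sin {w : ℝ} (h0 : 0 < w) (h1 : w ≤ 1 / 2) : 0 < sin (w / 2) :=
  Real.sin_pos_of_pos_of_lt_pi (by linarith) (by linarith [Real.pi_gt_three])

theorem x3a_cos {w : ℝ} (h0 : 0 < w) (h1 : w ≤ 1 / 2) : 0 < cos (w / 2) :=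
  Real.cos_pos_of_mem_Ioo ⟨by linarith [Real.pi_gt_three], by linarith [Real.pi_gt_three]⟩

theorem x3a_tv {w : ℝ} (h0 : 0 < w) (h1 : w ≤ 1 / 2) {v : ℝ} (hv : |v| ≤ 1) :
    |tv w ^ 2 * v| ≤ tv w ^ 2 := by
  rw [abs_mul, abs_of_nonneg (sq_nonneg _)]
  exact mul_le_of_le_one_right (sq_nonneg _) hv

theorem eta_lt {m : ℕ} {w : ℝ} (h : WOK m w) {v : ℝ} (hv : |v| ≤ 1) : |eta w v| < w / 2 := by
  have h0 := h.pos
  have h1 := h.le
  have hs := x3a_sin h0 h1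
  have hc := x3a_cos h0 h1
  have ht := x3a_t h0 h1
  have htv := x3a_tv h0 h1 hv
  have hx : |tv w ^ 2 * v * (cos (w / 2) / sin (w / 2))| < tan (w / 2) := by
    rw [abs_mul, abs_of_pos (div_pos hc hs), Real.tan_eq_sin_div_cos, lt_div_iff₀ hc]
    have h2 : |tv w ^ 2 * v| * (cos (w / 2) / sin (w / 2)) * cos (w / 2) =
        |tv w ^ 2 * v| * (cos (w / 2) ^ 2) / sin (w / 2) := by ring
    rw [h2, div_lt_iff₀ hs]
    have h3 := mul_le_mul_of_nonneg_right htv (sq_nonneg (cos (w / 2)))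
    nlinarith
  have hat : arctan (tan (w / 2)) = w / 2 :=
    Real.arctan_tan (by linarith [Real.pi_gt_three]) (by linarith [Real.pi_gt_three])
  rw [abs_lt] at hx ⊢
  unfold eta
  constructor
  · have h5 := Real.arctan_strictMono hx.1
    rw [Real.arctan_neg, hat] at h5
    exact h5
  · have h5 := Real.arctan_strictMono hx.2
    rw [hat] at h5
    exact h5

theorem x3a_t1 {w : ℝ} (h0 : 0 < w) (h1 : w ≤ 1 / 2) : 1 - tv w ^ 2 = 1 / (1 + Sv w) := by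
  have hS := Sv_pos h0 h1
  rw [tv_sq h0 h1]
  field_simp
  ring

theorem x3a_tlt {w : ℝ} (h0 : 0 < w) (h1 : w ≤ 1 / 2) : tv w ^ 2 < 1 := by
  have hS := Sv_pos h0 h1
  have h2 := x3a_t1 h0 h1
  have h3 : 0 < 1 / (1 + Sv w) := by positivity
  linarith

theorem x3a_v {v : ℝ} (hv : |v| ≤ 1) : v ^ 2 ≤ 1 := by
  have h2 := abs_le.1 hv
  nlinarith

theorem x3a_R {w : ℝ} (h0 : 0 < w) (h1 : w ≤ 1 / 2) {v : ℝ} (hv : |v| ≤ 1) :
    1 - tv w ^ 2 ≤ 1 - (tv w * v) ^ 2 := by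
  have h2 := mul_le_mul_of_nonneg_left (x3a_v hv) (sq_nonneg (tv w))
  have e : (tv w * v) ^ 2 = tv w ^ 2 * v ^ 2 := by ring
  rw [e]
  linarith

/-- `(p/q)² = (1+S)/E` -/
theorem x3a_pq {w : ℝ} (h0 : 0 < w) (h1 : w ≤ 1 / 2) : (pv w / qv w) ^ 2 = (1 + Sv w) / Ev w := by
  have hS := Sv_pos h0 h1
  have hE := p1_Ev_pos hS
  rw [div_pow, pv_sq h0 h1, qv_sq h0 h1]
  field_simp

theorem x3a_sgn {w : ℝ} (h0 : 0 < w) (h1 : w ≤ 1 / 2) {v : ℝ} (hv : |v| ≤ 1) (i : ℕ) :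
    |(-1 : ℝ) ^ i * (tv w * (tv w * v))| ≤ tv w ^ 2 := by
  rw [abs_mul, abs_pow, abs_neg, abs_one, one_pow, one_mul]
  have e : tv w * (tv w * v) = tv w ^ 2 * v := by ring
  rw [e]
  exact x3a_tv h0 h1 hv

theorem cR_pos {m : ℕ} {w : ℝ} (h : WOK m w) {v : ℝ} (hv : |v| ≤ 1) : 0 < cR w v := by
  have h2 := x3a_R h.pos h.le hv
  have h3 := x3a_tlt h.pos h.le
  unfold cR
  exact Real.sqrt_pos.2 (by linarith)

theorem cG_ge {m : ℕ} {w : ℝ} (h : WOK m w) {v : ℝ} (hv : |v| ≤ 1) (i : ℕ) :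
    cos w ≤ cG w i (tv w * v) := by
  have h0 := h.pos
  have h1 := h.le
  have hS := Sv_pos h0 h1
  have hS8 := Sv_le h0 h1
  have hE := Ev_cos h0 h1
  have hE0 : Ev w = 8 * Sv w ^ 2 + 8 * Sv w + 1 := rfl
  have hEp : 0 < Ev w := p1_Ev_pos hS
  have hp := pv_pos h0 h1
  have hq := qv_pos h0 h1
  have hpq : 0 < pv w / qv w := div_pos hp hq
  have h2 := (abs_le.1 (x3a_sgn h0 h1 hv i)).2
  have h3 : cos w ≤ pv w / qv w * (1 - tv w ^ 2) := by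
    have h4 := x3a_tlt h0 h1
    refine le_of_sq_le_sq ?_ (mul_nonneg hpq.le (by linarith))
    rw [mul_pow, x3a_pq h0 h1, x3a_t1 h0 h1]
    have hc : cos w = (1 + 2 * Sv w) / Ev w := by
      rw [eq_div_iff hEp.ne']
      exact hE
    rw [hc, div_pow, div_pow, one_pow, div_mul_div_comm, div_le_div_iff₀ (by positivity) (by positivity)]
    have h5 : (1 + 2 * Sv w) ^ 2 * (1 + Sv w) ≤ Ev w := by
      rw [hE0]
      nlinarith [mul_pos hS hS, mul_pos (mul_pos hS hS) hS]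
    have h6 := mul_le_mul_of_nonneg_right h5 (by positivity : 0 ≤ Ev w * (1 + Sv w))
    linarith
  refine h3.trans ?_
  unfold cG
  exact mul_le_mul_of_nonneg_left (by linarith) hpq.le

theorem cG_pos {m : ℕ} {w : ℝ} (h : WOK m w) {v : ℝ} (hv : |v| ≤ 1) (i : ℕ) :
    0 < cG w i (tv w * v) := by
  have h2 := cG_ge h hv i
  have h3 := cos_ge h.pos h.le
  linarith

theorem cG_lt {m : ℕ} {w : ℝ} (h : WOK m w) {v : ℝ} (hv : |v| ≤ 1) (i : ℕ) :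
    cG w i (tv w * v) < cR w v := by
  have h0 := h.pos
  have h1 := h.le
  have hS := Sv_pos h0 h1
  have hE0 : Ev w = 8 * Sv w ^ 2 + 8 * Sv w + 1 := rfl
  have hEp : 0 < Ev w := p1_Ev_pos hS
  have hp := pv_pos h0 h1
  have hq := qv_pos h0 h1
  have hpq : 0 < pv w / qv w := div_pos hp hq
  have hpos := cG_pos h hv i
  have h2 := (abs_le.1 (x3a_sgn h0 h1 hv i)).1
  have h3 : cG w i (tv w * v) ≤ pv w / qv w * (1 + tv w ^ 2) := by
    unfold cG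
    exact mul_le_mul_of_nonneg_left (by linarith) hpq.le
  have h4 : (pv w / qv w * (1 + tv w ^ 2)) ^ 2 < 1 - tv w ^ 2 := by
    have e : 1 + tv w ^ 2 = (1 + 2 * Sv w) / (1 + Sv w) := by
      rw [tv_sq h0 h1]
      field_simp
      ring
    rw [mul_pow, x3a_pq h0 h1, x3a_t1 h0 h1, e, div_pow, div_mul_div_comm,
      div_lt_div_iff₀ (by positivity) (by positivity)]
    have h5 : (1 + 2 * Sv w) ^ 2 < Ev w := by
      rw [hE0]
      nlinarith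
    have h6 := mul_lt_mul_of_pos_right h5 (by positivity : 0 < (1 + Sv w) * (1 + Sv w))
    nlinarith
  unfold cR
  apply Real.lt_sqrt_of_sq_lt
  have h7 := x3a_R h0 h1 hv
  have h8 := pow_le_pow_left₀ hpos.le h3 2
  linarith

end CEE
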