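import Pool.Agent.CEE.X2

set_option autoImplicit false
set_option linter.unusedVariables false

/-!
# [CEE-X4] Fans of cones in the plane
-/

namespace CEE

open Set Real

/-- determinant of plane vectors -/
noncomputable def dd (a b : ℂ) : ℝ := a.re * b.im - a.im * b.re

/-- hat coefficient of `ξ` for the ray `b` between the rays `a` and `c` -/
noncomputable def hat (a b c ξ : ℂ) : ℝ := max 0 (min (dd ξ c / dd b c) (dd a ξ / dd a b))

/- PROOF NOTES [CEE-X4].  `dd (r e^{iα}) (s e^{iβ}) = r s sin (β - α)`.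
`fan_cover`: `ξ = ρ (cos θ, sin θ)` with `b 0 ≤ θ < b 0 + 2π = b N` (`Complex.arg`, shift by a multiple of `2π`: `toIcoMod`); the largest `k < N` with `b k ≤ θ` has `θ < b (k+1)`; `b (k+1) - b k < π`; `ξ = α W_k + β W_{k+1}` with `α = ρ sin (b (k+1) - θ)/(r_k sin (b (k+1) - b k))`,
 `β = ρ sin (θ - b k)/(r_{k+1} sin (..))`.
`fan_hat_left`: `ξ = α W_k + β W_{k+1}`: `dd ξ W_{k+1} = α dd W_k W_{k+1}`; `dd W_{k-1} ξ / dd W_{k-1} W_k = α + β dd W_{k-1} W_{k+1} / dd W_{k-1} W_k ≥ α` (`0 < b (k+1) - b (k-1) < π`).  Here `W_{k-1}` is `W_{k+N-1}`: use indices `k+1` instead of `k` to avoid subtraction (statement below).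
`fan_hat_right`: `ξ = α W_k + β W_{k+1}`, hat at `k+1` between `k` and `k+2`: `dd W_k ξ / dd W_k W_{k+1} = β`, `dd ξ W_{k+2}/ dd W_{k+1} W_{k+2} = β + α dd W_k W_{k+2}/.. ≥ β`.
`fan_hat_zero`: if `b k ≤ θ ≤ b (k+1)`, and `j` with `k + 2 ≤ j + 1 + 1 ..`: for a ray `j+1` (between `j` and `j+2`) different (mod `N`) from `k`, `k+1`: if both quotients were positive: `sin (b (j+2) - θ) > 0` and `sin (θ - b j) > 0` would give `θ ∈ (b j, b (j+2))` modulo `2π` (because `b (j+2) - b j < π`):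
 `θ ∈ (b (j+2) - π, b (j+2)) ∩ (b j, b j + π) + 2π ℤ`; but `θ ∈ [b k, b (k+1)]` and the open arc `(b j, b (j+2))` is covered by the cones `j`, `j+1`.  So `hat = 0` (`max 0` of something `≤ 0`). -/

theorem x4_add_left (a b c : ℂ) : dd (a + b) c = dd a c + dd b c := by
  simp only [dd, Complex.add_re, Complex.add_im]
  ring

theorem x4_add_right (a b c : ℂ) : dd a (b + c) = dd a b + dd a c := by
  simp only [dd, Complex.add_re, Complex.add_im]
  ring

theorem x4_smul_left (s : ℝ) (a b : ℂ) : dd (s * a) b = s * dd a b := by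
  simp only [dd, Complex.re_ofReal_mul, Complex.im_ofReal_mul]
  ring

theorem x4_smul_right (s : ℝ) (a b : ℂ) : dd a (s * b) = s * dd a b := by
  simp only [dd, Complex.re_ofReal_mul, Complex.im_ofReal_mul]
  ring

theorem x4_self (a : ℂ) : dd a a = 0 := by
  simp only [dd]
  ring

theorem x4_uu (α β : ℝ) : dd (uu α) (uu β) = sin (β - α) := by
  simp only [dd, uu]
  rw [Real.sin_sub]
  ring

theorem x4_dd (r s α β : ℝ) : dd (r * uu α) (s * uu β) = r * s * sin (β - α) := by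
  rw [x4_smul_left, x4_smul_right, x4_uu]
  ring

theorem x4_uu_per (θ : ℝ) (n : ℤ) : uu (θ - n * (2 * π)) = uu θ := by
  unfold uu
  rw [Real.cos_sub_int_mul_two_pi, Real.sin_sub_int_mul_two_pi]

theorem x4_uu_add (θ : ℝ) : uu (θ + 2 * π) = uu θ := by
  unfold uu
  rw [Real.cos_add_two_pi, Real.sin_add_two_pi]

theorem x4_find (b : ℕ → ℝ) (θ : ℝ) (h0 : b 0 ≤ θ) :
    ∀ N, θ < b N → ∃ k < N, b k ≤ θ ∧ θ < b (k + 1) := by
  intro N
  induction N with
  | zero => intro h; linarith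
  | succ N ih =>
    intro h
    rcases lt_or_ge θ (b N) with h1 | h1
    · obtain ⟨k, hk, h2⟩ := ih h1
      exact ⟨k, by omega, h2⟩
    · exact ⟨N, by omega, h1, h⟩

theorem x4_polar (ξ : ℂ) : ξ = (‖ξ‖ : ℝ) * uu (Complex.arg ξ) := by
  apply Complex.ext
  · rw [Complex.re_ofReal_mul]
    exact (Complex.norm_mul_cos_arg ξ).symm
  · rw [Complex.im_ofReal_mul]
    exact (Complex.norm_mul_sin_arg ξ).symm

/-- decomposition of a direction between two rays -/
theorem x4_dec (A B θ ρ rA rB : ℝ) (hA : A ≤ θ) (hB : θ ≤ B) (hAB : A < B) (hpi : B - A < π)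
    (hρ : 0 ≤ ρ) (hrA : 0 < rA) (hrB : 0 < rB) : ∃ α β : ℝ, 0 ≤ α ∧ 0 ≤ β ∧
      ((ρ : ℝ) * uu θ : ℂ) = α * (rA * uu A) + β * (rB * uu B) := by
  have hs : 0 < sin (B - A) := Real.sin_pos_of_pos_of_lt_pi (by linarith) hpi
  have h1 : 0 ≤ sin (B - θ) := Real.sin_nonneg_of_nonneg_of_le_pi (by linarith) (by linarith)
  have h2 : 0 ≤ sin (θ - A) := Real.sin_nonneg_of_nonneg_of_le_pi (by linarith) (by linarith)
  refine ⟨ρ * sin (B - θ) / (rA * sin (B - A)), ρ * sin (θ - A) / (rB * sin (B - A)),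
    by positivity, by positivity, ?_⟩
  have hs' := hs.ne'
  have hA' := hrA.ne'
  have hB' := hrB.ne'
  have e1 : ρ * sin (B - θ) / (rA * sin (B - A)) * rA = ρ * (sin (B - θ) / sin (B - A)) := by
    field_simp
  have e2 : ρ * sin (θ - A) / (rB * sin (B - A)) * rB = ρ * (sin (θ - A) / sin (B - A)) := by
    field_simp
  rw [← mul_assoc, ← mul_assoc, ← Complex.ofReal_mul, ← Complex.ofReal_mul, e1, e2]
  apply Complex.ext
  · rw [Complex.add_re, Complex.re_ofReal_mul, Complex.re_ofReal_mul, Complex.re_ofReal_mul]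
    show ρ * cos θ = ρ * (sin (B - θ) / sin (B - A)) * cos A + ρ * (sin (θ - A) / sin (B - A)) * cos B
    field_simp
    rw [Real.sin_sub, Real.sin_sub, Real.sin_sub]
    have := Real.sin_sq_add_cos_sq A
    ring
  · rw [Complex.add_im, Complex.im_ofReal_mul, Complex.im_ofReal_mul, Complex.im_ofReal_mul]
    show ρ * sin θ = ρ * (sin (B - θ) / sin (B - A)) * sin A + ρ * (sin (θ - A) / sin (B - A)) * sin B
    field_simp
    rw [Real.sin_sub, Real.sin_sub, Real.sin_sub]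
    ring

theorem fan_cover (N : ℕ) (hN : 0 < N) (b r : ℕ → ℝ) (hb : ∀ k, b k < b (k + 1))
    (hper : ∀ k, b (k + N) = b k + 2 * π) (h2 : ∀ k, b (k + 2) - b k < π) (hr : ∀ k, 0 < r k)
    (ξ : ℂ) : ∃ k < N, ∃ α β : ℝ, 0 ≤ α ∧ 0 ≤ β ∧
      ξ = α * (r k * uu (b k)) + β * (r (k + 1) * uu (b (k + 1))) := by
  obtain ⟨n, hn, -⟩ := existsUnique_sub_zsmul_mem_Ico Real.two_pi_pos (Complex.arg ξ) (b 0)
  rw [zsmul_eq_mul] at hn
  have hN0 := hper 0
  rw [Nat.zero_add] at hN0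
  obtain ⟨k, hk, h3, h4⟩ := x4_find b _ hn.1 N (by rw [hN0]; exact hn.2)
  have h5 := hb (k + 1)
  have h6 := h2 k
  have h5' : b (k + 1) < b (k + 2) := h5
  obtain ⟨α, β, hα, hβ, he⟩ := x4_dec (b k) (b (k + 1)) _ ‖ξ‖ (r k) (r (k + 1)) h3 h4.le (hb k)
    (by linarith) (norm_nonneg ξ) (hr k) (hr (k + 1))
  refine ⟨k, hk, α, β, hα, hβ, ?_⟩
  rw [← he, x4_uu_per]
  exact x4_polar ξ

theorem x4_pos1 {b r : ℕ → ℝ} (hb : ∀ k, b k < b (k + 1)) (h2 : ∀ k, b (k + 2) - b k < π)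
    (hr : ∀ k, 0 < r k) (k : ℕ) : 0 < dd (r k * uu (b k)) (r (k + 1) * uu (b (k + 1))) := by
  rw [x4_dd]
  have h3 := hb k
  have h4 : b (k + 1) < b (k + 2) := hb (k + 1)
  have h5 := h2 k
  exact mul_pos (mul_pos (hr _) (hr _)) (Real.sin_pos_of_pos_of_lt_pi (by linarith) (by linarith))

theorem x4_pos2 {b r : ℕ → ℝ} (hb : ∀ k, b k < b (k + 1)) (h2 : ∀ k, b (k + 2) - b k < π)
    (hr : ∀ k, 0 < r k) (k : ℕ) : 0 < dd (r k * uu (b k)) (r (k + 2) * uu (b (k + 2))) := by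
  rw [x4_dd]
  have h3 := hb k
  have h4 : b (k + 1) < b (k + 2) := hb (k + 1)
  have h5 := h2 k
  exact mul_pos (mul_pos (hr _) (hr _)) (Real.sin_pos_of_pos_of_lt_pi (by linarith) (by linarith))

theorem fan_hat_left (b r : ℕ → ℝ) (hb : ∀ k, b k < b (k + 1)) (h2 : ∀ k, b (k + 2) - b k < π)
    (hr : ∀ k, 0 < r k) (k : ℕ) (α β : ℝ) (hα : 0 ≤ α) (hβ : 0 ≤ β) :
    hat (r k * uu (b k)) (r (k + 1) * uu (b (k + 1))) (r (k + 2) * uu (b (k + 2)))
      (α * (r (k + 1) * uu (b (k + 1))) + β * (r (k + 2) * uu (b (k + 2)))) = α := by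
  have p01 := x4_pos1 hb h2 hr k
  have p12 : 0 < dd (r (k + 1) * uu (b (k + 1))) (r (k + 2) * uu (b (k + 2))) :=
    x4_pos1 hb h2 hr (k + 1)
  have p02 := x4_pos2 hb h2 hr k
  unfold hat
  obtain ⟨W0, hW0⟩ : ∃ W : ℂ, W = r k * uu (b k) := ⟨_, rfl⟩
  obtain ⟨W1, hW1⟩ : ∃ W : ℂ, W = r (k + 1) * uu (b (k + 1)) := ⟨_, rfl⟩
  obtain ⟨W2, hW2⟩ : ∃ W : ℂ, W = r (k + 2) * uu (b (k + 2)) := ⟨_, rfl⟩
  rw [← hW0, ← hW1, ← hW2]
  rw [← hW0, ← hW1] at p01
  rw [← hW1, ← hW2] at p12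
  rw [← hW0, ← hW2] at p02
  rw [x4_add_left, x4_add_right, x4_smul_left, x4_smul_left, x4_smul_right, x4_smul_right, x4_self,
    mul_zero, add_zero, mul_div_cancel_right₀ _ p12.ne', add_div, mul_div_cancel_right₀ _ p01.ne',
    min_eq_left, max_eq_right hα]
  have : 0 ≤ β * dd W0 W2 / dd W0 W1 := by positivity
  linarith

theorem fan_hat_right (b r : ℕ → ℝ) (hb : ∀ k, b k < b (k + 1)) (h2 : ∀ k, b (k + 2) - b k < π)
    (hr : ∀ k, 0 < r k) (k : ℕ) (α β : ℝ) (hα : 0 ≤ α) (hβ : 0 ≤ β) :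
    hat (r k * uu (b k)) (r (k + 1) * uu (b (k + 1))) (r (k + 2) * uu (b (k + 2)))
      (α * (r k * uu (b k)) + β * (r (k + 1) * uu (b (k + 1)))) = β := by
  have p01 := x4_pos1 hb h2 hr k
  have p12 : 0 < dd (r (k + 1) * uu (b (k + 1))) (r (k + 2) * uu (b (k + 2))) :=
    x4_pos1 hb h2 hr (k + 1)
  have p02 := x4_pos2 hb h2 hr k
  unfold hat
  obtain ⟨W0, hW0⟩ : ∃ W : ℂ, W = r k * uu (b k) := ⟨_, rfl⟩
  obtain ⟨W1, hW1⟩ : ∃ W : ℂ, W = r (k + 1) * uu (b (k + 1)) := ⟨_, rfl⟩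
  obtain ⟨W2, hW2⟩ : ∃ W : ℂ, W = r (k + 2) * uu (b (k + 2)) := ⟨_, rfl⟩
  rw [← hW0, ← hW1, ← hW2]
  rw [← hW0, ← hW1] at p01
  rw [← hW1, ← hW2] at p12
  rw [← hW0, ← hW2] at p02
  rw [x4_add_left, x4_add_right, x4_smul_left, x4_smul_left, x4_smul_right, x4_smul_right, x4_self,
    mul_zero, zero_add, mul_div_cancel_right₀ _ p01.ne', add_div, mul_div_cancel_right₀ _ p12.ne',
    min_eq_right, max_eq_right hβ]
  have : 0 ≤ α * dd W0 W2 / dd W1 W2 := by positivity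
  linarith

/-- the combinatorial core of `fan_hat_zero` -/
theorem x4_core (A B P Q a c : ℝ) (hPQ : P < Q) (hQA : Q ≤ A) (hAB : A < B) (hBP : B ≤ P + 2 * π)
    (hpi : B - A < π) (hpi2 : Q - P < π) (ha : 0 ≤ a) (hc : 0 ≤ c) :
    ¬ (0 < a * sin (Q - A) + c * sin (Q - B) ∧ 0 < a * sin (A - P) + c * sin (B - P)) := by
  rintro ⟨hf, hg⟩
  have neg_of : ∀ x, -π ≤ x → x ≤ 0 → sin x ≤ 0 := fun x h1 h2 =>
    Real.sin_nonpos_of_nonpos_of_neg_pi_le h2 h1
  have neg_of2 : ∀ x, π ≤ x → x ≤ 2 * π → sin x ≤ 0 := by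
    intro x h1 h2
    rw [← Real.sin_sub_two_pi]
    exact neg_of _ (by linarith) (by linarith)
  rcases le_or_gt (B - Q) π with h1 | h1
  · have e1 := neg_of (Q - A) (by linarith) (by linarith)
    have e2 := neg_of (Q - B) (by linarith) (by linarith)
    have e3 := mul_nonpos_of_nonneg_of_nonpos ha e1
    have e4 := mul_nonpos_of_nonneg_of_nonpos hc e2
    linarith
  · have g2 := neg_of2 (B - P) (by linarith) (by linarith)
    have e4 := mul_nonpos_of_nonneg_of_nonpos hc g2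
    rcases le_or_gt π (A - P) with h3 | h3
    · have e1 := neg_of2 (A - P) h3 (by linarith)
      have e3 := mul_nonpos_of_nonneg_of_nonpos ha e1
      linarith
    · have f1 := neg_of (Q - A) (by linarith) (by linarith)
      have e3 := mul_nonpos_of_nonneg_of_nonpos ha f1
      have hdet : sin (Q - A) * sin (B - P) - sin (Q - B) * sin (A - P) = sin (Q - P) * sin (B - A) := by
        rw [Real.sin_sub, Real.sin_sub, Real.sin_sub, Real.sin_sub, Real.sin_sub, Real.sin_sub]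
        ring
      have hdet0 : 0 < sin (Q - P) * sin (B - A) :=
        mul_pos (Real.sin_pos_of_pos_of_lt_pi (by linarith) hpi2)
          (Real.sin_pos_of_pos_of_lt_pi (by linarith) hpi)
      have hcf : 0 < c * sin (Q - B) := by linarith
      have hag : 0 < a * sin (A - P) := by linarith
      have h5 : (a * -sin (Q - A)) * (c * -sin (B - P)) ≤ (c * sin (Q - B)) * (a * sin (A - P)) :=
        mul_le_mul (by linarith) (by linarith) (by linarith) hcf.le
      have h6 : a * c * (sin (Q - P) * sin (B - A)) ≤ 0 := by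
        rw [← hdet]
        linarith
      have hc' : c ≠ 0 := by
        rintro rfl
        linarith
      have ha' : a ≠ 0 := by
        rintro rfl
        linarith
      have hcp : 0 < c := lt_of_le_of_ne hc (Ne.symm hc')
      have hap : 0 < a := lt_of_le_of_ne ha (Ne.symm ha')
      have := mul_pos (mul_pos hap hcp) hdet0
      linarith

theorem fan_hat_zero (N : ℕ) (b r : ℕ → ℝ) (hb : ∀ k, b k < b (k + 1))
    (hper : ∀ k, b (k + N) = b k + 2 * π) (h2 : ∀ k, b (k + 2) - b k < π) (hr : ∀ k, 0 < r k)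
    (k j : ℕ) (hk : k < N) (hj : j < N) (h1 : (j + 1) % N ≠ k % N) (h1' : (j + 1) % N ≠ (k + 1) % N)
    (α β : ℝ) (hα : 0 ≤ α) (hβ : 0 ≤ β) :
    hat (r j * uu (b j)) (r (j + 1) * uu (b (j + 1))) (r (j + 2) * uu (b (j + 2)))
      (α * (r k * uu (b k)) + β * (r (k + 1) * uu (b (k + 1)))) = 0 := by
  have p01 := x4_pos1 hb h2 hr j
  have p12 : 0 < dd (r (j + 1) * uu (b (j + 1))) (r (j + 2) * uu (b (j + 2))) :=
    x4_pos1 hb h2 hr (j + 1)
  have hmono : StrictMono b := strictMono_nat_of_lt_succ hb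
  -- the index `K`
  obtain ⟨K, hK1, hK2, hK3⟩ : ∃ K, (j + 2 ≤ K ∧ K + 1 ≤ j + N) ∧ uu (b K) = uu (b k) ∧
      uu (b (K + 1)) = uu (b (k + 1)) := by
    rcases Nat.lt_or_ge (j + 1) k with h3 | h3
    · exact ⟨k, ⟨by omega, by omega⟩, rfl, rfl⟩
    · refine ⟨k + N, ⟨?_, ?_⟩, ?_, ?_⟩
      · by_contra h4
        have h5 : k = 0 := by omega
        have h6 : N = j + 1 := by omega
        rw [h5, h6, Nat.mod_self, Nat.zero_mod] at h1
        exact h1 rfl
      · by_contra h4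
        rcases Nat.eq_or_lt_of_le h3 with h5 | h5
        · rw [h5] at h1
          exact h1 rfl
        · have h6 : k = j := by omega
          rw [h6] at h1'
          exact h1' rfl
      · rw [hper, x4_uu_add]
      · have e : k + N + 1 = (k + 1) + N := by ring
        rw [e, hper, x4_uu_add]
  have hcore := x4_core (b K) (b (K + 1)) (b j) (b (j + 2)) (α * r k) (β * r (k + 1))
    (hmono (by omega)) (hmono.monotone hK1.1) (hb K)
    (by rw [← hper]; exact hmono.monotone hK1.2)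
    (by have h3 := h2 K; have h4 : b (K + 1) < b (K + 2) := hb (K + 1); linarith) (h2 j)
    (mul_nonneg hα (hr _).le) (mul_nonneg hβ (hr _).le)
  unfold hat
  apply max_eq_left
  by_contra hcon
  have hcon' := not_le.1 hcon
  rw [lt_min_iff] at hcon'
  obtain ⟨c1, c2⟩ := hcon'
  have c1' := (div_pos_iff_of_pos_right p12).1 c1
  have c2' := (div_pos_iff_of_pos_right p01).1 c2
  rw [← hK2, ← hK3] at c1' c2'
  simp only [x4_add_left, x4_smul_left, x4_smul_right, x4_uu] at c1'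
  simp only [x4_add_right, x4_smul_left, x4_smul_right, x4_uu] at c2'
  apply hcore
  constructor
  · have h3 : 0 < r (j + 2) * (α * r k * sin (b (j + 2) - b K) +
        β * r (k + 1) * sin (b (j + 2) - b (K + 1))) := by
      refine lt_of_lt_of_eq c1' ?_
      ring
    exact (mul_pos_iff_of_pos_left (hr _)).1 h3
  · have h3 : 0 < r j * (α * r k * sin (b K - b j) + β * r (k + 1) * sin (b (K + 1) - b j)) := by
      refine lt_of_lt_of_eq c2' ?_
      ring
    exact (mul_pos_iff_of_pos_left (hr _)).1 h3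

end CEE
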