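import Pool.Agent.CEE.X3d
import Pool.Agent.CEE.X4

set_option autoImplicit false

/-!
# [CEE-X3b] The fan of the chamber slice: the vertices
-/

namespace CEE

open Set Real Pool.Agent.MP_8db1a4_gt

/-- vertices of the slice -/
noncomputable def Wv (m : ℕ) (w v : ℝ) (k : ℕ) : ℂ := rr m w v k * uu (bb m w v k)

/- PROOF NOTES [CEE-X3b].  `z = t v`, `a i = cG w i z`.  `dt (r * uu α) (uu β) = r cos (α - β)`, `‖r * uu α‖ = r`.
`Wv_line`: `k = 0`: `cR cos (arccos (a 0 / cR)) = a 0`.  `1 ≤ k ≤ m`: on the line `k - 1` by definition of `rr0`; on the line `k`: `bb0 k - k w = -(w/2) - (-1)^k eta` and `bb0 k - (k-1) w = w/2 - (-1)^k eta`: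
 `a k / a (k-1) = cos (w/2 + (-1)^k eta)/cos (w/2 - (-1)^k eta)`: with `tan eta = t² v cot (w/2)`: `cos(w/2 ± eta) = cos (w/2) cos eta (1 ∓ tan (w/2) tan eta) = cos (w/2) cos eta (1 ∓ t² v)`; `a k = (p/q)(1 - (-1)^k t² v)`, `a (k-1) = (p/q)(1 + (-1)^k t² v)`.  `k = m+1`: `cos (arccos ..)`.
`Wv_norm_eq`: by definition of `rr0`.  `Wv_norm_lt` (`1 ≤ k ≤ m`): `rr² = (p/q)² (1/cos²(w/2) + t⁴ v²/ sin²(w/2))` (from the formula `rr = (p/q)/(cos (w/2) cos eta)`, `1/cos² eta = 1 + tan² eta`), and `(p/q)² (1/cos²(w/2) + t⁴/sin²(w/2)) + t² = 1 - 8S/((4S+3)(4S+1)) < 1` (`half_cos`), `v² ≤ 1`. -/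

theorem x3b_dt (r α β : ℝ) : dt (r * uu α) (uu β) = r * cos (α - β) := by
  simp only [dt, uu, Complex.re_ofReal_mul, Complex.im_ofReal_mul]
  rw [Real.cos_sub]
  ring

theorem x3b_uu (α : ℝ) : ‖uu α‖ = 1 := by
  have h1 : ‖uu α‖ ^ 2 = 1 := by
    rw [← Complex.normSq_eq_norm_sq, Complex.normSq_apply]
    simp only [uu]
    have := Real.sin_sq_add_cos_sq α
    linarith
  nlinarith [norm_nonneg (uu α)]

theorem x3b_norm (r α : ℝ) (hr : 0 ≤ r) : ‖(r * uu α : ℂ)‖ = r := by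
  rw [norm_mul, Complex.norm_real, Real.norm_of_nonneg hr, x3b_uu, mul_one]

/-- the slope -/
theorem x3b_eta {w : ℝ} (h0 : 0 < w) (h1 : w ≤ 1 / 2) (v : ℝ) :
    sin (eta w v) * sin (w / 2) = tv w ^ 2 * v * cos (w / 2) * cos (eta w v) ∧ 0 < cos (eta w v) := by
  have hs := x3a_sin h0 h1
  refine ⟨?_, Real.cos_arctan_pos _⟩
  have h2 : sin (eta w v) = tv w ^ 2 * v * (cos (w / 2) / sin (w / 2)) * cos (eta w v) := by
    unfold eta
    rw [Real.sin_arctan, Real.cos_arctan]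
    ring
  rw [h2]
  field_simp

theorem x3b_cos {w : ℝ} (h0 : 0 < w) (h1 : w ≤ 1 / 2) (v : ℝ) (k : ℕ) :
    cos (w / 2 - (-1) ^ k * eta w v) =
      cos (w / 2) * cos (eta w v) * (1 + (-1) ^ k * (tv w ^ 2 * v)) ∧
    cos (w / 2 + (-1) ^ k * eta w v) =
      cos (w / 2) * cos (eta w v) * (1 - (-1) ^ k * (tv w ^ 2 * v)) := by
  have h2 := (x3b_eta h0 h1 v).1
  rcases neg_one_pow_eq_or ℝ k with h3 | h3
  · rw [h3, one_mul, Real.cos_sub, Real.cos_add]
    constructor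
    · linear_combination h2
    · linear_combination -h2
  · rw [h3, neg_one_mul, sub_neg_eq_add, Real.cos_add, ← sub_eq_add_neg, Real.cos_sub]
    constructor
    · linear_combination -h2
    · linear_combination h2

theorem x3b_rr {m : ℕ} {w : ℝ} (h : WOK m w) {v : ℝ} (hv : |v| ≤ 1) (k : ℕ) (hk : 1 ≤ k)
    (hk' : k ≤ m) : rr m w v k = pv w / qv w / (cos (w / 2) * cos (eta w v)) := by
  have h0 := h.pos
  have h1 := h.le
  have hc := x3a_cos h0 h1
  have he := (x3b_eta h0 h1 v).2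
  have hx := x3a_sgn h0 h1 hv k
  have ht := x3a_tlt h0 h1
  have e0 : (-1 : ℝ) ^ k * (tv w * (tv w * v)) = (-1) ^ k * (tv w ^ 2 * v) := by ring
  rw [e0] at hx
  have hpos : 0 < 1 + (-1 : ℝ) ^ k * (tv w ^ 2 * v) := by
    have := (abs_le.1 hx).1
    linarith
  unfold rr rr0
  rw [Nat.mod_eq_of_lt (by omega : k < m + 3), if_pos ⟨hk, hk'⟩, x3d_ang v k hk hk',
    (x3b_cos h0 h1 v k).1]
  have e1 : cG w (k - 1) (tv w * v) = pv w / qv w * (1 + (-1) ^ k * (tv w ^ 2 * v)) := by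
    obtain ⟨j, rfl⟩ : ∃ j, k = j + 1 := ⟨k - 1, by omega⟩
    rw [Nat.add_sub_cancel]
    unfold cG
    rw [pow_succ]
    ring
  rw [e1]
  exact mul_div_mul_right _ _ hpos.ne'

theorem x3b_rr0 (m : ℕ) (w v : ℝ) (k : ℕ) (hk : k = 0 ∨ k = m + 1 ∨ k = m + 2 ∨ k = m + 3) :
    rr m w v k = cR w v := by
  unfold rr rr0
  rw [if_neg]
  rcases hk with hk | hk | hk | hk
  · subst hk
    rw [Nat.zero_mod]
    omega
  · subst hk
    rw [Nat.mod_eq_of_lt (by omega)]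
    omega
  · subst hk
    rw [Nat.mod_eq_of_lt (by omega)]
    omega
  · subst hk
    rw [Nat.mod_self]
    omega

theorem x3b_arccos {m : ℕ} {w : ℝ} (h : WOK m w) {v : ℝ} (hv : |v| ≤ 1) (i : ℕ) :
    cR w v * cos (x3d_de w v i) = cG w i (tv w * v) := by
  have h1 := cR_pos h hv
  have h2 := cG_pos h hv i
  have h3 := cG_lt h hv i
  unfold x3d_de
  rw [Real.cos_arccos]
  · field_simp
  · have : 0 < cG w i (tv w * v) / cR w v := div_pos h2 h1
    linarith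
  · rw [div_le_one h1]
    exact h3.le

theorem Wv_line {m : ℕ} {w : ℝ} (h : WOK m w) {v : ℝ} (hv : |v| ≤ 1) (k : ℕ) (hk : k ≤ m) :
    dt (Wv m w v k) (uu (k * w)) = cG w k (tv w * v) ∧
      dt (Wv m w v (k + 1)) (uu (k * w)) = cG w k (tv w * v) := by
  have h0 := h.pos
  have h1 := h.le
  have hc := x3a_cos h0 h1
  have he := (x3b_eta h0 h1 v).2
  have hq := qv_pos h0 h1
  constructor
  · rcases Nat.eq_zero_or_pos k with h2 | h2
    · subst h2
      unfold Wv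
      rw [x3b_dt, x3b_rr0 m w v 0 (Or.inl rfl), x3d_bb m w v 0 (by omega)]
      unfold bb0
      rw [if_pos rfl, Nat.cast_zero, zero_mul, sub_zero, Real.cos_neg]
      exact x3b_arccos h hv 0
    · unfold Wv
      rw [x3b_dt, x3b_rr h hv k h2 hk, x3d_bb m w v k (by omega)]
      have e1 := x3d_ang (m := m) (w := w) v k h2 hk
      have e2 : bb0 m w v k - k * w = -(w / 2 + (-1) ^ k * eta w v) := by linarith
      rw [e2, Real.cos_neg, (x3b_cos h0 h1 v k).2]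
      unfold cG
      field_simp
  · rcases Nat.lt_or_ge k m with h2 | h2
    · unfold Wv
      rw [x3b_dt, x3b_rr h hv (k + 1) (by omega) h2, x3d_bb m w v (k + 1) (by omega)]
      have e1 := x3d_ang (m := m) (w := w) v (k + 1) (by omega) h2
      have e2 : bb0 m w v (k + 1) - k * w = w / 2 - (-1) ^ (k + 1) * eta w v := by
        rw [← e1]
        push_cast
        ring
      rw [e2, (x3b_cos h0 h1 v (k + 1)).1, pow_succ]
      unfold cG
      field_simp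
      ring
    · have h3 : k = m := by omega
      subst h3
      unfold Wv
      rw [x3b_dt, x3b_rr0 k w v (k + 1) (Or.inr (Or.inl rfl)), x3d_bb k w v (k + 1) (by omega)]
      unfold bb0
      rw [if_neg (by omega), if_neg (by omega), if_pos rfl, add_sub_cancel_left]
      exact x3b_arccos h hv k

theorem Wv_norm_eq {m : ℕ} {w : ℝ} (h : WOK m w) {v : ℝ} (hv : |v| ≤ 1) (k : ℕ)
    (hk : k = 0 ∨ k = m + 1 ∨ k = m + 2 ∨ k = m + 3) : ‖Wv m w v k‖ = cR w v := by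
  unfold Wv
  rw [x3b_norm _ _ (rr_pos h hv k).le, x3b_rr0 m w v k hk]

theorem x3b_sq {m : ℕ} {w : ℝ} (h : WOK m w) {v : ℝ} (hv : |v| ≤ 1) :
    (pv w / qv w / (cos (w / 2) * cos (eta w v))) ^ 2 < 1 - (tv w * v) ^ 2 := by
  have h0 := h.pos
  have h1 := h.le
  have hS := Sv_pos h0 h1
  have hE0 : Ev w = 8 * Sv w ^ 2 + 8 * Sv w + 1 := rfl
  have hEp : 0 < Ev w := p1_Ev_pos hS
  have hEc := Ev_cos h0 h1
  have hs := x3a_sin h0 h1
  have hc := x3a_cos h0 h1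
  obtain ⟨he1, he2⟩ := x3b_eta h0 h1 v
  have hv2 := x3a_v hv
  have e2 : 2 * (w / 2) = w := by ring
  have hcos : cos (w / 2) ^ 2 = (4 * Sv w + 1) * (Sv w + 1) / Ev w := by
    rw [Real.cos_sq, e2, eq_div_iff hEp.ne', hE0]
    rw [hE0] at hEc
    linear_combination hEc / 2
  have hsin : sin (w / 2) ^ 2 = Sv w * (4 * Sv w + 3) / Ev w := by
    rw [Real.sin_sq_eq_half_sub, e2, eq_div_iff hEp.ne', hE0]
    rw [hE0] at hEc
    linear_combination -hEc / 2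
  -- `1/cos² eta = 1 + tan² eta`
  have hce : (sin (w / 2) ^ 2 + (tv w ^ 2 * v) ^ 2 * cos (w / 2) ^ 2) * cos (eta w v) ^ 2 =
      sin (w / 2) ^ 2 := by
    have h3 := Real.sin_sq_add_cos_sq (eta w v)
    have h4 : (sin (eta w v) * sin (w / 2)) ^ 2 = (tv w ^ 2 * v * cos (w / 2) * cos (eta w v)) ^ 2 := by
      rw [he1]
    linear_combination -h4 + sin (w / 2) ^ 2 * h3
  have hce2 : 0 < sin (w / 2) ^ 2 + (tv w ^ 2 * v) ^ 2 * cos (w / 2) ^ 2 := by positivity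
  have hce3 : cos (eta w v) ^ 2 =
      sin (w / 2) ^ 2 / (sin (w / 2) ^ 2 + (tv w ^ 2 * v) ^ 2 * cos (w / 2) ^ 2) := by
    rw [eq_div_iff hce2.ne', mul_comm]
    exact hce
  have ht := tv_sq h0 h1
  have e3 : (tv w * v) ^ 2 = tv w ^ 2 * v ^ 2 := by ring
  have e4 : (tv w ^ 2 * v) ^ 2 = (tv w ^ 2) ^ 2 * v ^ 2 := by ring
  have key : (pv w / qv w / (cos (w / 2) * cos (eta w v))) ^ 2 =
      1 / (4 * Sv w + 1) + Sv w / ((1 + Sv w) * (4 * Sv w + 3)) * v ^ 2 := by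
    rw [div_pow, x3a_pq h0 h1, mul_pow, hce3, e4, ht, hcos, hsin]
    have d1 : 4 * Sv w + 1 ≠ 0 := by positivity
    have d2 : 4 * Sv w + 3 ≠ 0 := by positivity
    have d3 : Sv w + 1 ≠ 0 := by positivity
    have d4 : 1 + Sv w ≠ 0 := by positivity
    field_simp
    ring
  rw [key, e3, ht]
  have h5 : 1 / (4 * Sv w + 1) + Sv w / ((1 + Sv w) * (4 * Sv w + 3)) * v ^ 2 +
      Sv w / (1 + Sv w) * v ^ 2 = 1 / (4 * Sv w + 1) + 4 * Sv w / (4 * Sv w + 3) * v ^ 2 := by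
    field_simp
    ring
  have h6 : 4 * Sv w / (4 * Sv w + 3) * v ^ 2 ≤ 4 * Sv w / (4 * Sv w + 3) :=
    mul_le_of_le_one_right (by positivity) hv2
  have h7 : 1 / (4 * Sv w + 1) + 4 * Sv w / (4 * Sv w + 3) < 1 := by
    rw [div_add_div _ _ (by positivity) (by positivity), div_lt_one (by positivity)]
    nlinarith
  linarith

theorem Wv_norm_lt {m : ℕ} {w : ℝ} (h : WOK m w) {v : ℝ} (hv : |v| ≤ 1) (k : ℕ) (hk : 1 ≤ k)
    (hk' : k ≤ m) : ‖Wv m w v k‖ < cR w v := by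
  unfold Wv
  rw [x3b_norm _ _ (rr_pos h hv k).le, x3b_rr h hv k hk hk']
  unfold cR
  exact Real.lt_sqrt_of_sq_lt (x3b_sq h hv)

theorem x3b_uu_cont : Continuous uu := by
  have h1 : Continuous (fun x : ℝ => ((cos x, sin x) : ℝ × ℝ)) := by fun_prop
  exact Complex.equivRealProdCLM.symm.continuous.comp h1

theorem Wv_cont {m : ℕ} {w : ℝ} (h : WOK m w) (k : ℕ) :
    ContinuousOn (fun v => Wv m w v k) (Icc (-1) 1) := by
  unfold Wv
  exact (Complex.continuous_ofReal.comp_continuousOn (rr_cont h k)).mul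
    (x3b_uu_cont.comp_continuousOn (bb_cont h k))

end CEE
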