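import Pool.Agent.CEE.X3b
import Pool.Agent.CEE.P2b

set_option autoImplicit false

/-!
# [CEE-X3c] The fan of the chamber slice: lines and disc
-/

namespace CEE

open Set Real Pool.Agent.MP_8db1a4_gt

/- PROOF NOTES [CEE-X3c].  `z = t v`, `a i = cG w i z`, `δ₀ = arccos (a 0/cR)`, `δ_m = arccos (a m / cR)`, both in `(0, w]`.
`gap_le`: `ξ = α W_k + β W_{k+1} = ρ uu θ` with `bb (m+1) ≤ θ ≤ bb (m+3) = bb 0 + 2π`: `cR cos (θ - i w) ≤ a i`: `i = 0`: `θ ∈ [m w + δ_m, 2π - δ₀]`, `cos θ ≤ cos δ₀ = a 0/cR`; `i = m`: `cos (θ - m w) ≤ cos δ_m` (`θ - m w ∈ [δ_m, 2π - m w - δ₀] ⊆ [δ_m, 2π - δ_m]` since `m w ≥ π`..);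
 `0 < i < m`: `θ - i w ∈ [w, 2π - w]`, `cos (θ - i w) ≤ cos w ≤ a i` (`cG_ge`), `cR ≤ 1`.  (`ρ uu θ`: `fan` combination of two rays with angles less than `π` apart.)
`Wv_le`: for `1 ≤ k ≤ m` the point `x = mk (W_k, z)` (`klein`, in the ball by `Wv_norm_lt`) satisfies `lor x (vG (k-1)) = 0 = lor x (vG k)` (`lor_G_le`), and for `i ≠ k-1, k` at least one of `|i - k|`, `|i - (k-1)|` is `≥ 2`: `disj` (with `G_G_le_even/odd`, base point `O`) gives `lor x (vG i) < 0`, i.e. `dt W_k (uu (i w)) < a i`.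
 For `k = 0, m+1, m+2` (on the circle): `gap_le` with `α = 1, β = 0` (or `α = 0`, `β = 1`).
`Wv_eq`: same, strict. -/

theorem x3c_comb (A B a c : ℝ) (hAB : A < B) (hpi : B - A < π) (ha : 0 ≤ a) (hc : 0 ≤ c) :
    ∃ ρ θ : ℝ, 0 ≤ ρ ∧ A ≤ θ ∧ θ ≤ B ∧ (a * uu A + c * uu B : ℂ) = ρ * uu θ := by
  have hs : 0 < sin (B - A) := Real.sin_pos_of_pos_of_lt_pi (by linarith) hpi
  have hcont : ContinuousOn (fun θ => a * sin (θ - A) - c * sin (B - θ)) (Icc A B) := by fun_prop
  have hiv := intermediate_value_Icc hAB.le hcont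
  have h0 : (0 : ℝ) ∈ Icc (a * sin (A - A) - c * sin (B - A)) (a * sin (B - A) - c * sin (B - B)) := by
    rw [sub_self, sub_self, Real.sin_zero, mul_zero, mul_zero]
    have := mul_nonneg ha hs.le
    have := mul_nonneg hc hs.le
    constructor <;> linarith
  obtain ⟨θ, ⟨h1, h2⟩, h3⟩ := hiv h0
  have h3' : a * sin (θ - A) - c * sin (B - θ) = 0 := h3
  obtain ⟨ρ, hρ⟩ : ∃ ρ, ρ = a * cos (θ - A) + c * cos (B - θ) := ⟨_, rfl⟩
  have hre : a * cos A + c * cos B = ρ * cos θ := by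
    have e1 : A = θ - (θ - A) := by ring
    have e2 : B = θ + (B - θ) := by ring
    have e3 : cos A = cos θ * cos (θ - A) + sin θ * sin (θ - A) := by
      conv_lhs => rw [e1]
      rw [Real.cos_sub θ (θ - A)]
    have e4 : cos B = cos θ * cos (B - θ) - sin θ * sin (B - θ) := by
      conv_lhs => rw [e2]
      rw [Real.cos_add θ (B - θ)]
    rw [e3, e4, hρ]
    linear_combination sin θ * h3'
  have him : a * sin A + c * sin B = ρ * sin θ := by
    have e1 : A = θ - (θ - A) := by ring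
    have e2 : B = θ + (B - θ) := by ring
    have e3 : sin A = sin θ * cos (θ - A) - cos θ * sin (θ - A) := by
      conv_lhs => rw [e1]
      rw [Real.sin_sub θ (θ - A)]
    have e4 : sin B = sin θ * cos (B - θ) + cos θ * sin (B - θ) := by
      conv_lhs => rw [e2]
      rw [Real.sin_add θ (B - θ)]
    rw [e3, e4, hρ]
    linear_combination -(cos θ) * h3'
  refine ⟨ρ, θ, ?_, h1, h2, ?_⟩
  · rcases eq_or_lt_of_le h1 with h4 | h4
    · rw [← h4, sub_self, Real.sin_zero, mul_zero] at h3'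
      have h5 : c = 0 := by
        have : c * sin (B - A) = 0 := by linarith
        rcases mul_eq_zero.1 this with h6 | h6
        · exact h6
        · exact absurd h6 hs.ne'
      rw [hρ, ← h4, sub_self, Real.cos_zero, h5]
      linarith
    · have h5 : 0 < sin (θ - A) := Real.sin_pos_of_pos_of_lt_pi (by linarith) (by linarith)
      have h6 : ρ * sin (θ - A) = c * sin (B - A) := by
        rw [Real.sin_sub, Real.sin_sub]
        linear_combination -(cos A) * him + sin A * hre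
      by_contra h7
      have h8 := mul_neg_of_neg_of_pos (not_le.1 h7) h5
      have h9 := mul_nonneg hc hs.le
      linarith
  · apply Complex.ext
    · rw [Complex.add_re, Complex.re_ofReal_mul, Complex.re_ofReal_mul, Complex.re_ofReal_mul]
      exact hre
    · rw [Complex.add_im, Complex.im_ofReal_mul, Complex.im_ofReal_mul, Complex.im_ofReal_mul]
      exact him

/-- end angles of the gap -/
theorem x3c_m1 (m : ℕ) (w v : ℝ) : bb m w v (m + 1) = m * w + x3d_de w v m := by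
  rw [x3d_bb m w v (m + 1) (by omega)]
  unfold bb0 x3d_de
  rw [if_neg (by omega), if_neg (by omega), if_pos rfl]

theorem x3c_m3 (m : ℕ) (w v : ℝ) : bb m w v (m + 3) = 2 * π - x3d_de w v 0 := by
  have e := bb_per m w v 0
  rw [Nat.zero_add] at e
  rw [e, x3d_bb m w v 0 (by omega)]
  unfold bb0 x3d_de
  rw [if_pos rfl]
  ring

theorem x3c_gap {m : ℕ} {w : ℝ} (h : WOK m w) {v : ℝ} (hv : |v| ≤ 1) (k : ℕ)
    (hk : k = m + 1 ∨ k = m + 2) :
    m * w + x3d_de w v m ≤ bb m w v k ∧ bb m w v (k + 1) ≤ 2 * π - x3d_de w v 0 := by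
  have h1 := bb_lt h hv (m + 1)
  have h2 := bb_lt h hv (m + 2)
  rw [show m + 1 + 1 = m + 2 by rfl] at h1
  rw [show m + 2 + 1 = m + 3 by rfl] at h2
  rw [← x3c_m1 m w v, ← x3c_m3 m w v]
  rcases hk with hk | hk
  · subst hk
    exact ⟨le_rfl, by rw [show m + 1 + 1 = m + 2 by rfl]; exact h2.le⟩
  · subst hk
    exact ⟨h1.le, le_rfl⟩

theorem gap_le {m : ℕ} {w : ℝ} (h : WOK m w) {v : ℝ} (hv : |v| ≤ 1) (k : ℕ)
    (hk : k = m + 1 ∨ k = m + 2) (α β : ℝ) (hα : 0 ≤ α) (hβ : 0 ≤ β) (i : ℕ) (hi : i ≤ m) :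
    dt (α * Wv m w v k + β * Wv m w v (k + 1)) (uu (i * w)) * cR w v ≤
      ‖(α * Wv m w v k + β * Wv m w v (k + 1) : ℂ)‖ * cG w i (tv w * v) := by
  have h0 := h.pos
  have hRp := cR_pos h hv
  obtain ⟨hA, hB⟩ := x3c_gap h hv k hk
  have hlt := bb_lt h hv k
  have hpi : bb m w v (k + 1) - bb m w v k < π := by
    have h3 := bb_two h hv k
    have h4 := bb_lt h hv (k + 1)
    rw [show k + 1 + 1 = k + 2 by rfl] at h4
    linarith
  obtain ⟨ρ, θ, hρ, hθ1, hθ2, he⟩ := x3c_comb (bb m w v k) (bb m w v (k + 1)) (α * rr m w v k)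
    (β * rr m w v (k + 1)) hlt hpi (mul_nonneg hα (rr_pos h hv k).le)
    (mul_nonneg hβ (rr_pos h hv (k + 1)).le)
  have he' : (α * Wv m w v k + β * Wv m w v (k + 1) : ℂ) = ρ * uu θ := by
    rw [← he]
    unfold Wv
    push_cast
    ring
  rw [he', x3b_dt, x3b_norm _ _ hρ]
  have hdi := x3d_de_le h hv i
  have hdi0 := x3d_de_pos h hv i
  have hwi : (i : ℝ) * w ≤ m * w := mul_le_mul_of_nonneg_right (by exact_mod_cast hi) h0.le
  have h5 : cos (θ - i * w) ≤ cos (x3d_de w v i) := by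
    refine p2b_cos hdi0.le ?_ ?_
    · rcases Nat.lt_or_ge i m with h6 | h6
      · have h7 : ((i : ℝ) + 1) * w ≤ m * w :=
          mul_le_mul_of_nonneg_right (by exact_mod_cast h6) h0.le
        have h8 := x3d_de_pos h hv m
        linarith
      · have h7 : i = m := by omega
        subst h7
        linarith
    · rcases Nat.eq_zero_or_pos i with h6 | h6
      · subst h6
        rw [Nat.cast_zero, zero_mul]
        linarith
      · have h7 : 1 * w ≤ (i : ℝ) * w :=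
          mul_le_mul_of_nonneg_right (by exact_mod_cast h6) h0.le
        have h8 := x3d_de_pos h hv 0
        linarith
  have h6 := x3b_arccos h hv i
  calc ρ * cos (θ - i * w) * cR w v = ρ * (cR w v * cos (θ - i * w)) := by ring
    _ ≤ ρ * (cR w v * cos (x3d_de w v i)) :=
        mul_le_mul_of_nonneg_left (mul_le_mul_of_nonneg_left h5 hRp.le) hρ
    _ = ρ * cG w i (tv w * v) := by rw [h6]

/-- vertices inside the ball -/
theorem x3c_lt {m : ℕ} {w : ℝ} (h : WOK m w) {v : ℝ} (hv : |v| ≤ 1) (k : ℕ) (hk : 1 ≤ k)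
    (hk' : k ≤ m) (i : ℕ) (hi : i ≤ m) (h1 : i + 1 ≠ k) (h2 : i ≠ k) :
    dt (Wv m w v k) (uu (i * w)) < cG w i (tv w * v) := by
  have h0 := h.pos
  have hle := h.le
  obtain ⟨mk, -, hmk, -⟩ := klein
  have hball : (Wv m w v k, tv w * v) ∈ Kball := by
    show ‖Wv m w v k‖ ^ 2 + (tv w * v) ^ 2 < 1
    have h3 := Wv_norm_lt h hv k hk hk'
    have h4 : ‖Wv m w v k‖ ^ 2 < cR w v ^ 2 := pow_lt_pow_left₀ h3 (norm_nonneg _) two_ne_zero
    have h5 : cR w v ^ 2 = 1 - (tv w * v) ^ 2 := by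
      unfold cR
      apply Real.sq_sqrt
      have h6 := x3a_R h0 hle hv
      have h7 := x3a_tlt h0 hle
      linarith
    linarith
  obtain ⟨e1, e2⟩ := hmk _ hball
  obtain ⟨x, hx⟩ : ∃ x, x = mk (Wv m w v k, tv w * v) := ⟨_, rfl⟩
  rw [← hx] at e1 e2
  simp only at e1 e2
  have hk0 : lor x.val (vG w k) = 0 := by
    rw [(lor_G_le h0 hle x k).2, e1, e2]
    exact (Wv_line h hv k hk').1
  have hk1 : lor x.val (vG w (k - 1)) = 0 := by
    rw [(lor_G_le h0 hle x (k - 1)).2, e1, e2]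
    have h3 := (Wv_line h hv (k - 1) (by omega)).2
    rwa [Nat.sub_add_cancel hk] at h3
  have key : lor x.val (vG w i) < 0 := by
    rcases Nat.lt_or_ge i k with h3 | h3
    · rcases g1_GG m h0 hle h.hi h3 hk' with ⟨h4, -⟩ | ⟨-, h4⟩
      · exact absurd h4 h1
      · rw [lor_comm] at h4
        exact disj (lor_G_self h0 hle k) (lor_G_self h0 hle i) h4 O (g1_G h0 hle k) (g1_G h0 hle i) x
          hk0.ge
    · have h5 : k - 1 < i := by omega
      rcases g1_GG m h0 hle h.hi h5 hi with ⟨h4, -⟩ | ⟨-, h4⟩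
      · omega
      · exact disj (lor_G_self h0 hle (k - 1)) (lor_G_self h0 hle i) h4 O (g1_G h0 hle (k - 1))
          (g1_G h0 hle i) x hk1.ge
  have h6 := (lor_G_le h0 hle x i).1.1 key.le
  have h7 : dt (kx x) (uu (i * w)) ≠ cG w i (kz x) := fun h8 =>
    key.ne ((lor_G_le h0 hle x i).2.2 h8)
  rw [e1, e2] at h6 h7
  exact lt_of_le_of_ne h6 h7

theorem x3c_per0 (m : ℕ) (w v : ℝ) : Wv m w v (m + 3) = Wv m w v 0 := by
  unfold Wv
  have e := bb_per m w v 0
  rw [Nat.zero_add] at e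
  rw [e, x4_uu_add, x3b_rr0 m w v 0 (Or.inl rfl), x3b_rr0 m w v (m + 3) (by omega)]

theorem x3c_gle {m : ℕ} {w : ℝ} (h : WOK m w) {v : ℝ} (hv : |v| ≤ 1) (k : ℕ)
    (hk : k = m + 1 ∨ k = m + 2 ∨ k = m + 3) (i : ℕ) (hi : i ≤ m) :
    dt (Wv m w v k) (uu (i * w)) ≤ cG w i (tv w * v) := by
  have hR := cR_pos h hv
  have hn := Wv_norm_eq h hv k (by omega)
  have h3 : dt (Wv m w v k) (uu (i * w)) * cR w v ≤ cR w v * cG w i (tv w * v) := by
    rcases hk with hk | hk | hk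
    · have h4 := gap_le h hv k (Or.inl hk) 1 0 zero_le_one le_rfl i hi
      simp only [Complex.ofReal_one, one_mul, Complex.ofReal_zero, zero_mul, add_zero] at h4
      rwa [hn] at h4
    · have h4 := gap_le h hv k (Or.inr hk) 1 0 zero_le_one le_rfl i hi
      simp only [Complex.ofReal_one, one_mul, Complex.ofReal_zero, zero_mul, add_zero] at h4
      rwa [hn] at h4
    · have h4 := gap_le h hv (m + 2) (Or.inr rfl) 0 1 le_rfl zero_le_one i hi
      simp only [Complex.ofReal_one, one_mul, Complex.ofReal_zero, zero_mul, zero_add] at h4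
      rw [show m + 2 + 1 = k by omega] at h4
      rwa [hn] at h4
  rw [mul_comm] at h3
  exact le_of_mul_le_mul_left h3 hR

theorem Wv_le {m : ℕ} {w : ℝ} (h : WOK m w) {v : ℝ} (hv : |v| ≤ 1) (k : ℕ) (hk : k ≤ m + 3)
    (i : ℕ) (hi : i ≤ m) : dt (Wv m w v k) (uu (i * w)) ≤ cG w i (tv w * v) := by
  rcases Nat.eq_zero_or_pos k with h1 | h1
  · subst h1
    rw [← x3c_per0]
    exact x3c_gle h hv (m + 3) (by omega) i hi
  · rcases Nat.lt_or_ge m k with h2 | h2
    · exact x3c_gle h hv k (by omega) i hi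
    · by_cases h3 : i + 1 = k
      · subst h3
        exact (Wv_line h hv i hi).2.le
      · by_cases h4 : i = k
        · subst h4
          exact (Wv_line h hv i hi).1.le
        · exact (x3c_lt h hv k h1 h2 i hi h3 h4).le

theorem Wv_eq {m : ℕ} {w : ℝ} (h : WOK m w) {v : ℝ} (hv : |v| ≤ 1) (k : ℕ) (hk : 1 ≤ k)
    (hk' : k ≤ m) (i : ℕ) (hi : i ≤ m) (he : dt (Wv m w v k) (uu (i * w)) = cG w i (tv w * v)) :
    i + 1 = k ∨ i = k := by
  by_contra hcon
  rw [not_or] at hcon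
  exact (x3c_lt h hv k hk hk' i hi hcon.1 hcon.2).ne he

end CEE
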