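import Pool.Agent.CEE.X3a

set_option autoImplicit false

/-!
# [CEE-X3d] The fan of the chamber slice: angles
-/

namespace CEE

open Set Real

/-- angles of the rays, `0 ≤ k ≤ m + 2` -/
noncomputable def bb0 (m : ℕ) (w v : ℝ) (k : ℕ) : ℝ :=
  if k = 0 then -arccos (cG w 0 (tv w * v) / cR w v)
  else if k ≤ m then (k - 1 / 2) * w - (-1) ^ k * eta w v
  else if k = m + 1 then m * w + arccos (cG w m (tv w * v) / cR w v)
  else (m * w + 2 * π) / 2

/-- periodic extension -/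
noncomputable def bb (m : ℕ) (w v : ℝ) (k : ℕ) : ℝ :=
  bb0 m w v (k % (m + 3)) + 2 * π * (k / (m + 3) : ℕ)

noncomputable def rr0 (m : ℕ) (w v : ℝ) (k : ℕ) : ℝ :=
  if 1 ≤ k ∧ k ≤ m then cG w (k - 1) (tv w * v) / cos (bb0 m w v k - (k - 1) * w) else cR w v

noncomputable def rr (m : ℕ) (w v : ℝ) (k : ℕ) : ℝ := rr0 m w v (k % (m + 3))

/- PROOF NOTES [CEE-X3d].  `|v| ≤ 1`; `δ₀ = arccos (cG w 0 (t v) / cR)`, `δ_m = arccos (cG w m (t v)/cR)`.  By `cG_ge`, `cG_lt`: `cos w ≤ cos w / cR ≤ .. ≤ cG / cR < 1` (`cR ≤ 1`), so `δ₀, δ_m ∈ (0, w]`.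
`bb_lt`: write `k = (m+3) n + j`, `j = k % (m+3)`; if `j + 1 < m + 3` both indices have the same `n`; if `j = m + 2` then `(k+1) % (m+3) = 0`, `(k+1)/(m+3) = n + 1`.  Consecutive differences of `bb0`: `0 → 1`: `w/2 + eta + δ₀ > 0`; `k → k+1` (`1 ≤ k < m`): `w ± 2 eta > 0` (`eta_lt`);
 `m → m+1`: `w/2 + δ_m - eta > 0` (`m` odd: `(-1)^m = -1`, `bb0 m = (m - 1/2) w + eta`); `m+1 → m+2`: `(2π - m w)/2 - δ_m ≥ 3w/2 - w > 0` (`(m+3) w ≤ 2π`); `m+2 → 0 + 2π`: `(2π - m w)/2 - δ₀ > 0`.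
`bb_per`: `(k + (m+3)) % (m+3) = k % (m+3)`, `(k + (m+3)) / (m+3) = k/(m+3) + 1`.
`bb_two`: two steps: all steps except those starting at `m + 1` and `m + 2` are `≤ 2 w`; two small steps `≤ 4 w ≤ 2 < π`; `m → m+2`: `(2π - m w)/2 + w/2 - eta ≤ π/2 + w < π` (`m w ≥ π`); `m+1 → m+3`: `2π - m w - δ₀ - δ_m < π`; `m+2 → m+4`: `(2π - m w)/2 + w/2 + eta < π`.
`rr_pos`: `bb0 k - (k-1) w = w/2 ∓ eta ∈ (0, w)`, so its cosine is positive; `cG_pos`, `cR_pos`.
`bb_cont`, `rr_cont`: on `[-1,1]` (`ContinuousOn`; `cR`, `cG`, `eta`, `arccos`, `sqrt` are continuous, `cR > 0`, `cos > 0`; unfold `cG`, `cR`: polynomials in `v`). -/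

/-- the end angles -/
noncomputable def x3d_de (w v : ℝ) (i : ℕ) : ℝ := arccos (cG w i (tv w * v) / cR w v)

theorem x3d_cR_le (w v : ℝ) : cR w v ≤ 1 := by
  unfold cR
  rw [Real.sqrt_le_left zero_le_one]
  have := sq_nonneg (tv w * v)
  linarith

theorem x3d_de_pos {m : ℕ} {w : ℝ} (h : WOK m w) {v : ℝ} (hv : |v| ≤ 1) (i : ℕ) :
    0 < x3d_de w v i := by
  unfold x3d_de
  rw [Real.arccos_pos, div_lt_one (cR_pos h hv)]
  exact cG_lt h hv i

theorem x3d_de_le {m : ℕ} {w : ℝ} (h : WOK m w) {v : ℝ} (hv : |v| ≤ 1) (i : ℕ) :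
    x3d_de w v i ≤ w := by
  have h0 := h.pos
  have h1 := h.le
  have h2 : cos w ≤ cG w i (tv w * v) / cR w v := by
    rw [le_div_iff₀ (cR_pos h hv)]
    have h3 := cG_ge h hv i
    have h4 := cos_ge h0 h1
    have h5 := x3d_cR_le w v
    have h6 := (cR_pos h hv).le
    nlinarith
  have h3 := Real.arccos_le_arccos h2
  rwa [Real.arccos_cos h0.le (by linarith [Real.pi_gt_three])] at h3

theorem x3d_eta {m : ℕ} {w : ℝ} (h : WOK m w) {v : ℝ} (hv : |v| ≤ 1) (j : ℕ) :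
    |(-1) ^ j * eta w v| < w / 2 := by
  rw [abs_mul, abs_pow, abs_neg, abs_one, one_pow, one_mul]
  exact eta_lt h hv

theorem bb_per (m : ℕ) (w v : ℝ) (k : ℕ) : bb m w v (k + (m + 3)) = bb m w v k + 2 * π := by
  unfold bb
  rw [Nat.add_mod_right, Nat.add_div_right _ (by omega)]
  push_cast
  ring

theorem x3d_bb (m : ℕ) (w v : ℝ) (j : ℕ) (hj : j < m + 3) : bb m w v j = bb0 m w v j := by
  unfold bb
  rw [Nat.mod_eq_of_lt hj, Nat.div_eq_of_lt hj]
  simp

theorem x3d_red (m : ℕ) (w v : ℝ) (j n : ℕ) : bb m w v (j + n * (m + 3)) = bb m w v j + n * (2 * π) := by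
  induction n with
  | zero => simp
  | succ n ih =>
    have e : j + (n + 1) * (m + 3) = (j + n * (m + 3)) + (m + 3) := by ring
    rw [e, bb_per, ih]
    push_cast
    ring

theorem x3d_s0 {m : ℕ} {w : ℝ} (h : WOK m w) (v : ℝ) :
    bb m w v 1 = bb m w v 0 + (w / 2 + eta w v + x3d_de w v 0) := by
  have hm := h.ge
  rw [x3d_bb m w v 1 (by omega), x3d_bb m w v 0 (by omega)]
  unfold bb0 x3d_de
  rw [if_neg (by omega), if_pos (by omega : 1 ≤ m), if_pos rfl]
  push_cast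
  ring

theorem x3d_sj (m : ℕ) (w v : ℝ) (j : ℕ) (h1 : 1 ≤ j) (h2 : j < m) :
    bb m w v (j + 1) = bb m w v j + (w + 2 * ((-1) ^ j * eta w v)) := by
  rw [x3d_bb m w v (j + 1) (by omega), x3d_bb m w v j (by omega)]
  unfold bb0
  rw [if_neg (by omega), if_pos (by omega : j + 1 ≤ m), if_neg (by omega), if_pos (by omega : j ≤ m),
    pow_succ]
  push_cast
  ring

theorem x3d_sm {m : ℕ} {w : ℝ} (h : WOK m w) (v : ℝ) :
    bb m w v (m + 1) = bb m w v m + (w / 2 + x3d_de w v m - eta w v) := by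
  have hm := h.ge
  rw [x3d_bb m w v (m + 1) (by omega), x3d_bb m w v m (by omega)]
  unfold bb0 x3d_de
  rw [if_neg (by omega), if_neg (by omega), if_pos rfl, if_neg (by omega), if_pos le_rfl,
    h.odd.neg_one_pow]
  ring

theorem x3d_sm1 (m : ℕ) (w v : ℝ) :
    bb m w v (m + 2) = bb m w v (m + 1) + ((2 * π - m * w) / 2 - x3d_de w v m) := by
  rw [x3d_bb m w v (m + 1) (by omega), x3d_bb m w v (m + 2) (by omega)]
  unfold bb0 x3d_de
  rw [if_neg (by omega), if_neg (by omega), if_neg (by omega), if_neg (by omega), if_neg (by omega),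
    if_pos rfl]
  ring

theorem x3d_sm2 (m : ℕ) (w v : ℝ) :
    bb m w v (m + 3) = bb m w v (m + 2) + ((2 * π - m * w) / 2 - x3d_de w v 0) := by
  have e := bb_per m w v 0
  rw [Nat.zero_add] at e
  rw [e, x3d_bb m w v 0 (by omega), x3d_bb m w v (m + 2) (by omega)]
  unfold bb0 x3d_de
  rw [if_pos rfl, if_neg (by omega), if_neg (by omega), if_neg (by omega)]
  ring

theorem x3d_s4 {m : ℕ} {w : ℝ} (h : WOK m w) (v : ℝ) :
    bb m w v (m + 4) = bb m w v (m + 3) + (w / 2 + eta w v + x3d_de w v 0) := by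
  have e := bb_per m w v 0
  have e1 := bb_per m w v 1
  have e2 : 1 + (m + 3) = m + 4 := by ring
  rw [Nat.zero_add] at e
  rw [e2] at e1
  rw [e, e1, x3d_s0 h v]
  ring

/-- small steps -/
theorem x3d_small {m : ℕ} {w : ℝ} (h : WOK m w) {v : ℝ} (hv : |v| ≤ 1) (j : ℕ) (hj : j ≤ m) :
    bb m w v j < bb m w v (j + 1) ∧ bb m w v (j + 1) ≤ bb m w v j + 2 * w := by
  have h0 := h.pos
  have he := abs_lt.1 (eta_lt h hv)
  have hd0 := x3d_de_pos h hv 0
  have hd0' := x3d_de_le h hv 0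
  have hdm := x3d_de_pos h hv m
  have hdm' := x3d_de_le h hv m
  rcases Nat.eq_zero_or_pos j with h1 | h1
  · subst h1
    rw [Nat.zero_add, x3d_s0 h v]
    constructor <;> linarith
  · rcases Nat.lt_or_ge j m with h2 | h2
    · have hj' := abs_lt.1 (x3d_eta h hv j)
      rw [x3d_sj m w v j h1 h2]
      constructor <;> linarith
    · have h3 : j = m := by omega
      subst h3
      rw [x3d_sm h v]
      constructor <;> linarith

theorem x3d_mod (m k : ℕ) : ∃ j n, j < m + 3 ∧ k = j + n * (m + 3) :=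
  ⟨k % (m + 3), k / (m + 3), Nat.mod_lt _ (by omega), by
    have := Nat.div_add_mod k (m + 3)
    rw [mul_comm (k / (m + 3))]
    omega⟩

theorem bb_lt {m : ℕ} {w : ℝ} (h : WOK m w) {v : ℝ} (hv : |v| ≤ 1) (k : ℕ) :
    bb m w v k < bb m w v (k + 1) := by
  obtain ⟨j, n, hj, rfl⟩ := x3d_mod m k
  have e : j + n * (m + 3) + 1 = (j + 1) + n * (m + 3) := by ring
  rw [e, x3d_red, x3d_red]
  have h0 := h.pos
  have hhi := h.hi
  have hd0' := x3d_de_le h hv 0
  have hdm' := x3d_de_le h hv m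
  have h2 : bb m w v j < bb m w v (j + 1) := by
    rcases Nat.lt_or_ge m j with h1 | h1
    · rcases Nat.lt_or_ge (m + 1) j with h2 | h2
      · have h3 : j = m + 2 := by omega
        subst h3
        rw [show m + 2 + 1 = m + 3 by rfl, x3d_sm2 m w v]
        linarith
      · have h3 : j = m + 1 := by omega
        subst h3
        rw [show m + 1 + 1 = m + 2 by rfl, x3d_sm1 m w v]
        linarith
    · exact (x3d_small h hv j h1).1
  linarith

theorem bb_two {m : ℕ} {w : ℝ} (h : WOK m w) {v : ℝ} (hv : |v| ≤ 1) (k : ℕ) :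
    bb m w v (k + 2) - bb m w v k < π := by
  obtain ⟨j, n, hj, rfl⟩ := x3d_mod m k
  have e : j + n * (m + 3) + 2 = (j + 2) + n * (m + 3) := by ring
  rw [e, x3d_red, x3d_red]
  have h0 := h.pos
  have hle := h.le
  have hhi := h.hi
  have hlo := h.lo
  have hpi := Real.pi_gt_three
  have he := abs_lt.1 (eta_lt h hv)
  have hd0 := x3d_de_pos h hv 0
  have hd0' := x3d_de_le h hv 0
  have hdm := x3d_de_pos h hv m
  have hdm' := x3d_de_le h hv m
  have h2 : bb m w v (j + 2) - bb m w v j < π := by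
    rcases Nat.lt_or_ge j m with h1 | h1
    · have h3 := (x3d_small h hv j h1.le).2
      have h4 := (x3d_small h hv (j + 1) (by omega)).2
      rw [show j + 1 + 1 = j + 2 by rfl] at h4
      linarith
    · rcases Nat.lt_or_ge m j with h5 | h5
      · rcases Nat.lt_or_ge (m + 1) j with h2 | h2
        · have h3 : j = m + 2 := by omega
          subst h3
          rw [show m + 2 + 2 = m + 4 by rfl, x3d_s4 h v, x3d_sm2 m w v]
          linarith
        · have h3 : j = m + 1 := by omega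
          subst h3
          rw [show m + 1 + 2 = m + 3 by rfl, x3d_sm2 m w v, x3d_sm1 m w v]
          linarith
      · have h3 : j = m := by omega
        subst h3
        rw [x3d_sm1 j w v, x3d_sm h v]
        linarith
  linarith

theorem x3d_ang {m : ℕ} {w : ℝ} (v : ℝ) (j : ℕ) (h1 : 1 ≤ j) (h2 : j ≤ m) :
    bb0 m w v j - ((j : ℝ) - 1) * w = w / 2 - (-1) ^ j * eta w v := by
  unfold bb0
  rw [if_neg (by omega), if_pos h2]
  ring

theorem x3d_angcos {m : ℕ} {w : ℝ} (h : WOK m w) {v : ℝ} (hv : |v| ≤ 1) (j : ℕ) (h1 : 1 ≤ j)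
    (h2 : j ≤ m) : 0 < cos (bb0 m w v j - ((j : ℝ) - 1) * w) := by
  have hj' := abs_lt.1 (x3d_eta h hv j)
  have hle := h.le
  have hpi := Real.pi_gt_three
  rw [x3d_ang v j h1 h2]
  exact Real.cos_pos_of_mem_Ioo ⟨by linarith, by linarith⟩

theorem rr_pos {m : ℕ} {w : ℝ} (h : WOK m w) {v : ℝ} (hv : |v| ≤ 1) (k : ℕ) :
    0 < rr m w v k := by
  unfold rr rr0
  split_ifs with h1
  · exact div_pos (cG_pos h hv _) (x3d_angcos h hv _ h1.1 h1.2)
  · exact cR_pos h hv

theorem x3d_abs {v : ℝ} (hv : v ∈ Icc (-1 : ℝ) 1) : |v| ≤ 1 := abs_le.2 hv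

theorem x3d_cG_cont (w : ℝ) (i : ℕ) : Continuous (fun v : ℝ => cG w i (tv w * v)) := by
  unfold cG
  fun_prop

theorem x3d_cR_cont (w : ℝ) : Continuous (fun v : ℝ => cR w v) := by
  unfold cR
  fun_prop

theorem x3d_eta_cont (w : ℝ) : Continuous (fun v : ℝ => eta w v) := by
  unfold eta
  exact Real.continuous_arctan.comp (by fun_prop)

theorem x3d_de_cont {m : ℕ} {w : ℝ} (h : WOK m w) (i : ℕ) :
    ContinuousOn (fun v => arccos (cG w i (tv w * v) / cR w v)) (Icc (-1) 1) :=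
  Real.continuous_arccos.comp_continuousOn
    ((x3d_cG_cont w i).continuousOn.div (x3d_cR_cont w).continuousOn
      fun _ hv => (cR_pos h (x3d_abs hv)).ne')

theorem x3d_bb0_cont {m : ℕ} {w : ℝ} (h : WOK m w) (k : ℕ) :
    ContinuousOn (fun v => bb0 m w v k) (Icc (-1) 1) := by
  unfold bb0
  split_ifs
  · exact (x3d_de_cont h 0).neg
  · exact (continuous_const.sub (continuous_const.mul (x3d_eta_cont w))).continuousOn
  · exact continuousOn_const.add (x3d_de_cont h m)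
  · exact continuousOn_const

theorem bb_cont {m : ℕ} {w : ℝ} (h : WOK m w) (k : ℕ) :
    ContinuousOn (fun v => bb m w v k) (Icc (-1) 1) := by
  unfold bb
  exact (x3d_bb0_cont h _).add continuousOn_const

theorem rr_cont {m : ℕ} {w : ℝ} (h : WOK m w) (k : ℕ) :
    ContinuousOn (fun v => rr m w v k) (Icc (-1) 1) := by
  unfold rr rr0
  split_ifs with h1
  · refine (x3d_cG_cont w _).continuousOn.div
      (Real.continuous_cos.comp_continuousOn ((x3d_bb0_cont h _).sub continuousOn_const)) ?_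
    intro v hv
    exact (x3d_angcos h (x3d_abs hv) _ h1.1 h1.2).ne'
  · exact (x3d_cR_cont w).continuousOn

end CEE
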