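import Pool.Agent.CEE.X3c

set_option autoImplicit false
set_option linter.unusedVariables false

/-!
# [CEE-X5a] The gauge of the slice
-/

namespace CEE

open Set Real

/-- gauge of the slice at the height `t v` -/
noncomputable def gg (m : ℕ) (w v : ℝ) (ξ : ℂ) : ℝ :=
  max (‖ξ‖ / cR w v) ((Finset.range (m + 1)).sup' ⟨0, by simp⟩
    (fun i => dt ξ (uu (i * w)) / cG w i (tv w * v)))

/- PROOF NOTES [CEE-X5a].
`gg_cell`: `dt` is linear; for the line `k`: `dt ξ (uu (k w)) = (α + β) cG k` (`Wv_line`), so `gg ≥ α + β`; for the other lines `dt ξ (uu (i w)) ≤ (α + β) cG i` (`Wv_le`), and `‖ξ‖ ≤ (α + β) cR` (`Wv_norm_eq`, `Wv_norm_lt`).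
`gg_gap`: `gap_le` divided by `cR * cG`.  `gg_cont`: maximum/finite sup of continuous functions (`Continuous.finset_sup'`, `ContinuousOn.sup`...; denominators `≠ 0` on `[-1,1]`; `cG w i (t v)` is polynomial in `v`, `cR` a square root).
`Wv_per`: `uu` is `2π`-periodic, `rr` is periodic (`(k + (m+3)) % (m+3) = k % (m+3)`), `bb_per`. -/

theorem Wv_per {m : ℕ} (w v : ℝ) (k : ℕ) : Wv m w v (k + (m + 3)) = Wv m w v k := by
  unfold Wv
  rw [bb_per, x4_uu_add]
  unfold rr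
  rw [Nat.add_mod_right]

theorem gg_ge (m : ℕ) (w v : ℝ) (ξ : ℂ) : ‖ξ‖ / cR w v ≤ gg m w v ξ := le_max_left _ _

theorem x5a_dt_add (a b c : ℂ) : dt (a + b) c = dt a c + dt b c := by
  simp only [dt, Complex.add_re, Complex.add_im]
  ring

theorem x5a_dt_smul (s : ℝ) (a b : ℂ) : dt (s * a) b = s * dt a b := by
  simp only [dt, Complex.re_ofReal_mul, Complex.im_ofReal_mul]
  ring

theorem x5a_le {m : ℕ} {w v c : ℝ} {ξ : ℂ} (h1 : ‖ξ‖ / cR w v ≤ c)
    (h2 : ∀ i ≤ m, dt ξ (uu (i * w)) / cG w i (tv w * v) ≤ c) : gg m w v ξ ≤ c := by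
  unfold gg
  apply max_le h1
  apply Finset.sup'_le
  intro i hi
  exact h2 i (by rw [Finset.mem_range] at hi; omega)

theorem x5a_ge {m : ℕ} {w v : ℝ} {ξ : ℂ} (i : ℕ) (hi : i ≤ m) :
    dt ξ (uu (i * w)) / cG w i (tv w * v) ≤ gg m w v ξ := by
  unfold gg
  refine le_trans ?_ (le_max_right _ _)
  exact Finset.le_sup' (fun i : ℕ => dt ξ (uu (i * w)) / cG w i (tv w * v))
    (Finset.mem_range.2 (by omega))

theorem gg_smul {m : ℕ} {w : ℝ} (h : WOK m w) {v : ℝ} (hv : |v| ≤ 1) (c : ℝ) (hc : 0 ≤ c) (ξ : ℂ) :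
    gg m w v (c * ξ) = c * gg m w v ξ := by
  unfold gg
  rw [mul_max_of_nonneg _ _ hc, Finset.mul₀_sup' hc, norm_mul, Complex.norm_real,
    Real.norm_of_nonneg hc, mul_div_assoc]
  congr 1
  apply Finset.sup'_congr _ rfl
  intro i _
  rw [x5a_dt_smul, mul_div_assoc]

theorem x5a_norm_le {m : ℕ} {w : ℝ} (h : WOK m w) {v : ℝ} (hv : |v| ≤ 1) (k : ℕ) (hk : k ≤ m + 3) :
    ‖Wv m w v k‖ ≤ cR w v := by
  by_cases h1 : 1 ≤ k ∧ k ≤ m
  · exact (Wv_norm_lt h hv k h1.1 h1.2).le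
  · exact (Wv_norm_eq h hv k (by omega)).le

theorem x5a_norm2 {α β : ℝ} (hα : 0 ≤ α) (hβ : 0 ≤ β) (a b : ℂ) :
    ‖(α * a + β * b : ℂ)‖ ≤ α * ‖a‖ + β * ‖b‖ := by
  refine (norm_add_le _ _).trans ?_
  rw [norm_mul, norm_mul, Complex.norm_real, Complex.norm_real, Real.norm_of_nonneg hα,
    Real.norm_of_nonneg hβ]

theorem gg_cell {m : ℕ} {w : ℝ} (h : WOK m w) {v : ℝ} (hv : |v| ≤ 1) (k : ℕ) (hk : k ≤ m)
    (α β : ℝ) (hα : 0 ≤ α) (hβ : 0 ≤ β) :
    gg m w v (α * Wv m w v k + β * Wv m w v (k + 1)) = α + β := by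
  have hR := cR_pos h hv
  apply le_antisymm
  · apply x5a_le
    · rw [div_le_iff₀ hR]
      have h1 := x5a_norm2 hα hβ (Wv m w v k) (Wv m w v (k + 1))
      have h2 := mul_le_mul_of_nonneg_left (x5a_norm_le h hv k (by omega)) hα
      have h3 := mul_le_mul_of_nonneg_left (x5a_norm_le h hv (k + 1) (by omega)) hβ
      linarith
    · intro i hi
      rw [div_le_iff₀ (cG_pos h hv i), x5a_dt_add, x5a_dt_smul, x5a_dt_smul]
      have h2 := mul_le_mul_of_nonneg_left (Wv_le h hv k (by omega) i hi) hα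
      have h3 := mul_le_mul_of_nonneg_left (Wv_le h hv (k + 1) (by omega) i hi) hβ
      linarith
  · have h1 := x5a_ge (w := w) (v := v) (ξ := α * Wv m w v k + β * Wv m w v (k + 1)) k hk
    rw [x5a_dt_add, x5a_dt_smul, x5a_dt_smul, (Wv_line h hv k hk).1, (Wv_line h hv k hk).2,
      ← add_mul, mul_div_cancel_right₀ _ (cG_pos h hv k).ne'] at h1
    exact h1

theorem gg_gap {m : ℕ} {w : ℝ} (h : WOK m w) {v : ℝ} (hv : |v| ≤ 1) (k : ℕ)
    (hk : k = m + 1 ∨ k = m + 2) (α β : ℝ) (hα : 0 ≤ α) (hβ : 0 ≤ β) :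
    gg m w v (α * Wv m w v k + β * Wv m w v (k + 1)) =
      ‖(α * Wv m w v k + β * Wv m w v (k + 1) : ℂ)‖ / cR w v := by
  apply le_antisymm
  · apply x5a_le le_rfl
    intro i hi
    rw [div_le_div_iff₀ (cG_pos h hv i) (cR_pos h hv)]
    exact gap_le h hv k hk α β hα hβ i hi
  · exact gg_ge m w v _

theorem gg_cont {m : ℕ} {w : ℝ} (h : WOK m w) :
    ContinuousOn (fun a : ℂ × ℝ => gg m w a.2 a.1) (univ ×ˢ Icc (-1) 1) := by
  unfold gg
  have hmem : ∀ a : ℂ × ℝ, a ∈ (univ : Set ℂ) ×ˢ Icc (-1 : ℝ) 1 → |a.2| ≤ 1 := fun a ha =>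
    x3d_abs ha.2
  refine ContinuousOn.sup ?_ ?_
  · refine ContinuousOn.div (continuous_norm.comp continuous_fst).continuousOn
      ((x3d_cR_cont w).comp continuous_snd).continuousOn ?_
    intro a ha
    exact (cR_pos h (hmem a ha)).ne'
  · refine ContinuousOn.finset_sup'_apply _ ?_
    intro i _
    refine ContinuousOn.div ?_ ((x3d_cG_cont w i).comp continuous_snd).continuousOn ?_
    · unfold dt
      exact ((Complex.continuous_re.comp continuous_fst).mul continuous_const).add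
        ((Complex.continuous_im.comp continuous_fst).mul continuous_const) |>.continuousOn
    · intro a ha
      exact (cG_pos h (hmem a ha) i).ne'

end CEE
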