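import Pool.Agent.CEE.X5c

set_option autoImplicit false

/-!
# [CEE-X5b] The homeomorphism of the slices
-/

namespace CEE

open Set Real

/-- radial correction of `ZZ` -/
noncomputable def psi (m : ℕ) (w w' v : ℝ) (ξ : ℂ) : ℂ :=
  (gg m w v ξ / gg m w' v (ZZ m w w' v ξ) : ℝ) * ZZ m w w' v ξ

/- PROOF NOTES [CEE-X5b].
`psi_cell`: `ZZ_eq`, `gg_cell` for `w` and `w'`: the factor is `(α+β)/(α+β) = 1` (if `α + β = 0` both sides are `0`).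
`psi_form`: every `ξ` is `α W_k + β W_{k+1}` (`cells`), so `psi ξ = c (α W'_k + β W'_{k+1})` with `c ≥ 0`, `c > 0` if `ξ ≠ 0` (`gg > 0` by `gg_ge`, `ZZ ≠ 0` because the two rays are independent: angle in `(0, π)`, `bb_lt`, `bb_two`).
`gg_psi`: `gg_smul`: `gg' (psi ξ) = (gg ξ / gg' ZZ) gg' ZZ = gg ξ`.
`psi_psi`: with the form above `ZZ w' w (psi ξ) = c ξ` (`ZZ_eq` for `w'`), so `psi w' w (psi ξ) = (gg' (psi ξ) / gg (c ξ)) c ξ = (gg ξ / (c gg ξ)) c ξ = ξ`. -/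

theorem x5b_dd0 (a : ℂ) : dd 0 a = 0 ∧ dd a 0 = 0 := by
  simp [dd]

theorem x5b_hat0 (a b c : ℂ) : hat a b c 0 = 0 := by
  unfold hat
  rw [(x5b_dd0 c).1, (x5b_dd0 a).2, zero_div, zero_div, min_self, max_self]

theorem x5b_ZZ0 (m : ℕ) (w w' v : ℝ) : ZZ m w w' v 0 = 0 := by
  unfold ZZ
  apply Finset.sum_eq_zero
  intro j _
  rw [x5b_hat0, Complex.ofReal_zero, zero_mul]

theorem psi_zero (m : ℕ) (w w' v : ℝ) : psi m w w' v 0 = 0 := by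
  unfold psi
  rw [x5b_ZZ0, mul_zero]

theorem x5b_gg0 {m : ℕ} {w : ℝ} (h : WOK m w) {v : ℝ} (hv : |v| ≤ 1) : gg m w v 0 = 0 := by
  have h1 := gg_smul h hv 0 le_rfl 0
  rwa [Complex.ofReal_zero, zero_mul, zero_mul] at h1

theorem x5b_ggnn {m : ℕ} {w : ℝ} (h : WOK m w) {v : ℝ} (hv : |v| ≤ 1) (ξ : ℂ) :
    0 ≤ gg m w v ξ :=
  le_trans (div_nonneg (norm_nonneg _) (cR_pos h hv).le) (gg_ge m w v ξ)

theorem x5b_ggpos {m : ℕ} {w : ℝ} (h : WOK m w) {v : ℝ} (hv : |v| ≤ 1) {ξ : ℂ} (hξ : ξ ≠ 0) :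
    0 < gg m w v ξ :=
  lt_of_lt_of_le (div_pos (norm_pos_iff.2 hξ) (cR_pos h hv)) (gg_ge m w v ξ)

theorem x5b_ddpos {m : ℕ} {w : ℝ} (h : WOK m w) {v : ℝ} (hv : |v| ≤ 1) (k : ℕ) :
    0 < dd (Wv m w v k) (Wv m w v (k + 1)) :=
  x4_pos1 (bb_lt h hv) (bb_two h hv) (rr_pos h hv) k

theorem x5b_ne {m : ℕ} {w : ℝ} (h : WOK m w) {v : ℝ} (hv : |v| ≤ 1) (k : ℕ) (α β : ℝ)
    (he : (α * Wv m w v k + β * Wv m w v (k + 1) : ℂ) = 0) : α = 0 ∧ β = 0 := by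
  have hp := x5b_ddpos h hv k
  constructor
  · have h1 : dd (α * Wv m w v k + β * Wv m w v (k + 1)) (Wv m w v (k + 1)) = 0 := by
      rw [he]
      exact (x5b_dd0 _).1
    rw [x4_add_left, x4_smul_left, x4_smul_left, x4_self, mul_zero, add_zero] at h1
    rcases mul_eq_zero.1 h1 with h2 | h2
    · exact h2
    · exact absurd h2 hp.ne'
  · have h1 : dd (Wv m w v k) (α * Wv m w v k + β * Wv m w v (k + 1)) = 0 := by
      rw [he]
      exact (x5b_dd0 _).2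
    rw [x4_add_right, x4_smul_right, x4_smul_right, x4_self, mul_zero, zero_add] at h1
    rcases mul_eq_zero.1 h1 with h2 | h2
    · exact h2
    · exact absurd h2 hp.ne'

/-- `ZZ` does not vanish outside `0` -/
theorem x5b_ZZne {m : ℕ} {w w' : ℝ} (h : WOK m w) (h' : WOK m w') {v : ℝ} (hv : |v| ≤ 1) {ξ : ℂ}
    (hξ : ξ ≠ 0) : ZZ m w w' v ξ ≠ 0 := by
  obtain ⟨k, hk, α, β, hα, hβ, rfl⟩ := cells h hv ξ
  intro h1
  rw [ZZ_eq h hv k hk α β hα hβ] at h1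
  obtain ⟨h2, h3⟩ := x5b_ne h' hv k α β h1
  apply hξ
  rw [h2, h3, Complex.ofReal_zero, zero_mul, zero_mul, add_zero]

theorem psi_cell {m : ℕ} {w w' : ℝ} (h : WOK m w) (h' : WOK m w') {v : ℝ} (hv : |v| ≤ 1) (k : ℕ)
    (hk : k ≤ m) (α β : ℝ) (hα : 0 ≤ α) (hβ : 0 ≤ β) :
    psi m w w' v (α * Wv m w v k + β * Wv m w v (k + 1)) =
      α * Wv m w' v k + β * Wv m w' v (k + 1) := by
  unfold psi
  rw [ZZ_eq h hv k (by omega) α β hα hβ, gg_cell h hv k hk α β hα hβ, gg_cell h' hv k hk α β hα hβ]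
  rcases eq_or_lt_of_le (add_nonneg hα hβ) with h1 | h1
  · have h2 : α = 0 := by linarith
    have h3 : β = 0 := by linarith
    rw [h2, h3]
    simp
  · rw [div_self h1.ne', Complex.ofReal_one, one_mul]

theorem psi_form {m : ℕ} {w w' : ℝ} (h : WOK m w) (h' : WOK m w') {v : ℝ} (hv : |v| ≤ 1) (k : ℕ)
    (hk : k < m + 3) (α β : ℝ) (hα : 0 ≤ α) (hβ : 0 ≤ β) :
    ∃ c : ℝ, 0 < c ∧ psi m w w' v (α * Wv m w v k + β * Wv m w v (k + 1)) =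
      (c * α : ℝ) * Wv m w' v k + (c * β : ℝ) * Wv m w' v (k + 1) := by
  by_cases h1 : (α * Wv m w v k + β * Wv m w v (k + 1) : ℂ) = 0
  · obtain ⟨h2, h3⟩ := x5b_ne h hv k α β h1
    refine ⟨1, one_pos, ?_⟩
    rw [h1, psi_zero, h2, h3]
    simp
  · have h2 := x5b_ggpos h hv h1
    have h3 := x5b_ggpos h' hv (x5b_ZZne h h' hv h1)
    refine ⟨_, div_pos h2 h3, ?_⟩
    obtain ⟨c, hc⟩ : ∃ c, c = gg m w v (α * Wv m w v k + β * Wv m w v (k + 1)) /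
      gg m w' v (ZZ m w w' v (α * Wv m w v k + β * Wv m w v (k + 1))) := ⟨_, rfl⟩
    unfold psi
    rw [← hc, ZZ_eq h hv k hk α β hα hβ]
    push_cast
    ring

theorem gg_psi {m : ℕ} {w w' : ℝ} (h : WOK m w) (h' : WOK m w') {v : ℝ} (hv : |v| ≤ 1) (ξ : ℂ) :
    gg m w' v (psi m w w' v ξ) = gg m w v ξ := by
  by_cases h1 : ξ = 0
  · rw [h1, psi_zero, x5b_gg0 h hv, x5b_gg0 h' hv]
  · have h2 := x5b_ggpos h hv h1
    have h3 := x5b_ggpos h' hv (x5b_ZZne h h' hv h1)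
    unfold psi
    rw [gg_smul h' hv _ (div_pos h2 h3).le, div_mul_cancel₀ _ h3.ne']

theorem psi_psi {m : ℕ} {w w' : ℝ} (h : WOK m w) (h' : WOK m w') {v : ℝ} (hv : |v| ≤ 1) (ξ : ℂ) :
    psi m w' w v (psi m w w' v ξ) = ξ := by
  by_cases h1 : ξ = 0
  · rw [h1, psi_zero, psi_zero]
  · obtain ⟨k, hk, α, β, hα, hβ, he⟩ := cells h hv ξ
    obtain ⟨c, hc, hp⟩ := psi_form h h' hv k hk α β hα hβ
    rw [← he] at hp
    have hgg := gg_psi h h' hv ξ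
    have hZ : ZZ m w' w v (psi m w w' v ξ) = c * ξ := by
      rw [hp, ZZ_eq h' hv k hk _ _ (mul_nonneg hc.le hα) (mul_nonneg hc.le hβ), he]
      push_cast
      ring
    have h2 := x5b_ggpos h hv h1
    have e : psi m w' w v (psi m w w' v ξ) =
        (gg m w' v (psi m w w' v ξ) / gg m w v (ZZ m w' w v (psi m w w' v ξ)) : ℝ) *
          ZZ m w' w v (psi m w w' v ξ) := rfl
    rw [e, hgg, hZ, gg_smul h hv c hc.le, ← mul_assoc, ← Complex.ofReal_mul]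
    have e2 : gg m w v ξ / (c * gg m w v ξ) * c = 1 := by
      field_simp
    rw [e2, Complex.ofReal_one, one_mul]

end CEE
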