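import Pool.Agent.CEE.X5a

set_option autoImplicit false

/-!
# [CEE-X5c] The map of directions
-/

namespace CEE

open Set Real

/-- piecewise linear map sending the rays of the slice for `w` to those for `w'` -/
noncomputable def ZZ (m : ℕ) (w w' v : ℝ) (ξ : ℂ) : ℂ :=
  ∑ j ∈ Finset.range (m + 3),
    (hat (Wv m w v j) (Wv m w v (j + 1)) (Wv m w v (j + 2)) ξ : ℂ) * Wv m w' v (j + 1)

/- PROOF NOTES [CEE-X5c].
`cells`: `fan_cover` with `N = m + 3`, `b = bb m w v`, `r = rr m w v` (`bb_lt`, `bb_per`, `bb_two`, `rr_pos`).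
`ZZ_eq`: for `ξ = α W_k + β W_{k+1}`, `k < m + 3`: in the sum the index `j` with `j + 1 ≡ k` contributes `α W'_k` (`fan_hat_left`), `j + 1 ≡ k + 1` contributes `β W'_{k+1}` (`fan_hat_right`), all others `0` (`fan_hat_zero`); `Wv` is periodic with period `m + 3` (`uu` is `2π`-periodic, `rr` periodic):
 first prove `Wv_per`, and that `hat` for the index `j` depends only on the points; for `k = 0` use `j = m + 2` and the representation with `W_{m+3} = W_0`, `W_{m+4} = W_1` (the angles of `fan_hat_left` for `j = m + 2`).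
`ZZ_cont`: joint continuity on `univ ×ˢ Icc (-1) 1`: `hat` is continuous where the denominators `dd b c`, `dd a b` do not vanish (`dd (Wv k) (Wv (k+1)) = rr rr sin (difference) > 0`), `Wv_cont`. -/

theorem cells {m : ℕ} {w : ℝ} (h : WOK m w) {v : ℝ} (hv : |v| ≤ 1) (ξ : ℂ) :
    ∃ k < m + 3, ∃ α β : ℝ, 0 ≤ α ∧ 0 ≤ β ∧ ξ = α * Wv m w v k + β * Wv m w v (k + 1) :=
  fan_cover (m + 3) (by omega) (bb m w v) (rr m w v) (bb_lt h hv) (bb_per m w v) (bb_two h hv)
    (rr_pos h hv) ξ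

/-- the index before `k` -/
theorem x5c_prev (m k : ℕ) (hk : k < m + 3) : ∃ j < m + 3, j ≠ k ∧
    (j + 1 = k ∨ (k = 0 ∧ j + 1 = k + (m + 3))) ∧
    ∀ i < m + 3, i ≠ j → i ≠ k →
      (i + 1) % (m + 3) ≠ k % (m + 3) ∧ (i + 1) % (m + 3) ≠ (k + 1) % (m + 3) := by
  have hmod : ∀ i < m + 3, (i + 1) % (m + 3) = if i + 1 = m + 3 then 0 else i + 1 := by
    intro i hi
    split_ifs with h1
    · rw [h1, Nat.mod_self]
    · exact Nat.mod_eq_of_lt (by omega)
  rcases Nat.eq_zero_or_pos k with h1 | h1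
  · refine ⟨m + 2, by omega, by omega, Or.inr ⟨h1, by omega⟩, ?_⟩
    intro i hi h2 h3
    rw [hmod i hi, hmod k hk, Nat.mod_eq_of_lt hk]
    constructor <;> split_ifs <;> omega
  · refine ⟨k - 1, by omega, by omega, Or.inl (by omega), ?_⟩
    intro i hi h2 h3
    rw [hmod i hi, hmod k hk, Nat.mod_eq_of_lt hk]
    constructor <;> split_ifs <;> omega

theorem ZZ_eq {m : ℕ} {w w' : ℝ} (h : WOK m w) {v : ℝ} (hv : |v| ≤ 1) (k : ℕ) (hk : k < m + 3)
    (α β : ℝ) (hα : 0 ≤ α) (hβ : 0 ≤ β) :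
    ZZ m w w' v (α * Wv m w v k + β * Wv m w v (k + 1)) =
      α * Wv m w' v k + β * Wv m w' v (k + 1) := by
  obtain ⟨j, hj, hjk, hj1, hoth⟩ := x5c_prev m k hk
  unfold ZZ
  rw [Finset.sum_eq_add_of_mem j k (Finset.mem_range.2 hj) (Finset.mem_range.2 hk) hjk]
  · congr 1
    · have hW : ∀ u, Wv m u v (j + 1) = Wv m u v k := by
        intro u
        rcases hj1 with h1 | ⟨-, h1⟩
        · rw [h1]
        · rw [h1, Wv_per]
      have hW2 : Wv m w v (j + 2) = Wv m w v (k + 1) := by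
        rcases hj1 with h1 | ⟨-, h1⟩
        · rw [show j + 2 = k + 1 by omega]
        · rw [show j + 2 = (k + 1) + (m + 3) by omega, Wv_per]
      have h3 := fan_hat_left (bb m w v) (rr m w v) (bb_lt h hv) (bb_two h hv) (rr_pos h hv) j α β hα hβ
      have h4 : hat (Wv m w v j) (Wv m w v (j + 1)) (Wv m w v (j + 2))
          (α * Wv m w v (j + 1) + β * Wv m w v (j + 2)) = α := h3
      rw [hW w', hW w, hW2]
      rw [hW w, hW2] at h4
      rw [h4]
    · have h3 := fan_hat_right (bb m w v) (rr m w v) (bb_lt h hv) (bb_two h hv) (rr_pos h hv) k α β hα hβ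
      have h4 : hat (Wv m w v k) (Wv m w v (k + 1)) (Wv m w v (k + 2))
          (α * Wv m w v k + β * Wv m w v (k + 1)) = β := h3
      rw [h4]
  · intro i hi hne
    rw [Finset.mem_range] at hi
    obtain ⟨h1, h2⟩ := hoth i hi hne.1 hne.2
    have h3 := fan_hat_zero (m + 3) (bb m w v) (rr m w v) (bb_lt h hv) (bb_per m w v) (bb_two h hv)
      (rr_pos h hv) k i hk hi h1 h2 α β hα hβ
    have h4 : hat (Wv m w v i) (Wv m w v (i + 1)) (Wv m w v (i + 2))
        (α * Wv m w v k + β * Wv m w v (k + 1)) = 0 := h3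
    rw [h4, Complex.ofReal_zero, zero_mul]

theorem x5c_dd_cont {X : Type*} [TopologicalSpace X] {f g : X → ℂ} {s : Set X}
    (hf : ContinuousOn f s) (hg : ContinuousOn g s) : ContinuousOn (fun a => dd (f a) (g a)) s := by
  unfold dd
  exact ((Complex.continuous_re.comp_continuousOn hf).mul (Complex.continuous_im.comp_continuousOn hg)).sub
    ((Complex.continuous_im.comp_continuousOn hf).mul (Complex.continuous_re.comp_continuousOn hg))

theorem x5c_Wv {m : ℕ} {w : ℝ} (h : WOK m w) (k : ℕ) :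
    ContinuousOn (fun a : ℂ × ℝ => Wv m w a.2 k) (univ ×ˢ Icc (-1) 1) :=
  (Wv_cont h k).comp continuous_snd.continuousOn fun _ ha => ha.2

theorem ZZ_cont {m : ℕ} {w w' : ℝ} (h : WOK m w) (h' : WOK m w') :
    ContinuousOn (fun a : ℂ × ℝ => ZZ m w w' a.2 a.1) (univ ×ˢ Icc (-1) 1) := by
  unfold ZZ
  refine continuousOn_finsetSum _ ?_
  intro j _
  refine ContinuousOn.mul (Complex.continuous_ofReal.comp_continuousOn ?_) (x5c_Wv h' (j + 1))
  unfold hat
  refine ContinuousOn.sup continuousOn_const (ContinuousOn.inf ?_ ?_)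
  · refine ContinuousOn.div (x5c_dd_cont continuous_fst.continuousOn (x5c_Wv h (j + 2)))
      (x5c_dd_cont (x5c_Wv h (j + 1)) (x5c_Wv h (j + 2))) ?_
    intro a ha
    have hv : |a.2| ≤ 1 := x3d_abs ha.2
    exact (x4_pos1 (bb_lt h hv) (bb_two h hv) (rr_pos h hv) (j + 1)).ne'
  · refine ContinuousOn.div (x5c_dd_cont (x5c_Wv h j) continuous_fst.continuousOn)
      (x5c_dd_cont (x5c_Wv h j) (x5c_Wv h (j + 1))) ?_
    intro a ha
    have hv : |a.2| ≤ 1 := x3d_abs ha.2
    exact (x4_pos1 (bb_lt h hv) (bb_two h hv) (rr_pos h hv) j).ne'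

end CEE
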