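import Pool.Agent.CEE.X5b

set_option autoImplicit false

/-!
# [CEE-X5d] The homeomorphism of the slices respects the disc and the lines
-/

namespace CEE

open Set Real

/- PROOF NOTES [CEE-X5d].
`psi_norm`: if `gg ξ ≤ 1` and `‖ξ‖ < cR w v` then `‖psi ξ‖ < cR w' v`: gap cells: `‖psi ξ‖/cR' = gg' (psi ξ) = gg ξ = ‖ξ‖/cR < 1` (`gg_gap` for `w'`; the combination `c α, c β`).  Cells `k ≤ m`: `psi ξ = α W'_k + β W'_{k+1}`, `α + β ≤ 1`; `‖W'_j‖ ≤ cR'` with equality only for `j = 0` (`k = 0`) and `j = m + 1` (`k = m`);
 `‖psi ξ‖ ≤ α ‖W'_k‖ + β ‖W'_{k+1}‖ < cR'` unless the weight of the other end is `0` and the weight of the end on the circle is `1`; but then `ξ = W_0` or `W_{m+1}` has norm `cR`: excluded.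
`psi_line`: `dt ξ (uu (i w)) = cG i`, `gg ξ ≤ 1`, `‖ξ‖ < cR`: gap cells are impossible (`gap_le`: `dt ≤ (‖ξ‖/cR) cG < cG`).  Cell `k ≤ m`: `α + β ≤ 1` and `Wv_le` force `α + β = 1` and equality in `Wv_le` for the vertices with positive weight.  `i = k`: `Wv_line` for `w'`.  Otherwise each vertex `W_j` of positive weight lies on the
 line `i`: `Wv_eq` for `1 ≤ j ≤ m` gives `i = j - 1` or `i = j`, and then `W'_j` is on the line `i` too (`Wv_line`); a vertex `j ∈ {0, m+1}` with weight `1` is excluded by `‖ξ‖ < cR`; with weight `< 1` the other vertex `j'` has positive weight, `j' ∈ {1}` (`k = 0`), `i ∈ {0, 1}`; if `i = 1 ≠ k = 0` we also need `W_0` on the line `1`: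
 impossible, since `dt W_0 (uu w) = cR cos (w + δ₀) < cR cos δ.. `: (`dt W_0 (uu w) = cG 1` together with `dt W_1 (uu w) = cG 1` means that the line `1` contains the cell edge of the line `0`; `dt (·) (uu 0)` and `dt (·) (uu w)` are equal to `cG 0`, `cG 1` on `W_0` and `W_1`, two independent linear functionals agree on two different points:
 impossible).  The same for `k = m`. -/

theorem x5d_mul_norm {α : ℝ} (hα : 0 ≤ α) (a : ℂ) : ‖(α * a : ℂ)‖ = α * ‖a‖ := by
  rw [norm_mul, Complex.norm_real, Real.norm_of_nonneg hα]

theorem psi_norm {m : ℕ} {w w' : ℝ} (h : WOK m w) (h' : WOK m w') {v : ℝ} (hv : |v| ≤ 1) (ξ : ℂ)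
    (h1 : gg m w v ξ ≤ 1) (h2 : ‖ξ‖ < cR w v) : ‖psi m w w' v ξ‖ < cR w' v := by
  have hR := cR_pos h hv
  have hR' := cR_pos h' hv
  have hm := h.ge
  obtain ⟨k, hk, α, β, hα, hβ, he⟩ := cells h hv ξ
  rcases Nat.lt_or_ge m k with hkm | hkm
  · have hk' : k = m + 1 ∨ k = m + 2 := by omega
    obtain ⟨c, hc, hp⟩ := psi_form h h' hv k hk α β hα hβ
    rw [← he] at hp
    have h3 := gg_gap h' hv k hk' (c * α) (c * β) (mul_nonneg hc.le hα) (mul_nonneg hc.le hβ)
    rw [← hp, gg_psi h h' hv] at h3
    have h4 := gg_gap h hv k hk' α β hα hβ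
    rw [← he] at h4
    rw [h4] at h3
    have h5 : ‖ξ‖ / cR w v < 1 := by
      rw [div_lt_one hR]
      exact h2
    rw [h3, div_lt_one hR'] at h5
    exact h5
  · have hp := psi_cell h h' hv k hkm α β hα hβ
    rw [← he] at hp
    have hsum := gg_cell h hv k hkm α β hα hβ
    rw [← he] at hsum
    rw [hsum] at h1
    rw [hp]
    by_contra hcon
    have hcon' := not_lt.1 hcon
    have h3 := x5a_norm2 hα hβ (Wv m w' v k) (Wv m w' v (k + 1))
    have h4 := x5a_norm_le h' hv k (by omega)
    have h5 := x5a_norm_le h' hv (k + 1) (by omega)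
    have h6 := mul_le_mul_of_nonneg_left h4 hα
    have h7 := mul_le_mul_of_nonneg_left h5 hβ
    have h8 : (α + β) * cR w' v ≤ 1 * cR w' v := mul_le_mul_of_nonneg_right h1 hR'.le
    have hab : α + β = 1 := by
      have h9 : 1 * cR w' v ≤ (α + β) * cR w' v := by linarith
      have h10 := le_of_mul_le_mul_right h9 hR'
      linarith
    -- equality everywhere
    have e1 : α * ‖Wv m w' v k‖ = α * cR w' v := by
      have : (α + β) * cR w' v = cR w' v := by rw [hab, one_mul]
      linarith
    have e2 : β * ‖Wv m w' v (k + 1)‖ = β * cR w' v := by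
      have : (α + β) * cR w' v = cR w' v := by rw [hab, one_mul]
      linarith
    have f1 : α ≠ 0 → k = 0 := by
      intro h9
      by_contra h10
      have h11 := Wv_norm_lt h' hv k (by omega) hkm
      exact h11.ne (mul_left_cancel₀ h9 e1)
    have f2 : β ≠ 0 → k = m := by
      intro h9
      by_contra h10
      have h11 := Wv_norm_lt h' hv (k + 1) (by omega) (by omega)
      exact h11.ne (mul_left_cancel₀ h9 e2)
    by_cases ha0 : α = 0
    · have hb1 : β = 1 := by linarith
      have hkm' := f2 (by rw [hb1]; exact one_ne_zero)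
      rw [he, ha0, hb1, hkm', Complex.ofReal_zero, zero_mul, zero_add, Complex.ofReal_one, one_mul,
        Wv_norm_eq h hv (m + 1) (by omega)] at h2
      exact lt_irrefl _ h2
    · have hk0 := f1 ha0
      have hb0 : β = 0 := by
        by_contra h9
        have := f2 h9
        omega
      have ha1 : α = 1 := by linarith
      rw [he, hb0, ha1, hk0, Complex.ofReal_zero, zero_mul, add_zero, Complex.ofReal_one, one_mul,
        Wv_norm_eq h hv 0 (by omega)] at h2
      exact lt_irrefl _ h2

/-- two independent functionals -/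
theorem x5d_indep (a b : ℂ) (x y : ℝ) (h1 : dt a (uu x) = dt b (uu x)) (h2 : dt a (uu y) = dt b (uu y))
    (h3 : sin (y - x) ≠ 0) : a = b := by
  simp only [dt, uu] at h1 h2
  have e1 : (a.re - b.re) * sin (y - x) = 0 := by
    rw [Real.sin_sub]
    linear_combination sin y * h1 - sin x * h2
  have e2 : (a.im - b.im) * sin (y - x) = 0 := by
    rw [Real.sin_sub]
    linear_combination cos x * h2 - cos y * h1
  apply Complex.ext
  · rcases mul_eq_zero.1 e1 with h4 | h4
    · linarith
    · exact absurd h4 h3
  · rcases mul_eq_zero.1 e2 with h4 | h4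
    · linarith
    · exact absurd h4 h3

theorem psi_line {m : ℕ} {w w' : ℝ} (h : WOK m w) (h' : WOK m w') {v : ℝ} (hv : |v| ≤ 1) (ξ : ℂ)
    (h1 : gg m w v ξ ≤ 1) (h2 : ‖ξ‖ < cR w v) (i : ℕ) (hi : i ≤ m)
    (h3 : dt ξ (uu (i * w)) = cG w i (tv w * v)) :
    dt (psi m w w' v ξ) (uu (i * w')) = cG w' i (tv w' * v) := by
  have hR := cR_pos h hv
  have hG := cG_pos h hv i
  have hm := h.ge
  have h0 := h.pos
  have hle := h.le
  obtain ⟨k, hk, α, β, hα, hβ, he⟩ := cells h hv ξ
  rcases Nat.lt_or_ge m k with hkm | hkm
  · exfalso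
    have h4 := gap_le h hv k (by omega) α β hα hβ i hi
    rw [← he, h3, mul_comm] at h4
    have h5 := mul_lt_mul_of_pos_right h2 hG
    linarith
  · have hp := psi_cell h h' hv k hkm α β hα hβ
    rw [← he] at hp
    have hsum := gg_cell h hv k hkm α β hα hβ
    rw [← he] at hsum
    rw [hsum] at h1
    have hd : α * dt (Wv m w v k) (uu (i * w)) + β * dt (Wv m w v (k + 1)) (uu (i * w)) =
        cG w i (tv w * v) := by
      rw [← h3, he, x5a_dt_add, x5a_dt_smul, x5a_dt_smul]
    have h4 := Wv_le h hv k (by omega) i hi
    have h5 := Wv_le h hv (k + 1) (by omega) i hi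
    have h6 := mul_le_mul_of_nonneg_left h4 hα
    have h7 := mul_le_mul_of_nonneg_left h5 hβ
    have hab : α + β = 1 := by
      have h9 : 1 * cG w i (tv w * v) ≤ (α + β) * cG w i (tv w * v) := by linarith
      have h10 := le_of_mul_le_mul_right h9 hG
      linarith
    have hab' : (α + β) * cG w i (tv w * v) = cG w i (tv w * v) := by rw [hab, one_mul]
    have e1 : α ≠ 0 → dt (Wv m w v k) (uu (i * w)) = cG w i (tv w * v) := by
      intro h9
      have : α * dt (Wv m w v k) (uu (i * w)) = α * cG w i (tv w * v) := by linarith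
      exact mul_left_cancel₀ h9 this
    have e2 : β ≠ 0 → dt (Wv m w v (k + 1)) (uu (i * w)) = cG w i (tv w * v) := by
      intro h9
      have : β * dt (Wv m w v (k + 1)) (uu (i * w)) = β * cG w i (tv w * v) := by linarith
      exact mul_left_cancel₀ h9 this
    rw [hp, x5a_dt_add, x5a_dt_smul, x5a_dt_smul]
    by_cases hik : i = k
    · subst hik
      rw [(Wv_line h' hv i hi).1, (Wv_line h' hv i hi).2, ← add_mul, hab, one_mul]
    · by_cases ha0 : α = 0
      · have hb1 : β = 1 := by linarith
        have hkm1 : k + 1 ≤ m := by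
          by_contra h9
          have h10 : k = m := by omega
          rw [he, ha0, hb1, h10, Complex.ofReal_zero, zero_mul, zero_add, Complex.ofReal_one,
            one_mul, Wv_norm_eq h hv (m + 1) (by omega)] at h2
          exact lt_irrefl _ h2
        have h10 := Wv_eq h hv (k + 1) (by omega) hkm1 i hi (e2 (by rw [hb1]; exact one_ne_zero))
        have h11 : i = k + 1 := by omega
        subst h11
        rw [ha0, hb1, zero_mul, zero_add, one_mul]
        exact (Wv_line h' hv (k + 1) hkm1).1
      · by_cases hb0 : β = 0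
        · have ha1 : α = 1 := by linarith
          have hk1 : 1 ≤ k := by
            by_contra h9
            have h10 : k = 0 := by omega
            rw [he, hb0, ha1, h10, Complex.ofReal_zero, zero_mul, add_zero, Complex.ofReal_one,
              one_mul, Wv_norm_eq h hv 0 (by omega)] at h2
            exact lt_irrefl _ h2
          have h10 := Wv_eq h hv k hk1 hkm i hi (e1 ha0)
          have h11 : k = i + 1 := by omega
          subst h11
          rw [hb0, ha1, zero_mul, add_zero, one_mul]
          exact (Wv_line h' hv i hi).2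
        · exfalso
          have hs : sin w ≠ 0 :=
            (Real.sin_pos_of_pos_of_lt_pi h0 (by linarith [Real.pi_gt_three])).ne'
          rcases Nat.eq_zero_or_pos k with hk0 | hk0
          · subst hk0
            have h10 := Wv_eq h hv 1 le_rfl (by omega) i hi (e2 hb0)
            have h11 : i = 1 := by omega
            subst h11
            have g1 := (Wv_line h hv 0 (by omega)).1
            have g2 := (Wv_line h hv 0 (by omega)).2
            have g3 := e1 ha0
            have g4 := e2 hb0
            have h12 : Wv m w v 0 = Wv m w v (0 + 1) := by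
              refine x5d_indep _ _ (((0 : ℕ) : ℝ) * w) (((1 : ℕ) : ℝ) * w) (g1.trans g2.symm)
                (g3.trans g4.symm) ?_
              rw [Nat.cast_zero, Nat.cast_one, zero_mul, sub_zero, one_mul]
              exact hs
            have h13 := Wv_norm_lt h hv 1 le_rfl (by omega)
            have h14 := Wv_norm_eq h hv 0 (by omega)
            rw [h12] at h14
            exact h13.ne h14
          · have h10 := Wv_eq h hv k hk0 hkm i hi (e1 ha0)
            have h11 : k = i + 1 := by omega
            rcases Nat.lt_or_ge k m with h12 | h12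
            · have h13 := Wv_eq h hv (k + 1) (by omega) h12 i hi (e2 hb0)
              omega
            · have h13 : k = m := by omega
              have g1 := (Wv_line h hv k hkm).1
              have g2 := (Wv_line h hv k hkm).2
              have g3 := e1 ha0
              have g4 := e2 hb0
              have h12 : Wv m w v k = Wv m w v (k + 1) := by
                refine x5d_indep _ _ ((i : ℝ) * w) ((k : ℝ) * w) (g3.trans g4.symm)
                  (g1.trans g2.symm) ?_
                rw [h11]
                have e : ((i + 1 : ℕ) : ℝ) * w - i * w = w := by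
                  push_cast
                  ring
                rw [e]
                exact hs
              have h14 := Wv_norm_lt h hv k hk0 hkm
              have h15 := Wv_norm_eq h hv (k + 1) (by omega)
              rw [← h12] at h15
              exact h14.ne h15

end CEE
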