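import Pool.Agent.CEE.X5b

set_option autoImplicit false

/-!
# [CEE-X5e] Continuity of the homeomorphism of the slices
-/

namespace CEE

open Set Real

/- PROOF NOTES [CEE-X5e].
`psi_cont`: at `ξ ≠ 0` quotient of continuous functions (`gg_cont` composed with `(ZZ, v)`, `ZZ_cont`) with nonvanishing denominator (`gg (ZZ ξ) ≥ ‖ZZ ξ‖/cR' > 0`, `ZZ ξ ≠ 0` for `ξ ≠ 0`: otherwise `psi ξ = 0 = psi 0`, contradicting `psi_psi`; or from the form `α W'_k + β W'_{k+1}` of `ZZ_eq`, `cells`);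
 at `(0, v₀)`: `‖psi ξ‖ ≤ cR' gg' (psi ξ) = cR' gg ξ ≤ gg ξ → 0` (`gg_ge`, `gg_psi`, `gg_cont` at `(0, v₀)`, `gg 0 = 0`), and `psi 0 = 0`. -/

theorem psi_cont {m : ℕ} {w w' : ℝ} (h : WOK m w) (h' : WOK m w') :
    ContinuousOn (fun a : ℂ × ℝ => psi m w w' a.2 a.1) (univ ×ˢ Icc (-1) 1) := by
  intro a ha
  have hv : |a.2| ≤ 1 := x3d_abs ha.2
  have hg := gg_cont h a ha
  by_cases h1 : a.1 = 0
  · -- squeeze
    have h0 : psi m w w' a.2 a.1 = 0 := by rw [h1, psi_zero]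
    have hg0 : gg m w a.2 a.1 = 0 := by rw [h1, x5b_gg0 h hv]
    show Filter.Tendsto (fun a : ℂ × ℝ => psi m w w' a.2 a.1) (nhdsWithin a (univ ×ˢ Icc (-1) 1))
      (nhds (psi m w w' a.2 a.1))
    rw [h0]
    have hg' : Filter.Tendsto (fun a : ℂ × ℝ => gg m w a.2 a.1)
        (nhdsWithin a (univ ×ˢ Icc (-1) 1)) (nhds (gg m w a.2 a.1)) := hg
    rw [hg0] at hg'
    refine squeeze_zero_norm' ?_ hg'
    filter_upwards [self_mem_nhdsWithin] with b hb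
    have hvb : |b.2| ≤ 1 := x3d_abs hb.2
    have h2 := gg_ge m w' b.2 (psi m w w' b.2 b.1)
    rw [gg_psi h h' hvb, div_le_iff₀ (cR_pos h' hvb)] at h2
    have h3 := x3d_cR_le w' b.2
    have h4 := x5b_ggnn h hvb b.1
    nlinarith
  · have hZ := ZZ_cont h h' a ha
    have hgZ : ContinuousWithinAt (fun a : ℂ × ℝ => gg m w' a.2 (ZZ m w w' a.2 a.1))
        (univ ×ˢ Icc (-1) 1) a := by
      have h2 : ContinuousOn (fun a : ℂ × ℝ => gg m w' a.2 (ZZ m w w' a.2 a.1))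
          (univ ×ˢ Icc (-1) 1) :=
        (gg_cont h').comp (f := fun a : ℂ × ℝ => ((ZZ m w w' a.2 a.1, a.2) : ℂ × ℝ))
          ((ZZ_cont h h').prodMk continuous_snd.continuousOn) fun _ hb => ⟨mem_univ _, hb.2⟩
      exact h2 a ha
    have hne : gg m w' a.2 (ZZ m w w' a.2 a.1) ≠ 0 := (x5b_ggpos h' hv (x5b_ZZne h h' hv h1)).ne'
    unfold psi
    exact (Complex.continuous_ofReal.continuousAt.comp_continuousWithinAt (hg.div hgZ hne)).mul hZ

end CEE
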