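import Pool.Agent.CEE.X5d
import Pool.Agent.CEE.X5e
import Pool.Agent.CEE.Y2b

set_option autoImplicit false

/-!
# [CEE-X6] The homeomorphism of the chambers
-/

namespace CEE

open Pool.Agent.MP_8db1a4_gt Set Real

/-- inverse of the Klein coordinates -/
noncomputable def mkH : ℂ × ℝ → H3 := klein.choose

theorem mkH_cont : ContinuousOn mkH Kball := klein.choose_spec.1

theorem mkH_spec (a : ℂ × ℝ) (ha : a ∈ Kball) : kx (mkH a) = a.1 ∧ kz (mkH a) = a.2 :=
  klein.choose_spec.2.1 a ha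

theorem mkH_kx (x : H3) : mkH (kx x, kz x) = x := klein.choose_spec.2.2 x

/-- the map of the chambers -/
noncomputable def chMap (m : ℕ) (w w' : ℝ) (x : H3) : H3 :=
  mkH (psi m w w' (kz x / tv w) (kx x), tv w' * (kz x / tv w))

/- PROOF NOTES [CEE-X6].  `v = kz x / tv w`, `tv w * v = kz x` (`tv_pos`).  For `x ∈ cham (ev w m)`: `|v| ≤ 1` (`lor_T_le`, `lor_B_le`), `‖kx x‖ < cR w v` (`klein_mem`: `‖kx x‖² < 1 - kz² = 1 - (t v)²`, `Real.lt_sqrt`),
`dt (kx x) (uu (i w)) ≤ cG w i (t v)` for `i ≤ m` (`lor_G_le`), hence `gg m w v (kx x) ≤ 1` (`sup_le`, `Finset.sup'_le`, `div_le_one`, `cG_pos`, `cR_pos`).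
`chMap_kx`: by `psi_norm` the argument of `mkH` is in `Kball` (`‖psi‖ < cR w' v`, so `‖psi‖² < 1 - (t' v)²`; `Real.lt_sqrt`), then `mkH_spec`.
`chMap_mem`: `lor_T_le`, `lor_B_le` for `w'`; `gg m w' v (psi ..) = gg m w v (kx x) ≤ 1` (`gg_psi`), so `dt (psi ..) (uu (i w')) ≤ cG w' i (t' v)` (`Finset.le_sup'`, `div_le_one`), `lor_G_le`.
`chMap_face`: `s = T`: `kz x = t` so `v = 1`, `kz (chMap x) = t'`; `B`: `v = -1`; `G i`: `psi_line`, `lor_G_le`.
`chMap_chMap`: `kx (chMap x)`, `kz (chMap x) / t' = v`, `psi_psi`, `mkH_kx`.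
`chMap_cont`: `mkH_cont` composed with `x ↦ (psi .., t' v)` (`psi_cont` composed with `x ↦ (kx x, kz x / t)`, `kx_continuous`, `kz_continuous`), `ContinuousOn.comp`.
`WOK0`, `WOK1`: `w0_pos, w0_le, w0_mul`, `m * (π/m) = π`; `w1_pos, w1_le, w1_mul`, `π ≤ m * (2π/(m+3))` since `m + 3 ≤ 2 m`. -/

theorem gg_le_one {m : ℕ} {w : ℝ} (h : WOK m w) (x : H3) (hx : x ∈ cham (ev w m)) :
    |kz x / tv w| ≤ 1 ∧ gg m w (kz x / tv w) (kx x) ≤ 1 ∧ ‖kx x‖ < cR w (kz x / tv w) := by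
  have ht := tv_pos h.pos h.le
  have hT := (lor_T_le h.pos h.le x).1.1 (hx .T)
  have hB := (lor_B_le h.pos h.le x).1.1 (hx .B)
  have hv : |kz x / tv w| ≤ 1 := by
    rw [abs_div, abs_of_pos ht, div_le_one ht, abs_le]
    exact ⟨hB, hT⟩
  have htv : tv w * (kz x / tv w) = kz x := by
    field_simp
  have hK : ‖kx x‖ ^ 2 + kz x ^ 2 < 1 := klein_mem x
  have hn : ‖kx x‖ < cR w (kz x / tv w) := by
    unfold cR
    rw [htv]
    apply Real.lt_sqrt_of_sq_lt
    linarith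
  refine ⟨hv, ?_, hn⟩
  unfold gg
  apply max_le
  · rw [div_le_one (cR_pos h hv)]
    exact hn.le
  · apply Finset.sup'_le
    intro i hi
    rw [div_le_one (cG_pos h hv i), htv]
    have hi' : i < m + 1 := Finset.mem_range.1 hi
    exact (lor_G_le h.pos h.le x i).1.1 (hx (.G ⟨i, hi'⟩))

theorem x6_ball {m : ℕ} {w w' : ℝ} (h : WOK m w) (h' : WOK m w') (x : H3)
    (hx : x ∈ cham (ev w m)) :
    (psi m w w' (kz x / tv w) (kx x), tv w' * (kz x / tv w)) ∈ Kball := by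
  obtain ⟨hv, hg, hn⟩ := gg_le_one h x hx
  have hp := psi_norm h h' hv (kx x) hg hn
  unfold cR at hp
  have h2 := (Real.lt_sqrt (norm_nonneg _)).1 hp
  show ‖psi m w w' (kz x / tv w) (kx x)‖ ^ 2 + (tv w' * (kz x / tv w)) ^ 2 < 1
  linarith

theorem chMap_kx {m : ℕ} {w w' : ℝ} (h : WOK m w) (h' : WOK m w') (x : H3)
    (hx : x ∈ cham (ev w m)) : kx (chMap m w w' x) = psi m w w' (kz x / tv w) (kx x) ∧
      kz (chMap m w w' x) = tv w' * (kz x / tv w) := by
  exact mkH_spec _ (x6_ball h h' x hx)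

theorem chMap_mem {m : ℕ} {w w' : ℝ} (h : WOK m w) (h' : WOK m w') (x : H3)
    (hx : x ∈ cham (ev w m)) : chMap m w w' x ∈ cham (ev w' m) := by
  obtain ⟨hv, hg, hn⟩ := gg_le_one h x hx
  obtain ⟨e1, e2⟩ := chMap_kx h h' x hx
  have ht' := tv_pos h'.pos h'.le
  have hv' := abs_le.1 hv
  intro s
  cases s with
  | T =>
    apply (lor_T_le h'.pos h'.le _).1.2
    rw [e2]
    nlinarith
  | B =>
    apply (lor_B_le h'.pos h'.le _).1.2
    rw [e2]
    nlinarith
  | G i =>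
    apply (lor_G_le h'.pos h'.le _ i.val).1.2
    rw [e1, e2]
    have h1 := gg_psi h h' hv (kx x)
    have h2 : gg m w' (kz x / tv w) (psi m w w' (kz x / tv w) (kx x)) ≤ 1 := by
      rw [h1]
      exact hg
    unfold gg at h2
    have h3 := (Finset.le_sup' (fun i : ℕ => dt (psi m w w' (kz x / tv w) (kx x)) (uu (i * w')) /
      cG w' i (tv w' * (kz x / tv w))) (Finset.mem_range.2 i.isLt)).trans
      ((le_max_right _ _).trans h2)
    rwa [div_le_one (cG_pos h' hv i.val)] at h3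

theorem chMap_face {m : ℕ} {w w' : ℝ} (h : WOK m w) (h' : WOK m w') (x : H3)
    (hx : x ∈ cham (ev w m)) (s : Gen m) (hs : lor x.val (ev w m s) = 0) :
    lor (chMap m w w' x).val (ev w' m s) = 0 := by
  obtain ⟨hv, hg, hn⟩ := gg_le_one h x hx
  obtain ⟨e1, e2⟩ := chMap_kx h h' x hx
  have ht := tv_pos h.pos h.le
  have htv : tv w * (kz x / tv w) = kz x := by
    field_simp
  cases s with
  | T =>
    apply (lor_T_le h'.pos h'.le _).2.2
    rw [e2, (lor_T_le h.pos h.le x).2.1 hs, div_self ht.ne', mul_one]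
  | B =>
    apply (lor_B_le h'.pos h'.le _).2.2
    rw [e2, (lor_B_le h.pos h.le x).2.1 hs, neg_div, div_self ht.ne']
    ring
  | G i =>
    apply (lor_G_le h'.pos h'.le _ i.val).2.2
    rw [e1, e2]
    apply psi_line h h' hv (kx x) hg hn i.val (Nat.lt_succ_iff.1 i.isLt)
    rw [htv]
    exact (lor_G_le h.pos h.le x i.val).2.1 hs

theorem chMap_chMap {m : ℕ} {w w' : ℝ} (h : WOK m w) (h' : WOK m w') (x : H3)
    (hx : x ∈ cham (ev w m)) : chMap m w' w (chMap m w w' x) = x := by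
  obtain ⟨hv, hg, hn⟩ := gg_le_one h x hx
  obtain ⟨e1, e2⟩ := chMap_kx h h' x hx
  have ht := tv_pos h.pos h.le
  have ht' := tv_pos h'.pos h'.le
  have htv : tv w * (kz x / tv w) = kz x := by
    field_simp
  have e3 : kz (chMap m w w' x) / tv w' = kz x / tv w := by
    rw [e2]
    field_simp
  show mkH (psi m w' w (kz (chMap m w w' x) / tv w') (kx (chMap m w w' x)),
    tv w * (kz (chMap m w w' x) / tv w')) = x
  rw [e3, e1, psi_psi h h' hv, htv]
  exact mkH_kx x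

theorem chMap_cont {m : ℕ} {w w' : ℝ} (h : WOK m w) (h' : WOK m w') :
    ContinuousOn (chMap m w w') (cham (ev w m)) := by
  have h1 : ContinuousOn (fun x : H3 => (kx x, kz x / tv w)) (cham (ev w m)) :=
    (kx_continuous.prodMk (kz_continuous.div_const _)).continuousOn
  have h2 : MapsTo (fun x : H3 => (kx x, kz x / tv w)) (cham (ev w m))
      (univ ×ˢ Icc (-1) 1) :=
    fun x hx => ⟨mem_univ _, abs_le.1 (gg_le_one h x hx).1⟩
  have h3 := (psi_cont h h').comp h1 h2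
  have h4 : ContinuousOn (fun x : H3 => (psi m w w' (kz x / tv w) (kx x),
      tv w' * (kz x / tv w))) (cham (ev w m)) :=
    h3.prodMk ((continuous_const.mul (kz_continuous.div_const _)).continuousOn)
  exact mkH_cont.comp h4 (fun x hx => x6_ball h h' x hx)

theorem WOK0 {m : ℕ} (hm : 13 ≤ m) (ho : Odd m) : WOK m (w0 m) := by
  refine ⟨w0_pos hm, w0_le hm, ?_, w0_mul hm, ho, hm⟩
  unfold w0
  have h0 : (0 : ℝ) < m := by
    have : 0 < m := by omega
    exact_mod_cast this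
  rw [mul_div_cancel₀ _ h0.ne']

theorem WOK1 {m : ℕ} (hm : 13 ≤ m) (ho : Odd m) : WOK m (w1 m) := by
  refine ⟨w1_pos m, w1_le hm, ?_, (w1_mul m).le, ho, hm⟩
  unfold w1
  have h0 : (3 : ℝ) ≤ m := by
    have : 3 ≤ m := by omega
    exact_mod_cast this
  have hpi := Real.pi_pos
  rw [mul_div_assoc', le_div_iff₀ (by linarith)]
  nlinarith

end CEE
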