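import Pool.Agent.CEE.Y1a
import Pool.Agent.CEE.T4b

set_option autoImplicit false

/-!
# [CEE-Y2a] The invariant convex sets
-/

namespace CEE

open Pool.Agent.MP_8db1a4_gt Set Real

section Gen

variable {ι : Type} {M : CoxeterMatrix ι} {e : ι → V}

/-- the invariant convex set cut out by the images of the half spaces `⟨x, v⟩ ≤ 0`, `v ∈ ex` -/
def Yset (h : RS M e) (ex : Set V) : Set H3 :=
  {x | ∀ w : M.Group, ∀ v ∈ ex, lor x.val ((h.rho w).1 v) ≤ 0}

/-- its intersection with the chamber -/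
def Dset (e : ι → V) (ex : Set V) : Set H3 := {x | x ∈ cham e ∧ ∀ v ∈ ex, lor x.val v ≤ 0}

/- PROOF NOTES [CEE-Y2a].
`Yset_closed`, `Yset_convex`: intersection of closed half spaces (`halfspace_closed`, `halfspace_convex`).
`Yset_smul`: `lor (ρ(g) x) (ρ(w) v) = lor x (ρ(g⁻¹ w) v)` (`O31_lor`).
`Yset_cham`: `RS.antidom`.  `Yset_fold`, `Yset_exists`: `fold_spec`.
-/

theorem Yset_closed (h : RS M e) (ex : Set V) : IsClosed (Yset h ex) := by
  have e : Yset h ex = ⋂ w : M.Group, ⋂ v ∈ ex, {x : H3 | lor x.val ((h.rho w).1 v) ≤ 0} := by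
    ext x
    simp only [Yset, mem_ofPred_eq, mem_iInter]
  rw [e]
  exact isClosed_iInter fun w => isClosed_biInter fun v _ => halfspace_closed _

theorem Yset_convex (h : RS M e) (ex : Set V) : HConvex (Yset h ex) := by
  intro x hx y hy z hz w v hv
  exact halfspace_convex ((h.rho w).1 v) x (hx w v hv) y (hy w v hv) z hz

theorem Yset_smul (h : RS M e) (ex : Set V) (g : M.Group) {x : H3} (hx : x ∈ Yset h ex) :
    h.rho g • x ∈ Yset h ex := by
  intro w v hv
  have h1 := hx (g⁻¹ * w) v hv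
  have h2 : (h.rho g).1 ((h.rho (g⁻¹ * w)).1 v) = (h.rho w).1 v := by
    rw [← h.rho_mul_apply, mul_inv_cancel_left]
  rw [smul_val, ← h2, O31_lor]
  exact h1

theorem Yset_smul_iff (h : RS M e) (ex : Set V) (g : M.Group) (x : H3) :
    h.rho g • x ∈ Yset h ex ↔ x ∈ Yset h ex := by
  refine ⟨fun hx => ?_, fun hx => Yset_smul h ex g hx⟩
  have h1 := Yset_smul h ex g⁻¹ hx
  rwa [← mul_smul, ← map_mul, inv_mul_cancel, map_one, one_smul] at h1

theorem Yset_cham (h : RS M e) (ex : Set V) (hex : ∀ v ∈ ex, ∀ s, lor v (e s) ≤ 0) {x : H3}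
    (hx : x ∈ Dset e ex) : x ∈ Yset h ex := by
  intro w v hv
  exact (h.antidom w v (hex v hv) x hx.1).trans (hx.2 v hv)

theorem Yset_fold [Finite ι] (h : RS M e) (ex : Set V) (hex : ∀ v ∈ ex, ∀ s, lor v (e s) ≤ 0)
    (x : H3) : x ∈ Yset h ex ↔ h.fold x ∈ Dset e ex := by
  obtain ⟨w, hw⟩ := h.fold_spec x
  have h1 : x ∈ Yset h ex ↔ h.fold x ∈ Yset h ex := by
    conv_lhs => rw [hw]
    exact Yset_smul_iff h ex w _
  rw [h1]
  refine ⟨fun hx => ⟨h.fold_mem x, fun v hv => ?_⟩, fun hx => Yset_cham h ex hex hx⟩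
  have h2 := hx 1 v hv
  rwa [map_one] at h2

end Gen

end CEE
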