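import Pool.Agent.CEE.L16
import Pool.Agent.CEE.S3
import Pool.Agent.CEE.X7
import Pool.Agent.CEE.F4c

set_option autoImplicit false

/-!
# [CEE-Z] Assembly
-/

namespace CEE

open Pool.Agent.MP_8db1a4_gt Set Real

theorem exists_F {m : ℕ} (hm : 13 ≤ m) (ho : Odd m) {K : ℝ} (hK : 1 ≤ K)
    (f : core (Gam0 hm) → Mfd (Gam1 hm))
    (hf : ∀ x y : core (Gam0 hm), K⁻¹ * mdist (Gam0 hm) x y ≤ mdist (Gam1 hm) (f x) (f y) ∧
      mdist (Gam1 hm) (f x) (f y) ≤ K * mdist (Gam0 hm) x y) : ∃ F : H3 → H3, LipF hm K F := by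
  classical
  have hmem : ∀ x ∈ Y0 hm, proj (Gam0 hm) x ∈ core (Gam0 hm) := by
    intro x hx
    exact ⟨x, (hull_Gam0 hm ho).symm ▸ hx, rfl⟩
  have hout : ∀ c : Mfd (Gam1 hm), proj (Gam1 hm) (Quotient.out c) = c := fun c => Quotient.out_eq c
  refine ⟨fun x => if hx : x ∈ Y0 hm then Quotient.out (f ⟨proj (Gam0 hm) x, hmem x hx⟩) else O,
    hK, fun x hx y hy => ?_, fun x hx y hy => ?_⟩
  · have h1 := (hf ⟨_, hmem x hx⟩ ⟨_, hmem y hy⟩).1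
    simp only [dif_pos hx, dif_pos hy]
    have h2 : d0 hm x y = mdist (Gam0 hm) (proj (Gam0 hm) x) (proj (Gam0 hm) y) :=
      (mdist_eq (RS0 hm) (CEE.K m) x y).symm
    have h3 : ∀ a b : H3, d1 hm a b = mdist (Gam1 hm) (proj (Gam1 hm) a) (proj (Gam1 hm) b) :=
      fun a b => (mdist_eq (RS1 hm) (CEE.K m) a b).symm
    rw [h3, hout, hout, h2]
    have hK0 : 0 < K := by linarith
    rw [inv_mul_le_iff₀ hK0] at h1
    exact h1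
  · have h1 := (hf ⟨_, hmem x hx⟩ ⟨_, hmem y hy⟩).2
    simp only [dif_pos hx, dif_pos hy]
    have h2 : d0 hm x y = mdist (Gam0 hm) (proj (Gam0 hm) x) (proj (Gam0 hm) y) :=
      (mdist_eq (RS0 hm) (CEE.K m) x y).symm
    have h3 : ∀ a b : H3, d1 hm a b = mdist (Gam1 hm) (proj (Gam1 hm) a) (proj (Gam1 hm) b) :=
      fun a b => (mdist_eq (RS1 hm) (CEE.K m) a b).symm
    rw [h3, hout, hout, h2]
    exact h1

theorem final : ∃ (S : Type) (_ : TopologicalSpace S), CompactSpace S ∧ ConnectedSpace S ∧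
    ∀ K : ℝ, 1 ≤ K → ∃ Γ₀ Γ₁ : Subgroup O31,
      ConvexCocompact Γ₀ ∧ GeodBoundary Γ₀ ∧ Nonempty (coreBd Γ₀ ≃ₜ S) ∧
      ConvexCocompact Γ₁ ∧ Nonempty (Mfd Γ₀ ≃ₜ Mfd Γ₁) ∧
      ¬ ∃ f : core Γ₀ → Mfd Γ₁, Function.Injective f ∧
        ∀ x y : core Γ₀, K⁻¹ * mdist Γ₀ x y ≤ mdist Γ₁ (f x) (f y) ∧
          mdist Γ₁ (f x) (f y) ≤ K * mdist Γ₀ x y := by
  have hm13 : 13 ≤ 13 := le_rfl
  have ho13 : Odd 13 := by decide
  refine ⟨Sm hm13 ho13, inferInstance, Sm_compact hm13 ho13, Sm_conn hm13 ho13, fun K hK => ?_⟩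
  obtain ⟨m₀, hm₀⟩ := main_lift K
  have hm : 13 ≤ 2 * m₀ + 13 := by omega
  have ho : Odd (2 * m₀ + 13) := ⟨m₀ + 6, by ring⟩
  refine ⟨Gam0 hm, Gam1 hm, ConvexCocompact0 hm ho, GeodBoundary0 hm ho, ?_, ConvexCocompact1 hm ho,
    homeo_Mfd hm ho, ?_⟩
  · obtain ⟨e1⟩ := coreBd_homeo hm ho
    obtain ⟨e2⟩ := Sm_homeo hm ho hm13 ho13
    exact ⟨e1.symm.trans e2⟩
  · rintro ⟨f, -, hf⟩
    exact hm₀ hm ho (by omega) (exists_F hm ho hK f hf)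

end CEE
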